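import Mathlib

/-!
# Identities of octonion algebras: the statement

`FreeNonUnitalNonAssocAlgebra F ℕ` is the free nonassociative algebra on the variables
`x_0, x_1, ...`.
-/

namespace OctStmt

universe u v

/-- `f` is an identity of the algebra `A`: every homomorphism to `A` (that is, every substitution
of elements of `A` for the variables) sends `f` to `0`. -/
def IsIdentity (F : Type u) [Field F] (A : Type v) [NonUnitalNonAssocRing A] [Module F A]
    (f : FreeNonUnitalNonAssocAlgebra F ℕ) : Prop :=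
  ∀ φ : FreeNonUnitalNonAssocAlgebra F ℕ →ₙₐ[F] A, φ f = 0

/-- `I` is a T-ideal: a two-sided ideal closed under all endomorphisms (substitutions). -/
structure IsTIdeal (F : Type u) [Field F] (I : Set (FreeNonUnitalNonAssocAlgebra F ℕ)) :
    Prop where
  zero : 0 ∈ I
  add : ∀ f g, f ∈ I → g ∈ I → f + g ∈ I
  smul : ∀ (c : F) f, f ∈ I → c • f ∈ I
  mul_left : ∀ f g, g ∈ I → f * g ∈ I
  mul_right : ∀ f g, f ∈ I → f * g ∈ I
  subst : ∀ (φ : FreeNonUnitalNonAssocAlgebra F ℕ →ₙₐ[F] FreeNonUnitalNonAssocAlgebra F ℕ) f,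
    f ∈ I → φ f ∈ I

/-- The Cayley-Dickson product with parameter `c` of pairs of quaternions. The quaternion algebra
has the basis `1, i, j, k` with `i ^ 2 = a`, `j ^ 2 = b`, `k = i j = - j i`, and `star` is its
conjugation. -/
def cdMul {F : Type u} [Field F] {a b : F} (c : F)
    (x y : QuaternionAlgebra F a 0 b × QuaternionAlgebra F a 0 b) :
    QuaternionAlgebra F a 0 b × QuaternionAlgebra F a 0 b :=
  (x.1 * y.1 + c • (star y.2 * x.2), y.2 * x.1 + x.2 * star y.1)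

/-- `A` is an octonion (Cayley-Dickson) algebra over `F`: it is isomorphic to the Cayley-Dickson
double, with parameter `c ≠ 0`, of a quaternion algebra (`a ≠ 0`, `b ≠ 0`). -/
def IsOctonion (F : Type u) [Field F] (A : Type v) [NonUnitalNonAssocRing A] [Module F A] :
    Prop :=
  ∃ a b c : F, a ≠ 0 ∧ b ≠ 0 ∧ c ≠ 0 ∧
    ∃ e : A → QuaternionAlgebra F a 0 b × QuaternionAlgebra F a 0 b, Function.Bijective e ∧
      (∀ x y, e (x + y) = e x + e y) ∧ (∀ (t : F) x, e (t • x) = t • e x) ∧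
      ∀ x y, e (x * y) = cdMul c (e x) (e y)

section poly
variable (F : Type u) [Field F] {R : Type v} [NonUnitalNonAssocRing R] [Module F R]

/-- `[x, y] = (xy - yx) / 2` -/
def br (x y : R) : R := (2⁻¹ : F) • (x * y - y * x)

/-- `x o y = (xy + yx) / 2` -/
def jo (x y : R) : R := (2⁻¹ : F) • (x * y + y * x)

/-- `D(x, y; z) = [x, [y, z]] + [y, [x, z]]` -/
def D (x y z : R) : R := br F x (br F y z) + br F y (br F x z)

/-- `Q(x, y; z, t) = [D(x, y; z), t] - [D(x, y; t), z]` -/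
def Q (x y z t : R) : R := br F (D F x y z) t - br F (D F x y t) z

/-- `E(x, y; z, t) = - (4 Q(x,y;z,t) + Q(x,z;y,t) + Q(y,z;x,t) + Q(x,t;z,y) + Q(y,t;z,x)) / 12` -/
def E (x y z t : R) : R :=
  -((12 : F)⁻¹ • ((4 : F) • Q F x y z t + Q F x z y t + Q F y z x t + Q F x t z y + Q F y t z x))

/-- the left alternative law `(x_0 x_0) x_1 - x_0 (x_0 x_1)` -/
def p1 (x : ℕ → R) : R := (x 0 * x 0) * x 1 - x 0 * (x 0 * x 1)

/-- the right alternative law `(x_1 x_0) x_0 - x_1 (x_0 x_0)` -/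
def p2 (x : ℕ → R) : R := (x 1 * x 0) * x 0 - x 1 * (x 0 * x 0)

/-- `[x_4, [x_0, x_1] o [x_2, x_3]]` -/
def p3 (x : ℕ → R) : R := br F (x 4) (jo F (br F (x 0) (x 1)) (br F (x 2) (x 3)))

/-- `([x_0, x_1] o [x_2, x_3]) o [x_4, x_5] + E([x_0, x_1], [x_2, x_3]; x_4, x_5)` -/
def p4 (x : ℕ → R) : R :=
  jo F (jo F (br F (x 0) (x 1)) (br F (x 2) (x 3))) (br F (x 4) (x 5))
    + E F (br F (x 0) (x 1)) (br F (x 2) (x 3)) (x 4) (x 5)

/-- `E(x_0, x_1; [x_2, x_3], x_4) - [E(x_0, x_1; x_2, x_3), x_4]` -/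
def p5 (x : ℕ → R) : R :=
  E F (x 0) (x 1) (br F (x 2) (x 3)) (x 4) - br F (E F (x 0) (x 1) (x 2) (x 3)) (x 4)

end poly

/-- The five polynomials, in the free nonassociative algebra. -/
def basis (F : Type u) [Field F] : Set (FreeNonUnitalNonAssocAlgebra F ℕ) :=
  {p1 (FreeNonUnitalNonAssocAlgebra.of F), p2 (FreeNonUnitalNonAssocAlgebra.of F),
    p3 F (FreeNonUnitalNonAssocAlgebra.of F), p4 F (FreeNonUnitalNonAssocAlgebra.of F),
    p5 F (FreeNonUnitalNonAssocAlgebra.of F)}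

end OctStmt
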