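import Mathlib

/-!
# Identities of octonions: basic definitions

`F` is a field of characteristic zero.
* `Fr F` is the free nonassociative algebra on `x_0, x_1, ...`, `X i` the variable.
* `tIdeal S` is the T-ideal generated by `S`.
* `V F` is the 7-dimensional space of imaginary octonions, its product `*` is the cross product.
-/

namespace OctId

open Finset

noncomputable section

section Free

variable (F : Type*) [Field F]

/-- the free nonassociative algebra on countably many variables -/
abbrev Fr := FreeNonUnitalNonAssocAlgebra F ℕ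

/-- the variable `x_i` -/
abbrev X (i : ℕ) : Fr F := FreeNonUnitalNonAssocAlgebra.of F i

variable {F}

/-- substitution / evaluation of the variables in an algebra -/
abbrev evalAt {A : Type*} [NonUnitalNonAssocSemiring A] [Module F A] [IsScalarTower F A A]
    [SMulCommClass F A A] (φ : ℕ → A) : Fr F →ₙₐ[F] A :=
  FreeNonUnitalNonAssocAlgebra.lift F φ

/-- `f` is an identity of the algebra `A` -/
def IsIdentity (A : Type*) [NonUnitalNonAssocSemiring A] [Module F A] [IsScalarTower F A A]
    [SMulCommClass F A A] (f : Fr F) : Prop :=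
  ∀ φ : ℕ → A, evalAt φ f = 0

/-- T-ideals: ideals stable under all substitutions of the variables -/
structure IsTIdeal (I : Submodule F (Fr F)) : Prop where
  mul_left : ∀ a b : Fr F, b ∈ I → a * b ∈ I
  mul_right : ∀ a b : Fr F, a ∈ I → a * b ∈ I
  subst : ∀ (φ : ℕ → Fr F) (f : Fr F), f ∈ I → evalAt φ f ∈ I

/-- the T-ideal generated by a set of polynomials -/
def tIdeal (S : Set (Fr F)) : Submodule F (Fr F) :=
  sInf {I | IsTIdeal I ∧ S ⊆ (I : Set (Fr F))}

end Free

/-! ## multilinear words -/

/-- `MW B w`: the word `w` is multilinear with set of letters `B` -/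
inductive MW : Finset ℕ → FreeMagma ℕ → Prop
  | of (i : ℕ) : MW {i} (FreeMagma.of i)
  | mul {A B : Finset ℕ} {a b : FreeMagma ℕ} : MW A a → MW B b → Disjoint A B →
      MW (A ∪ B) (a * b)

/-- value of a word -/
abbrev wv {A : Type*} [Mul A] (u : ℕ → A) (w : FreeMagma ℕ) : A := FreeMagma.lift u w

/-- span of the values of the multilinear words with letters `B` -/
def ML (F : Type*) [Field F] {A : Type*} [NonUnitalNonAssocRing A] [Module F A] (x : ℕ → A)
    (B : Finset ℕ) : Submodule F A :=
  Submodule.span F {a | ∃ w, MW B w ∧ a = wv x w}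

/-! ## the polynomials -/

section Poly

variable (F : Type*) [Field F] {R : Type*} [NonUnitalNonAssocRing R] [Module F R]

/-- `D_{ab} c = a(bc) + b(ac)` -/
def Dd (a b c : R) : R := a * (b * c) + b * (a * c)

/-- `O(ab|cd) = (D_{ab} c) d - (D_{ab} d) c` -/
def Oo (a b c d : R) : R := Dd a b c * d - Dd a b d * c

/-- the polynomial `E(a,b;c,d)`, which is `(a,b) c x d` on imaginary octonions -/
def EE (a b c d : R) : R :=
  (-(1 / 12 : F)) • ((4 : F) • Oo a b c d + Oo a c b d + Oo b c a d + Oo a d c b + Oo b d c a)

/-- Sagle's form of the Malcev identity -/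
def sagle (a b c d : R) : R :=
  (a * c) * (b * d) - ((a * b) * c) * d - ((b * c) * d) * a - ((c * d) * a) * b
    - ((d * a) * b) * c

/-- Jacobian -/
def Jj (a b c : R) : R := (a * b) * c + (b * c) * a + (c * a) * b

/-- lift of `(w,c) s` for `w` a product -/
def e3 (G : R → R → R → R) (w c s : R) : R :=
  G s c w - (1 / 3 : F) • (Dd s w c + (2 : F) • Dd c w s)

/-- lift of `phi(a,b,c) s` -/
def e4 (a b c s : R) : R :=
  EE F s c a b - (1 / 3 : F) • (Dd s (a * b) c + (2 : F) • Dd c (a * b) s)

/-- lift of `(a,c) b - (b,c) a` -/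
def Dh (a b c : R) : R := (1 / 3 : F) • (b * (c * a) + a * (b * c) - (2 : F) • (c * (a * b)))

/-- the Malcev basis as polynomials -/
def malB : Set (Fr F) :=
  {X F 0 * X F 1 + X F 1 * X F 0,
   sagle (X F 0) (X F 1) (X F 2) (X F 3),
   EE F (X F 0) (X F 1) (X F 2 * X F 3) (X F 4)
     - (EE F (X F 0) (X F 1) (X F 2) (X F 3)) * X F 4}

/-- algebras satisfying the Malcev basis -/
structure MalAlg (F : Type*) [Field F] (R : Type*) [NonUnitalNonAssocRing R] [Module F R] :
    Prop where
  anti : ∀ a b : R, a * b = -(b * a)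
  sagle : ∀ a b c d : R, sagle a b c d = 0
  b2 : ∀ a b c d e : R, EE F a b (c * d) e = (EE F a b c d) * e

end Poly

/-! ## imaginary octonions -/

/-- the imaginary octonions -/
def V (F : Type*) : Type _ := Fin 7 → F

namespace V

variable {F : Type*} [Field F]

instance : AddCommGroup (V F) := inferInstanceAs (AddCommGroup (Fin 7 → F))
instance : Module F (V F) := inferInstanceAs (Module F (Fin 7 → F))

/-- cross product, `e_i x e_{i+1} = e_{i+3}` (indices mod 7) -/
def cross (a b : V F) : V F := fun k =>
  (a (k + 4) * b (k + 5) - a (k + 5) * b (k + 4)) + (a (k + 2) * b (k + 6) - a (k + 6) * b (k + 2))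
    + (a (k + 1) * b (k + 3) - a (k + 3) * b (k + 1))

instance : Mul (V F) := ⟨cross⟩

/-- the standard form -/
def ip (a b : V F) : F := ∑ i : Fin 7, a i * b i

/-- basis vectors -/
def e (i : Fin 7) : V F := fun j => if j = i then 1 else 0

end V

end

end OctId
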