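import Pool.Agent.Work.MP_9b6dd6_al.CoreDefs

/-!
# The core induction step: the operators `Ph`
-/

namespace OctId

open Finset

set_option linter.unusedSectionVars false

noncomputable section

variable {F : Type*} [Field F] [CharZero F]

/-- words are linear in every letter -/
theorem CoreP_lin_word {B : Finset ℕ} {w : FreeMagma ℕ} (hw : MW B w) (z : ℕ) (hz : z ∈ B) :
    ∃ L : Mal F →ₗ[F] Mal F, ∀ u, put z u (wv xg w) = L u := by
  induction hw with
  | of i =>
    refine ⟨LinearMap.id, fun u => ?_⟩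
    have : i = z := (Finset.mem_singleton.1 hz).symm
    subst this
    rw [map_wv, wv_of, RF.sub_gen, Function.update_self]
    rfl
  | @mul A B a b ha hb hd iha ihb =>
    rcases Finset.mem_union.1 hz with h | h
    · obtain ⟨L, hL⟩ := iha h
      refine ⟨(LinearMap.mulRight F (wv xg b)).comp L, fun u => ?_⟩
      have hzB : z ∉ B := Finset.disjoint_left.1 hd h
      rw [wv_mul, map_mul, hL u, operA_put_fix hb hzB]
      rfl
    · obtain ⟨L, hL⟩ := ihb h
      refine ⟨(LinearMap.mulLeft F (wv xg a)).comp L, fun u => ?_⟩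
      have hzA : z ∉ A := Finset.disjoint_right.1 hd h
      rw [wv_mul, map_mul, hL u, operA_put_fix ha hzA]
      rfl

/-- elements of `ML` are linear in every letter -/
theorem CoreP_lin {B : Finset ℕ} {K : Mal F} (hK : K ∈ ML F xg B) (z : ℕ) (hz : z ∈ B) :
    ∃ L : Mal F →ₗ[F] Mal F, ∀ u, put z u K = L u := by
  refine ML_induction (p := fun K => ∃ L : Mal F →ₗ[F] Mal F, ∀ u, put z u K = L u)
    ?_ ?_ ?_ ?_ hK
  · intro w hw
    exact CoreP_lin_word hw z hz
  · exact ⟨0, fun u => by rw [map_zero]; rfl⟩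
  · rintro a b ⟨L, hL⟩ ⟨M, hM⟩
    exact ⟨L + M, fun u => by rw [map_add, hL, hM]; rfl⟩
  · rintro c a ⟨L, hL⟩
    exact ⟨c • L, fun u => by rw [map_smul, hL]; rfl⟩

theorem CoreP_put_add {B : Finset ℕ} {K : Mal F} (hK : K ∈ ML F xg B) {z : ℕ} (hz : z ∈ B)
    (u v : Mal F) : put z (u + v) K = put z u K + put z v K := by
  obtain ⟨L, hL⟩ := CoreP_lin hK z hz
  rw [hL, hL, hL, map_add]

/-- substitution of an element of `ML E` for a letter -/
theorem CoreP_put_mem_word {C E : Finset ℕ} {w : FreeMagma ℕ} (hw : MW C w) {t : ℕ}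
    (ht : t ∈ C) {v : Mal F} (hv : v ∈ ML F xg E) : Disjoint (C.erase t) E →
    put t v (wv xg w) ∈ ML F xg (C.erase t ∪ E) := by
  induction hw with
  | of i =>
    intro _
    have : i = t := (Finset.mem_singleton.1 ht).symm
    subst this
    have e : ({i} : Finset ℕ).erase i ∪ E = E := by simp
    rw [e, map_wv, wv_of, RF.sub_gen, Function.update_self]
    exact hv
  | @mul A B a b ha hb hd iha ihb =>
    intro hE
    rw [Finset.disjoint_left] at hE hd
    rcases Finset.mem_union.1 ht with h | h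
    · have htB : t ∉ B := hd h
      have h1 := iha h (by
        rw [Finset.disjoint_left]
        intro i hi
        rw [Finset.mem_erase] at hi
        exact hE (Finset.mem_erase.2 ⟨hi.1, Finset.mem_union_left _ hi.2⟩))
      rw [wv_mul, map_mul, operA_put_fix hb htB]
      have e : (A ∪ B).erase t ∪ E = (A.erase t ∪ E) ∪ B := by
        ext i
        simp only [Finset.mem_union, Finset.mem_erase]
        constructor
        · rintro (⟨h1, h2 | h2⟩ | h2)
          · exact Or.inl (Or.inl ⟨h1, h2⟩)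
          · exact Or.inr h2
          · exact Or.inl (Or.inr h2)
        · rintro ((⟨h1, h2⟩ | h2) | h2)
          · exact Or.inl ⟨h1, Or.inl h2⟩
          · exact Or.inr h2
          · exact Or.inl ⟨fun h => htB (h ▸ h2), Or.inr h2⟩
      rw [e]
      refine mul_mem_ML h1 (wv_mem_ML hb) ?_
      rw [Finset.disjoint_left]
      intro i hi hiB
      rcases Finset.mem_union.1 hi with h2 | h2
      · exact hd (Finset.mem_of_mem_erase h2) hiB
      · exact hE (Finset.mem_erase.2 ⟨fun h => htB (h ▸ hiB), Finset.mem_union_right _ hiB⟩) h2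
    · have htA : t ∉ A := fun h' => hd h' h
      have h1 := ihb h (by
        rw [Finset.disjoint_left]
        intro i hi
        rw [Finset.mem_erase] at hi
        exact hE (Finset.mem_erase.2 ⟨hi.1, Finset.mem_union_right _ hi.2⟩))
      rw [wv_mul, map_mul, operA_put_fix ha htA]
      have e : (A ∪ B).erase t ∪ E = A ∪ (B.erase t ∪ E) := by
        ext i
        simp only [Finset.mem_union, Finset.mem_erase]
        constructor
        · rintro (⟨h1, h2 | h2⟩ | h2)
          · exact Or.inl h2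
          · exact Or.inr (Or.inl ⟨h1, h2⟩)
          · exact Or.inr (Or.inr h2)
        · rintro (h2 | (⟨h1, h2⟩ | h2))
          · exact Or.inl ⟨fun h => htA (h ▸ h2), Or.inl h2⟩
          · exact Or.inl ⟨h1, Or.inr h2⟩
          · exact Or.inr h2
      rw [e]
      refine mul_mem_ML (wv_mem_ML ha) h1 ?_
      rw [Finset.disjoint_left]
      intro i hiA hi
      rcases Finset.mem_union.1 hi with h2 | h2
      · exact hd hiA (Finset.mem_of_mem_erase h2)
      · exact hE (Finset.mem_erase.2 ⟨fun h => htA (h ▸ hiA), Finset.mem_union_left _ hiA⟩) h2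

theorem CoreP_put_mem {C E : Finset ℕ} {h : Mal F} (hh : h ∈ ML F xg C) {t : ℕ}
    (ht : t ∈ C) {v : Mal F} (hv : v ∈ ML F xg E) (hd : Disjoint (C.erase t) E) :
    put t v h ∈ ML F xg (C.erase t ∪ E) := by
  refine ML_induction (p := fun h => put t v h ∈ ML F xg (C.erase t ∪ E)) ?_ ?_ ?_ ?_ hh
  · intro w hw
    exact CoreP_put_mem_word hw ht hv hd
  · rw [map_zero]; exact Submodule.zero_mem _
  · intro a b ha hb; rw [map_add]; exact Submodule.add_mem _ ha hb
  · intro c a ha; rw [map_smul]; exact Submodule.smul_mem _ c ha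

theorem CoreP_gen_mem (i : ℕ) : (xg i : Mal F) ∈ ML F xg {i} := by
  have := wv_mem_ML (F := F) (x := (xg : ℕ → Mal F)) (MW.of i)
  simpa using this

theorem CoreP_ev_put (t : ℕ) (v h : Mal F) :
    ev (put t v h) = pull (fun y => Function.update y t (ev v y)) (ev h) := by
  funext y
  rw [ev_put, pull_apply]

/-- letters outside are fixed -/
theorem CoreP_rn_fix {C : Finset ℕ} {h : Mal F} (hh : h ∈ ML F xg C) {σ : Equiv.Perm ℕ}
    (hσ : ∀ i ∈ C, σ i = i) : rn σ h = h := by
  have : RF.sub (fun i => xg (σ i)) h = RF.sub xg h := sub_congr hh fun i hi => by rw [hσ i hi]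
  rw [this]
  exact RF.sub_id h

variable {B : Finset ℕ}

section P

variable (D : CoreData F B) (hB : 5 ≤ B.card) (hI : IH F B.card) {a b c : ℕ} (ha : a ∈ B)
  (hb : b ∈ B) (hc : c ∈ B) (hab : a ≠ b) (hac : a ≠ c) (hbc : b ≠ c) {h : Mal F}
  (hh : h ∈ ML F xg (B \ {a, b, c}))
include hB hI ha hb hc hab hac hbc hh

/-- pairs inside the complement of `{a,b,c}` -/
theorem brk_P_in : ∑ e ∈ (B \ {a, b, c}).offDiag, brk D e.1 e.2 (Ph (xg a) (xg b) (xg c) h)
    = (-(12 * ((B.card : F) - 4))) • Ph (xg a) (xg b) (xg c) h := by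
  set C := B \ {a, b, c} with hCdef
  have hCcard : C.card = B.card - 3 := oneRow_card_sdiff3 ha hb hc hab hac hbc
  have hC2 : 2 ≤ C.card := by omega
  have hM2 : h ∈ M2 F := ML_le_M2 hC2 hh
  have hIC : Inj F C := hI C (by omega)
  set x := ev h with hx
  have hxW : x ∈ W F C := ev_mem_W hh
  have hx0 : rho x = 0 := rho_ev hh hC2
  have hmx : mu C x = h := mu_ev hIC hh
  have haC : a ∉ C := by simp [hCdef]
  have hbC : b ∉ C := by simp [hCdef]
  have hcC : c ∉ C := by simp [hCdef]
  have key : ∀ e ∈ C.offDiag, brk D e.1 e.2 (Ph (xg a) (xg b) (xg c) h) =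
      Ph (xg a) (xg b) (xg c) (mu C (x + ren (Equiv.swap e.1 e.2) x
        - (2 : F) • gm e.1 e.2 (ctr e.1 e.2 x) + cp e.1 e.2 (ctx e.1 e.2 x)))
      + rho (ctr e.1 e.2 x) • ((2 : F) • Ph (xg a) (xg b) (xg c) (mu C (oB F C))
        - (2 : F) • D.ee a b c) := by
    rintro ⟨p, q⟩ he
    rw [Finset.mem_offDiag] at he
    obtain ⟨hp, hq, hpq⟩ := he
    simp only at hp hq hpq ⊢
    have hpa : p ≠ a := fun h => haC (h ▸ hp)
    have hpb : p ≠ b := fun h => hbC (h ▸ hp)
    have hpc : p ≠ c := fun h => hcC (h ▸ hp)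
    have hqa : q ≠ a := fun h => haC (h ▸ hq)
    have hqb : q ≠ b := fun h => hbC (h ▸ hq)
    have hqc : q ≠ c := fun h => hcC (h ▸ hq)
    have hpB : p ∈ B := (Finset.mem_sdiff.1 hp).1
    have hqB : q ∈ B := (Finset.mem_sdiff.1 hq).1
    have hnd : [a, b, c, p, q].Nodup := by
      simp only [List.nodup_cons, List.mem_cons, List.not_mem_nil, or_false, not_or,
        not_false_eq_true, List.nodup_nil, and_true]
      exact ⟨⟨hab, hac, hpa.symm, hqa.symm⟩, ⟨hbc, hpb.symm, hqb.symm⟩, ⟨hpc.symm, hqc.symm⟩, hpq⟩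
    have e1 : B \ {a, b, c, p, q} = C \ {p, q} := by
      ext i
      simp only [hCdef, Finset.mem_sdiff, Finset.mem_insert, Finset.mem_singleton, not_or]
      tauto
    have e2 : B \ {a, b, c, q} = C.erase q := by
      ext i
      simp only [hCdef, Finset.mem_sdiff, Finset.mem_insert, Finset.mem_singleton, not_or,
        Finset.mem_erase]
      tauto
    have hctr : ctr p q x ∈ W F (B \ {a, b, c, p, q}) := by
      rw [e1]; exact ctr_mem hxW hp hq hpq
    have hctx : ctx p q x ∈ W F (B \ {a, b, c, q}) := by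
      rw [e2]; exact ctx_mem hxW hp hq hpq
    have hswapC : C.map (Equiv.swap p q).toEmbedding = C := by
      apply Finset.eq_of_subset_of_card_le
      · intro i hi
        obtain ⟨k, hk, rfl⟩ := Finset.mem_map.mp hi
        simp only [Equiv.coe_toEmbedding]
        by_cases h1 : k = p
        · rw [h1, Equiv.swap_apply_left]; exact hq
        · by_cases h2 : k = q
          · rw [h2, Equiv.swap_apply_right]; exact hp
          · rw [Equiv.swap_apply_of_ne_of_ne h1 h2]; exact hk
      · rw [Finset.card_map]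
    have hrn : rn (Equiv.swap p q) h = mu C (ren (Equiv.swap p q) x) := by
      have h1 := rn_mem_ML hh (Equiv.swap p q)
      rw [hswapC] at h1
      rw [← ev_rn, mu_ev hIC h1]
    unfold brk
    rw [ev_Ph_gen a b c hM2, ← hx, ctr_phm_in hpa hpb hpc hqa hqb hqc,
      ctx_phm_in hpa hpb hpc hqa hqb hqc,
      D.B2 a ha b hb c hc p hpB q hqB hnd _ hctr, D.B4 a ha b hb c hc p hpB q hqB hnd _ hctx,
      G_sub _ _ _ hM2, map_mul, RF.sub_gen, RF.sub_gen, RF.sub_gen,
      Equiv.swap_apply_of_ne_of_ne hpa.symm hqa.symm,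
      Equiv.swap_apply_of_ne_of_ne hpb.symm hqb.symm,
      Equiv.swap_apply_of_ne_of_ne hpc.symm hqc.symm, hrn, ← hCdef]
    simp only [map_add, map_sub, map_smul, hmx, smul_sub, smul_add]
    module
  rw [Finset.sum_congr rfl key, Finset.sum_add_distrib, ← Finset.sum_smul, rho_ctr_sum hxW hx0,
    zero_smul, add_zero]
  have h1 := casimir hxW
  have h2 : ∑ e ∈ C.offDiag, Ph (xg a) (xg b) (xg c) (mu C (x + ren (Equiv.swap e.1 e.2) x
        - (2 : F) • gm e.1 e.2 (ctr e.1 e.2 x) + cp e.1 e.2 (ctx e.1 e.2 x))) =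
      Ph (xg a) (xg b) (xg c) (mu C (∑ e ∈ C.offDiag, (x + ren (Equiv.swap e.1 e.2) x
        - (2 : F) • gm e.1 e.2 (ctr e.1 e.2 x) + cp e.1 e.2 (ctx e.1 e.2 x)))) := by
    rw [map_sum, map_sum]
  rw [h2, h1, map_smul, map_smul, hmx, hCcard, Nat.cast_sub (by omega)]
  congr 1
  push_cast
  ring

/-- pairs inside `{a,b,c}`, first order -/
theorem CoreP_self : brk D a b (Ph (xg a) (xg b) (xg c) h)
      = (-6 : F) • Ph (xg a) (xg b) (xg c) h := by
  set C := B \ {a, b, c} with hCdef
  have hCcard : C.card = B.card - 3 := oneRow_card_sdiff3 ha hb hc hab hac hbc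
  have hC2 : 2 ≤ C.card := by omega
  have hM2 : h ∈ M2 F := ML_le_M2 hC2 hh
  have hIC : Inj F C := hI C (by omega)
  set x := ev h with hx
  have hxW : x ∈ W F C := ev_mem_W hh
  have hx0 : rho x = 0 := rho_ev hh hC2
  have hmx : mu C x = h := mu_ev hIC hh
  have haC : a ∉ C := by simp [hCdef]
  have hbC : b ∉ C := by simp [hCdef]
  have hcC : c ∉ C := by simp [hCdef]
  have hrn : rn (Equiv.swap a b) (Ph (xg a) (xg b) (xg c) h) = -Ph (xg a) (xg b) (xg c) h := by
    rw [G_sub _ _ _ hM2, map_mul, RF.sub_gen, RF.sub_gen, RF.sub_gen, Equiv.swap_apply_left,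
      Equiv.swap_apply_right, Equiv.swap_apply_of_ne_of_ne hac.symm hbc.symm,
      CoreP_rn_fix hh (fun i hi => Equiv.swap_apply_of_ne_of_ne (ne_of_mem_of_not_mem hi haC)
        (ne_of_mem_of_not_mem hi hbC))]
    exact Ph_skew12 _ _ _ hM2
  have e1 : (B.erase b) \ {a, c} = C := by
    ext i
    simp only [hCdef, Finset.mem_sdiff, Finset.mem_insert, Finset.mem_singleton, not_or,
      Finset.mem_erase]
    tauto
  have hgm : gm a c x ∈ W F (B.erase b) :=
    gm_mem (by rw [e1]; exact hxW) (Finset.mem_erase.2 ⟨hab, ha⟩)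
      (Finset.mem_erase.2 ⟨hbc.symm, hc⟩) hac
  have hcard : (B.erase b).card = B.card - 1 := Finset.card_erase_of_mem hb
  unfold brk
  rw [hrn, ev_Ph_gen a b c hM2, ← hx, ctr_phm_self hxW haC hbC hcC hab hac hbc,
    ctx_phm_self hxW haC hbC hcC hab hac hbc, map_zero, smul_zero, map_smul,
    D.A2 a ha b hb hab _ hgm (by rw [rho_gm, hx0]),
    mu_gm (hI _ (by omega)) (by rw [e1]; exact hIC) (Finset.mem_erase.2 ⟨hab, ha⟩)
      (Finset.mem_erase.2 ⟨hbc.symm, hc⟩) hac (by omega) (by rw [e1]; exact hxW) hx0, e1, hmx,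
    cher_G_self haC hac hh hC2]
  module

theorem brk_P_self : brk D a b (Ph (xg a) (xg b) (xg c) h)
      = (-6 : F) • Ph (xg a) (xg b) (xg c) h ∧
    brk D b a (Ph (xg a) (xg b) (xg c) h) = (-6 : F) • Ph (xg a) (xg b) (xg c) h := by
  have hM2 : h ∈ M2 F := ML_le_M2 (by
    rw [oneRow_card_sdiff3 ha hb hc hab hac hbc]; omega) hh
  refine ⟨CoreP_self D hB hI ha hb hc hab hac hbc hh, ?_⟩
  have h1 := CoreP_self D hB hI hb ha hc hab.symm hbc hac (h := h) (by
    rwa [Finset.insert_comm b a])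
  have h2 : Ph (xg a) (xg b) (xg c) h = (-1 : F) • Ph (xg b) (xg a) (xg c) h := by
    rw [Ph_skew12 _ _ _ hM2, neg_one_smul]
  rw [h2, brk_smul, h1]
  module

/-- the two brackets of a cross pair -/
theorem CoreP_cross {q : ℕ} (hq : q ∈ B \ {a, b, c}) :
    brk D a q (Ph (xg a) (xg b) (xg c) h) = Ph (xg a) (xg b) (xg c) h
      + Ph (xg q) (xg b) (xg c) (put q (xg a) h)
      - (2 : F) • G (xg a) (xg q) (put q (xg b * xg c) h)
      + put q ((xg b * xg c) * (xg a * xg q)) h ∧
    brk D q a (Ph (xg a) (xg b) (xg c) h) = Ph (xg a) (xg b) (xg c) h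
      + Ph (xg q) (xg b) (xg c) (put q (xg a) h)
      - (2 : F) • G (xg a) (xg q) (put q (xg b * xg c) h)
      + put q ((xg b * xg c) * (xg a * xg q)) h := by
  set C := B \ {a, b, c} with hCdef
  have hCcard : C.card = B.card - 3 := oneRow_card_sdiff3 ha hb hc hab hac hbc
  have hC2 : 2 ≤ C.card := by omega
  have hM2 : h ∈ M2 F := ML_le_M2 hC2 hh
  set x := ev h with hx
  have hxW : x ∈ W F C := ev_mem_W hh
  have haC : a ∉ C := by simp [hCdef]
  have hbC : b ∉ C := by simp [hCdef]
  have hcC : c ∉ C := by simp [hCdef]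
  have hqa : q ≠ a := fun h => haC (h ▸ hq)
  have hqb : q ≠ b := fun h => hbC (h ▸ hq)
  have hqc : q ≠ c := fun h => hcC (h ▸ hq)
  have hqB : q ∈ B := (Finset.mem_sdiff.1 hq).1
  have hcard1 : (B \ {a, q}).card = B.card - 2 := oneRow_card_sdiff ha hqB hqa.symm
  have hcard2 : (B.erase q).card = B.card - 1 := Finset.card_erase_of_mem hqB
  have hcard3 : (B.erase a).card = B.card - 1 := Finset.card_erase_of_mem ha
  -- the lifts
  have hbcM : (xg b * xg c : Mal F) ∈ ML F xg ({b} ∪ {c}) :=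
    mul_mem_ML (CoreP_gen_mem b) (CoreP_gen_mem c) (Finset.disjoint_singleton.2 hbc)
  have hk1 : put q (xg b * xg c) h ∈ ML F xg (B \ {a, q}) := by
    have h1 := CoreP_put_mem hh hq hbcM (by
      rw [Finset.disjoint_left]
      intro i hi hi'
      simp only [Finset.mem_union, Finset.mem_singleton] at hi'
      rcases hi' with rfl | rfl
      · exact hbC (Finset.mem_of_mem_erase hi)
      · exact hcC (Finset.mem_of_mem_erase hi))
    have e : C.erase q ∪ ({b} ∪ {c}) = B \ {a, q} := by
      ext i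
      simp only [hCdef, Finset.mem_sdiff, Finset.mem_insert, Finset.mem_singleton, not_or,
        Finset.mem_erase, Finset.mem_union]
      constructor
      · rintro (⟨h1, h2, h3, h4, h5⟩ | rfl | rfl)
        · exact ⟨h2, h3, h1⟩
        · exact ⟨hb, hab.symm, hqb.symm⟩
        · exact ⟨hc, hac.symm, hqc.symm⟩
      · rintro ⟨h1, h2, h3⟩
        by_cases hib : i = b
        · exact Or.inr (Or.inl hib)
        · by_cases hic : i = c
          · exact Or.inr (Or.inr hic)
          · exact Or.inl ⟨h3, h1, h2, hib, hic⟩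
    rwa [e] at h1
  have hk2 : put q ((xg b * xg c) * xg a) h ∈ ML F xg (B.erase q) := by
    have h1 := CoreP_put_mem hh hq (mul_mem_ML hbcM (CoreP_gen_mem a) (by
      rw [Finset.disjoint_singleton_right]
      simp only [Finset.mem_union, Finset.mem_singleton, not_or]
      exact ⟨hab, hac⟩)) (by
      rw [Finset.disjoint_left]
      intro i hi hi'
      simp only [Finset.mem_union, Finset.mem_singleton] at hi'
      rcases hi' with (rfl | rfl) | rfl
      · exact hbC (Finset.mem_of_mem_erase hi)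
      · exact hcC (Finset.mem_of_mem_erase hi)
      · exact haC (Finset.mem_of_mem_erase hi))
    have e : C.erase q ∪ ({b} ∪ {c} ∪ {a}) = B.erase q := by
      ext i
      simp only [hCdef, Finset.mem_sdiff, Finset.mem_insert, Finset.mem_singleton, not_or,
        Finset.mem_erase, Finset.mem_union]
      constructor
      · rintro (⟨h1, h2, h3, h4, h5⟩ | (rfl | rfl) | rfl)
        · exact ⟨h1, h2⟩
        · exact ⟨hqb.symm, hb⟩
        · exact ⟨hqc.symm, hc⟩
        · exact ⟨hqa.symm, ha⟩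
      · rintro ⟨h1, h2⟩
        by_cases hib : i = b
        · exact Or.inr (Or.inl (Or.inl hib))
        · by_cases hic : i = c
          · exact Or.inr (Or.inl (Or.inr hic))
          · by_cases hia : i = a
            · exact Or.inr (Or.inr hia)
            · exact Or.inl ⟨h1, h2, hia, hib, hic⟩
    rwa [e] at h1
  have hk3 : put q (xg q * (xg b * xg c)) h ∈ ML F xg (B.erase a) := by
    have h1 := CoreP_put_mem hh hq (mul_mem_ML (CoreP_gen_mem q) hbcM (by
      rw [Finset.disjoint_singleton_left]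
      simp only [Finset.mem_union, Finset.mem_singleton, not_or]
      exact ⟨hqb, hqc⟩)) (by
      rw [Finset.disjoint_left]
      intro i hi hi'
      simp only [Finset.mem_union, Finset.mem_singleton] at hi'
      rcases hi' with rfl | rfl | rfl
      · exact Finset.notMem_erase _ _ hi
      · exact hbC (Finset.mem_of_mem_erase hi)
      · exact hcC (Finset.mem_of_mem_erase hi))
    have e : C.erase q ∪ ({q} ∪ ({b} ∪ {c})) = B.erase a := by
      ext i
      simp only [hCdef, Finset.mem_sdiff, Finset.mem_insert, Finset.mem_singleton, not_or,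
        Finset.mem_erase, Finset.mem_union]
      constructor
      · rintro (⟨h1, h2, h3, h4, h5⟩ | rfl | rfl | rfl)
        · exact ⟨h3, h2⟩
        · exact ⟨hqa, hqB⟩
        · exact ⟨hab.symm, hb⟩
        · exact ⟨hac.symm, hc⟩
      · rintro ⟨h1, h2⟩
        by_cases hib : i = b
        · exact Or.inr (Or.inr (Or.inl hib))
        · by_cases hic : i = c
          · exact Or.inr (Or.inr (Or.inr hic))
          · by_cases hiq : i = q
            · exact Or.inr (Or.inl hiq)
            · exact Or.inl ⟨hiq, h2, h1, hib, hic⟩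
    rwa [e] at h1
  -- their values
  have hv1 : pull (fun y => Function.update y q (y b * y c)) x = ev (put q (xg b * xg c) h) := by
    rw [CoreP_ev_put]
    simp only [ev_mul, ev_gen]
    rfl
  have hv2 : pull (fun y => Function.update y q ((y b * y c) * y a)) x =
      ev (put q ((xg b * xg c) * xg a) h) := by
    rw [CoreP_ev_put]
    simp only [ev_mul, ev_gen]
    rfl
  have hv3 : pull (fun y => Function.update y q (y q * (y b * y c))) x =
      ev (put q (xg q * (xg b * xg c)) h) := by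
    rw [CoreP_ev_put]
    simp only [ev_mul, ev_gen]
    rfl
  -- the renaming
  have hrn : rn (Equiv.swap a q) (Ph (xg a) (xg b) (xg c) h) =
      Ph (xg q) (xg b) (xg c) (put q (xg a) h) := by
    rw [G_sub _ _ _ hM2, map_mul, RF.sub_gen, RF.sub_gen, RF.sub_gen, Equiv.swap_apply_left,
      Equiv.swap_apply_of_ne_of_ne hab.symm hqb.symm,
      Equiv.swap_apply_of_ne_of_ne hac.symm hqc.symm]
    congr 1
    refine sub_congr hh fun i hi => ?_
    by_cases hiq : i = q
    · rw [hiq, Equiv.swap_apply_right, Function.update_self]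
    · rw [Function.update_of_ne hiq,
        Equiv.swap_apply_of_ne_of_ne (ne_of_mem_of_not_mem hi haC) hiq]
  -- the cherries
  have hch2 : cher a q (put q ((xg b * xg c) * xg a) h) =
      put q ((xg b * xg c) * (xg a * xg q)) h := by
    rw [RF.sub_sub]
    refine sub_congr hh fun i hi => ?_
    by_cases hiq : i = q
    · subst hiq
      rw [Function.update_self, Function.update_self, map_mul, map_mul, RF.sub_gen, RF.sub_gen,
        RF.sub_gen, Function.update_self, Function.update_of_ne hab.symm,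
        Function.update_of_ne hac.symm]
    · rw [Function.update_of_ne hiq, Function.update_of_ne hiq, RF.sub_gen,
        Function.update_of_ne (ne_of_mem_of_not_mem hi haC)]
  have hch3 : cher q a (put q (xg q * (xg b * xg c)) h) =
      put q ((xg b * xg c) * (xg a * xg q)) h := by
    have hM := malAlg_Mal (F := F)
    have e : (xg b * xg c : Mal F) * (xg a * xg q) = (xg q * xg a) * (xg b * xg c) := by
      rw [hM.anti (xg b * xg c), hM.anti (xg a) (xg q), neg_mul, neg_neg]
    rw [e, RF.sub_sub]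
    refine sub_congr hh fun i hi => ?_
    by_cases hiq : i = q
    · subst hiq
      rw [Function.update_self, Function.update_self, map_mul, map_mul, RF.sub_gen, RF.sub_gen,
        RF.sub_gen, Function.update_self, Function.update_of_ne hqb.symm,
        Function.update_of_ne hqc.symm]
    · rw [Function.update_of_ne hiq, Function.update_of_ne hiq, RF.sub_gen,
        Function.update_of_ne hiq]
  have hI1 : Inj F (B \ {a, q}) := hI _ (by omega)
  have hI2 : Inj F (B.erase q) := hI _ (by omega)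
  have hI3 : Inj F (B.erase a) := hI _ (by omega)
  constructor
  · unfold brk
    rw [hrn, ev_Ph_gen a b c hM2, ← hx, ctr_phm_cross hxW haC hbC hcC hq hab hac hbc,
      ctx_phm_cross hxW haC hbC hcC hq hab hac hbc, hv1, hv2,
      D.A1 a ha q hqB hqa.symm _ (ev_mem_W hk1) (rho_ev hk1 (by omega)),
      D.A2 a ha q hqB hqa.symm _ (ev_mem_W hk2) (rho_ev hk2 (by omega)),
      mu_ev hI1 hk1, mu_ev hI2 hk2, hch2]
  · unfold brk
    rw [Equiv.swap_comm q a, hrn, ev_Ph_gen a b c hM2, ← hx,
      ctr_phm_cross' hxW haC hbC hcC hq hab hac hbc,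
      ctx_phm_cross' hxW haC hbC hcC hq hab hac hbc, hv1, hv3,
      D.A1 q hqB a ha hqa _ (by rw [Finset.pair_comm q a]; exact ev_mem_W hk1)
        (rho_ev hk1 (by omega)),
      D.A2 q hqB a ha hqa _ (ev_mem_W hk3) (rho_ev hk3 (by omega)), Finset.pair_comm q a,
      mu_ev hI1 hk1, mu_ev hI3 hk3, hch3, G_symm (xg q) (xg a) (sub_mem_M2 _ hM2)]

theorem brk_P_cross {q : ℕ} (hq : q ∈ B \ {a, b, c}) :
    brk D a q (Ph (xg a) (xg b) (xg c) h) + brk D q a (Ph (xg a) (xg b) (xg c) h)
      + brk D b q (Ph (xg a) (xg b) (xg c) h) + brk D q b (Ph (xg a) (xg b) (xg c) h)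
      + brk D c q (Ph (xg a) (xg b) (xg c) h) + brk D q c (Ph (xg a) (xg b) (xg c) h) = 0 := by
  have hC2 : 2 ≤ (B \ {a, b, c}).card := by
    rw [oneRow_card_sdiff3 ha hb hc hab hac hbc]; omega
  have hM2 : h ∈ M2 F := ML_le_M2 hC2 hh
  have hcyc : ∀ (u v w g : Mal F), g ∈ M2 F → Ph u v w g = Ph v w u g := by
    intro u v w g hg
    rw [Ph_skew12 _ _ _ hg, Ph_skew23 _ _ _ hg, neg_neg]
  have es1 : (B \ {b, c, a} : Finset ℕ) = B \ {a, b, c} := by
    ext i
    simp only [Finset.mem_sdiff, Finset.mem_insert, Finset.mem_singleton, not_or]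
    tauto
  have es2 : (B \ {c, a, b} : Finset ℕ) = B \ {a, b, c} := by
    ext i
    simp only [Finset.mem_sdiff, Finset.mem_insert, Finset.mem_singleton, not_or]
    tauto
  have h1 := CoreP_cross D hB hI ha hb hc hab hac hbc hh hq
  have h2 := CoreP_cross D hB hI hb hc ha hbc hab.symm hac.symm (h := h) (by rwa [es1])
    (q := q) (by rwa [es1])
  have h3 := CoreP_cross D hB hI hc ha hb hac.symm hbc.symm hab (h := h) (by rwa [es2])
    (q := q) (by rwa [es2])
  have hu1 : Ph (xg b) (xg c) (xg a) h = Ph (xg a) (xg b) (xg c) h := by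
    rw [← hcyc _ _ _ _ hM2]
  have hu2 : Ph (xg c) (xg a) (xg b) h = Ph (xg a) (xg b) (xg c) h := by
    rw [← hcyc _ _ _ _ hM2, ← hcyc _ _ _ _ hM2]
  rw [hu1] at h2
  rw [hu2] at h3
  have hSP := SP hh hC2 hq (xg a) (xg b) (xg c)
  rw [CoreP_put_add hh hq, CoreP_put_add hh hq] at hSP
  have hc1 : Ph (xg a) (xg q) (xg c) (put q (xg b) h) =
      Ph (xg q) (xg c) (xg a) (put q (xg b) h) := hcyc _ _ _ _ (sub_mem_M2 _ hM2)
  have hc2 : Ph (xg a) (xg b) (xg q) (put q (xg c) h) =
      Ph (xg q) (xg a) (xg b) (put q (xg c) h) := by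
    rw [hcyc (xg q) _ _ _ (sub_mem_M2 _ hM2)]
  rw [hc1, hc2] at hSP
  rw [h1.1, h1.2, h2.1, h2.2, h3.1, h3.2]
  have hSP' := sub_eq_zero.2 hSP
  have : ∀ (u p1 p2 p3 g1 g2 g3 s1 s2 s3 : Mal F),
      s1 + s2 + s3 - ((-3 : F) • u - p1 - p2 - p3 + (2 : F) • (g1 + g2 + g3)) = 0 →
      (u + p1 - (2 : F) • g1 + s1) + (u + p1 - (2 : F) • g1 + s1)
      + (u + p2 - (2 : F) • g2 + s2) + (u + p2 - (2 : F) • g2 + s2)
      + (u + p3 - (2 : F) • g3 + s3) + (u + p3 - (2 : F) • g3 + s3) = 0 := by
    intro u p1 p2 p3 g1 g2 g3 s1 s2 s3 hs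
    have h2 : (2 : F) • (s1 + s2 + s3 -
        ((-3 : F) • u - p1 - p2 - p3 + (2 : F) • (g1 + g2 + g3))) = 0 := by rw [hs, smul_zero]
    rw [← h2]
    module
  exact this _ _ _ _ _ _ _ _ _ _ hSP'

theorem Q_P : ∑ e ∈ B.offDiag, brk D e.1 e.2 (Ph (xg a) (xg b) (xg c) h)
    + (12 * ((B.card : F) - 1)) • Ph (xg a) (xg b) (xg c) h = 0 := by
  have hC2 : 2 ≤ (B \ {a, b, c}).card := by
    rw [oneRow_card_sdiff3 ha hb hc hab hac hbc]; omega
  have hM2 : h ∈ M2 F := ML_le_M2 hC2 hh
  have hcyc : ∀ (u v w g : Mal F), g ∈ M2 F → Ph u v w g = Ph v w u g := by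
    intro u v w g hg
    rw [Ph_skew12 _ _ _ hg, Ph_skew23 _ _ _ hg, neg_neg]
  have es1 : (B \ {b, c, a} : Finset ℕ) = B \ {a, b, c} := by
    ext i
    simp only [Finset.mem_sdiff, Finset.mem_insert, Finset.mem_singleton, not_or]
    tauto
  have es2 : (B \ {c, a, b} : Finset ℕ) = B \ {a, b, c} := by
    ext i
    simp only [Finset.mem_sdiff, Finset.mem_insert, Finset.mem_singleton, not_or]
    tauto
  have hu1 : Ph (xg b) (xg c) (xg a) h = Ph (xg a) (xg b) (xg c) h := by
    rw [← hcyc _ _ _ _ hM2]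
  have hu2 : Ph (xg c) (xg a) (xg b) h = Ph (xg a) (xg b) (xg c) h := by
    rw [← hcyc _ _ _ _ hM2, ← hcyc _ _ _ _ hM2]
  have h1 := brk_P_self D hB hI ha hb hc hab hac hbc hh
  have h2 := brk_P_self D hB hI hb hc ha hbc hab.symm hac.symm (h := h) (by rwa [es1])
  have h3 := brk_P_self D hB hI hc ha hb hac.symm hbc.symm hab (h := h) (by rwa [es2])
  rw [hu1] at h2
  rw [hu2] at h3
  have hin := brk_P_in D hB hI ha hb hc hab hac hbc hh
  have hcross : ∀ q ∈ B \ {a, b, c}, _ := fun q hq =>
    brk_P_cross D hB hI ha hb hc hab hac hbc hh hq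
  set u := Ph (xg a) (xg b) (xg c) h with hu
  set C := B \ {a, b, c} with hCdef
  have haC : a ∉ C := by simp [hCdef]
  have hbC : b ∉ C := by simp [hCdef]
  have hcC : c ∉ C := by simp [hCdef]
  set g : ℕ → ℕ → Mal F := fun p q => if p = q then 0 else brk D p q u with hg
  have hsum : ∀ S : Finset ℕ, ∑ e ∈ S.offDiag, brk D e.1 e.2 u = ∑ p ∈ S, ∑ q ∈ S, g p q := by
    intro S
    have e1 : S.offDiag = (S ×ˢ S).filter (fun e => e.1 ≠ e.2) := by
      ext e
      simp only [Finset.mem_offDiag, Finset.mem_filter, Finset.mem_product, and_assoc]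
    rw [← Finset.sum_product', e1, Finset.sum_filter]
    refine Finset.sum_congr rfl fun e _ => ?_
    simp only [hg]
    by_cases h1 : e.1 = e.2
    · rw [if_pos h1, if_neg (not_not.2 h1)]
    · rw [if_neg h1, if_pos h1]
  have hBC : B = C ∪ {a, b, c} := by
    ext i
    simp only [hCdef, Finset.mem_union, Finset.mem_sdiff, Finset.mem_insert,
      Finset.mem_singleton]
    constructor
    · intro hi
      by_cases h : i = a ∨ i = b ∨ i = c
      · exact Or.inr h
      · exact Or.inl ⟨hi, h⟩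
    · rintro (⟨h, _⟩ | rfl | rfl | rfl)
      · exact h
      · exact ha
      · exact hb
      · exact hc
  have hdisj : Disjoint C {a, b, c} := Finset.sdiff_disjoint
  have hA : ∀ f : ℕ → Mal F, ∑ p ∈ ({a, b, c} : Finset ℕ), f p = f a + (f b + f c) := by
    intro f
    rw [Finset.sum_insert (by simp [hab, hac]), Finset.sum_insert (by simp [hbc]),
      Finset.sum_singleton]
  have hsplit : ∑ e ∈ B.offDiag, brk D e.1 e.2 u =
      ∑ e ∈ C.offDiag, brk D e.1 e.2 u +
      ∑ q ∈ C, (brk D a q u + brk D q a u + brk D b q u + brk D q b u + brk D c q u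
        + brk D q c u) +
      (brk D a b u + brk D b a u + (brk D b c u + brk D c b u) + (brk D c a u + brk D a c u)) := by
    rw [hsum B, hsum C]
    conv_lhs => rw [hBC]
    rw [Finset.sum_union hdisj]
    simp only [Finset.sum_union hdisj, hA, Finset.sum_add_distrib]
    have gne : ∀ p q, p ≠ q → g p q = brk D p q u := fun p q h => if_neg h
    have gaa : ∀ p, g p p = 0 := fun p => if_pos rfl
    have s1 : ∀ t, t ∉ C → ∑ q ∈ C, g t q = ∑ q ∈ C, brk D t q u := fun t ht =>
      Finset.sum_congr rfl fun q hq => gne _ _ (fun h => ht (h ▸ hq))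
    have s2 : ∀ t, t ∉ C → ∑ q ∈ C, g q t = ∑ q ∈ C, brk D q t u := fun t ht =>
      Finset.sum_congr rfl fun q hq => gne _ _ (fun h => ht (h ▸ hq))
    rw [s1 a haC, s1 b hbC, s1 c hcC, s2 a haC, s2 b hbC, s2 c hcC, gaa, gaa, gaa, gne a b hab,
      gne b a hab.symm, gne b c hbc, gne c b hbc.symm, gne a c hac, gne c a hac.symm]
    abel
  rw [hsplit, hin, Finset.sum_congr rfl hcross, Finset.sum_const_zero, h1.1, h1.2, h2.1, h2.2,
    h3.1, h3.2]
  module

end P

end

end OctId
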