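import Pool.Agent.Work.MP_9b6dd6_al.CoreG
import Pool.Agent.Work.MP_9b6dd6_al.CoreP

/-!
# The abstract core induction step
-/

namespace OctId

open Finset

set_option linter.unusedSectionVars false

noncomputable section

variable {F : Type*} [Field F] [CharZero F]

variable {B : Finset ℕ}

/-- the action of the permutations on the relatively free algebra -/
def Core_act : Equiv.Perm ℕ →* Module.End F (Mal F) where
  toFun σ :=
    { toFun := fun u => rn σ u
      map_add' := fun u v => map_add _ u v
      map_smul' := fun c u => map_smul _ c u }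
  map_one' := by
    ext u
    exact oper_rn_one u
  map_mul' := by
    intro σ τ
    ext u
    exact (oper_rn_rn σ τ u).symm

theorem Core_act_apply (σ : Equiv.Perm ℕ) (u : Mal F) : Core_act σ u = rn σ u := rfl

/-- the operator `Q` -/
def Core_Q (D : CoreData F B) : Mal F →ₗ[F] Mal F where
  toFun u := ∑ e ∈ B.offDiag, brk D e.1 e.2 u + (12 * ((B.card : F) - 1)) • u
  map_add' u v := by
    simp only [brk_add, Finset.sum_add_distrib, smul_add]
    abel
  map_smul' c u := by
    simp only [brk_smul, ← Finset.smul_sum, RingHom.id_apply, smul_add]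
    rw [smul_comm c]

theorem Core_Q_apply (D : CoreData F B) (u : Mal F) :
    Core_Q D u = ∑ e ∈ B.offDiag, brk D e.1 e.2 u + (12 * ((B.card : F) - 1)) • u := rfl

/-- the abstract induction step -/
theorem inj_core (D : CoreData F B) (hB : 5 ≤ B.card) (hI : IH F B.card) : Inj F B := by
  intro u hu hev
  have h1 : ML F xg B ≤ LinearMap.ker (Core_Q D) := by
    refine (genM hB).trans (Submodule.span_le.2 ?_)
    rintro v (⟨p, q, h, hp, hq, hpq, hh, rfl⟩ | ⟨p, q, r, h, hp, hq, hr, hpq, hpr, hqr, hh, rfl⟩)
    · exact LinearMap.mem_ker.2 (Q_G D hB hI hp hq hpq hh)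
    · exact LinearMap.mem_ker.2 (Q_P D hB hI hp hq hr hpq hpr hqr hh)
  have h2 : ∑ e ∈ B.offDiag, brk D e.1 e.2 u + (12 * ((B.card : F) - 1)) • u = 0 :=
    LinearMap.mem_ker.1 (h1 hu)
  have h3 : ∀ p q : ℕ, brk D p q u = u + rn (Equiv.swap p q) u := by
    intro p q
    unfold brk
    rw [hev, map_zero, map_zero, map_zero, map_zero, smul_zero, sub_zero, add_zero]
  simp only [h3] at h2
  have h4 := dd_sub (F := F) Core_act B (by omega) (⊥ : Submodule F (Mal F))
    (fun σ _ g hg => by
      rw [Submodule.mem_bot] at hg ⊢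
      rw [hg, map_zero]) u (by
      rw [Submodule.mem_bot]
      exact h2)
  exact (Submodule.mem_bot F).1 h4

end

end OctId
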