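import Pool.Agent.Work.MP_9b6dd6_al.CoreDefs

/-!
# The relations in odd degree: (O3)
-/

namespace OctId

open Finset

set_option linter.unusedSectionVars false

noncomputable section

variable {F : Type*} [Field F] [CharZero F]

theorem OddB_e4_mem {a b c s : ℕ} (hd : [a, b, c, s].Nodup) :
    e4 F (xg a) (xg b) (xg c) (xg s) ∈ ML F (xg : ℕ → Mal F) {a, b, c, s} := by
  simp only [List.nodup_cons, List.mem_cons, List.not_mem_nil, or_false, not_or, List.nodup_nil,
    not_false_eq_true, and_true] at hd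
  obtain ⟨⟨hab, hac, has⟩, ⟨hbc, hbs⟩, hcs⟩ := hd
  have g : ∀ i : ℕ, (xg i : Mal F) ∈ ML F xg {i} := fun i => oper_ML_gen xg i
  have d : ∀ {i j : ℕ}, i ≠ j → Disjoint ({i} : Finset ℕ) {j} := fun h =>
    Finset.disjoint_singleton.mpr h
  have h1 := oper_ML_EE (d (Ne.symm hcs)) (d (Ne.symm has)) (d (Ne.symm hac)) (d (Ne.symm hbs))
    (d (Ne.symm hbc)) (d hab) (g s) (g c) (g a) (g b)
  have hab' := oper_ML_mul (d hab) (g a) (g b)
  have h2 := oper_ML_Dd (C := {s}) (D := {a} ∪ {b}) (E := {c})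
    (by simp [Ne.symm has, Ne.symm hbs]) (d (Ne.symm hcs))
    (by simp [Ne.symm hac, Ne.symm hbc]) (g s) hab' (g c)
  have h3 := oper_ML_Dd (C := {c}) (D := {a} ∪ {b}) (E := {s})
    (by simp [Ne.symm hac, Ne.symm hbc]) (d hcs) (by simp [Ne.symm has, Ne.symm hbs]) (g c) hab' (g s)
  have e1 : ({s} ∪ {c} ∪ {a} ∪ {b} : Finset ℕ) = {a, b, c, s} := by
    ext i; simp only [mem_union, mem_singleton, mem_insert]; tauto
  have e2 : ({s} ∪ ({a} ∪ {b}) ∪ {c} : Finset ℕ) = {a, b, c, s} := by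
    ext i; simp only [mem_union, mem_singleton, mem_insert]; tauto
  have e3 : ({c} ∪ ({a} ∪ {b}) ∪ {s} : Finset ℕ) = {a, b, c, s} := by
    ext i; simp only [mem_union, mem_singleton, mem_insert]; tauto
  rw [e1] at h1
  rw [e2] at h2
  rw [e3] at h3
  unfold e4
  exact Submodule.sub_mem _ h1 (Submodule.smul_mem _ _ (Submodule.add_mem _ h2
    (Submodule.smul_mem _ _ h3)))

/-- the key step: (O3) for a smaller set -/
theorem OddB_key {B C D E : Finset ℕ} {a b c p q : ℕ} (ha : a ∈ B) (hb : b ∈ B) (hc : c ∈ B)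
    (hp : p ∈ B) (hq : q ∈ B) (hab : a ≠ b) (hac : a ≠ c) (hap : a ≠ p)
    (hbc : b ≠ c) (hbp : b ≠ p) (hcp : c ≠ p) (hpq : p ≠ q)
    (h5 : 5 ≤ B.card) (hE : E = B.erase q) (hD : D = B \ {a, b, c})
    (haE : a ∈ E) (hbE : b ∈ E) (hcE : c ∈ E) (hpD : p ∈ D) (hqD : q ∈ D)
    (hEC : E \ {a, b, c} = C) (hDC : D.erase q = C) (hpC : p ∈ C)
    (hcE2 : 2 ≤ E.card) (hcD2 : 2 ≤ D.card)
    (IB : Inj F B) (IE : Inj F E) (ID : Inj F D) {o : Fn F} (ho : o ∈ W F C) :
    cher p q (mu E (phm a b c o)) = Ph (xg a) (xg b) (xg c) (mu D (cp p q o)) := by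
  have hf1 : phm a b c o ∈ W F E :=
    phm_mem (by rw [hEC]; exact ho) haE hbE hcE hab hac hbc
  have hf2 : cp p q o ∈ W F D := cp_mem (by rw [hDC]; exact ho) hpD hqD hpq
  have hr2 : rho (cp p q o) = 0 := rho_cp ho hpC q
  have hm1 := mu_mem IE hcE2 hf1 (rho_phm a b c o)
  have hm2 := mu_mem ID hcD2 hf2 hr2
  have e1 := ev_mu IE hcE2 hf1 (rho_phm a b c o)
  have e2 := ev_mu ID hcD2 hf2 hr2
  generalize mu E (phm a b c o) = u at hm1 e1 ⊢
  generalize mu D (cp p q o) = v at hm2 e2 ⊢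
  have hM2 := ML_le_M2 hcD2 hm2
  have m1 : cher p q u ∈ ML F xg B :=
    put_cherry_mem_ML hp hq hpq (by rw [← hE]; exact hm1)
  have m2 : Ph (xg a) (xg b) (xg c) v ∈ ML F xg B :=
    Ph_mem_ML ha hb hc hab hac hbc h5 (by rw [← hD]; exact hm2)
  rw [← sub_eq_zero]
  apply IB _ (Submodule.sub_mem _ m1 m2)
  rw [map_sub, ev_cher, e1, ev_Ph_gen a b c hM2, e2,
    cp_phm_in (Ne.symm hap) (Ne.symm hbp) (Ne.symm hcp), sub_self]

/-- the induction step, abstract form -/
theorem OddB_step {A C D : Finset ℕ} {a b c p q r t : ℕ}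
    (hap : a ≠ p) (hbp : b ≠ p) (hcp : c ≠ p) (hpr : p ≠ r) (hpt : p ≠ t)
    {s : Mal F} {o o' : Fn F} (hs : ev s = gm r t o' - o) (hsm : s ∈ ML F xg C)
    (h2C : 2 ≤ C.card) {u v : Mal F} (hu : u ∈ M2 F) (hv : v ∈ M2 F)
    (L1 : mu A (phm a b c (gm r t o')) = G (xg r) (xg t) u)
    (L2 : mu A (phm a b c (ev s)) = Ph (xg a) (xg b) (xg c) s)
    (R1 : mu D (cp p q (gm r t o')) = G (xg r) (xg t) v)
    (R2 : mu D (cp p q (ev s)) = cher p q s)
    (key : cher p q u = Ph (xg a) (xg b) (xg c) v) :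
    cher p q (mu A (phm a b c o)) = Ph (xg a) (xg b) (xg c) (mu D (cp p q o)) := by
  have ho : o = gm r t o' - ev s := by rw [hs]; abel
  have h1 : mu A (phm a b c o) = G (xg r) (xg t) u - Ph (xg a) (xg b) (xg c) s := by
    rw [ho, map_sub, map_sub, L1, L2]
  have h2 : mu D (cp p q o) = G (xg r) (xg t) v - cher p q s := by
    rw [ho, map_sub, map_sub, R1, R2]
  rw [h1, h2, map_sub (cher p q), map_sub (Ph (xg a) (xg b) (xg c)), cher_G hpr hpt hu, key,
    cher_Ph (Ne.symm hap) (Ne.symm hbp) (Ne.symm hcp) (ML_le_M2 h2C hsm), G_comm _ _ _ _ hv]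

section

variable {B : Finset ℕ} (hB : 5 ≤ B.card) (ho : Odd B.card) (hI : IH F B.card)
include hB ho hI

/-- (O3) -/
theorem O3 {a b c p q : ℕ} (ha : a ∈ B) (hb : b ∈ B) (hc : c ∈ B) (hp : p ∈ B) (hq : q ∈ B)
    (hd : [a, b, c, p, q].Nodup) :
    cher p q (mu (B.erase q) (phm a b c (oB F (B \ {a, b, c, q}))))
      = Ph (xg a) (xg b) (xg c) (mu (B \ {a, b, c}) (cp p q (oB F (B \ {a, b, c, q})))) := by
  have hd' := hd
  simp only [List.nodup_cons, List.mem_cons, List.not_mem_nil, or_false, not_or, List.nodup_nil,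
    not_false_eq_true, and_true] at hd
  obtain ⟨⟨hab, hac, hap, haq⟩, ⟨hbc, hbp, hbq⟩, ⟨hcp, hcq⟩, hpq⟩ := hd
  -- cardinalities
  have cq : (B.erase q).card = B.card - 1 := Finset.card_erase_of_mem hq
  have cabc : (B \ {a, b, c}).card = B.card - 3 :=
    oneRow_card_sdiff3 ha hb hc hab hac hbc
  have cC : (B \ {a, b, c, q}).card = B.card - 4 := by
    have : ({a, b, c, q} : Finset ℕ) ⊆ B := by
      intro i hi
      simp only [mem_insert, mem_singleton] at hi
      rcases hi with rfl | rfl | rfl | rfl <;> assumption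
    rw [Finset.card_sdiff_of_subset this, genW2_card4 hab hac haq hbc hbq hcq]
  have oC : Odd (B \ {a, b, c, q}).card := by
    rw [cC]
    obtain ⟨k, hk⟩ := ho
    exact ⟨k - 2, by omega⟩
  have Iq : Inj F (B.erase q) := hI _ (by omega)
  have Iabc : Inj F (B \ {a, b, c}) := hI _ (by omega)
  have IC : Inj F (B \ {a, b, c, q}) := hI _ (by omega)
  -- memberships
  have eq1 : (B.erase q) \ {a, b, c} = B \ {a, b, c, q} := by
    ext i; simp only [mem_sdiff, mem_erase, mem_insert, mem_singleton]; tauto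
  have eq2 : (B \ {a, b, c}).erase q = B \ {a, b, c, q} := by
    ext i; simp only [mem_sdiff, mem_erase, mem_insert, mem_singleton]; tauto
  have haq' : a ∈ B.erase q := Finset.mem_erase.mpr ⟨haq, ha⟩
  have hbq' : b ∈ B.erase q := Finset.mem_erase.mpr ⟨hbq, hb⟩
  have hcq' : c ∈ B.erase q := Finset.mem_erase.mpr ⟨hcq, hc⟩
  have hpq' : p ∈ B.erase q := Finset.mem_erase.mpr ⟨hpq, hp⟩
  have hpC : p ∈ B \ {a, b, c, q} := by
    simp only [mem_sdiff, mem_insert, mem_singleton]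
    exact ⟨hp, by simp [Ne.symm hap, Ne.symm hbp, Ne.symm hcp, hpq]⟩
  have hpabc : p ∈ B \ {a, b, c} := by
    simp only [mem_sdiff, mem_insert, mem_singleton]
    exact ⟨hp, by simp [Ne.symm hap, Ne.symm hbp, Ne.symm hcp]⟩
  have hqabc : q ∈ B \ {a, b, c} := by
    simp only [mem_sdiff, mem_insert, mem_singleton]
    exact ⟨hq, by simp [Ne.symm haq, Ne.symm hbq, Ne.symm hcq]⟩
  rcases Nat.lt_or_ge 5 B.card with h7 | h5
  · -- degree at least seven
    have h7' : 7 ≤ B.card := by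
      obtain ⟨k, hk⟩ := ho
      omega
    obtain ⟨r, hr, t, ht, hrt⟩ : ∃ r ∈ (B \ {a, b, c, q}).erase p,
        ∃ t ∈ (B \ {a, b, c, q}).erase p, r ≠ t := by
      have : 1 < ((B \ {a, b, c, q}).erase p).card := by
        rw [Finset.card_erase_of_mem hpC, cC]
        omega
      exact Finset.one_lt_card.mp this
    simp only [mem_erase, mem_sdiff, mem_insert, mem_singleton, not_or] at hr ht
    obtain ⟨hrp, hrB, hra, hrb, hrc, hrq⟩ := hr
    obtain ⟨htp, htB, hta, htb, htc, htq⟩ := ht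
    obtain ⟨C, hCdef⟩ : ∃ C : Finset ℕ, C = B \ {a, b, c, q} := ⟨_, rfl⟩
    obtain ⟨D, hDdef⟩ : ∃ D : Finset ℕ, D = B \ {a, b, c} := ⟨_, rfl⟩
    obtain ⟨A, hAdef⟩ : ∃ A : Finset ℕ, A = B.erase q := ⟨_, rfl⟩
    rw [← hCdef] at cC oC IC hpC eq1 eq2 ⊢
    rw [← hDdef] at cabc Iabc hpabc hqabc eq2 ⊢
    rw [← hAdef] at cq Iq eq1 haq' hbq' hcq' hpq' ⊢
    have hrC : r ∈ C := by
      rw [hCdef]; simp only [mem_sdiff, mem_insert, mem_singleton, not_or]
      exact ⟨hrB, hra, hrb, hrc, hrq⟩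
    have htC : t ∈ C := by
      rw [hCdef]; simp only [mem_sdiff, mem_insert, mem_singleton, not_or]
      exact ⟨htB, hta, htb, htc, htq⟩
    have h3C : 3 ≤ C.card := by omega
    have h2C : 2 ≤ C.card := by omega
    obtain ⟨s, hsm, hevs⟩ : ∃ s : Mal F, s ∈ ML F xg C ∧
        ev s = gm r t (oB F (C \ {r, t})) - oB F C :=
      ⟨sB C r t, sB_mem IC oC h3C hrC htC hrt, ev_sB IC oC h3C hrC htC hrt⟩
    obtain ⟨C', hC'⟩ : ∃ C' : Finset ℕ, C' = C \ {r, t} := ⟨_, rfl⟩
    obtain ⟨D', hD'⟩ : ∃ D' : Finset ℕ, D' = D \ {r, t} := ⟨_, rfl⟩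
    obtain ⟨A', hA'⟩ : ∃ A' : Finset ℕ, A' = A \ {r, t} := ⟨_, rfl⟩
    obtain ⟨B', hB'⟩ : ∃ B' : Finset ℕ, B' = B \ {r, t} := ⟨_, rfl⟩
    rw [← hC'] at hevs
    have cC' : C'.card = C.card - 2 := by rw [hC']; exact oneRow_card_sdiff hrC htC hrt
    have oC' : Odd C'.card := by
      rw [cC']
      obtain ⟨k, hk⟩ := oC
      exact ⟨k - 1, by omega⟩
    have ho'W : oB F C' ∈ W F C' := oB_mem oC'
    obtain ⟨o', ho'⟩ : ∃ o' : Fn F, o' = oB F C' := ⟨_, rfl⟩
    rw [← ho'] at hevs ho'W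
    have hrA : r ∈ A := by rw [hAdef]; exact Finset.mem_erase.mpr ⟨hrq, hrB⟩
    have htA : t ∈ A := by rw [hAdef]; exact Finset.mem_erase.mpr ⟨htq, htB⟩
    have hrD : r ∈ D := by
      rw [hDdef]; simp only [mem_sdiff, mem_insert, mem_singleton, not_or]
      exact ⟨hrB, hra, hrb, hrc⟩
    have htD : t ∈ D := by
      rw [hDdef]; simp only [mem_sdiff, mem_insert, mem_singleton, not_or]
      exact ⟨htB, hta, htb, htc⟩
    have cA' : A'.card = B.card - 3 := by
      rw [hA', oneRow_card_sdiff hrA htA hrt, cq]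
      omega
    have cD' : D'.card = B.card - 5 := by
      rw [hD', oneRow_card_sdiff hrD htD hrt, cabc]
      omega
    have cB' : B'.card = B.card - 2 := by rw [hB']; exact oneRow_card_sdiff hrB htB hrt
    have IA' : Inj F A' := hI _ (by omega)
    have ID' : Inj F D' := hI _ (by omega)
    have IB' : Inj F B' := hI _ (by omega)
    have haA' : a ∈ A' := by
      rw [hA']; simp only [mem_sdiff, mem_insert, mem_singleton, not_or]
      exact ⟨haq', Ne.symm hra, Ne.symm hta⟩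
    have hbA' : b ∈ A' := by
      rw [hA']; simp only [mem_sdiff, mem_insert, mem_singleton, not_or]
      exact ⟨hbq', Ne.symm hrb, Ne.symm htb⟩
    have hcA' : c ∈ A' := by
      rw [hA']; simp only [mem_sdiff, mem_insert, mem_singleton, not_or]
      exact ⟨hcq', Ne.symm hrc, Ne.symm htc⟩
    have hpD' : p ∈ D' := by
      rw [hD']; simp only [mem_sdiff, mem_insert, mem_singleton, not_or]
      exact ⟨hpabc, Ne.symm hrp, Ne.symm htp⟩
    have hqD' : q ∈ D' := by
      rw [hD']; simp only [mem_sdiff, mem_insert, mem_singleton, not_or]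
      exact ⟨hqabc, Ne.symm hrq, Ne.symm htq⟩
    have hpC' : p ∈ C' := by
      rw [hC']; simp only [mem_sdiff, mem_insert, mem_singleton, not_or]
      exact ⟨hpC, Ne.symm hrp, Ne.symm htp⟩
    have eqE : A' \ {a, b, c} = C' := by
      rw [hA', hC', ← eq1]
      ext i; simp only [mem_sdiff, mem_insert, mem_singleton]; tauto
    have eqD : D'.erase q = C' := by
      rw [hD', hC', ← eq2]
      ext i; simp only [mem_sdiff, mem_erase, mem_insert, mem_singleton]; tauto
    have hf1 : phm a b c o' ∈ W F A' :=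
      phm_mem (by rw [eqE]; exact ho'W) haA' hbA' hcA' hab hac hbc
    have hf2 : cp p q o' ∈ W F D' := cp_mem (by rw [eqD]; exact ho'W) hpD' hqD' hpq
    have hr2 : rho (cp p q o') = 0 := rho_cp ho'W hpC' q
    have L1 : mu A (phm a b c (gm r t o')) = G (xg r) (xg t) (mu A' (phm a b c o')) := by
      rw [← gm_phm_comm, hA']
      rw [hA'] at IA' hf1
      exact mu_gm Iq IA' hrA htA hrt (by omega) hf1 (rho_phm _ _ _ _)
    have L2 : mu A (phm a b c (ev s)) = Ph (xg a) (xg b) (xg c) s := by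
      refine mu_eq Iq (Ph_mem_ML haq' hbq' hcq' hab hac hbc (by omega) ?_) ?_
      · rw [eq1]; exact hsm
      · exact ev_Ph_gen a b c (ML_le_M2 h2C hsm)
    have R1 : mu D (cp p q (gm r t o')) = G (xg r) (xg t) (mu D' (cp p q o')) := by
      rw [cp_gm_in (Ne.symm hrp) (Ne.symm htp), hD']
      rw [hD'] at ID' hf2
      exact mu_gm Iabc ID' hrD htD hrt (by omega) hf2 hr2
    have R2 : mu D (cp p q (ev s)) = cher p q s := by
      refine mu_eq Iabc (put_cherry_mem_ML hpabc hqabc hpq ?_) (ev_cher p q s)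
      rw [eq2]; exact hsm
    have hM1 := ML_le_M2 (by omega) (mu_mem IA' (by omega) hf1 (rho_phm a b c o'))
    have hM2 := ML_le_M2 (by omega) (mu_mem ID' (by omega) hf2 hr2)
    have hmB : ∀ {i : ℕ}, i ∈ B → i ≠ r → i ≠ t → i ∈ B' := by
      intro i h1 h2 h3
      rw [hB']; simp only [mem_sdiff, mem_insert, mem_singleton, not_or]
      exact ⟨h1, h2, h3⟩
    have key := OddB_key (B := B') (C := C') (D := D') (E := A') (o := o')
      (hmB ha (Ne.symm hra) (Ne.symm hta)) (hmB hb (Ne.symm hrb) (Ne.symm htb))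
      (hmB hc (Ne.symm hrc) (Ne.symm htc)) (hmB hp (Ne.symm hrp) (Ne.symm htp))
      (hmB hq (Ne.symm hrq) (Ne.symm htq)) hab hac hap hbc hbp hcp hpq (by omega)
      (by rw [hA', hB', hAdef]; ext i; simp only [mem_sdiff, mem_erase, mem_insert,
            mem_singleton]; tauto)
      (by rw [hD', hB', hDdef]; ext i; simp only [mem_sdiff, mem_insert, mem_singleton]; tauto)
      haA' hbA' hcA' hpD' hqD' eqE eqD hpC' (by omega) (by omega) IB' IA' ID' ho'W
    exact OddB_step (A := A) (C := C) (D := D) hap hbp hcp (Ne.symm hrp) (Ne.symm htp) hevs hsm h2C hM1 hM2 L1 L2 R1 R2 key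
  · -- degree five
    have h5' : B.card = 5 := by omega
    have hC1 : B \ {a, b, c, q} = {p} := by
      have : (B \ {a, b, c, q}).card = 1 := by omega
      obtain ⟨i, hi⟩ := Finset.card_eq_one.mp this
      rw [hi] at hpC ⊢
      rw [Finset.mem_singleton.mp hpC]
    have hBq : B.erase q = {a, b, c, p} := by
      symm
      apply Finset.eq_of_subset_of_card_le
      · intro i hi
        simp only [mem_insert, mem_singleton] at hi
        rcases hi with rfl | rfl | rfl | rfl <;> assumption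
      · rw [cq, genW2_card4 hab hac hap hbc hbp hcp]
        omega
    have hBabc : B \ {a, b, c} = {p} ∪ {q} := by
      symm
      apply Finset.eq_of_subset_of_card_le
      · intro i hi
        simp only [mem_union, mem_singleton] at hi
        rcases hi with rfl | rfl <;> assumption
      · rw [cabc, Finset.card_union_of_disjoint (Finset.disjoint_singleton.mpr hpq)]
        simp [h5']
    rw [hC1, oB_single]
    have hL : mu (B.erase q) (phm a b c (fun y : ℕ → V F => y p)) = e4 F (xg a) (xg b) (xg c) (xg p) := by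
      refine mu_eq Iq ?_ ?_
      · rw [hBq]
        refine OddB_e4_mem ?_
        simp [hab, hac, hap, hbc, hbp, hcp]
      · funext y
        rw [ev_e4, ev_gen, ev_gen, ev_gen, ev_gen]
        rfl
    have hR : mu (B \ {a, b, c}) (cp p q (fun y : ℕ → V F => y p)) = xg p * xg q := by
      refine mu_eq Iabc ?_ ?_
      · rw [hBabc]
        exact oper_ML_mul (Finset.disjoint_singleton.mpr hpq) (oper_ML_gen xg p) (oper_ML_gen xg q)
      · funext y
        rw [ev_mul, ev_gen, ev_gen, cp_apply, Function.update_self]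
    rw [hL, hR, ← e4_M2 _ _ _ (mul_mem_M2 (xg p : Mal F) (xg q))]
    have hmap : ∀ (g : Mal F →ₙₐ[F] Mal F) (u v w z : Mal F),
        g (e4 F u v w z) = e4 F (g u) (g v) (g w) (g z) := by
      intro g u v w z
      unfold e4
      simp only [map_sub, map_smul, map_add, oper_map_EE, oper_map_Dd, map_mul]
    rw [hmap]
    have hg : ∀ i, i ≠ p → cher p q (xg i : Mal F) = xg i := by
      intro i hi
      rw [RF.sub_gen, Function.update_of_ne hi]
    rw [hg a hap, hg b hbp, hg c hcp, RF.sub_gen, Function.update_self]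

end

end

end OctId
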