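import Pool.Agent.Work.MP_9b6dd6_al.OddA
import Pool.Agent.Work.MP_9b6dd6_al.OddB

/-!
# The relations in odd degree: the core data
-/

namespace OctId

open Finset

set_option linter.unusedSectionVars false

noncomputable section

variable {F : Type*} [Field F] [CharZero F]

/-- a one-letter function is a multiple of the letter, so it vanishes if `rho` does -/
theorem Odd_one {C : Finset ℕ} (h : C.card = 1) {x : Fn F} (hx : x ∈ W F C) (h0 : rho x = 0) :
    x = 0 := by
  obtain ⟨i, rfl⟩ := Finset.card_eq_one.mp h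
  obtain ⟨c, rfl⟩ := W_one hx
  have : c = 0 := by
    have h1 : rho (fun y : ℕ → V F => c • y i) = c := by
      rw [rho_apply]
      change c * V.e (F := F) 0 0 = c
      simp [V.e]
    rw [← h1, h0]
  subst this
  funext y
  rw [zero_smul]
  rfl

theorem Odd_zero {C : Finset ℕ} (h : C.card = 0) {x : Fn F} (hx : x ∈ W F C) : x = 0 := by
  rw [Finset.card_eq_zero] at h
  subst h
  exact W_empty hx

section

variable {B : Finset ℕ} (hB : 5 ≤ B.card) (ho : Odd B.card) (hI : IH F B.card)
include hB ho hI

theorem Odd_exists_d : ∃ d : ℕ → ℕ → Mal F,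
    ∀ p ∈ B, ∀ q ∈ B, ∀ r ∈ B, ∀ t ∈ B, [p, q, r, t].Nodup →
      G (xg p) (xg q) (sB (F := F) (B \ {p, q}) r t) + d p q
        = G (xg r) (xg t) (sB (F := F) (B \ {r, t}) p q) + d r t := by
  rcases Nat.lt_or_ge 5 B.card with h7 | h5
  · refine exists_d_seven hB ho hI ?_
    obtain ⟨k, hk⟩ := ho
    omega
  · exact exists_d_five hB ho hI (by omega)

theorem Odd_B1_half {a b p q : ℕ} (ha : a ∈ B) (hb : b ∈ B) (hp : p ∈ B) (hq : q ∈ B)
    (hab : a ≠ b) (hap : a ≠ p) (haq : a ≠ q) (hbp : b ≠ p) (hbq : b ≠ q) (hpq : p ≠ q)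
    {x : Fn F} (hx : x ∈ W F (B \ {a, b, p, q})) :
    mu (B \ {p, q}) (gm a b x - rho x • oB F (B \ {p, q}))
      = G (xg a) (xg b) (mu (B \ {a, b, p, q}) (x - rho x • oB F (B \ {a, b, p, q})))
        + rho x • sB (B \ {p, q}) a b := by
  set C := B \ {a, b, p, q} with hC
  have hsub : ({a, b, p, q} : Finset ℕ) ⊆ B := by
    intro i hi
    simp only [mem_insert, mem_singleton] at hi
    rcases hi with rfl | rfl | rfl | rfl <;> assumption
  have cC : C.card = B.card - 4 := by
    rw [hC, Finset.card_sdiff_of_subset hsub, genW2_card4 hab hap haq hbp hbq hpq]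
  have oC : Odd C.card := by
    rw [cC]
    obtain ⟨k, hk⟩ := ho
    exact ⟨k - 2, by omega⟩
  have cpq : (B \ {p, q}).card = B.card - 2 := oneRow_card_sdiff hp hq hpq
  have ha' : a ∈ B \ {p, q} := by
    simp only [mem_sdiff, mem_insert, mem_singleton, not_or]
    exact ⟨ha, hap, haq⟩
  have hb' : b ∈ B \ {p, q} := by
    simp only [mem_sdiff, mem_insert, mem_singleton, not_or]
    exact ⟨hb, hbp, hbq⟩
  have eC : (B \ {p, q}) \ {a, b} = C := by
    ext i; simp only [hC, mem_sdiff, mem_insert, mem_singleton]; tauto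
  set x0 := x - rho x • oB F C with hx0
  have hoC : oB F C ∈ W F C := oB_mem oC
  have hx0W : x0 ∈ W F C := Submodule.sub_mem _ hx (Submodule.smul_mem _ _ hoC)
  have hx0r : rho x0 = 0 := by
    rw [hx0, map_sub, map_smul, rho_oB oC, smul_eq_mul, mul_one, sub_self]
  have hxe : gm a b x - rho x • oB F (B \ {p, q})
      = gm a b x0 + rho x • (gm a b (oB F ((B \ {p, q}) \ {a, b})) - oB F (B \ {p, q})) := by
    rw [eC, hx0, map_sub, map_smul, smul_sub]
    abel
  rw [hxe, map_add, map_smul]
  congr 1
  rcases Nat.lt_or_ge 5 B.card with h7 | h5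
  · have h7' : 7 ≤ B.card := by
      obtain ⟨k, hk⟩ := ho
      omega
    have h1 := mu_gm (B := B \ {p, q}) (hI _ (by omega)) (p := a) (q := b)
      (hI _ (by rw [eC]; omega)) ha' hb' hab (by omega) (x := x0) (by rw [eC]; exact hx0W) hx0r
    rw [h1, eC]
  · have h1 : x0 = 0 := Odd_one (by omega) hx0W hx0r
    rw [h1, map_zero, map_zero, map_zero, map_zero]

/-- the core data in odd degree -/
theorem coreData_odd : Nonempty (CoreData F B) := by
  obtain ⟨d, hd⟩ := Odd_exists_d hB ho hI
  have h7 : B.card ≠ 5 → 7 ≤ B.card := by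
    obtain ⟨k, hk⟩ := ho
    omega
  refine ⟨{
    hG := fun p q =>
      { toFun := fun x => G (xg p) (xg q) (mu (B \ {p, q}) (x - rho x • oB F (B \ {p, q})))
          + rho x • d p q
        map_add' := ?_
        map_smul' := ?_ }
    hC := fun p q =>
      { toFun := fun x => cher p q (mu (B.erase q) x)
        map_add' := ?_
        map_smul' := ?_ }
    dd := d
    ee := fun _ _ _ => 0
    A1 := ?_
    A2 := ?_
    B1 := ?_
    B2 := ?_
    B3 := ?_
    B4 := ?_ }⟩
  · intro x y
    have : x + y - rho (x + y) • oB F (B \ {p, q})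
        = (x - rho x • oB F (B \ {p, q})) + (y - rho y • oB F (B \ {p, q})) := by
      rw [map_add, add_smul]
      abel
    rw [this, map_add, map_add, map_add, add_smul]
    abel
  · intro c x
    have : c • x - rho (c • x) • oB F (B \ {p, q})
        = c • (x - rho x • oB F (B \ {p, q})) := by
      rw [map_smul, smul_sub, smul_eq_mul, mul_smul]
    rw [this, map_smul, map_smul, map_smul, smul_add, smul_eq_mul, mul_smul]
    rfl
  · intro x y
    rw [map_add, map_add]
  · intro c x
    rw [map_smul, map_smul]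
    rfl
  · -- A1
    intro p hp q hq hpq x hx h0
    change G (xg p) (xg q) (mu (B \ {p, q}) (x - rho x • oB F (B \ {p, q}))) + rho x • d p q = _
    rw [h0, zero_smul, zero_smul, sub_zero, add_zero]
  · -- A2
    intro p hp q hq hpq x hx h0
    rfl
  · -- B1
    intro a ha b hb p hp q hq hnd x hx
    have hnd' := hnd
    simp only [List.nodup_cons, List.mem_cons, List.not_mem_nil, or_false, not_or,
      List.nodup_nil, not_false_eq_true, and_true] at hnd
    obtain ⟨⟨hab, hap, haq⟩, ⟨hbp, hbq⟩, hpq⟩ := hnd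
    change G (xg p) (xg q) (mu (B \ {p, q}) (gm a b x - rho (gm a b x) • oB F (B \ {p, q})))
      + rho (gm a b x) • d p q = _
    have e1 : (B \ {a, b, p, q} : Finset ℕ) = B \ {p, q, a, b} := by
      ext i; simp only [mem_sdiff, mem_insert, mem_singleton]; tauto
    have hx' : x ∈ W F (B \ {p, q, a, b}) := by rw [← e1]; exact hx
    have k1 := Odd_B1_half hB ho hI ha hb hp hq hab hap haq hbp hbq hpq hx
    have k2 := Odd_B1_half hB ho hI hp hq ha hb hpq (Ne.symm hap) (Ne.symm hbp) (Ne.symm haq)
      (Ne.symm hbq) hab hx'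
    rw [← e1] at k2
    rw [rho_gm, k1, k2, map_add, map_add, map_smul, map_smul]
    have hrel := hd p hp q hq a ha b hb (by
      simp [hab, hpq, Ne.symm hap, Ne.symm hbp, Ne.symm haq, Ne.symm hbq])
    have hcomm : G (xg p) (xg q) (G (xg a) (xg b)
          (mu (B \ {a, b, p, q}) (x - rho x • oB F (B \ {a, b, p, q}))))
        = G (xg a) (xg b) (G (xg p) (xg q)
          (mu (B \ {a, b, p, q}) (x - rho x • oB F (B \ {a, b, p, q})))) := by
      set C := B \ {a, b, p, q} with hC
      have hsub : ({a, b, p, q} : Finset ℕ) ⊆ B := by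
        intro i hi
        simp only [mem_insert, mem_singleton] at hi
        rcases hi with rfl | rfl | rfl | rfl <;> assumption
      have cC : C.card = B.card - 4 := by
        rw [hC, Finset.card_sdiff_of_subset hsub, genW2_card4 hab hap haq hbp hbq hpq]
      have oC : Odd C.card := by
        rw [cC]
        obtain ⟨k, hk⟩ := ho
        exact ⟨k - 2, by omega⟩
      have hx0W : x - rho x • oB F C ∈ W F C :=
        Submodule.sub_mem _ hx (Submodule.smul_mem _ _ (oB_mem oC))
      have hx0r : rho (x - rho x • oB F C) = 0 := by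
        rw [map_sub, map_smul, rho_oB oC, smul_eq_mul, mul_one, sub_self]
      by_cases h5 : B.card = 5
      · have h1 : x - rho x • oB F C = 0 := Odd_one (by omega) hx0W hx0r
        simp only [h1, map_zero]
      · have := h7 h5
        exact G_comm _ _ _ _ (ML_le_M2 (by omega)
          (mu_mem (hI _ (by omega)) (by omega) hx0W hx0r))
    rw [hcomm, add_assoc, add_assoc, ← smul_add, ← smul_add, hrel]
  · -- B2
    intro a ha b hb c hc p hp q hq hnd x hx
    simp only [List.nodup_cons, List.mem_cons, List.not_mem_nil, or_false, not_or,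
      List.nodup_nil, not_false_eq_true, and_true] at hnd
    obtain ⟨⟨hab, hac, hap, haq⟩, ⟨hbc, hbp, hbq⟩, ⟨hcp, hcq⟩, hpq⟩ := hnd
    change G (xg p) (xg q) (mu (B \ {p, q}) (phm a b c x - rho (phm a b c x) •
      oB F (B \ {p, q}))) + rho (phm a b c x) • d p q = _
    rw [rho_phm, zero_smul, zero_smul, sub_zero, add_zero, smul_zero, add_zero]
    have cabc : (B \ {a, b, c}).card = B.card - 3 := oneRow_card_sdiff3 ha hb hc hab hac hbc
    have hp' : p ∈ B \ {a, b, c} := by
      simp only [mem_sdiff, mem_insert, mem_singleton, not_or]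
      exact ⟨hp, Ne.symm hap, Ne.symm hbp, Ne.symm hcp⟩
    have hq' : q ∈ B \ {a, b, c} := by
      simp only [mem_sdiff, mem_insert, mem_singleton, not_or]
      exact ⟨hq, Ne.symm haq, Ne.symm hbq, Ne.symm hcq⟩
    have e1 : (B \ {a, b, c}) \ {p, q} = B \ {a, b, c, p, q} := by
      ext i; simp only [mem_sdiff, mem_insert, mem_singleton]; tauto
    have e2 : (B \ {p, q}) \ {a, b, c} = B \ {a, b, c, p, q} := by
      ext i; simp only [mem_sdiff, mem_insert, mem_singleton]; tauto
    have cX : (B \ {a, b, c, p, q}).card = B.card - 5 := by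
      rw [← e1, oneRow_card_sdiff hp' hq' hpq, cabc]
      omega
    have hr0 : rho x = 0 := by
      refine rho_even ?_ hx
      rw [cX]
      obtain ⟨k, hk⟩ := ho
      exact ⟨k - 2, by omega⟩
    rw [hr0, zero_smul, sub_zero]
    by_cases h5 : B.card = 5
    · have h1 : x = 0 := Odd_zero (by omega) hx
      rw [h1, map_zero, map_zero, map_zero, map_zero, map_zero, map_zero]
    · have h7' := h7 h5
      have cpq : (B \ {p, q}).card = B.card - 2 := oneRow_card_sdiff hp hq hpq
      have ha' : a ∈ B \ {p, q} := by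
        simp only [mem_sdiff, mem_insert, mem_singleton, not_or]
        exact ⟨ha, hap, haq⟩
      have hb' : b ∈ B \ {p, q} := by
        simp only [mem_sdiff, mem_insert, mem_singleton, not_or]
        exact ⟨hb, hbp, hbq⟩
      have hc' : c ∈ B \ {p, q} := by
        simp only [mem_sdiff, mem_insert, mem_singleton, not_or]
        exact ⟨hc, hcp, hcq⟩
      have k1 := mu_phm (B := B \ {p, q}) (hI _ (by omega)) (p := a) (q := b) (r := c)
        (hI _ (by rw [e2]; omega)) ha' hb' hc' hab hac hbc (by omega) (x := x)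
        (by rw [e2]; exact hx) hr0
      have k2 := mu_gm (B := B \ {a, b, c}) (hI _ (by omega)) (p := p) (q := q)
        (hI _ (by rw [e1]; omega)) hp' hq' hpq (by omega) (x := x)
        (by rw [e1]; exact hx) hr0
      rw [k1, k2, e1, e2]
      exact G_comm _ _ _ _ (ML_le_M2 (by omega)
        (mu_mem (hI _ (by omega)) (by omega) hx hr0))
  · -- B3
    intro a ha b hb p hp q hq hnd x hx
    simp only [List.nodup_cons, List.mem_cons, List.not_mem_nil, or_false, not_or,
      List.nodup_nil, not_false_eq_true, and_true] at hnd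
    obtain ⟨⟨hab, hap, haq⟩, ⟨hbp, hbq⟩, hpq⟩ := hnd
    change cher p q (mu (B.erase q) (gm a b x)) = _
    have cX : (B \ {a, b, q}).card = B.card - 3 := oneRow_card_sdiff3 ha hb hq hab haq hbq
    have hr0 : rho x = 0 := by
      refine rho_even ?_ hx
      rw [cX]
      obtain ⟨k, hk⟩ := ho
      exact ⟨k - 1, by omega⟩
    have cq : (B.erase q).card = B.card - 1 := Finset.card_erase_of_mem hq
    have cab : (B \ {a, b}).card = B.card - 2 := oneRow_card_sdiff ha hb hab
    have e1 : (B.erase q) \ {a, b} = B \ {a, b, q} := by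
      ext i; simp only [mem_sdiff, mem_erase, mem_insert, mem_singleton]; tauto
    have e2 : (B \ {a, b}).erase q = B \ {a, b, q} := by
      ext i; simp only [mem_sdiff, mem_erase, mem_insert, mem_singleton]; tauto
    have k1 := mu_gm (B := B.erase q) (hI _ (by omega)) (p := a) (q := b)
      (hI _ (by rw [e1]; omega)) (Finset.mem_erase.mpr ⟨haq, ha⟩)
      (Finset.mem_erase.mpr ⟨hbq, hb⟩) hab (by omega) (x := x) (by rw [e1]; exact hx) hr0
    have hp' : p ∈ B \ {a, b} := by
      simp only [mem_sdiff, mem_insert, mem_singleton, not_or]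
      exact ⟨hp, Ne.symm hap, Ne.symm hbp⟩
    have hq' : q ∈ B \ {a, b} := by
      simp only [mem_sdiff, mem_insert, mem_singleton, not_or]
      exact ⟨hq, Ne.symm haq, Ne.symm hbq⟩
    have k2 := mu_cp (B := B \ {a, b}) (hI _ (by omega)) (p := p) (q := q)
      (hI _ (by rw [e2]; omega)) hp' hq' hpq (by omega) (x := x) (by rw [e2]; exact hx) hr0
    rw [k1, k2, e1, e2]
    exact cher_G (Ne.symm hap) (Ne.symm hbp) (ML_le_M2 (by omega)
      (mu_mem (hI _ (by omega)) (by omega) hx hr0))
  · -- B4
    intro a ha b hb c hc p hp q hq hnd x hx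
    have hO3 := O3 hB ho hI ha hb hc hp hq hnd
    simp only [List.nodup_cons, List.mem_cons, List.not_mem_nil, or_false, not_or,
      List.nodup_nil, not_false_eq_true, and_true] at hnd
    obtain ⟨⟨hab, hac, hap, haq⟩, ⟨hbc, hbp, hbq⟩, ⟨hcp, hcq⟩, hpq⟩ := hnd
    change cher p q (mu (B.erase q) (phm a b c x)) = _
    have cq : (B.erase q).card = B.card - 1 := Finset.card_erase_of_mem hq
    have cabc : (B \ {a, b, c}).card = B.card - 3 := oneRow_card_sdiff3 ha hb hc hab hac hbc
    have e1 : (B.erase q) \ {a, b, c} = B \ {a, b, c, q} := by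
      ext i; simp only [mem_sdiff, mem_erase, mem_insert, mem_singleton]; tauto
    have e2 : (B \ {a, b, c}).erase q = B \ {a, b, c, q} := by
      ext i; simp only [mem_sdiff, mem_erase, mem_insert, mem_singleton]; tauto
    have hq' : q ∈ B \ {a, b, c} := by
      simp only [mem_sdiff, mem_insert, mem_singleton, not_or]
      exact ⟨hq, Ne.symm haq, Ne.symm hbq, Ne.symm hcq⟩
    have hp' : p ∈ B \ {a, b, c} := by
      simp only [mem_sdiff, mem_insert, mem_singleton, not_or]
      exact ⟨hp, Ne.symm hap, Ne.symm hbp, Ne.symm hcp⟩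
    set C := B \ {a, b, c, q} with hC
    have cC : C.card = B.card - 4 := by
      rw [← e2, Finset.card_erase_of_mem hq', cabc]
      omega
    have oC : Odd C.card := by
      rw [cC]
      obtain ⟨k, hk⟩ := ho
      exact ⟨k - 2, by omega⟩
    set x0 := x - rho x • oB F C with hx0
    have hx0W : x0 ∈ W F C := Submodule.sub_mem _ hx (Submodule.smul_mem _ _ (oB_mem oC))
    have hx0r : rho x0 = 0 := by
      rw [hx0, map_sub, map_smul, rho_oB oC, smul_eq_mul, mul_one, sub_self]
    have hxe : x = x0 + rho x • oB F C := by rw [hx0]; abel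
    have main : cher p q (mu (B.erase q) (phm a b c x0))
        = Ph (xg a) (xg b) (xg c) (mu (B \ {a, b, c}) (cp p q x0)) := by
      by_cases h5 : B.card = 5
      · have h1 : x0 = 0 := Odd_one (by omega) hx0W hx0r
        rw [h1, map_zero, map_zero, map_zero, map_zero, map_zero, map_zero]
      · have h7' := h7 h5
        have k1 := mu_phm (B := B.erase q) (hI _ (by omega)) (p := a) (q := b) (r := c)
          (hI _ (by rw [e1]; omega)) (Finset.mem_erase.mpr ⟨haq, ha⟩)
          (Finset.mem_erase.mpr ⟨hbq, hb⟩) (Finset.mem_erase.mpr ⟨hcq, hc⟩) hab hac hbc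
          (by omega) (x := x0) (by rw [e1]; exact hx0W) hx0r
        have k2 := mu_cp (B := B \ {a, b, c}) (hI _ (by omega)) (p := p) (q := q)
          (hI _ (by rw [e2]; omega)) hp' hq' hpq (by omega) (x := x0)
          (by rw [e2]; exact hx0W) hx0r
        rw [k1, k2, e1, e2]
        exact cher_Ph (Ne.symm hap) (Ne.symm hbp) (Ne.symm hcp) (ML_le_M2 (by omega)
          (mu_mem (hI _ (by omega)) (by omega) hx0W hx0r))
    calc cher p q (mu (B.erase q) (phm a b c x))
        = cher p q (mu (B.erase q) (phm a b c x0))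
          + rho x • cher p q (mu (B.erase q) (phm a b c (oB F C))) := by
          conv_lhs => rw [hxe]
          rw [map_add, map_add, map_add, map_smul, map_smul, map_smul]
      _ = Ph (xg a) (xg b) (xg c) (mu (B \ {a, b, c}) (cp p q x0))
          + rho x • Ph (xg a) (xg b) (xg c) (mu (B \ {a, b, c}) (cp p q (oB F C))) := by
          rw [main, hO3]
      _ = Ph (xg a) (xg b) (xg c) (mu (B \ {a, b, c}) (cp p q x)) := by
          conv_rhs => rw [hxe]
          rw [map_add, map_add, map_add, map_smul, map_smul, map_smul]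

end

end

end OctId
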