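import Pool.Agent.Work.MP_9b6dd6_al.Even
import Pool.Agent.Work.MP_9b6dd6_al.Odd
import Pool.Agent.Work.MP_9b6dd6_al.Core

/-!
# Theorem A: the identities of the imaginary octonions
-/

namespace OctId

open Finset

set_option linter.unusedSectionVars false

noncomputable section

variable {F : Type*} [Field F] [CharZero F]

/-- injectivity of the evaluation in all degrees -/
theorem inj_all (B : Finset ℕ) : Inj F B := by
  have key : ∀ n, IH F n := by
    intro n
    induction n with
    | zero => intro C hC; omega
    | succ n ih =>
      intro C hC
      rcases Nat.lt_or_ge C.card 5 with h5 | h5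
      · exact inj_low (by omega)
      · have hI : IH F C.card := fun D hD => ih D (by omega)
        rcases Nat.even_or_odd C.card with he | ho
        · have h6 : 6 ≤ C.card := by
            rcases he with ⟨k, hk⟩
            omega
          obtain ⟨D⟩ := coreData_even h6 he hI
          exact inj_core D h5 hI
        · obtain ⟨D⟩ := coreData_odd h5 ho hI
          exact inj_core D h5 hI
  exact key (B.card + 1) B (Nat.lt_succ_self _)

/-- Theorem A, multilinear form -/
theorem thmA (B : Finset ℕ) (f : Fr F) (hf : f ∈ MF F B) (h : IsIdentity (V F) f) :
    f ∈ tIdeal (malB F) := by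
  have hu : RF.mk (malB F) f ∈ ML F xg B := by
    refine ML_induction (p := fun f => RF.mk (malB F) f ∈ ML F (xg (F := F)) B) ?_ ?_ ?_ ?_ hf
    · intro w hw
      rw [RF.mk_eq_evalAt, evalAt_wv]
      exact wv_mem_ML hw
    · rw [map_zero]
      exact Submodule.zero_mem _
    · intro a b ha hb
      rw [map_add]
      exact Submodule.add_mem _ ha hb
    · intro c a ha
      rw [map_smul]
      exact Submodule.smul_mem _ c ha
  have h0 : ev (RF.mk (malB F) f) = 0 := by
    funext y
    rw [ev_apply]
    exact h y
  rw [← RF.mk_eq_zero]
  exact inj_all B _ hu h0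

end

end OctId
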