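import Mathlib
import Pool.Agent.Work.MP_9b6dd6_al.Defs

/-! The Cayley–Dickson process and the octonion algebras. -/

namespace OctBasis

universe u

/-- A linear conjugation fixing `1`. -/
class Conj (F : Type u) (A : Type u) [Field F] [NonAssocRing A] [Module F A] where
  conj : A →ₗ[F] A
  conj_one : conj 1 = 1

/-- conjugation, with explicit ground field -/
abbrev cj (F : Type u) {A : Type u} [Field F] [NonAssocRing A] [Module F A] [Conj F A] :
    A →ₗ[F] A := Conj.conj

theorem cj_one (F : Type u) {A : Type u} [Field F] [NonAssocRing A] [Module F A] [Conj F A] :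
    cj F (1 : A) = 1 := Conj.conj_one

/-- The ground field, with trivial conjugation. -/
instance conjBase (F : Type u) [Field F] : Conj F F := ⟨LinearMap.id, rfl⟩

/-- The Cayley–Dickson double of `A` with parameter `γ`:
pairs `(x, y)` with `(x, y) (z, w) = (x z + γ conj(w) y, w x + y conj(z))` and
`conj (x, y) = (conj x, -y)`. -/
@[ext] structure Dbl {F : Type u} (γ : F) (A : Type u) where
  fst : A
  snd : A

set_option linter.unusedSectionVars false

namespace Dbl

variable {F : Type u} [Field F] (γ : F) (A : Type u) [NonAssocRing A] [Module F A]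
  [IsScalarTower F A A] [SMulCommClass F A A] [Conj F A]

/-- pairs -/
def toProd : Dbl γ A ≃ A × A where
  toFun x := (x.fst, x.snd)
  invFun x := ⟨x.1, x.2⟩
  left_inv _ := rfl
  right_inv _ := rfl

instance : AddCommGroup (Dbl γ A) := (toProd γ A).addCommGroup
instance : Module F (Dbl γ A) := (toProd γ A).module F

instance : Mul (Dbl γ A) := ⟨fun x y =>
  ⟨x.fst * y.fst + γ • (cj F y.snd * x.snd), y.snd * x.fst + x.snd * cj F y.fst⟩⟩

instance : One (Dbl γ A) := ⟨⟨1, 0⟩⟩

variable {γ A}

@[simp] theorem fst_add (x y : Dbl γ A) : (x + y).fst = x.fst + y.fst := rfl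
@[simp] theorem snd_add (x y : Dbl γ A) : (x + y).snd = x.snd + y.snd := rfl
@[simp] theorem fst_neg (x : Dbl γ A) : (-x).fst = -x.fst := rfl
@[simp] theorem snd_neg (x : Dbl γ A) : (-x).snd = -x.snd := rfl
@[simp] theorem fst_sub (x y : Dbl γ A) : (x - y).fst = x.fst - y.fst := rfl
@[simp] theorem snd_sub (x y : Dbl γ A) : (x - y).snd = x.snd - y.snd := rfl
@[simp] theorem fst_zero : (0 : Dbl γ A).fst = 0 := rfl
@[simp] theorem snd_zero : (0 : Dbl γ A).snd = 0 := rfl
@[simp] theorem fst_smul (c : F) (x : Dbl γ A) : (c • x).fst = c • x.fst := rfl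
@[simp] theorem snd_smul (c : F) (x : Dbl γ A) : (c • x).snd = c • x.snd := rfl
@[simp] theorem fst_mul (x y : Dbl γ A) :
    (x * y).fst = x.fst * y.fst + γ • (cj F y.snd * x.snd) := rfl
@[simp] theorem snd_mul (x y : Dbl γ A) :
    (x * y).snd = y.snd * x.fst + x.snd * cj F y.fst := rfl
@[simp] theorem fst_one : (1 : Dbl γ A).fst = 1 := rfl
@[simp] theorem snd_one : (1 : Dbl γ A).snd = 0 := rfl

instance : NonAssocRing (Dbl γ A) :=
  { (inferInstance : AddCommGroup (Dbl γ A)), (inferInstance : Mul (Dbl γ A)),
    (inferInstance : One (Dbl γ A)) with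
    left_distrib := by
      intro x y z
      ext
      · simp [mul_add, add_mul]; abel
      · simp [mul_add, add_mul]; abel
    right_distrib := by
      intro x y z
      ext
      · simp [mul_add, add_mul]; abel
      · simp [mul_add, add_mul]; abel
    zero_mul := by intro x; ext <;> simp
    mul_zero := by intro x; ext <;> simp
    one_mul := by intro x; ext <;> simp
    mul_one := by intro x; ext <;> simp [Conj.conj_one] }

instance : IsScalarTower F (Dbl γ A) (Dbl γ A) :=
  ⟨by
    intro c x y
    ext
    · simp only [smul_eq_mul, fst_mul, fst_smul, snd_smul, smul_add, smul_mul_assoc,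
        mul_smul_comm]
      rw [smul_comm c γ]
    · simp only [smul_eq_mul, snd_mul, fst_smul, snd_smul, smul_add, smul_mul_assoc,
        mul_smul_comm]⟩

instance : SMulCommClass F (Dbl γ A) (Dbl γ A) :=
  ⟨by
    intro c x y
    ext
    · simp only [smul_eq_mul, fst_mul, fst_smul, snd_smul, smul_add, smul_mul_assoc,
        mul_smul_comm, map_smul]
      rw [smul_comm c γ]
    · simp only [smul_eq_mul, snd_mul, fst_smul, snd_smul, smul_add, smul_mul_assoc,
        mul_smul_comm, map_smul]⟩

instance : Conj F (Dbl γ A) where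
  conj :=
    { toFun := fun x => ⟨cj F x.fst, -x.snd⟩
      map_add' := by intro x y; ext <;> simp; abel
      map_smul' := by intro c x; ext <;> simp }
  conj_one := by
    ext
    · exact Conj.conj_one
    · exact neg_zero

theorem conj_fst (x : Dbl γ A) : (cj F x).fst = cj F x.fst := rfl
theorem conj_snd (x : Dbl γ A) : (cj F x).snd = -x.snd := rfl

end Dbl

/-- The octonion algebra (Cayley–Dickson algebra) with parameters `a`, `b`, `c`: three steps of
the Cayley–Dickson process. -/
abbrev Oct {F : Type u} [Field F] (a b c : F) : Type u := Dbl c (Dbl b (Dbl a F))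

end OctBasis
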