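import Pool.Agent.Work.MP_9b6dd6_al.Defs

/-!
# T-ideals and relatively free algebras
-/

namespace OctId

open Finset

set_option linter.unusedSectionVars false

noncomputable section

variable {F : Type*} [Field F]

theorem tIdeal_isTIdeal (S : Set (Fr F)) : IsTIdeal (tIdeal S) := by
  constructor
  · intro a b hb
    simp only [tIdeal, Submodule.mem_sInf] at hb ⊢
    intro I hI
    exact hI.1.mul_left a b (hb I hI)
  · intro a b hb
    simp only [tIdeal, Submodule.mem_sInf] at hb ⊢
    intro I hI
    exact hI.1.mul_right a b (hb I hI)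
  · intro φ f hb
    simp only [tIdeal, Submodule.mem_sInf] at hb ⊢
    intro I hI
    exact hI.1.subst φ f (hb I hI)

theorem subset_tIdeal (S : Set (Fr F)) : S ⊆ (tIdeal S : Set (Fr F)) := by
  intro f hf
  simp only [tIdeal, SetLike.mem_coe, Submodule.mem_sInf]
  intro I hI
  exact hI.2 hf

theorem tIdeal_le {S : Set (Fr F)} {I : Submodule F (Fr F)} (hI : IsTIdeal I)
    (h : S ⊆ (I : Set (Fr F))) : tIdeal S ≤ I :=
  sInf_le ⟨hI, h⟩

section eval

variable {A B : Type*} [NonUnitalNonAssocSemiring A] [Module F A] [IsScalarTower F A A]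
    [SMulCommClass F A A] [NonUnitalNonAssocSemiring B] [Module F B] [IsScalarTower F B B]
    [SMulCommClass F B B]

theorem evalAt_X (φ : ℕ → A) (i : ℕ) : evalAt φ (X F i) = φ i :=
  FreeNonUnitalNonAssocAlgebra.lift_of_apply F φ i

/-- underlying linear map of a homomorphism -/
def homL (g : A →ₙₐ[F] B) : A →ₗ[F] B where
  toFun := g
  map_add' := map_add g
  map_smul' := map_smul g

@[simp] theorem homL_apply (g : A →ₙₐ[F] B) (a : A) : homL g a = g a := rfl

/-- evaluation commutes with homomorphisms -/
theorem map_evalAt (g : A →ₙₐ[F] B) (φ : ℕ → A) (f : Fr F) :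
    g (evalAt φ f) = evalAt (fun i => g (φ i)) f := by
  have h : g.comp (evalAt φ) = (evalAt (fun i => g (φ i)) : Fr F →ₙₐ[F] B) := by
    apply FreeNonUnitalNonAssocAlgebra.hom_ext
    intro x
    change g (evalAt φ (X F x)) = evalAt _ (X F x)
    rw [evalAt_X, evalAt_X]
  exact DFunLike.congr_fun h f

theorem evalAt_evalAt (φ : ℕ → Fr F) (ψ : ℕ → A) (f : Fr F) :
    evalAt ψ (evalAt φ f) = evalAt (fun i => evalAt ψ (φ i)) f :=
  map_evalAt (evalAt ψ) φ f

/-- the identities of an algebra form a T-ideal -/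
def idOf (F : Type*) [Field F] (A : Type*) [NonUnitalNonAssocSemiring A] [Module F A]
    [IsScalarTower F A A] [SMulCommClass F A A] : Submodule F (Fr F) where
  carrier := {f | IsIdentity A f}
  add_mem' := by
    intro a b ha hb φ
    rw [map_add, ha φ, hb φ, add_zero]
  zero_mem' := by
    intro φ
    rw [map_zero]
  smul_mem' := by
    intro c a ha φ
    rw [map_smul, ha φ, smul_zero]

theorem mem_idOf (f : Fr F) : f ∈ idOf F A ↔ IsIdentity A f := Iff.rfl

theorem idOf_isTIdeal (A : Type*) [NonUnitalNonAssocSemiring A] [Module F A]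
    [IsScalarTower F A A] [SMulCommClass F A A] : IsTIdeal (idOf F A) := by
  constructor
  · intro a b hb φ
    rw [map_mul, hb φ, mul_zero]
  · intro a b hb φ
    rw [map_mul, hb φ, zero_mul]
  · intro φ f hf ψ
    rw [evalAt_evalAt]
    exact hf _

end eval

/-! ## the relatively free algebra -/

/-- the relatively free algebra of a set of identities -/
def RF (S : Set (Fr F)) : Type _ := Fr F ⧸ tIdeal S

namespace RF

variable {S : Set (Fr F)}

instance : AddCommGroup (RF S) := inferInstanceAs (AddCommGroup (Fr F ⧸ tIdeal S))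
instance : Module F (RF S) := inferInstanceAs (Module F (Fr F ⧸ tIdeal S))

/-- linear quotient map -/
def mkL (S : Set (Fr F)) : Fr F →ₗ[F] RF S := (tIdeal S).mkQ

theorem mkL_surjective : Function.Surjective (mkL S) := (tIdeal S).mkQ_surjective

theorem mkL_eq_zero (f : Fr F) : mkL S f = 0 ↔ f ∈ tIdeal S :=
  Submodule.Quotient.mk_eq_zero _

/-- multiplication as a bilinear map -/
def mulB (S : Set (Fr F)) : RF S →ₗ[F] RF S →ₗ[F] RF S :=
  (tIdeal S).liftQ
    (LinearMap.flip ((tIdeal S).liftQ
      (LinearMap.flip ((LinearMap.mul F (Fr F)).compr₂ (mkL S)))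
      (by
        intro b hb
        rw [LinearMap.mem_ker]
        apply LinearMap.ext
        intro a
        change mkL S (a * b) = 0
        rw [mkL_eq_zero]
        exact (tIdeal_isTIdeal S).mul_left a b hb)))
    (by
      intro a ha
      rw [LinearMap.mem_ker]
      apply LinearMap.ext
      intro b
      obtain ⟨b, rfl⟩ := mkL_surjective b
      change mkL S (a * b) = 0
      rw [mkL_eq_zero]
      exact (tIdeal_isTIdeal S).mul_right a b ha)

instance : Mul (RF S) := ⟨fun a b => mulB S a b⟩

theorem mul_def (a b : RF S) : a * b = mulB S a b := rfl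

theorem mkL_mul (a b : Fr F) : mkL S (a * b) = mkL S a * mkL S b := rfl

instance : NonUnitalNonAssocRing (RF S) :=
  { (inferInstance : AddCommGroup (RF S)) with
    mul := (· * ·)
    left_distrib := by intro a b c; simp only [mul_def, map_add]
    right_distrib := by intro a b c; simp only [mul_def, map_add, LinearMap.add_apply]
    zero_mul := by intro a; simp only [mul_def, map_zero, LinearMap.zero_apply]
    mul_zero := by intro a; simp only [mul_def, map_zero] }

instance : IsScalarTower F (RF S) (RF S) :=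
  ⟨by intro c a b; simp only [smul_eq_mul, mul_def, map_smul, LinearMap.smul_apply]⟩

instance : SMulCommClass F (RF S) (RF S) :=
  ⟨by intro c a b; simp only [smul_eq_mul, mul_def, map_smul]⟩

/-- quotient map as an algebra homomorphism -/
def mk (S : Set (Fr F)) : Fr F →ₙₐ[F] RF S :=
  { toFun := mkL S
    map_smul' := fun c a => (mkL S).map_smul c a
    map_zero' := (mkL S).map_zero
    map_add' := (mkL S).map_add
    map_mul' := mkL_mul }

theorem mk_surjective : Function.Surjective (mk S) := mkL_surjective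

theorem mk_eq_zero (f : Fr F) : mk S f = 0 ↔ f ∈ tIdeal S := mkL_eq_zero f

/-- generators -/
def gen (S : Set (Fr F)) (i : ℕ) : RF S := mk S (X F i)

theorem mk_eq_evalAt (f : Fr F) : mk S f = evalAt (gen S) f := by
  have h : mk S = (evalAt (gen S) : Fr F →ₙₐ[F] RF S) := by
    apply FreeNonUnitalNonAssocAlgebra.hom_ext
    intro x
    change mk S (X F x) = evalAt _ (X F x)
    rw [evalAt_X]
    rfl
  exact DFunLike.congr_fun h f

/-- elements of the T-ideal are identities of the relatively free algebra -/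
theorem identity_of_mem {f : Fr F} (hf : f ∈ tIdeal S) : IsIdentity (RF S) f := by
  intro φ
  choose ψ hψ using fun i => mk_surjective (S := S) (φ i)
  have h1 : evalAt φ f = mk S (evalAt ψ f) := by
    rw [map_evalAt]
    congr 2
    funext i
    exact (hψ i).symm
  rw [h1, mk_eq_zero]
  exact (tIdeal_isTIdeal S).subst ψ f hf

theorem evalAt_gen_eq_zero (f : Fr F) : evalAt (gen S) f = 0 ↔ f ∈ tIdeal S := by
  rw [← mk_eq_evalAt, mk_eq_zero]

section lift

variable {A : Type*} [NonUnitalNonAssocRing A] [Module F A] [IsScalarTower F A A]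
    [SMulCommClass F A A]

/-- universal property of the relatively free algebra -/
def lift (hA : ∀ f ∈ S, IsIdentity A f) (u : ℕ → A) : RF S →ₙₐ[F] A :=
  have key : ∀ f ∈ tIdeal S, evalAt u f = 0 := by
    intro f hf
    have h : tIdeal S ≤ idOf F A := tIdeal_le (idOf_isTIdeal A) hA
    exact h hf u
  let L : RF S →ₗ[F] A := (tIdeal S).liftQ (homL (evalAt u))
    (by intro f hf; rw [LinearMap.mem_ker]; exact key f hf)
  { toFun := L
    map_smul' := fun c a => L.map_smul c a
    map_zero' := L.map_zero
    map_add' := L.map_add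
    map_mul' := by
      intro a b
      obtain ⟨a, rfl⟩ := mkL_surjective a
      obtain ⟨b, rfl⟩ := mkL_surjective b
      rw [← mkL_mul]
      change evalAt u (a * b) = evalAt u a * evalAt u b
      rw [map_mul] }

theorem lift_mk (hA : ∀ f ∈ S, IsIdentity A f) (u : ℕ → A) (f : Fr F) :
    lift hA u (mk S f) = evalAt u f := rfl

@[simp] theorem lift_gen (hA : ∀ f ∈ S, IsIdentity A f) (u : ℕ → A) (i : ℕ) :
    lift hA u (gen S i) = u i := by
  change lift hA u (mk S (X F i)) = u i
  rw [lift_mk, evalAt_X]

end lift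

theorem hom_ext {A : Type*} [NonUnitalNonAssocRing A] [Module F A] [IsScalarTower F A A]
    [SMulCommClass F A A] {g h : RF S →ₙₐ[F] A} (H : ∀ i, g (gen S i) = h (gen S i)) : g = h := by
  have h1 : g.comp (mk S) = h.comp (mk S) := by
    apply FreeNonUnitalNonAssocAlgebra.hom_ext
    intro x
    exact H x
  ext a
  obtain ⟨a, rfl⟩ := mk_surjective a
  exact DFunLike.congr_fun h1 a

/-- substitution endomorphism `x_i ↦ u i` -/
def sub (u : ℕ → RF S) : RF S →ₙₐ[F] RF S :=
  lift (fun _ hf => identity_of_mem (subset_tIdeal S hf)) u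

@[simp] theorem sub_gen (u : ℕ → RF S) (i : ℕ) : sub u (gen S i) = u i := lift_gen _ _ _

theorem sub_mk (u : ℕ → RF S) (f : Fr F) : sub u (mk S f) = evalAt u f := rfl

theorem sub_sub (u v : ℕ → RF S) (a : RF S) :
    sub u (sub v a) = sub (fun i => sub u (v i)) a := by
  have h : (sub u).comp (sub v) = sub (fun i => sub u (v i)) := by
    apply hom_ext
    intro i
    change sub u (sub v (gen S i)) = _
    rw [sub_gen, sub_gen]
  exact DFunLike.congr_fun h a

theorem sub_id (a : RF S) : sub (gen S) a = a := by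
  have h : sub (gen S) = NonUnitalAlgHom.id F (RF S) := by
    apply hom_ext
    intro i
    rw [sub_gen]
    rfl
  rw [h]
  rfl

end RF

/-! ## words -/

section words

variable {A B : Type*} [NonUnitalNonAssocRing A] [Module F A] [IsScalarTower F A A]
    [SMulCommClass F A A] [NonUnitalNonAssocRing B] [Module F B] [IsScalarTower F B B]
    [SMulCommClass F B B]

@[simp] theorem wv_of (u : ℕ → A) (i : ℕ) : wv u (FreeMagma.of i) = u i := rfl

@[simp] theorem wv_mul (u : ℕ → A) (a b : FreeMagma ℕ) : wv u (a * b) = wv u a * wv u b := rfl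

theorem map_wv (g : A →ₙₐ[F] B) (u : ℕ → A) (w : FreeMagma ℕ) :
    g (wv u w) = wv (fun i => g (u i)) w := by
  induction w using FreeMagma.recOnMul with
  | ih1 i => rfl
  | ih2 a b ha hb => rw [wv_mul, wv_mul, map_mul, ha, hb]

theorem evalAt_wv (u : ℕ → A) (w : FreeMagma ℕ) : evalAt u (wv (X F) w) = wv u w := by
  rw [map_wv]
  congr 2
  funext i
  exact evalAt_X u i

theorem MW.nonempty {C : Finset ℕ} {w : FreeMagma ℕ} (h : MW C w) : C.Nonempty := by
  induction h with
  | of i => exact Finset.singleton_nonempty i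
  | mul _ _ _ iha _ => exact iha.mono Finset.subset_union_left

theorem wv_congr {C : Finset ℕ} {w : FreeMagma ℕ} (h : MW C w) {u v : ℕ → A}
    (huv : ∀ i ∈ C, u i = v i) : wv u w = wv v w := by
  induction h with
  | of i => exact huv i (Finset.mem_singleton_self i)
  | mul _ _ _ iha ihb =>
    rw [wv_mul, wv_mul, iha (fun i hi => huv i (Finset.mem_union_left _ hi)),
      ihb (fun i hi => huv i (Finset.mem_union_right _ hi))]

end words

/-- multilinear part of the free algebra -/
abbrev MF (F : Type*) [Field F] (B : Finset ℕ) : Submodule F (Fr F) := ML F (X F) B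

theorem ML_induction {A : Type*} [NonUnitalNonAssocRing A] [Module F A] {x : ℕ → A}
    {B : Finset ℕ} {p : A → Prop} (hw : ∀ w, MW B w → p (wv x w)) (h0 : p 0)
    (hadd : ∀ a b, p a → p b → p (a + b)) (hsmul : ∀ (c : F) a, p a → p (c • a))
    {a : A} (ha : a ∈ ML F x B) : p a := by
  refine Submodule.span_induction ?_ h0 (fun a b _ _ => hadd a b) (fun c a _ => hsmul c a) ha
  rintro _ ⟨w, hw', rfl⟩
  exact hw w hw'

theorem wv_mem_ML {A : Type*} [NonUnitalNonAssocRing A] [Module F A] {x : ℕ → A}
    {B : Finset ℕ} {w : FreeMagma ℕ} (h : MW B w) : wv x w ∈ ML F x B :=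
  Submodule.subset_span ⟨w, h, rfl⟩

/-- elements of `ML` of the relatively free algebra lift to the multilinear part of the free
algebra -/
theorem exists_MF {S : Set (Fr F)} {B : Finset ℕ} {a : RF S} (ha : a ∈ ML F (RF.gen S) B) :
    ∃ f ∈ MF F B, RF.mk S f = a := by
  refine ML_induction (p := fun a => ∃ f ∈ MF F B, RF.mk S f = a) ?_ ?_ ?_ ?_ ha
  · intro w hw
    refine ⟨wv (X F) w, wv_mem_ML hw, ?_⟩
    rw [RF.mk_eq_evalAt, evalAt_wv]
  · exact ⟨0, Submodule.zero_mem _, map_zero _⟩
  · rintro _ _ ⟨f, hf, rfl⟩ ⟨g, hg, rfl⟩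
    exact ⟨f + g, Submodule.add_mem _ hf hg, map_add _ _ _⟩
  · rintro c _ ⟨f, hf, rfl⟩
    exact ⟨c • f, Submodule.smul_mem _ c hf, map_smul _ _ _⟩

end

end OctId
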