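import Mathlib

/-! Core definitions for MP_9b6dd6_al (identities of octonions, characteristic 0).
`br` bilinear products `m : N →ₗ[F] N →ₗ[F] N` on modules; the Malcev-type identities `BV`;
multilinear tree functions `ML m B`; cross product data. -/

namespace OctBasis

section core
variable {F : Type*} [Field F] {N : Type*} [AddCommGroup N] [Module F N]

/-- `D_{ab} c = a(bc) + b(ac)` -/
def Dop (m : N →ₗ[F] N →ₗ[F] N) (a b c : N) : N := m a (m b c) + m b (m a c)

/-- `O(ab|cd) = (D_{ab} c) d - (D_{ab} d) c` -/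
def Oop (m : N →ₗ[F] N →ₗ[F] N) (a b c d : N) : N := m (Dop m a b c) d - m (Dop m a b d) c

/-- `E(a,b;c,d)`; on a cross product space it equals `(a,b) c × d` -/
def Eop (m : N →ₗ[F] N →ₗ[F] N) (a b c d : N) : N :=
  -((12 : F)⁻¹ • ((4 : F) • Oop m a b c d + Oop m a c b d + Oop m b c a d
    + Oop m a d c b + Oop m b d c a))

/-- The three identities of the Malcev basis. -/
structure BV (m : N →ₗ[F] N →ₗ[F] N) : Prop where
  anti : ∀ x y, m x y = - m y x
  sagle : ∀ a b c d, m (m a c) (m b d) =
    m (m (m a b) c) d + m (m (m b c) d) a + m (m (m c d) a) b + m (m (m d a) b) c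
  eb : ∀ a b c d e, Eop m a b (m c d) e = m (Eop m a b c d) e

/-- Multilinear tree functions: products of the coordinates with letter set exactly `B`,
each letter used once. -/
inductive Tree (m : N →ₗ[F] N →ₗ[F] N) : Finset ℕ → ((ℕ → N) → N) → Prop
  | var (i : ℕ) : Tree m {i} (fun y => y i)
  | mul {B₁ B₂ : Finset ℕ} {u v : (ℕ → N) → N} (h : Disjoint B₁ B₂)
      (hu : Tree m B₁ u) (hv : Tree m B₂ v) : Tree m (B₁ ∪ B₂) (fun y => m (u y) (v y))

/-- The span of the multilinear tree functions with letter set `B`. -/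
def ML (m : N →ₗ[F] N →ₗ[F] N) (B : Finset ℕ) : Submodule F ((ℕ → N) → N) :=
  Submodule.span F {u | Tree m B u}

theorem Eop_add_left (m : N →ₗ[F] N →ₗ[F] N) (a a' b c d : N) :
    Eop m (a + a') b c d = Eop m a b c d + Eop m a' b c d := by
  simp only [Eop, Oop, Dop, map_add, LinearMap.add_apply]
  module

theorem Eop_smul_left (m : N →ₗ[F] N →ₗ[F] N) (k : F) (a b c d : N) :
    Eop m (k • a) b c d = k • Eop m a b c d := by
  simp only [Eop, Oop, Dop, map_add, map_smul, LinearMap.add_apply, LinearMap.smul_apply]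
  module

theorem Eop_symm (m : N →ₗ[F] N →ₗ[F] N) (a b c d : N) :
    Eop m a b c d = Eop m b a c d := by
  simp only [Eop, Oop, Dop, map_add, LinearMap.add_apply]
  module


theorem Eop_add_right (m : N →ₗ[F] N →ₗ[F] N) (a b b' c d : N) :
    Eop m a (b + b') c d = Eop m a b c d + Eop m a b' c d := by
  rw [Eop_symm, Eop_add_left, Eop_symm m b, Eop_symm m b']

theorem Eop_smul_right (m : N →ₗ[F] N →ₗ[F] N) (k : F) (a b c d : N) :
    Eop m a (k • b) c d = k • Eop m a b c d := by
  rw [Eop_symm, Eop_smul_left, Eop_symm m b]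

theorem Eop_skew (m : N →ₗ[F] N →ₗ[F] N) (a b c d : N) :
    Eop m a b c d = - Eop m a b d c := by
  simp only [Eop, Oop, Dop]
  module

theorem Eop_add_third (m : N →ₗ[F] N →ₗ[F] N) (a b c c' d : N) :
    Eop m a b (c + c') d = Eop m a b c d + Eop m a b c' d := by
  simp only [Eop, Oop, Dop, map_add, LinearMap.add_apply]
  module

theorem Eop_smul_third (m : N →ₗ[F] N →ₗ[F] N) (k : F) (a b c d : N) :
    Eop m a b (k • c) d = k • Eop m a b c d := by
  simp only [Eop, Oop, Dop, map_add, map_smul, LinearMap.add_apply, LinearMap.smul_apply]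
  module

theorem Eop_add_fourth (m : N →ₗ[F] N →ₗ[F] N) (a b c d d' : N) :
    Eop m a b c (d + d') = Eop m a b c d + Eop m a b c d' := by
  simp only [Eop, Oop, Dop, map_add, LinearMap.add_apply]
  module

theorem Eop_smul_fourth (m : N →ₗ[F] N →ₗ[F] N) (k : F) (a b c d : N) :
    Eop m a b c (k • d) = k • Eop m a b c d := by
  simp only [Eop, Oop, Dop, map_add, map_smul, LinearMap.add_apply, LinearMap.smul_apply]
  module

end core

/-- A seven dimensional cross product space: symmetric form `ip`, cross product `cr`,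
dual bases `e`, `f`. -/
structure CrossData (F : Type*) [Field F] (V : Type*) [AddCommGroup V] [Module F V] where
  ip : V →ₗ[F] V →ₗ[F] F
  cr : V →ₗ[F] V →ₗ[F] V
  ι : Type
  fin : Fintype ι
  e : ι → V
  f : ι → V
  symm : ∀ a b, ip a b = ip b a
  anti : ∀ a b, cr a b = - cr b a
  inv : ∀ a b c, ip (cr a b) c = ip a (cr b c)
  ccr : ∀ a b c, cr a (cr b c) + cr b (cr a c) = ip a c • b + ip b c • a - (2 * ip a b) • c
  dual : ∀ x, ∑ i, ip x (f i) • e i = x
  dim : ∑ i, ip (e i) (f i) = 7

end OctBasis
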