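import Mathlib
import Pool.Agent.Work.MP_9b6dd6_al.ZCore

/-! Commutator and Jordan products of an alternative algebra over a field of characteristic 0. -/

namespace OctBasis

section prods
variable (F : Type*) [Field F] {R : Type*} [NonUnitalNonAssocRing R] [Module F R]
  [IsScalarTower F R R] [SMulCommClass F R R]

/-- `a . b = (ab - ba)/2` -/
noncomputable def br : R →ₗ[F] R →ₗ[F] R :=
  (2⁻¹ : F) • (LinearMap.mul F R - (LinearMap.mul F R).flip)

/-- `a ∘ b = (ab + ba)/2` -/
noncomputable def jo : R →ₗ[F] R →ₗ[F] R :=
  (2⁻¹ : F) • (LinearMap.mul F R + (LinearMap.mul F R).flip)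

theorem br_def (x y : R) : br F x y = (2⁻¹ : F) • (x * y - y * x) := by
  simp [br]

theorem jo_def (x y : R) : jo F x y = (2⁻¹ : F) • (x * y + y * x) := by
  simp [jo]

theorem br_anti (x y : R) : br F x y = - br F y x := by
  rw [br_def, br_def, ← smul_neg, neg_sub]

theorem jo_symm (x y : R) : jo F x y = jo F y x := by
  rw [jo_def, jo_def, add_comm]

theorem br_self (x : R) : br F x x = 0 := by
  rw [br_def]; simp

variable [CharZero F]

theorem mul_eq_jo_br (x y : R) : x * y = jo F x y + br F x y := by
  rw [br_def, jo_def, ← smul_add]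
  have : x * y + y * x + (x * y - y * x) = (2 : F) • (x * y) := by
    rw [two_smul]; abel
  rw [this, smul_smul, inv_mul_cancel₀ two_ne_zero, one_smul]

end prods

/-- Alternative laws. -/
structure IsAlt (R : Type*) [NonUnitalNonAssocRing R] : Prop where
  altl : ∀ x y : R, (x * x) * y = x * (x * y)
  altr : ∀ x y : R, (y * x) * x = y * (x * x)

namespace IsAlt
variable {R : Type*} [NonUnitalNonAssocRing R] (h : IsAlt R)
include h

theorem skl (x y z : R) : (x * y) * z - x * (y * z) = -((y * x) * z - y * (x * z)) := by
  have h1 := h.altl (x + y) z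
  have h2 := h.altl x z
  have h3 := h.altl y z
  simp only [mul_add, add_mul] at h1
  rw [h2, h3] at h1
  have : x * y * z + y * x * z = x * (y * z) + y * (x * z) := by
    have h7 : (x * y * z + y * x * z) + (x * (x * z) + y * (y * z))
        = (x * (y * z) + y * (x * z)) + (x * (x * z) + y * (y * z)) := by
        calc _ = _ := by abel
          _ = _ := h1
          _ = _ := by abel
    exact add_right_cancel h7
  have h8 : x * y * z - x * (y * z) + (y * x * z - y * (x * z)) =
    (x * y * z + y * x * z) - (x * (y * z) + y * (x * z)) := by abel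
  rw [this, sub_self] at h8
  exact eq_neg_of_add_eq_zero_left h8

theorem skr (x y z : R) : (x * y) * z - x * (y * z) = -((x * z) * y - x * (z * y)) := by
  have h1 := h.altr (y + z) x
  have h2 := h.altr y x
  have h3 := h.altr z x
  simp only [mul_add, add_mul] at h1
  rw [h2, h3] at h1
  have h7 : (x * y * z + x * z * y) + (x * (y * y) + x * (z * z))
        = (x * (y * z) + x * (z * y)) + (x * (y * y) + x * (z * z)) := by
        calc _ = _ := by abel
          _ = _ := h1
          _ = _ := by abel
  have := add_right_cancel h7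
  have h8 : x * y * z - x * (y * z) + (x * z * y - x * (z * y)) =
    (x * y * z + x * z * y) - (x * (y * z) + x * (z * y)) := by abel
  rw [this, sub_self] at h8
  exact eq_neg_of_add_eq_zero_left h8

end IsAlt

section altid
variable (F : Type*) [Field F] [CharZero F] {R : Type*} [NonUnitalNonAssocRing R] [Module F R]
  [IsScalarTower F R R] [SMulCommClass F R R] (h : IsAlt R)
include h

/-- (I1) -/
theorem I1 (a b c : R) : br F a (jo F b c) = jo F (br F a b) c + jo F b (br F a c) := by
  have e1 := h.skl b a c
  have e2 := h.skl c a b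
  have e3 := h.skl b c a
  have e4 := h.skr a b c
  simp only [br_def, jo_def, mul_add, add_mul, mul_sub, sub_mul, 
    mul_smul_comm, smul_mul_assoc]
  linear_combination (norm := module) (4⁻¹ : F) • e1 + (4⁻¹ : F) • e2 - (4⁻¹ : F) • e3
    - (2⁻¹ : F) • e4

/-- (I2) -/
theorem I2 (a b c : R) : jo F a (jo F b c) - jo F b (jo F a c) =
    (2 / 3 : F) • br F (br F a b) c
      + (3⁻¹ : F) • (br F a (br F b c) - br F b (br F a c)) := by
  have e2 := h.skr a b c
  have e3 := h.skl a c b
  have e4 := h.skr b a c
  have e5 := h.skl b c a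
  simp only [br_def, jo_def, mul_add, add_mul, mul_sub, sub_mul, 
    mul_smul_comm, smul_mul_assoc]
  linear_combination (norm := module) (6⁻¹ : F) • e4 + (6⁻¹ : F) • e5 - (6⁻¹ : F) • e2
    - (6⁻¹ : F) • e3

end altid

end OctBasis
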