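import Mathlib
import Pool.Agent.Work.MP_9b6dd6_al.ZCore

/-! Basic facts on multilinear tree functions. -/

namespace OctBasis

variable {F : Type*} [Field F] {N : Type*} [AddCommGroup N] [Module F N]
  {m : N →ₗ[F] N →ₗ[F] N}

theorem Tree.nonempty {B : Finset ℕ} {u : (ℕ → N) → N} (h : Tree m B u) : B.Nonempty := by
  induction h with
  | var i => exact Finset.singleton_nonempty i
  | mul h hu hv ihu ihv => exact ihu.mono Finset.subset_union_left

theorem ML_empty : ML m ∅ = ⊥ := by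
  rw [ML, Submodule.span_eq_bot]
  intro u hu
  exact absurd (Tree.nonempty hu) (by simp)

theorem Tree.mem {B : Finset ℕ} {u : (ℕ → N) → N} (h : Tree m B u) : u ∈ ML m B :=
  Submodule.subset_span h

theorem ML_var (i : ℕ) : (fun y : ℕ → N => y i) ∈ ML m {i} := (Tree.var i).mem

theorem ML_ind {B : Finset ℕ} {p : ((ℕ → N) → N) → Prop} (ht : ∀ u, Tree m B u → p u)
    (hadd : ∀ u v, p u → p v → p (u + v)) (hsmul : ∀ (c : F) u, p u → p (c • u)) (h0 : p 0)
    {u : (ℕ → N) → N} (hu : u ∈ ML m B) : p u := by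
  induction hu using Submodule.span_induction with
  | mem x hx => exact ht x hx
  | zero => exact h0
  | add x y _ _ hx hy => exact hadd x y hx hy
  | smul c x _ hx => exact hsmul c x hx

theorem ML_mul {B₁ B₂ : Finset ℕ} {u v : (ℕ → N) → N} (hu : u ∈ ML m B₁) (hv : v ∈ ML m B₂)
    (h : Disjoint B₁ B₂) : (fun y => m (u y) (v y)) ∈ ML m (B₁ ∪ B₂) := by
  refine ML_ind (p := fun u => ∀ v ∈ ML m B₂, (fun y => m (u y) (v y)) ∈ ML m (B₁ ∪ B₂))
    ?_ ?_ ?_ ?_ hu v hv
  · intro u hu v hv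
    refine ML_ind (p := fun v => (fun y => m (u y) (v y)) ∈ ML m (B₁ ∪ B₂)) ?_ ?_ ?_ ?_ hv
    · intro v hv; exact (Tree.mul h hu hv).mem
    · intro v w hv hw
      have := Submodule.add_mem _ hv hw
      convert this using 1
      funext y; simp
    · intro c v hv
      have := Submodule.smul_mem _ c hv
      convert this using 1
      funext y; simp
    · convert Submodule.zero_mem _ using 1
      funext y; simp
  · intro u u' hu hu' v hv
    have := Submodule.add_mem _ (hu v hv) (hu' v hv)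
    convert this using 1
    funext y; simp
  · intro c u hu v hv
    have := Submodule.smul_mem _ c (hu v hv)
    convert this using 1
    funext y; simp
  · intro v hv
    convert Submodule.zero_mem _ using 1
    funext y; simp

theorem Tree.dep {B : Finset ℕ} {u : (ℕ → N) → N} (h : Tree m B u) {y y' : ℕ → N}
    (hy : ∀ i ∈ B, y i = y' i) : u y = u y' := by
  induction h with
  | var i => exact hy i (by simp)
  | mul h hu hv ihu ihv =>
    simp only
    rw [ihu (fun i hi => hy i (Finset.mem_union_left _ hi)),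
      ihv (fun i hi => hy i (Finset.mem_union_right _ hi))]

theorem ML_dep {B : Finset ℕ} {u : (ℕ → N) → N} (h : u ∈ ML m B) {y y' : ℕ → N}
    (hy : ∀ i ∈ B, y i = y' i) : u y = u y' := by
  refine ML_ind (p := fun u => u y = u y') ?_ ?_ ?_ ?_ h
  · intro u hu; exact hu.dep hy
  · intro u v hu hv; simp [hu, hv]
  · intro c u hu; simp [hu]
  · rfl

theorem Tree.single {B : Finset ℕ} {u : (ℕ → N) → N} (h : Tree m B u) {i : ℕ} (hB : B = {i}) :
    u = fun y => y i := by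
  cases h with
  | var j =>
    have : j = i := by simpa using hB
    subst this; rfl
  | mul h hu hv =>
    rename_i B₁ B₂ u v
    exfalso
    have h1 : B₁.card + B₂.card = 1 := by
      rw [← Finset.card_union_of_disjoint h, hB, Finset.card_singleton]
    have := hu.nonempty.card_pos
    have := hv.nonempty.card_pos
    omega

theorem ML_single {u : (ℕ → N) → N} {i : ℕ} (h : u ∈ ML m {i}) : ∃ c : F, u = fun y => c • y i := by
  refine ML_ind (p := fun u => ∃ c : F, u = fun y => c • y i) ?_ ?_ ?_ ?_ h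
  · intro u hu; exact ⟨1, by rw [hu.single rfl]; simp⟩
  · rintro u v ⟨c, rfl⟩ ⟨d, rfl⟩; exact ⟨c + d, by funext y; simp [add_smul]⟩
  · rintro c u ⟨d, rfl⟩; exact ⟨c * d, by funext y; simp [mul_smul]⟩
  · exact ⟨0, by funext y; simp⟩

/-- a tree with at least two leaves is a product -/
theorem Tree.split {B : Finset ℕ} {u : (ℕ → N) → N} (h : Tree m B u) (hB : 2 ≤ B.card) :
    ∃ (B₁ B₂ : Finset ℕ) (u₁ u₂ : (ℕ → N) → N), Disjoint B₁ B₂ ∧ B₁ ∪ B₂ = B ∧ Tree m B₁ u₁ ∧
      Tree m B₂ u₂ ∧ u = fun y => m (u₁ y) (u₂ y) := by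
  cases h with
  | var j => simp at hB
  | mul h hu hv => exact ⟨_, _, _, _, h, rfl, hu, hv, rfl⟩

theorem Tree.mul' {B₁ B₂ B : Finset ℕ} {u v : (ℕ → N) → N} (h : Disjoint B₁ B₂)
    (hB : B₁ ∪ B₂ = B) (hu : Tree m B₁ u) (hv : Tree m B₂ v) : Tree m B (fun y => m (u y) (v y)) := by
  subst hB; exact Tree.mul h hu hv

theorem ML_mul' {B₁ B₂ B : Finset ℕ} {u v : (ℕ → N) → N} (hu : u ∈ ML m B₁) (hv : v ∈ ML m B₂)
    (h : Disjoint B₁ B₂) (hB : B₁ ∪ B₂ = B) : (fun y => m (u y) (v y)) ∈ ML m B := by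
  subst hB; exact ML_mul hu hv h

section hom
variable {N' : Type*} [AddCommGroup N'] [Module F N'] {m' : N' →ₗ[F] N' →ₗ[F] N'}
  (p : N →ₗ[F] N') (hp : ∀ x y, p (m x y) = m' (p x) (p y))
include hp

theorem Tree.lift {B : Finset ℕ} {T : (ℕ → N') → N'} (h : Tree m' B T) :
    ∃ U, Tree m B U ∧ ∀ y, p (U y) = T (fun i => p (y i)) := by
  induction h with
  | var i => exact ⟨_, Tree.var i, fun y => rfl⟩
  | mul h hu hv ihu ihv =>
    obtain ⟨U, hU, hU'⟩ := ihu
    obtain ⟨V, hV, hV'⟩ := ihv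
    exact ⟨_, Tree.mul h hU hV, fun y => by rw [hp, hU', hV']⟩

theorem ML_lift {B : Finset ℕ} {T : (ℕ → N') → N'} (h : T ∈ ML m' B) :
    ∃ U ∈ ML m B, ∀ y, p (U y) = T (fun i => p (y i)) := by
  refine ML_ind (p := fun T => ∃ U ∈ ML m B, ∀ y, p (U y) = T (fun i => p (y i))) ?_ ?_ ?_ ?_ h
  · intro u hu
    obtain ⟨U, hU, h2⟩ := Tree.lift p hp hu
    exact ⟨U, hU.mem, h2⟩
  · rintro u v ⟨U, hU, h1⟩ ⟨V, hV, h2⟩
    exact ⟨U + V, Submodule.add_mem _ hU hV, fun y => by simp [h1, h2]⟩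
  · rintro c u ⟨U, hU, h1⟩
    exact ⟨c • U, Submodule.smul_mem _ c hU, fun y => by simp [h1]⟩
  · exact ⟨0, Submodule.zero_mem _, fun y => by simp⟩

theorem Tree.push {B : Finset ℕ} {U : (ℕ → N) → N} (h : Tree m B U) :
    ∃ T, Tree m' B T ∧ ∀ y, p (U y) = T (fun i => p (y i)) := by
  induction h with
  | var i => exact ⟨_, Tree.var i, fun y => rfl⟩
  | mul h hu hv ihu ihv =>
    obtain ⟨U, hU, hU'⟩ := ihu
    obtain ⟨V, hV, hV'⟩ := ihv
    exact ⟨_, Tree.mul h hU hV, fun y => by rw [hp, hU', hV']⟩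

theorem ML_push {B : Finset ℕ} {U : (ℕ → N) → N} (h : U ∈ ML m B) :
    ∃ T ∈ ML m' B, ∀ y, p (U y) = T (fun i => p (y i)) := by
  refine ML_ind (p := fun U => ∃ T ∈ ML m' B, ∀ y, p (U y) = T (fun i => p (y i))) ?_ ?_ ?_ ?_ h
  · intro u hu
    obtain ⟨U, hU, h2⟩ := Tree.push p hp hu
    exact ⟨U, hU.mem, h2⟩
  · rintro u v ⟨U, hU, h1⟩ ⟨V, hV, h2⟩
    exact ⟨U + V, Submodule.add_mem _ hU hV, fun y => by simp [h1, h2]⟩
  · rintro c u ⟨U, hU, h1⟩
    exact ⟨c • U, Submodule.smul_mem _ c hU, fun y => by simp [h1]⟩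
  · exact ⟨0, Submodule.zero_mem _, fun y => by simp⟩

theorem ML_fac {B : Finset ℕ} {U : (ℕ → N) → N} (h : U ∈ ML m B) {y y' : ℕ → N}
    (hy : ∀ i, p (y i) = p (y' i)) : p (U y) = p (U y') := by
  obtain ⟨T, _, hT⟩ := ML_push p hp h
  rw [hT, hT]; congr 1; funext i; exact hy i

end hom

end OctBasis
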