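import Mathlib
import Pool.Agent.Work.MP_9b6dd6_al.ZCore
import Pool.Agent.Work.MP_9b6dd6_al.ZAlt
import Pool.Agent.Work.MP_9b6dd6_al.ZSagle

/-! Algebras satisfying the list of identities (class `OV`) and first consequences. -/

namespace OctBasis

section ov
variable (F : Type*) [Field F] {R : Type*} [NonUnitalNonAssocRing R] [Module F R]
  [IsScalarTower F R R] [SMulCommClass F R R]

/-- `E` with the top level products `P Q` replaced by `P ∘ (Q . e)`. -/
noncomputable def OopZ (e a b c d : R) : R :=
  jo F (Dop (br F) a b c) (br F d e) - jo F (Dop (br F) a b d) (br F c e)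

noncomputable def EopZ (e a b c d : R) : R :=
  -((12 : F)⁻¹ • ((4 : F) • OopZ F e a b c d + OopZ F e a c b d + OopZ F e b c a d
    + OopZ F e a d c b + OopZ F e b d c a))

/-- The identities of the list, as properties of an algebra. -/
structure OV (R : Type*) [NonUnitalNonAssocRing R] [Module F R]
    [IsScalarTower F R R] [SMulCommClass F R R] : Prop extends IsAlt R where
  z1 : ∀ a b c d w : R, br F w (jo F (br F a b) (br F c d)) = 0
  z2 : ∀ a b c d e f : R, jo F (jo F (br F a b) (br F c d)) (br F e f) =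
    - Eop (br F) (br F a b) (br F c d) e f
  eb : ∀ a b c d e : R, Eop (br F) a b (br F c d) e = br F (Eop (br F) a b c d) e

end ov

section ovcons
variable {F : Type*} [Field F] {R : Type*} [NonUnitalNonAssocRing R] [Module F R]
  [IsScalarTower F R R] [SMulCommClass F R R]

variable (F R) in
/-- span of the commutators -/
def M2 : Submodule F R := Submodule.span F {x | ∃ a b : R, x = br F a b}

theorem br_mem_M2 (a b : R) : br F a b ∈ M2 F R := Submodule.subset_span ⟨a, b, rfl⟩

theorem OV.sagle [CharZero F] (h : OV F R) (a b c d : R) : br F (br F a c) (br F b d) =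
    br F (br F (br F a b) c) d + br F (br F (br F b c) d) a
      + br F (br F (br F c d) a) b + br F (br F (br F d a) b) c :=
  sagle_of_alt F h.toIsAlt a b c d

theorem OV.bv [CharZero F] (h : OV F R) : BV (br F : R →ₗ[F] R →ₗ[F] R) where
  anti := br_anti F
  sagle := h.sagle
  eb := h.eb

theorem M2_ind {p : R → Prop} (hbr : ∀ a b, p (br F a b)) (hadd : ∀ x y, p x → p y → p (x + y))
    (hsmul : ∀ (c : F) x, p x → p (c • x)) (h0 : p 0) {x : R} (hx : x ∈ M2 F R) : p x := by
  induction hx using Submodule.span_induction with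
  | mem x hx => obtain ⟨a, b, rfl⟩ := hx; exact hbr a b
  | zero => exact h0
  | add x y _ _ hx hy => exact hadd x y hx hy
  | smul c x _ hx => exact hsmul c x hx

theorem OV.z1' (h : OV F R) {f g : R} (hf : f ∈ M2 F R) (hg : g ∈ M2 F R) (w : R) :
    br F w (jo F f g) = 0 := by
  refine M2_ind (F := F) (p := fun f => ∀ g ∈ M2 F R, br F w (jo F f g) = 0) ?_ ?_ ?_ ?_ hf g hg
  · intro a b g hg
    refine M2_ind (F := F) (p := fun g => br F w (jo F (br F a b) g) = 0) ?_ ?_ ?_ ?_ hg
    · intro c d; exact h.z1 a b c d w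
    · intro x y hx hy; simp [hx, hy]
    · intro c x hx; simp [hx]
    · simp
  · intro x y hx hy g hg; simp [hx g hg, hy g hg]
  · intro c x hx g hg; simp [hx g hg]
  · intro g hg; simp

theorem OV.skew [CharZero F] (h : OV F R) {f g : R} (hf : f ∈ M2 F R) (hg : g ∈ M2 F R) (a : R) :
    jo F (br F a f) g = - jo F f (br F a g) := by
  have h1 := I1 F h.toIsAlt a f g
  rw [h.z1' hf hg a] at h1
  exact eq_neg_of_add_eq_zero_left h1.symm

theorem OV.z2' (h : OV F R) {f g : R} (hf : f ∈ M2 F R) (hg : g ∈ M2 F R) (x y : R) :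
    jo F (jo F f g) (br F x y) = - Eop (br F) f g x y := by
  refine M2_ind (F := F) (p := fun f => ∀ g ∈ M2 F R,
    jo F (jo F f g) (br F x y) = - Eop (br F) f g x y) ?_ ?_ ?_ ?_ hf g hg
  · intro a b g hg
    refine M2_ind (F := F) (p := fun g =>
      jo F (jo F (br F a b) g) (br F x y) = - Eop (br F) (br F a b) g x y) ?_ ?_ ?_ ?_ hg
    · intro c d; exact h.z2 a b c d x y
    · intro u v hu hv
      rw [Eop_symm, Eop_add_left, Eop_symm _ u, Eop_symm _ v]
      simp only [map_add, LinearMap.add_apply, hu, hv]; abel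
    · intro c u hu
      rw [Eop_symm, Eop_smul_left, Eop_symm _ u]
      simp only [map_smul, LinearMap.smul_apply, hu, smul_neg]
    · rw [Eop_symm]; simp [Eop, Oop, Dop]
  · intro u v hu hv g hg
    rw [Eop_add_left]
    simp only [map_add, LinearMap.add_apply, hu g hg, hv g hg]; abel
  · intro c u hu g hg
    rw [Eop_smul_left]
    simp only [map_smul, LinearMap.smul_apply, hu g hg, smul_neg]
  · intro g hg; simp [Eop, Oop, Dop]

end ovcons

end OctBasis
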