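import Mathlib
import Pool.Agent.Work.MP_9b6dd6_al.ZCore
import Pool.Agent.Work.MP_9b6dd6_al.ZAlt
import Pool.Agent.Work.MP_9b6dd6_al.ZOV

/-! The auxiliary Malcev-type algebra `N' = R × M2 × (R → R)`. -/

namespace OctBasis

variable {F : Type*} [Field F] {R : Type*} [NonUnitalNonAssocRing R] [Module F R]
  [IsScalarTower F R R] [SMulCommClass F R R]

variable (F R) in
abbrev Np : Type _ := R × (M2 F R) × (R → R)

variable (F R) in
noncomputable def mnp : Np F R →ₗ[F] Np F R →ₗ[F] Np F R :=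
  LinearMap.mk₂ F (fun X Y => (0, ⟨br F (X.1 + X.2.1) (Y.1 + Y.2.1), br_mem_M2 _ _⟩,
      fun e => jo F (X.2.1 : R) (br F (Y.1 + Y.2.1) e) - jo F (Y.2.1 : R) (br F X.1 e)))
    (by
      intro X X' Y
      ext <;> simp
      · abel
      · abel)
    (by
      intro c X Y
      ext <;> simp [smul_sub])
    (by
      intro X Y Y'
      ext <;> simp
      · abel
      · abel)
    (by
      intro c X Y
      ext <;> simp [smul_sub])

variable (F R) in
def prN : Np F R →ₗ[F] R := LinearMap.fst F _ _ + (Submodule.subtype _) ∘ₗ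
  LinearMap.fst F _ _ ∘ₗ LinearMap.snd F _ _

theorem prN_def (X : Np F R) : prN F R X = X.1 + X.2.1 := rfl

theorem mnp_fst (X Y : Np F R) : (mnp F R X Y).1 = 0 := rfl

theorem mnp_snd (X Y : Np F R) : ((mnp F R X Y).2.1 : R) = br F (prN F R X) (prN F R Y) := rfl

theorem mnp_trd (X Y : Np F R) (e : R) : (mnp F R X Y).2.2 e =
    jo F (X.2.1 : R) (br F (prN F R Y) e) - jo F (Y.2.1 : R) (br F X.1 e) := rfl

theorem prN_mul (X Y : Np F R) : prN F R (mnp F R X Y) = br F (prN F R X) (prN F R Y) := by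
  rw [prN_def, mnp_fst, mnp_snd, zero_add]

theorem Np_ext {X Y : Np F R} (h1 : X.1 = Y.1) (h2 : (X.2.1 : R) = Y.2.1)
    (h3 : ∀ e, X.2.2 e = Y.2.2 e) : X = Y :=
  Prod.ext h1 (Prod.ext (Subtype.ext h2) (funext h3))

/-- product with a left factor of first component zero -/
theorem mnp_trd' (X Y : Np F R) (hX : X.1 = 0) (e : R) : (mnp F R X Y).2.2 e =
    jo F (prN F R X) (br F (prN F R Y) e) := by
  rw [mnp_trd, hX, prN_def X, hX]; simp

theorem fst_Dop (X Y Z : Np F R) : (Dop (mnp F R) X Y Z).1 = 0 := by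
  simp [Dop, mnp_fst]

theorem prN_Dop (X Y Z : Np F R) : prN F R (Dop (mnp F R) X Y Z) =
    Dop (br F) (prN F R X) (prN F R Y) (prN F R Z) := by
  simp [Dop, prN_mul]

theorem prN_Oop (X Y Z W : Np F R) : prN F R (Oop (mnp F R) X Y Z W) =
    Oop (br F) (prN F R X) (prN F R Y) (prN F R Z) (prN F R W) := by
  simp [Oop, prN_mul, prN_Dop]

theorem prN_Eop (X Y Z W : Np F R) : prN F R (Eop (mnp F R) X Y Z W) =
    Eop (br F) (prN F R X) (prN F R Y) (prN F R Z) (prN F R W) := by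
  simp [Eop, prN_Oop]

theorem fst_Oop (X Y Z W : Np F R) : (Oop (mnp F R) X Y Z W).1 = 0 := by
  simp [Oop, mnp_fst]

theorem fst_Eop (X Y Z W : Np F R) : (Eop (mnp F R) X Y Z W).1 = 0 := by
  simp [Eop, fst_Oop]

theorem trd_Oop (X Y Z W : Np F R) (e : R) : (Oop (mnp F R) X Y Z W).2.2 e =
    OopZ F e (prN F R X) (prN F R Y) (prN F R Z) (prN F R W) := by
  simp only [Oop, OopZ, Prod.snd_sub, Pi.sub_apply]
  rw [mnp_trd' _ _ (fst_Dop _ _ _), mnp_trd' _ _ (fst_Dop _ _ _), prN_Dop, prN_Dop]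

theorem trd_Eop (X Y Z W : Np F R) (e : R) : (Eop (mnp F R) X Y Z W).2.2 e =
    EopZ F e (prN F R X) (prN F R Y) (prN F R Z) (prN F R W) := by
  simp only [Eop, EopZ, Prod.snd_neg, Prod.snd_add, Prod.smul_snd, Pi.add_apply, Pi.neg_apply,
    Pi.smul_apply, trd_Oop]

variable [CharZero F]

theorem mnp_anti (h : OV F R) (X Y : Np F R) : mnp F R X Y = - mnp F R Y X := by
  apply Np_ext
  · simp [mnp_fst]
  · have h1 := mnp_snd X Y
    have h2 := mnp_snd Y X
    simp only [Prod.snd_neg, Prod.fst_neg, Submodule.coe_neg]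
    rw [h1, h2, br_anti]
  · intro e
    simp only [Prod.snd_neg, Pi.neg_apply, mnp_trd, prN_def, map_add, LinearMap.add_apply]
    have h3 := h.skew X.2.1.2 Y.2.1.2 e
    have h4 := br_anti F e (Y.2.1 : R)
    have h5 := br_anti F e (X.2.1 : R)
    rw [h4, h5, map_neg, map_neg, LinearMap.neg_apply] at h3
    have h6 := jo_symm F (Y.2.1 : R) (br F (X.2.1 : R) e)
    rw [h6]
    linear_combination (norm := module) -h3

end OctBasis
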