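import Mathlib
import Pool.Agent.Work.MP_9b6dd6_al.ZCore
import Pool.Agent.Work.MP_9b6dd6_al.ZAlt
import Pool.Agent.Work.MP_9b6dd6_al.ZOV
import Pool.Agent.Work.MP_9b6dd6_al.ZNp

/-! The scalar forms of the Malcev identities follow from the other identities: for a Malcev
identity `f` the element `Z_e(f)` is skew symmetric in `e` and every letter of `f`. -/

namespace OctBasis

set_option linter.unusedSectionVars false
set_option linter.unusedSimpArgs false

variable {F : Type*} [Field F] {R : Type*} [NonUnitalNonAssocRing R] [Module F R]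
  [IsScalarTower F R R] [SMulCommClass F R R] [CharZero F]

/-- `br (jo a b) p` -/
theorem I1' (h : IsAlt R) (a b p : R) : br F (jo F a b) p = jo F (br F a p) b + jo F a (br F b p) := by
  have h1 := I1 F h p a b
  rw [br_anti F (jo F a b) p, h1, br_anti F p a, br_anti F p b, map_neg, map_neg,
    LinearMap.neg_apply]
  abel

variable (F R) in
/-- linear parts -/
abbrev Lp : Type _ := Np F R × Np F R × R

variable (F R) in
/-- constants plus linear parts -/
abbrev Ep : Type _ := Np F R × Lp F R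

variable (F R) in
noncomputable def mE : Ep F R →ₗ[F] Ep F R →ₗ[F] Ep F R :=
  LinearMap.mk₂ F (fun A B => (mnp F R A.1 B.1,
      (mnp F R A.2.1 B.1 + mnp F R A.1 B.2.1, mnp F R A.2.2.1 B.1 + mnp F R A.1 B.2.2.1,
        br F A.2.2.2 (prN F R B.1) + br F (prN F R A.1) B.2.2.2)))
    (by
      intro A A' B
      refine Prod.ext ?_ (Prod.ext ?_ (Prod.ext ?_ ?_)) <;> simp <;> abel)
    (by
      intro c A B
      refine Prod.ext ?_ (Prod.ext ?_ (Prod.ext ?_ ?_)) <;> simp)
    (by
      intro A B B'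
      refine Prod.ext ?_ (Prod.ext ?_ (Prod.ext ?_ ?_)) <;> simp <;> abel)
    (by
      intro c A B
      refine Prod.ext ?_ (Prod.ext ?_ (Prod.ext ?_ ?_)) <;> simp)

theorem mE_apply (A B : Ep F R) : mE F R A B = (mnp F R A.1 B.1,
      (mnp F R A.2.1 B.1 + mnp F R A.1 B.2.1, mnp F R A.2.2.1 B.1 + mnp F R A.1 B.2.2.1,
        br F A.2.2.2 (prN F R B.1) + br F (prN F R A.1) B.2.2.2)) := rfl

/-- inclusion of `R` in `N'` -/
def hatN (x : R) : Np F R := (x, 0, 0)

theorem prN_hat (x : R) : prN F R (hatN x) = x := by simp [prN_def, hatN]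

/-- the relation between `t(x)`, `t(e)`, `t(x ∘ e)` -/
def Cs (x e : R) : Submodule F (Lp F R) where
  carrier := {l | l.1.1 = 0 ∧ l.2.1.1 = 0 ∧
    l.2.2 = jo F x (prN F R l.2.1) + jo F (prN F R l.1) e - l.1.2.2 e - l.2.1.2.2 x ∧
    ∀ p, br F p (l.1.2.2 e + l.2.1.2.2 x) = 0}
  add_mem' := by
    rintro l l' ⟨h1, h2, h3, h4⟩ ⟨h1', h2', h3', h4'⟩
    refine ⟨by simp [h1, h1'], by simp [h2, h2'], ?_, ?_⟩
    · simp only [Prod.snd_add, Prod.fst_add, map_add, LinearMap.add_apply, Pi.add_apply, h3, h3']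
      abel
    · intro p
      have := h4 p
      have h5 := h4' p
      simp only [Prod.snd_add, Prod.fst_add, Pi.add_apply, map_add] at this h5 ⊢
      linear_combination (norm := module) this + h5
  zero_mem' := by
    refine ⟨rfl, rfl, by simp, by simp⟩
  smul_mem' := by
    rintro c l ⟨h1, h2, h3, h4⟩
    refine ⟨by simp [h1], by simp [h2], ?_, ?_⟩
    · simp only [Prod.smul_snd, Prod.smul_fst, map_smul, LinearMap.smul_apply, Pi.smul_apply, h3]
      module
    · intro p
      have := h4 p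
      simp only [Prod.smul_snd, Prod.smul_fst, Pi.smul_apply, map_add, map_smul] at this ⊢
      linear_combination (norm := module) c • this

theorem Cs_right (h : OV F R) {x e : R} {l : Lp F R} (hl : l ∈ Cs x e) (P : Np F R) :
    (mnp F R l.1 P, mnp F R l.2.1 P, br F l.2.2 (prN F R P)) ∈ Cs (F := F) x e := by
  obtain ⟨h1, h2, h3, h4⟩ := hl
  refine ⟨mnp_fst _ _, mnp_fst _ _, ?_, ?_⟩
  · simp only
    rw [mnp_trd' _ _ h1, mnp_trd' _ _ h2, prN_mul, prN_mul, h3]
    have h5 := h4 (prN F R P)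
    rw [br_anti, map_add, LinearMap.add_apply] at h5
    simp only [map_sub, map_add, LinearMap.sub_apply, LinearMap.add_apply]
    rw [I1' h.toIsAlt, I1' h.toIsAlt]
    have e1 : jo F (br F x (prN F R P)) (prN F R l.2.1) =
        - jo F (prN F R l.2.1) (br F (prN F R P) x) := by
      rw [jo_symm, br_anti F x, map_neg]
    have e2 : jo F (prN F R l.1) (br F e (prN F R P)) =
        - jo F (prN F R l.1) (br F (prN F R P) e) := by
      rw [br_anti F e, map_neg]
    rw [e1, e2]
    linear_combination (norm := module) h5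
  · intro p
    simp only
    rw [mnp_trd' _ _ h1, mnp_trd' _ _ h2, map_add, prN_def l.1, h1, prN_def l.2.1, h2, zero_add,
      zero_add, h.z1' l.1.2.1.2 (br_mem_M2 _ _), h.z1' l.2.1.2.1.2 (br_mem_M2 _ _), add_zero]

theorem base_right (h : OV F R) (x e : R) (P : Np F R) :
    (mnp F R (hatN x) P, mnp F R (hatN e) P, br F (jo F x e) (prN F R P)) ∈ Cs (F := F) x e := by
  have h1 : (mnp F R (hatN x) P).2.2 e = - jo F (P.2.1 : R) (br F x e) := by
    rw [mnp_trd]; simp [hatN]
  have h2 : (mnp F R (hatN e) P).2.2 x = jo F (P.2.1 : R) (br F x e) := by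
    rw [mnp_trd, br_anti F x e]; simp [hatN]
  refine ⟨mnp_fst _ _, mnp_fst _ _, ?_, ?_⟩
  · simp only
    rw [h1, h2, prN_mul, prN_mul, prN_hat, prN_hat, I1' h.toIsAlt]
    abel
  · intro p
    simp only
    rw [h1, h2, neg_add_cancel, map_zero]

/-- elements whose linear part is in `Cs` -/
def SE (x e : R) : Submodule F (Ep F R) := (Cs x e).comap (LinearMap.snd F _ _)

/-- the same with the generator adjoined -/
def SEp (x e : R) : Submodule F (Ep F R) :=
  SE x e ⊔ Submodule.span F {((0 : Np F R), ((hatN x : Np F R), (hatN e : Np F R), jo F x e))}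

theorem mE_mem (h : OV F R) {x e : R} {A B : Ep F R} (hA : A ∈ SEp x e) (hB : B ∈ SEp x e) :
    mE F R A B ∈ SE x e := by
  -- right multiplication of a linear part
  have key : ∀ A ∈ SEp (F := F) x e, ∀ P : Np F R,
      (mnp F R A.2.1 P, mnp F R A.2.2.1 P, br F A.2.2.2 (prN F R P)) ∈ Cs (F := F) x e := by
    intro A hA P
    obtain ⟨A1, hA1, A2, hA2, rfl⟩ := Submodule.mem_sup.1 hA
    obtain ⟨c, rfl⟩ := Submodule.mem_span_singleton.1 hA2
    have k1 := Cs_right h hA1 P
    have k2 := (Cs (F := F) x e).smul_mem c (base_right h x e P)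
    have k3 := (Cs (F := F) x e).add_mem k1 k2
    convert k3 using 1
    simp
  have k1 := key A hA B.1
  have k2 := (Cs (F := F) x e).neg_mem (key B hB A.1)
  have k3 := (Cs (F := F) x e).add_mem k1 k2
  change (mE F R A B).2 ∈ Cs (F := F) x e
  convert k3 using 1
  rw [mE_apply]
  simp only [Prod.neg_mk, Prod.mk_add_mk]
  rw [mnp_anti h A.1 B.2.1, mnp_anti h A.1 B.2.2.1, br_anti F (prN F R A.1)]

theorem SE_le (x e : R) : SE (F := F) x e ≤ SEp x e := le_sup_left

theorem Dop_SE (h : OV F R) {x e : R} {A B C : Ep F R} (hA : A ∈ SEp x e) (hB : B ∈ SEp x e)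
    (hC : C ∈ SEp x e) : Dop (mE F R) A B C ∈ SE x e :=
  Submodule.add_mem _ (mE_mem h hA (SE_le _ _ (mE_mem h hB hC)))
    (mE_mem h hB (SE_le _ _ (mE_mem h hA hC)))

theorem Oop_SE (h : OV F R) {x e : R} {A B C D : Ep F R} (hA : A ∈ SEp x e) (hB : B ∈ SEp x e)
    (hC : C ∈ SEp x e) (hD : D ∈ SEp x e) : Oop (mE F R) A B C D ∈ SE x e :=
  Submodule.sub_mem _ (mE_mem h (SE_le _ _ (Dop_SE h hA hB hC)) hD)
    (mE_mem h (SE_le _ _ (Dop_SE h hA hB hD)) hC)

theorem Eop_SE (h : OV F R) {x e : R} {A B C D : Ep F R} (hA : A ∈ SEp x e) (hB : B ∈ SEp x e)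
    (hC : C ∈ SEp x e) (hD : D ∈ SEp x e) : Eop (mE F R) A B C D ∈ SE x e :=
  Submodule.neg_mem _ (Submodule.smul_mem _ _ (Submodule.add_mem _ (Submodule.add_mem _
    (Submodule.add_mem _ (Submodule.add_mem _ (Submodule.smul_mem _ _ (Oop_SE h hA hB hC hD))
    (Oop_SE h hA hC hB hD)) (Oop_SE h hB hC hA hD)) (Oop_SE h hA hD hC hB))
    (Oop_SE h hB hD hC hA)))

/-- constants -/
def cst (P : Np F R) : Ep F R := (P, 0)

/-- the generator -/
noncomputable def gn (x e : R) : Ep F R := (0, (hatN x, hatN e, jo F x e))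

theorem cst_mem (x e : R) (P : Np F R) : cst P ∈ SEp x e :=
  SE_le _ _ (show (0 : Lp F R) ∈ Cs (F := F) x e from Submodule.zero_mem _)

theorem gn_mem (x e : R) : (gn x e : Ep F R) ∈ SEp x e :=
  Submodule.mem_sup_right (Submodule.subset_span rfl)

theorem mE_cst (P Q : Np F R) : mE F R (cst P) (cst Q) = cst (mnp F R P Q) := by
  rw [mE_apply]; simp [cst]

/-- evaluation of `Eop` with the generator in the first place -/
theorem Eop_gn (x e : R) (B C D : Np F R) :
    Eop (mE F R) (gn x e) (cst B) (cst C) (cst D) =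
      (0, (Eop (mnp F R) (hatN x) B C D, Eop (mnp F R) (hatN e) B C D,
        Eop (br F) (jo F x e) (prN F R B) (prN F R C) (prN F R D))) := by
  simp only [Eop, Oop, Dop, mE_apply, gn, cst, map_zero, LinearMap.zero_apply, add_zero, zero_add,
    Prod.fst_add, Prod.snd_add, Prod.fst_zero, Prod.snd_zero, map_add, LinearMap.add_apply,
    prN_mul]
  refine Prod.ext ?_ (Prod.ext ?_ (Prod.ext ?_ ?_)) <;> simp


theorem eq_zero_of_neg (F : Type*) [Field F] [CharZero F] {R : Type*} [AddCommGroup R] [Module F R]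
    {x : R} (hx : x = -x) : x = 0 := by
  have h1 : (2 : F) • x = 0 := by
    rw [two_smul]; nth_rewrite 1 [hx]; exact neg_add_cancel x
  exact (smul_eq_zero.1 h1).resolve_left two_ne_zero

theorem EopZ_symm (e a b c d : R) : EopZ F e a b c d = EopZ F e b a c d := by
  simp only [EopZ, OopZ, Dop, map_add, LinearMap.add_apply]
  module

/-- the third component of the second Malcev identity -/
noncomputable def G2 (a b c d e' e : R) : R :=
  EopZ F e a b (br F c d) e' - jo F (Eop (br F) a b c d) (br F e' e)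

theorem G2_skew (h : OV F R) (a b c d e' e : R) : G2 (F := F) a b c d e' e = - G2 (F := F) e b c d e' a := by
  have hmem : Eop (mE F R) (gn a e) (cst (hatN b)) (mE F R (cst (hatN c)) (cst (hatN d)))
      (cst (hatN e')) - mE F R (Eop (mE F R) (gn a e) (cst (hatN b)) (cst (hatN c)) (cst (hatN d)))
      (cst (hatN e')) ∈ SE (F := F) a e :=
    Submodule.sub_mem _
      (Eop_SE h (gn_mem _ _) (cst_mem _ _ _) (SE_le _ _ (mE_mem h (cst_mem _ _ _) (cst_mem _ _ _)))
        (cst_mem _ _ _))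
      (mE_mem h (SE_le _ _ (Eop_SE h (gn_mem _ _) (cst_mem _ _ _) (cst_mem _ _ _) (cst_mem _ _ _)))
        (cst_mem _ _ _))
  rw [mE_cst, Eop_gn, Eop_gn, mE_apply] at hmem
  obtain ⟨-, -, h3, -⟩ := hmem
  simp only [LinearMap.snd_apply, map_sub, Prod.snd_sub, Prod.fst_sub, cst, Prod.snd_zero,
    Prod.fst_zero, map_zero, add_zero,
    Pi.sub_apply, prN_mul, prN_Eop, prN_hat, h.eb, sub_self, LinearMap.zero_apply,
    LinearMap.sub_apply, zero_sub, trd_Eop, Pi.sub_apply] at h3
  rw [mnp_trd' _ _ (fst_Eop _ _ _ _), mnp_trd' _ _ (fst_Eop _ _ _ _)] at h3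
  simp only [prN_Eop, prN_hat] at h3
  simp only [G2]
  linear_combination (norm := module) h3

theorem OV.zb2 (h : OV F R) (a b c d e' e : R) : EopZ F e a b (br F c d) e' =
    jo F (Eop (br F) a b c d) (br F e' e) := by
  have s1 : ∀ a b e, G2 (F := F) a b c d e' e = - G2 (F := F) e b c d e' a :=
    fun a b e => G2_skew h a b c d e' e
  have s2 : ∀ a b e, G2 (F := F) a b c d e' e = G2 (F := F) b a c d e' e := by
    intro a b e
    rw [G2, G2, EopZ_symm, Eop_symm]
  have h1 : G2 (F := F) a b c d e' e = - G2 (F := F) a b c d e' e := by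
    calc G2 (F := F) a b c d e' e = G2 (F := F) b a c d e' e := s2 _ _ _
      _ = - G2 (F := F) e a c d e' b := s1 _ _ _
      _ = - G2 (F := F) a e c d e' b := by rw [s2]
      _ = G2 (F := F) b e c d e' a := by rw [s1 a e b, neg_neg]
      _ = G2 (F := F) e b c d e' a := s2 _ _ _
      _ = - G2 (F := F) a b c d e' e := by rw [s1 e b a]
  exact sub_eq_zero.1 (eq_zero_of_neg F h1)

/-- the third component of the Sagle identity -/
noncomputable def G1 (a b c d e : R) : R :=
  jo F (br F a c) (br F (br F b d) e) -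
    (jo F (br F (br F a b) c) (br F d e) + jo F (br F (br F b c) d) (br F a e)
      + jo F (br F (br F c d) a) (br F b e) + jo F (br F (br F d a) b) (br F c e))

theorem G1_cyc (h : OV F R) (a b c d e : R) : G1 (F := F) a b c d e = G1 (F := F) b c d a e := by
  have h1 : jo F (br F a c) (br F (br F b d) e) = jo F (br F b d) (br F (br F c a) e) := by
    have h2 := h.skew (br_mem_M2 (F := F) a c) (br_mem_M2 (F := F) b d) e
    rw [br_anti F (br F b d) e, map_neg, ← h2, jo_symm, br_anti F (br F c a) e,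
      br_anti F c a]
    simp only [map_neg, neg_neg]
  rw [G1, G1, h1]
  abel

theorem G1_skew (h : OV F R) (a b c d e : R) : G1 (F := F) a b c d e = - G1 (F := F) e b c d a := by
  have hg : (gn a e : Ep F R) ∈ SEp a e := gn_mem _ _
  have hc : ∀ P : Np F R, cst P ∈ SEp a e := cst_mem a e
  have hm : ∀ {A B : Ep F R}, A ∈ SEp a e → B ∈ SEp a e → mE F R A B ∈ SEp a e :=
    fun hA hB => SE_le _ _ (mE_mem h hA hB)
  have hmem : mE F R (mE F R (gn a e) (cst (hatN c))) (mE F R (cst (hatN b)) (cst (hatN d))) -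
      (mE F R (mE F R (mE F R (gn a e) (cst (hatN b))) (cst (hatN c))) (cst (hatN d))
        + mE F R (mE F R (mE F R (cst (hatN b)) (cst (hatN c))) (cst (hatN d))) (gn a e)
        + mE F R (mE F R (mE F R (cst (hatN c)) (cst (hatN d))) (gn a e)) (cst (hatN b))
        + mE F R (mE F R (mE F R (cst (hatN d)) (gn a e)) (cst (hatN b))) (cst (hatN c)))
        ∈ SE (F := F) a e := by
    refine Submodule.sub_mem _ (mE_mem h (hm hg (hc _)) (hm (hc _) (hc _)))
      (Submodule.add_mem _ (Submodule.add_mem _ (Submodule.add_mem _ ?_ ?_) ?_) ?_)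
    · exact mE_mem h (hm (hm hg (hc _)) (hc _)) (hc _)
    · exact mE_mem h (hm (hm (hc _) (hc _)) (hc _)) hg
    · exact mE_mem h (hm (hm (hc _) (hc _)) hg) (hc _)
    · exact mE_mem h (hm (hm (hc _) hg) (hc _)) (hc _)
  rw [mE_cst, mE_cst, mE_cst, mE_cst] at hmem
  obtain ⟨-, -, h3, -⟩ := hmem
  simp only [mE_apply, gn, cst, LinearMap.snd_apply, Prod.snd_sub, Prod.snd_add, Prod.fst_sub,
    Prod.fst_add, Prod.snd_zero, Prod.fst_zero, map_zero, LinearMap.zero_apply, add_zero, zero_add,
    map_sub, map_add, Pi.sub_apply, Pi.add_apply, prN_mul, prN_hat] at h3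
  have key : ∀ x e : R, (mnp F R (mnp F R (hatN x) (hatN c)) (mnp F R (hatN b) (hatN d))).2.2 e
      - ((mnp F R (mnp F R (mnp F R (hatN x) (hatN b)) (hatN c)) (hatN d)).2.2 e
        + (mnp F R (mnp F R (mnp F R (hatN b) (hatN c)) (hatN d)) (hatN x)).2.2 e
        + (mnp F R (mnp F R (mnp F R (hatN c) (hatN d)) (hatN x)) (hatN b)).2.2 e
        + (mnp F R (mnp F R (mnp F R (hatN d) (hatN x)) (hatN b)) (hatN c)).2.2 e)
      = G1 (F := F) x b c d e := by
    intro x e
    rw [mnp_trd' _ _ (mnp_fst _ _), mnp_trd' _ _ (mnp_fst _ _), mnp_trd' _ _ (mnp_fst _ _),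
        mnp_trd' _ _ (mnp_fst _ _), mnp_trd' _ _ (mnp_fst _ _)]
    simp only [prN_mul, prN_hat, G1]
  have sg : ∀ x : R, br F (br F x c) (br F b d) - (br F (br F (br F x b) c) d
      + br F (br F (br F b c) d) x + br F (br F (br F c d) x) b + br F (br F (br F d x) b) c) = 0 := by
    intro x; rw [h.sagle x b c d, sub_self]
  have k1 := key a e
  have k2 := key e a
  have s1 := sg a
  have s2 := sg e
  have s3 := sg (jo F a e)
  rw [s3, k1, k2] at h3
  have j1 := congrArg (jo F a) s2
  have j2 := congrArg (fun z => jo F z e) s1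
  simp only [map_sub, map_add, map_zero, LinearMap.sub_apply, LinearMap.add_apply,
    LinearMap.zero_apply] at j1 j2 h3
  linear_combination (norm := module) h3 + j1 + j2

theorem OV.zb1 (h : OV F R) (a b c d e : R) : jo F (br F a c) (br F (br F b d) e) =
    jo F (br F (br F a b) c) (br F d e) + jo F (br F (br F b c) d) (br F a e)
      + jo F (br F (br F c d) a) (br F b e) + jo F (br F (br F d a) b) (br F c e) := by
  have s : ∀ a b c d e : R, G1 (F := F) a b c d e = - G1 (F := F) b c d e a := by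
    intro a b c d e
    rw [G1_skew h, G1_cyc h]
  have h1 : G1 (F := F) a b c d e = - G1 (F := F) a b c d e := by
    conv_lhs => rw [s, s, s, s, s, neg_neg, neg_neg]
  exact sub_eq_zero.1 (eq_zero_of_neg F h1)

theorem BV_mnp (h : OV F R) : BV (mnp F R) where
  anti := mnp_anti h
  sagle a b c d := by
    apply Np_ext
    · simp [mnp_fst]
    · simp only [Prod.snd_add, Prod.fst_add, Submodule.coe_add, mnp_snd, prN_mul]
      exact h.sagle _ _ _ _
    · intro e
      simp only [Prod.snd_add, Pi.add_apply]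
      rw [mnp_trd' _ _ (mnp_fst _ _), mnp_trd' _ _ (mnp_fst _ _), mnp_trd' _ _ (mnp_fst _ _),
        mnp_trd' _ _ (mnp_fst _ _), mnp_trd' _ _ (mnp_fst _ _)]
      simp only [prN_mul]
      exact h.zb1 _ _ _ _ _
  eb a b c d e := by
    apply Np_ext
    · simp [fst_Eop, mnp_fst]
    · have h1 := prN_Eop a b (mnp F R c d) e
      rw [prN_def, fst_Eop, zero_add, prN_mul] at h1
      rw [h1, h.eb, mnp_snd, prN_Eop]
    · intro x
      rw [trd_Eop, mnp_trd' _ _ (fst_Eop _ _ _ _), prN_mul, h.zb2, prN_Eop]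

end OctBasis
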