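import Pool.Agent.Work.MP_9b6dd6_al.Defs

/-!
# The 7-dimensional cross product
-/

namespace OctId

open Finset

set_option linter.unusedSectionVars false

noncomputable section

namespace V

variable {F : Type*} [Field F]

theorem mul_apply (a b : V F) (k : Fin 7) : (a * b) k =
    (a (k + 4) * b (k + 5) - a (k + 5) * b (k + 4)) + (a (k + 2) * b (k + 6) - a (k + 6) * b (k + 2))
    + (a (k + 1) * b (k + 3) - a (k + 3) * b (k + 1)) := rfl

theorem add_apply (a b : V F) (k : Fin 7) : (a + b) k = a k + b k := rfl
theorem sub_apply (a b : V F) (k : Fin 7) : (a - b) k = a k - b k := rfl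
theorem neg_apply (a : V F) (k : Fin 7) : (-a) k = -(a k) := rfl
theorem smul_apply (c : F) (a : V F) (k : Fin 7) : (c • a) k = c * a k := rfl
theorem zero_apply (k : Fin 7) : (0 : V F) k = 0 := rfl
theorem vext {a b : V F} (h : ∀ k, a k = b k) : a = b := funext h

instance : NonUnitalNonAssocRing (V F) :=
  { (inferInstance : AddCommGroup (V F)) with
    mul := (· * ·)
    left_distrib := by
      intro a b c
      apply vext; intro k
      simp only [mul_apply, add_apply]; ring
    right_distrib := by
      intro a b c
      apply vext; intro k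
      simp only [mul_apply, add_apply]; ring
    zero_mul := by
      intro a
      apply vext; intro k
      simp only [mul_apply, zero_apply]; ring
    mul_zero := by
      intro a
      apply vext; intro k
      simp only [mul_apply, zero_apply]; ring }

instance : IsScalarTower F (V F) (V F) :=
  ⟨by
    intro c a b
    apply vext; intro k
    simp only [smul_eq_mul, mul_apply, smul_apply]; ring⟩

instance : SMulCommClass F (V F) (V F) :=
  ⟨by
    intro c a b
    apply vext; intro k
    simp only [smul_eq_mul, mul_apply, smul_apply]; ring⟩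

theorem mul_anti (a b : V F) : a * b = -(b * a) := by
  apply vext; intro k
  simp only [mul_apply, neg_apply]; ring

@[simp] theorem mul_self (a : V F) : a * a = 0 := by
  apply vext; intro k
  simp only [mul_apply, zero_apply]; ring

theorem ip_comm (a b : V F) : ip a b = ip b a := by
  simp only [ip, mul_comm]

theorem ip_add_left (a b c : V F) : ip (a + b) c = ip a c + ip b c := by
  simp only [ip, add_apply, add_mul, Finset.sum_add_distrib]

theorem ip_add_right (a b c : V F) : ip a (b + c) = ip a b + ip a c := by
  simp only [ip, add_apply, mul_add, Finset.sum_add_distrib]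

theorem ip_smul_left (x : F) (a c : V F) : ip (x • a) c = x * ip a c := by
  simp only [ip, smul_apply, Finset.mul_sum, mul_assoc]

theorem ip_smul_right (x : F) (a c : V F) : ip a (x • c) = x * ip a c := by
  simp only [ip, smul_apply, Finset.mul_sum]
  exact Finset.sum_congr rfl fun i _ => by ring

theorem ip_neg_left (a c : V F) : ip (-a) c = -ip a c := by
  simp only [ip, neg_apply, neg_mul, Finset.sum_neg_distrib]

theorem ip_neg_right (a c : V F) : ip a (-c) = -ip a c := by
  simp only [ip, neg_apply, mul_neg, Finset.sum_neg_distrib]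

theorem ip_sub_left (a b c : V F) : ip (a - b) c = ip a c - ip b c := by
  rw [sub_eq_add_neg, ip_add_left, ip_neg_left]; ring

theorem ip_sub_right (a b c : V F) : ip a (b - c) = ip a b - ip a c := by
  rw [sub_eq_add_neg, ip_add_right, ip_neg_right]; ring

@[simp] theorem ip_zero_left (c : V F) : ip 0 c = 0 := by
  simp [ip, zero_apply]

@[simp] theorem ip_zero_right (c : V F) : ip c 0 = 0 := by
  simp [ip, zero_apply]

theorem ip_sum_left {ι : Type*} (s : Finset ι) (f : ι → V F) (c : V F) :
    ip (∑ i ∈ s, f i) c = ∑ i ∈ s, ip (f i) c := by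
  classical
  induction s using Finset.induction_on with
  | empty => simp
  | insert a s ha ih => rw [Finset.sum_insert ha, Finset.sum_insert ha, ip_add_left, ih]

theorem ip_sum_right {ι : Type*} (s : Finset ι) (f : ι → V F) (c : V F) :
    ip c (∑ i ∈ s, f i) = ∑ i ∈ s, ip c (f i) := by
  rw [ip_comm, ip_sum_left]
  exact Finset.sum_congr rfl fun i _ => ip_comm _ _

/-- the triple product `(a x b, c)` -/
def tri (a b c : V F) : F := ip (a * b) c

theorem tri_cyc (a b c : V F) : ip (a * b) c = ip (b * c) a := by
  simp only [ip, Fin.sum_univ_seven, mul_apply]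
  simp
  ring

theorem tri_swap (a b c : V F) : ip (a * b) c = -ip (b * a) c := by
  rw [mul_anti, ip_neg_left]

theorem tri_move (a b c : V F) : ip (a * b) c = ip a (b * c) := by
  rw [tri_cyc, ip_comm]

@[simp] theorem tri_self_left (a c : V F) : ip (a * a) c = 0 := by
  rw [mul_self, ip_zero_left]

@[simp] theorem tri_self_mid (a b : V F) : ip (a * b) b = 0 := by
  rw [tri_move, mul_self, ip_zero_right]

@[simp] theorem tri_self_out (a b : V F) : ip (a * b) a = 0 := by
  rw [tri_cyc, tri_self_mid]

/-- the basic identity of the cross product -/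
theorem mul_mul (a b c : V F) :
    a * (b * c) + b * (a * c) = ip a c • b + ip b c • a - (2 * ip a b) • c := by
  apply vext
  intro k
  simp only [ip, Fin.sum_univ_seven, mul_apply, add_apply, sub_apply, smul_apply]
  fin_cases k <;> simp <;> ring

theorem Dd_eq (a b c : V F) : Dd a b c = ip a c • b + ip b c • a - (2 * ip a b) • c :=
  mul_mul a b c

@[simp] theorem e_apply (i j : Fin 7) : (e i : V F) j = if j = i then 1 else 0 := rfl

@[simp] theorem ip_e_right (a : V F) (i : Fin 7) : ip a (e i) = a i := by
  simp [ip]

@[simp] theorem ip_e_left (a : V F) (i : Fin 7) : ip (e i) a = a i := by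
  rw [ip_comm, ip_e_right]

/-- expansion in the orthonormal basis -/
theorem sum_ip_e (a : V F) : ∑ j : Fin 7, ip a (e j) • (e j : V F) = a := by
  apply vext
  intro k
  have : ∀ s : Finset (Fin 7), (∑ j ∈ s, ip a (e j) • (e j : V F)) k
      = ∑ j ∈ s, (ip a (e j) • (e j : V F)) k := by
    intro s
    classical
    induction s using Finset.induction_on with
    | empty => rfl
    | insert a s ha ih => rw [Finset.sum_insert ha, Finset.sum_insert ha, add_apply, ih]
  rw [this]
  simp [smul_apply]

theorem ext_ip {a b : V F} (h : ∀ c, ip a c = ip b c) : a = b := by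
  apply vext
  intro k
  have := h (e k)
  simpa using this

theorem sum_mul_e_mul_e (a : V F) : ∑ j : Fin 7, (a * e j) * e j = (-6 : F) • a := by
  rw [Fin.sum_univ_seven]
  apply vext
  intro k
  simp only [mul_apply, add_apply, smul_apply]
  fin_cases k <;> simp <;> ring

theorem sum_e_mul_e_mul (a : V F) : ∑ j : Fin 7, e j * (e j * a) = (-6 : F) • a := by
  rw [← sum_mul_e_mul_e a]
  refine Finset.sum_congr rfl fun j _ => ?_
  rw [mul_anti (e j) (e j * a), mul_anti (e j) a, neg_mul, neg_neg]

/-- the inner derivation (twelve times the projection onto the Lie algebra) -/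
def Dr (u w z : V F) : V F :=
  ip u w • z + ip z w • u - (2 * ip u z) • w - (u * z) * w

theorem Dr_add (u w z z' : V F) : Dr u w (z + z') = Dr u w z + Dr u w z' := by
  simp only [Dr, ip_add_left, ip_add_right, mul_add, add_mul]
  module

theorem Dr_smul (u w z : V F) (c : F) : Dr u w (c • z) = c • Dr u w z := by
  simp only [Dr, ip_smul_left, ip_smul_right, mul_smul_comm, smul_mul_assoc]
  module

theorem Dr_neg (u w z : V F) : Dr u w (-z) = -Dr u w z := by
  rw [← neg_one_smul F z, Dr_smul, neg_one_smul]

@[simp] theorem Dr_zero (u w : V F) : Dr u w 0 = 0 := by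
  have h := Dr_smul u w 0 0
  rwa [zero_smul, zero_smul] at h

theorem Dr_sum {ι : Type*} (s : Finset ι) (f : ι → V F) (u w : V F) :
    Dr u w (∑ i ∈ s, f i) = ∑ i ∈ s, Dr u w (f i) := by
  classical
  induction s using Finset.induction_on with
  | empty => rw [Finset.sum_empty, Finset.sum_empty, Dr_zero]
  | insert a s ha ih => rw [Finset.sum_insert ha, Finset.sum_insert ha, Dr_add, ih]

/-- curvature-like symmetry -/
theorem Dr_pair (u w z t : V F) : ip (Dr u w z) t = ip (Dr z t u) w := by
  have h1 : ip ((u * z) * w) t = ip ((z * u) * t) w := by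
    rw [mul_anti z u, neg_mul, ip_neg_left, tri_move, tri_move, tri_move (u * z), tri_move u,
      mul_anti w t, mul_neg, ip_neg_right]
  simp only [Dr, ip_sub_left, ip_add_left, ip_smul_left, h1]
  rw [ip_comm z u, ip_comm w t]
  ring

theorem Dr_swap (u w z : V F) : Dr u w z = -Dr w u z := by
  apply ext_ip
  intro t
  have h := mul_mul w u z
  have h2 := congrArg (fun v => ip v t) h
  simp only [ip_add_left, ip_sub_left, ip_smul_left] at h2
  have h3 : ip ((u * z) * w) t = - ip (w * (u * z)) t := by rw [mul_anti, ip_neg_left]
  have h4 : ip ((w * z) * u) t = - ip (u * (w * z)) t := by rw [mul_anti, ip_neg_left]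
  simp only [Dr, ip_neg_left, ip_sub_left, ip_add_left, ip_smul_left, h3, h4]
  rw [ip_comm z w, ip_comm z u] at *
  rw [ip_comm w u] at *
  linear_combination h2

/-- `Dr u w` is skew for the form -/
theorem Dr_skew (u w z t : V F) : ip (Dr u w z) t = -ip z (Dr u w t) := by
  rw [Dr_pair, Dr_swap, ip_neg_left, Dr_pair, ip_comm z]

theorem sum_Dr_e (u : V F) : ∑ j : Fin 7, Dr u (e j) (e j) = (12 : F) • u := by
  rw [Fin.sum_univ_seven]
  apply vext
  intro k
  simp only [Dr, ip_e_right, mul_apply, add_apply, sub_apply, smul_apply]
  fin_cases k <;> simp <;> ring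

end V

end

end OctId
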