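import Mathlib
import Pool.Agent.Work.MP_9b6dd6_al.Basic
import Pool.Agent.Work.MP_9b6dd6_al.VFacts
import Pool.Agent.Work.MP_9b6dd6_al.ZCore
import Pool.Agent.Work.MP_9b6dd6_al.ZML

/-! Theorem A in the form used for the scalar part: from T-ideals to arbitrary algebras. -/

namespace OctBasis

universe u

/-- Every multilinear tree combination vanishing on the cross product space vanishes
on every algebra satisfying `BV` which maps onto the cross product space. -/
def MalcevInj {F : Type u} [Field F] {V : Type u} [AddCommGroup V] [Module F V]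
    (cd : CrossData F V) : Prop :=
  ∀ (N : Type u) [AddCommGroup N] [Module F N] (m : N →ₗ[F] N →ₗ[F] N) (_ : BV m)
    (p : N →ₗ[F] V) (_ : ∀ x y, p (m x y) = cd.cr (p x) (p y))
    (_ : Function.Surjective p) (B : Finset ℕ) (u : (ℕ → N) → N) (_ : u ∈ ML m B)
    (_ : ∀ y, p (u y) = 0), u = 0

section cdV
variable (F : Type u) [Field F]

/-- the cross product data of the imaginary octonions -/
noncomputable def cdV : CrossData F (OctId.V F) where
  ip := LinearMap.mk₂ F OctId.V.ip OctId.V.ip_add_left OctId.V.ip_smul_left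
    OctId.V.ip_add_right OctId.V.ip_smul_right
  cr := LinearMap.mul F (OctId.V F)
  ι := Fin 7
  fin := inferInstance
  e := OctId.V.e
  f := OctId.V.e
  symm := OctId.V.ip_comm
  anti := OctId.V.mul_anti
  inv := OctId.V.tri_move
  ccr := OctId.V.mul_mul
  dual := OctId.V.sum_ip_e
  dim := by simp

end cdV

section NM
variable {F : Type u} [Field F] {N : Type u} [AddCommGroup N] [Module F N]

/-- `N` with the product `m` -/
def NM (_ : N →ₗ[F] N →ₗ[F] N) : Type u := N

variable (m : N →ₗ[F] N →ₗ[F] N)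

local instance : AddCommGroup (NM m) := inferInstanceAs (AddCommGroup N)
local instance : Module F (NM m) := inferInstanceAs (Module F N)

local instance : Mul (NM m) := ⟨fun a b => m a b⟩

theorem NM_mul (a b : NM m) : a * b = m a b := rfl

local instance : NonUnitalNonAssocRing (NM m) :=
  { (inferInstance : AddCommGroup (NM m)) with
    mul := (· * ·)
    left_distrib := fun a b c => (m a).map_add b c
    right_distrib := fun a b c => LinearMap.map_add₂ m a b c
    zero_mul := fun a => LinearMap.map_zero₂ m a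
    mul_zero := fun a => (m a).map_zero }

local instance : IsScalarTower F (NM m) (NM m) :=
  ⟨fun c a b => LinearMap.map_smul₂ m c a b⟩

local instance : SMulCommClass F (NM m) (NM m) :=
  ⟨fun c a b => ((m a).map_smul c b).symm⟩

theorem NM_EE (a b c d : NM m) : OctId.EE F a b c d = Eop m a b c d := by
  have h : (-(1 / 12 : F)) • ((4 : F) • OctId.Oo a b c d + OctId.Oo a c b d + OctId.Oo b c a d
      + OctId.Oo a d c b + OctId.Oo b d c a) =
      -((12 : F)⁻¹ • ((4 : F) • OctId.Oo a b c d + OctId.Oo a c b d + OctId.Oo b c a d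
      + OctId.Oo a d c b + OctId.Oo b d c a)) := by
    rw [neg_smul, one_div]
  exact h

theorem NM_malB (hm : BV m) : ∀ f ∈ OctId.malB F, OctId.IsIdentity (NM m) f := by
  intro f hf φ
  rcases hf with rfl | rfl | rfl
  · simp only [map_add, map_mul, OctId.evalAt_X]
    rw [NM_mul, NM_mul, hm.anti (φ 0) (φ 1)]
    exact neg_add_cancel _
  · simp only [OctId.sagle, map_sub, map_mul, OctId.evalAt_X]
    simp only [NM_mul]
    rw [hm.sagle (φ 0) (φ 1) (φ 2) (φ 3)]
    abel_nf
    simp
  · rw [map_sub, map_mul]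
    have h1 : ∀ a b c d : OctId.Fr F, OctId.evalAt φ (OctId.EE F a b c d) =
        OctId.EE F (OctId.evalAt φ a) (OctId.evalAt φ b) (OctId.evalAt φ c)
          (OctId.evalAt φ d) := by
      intro a b c d
      simp only [OctId.EE, OctId.Oo, OctId.Dd, map_smul, map_add, map_sub, map_mul]
    rw [h1, h1]
    simp only [map_mul, OctId.evalAt_X]
    rw [NM_EE, NM_EE, NM_mul, NM_mul, hm.eb, sub_self]

theorem Tree_word {B : Finset ℕ} {u : (ℕ → N) → N} (hu : Tree m B u) :
    ∃ w, OctId.MW B w ∧ ∀ y : ℕ → N, OctId.wv (A := NM m) y w = u y := by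
  induction hu with
  | var i => exact ⟨_, OctId.MW.of i, fun y => rfl⟩
  | mul h hu hv ihu ihv =>
    obtain ⟨w, hw, h1⟩ := ihu
    obtain ⟨w', hw', h1'⟩ := ihv
    exact ⟨_, OctId.MW.mul hw hw' h, fun y => by rw [OctId.wv_mul, h1, h1']; rfl⟩

theorem NM_lift {B : Finset ℕ} {u : (ℕ → N) → N} (hu : u ∈ ML m B) :
    ∃ f ∈ OctId.MF F B, ∀ y : ℕ → N, OctId.evalAt (A := NM m) y f = u y := by
  refine ML_ind (p := fun u => ∃ f ∈ OctId.MF F B, ∀ y : ℕ → N,
    OctId.evalAt (A := NM m) y f = u y) ?_ ?_ ?_ ?_ hu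
  · intro u hu
    obtain ⟨w, hw, h1⟩ := Tree_word m hu
    exact ⟨OctId.wv (OctId.X F) w, OctId.wv_mem_ML hw, fun y => by rw [OctId.evalAt_wv, h1]⟩
  · rintro u v ⟨f, hf, h1⟩ ⟨g, hg, h2⟩
    exact ⟨f + g, Submodule.add_mem _ hf hg, fun y => by rw [map_add, h1, h2]; rfl⟩
  · rintro c u ⟨f, hf, h1⟩
    exact ⟨c • f, Submodule.smul_mem _ c hf, fun y => by rw [map_smul, h1]; rfl⟩
  · exact ⟨0, Submodule.zero_mem _, fun y => map_zero _⟩

theorem malcevInj_of_thmA {F : Type u} [Field F]
    (hA : ∀ (B : Finset ℕ) (f : OctId.Fr F), f ∈ OctId.MF F B →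
      OctId.IsIdentity (OctId.V F) f → f ∈ OctId.tIdeal (OctId.malB F)) :
    MalcevInj (cdV F) := by
  intro N _ _ m hm p hp hs B u hu h0
  obtain ⟨f, hf, h1⟩ := NM_lift m hu
  let q : NM m →ₙₐ[F] OctId.V F :=
    { toFun := p
      map_smul' := fun c a => p.map_smul c a
      map_zero' := p.map_zero
      map_add' := p.map_add
      map_mul' := hp }
  have hid : OctId.IsIdentity (OctId.V F) f := by
    intro φ
    choose y hy using fun i => hs (φ i)
    have h2 := OctId.map_evalAt q y f
    have h3 : (fun i => q (y i)) = φ := funext hy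
    rw [h3, h1] at h2
    rw [← h2]
    exact h0 y
  have hmem := hA B f hf hid
  have hle : OctId.tIdeal (OctId.malB F) ≤ OctId.idOf F (NM m) :=
    OctId.tIdeal_le (OctId.idOf_isTIdeal (NM m)) (NM_malB m hm)
  funext y
  have := hle hmem y
  rw [h1] at this
  exact this

end NM

end OctBasis
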