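import Mathlib
import Pool.Agent.Work.MP_9b6dd6_al.ZCore
import Pool.Agent.Work.MP_9b6dd6_al.ZML
import Pool.Agent.Work.MP_9b6dd6_al.ZAlt
import Pool.Agent.Work.MP_9b6dd6_al.ZOV
import Pool.Agent.Work.MP_9b6dd6_al.ZNp
import Pool.Agent.Work.MP_9b6dd6_al.ZRed
import Pool.Agent.Work.MP_9b6dd6_al.ZThmA

/-! Scalar part: elements `Σ f ∘ g`, `f, g` Malcev polynomials of degree at least two. -/

namespace OctBasis

universe u

variable {F : Type u} [Field F] {V : Type u} [AddCommGroup V] [Module F V]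

theorem CrossData.nondeg (cd : CrossData F V) {v : V} (h : ∀ w, cd.ip v w = 0) : v = 0 := by
  rw [← cd.dual v]
  exact @Finset.sum_eq_zero _ _ _ _ _ (fun i _ => by rw [h, zero_smul])

/-- A homomorphism onto the octonion algebra `F × V`, given by its scalar and vector part. -/
structure OctHom (cd : CrossData F V) (R : Type*) [NonUnitalNonAssocRing R] [Module F R] where
  τ : R →ₗ[F] F
  π : R →ₗ[F] V
  τmul : ∀ x y, τ (x * y) = τ x * τ y - cd.ip (π x) (π y)
  πmul : ∀ x y, π (x * y) = τ x • π y + τ y • π x + cd.cr (π x) (π y)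
  surj : Function.Surjective π

variable {cd : CrossData F V} {R : Type u} [NonUnitalNonAssocRing R] [Module F R]
  [IsScalarTower F R R] [SMulCommClass F R R] (oh : OctHom cd R)

namespace OctHom

theorem τ_br (x y : R) : oh.τ (br F x y) = 0 := by
  rw [br_def, map_smul, map_sub, oh.τmul, oh.τmul, cd.symm (oh.π y)]
  simp [mul_comm]

theorem π_br [CharZero F] (x y : R) : oh.π (br F x y) = cd.cr (oh.π x) (oh.π y) := by
  rw [br_def, map_smul, map_sub, oh.πmul, oh.πmul, cd.anti (oh.π y)]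
  module

theorem τ_jo [CharZero F] (x y : R) :
    oh.τ (jo F x y) = oh.τ x * oh.τ y - cd.ip (oh.π x) (oh.π y) := by
  rw [jo_def, map_smul, map_add, oh.τmul, oh.τmul, cd.symm (oh.π y)]
  rw [smul_eq_mul]; ring

theorem π_jo [CharZero F] (x y : R) :
    oh.π (jo F x y) = oh.τ x • oh.π y + oh.τ y • oh.π x := by
  rw [jo_def, map_smul, map_add, oh.πmul, oh.πmul, cd.anti (oh.π y)]
  module

theorem τ_M2 {x : R} (hx : x ∈ M2 F R) : oh.τ x = 0 := by
  refine M2_ind (F := F) (p := fun x => oh.τ x = 0) ?_ ?_ ?_ ?_ hx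
  · intro a b; exact oh.τ_br a b
  · intro x y hx hy; simp [hx, hy]
  · intro c x hx; simp [hx]
  · simp

end OctHom

theorem Tree.M2 {B : Finset ℕ} {u : (ℕ → R) → R} (h : Tree (br F) B u) (hB : 2 ≤ B.card)
    (y : ℕ → R) : u y ∈ M2 F R := by
  obtain ⟨B₁, B₂, u₁, u₂, _, _, _, _, rfl⟩ := h.split hB
  exact br_mem_M2 _ _

theorem ML_M2 {B : Finset ℕ} {u : (ℕ → R) → R} (h : u ∈ ML (br F) B) (hB : 2 ≤ B.card)
    (y : ℕ → R) : u y ∈ M2 F R := by
  refine ML_ind (p := fun u => u y ∈ M2 F R) ?_ ?_ ?_ ?_ h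
  · intro u hu; exact hu.M2 hB y
  · intro u v hu hv; exact Submodule.add_mem _ hu hv
  · intro c u hu; exact Submodule.smul_mem _ c hu
  · exact Submodule.zero_mem _

variable (F R) in
/-- the space `Z(B)` -/
def ZB (B : Finset ℕ) : Submodule F ((ℕ → R) → R) :=
  Submodule.span F {z | ∃ (B₁ B₂ : Finset ℕ) (f g : (ℕ → R) → R), Disjoint B₁ B₂ ∧ B₁ ∪ B₂ = B ∧
    2 ≤ B₁.card ∧ 2 ≤ B₂.card ∧ Tree (br F) B₁ f ∧ Tree (br F) B₂ g ∧
    z = fun y => jo F (f y) (g y)}

variable (F R) in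
/-- normal form: the letter `n` is in last position -/
def ZN (n : ℕ) (B : Finset ℕ) : Submodule F ((ℕ → R) → R) :=
  Submodule.span F {z | ∃ (B₁ B₂ : Finset ℕ) (f g : (ℕ → R) → R), Disjoint B₁ B₂ ∧
    B₁ ∪ B₂ = B.erase n ∧ 2 ≤ B₁.card ∧ Tree (br F) B₁ f ∧ Tree (br F) B₂ g ∧
    z = fun y => jo F (f y) (br F (g y) (y n))}

theorem ZN_tree [CharZero F] (h : OV F R) (n : ℕ) {B₂ : Finset ℕ} {g : (ℕ → R) → R}
    (hg : Tree (br F) B₂ g) : ∀ (B₁ : Finset ℕ) (f : (ℕ → R) → R), Disjoint B₁ B₂ →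
    2 ≤ B₁.card → 2 ≤ B₂.card → n ∈ B₂ → Tree (br F) B₁ f →
    (fun y => jo F (f y) (g y)) ∈ ZN F R n (B₁ ∪ B₂) := by
  induction hg with
  | var i => intro B₁ f _ _ h2; simp at h2
  | @mul C₁ C₂ g₁ g₂ hC hg₁ hg₂ ih₁ ih₂ =>
    intro B₁ f hd h1 h2 hn hf
    have hd1 : Disjoint B₁ C₁ := hd.mono_right Finset.subset_union_left
    have hd2 : Disjoint B₁ C₂ := hd.mono_right Finset.subset_union_right
    have c1 := hg₁.nonempty.card_pos
    have c2 := hg₂.nonempty.card_pos
    rw [Finset.mem_union] at hn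
    -- general step: `n ∈ D₂`
    have key : ∀ (D₁ D₂ : Finset ℕ) (k₁ k₂ : (ℕ → R) → R), Disjoint D₁ D₂ → Disjoint B₁ D₁ →
        Disjoint B₁ D₂ → Tree (br F) D₁ k₁ → Tree (br F) D₂ k₂ → n ∈ D₂ →
        (∀ (B₁ : Finset ℕ) (f : (ℕ → R) → R), Disjoint B₁ D₂ →
          2 ≤ B₁.card → 2 ≤ D₂.card → n ∈ D₂ → Tree (br F) B₁ f →
          (fun y => jo F (f y) (k₂ y)) ∈ ZN F R n (B₁ ∪ D₂)) →
        (fun y => jo F (f y) (br F (k₁ y) (k₂ y))) ∈ ZN F R n (B₁ ∪ (D₁ ∪ D₂)) := by
      intro D₁ D₂ k₁ k₂ hDD hD1 hD2 hk1 hk2 hnD ih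
      have d1 := hk1.nonempty.card_pos
      by_cases hc : 2 ≤ D₂.card
      · have hm := ih (D₁ ∪ B₁) (fun y => br F (k₁ y) (f y))
          (Finset.disjoint_union_left.2 ⟨hDD, hD2⟩)
          (le_trans h1 (Finset.card_le_card Finset.subset_union_right)) hc hnD
          (Tree.mul hD1.symm hk1 hf)
        have hE : D₁ ∪ B₁ ∪ D₂ = B₁ ∪ (D₁ ∪ D₂) := by
          ext x; simp only [Finset.mem_union]; tauto
        rw [hE] at hm
        have := Submodule.neg_mem _ hm
        convert this using 1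
        funext y
        have h3 := h.skew (hf.M2 h1 y) (hk2.M2 hc y) (k₁ y)
        simp only [Pi.neg_apply]
        rw [h3, neg_neg]
      · have hD : D₂ = {n} := by
          have : D₂.card = 1 := by
            have := hk2.nonempty.card_pos
            omega
          obtain ⟨x, hx⟩ := Finset.card_eq_one.1 this
          rw [hx] at hnD ⊢
          rw [Finset.mem_singleton.1 hnD]
        have hk := hk2.single hD
        subst hk
        refine Submodule.subset_span ⟨B₁, D₁, f, k₁, hD1, ?_, h1, hf, hk1, rfl⟩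
        subst hD
        have a1 : n ∉ B₁ := fun h => (Finset.disjoint_left.1 hD2 h) (by simp)
        have a2 : n ∉ D₁ := fun h => (Finset.disjoint_left.1 hDD h) (by simp)
        ext x
        simp only [Finset.mem_union, Finset.mem_erase, Finset.mem_singleton]
        constructor
        · rintro (hx | hx)
          · exact ⟨fun e => a1 (e ▸ hx), Or.inl hx⟩
          · exact ⟨fun e => a2 (e ▸ hx), Or.inr (Or.inl hx)⟩
        · rintro ⟨hx, hx1 | hx1 | hx1⟩
          · exact Or.inl hx1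
          · exact Or.inr hx1
          · exact absurd hx1 hx
    rcases hn with hn | hn
    · have := key C₂ C₁ g₂ g₁ hC.symm hd2 hd1 hg₂ hg₁ hn ih₁
      have h3 := Submodule.neg_mem _ this
      rw [Finset.union_comm C₂ C₁] at h3
      convert h3 using 1
      funext y
      simp only [Pi.neg_apply]
      rw [br_anti F (g₂ y) (g₁ y), map_neg, neg_neg]
    · exact key C₁ C₂ g₁ g₂ hC hd1 hd2 hg₁ hg₂ hn ih₂

theorem ZB_le_ZN [CharZero F] (h : OV F R) {n : ℕ} {B : Finset ℕ} (hn : n ∈ B) :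
    ZB F R B ≤ ZN F R n B := by
  rw [ZB, Submodule.span_le]
  rintro z ⟨B₁, B₂, f, g, hd, rfl, h1, h2, hf, hg, rfl⟩
  rw [Finset.mem_union] at hn
  rcases hn with hn | hn
  · have := ZN_tree h n hf B₂ g hd.symm h2 h1 hn hg
    rw [Finset.union_comm] at this
    have e : (fun y => jo F (f y) (g y)) = fun y => jo F (g y) (f y) := by
      funext y; exact jo_symm F _ _
    rw [e]; exact this
  · exact ZN_tree h n hg B₁ f hd h1 h2 hn hf

/-- inclusion `R → N'` -/
def inN (x : R) : Np F R := (x, 0, 0)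

theorem ZN_lift [CharZero F] (oh : OctHom cd R) (n : ℕ) (B : Finset ℕ) {z : (ℕ → R) → R}
    (hz : z ∈ ZN F R n B) : ∃ U ∈ ML (mnp F R) (B.erase n), (∀ (y : ℕ → R) (e : R),
      z (Function.update y n e) = (U (fun i => inN (y i))).2.2 e) ∧
      (∀ (y : ℕ → R) (e : R), oh.τ (z (Function.update y n e)) =
        - cd.ip (oh.π (prN F R (U (fun i => inN (y i))))) (oh.π e)) := by
  induction hz using Submodule.span_induction with
  | mem z hz =>
    obtain ⟨B₁, B₂, f, g, hd, hB, h1, hf, hg, rfl⟩ := hz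
    obtain ⟨U₁, hU₁, h2⟩ := Tree.lift (m := mnp F R) (prN F R) prN_mul hf
    obtain ⟨U₂, hU₂, h3⟩ := Tree.lift (m := mnp F R) (prN F R) prN_mul hg
    obtain ⟨C₁, C₂, v₁, v₂, _, _, hv₁, hv₂, hU⟩ := hU₁.split h1
    have hn : n ∉ B₁ ∪ B₂ := by rw [hB]; simp
    have hf0 : ∀ (y : ℕ → R) (e : R), f (Function.update y n e) = f y := by
      intro y e
      apply hf.dep
      intro i hi
      rw [Function.update_of_ne]
      rintro rfl
      exact hn (Finset.mem_union_left _ hi)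
    have hg0 : ∀ (y : ℕ → R) (e : R), g (Function.update y n e) = g y := by
      intro y e
      apply hg.dep
      intro i hi
      rw [Function.update_of_ne]
      rintro rfl
      exact hn (Finset.mem_union_right _ hi)
    have hp : ∀ y : ℕ → R, (fun i => prN F R (inN (y i) : Np F R)) = y := by
      intro y; funext i; simp [prN_def, inN]
    have h1' : ∀ y, (U₁ y).1 = 0 := by intro y; rw [hU]; rfl
    refine ⟨_, (Tree.mul' hd hB hU₁ hU₂).mem, ?_, ?_⟩
    · intro y e
      simp only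
      rw [mnp_trd' _ _ (h1' _), h2, h3, hp, hf0, hg0, Function.update_self]
    · intro y e
      simp only
      rw [prN_mul, h2, h3, hp, hf0, hg0, Function.update_self, oh.τ_jo, oh.τ_br, oh.π_br, oh.π_br,
        mul_zero, zero_sub, cd.inv]
  | zero => exact ⟨0, Submodule.zero_mem _, by simp, by simp⟩
  | add u v _ _ hu hv =>
    obtain ⟨U, hU, h1, h2⟩ := hu
    obtain ⟨U', hU', h1', h2'⟩ := hv
    refine ⟨U + U', Submodule.add_mem _ hU hU', ?_, ?_⟩
    · intro y e; simp [h1, h1']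
    · intro y e; simp [h2, h2']; ring
  | smul c u _ hu =>
    obtain ⟨U, hU, h1, h2⟩ := hu
    refine ⟨c • U, Submodule.smul_mem _ c hU, ?_, ?_⟩
    · intro y e; simp [h1]
    · intro y e; simp [h2]

theorem Z_inj [CharZero F] (hA : MalcevInj cd) (h : OV F R) (oh : OctHom cd R) {B : Finset ℕ} {z : (ℕ → R) → R}
    (hz : z ∈ ZB F R B) (h0 : ∀ y, oh.τ (z y) = 0) : z = 0 := by
  rcases B.eq_empty_or_nonempty with rfl | ⟨n, hn⟩
  · have : ZB F R ∅ = ⊥ := by
      rw [ZB, Submodule.span_eq_bot]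
      rintro z ⟨B₁, B₂, f, g, hd, hB, h1, _⟩
      have := Finset.union_eq_empty.1 hB
      rw [this.1] at h1; simp at h1
    rw [this] at hz; exact (Submodule.mem_bot F).1 hz
  obtain ⟨U, hU, h1, h2⟩ := ZN_lift oh n B (ZB_le_ZN h hn hz)
  have hU0 : U = 0 := by
    refine hA _ _ (BV_mnp h) (oh.π ∘ₗ prN F R) ?_ ?_ _ _ hU ?_
    · intro x y
      simp only [LinearMap.comp_apply, prN_mul, oh.π_br]
    · intro v
      obtain ⟨x, hx⟩ := oh.surj v
      exact ⟨inN x, by simp [prN_def, inN, hx]⟩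
    · intro Y
      have e1 : prN F R (U Y) = prN F R (U (fun i => inN (prN F R (Y i)))) :=
        ML_fac (m' := br F) (prN F R) prN_mul hU (fun i => by simp [prN_def, inN])
      rw [LinearMap.comp_apply, e1]
      apply cd.nondeg
      intro w
      obtain ⟨e, rfl⟩ := oh.surj w
      have := h2 (fun i => prN F R (Y i)) e
      rw [h0] at this
      exact neg_eq_zero.1 this.symm
  funext y
  have := h1 y (y n)
  rw [Function.update_eq_self, hU0] at this
  simpa using this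

end OctBasis
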