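import Mathlib
import Pool.Agent.Work.MP_9b6dd6_al.ZCore
import Pool.Agent.Work.MP_9b6dd6_al.ZML
import Pool.Agent.Work.MP_9b6dd6_al.ZAlt
import Pool.Agent.Work.MP_9b6dd6_al.ZOV
import Pool.Agent.Work.MP_9b6dd6_al.ZZ

/-! The spaces `LL k B` and closure properties (section 8 of the paper proof). -/

namespace OctBasis

universe u

section Emem
variable {F : Type*} [Field F] {N : Type*} [AddCommGroup N] [Module F N]
  {m : N →ₗ[F] N →ₗ[F] N}

theorem Dop_mem {A B C S : Finset ℕ} {a b c : (ℕ → N) → N} (ha : a ∈ ML m A) (hb : b ∈ ML m B)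
    (hc : c ∈ ML m C) (hAB : Disjoint A B) (hAC : Disjoint A C) (hBC : Disjoint B C)
    (hS : A ∪ B ∪ C = S) : (fun y => Dop m (a y) (b y) (c y)) ∈ ML m S := by
  subst hS
  refine Submodule.add_mem _ (ML_mul' ha (ML_mul hb hc hBC) ?_ ?_)
    (ML_mul' hb (ML_mul ha hc hAC) ?_ ?_)
  · exact Finset.disjoint_union_right.2 ⟨hAB, hAC⟩
  · rw [Finset.union_assoc]
  · exact Finset.disjoint_union_right.2 ⟨hAB.symm, hBC⟩
  · rw [← Finset.union_assoc, Finset.union_comm B A]

theorem Oop_mem {A B C D S : Finset ℕ} {a b c d : (ℕ → N) → N} (ha : a ∈ ML m A)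
    (hb : b ∈ ML m B) (hc : c ∈ ML m C) (hd : d ∈ ML m D) (hAB : Disjoint A B)
    (hAC : Disjoint A C) (hAD : Disjoint A D) (hBC : Disjoint B C) (hBD : Disjoint B D)
    (hCD : Disjoint C D) (hS : A ∪ B ∪ C ∪ D = S) :
    (fun y => Oop m (a y) (b y) (c y) (d y)) ∈ ML m S := by
  subst hS
  refine Submodule.sub_mem _ (ML_mul' (Dop_mem ha hb hc hAB hAC hBC rfl) hd ?_ rfl)
    (ML_mul' (Dop_mem ha hb hd hAB hAD hBD rfl) hc ?_ ?_)
  · simp only [Finset.disjoint_union_left]; exact ⟨⟨hAD, hBD⟩, hCD⟩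
  · simp only [Finset.disjoint_union_left]; exact ⟨⟨hAC, hBC⟩, hCD.symm⟩
  · ext x; simp only [Finset.mem_union]; tauto

theorem Eop_mem {A B C D S : Finset ℕ} {a b c d : (ℕ → N) → N} (ha : a ∈ ML m A)
    (hb : b ∈ ML m B) (hc : c ∈ ML m C) (hd : d ∈ ML m D) (hAB : Disjoint A B)
    (hAC : Disjoint A C) (hAD : Disjoint A D) (hBC : Disjoint B C) (hBD : Disjoint B D)
    (hCD : Disjoint C D) (hS : A ∪ B ∪ C ∪ D = S) :
    (fun y => Eop m (a y) (b y) (c y) (d y)) ∈ ML m S := by
  have h1 := Oop_mem ha hb hc hd hAB hAC hAD hBC hBD hCD hS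
  have h2 := Oop_mem (S := S) ha hc hb hd hAC hAB hAD hBC.symm hCD hBD
    (by rw [← hS]; ext x; simp only [Finset.mem_union]; tauto)
  have h3 := Oop_mem (S := S) hb hc ha hd hBC hAB.symm hBD hAC.symm hCD hAD
    (by rw [← hS]; ext x; simp only [Finset.mem_union]; tauto)
  have h4 := Oop_mem (S := S) ha hd hc hb hAD hAC hAB hCD.symm hBD.symm hBC.symm
    (by rw [← hS]; ext x; simp only [Finset.mem_union]; tauto)
  have h5 := Oop_mem (S := S) hb hd hc ha hBD hBC hAB.symm hCD.symm hAD.symm hAC.symm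
    (by rw [← hS]; ext x; simp only [Finset.mem_union]; tauto)
  have := Submodule.neg_mem _ (Submodule.smul_mem _ (12 : F)⁻¹
    (Submodule.add_mem _ (Submodule.add_mem _ (Submodule.add_mem _ (Submodule.add_mem _
      (Submodule.smul_mem _ (4 : F) h1) h2) h3) h4) h5))
  exact this

end Emem

variable {F : Type u} [Field F] {R : Type u} [NonAssocRing R] [Module F R]
  [IsScalarTower F R R] [SMulCommClass F R R]

variable (F) in
/-- generators of the base space -/
inductive G0 : Finset ℕ → ((ℕ → R) → R) → Prop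
  | one : G0 ∅ (fun _ => 1)
  | mal {B : Finset ℕ} {u : (ℕ → R) → R} (h : 2 ≤ B.card) (hu : Tree (br F) B u) : G0 B u
  | z {B₁ B₂ : Finset ℕ} {f g : (ℕ → R) → R} (hd : Disjoint B₁ B₂) (h1 : 2 ≤ B₁.card)
      (h2 : 2 ≤ B₂.card) (hf : Tree (br F) B₁ f) (hg : Tree (br F) B₂ g) :
      G0 (B₁ ∪ B₂) (fun y => jo F (f y) (g y))

variable (F) in
/-- generators of `LL k B` -/
inductive Gk : ℕ → Finset ℕ → ((ℕ → R) → R) → Prop
  | base {B : Finset ℕ} {u : (ℕ → R) → R} (h : G0 F B u) : Gk 0 B u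
  | up {k : ℕ} {B : Finset ℕ} {u : (ℕ → R) → R} (h : Gk k B u) : Gk (k + 1) B u
  | cons {k : ℕ} {B : Finset ℕ} {u : (ℕ → R) → R} (i : ℕ) (hi : i ∉ B) (h : Gk k B u) :
      Gk (k + 1) (insert i B) (fun y => jo F (y i) (u y))

variable (F R) in
def LL (k : ℕ) (B : Finset ℕ) : Submodule F ((ℕ → R) → R) :=
  Submodule.span F {u | Gk F k B u}

theorem Gk.mem {k : ℕ} {B : Finset ℕ} {u : (ℕ → R) → R} (h : Gk F k B u) : u ∈ LL F R k B :=
  Submodule.subset_span h

theorem LL_ind {k : ℕ} {B : Finset ℕ} {p : ((ℕ → R) → R) → Prop} (ht : ∀ u, Gk F k B u → p u)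
    (hadd : ∀ u v, p u → p v → p (u + v)) (hsmul : ∀ (c : F) u, p u → p (c • u)) (h0 : p 0)
    {u : (ℕ → R) → R} (hu : u ∈ LL F R k B) : p u := by
  induction hu using Submodule.span_induction with
  | mem x hx => exact ht x hx
  | zero => exact h0
  | add x y _ _ hx hy => exact hadd x y hx hy
  | smul c x _ hx => exact hsmul c x hx

theorem LL_succ (k : ℕ) (B : Finset ℕ) : LL F R k B ≤ LL F R (k + 1) B := by
  rw [LL, Submodule.span_le]
  intro u hu
  exact (Gk.up hu).mem

theorem LL_mono {k l : ℕ} (h : k ≤ l) (B : Finset ℕ) : LL F R k B ≤ LL F R l B := by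
  induction h with
  | refl => exact le_rfl
  | step _ ih => exact ih.trans (LL_succ _ _)

theorem LL_cons {k : ℕ} {B : Finset ℕ} {u : (ℕ → R) → R} (hu : u ∈ LL F R k B) {i : ℕ}
    (hi : i ∉ B) : (fun y => jo F (y i) (u y)) ∈ LL F R (k + 1) (insert i B) := by
  have h : ∀ u ∈ LL F R k B, (fun y => jo F (y i) (u y)) ∈ LL F R (k + 1) (insert i B) := by
    intro u hu
    induction hu using Submodule.span_induction with
    | mem x hx => exact (Gk.cons i hi hx).mem
    | zero =>
      have e : (fun y : ℕ → R => jo F (y i) ((0 : (ℕ → R) → R) y)) = 0 := by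
        funext y; exact map_zero _
      rw [e]; exact Submodule.zero_mem _
    | add x y _ _ hx hy =>
      have e : (fun z : ℕ → R => jo F (z i) ((x + y) z)) =
        (fun z => jo F (z i) (x z)) + (fun z => jo F (z i) (y z)) := by
        funext z; exact map_add _ _ _
      rw [e]; exact Submodule.add_mem _ hx hy
    | smul c x _ hx =>
      have e : (fun z : ℕ → R => jo F (z i) ((c • x) z)) = c • (fun z => jo F (z i) (x z)) := by
        funext z; exact map_smul _ _ _
      rw [e]; exact Submodule.smul_mem _ c hx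
  exact h u hu

theorem ML_le_LL0 {B : Finset ℕ} (h : 2 ≤ B.card) : ML (br F : R →ₗ[F] R →ₗ[F] R) B ≤ LL F R 0 B := by
  rw [ML, Submodule.span_le]
  intro u hu
  exact (Gk.base (G0.mal h hu)).mem

theorem br_one (x : R) : br F x 1 = 0 := by rw [br_def]; simp

theorem jo_one [CharZero F] (x : R) : jo F x 1 = x := by
  rw [jo_def, mul_one, one_mul, ← two_smul F x, smul_smul, inv_mul_cancel₀ two_ne_zero, one_smul]

theorem one_jo [CharZero F] (x : R) : jo F 1 x = x := by rw [jo_symm, jo_one]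

omit [IsScalarTower F R R] [SMulCommClass F R R] in
theorem fun_add_mem {M : Submodule F ((ℕ → R) → R)} {f g h : (ℕ → R) → R} (hf : f ∈ M)
    (hg : g ∈ M) (e : ∀ y, h y = f y + g y) : h ∈ M := by
  have : h = f + g := funext e
  rw [this]; exact Submodule.add_mem _ hf hg

/-- (8a), (8b) -/
theorem LL_tree [CharZero F] (hV : OV F R) (k : ℕ) : ∀ (B : Finset ℕ) (u : (ℕ → R) → R),
    u ∈ LL F R k B → ∀ (B₁ : Finset ℕ) (f : (ℕ → R) → R), Tree (br F) B₁ f → Disjoint B₁ B →
    ((fun y => br F (f y) (u y)) ∈ LL F R k (B₁ ∪ B)) ∧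
    (2 ≤ B₁.card → (fun y => jo F (f y) (u y)) ∈ LL F R k (B₁ ∪ B)) := by
  -- linear extension
  have lin : ∀ (k : ℕ) (B : Finset ℕ), (∀ u, Gk F k B u → ∀ (B₁ : Finset ℕ) (f : (ℕ → R) → R),
      Tree (br F) B₁ f → Disjoint B₁ B →
      ((fun y => br F (f y) (u y)) ∈ LL F R k (B₁ ∪ B)) ∧
      (2 ≤ B₁.card → (fun y => jo F (f y) (u y)) ∈ LL F R k (B₁ ∪ B))) →
      ∀ u, u ∈ LL F R k B → ∀ (B₁ : Finset ℕ) (f : (ℕ → R) → R), Tree (br F) B₁ f →
      Disjoint B₁ B → ((fun y => br F (f y) (u y)) ∈ LL F R k (B₁ ∪ B)) ∧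
      (2 ≤ B₁.card → (fun y => jo F (f y) (u y)) ∈ LL F R k (B₁ ∪ B)) := by
    intro k B H u hu B₁ f hf hd
    refine LL_ind (p := fun u => ((fun y => br F (f y) (u y)) ∈ LL F R k (B₁ ∪ B)) ∧
      (2 ≤ B₁.card → (fun y => jo F (f y) (u y)) ∈ LL F R k (B₁ ∪ B))) ?_ ?_ ?_ ?_ hu
    · intro u hu; exact H u hu B₁ f hf hd
    · rintro u v ⟨hu1, hu2⟩ ⟨hv1, hv2⟩
      refine ⟨?_, fun hc => ?_⟩
      · convert Submodule.add_mem _ hu1 hv1 using 1
        funext y; simp
      · convert Submodule.add_mem _ (hu2 hc) (hv2 hc) using 1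
        funext y; simp
    · rintro c u ⟨hu1, hu2⟩
      refine ⟨?_, fun hc => ?_⟩
      · convert Submodule.smul_mem _ c hu1 using 1
        funext y; simp
      · convert Submodule.smul_mem _ c (hu2 hc) using 1
        funext y; simp
    · refine ⟨?_, fun hc => ?_⟩
      · convert Submodule.zero_mem _ using 1
        funext y; simp
      · convert Submodule.zero_mem _ using 1
        funext y; simp
  induction k with
  | zero =>
    intro B
    apply lin
    intro u hu B₁ f hf hd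
    cases hu with
    | base h0 =>
      cases h0 with
      | one =>
        refine ⟨?_, fun hc => ?_⟩
        · convert Submodule.zero_mem _ using 1
          funext y; simp [br_one]
        · rw [Finset.union_empty]
          have : (fun y => jo F (f y) ((fun _ => (1 : R)) y)) = f := by
            funext y; exact jo_one _
          rw [this]
          exact (Gk.base (G0.mal hc hf)).mem
      | mal h2 hu =>
        refine ⟨?_, fun hc => ?_⟩
        · exact (Gk.base (G0.mal (le_trans h2 (Finset.card_le_card Finset.subset_union_right))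
            (Tree.mul hd hf hu))).mem
        · exact (Gk.base (G0.z hd hc h2 hf hu)).mem
      | @z C₁ C₂ g h hC h1 h2 hg hh =>
        refine ⟨?_, fun hc => ?_⟩
        · convert Submodule.zero_mem _ using 1
          funext y
          exact hV.z1' (hg.M2 h1 y) (hh.M2 h2 y) (f y)
        · obtain ⟨D₁, D₂, f₁, f₂, hD, hDD, hf₁, hf₂, rfl⟩ := hf.split hc
          subst hDD
          rw [Finset.disjoint_union_left, Finset.disjoint_union_right,
            Finset.disjoint_union_right] at hd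
          obtain ⟨⟨d1, d2⟩, d3, d4⟩ := hd
          have hE := Eop_mem (S := D₁ ∪ D₂ ∪ (C₁ ∪ C₂)) hg.mem hh.mem hf₁.mem hf₂.mem hC d1.symm
            d3.symm d2.symm d4.symm hD (by ext x; simp only [Finset.mem_union]; tauto)
          have hE' := ML_le_LL0 (by
            refine le_trans h1 (Finset.card_le_card ?_)
            intro x hx; simp only [Finset.mem_union]; tauto) hE
          convert Submodule.neg_mem _ hE' using 1
          funext y
          simp only [Pi.neg_apply]
          rw [jo_symm, hV.z2' (hg.M2 h1 y) (hh.M2 h2 y)]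
  | succ k ih =>
    intro B
    apply lin
    intro u hu B₁ f hf hd
    cases hu with
    | up h =>
      obtain ⟨h1, h2⟩ := ih B u h.mem B₁ f hf hd
      exact ⟨LL_succ _ _ h1, fun hc => LL_succ _ _ (h2 hc)⟩
    | @cons _ B v i hi h =>
      rw [Finset.disjoint_insert_right] at hd
      obtain ⟨hi1, hd⟩ := hd
      have hiU : i ∉ B₁ ∪ B := by
        rw [Finset.mem_union]; tauto
      have eS : B₁ ∪ insert i B = insert i (B₁ ∪ B) := Finset.union_insert _ _ _
      -- the tree `f . x_i`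
      have hfi : Tree (br F) (B₁ ∪ {i}) (fun y : ℕ → R => br F (f y) (y i)) :=
        Tree.mul (Finset.disjoint_singleton_right.2 hi1) hf (Tree.var i)
      have hfid : Disjoint (B₁ ∪ {i}) B := by
        rw [Finset.disjoint_union_left, Finset.disjoint_singleton_left]; exact ⟨hd, hi⟩
      have hfic : 2 ≤ (B₁ ∪ {i}).card := by
        rw [Finset.card_union_of_disjoint (Finset.disjoint_singleton_right.2 hi1)]
        have := hf.nonempty.card_pos
        rw [Finset.card_singleton]; omega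
      have eS' : B₁ ∪ {i} ∪ B = B₁ ∪ insert i B := by
        ext x; simp only [Finset.mem_union, Finset.mem_insert, Finset.mem_singleton]; tauto
      obtain ⟨a1, a2⟩ := ih B v h.mem _ _ hfi hfid
      obtain ⟨b1, b2⟩ := ih B v h.mem B₁ f hf hd
      rw [eS'] at a1 a2
      refine ⟨?_, fun hc => ?_⟩
      · have h1 := LL_cons b1 hiU
        rw [← eS] at h1
        refine fun_add_mem (LL_succ _ _ (a2 hfic)) h1 (fun y => ?_)
        exact I1 F hV.toIsAlt _ _ _
      · have h1 := LL_cons (b2 hc) hiU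
        rw [← eS] at h1
        -- br x_i v
        have c1 := (ih B v h.mem {i} _ (Tree.var i) (Finset.disjoint_singleton_left.2 hi)).1
        have c2 := (ih _ _ c1 B₁ f hf (by
          rw [Finset.disjoint_union_right, Finset.disjoint_singleton_right]; exact ⟨hi1, hd⟩)).1
        have e2 : B₁ ∪ ({i} ∪ B) = B₁ ∪ insert i B := by
          ext x; simp only [Finset.mem_union, Finset.mem_insert, Finset.mem_singleton]
        rw [e2] at c2
        have c3 := (ih _ _ b1 {i} _ (Tree.var i) (Finset.disjoint_singleton_left.2 hiU)).1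
        have e3 : {i} ∪ (B₁ ∪ B) = B₁ ∪ insert i B := by
          ext x; simp only [Finset.mem_union, Finset.mem_insert, Finset.mem_singleton]; tauto
        rw [e3] at c3
        have t1 := LL_succ _ _ (Submodule.smul_mem _ (2 / 3 : F) a1)
        have t2 := LL_succ _ _ (Submodule.smul_mem _ (3⁻¹ : F) (Submodule.sub_mem _ c2 c3))
        refine fun_add_mem h1 (Submodule.add_mem _ t1 t2) (fun y => ?_)
        have := I2 F hV.toIsAlt (f y) (y i) (v y)
        simp only [Pi.add_apply, Pi.smul_apply, Pi.sub_apply]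
        rw [← this]; abel

theorem LL_br [CharZero F] (hV : OV F R) {k : ℕ} {B B₁ S : Finset ℕ} {u f : (ℕ → R) → R}
    (hu : u ∈ LL F R k B) (hf : Tree (br F) B₁ f) (hd : Disjoint B₁ B) (hS : B₁ ∪ B = S) :
    (fun y => br F (f y) (u y)) ∈ LL F R k S := by
  subst hS; exact (LL_tree hV k B u hu B₁ f hf hd).1

variable (F R) in
/-- the union of the spaces `LL k B` -/
def LLi (B : Finset ℕ) : Submodule F ((ℕ → R) → R) where
  carrier := {u | ∃ k, u ∈ LL F R k B}
  add_mem' := by
    rintro u v ⟨k, hu⟩ ⟨l, hv⟩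
    exact ⟨max k l, Submodule.add_mem _ (LL_mono (le_max_left _ _) _ hu)
      (LL_mono (le_max_right _ _) _ hv)⟩
  zero_mem' := ⟨0, Submodule.zero_mem _⟩
  smul_mem' := by
    rintro c u ⟨k, hu⟩
    exact ⟨k, Submodule.smul_mem _ c hu⟩

variable (F) in
/-- multiplication operators preserving the spaces `LLi` -/
def Cl (B₁ : Finset ℕ) (a : (ℕ → R) → R) : Prop :=
  ∀ (B : Finset ℕ) (u : (ℕ → R) → R), u ∈ LLi F R B → Disjoint B₁ B →
    (fun y => jo F (a y) (u y)) ∈ LLi F R (B₁ ∪ B) ∧ (fun y => br F (a y) (u y)) ∈ LLi F R (B₁ ∪ B)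

theorem Cl_var [CharZero F] (hV : OV F R) (i : ℕ) : Cl F {i} (fun y : ℕ → R => y i) := by
  rintro B u ⟨k, hu⟩ hd
  refine ⟨⟨k + 1, ?_⟩, ⟨k, LL_br hV hu (Tree.var i) hd rfl⟩⟩
  have := LL_cons hu (Finset.disjoint_singleton_left.1 hd)
  rwa [Finset.insert_eq] at this

section ops
variable {a b : (ℕ → R) → R} {A B : Finset ℕ}

omit [IsScalarTower F R R] [SMulCommClass F R R] in
theorem mem_of_eq {M : Submodule F ((ℕ → R) → R)} {f g : (ℕ → R) → R} (hf : f ∈ M)
    (e : ∀ y, g y = f y) : g ∈ M := by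
  rw [show g = f from funext e]; exact hf

theorem Cl_mul [CharZero F] (hV : OV F R) (ha : Cl F A a) (hb : Cl F B b) (hAB : Disjoint A B) :
    Cl F (A ∪ B) (fun y => a y * b y) := by
  intro C u hu hd
  rw [Finset.disjoint_union_left] at hd
  obtain ⟨dA, dB⟩ := hd
  have hS : A ∪ B ∪ C = A ∪ (B ∪ C) := Finset.union_assoc _ _ _
  have hS' : B ∪ (A ∪ C) = A ∪ (B ∪ C) := by
    ext x; simp only [Finset.mem_union]; tauto
  rw [hS]
  have dA' : Disjoint A (B ∪ C) := Finset.disjoint_union_right.2 ⟨hAB, dA⟩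
  have dB' : Disjoint B (A ∪ C) := Finset.disjoint_union_right.2 ⟨hAB.symm, dB⟩
  obtain ⟨a1, a2⟩ := ha C u hu dA
  obtain ⟨b1, b2⟩ := hb C u hu dB
  -- second level
  obtain ⟨jj, bj⟩ := ha _ _ b1 dA'
  obtain ⟨jb, bb⟩ := ha _ _ b2 dA'
  obtain ⟨jj', bj'⟩ := hb _ _ a1 dB'
  obtain ⟨jb', bb'⟩ := hb _ _ a2 dB'
  rw [hS'] at jj' bj' jb' bb'
  -- `br (br a b) u`
  have e1 : (fun y => br F (br F (a y) (b y)) (u y)) ∈ LLi F R (A ∪ (B ∪ C)) := by
    have := Submodule.sub_mem _ (Submodule.smul_mem _ (3 / 2 : F) (Submodule.sub_mem _ jj jj'))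
      (Submodule.smul_mem _ (2⁻¹ : F) (Submodule.sub_mem _ bb bb'))
    refine mem_of_eq this (fun y => ?_)
    have h := I2 F hV.toIsAlt (a y) (b y) (u y)
    simp only [Pi.sub_apply, Pi.smul_apply]
    rw [h]
    module
  have e2 : (fun y => jo F (br F (a y) (b y)) (u y)) ∈ LLi F R (A ∪ (B ∪ C)) := by
    refine mem_of_eq (Submodule.sub_mem _ bj jb') (fun y => ?_)
    have h := I1 F hV.toIsAlt (a y) (b y) (u y)
    simp only [Pi.sub_apply]
    rw [h]; abel
  have e3 : (fun y => br F (jo F (a y) (b y)) (u y)) ∈ LLi F R (A ∪ (B ∪ C)) := by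
    refine mem_of_eq (Submodule.add_mem _ jb jb') (fun y => ?_)
    have h := I1 F hV.toIsAlt (u y) (a y) (b y)
    simp only [Pi.add_apply]
    rw [br_anti F (jo F (a y) (b y)), h, br_anti F (a y) (u y), br_anti F (b y) (u y),
      jo_symm F (b y) (-(br F (u y) (a y)))]
    simp only [map_neg, LinearMap.neg_apply]
    abel
  have e4 : (fun y => jo F (jo F (a y) (b y)) (u y)) ∈ LLi F R (A ∪ (B ∪ C)) := by
    have := Submodule.add_mem _ jj (Submodule.add_mem _ (Submodule.smul_mem _ (2 / 3 : F) bb')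
      (Submodule.smul_mem _ (3⁻¹ : F) (Submodule.sub_mem _ bb e1)))
    refine mem_of_eq this (fun y => ?_)
    have h := I2 F hV.toIsAlt (a y) (u y) (b y)
    simp only [Pi.add_apply, Pi.sub_apply, Pi.smul_apply]
    rw [jo_symm F (u y) (jo F (a y) (b y)), jo_symm F (u y) (b y),
      br_anti F (br F (a y) (u y)) (b y), br_anti F (u y) (b y),
      br_anti F (u y) (br F (a y) (b y)), map_neg] at h
    linear_combination (norm := module) -h
  constructor
  · refine mem_of_eq (Submodule.add_mem _ e4 e2) (fun y => ?_)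
    simp only [Pi.add_apply]
    rw [mul_eq_jo_br F (a y) (b y), map_add, LinearMap.add_apply]
  · refine mem_of_eq (Submodule.add_mem _ e3 e1) (fun y => ?_)
    simp only [Pi.add_apply]
    rw [mul_eq_jo_br F (a y) (b y), map_add, LinearMap.add_apply]

end ops

theorem Cl_tree [CharZero F] (hV : OV F R) {B : Finset ℕ} {w : (ℕ → R) → R}
    (hw : Tree (LinearMap.mul F R) B w) : Cl F B w := by
  induction hw with
  | var i => exact Cl_var hV i
  | mul h hu hv ihu ihv => exact Cl_mul hV ihu ihv h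

theorem tree_LLi [CharZero F] (hV : OV F R) {B : Finset ℕ} {w : (ℕ → R) → R}
    (hw : Tree (LinearMap.mul F R) B w) : w ∈ LLi F R B := by
  have h1 : (fun _ => (1 : R)) ∈ LLi F R ∅ := ⟨0, (Gk.base G0.one).mem⟩
  have := (Cl_tree hV hw ∅ _ h1 (Finset.disjoint_empty_right _)).1
  rw [Finset.union_empty] at this
  exact mem_of_eq this (fun y => (jo_one _).symm)

theorem ML_LLi [CharZero F] (hV : OV F R) (B : Finset ℕ) :
    ML (LinearMap.mul F R) B ≤ LLi F R B := by
  rw [ML, Submodule.span_le]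
  intro u hu
  exact tree_LLi hV hu

end OctBasis
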