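import Mathlib
import Pool.Agent.Work.MP_9b6dd6_al.ZL

/-! Injectivity of the evaluation on `LL k B`. -/

namespace OctBasis

universe u

variable {F : Type u} [Field F] {R : Type u} [NonAssocRing R] [Module F R]
  [IsScalarTower F R R] [SMulCommClass F R R]

theorem Gk.dep {k : ℕ} {B : Finset ℕ} {u : (ℕ → R) → R} (h : Gk F k B u) {y y' : ℕ → R}
    (hy : ∀ i ∈ B, y i = y' i) : u y = u y' := by
  induction h with
  | base h0 =>
    cases h0 with
    | one => rfl
    | mal h hu => exact hu.dep hy
    | z hd h1 h2 hf hg =>
      simp only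
      rw [hf.dep (fun i hi => hy i (Finset.mem_union_left _ hi)),
        hg.dep (fun i hi => hy i (Finset.mem_union_right _ hi))]
  | up h ih => exact ih hy
  | cons i hi h ih =>
    simp only
    rw [hy i (Finset.mem_insert_self _ _), ih (fun j hj => hy j (Finset.mem_insert_of_mem hj))]

theorem LL_dep {k : ℕ} {B : Finset ℕ} {u : (ℕ → R) → R} (h : u ∈ LL F R k B) {y y' : ℕ → R}
    (hy : ∀ i ∈ B, y i = y' i) : u y = u y' := by
  refine LL_ind (p := fun u => u y = u y') ?_ ?_ ?_ ?_ h
  · intro u hu; exact hu.dep hy
  · intro u v hu hv; simp [hu, hv]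
  · intro c u hu; simp [hu]
  · rfl

/-- Malcev trees of degree at least two vanish at `1` -/
theorem Tree.one {B : Finset ℕ} {u : (ℕ → R) → R} (h : Tree (br F) B u) (hB : 2 ≤ B.card)
    {i : ℕ} (hi : i ∈ B) (y : ℕ → R) : u (Function.update y i 1) = 0 := by
  induction h with
  | var j => simp at hB
  | @mul B₁ B₂ u v h hu hv ihu ihv =>
    simp only
    rw [Finset.mem_union] at hi
    rcases hi with hi | hi
    · by_cases hc : 2 ≤ B₁.card
      · rw [ihu hc hi, map_zero, LinearMap.zero_apply]
      · have : B₁ = {i} := by
          have h1 : B₁.card = 1 := by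
            have := hu.nonempty.card_pos
            omega
          obtain ⟨x, hx⟩ := Finset.card_eq_one.1 h1
          rw [hx] at hi ⊢
          rw [Finset.mem_singleton.1 hi]
        have h2 := hu.single this
        rw [h2]
        simp only [Function.update_self]
        rw [br_anti, br_one, neg_zero]
    · by_cases hc : 2 ≤ B₂.card
      · rw [ihv hc hi, map_zero]
      · have : B₂ = {i} := by
          have h1 : B₂.card = 1 := by
            have := hv.nonempty.card_pos
            omega
          obtain ⟨x, hx⟩ := Finset.card_eq_one.1 h1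
          rw [hx] at hi ⊢
          rw [Finset.mem_singleton.1 hi]
        have h2 := hv.single this
        rw [h2]
        simp only [Function.update_self]
        rw [br_one]

theorem LL0_one {B : Finset ℕ} {u : (ℕ → R) → R} (h : u ∈ LL F R 0 B) {i : ℕ} (hi : i ∈ B)
    (y : ℕ → R) : u (Function.update y i 1) = 0 := by
  refine LL_ind (p := fun u => u (Function.update y i 1) = 0) ?_ ?_ ?_ ?_ h
  · intro u hu
    cases hu with
    | base h0 =>
      cases h0 with
      | one => simp at hi
      | mal h hu => exact hu.one h hi y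
      | z hd h1 h2 hf hg =>
        simp only
        rw [Finset.mem_union] at hi
        rcases hi with hi | hi
        · rw [hf.one h1 hi, map_zero, LinearMap.zero_apply]
        · rw [hg.one h2 hi, map_zero]
  · intro u v hu hv; simp [hu, hv]
  · intro c u hu; simp [hu]
  · rfl

variable (F) in
/-- the derivative data at the top level -/
def EuS (k : ℕ) (B : Finset ℕ) (u : (ℕ → R) → R) : Prop :=
  ∃ D : ℕ → (ℕ → R) → R, (∀ i ∈ B, D i ∈ LL F R k (B.erase i)) ∧
    (∀ i ∈ B, ∀ y, u (Function.update y i 1) = D i y) ∧
    (((k : F) + 1) • u - ∑ i ∈ B, (fun y => jo F (y i) (D i y))) ∈ LL F R k B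

theorem EuS_add {k : ℕ} {B : Finset ℕ} {u v : (ℕ → R) → R} (hu : EuS F k B u)
    (hv : EuS F k B v) : EuS F k B (u + v) := by
  obtain ⟨D, h1, h2, h3⟩ := hu
  obtain ⟨D', h1', h2', h3'⟩ := hv
  refine ⟨fun i => D i + D' i, fun i hi => Submodule.add_mem _ (h1 i hi) (h1' i hi), ?_, ?_⟩
  · intro i hi y; simp [h2 i hi y, h2' i hi y]
  · convert Submodule.add_mem _ h3 h3' using 1
    have : (∑ i ∈ B, fun y : ℕ → R => jo F (y i) ((D i + D' i) y)) =
        (∑ i ∈ B, fun y : ℕ → R => jo F (y i) (D i y)) +
        ∑ i ∈ B, fun y : ℕ → R => jo F (y i) (D' i y) := by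
      rw [← Finset.sum_add_distrib]
      refine Finset.sum_congr rfl fun i _ => ?_
      funext y; simp
    rw [this]; module

theorem EuS_smul {k : ℕ} {B : Finset ℕ} {u : (ℕ → R) → R} (c : F) (hu : EuS F k B u) :
    EuS F k B (c • u) := by
  obtain ⟨D, h1, h2, h3⟩ := hu
  refine ⟨fun i => c • D i, fun i hi => Submodule.smul_mem _ c (h1 i hi), ?_, ?_⟩
  · intro i hi y; simp [h2 i hi y]
  · convert Submodule.smul_mem _ c h3 using 1
    have : (∑ i ∈ B, fun y : ℕ → R => jo F (y i) ((c • D i) y)) =
        c • (∑ i ∈ B, fun y : ℕ → R => jo F (y i) (D i y)) := by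
      rw [Finset.smul_sum]
      refine Finset.sum_congr rfl fun i _ => ?_
      funext y; simp
    rw [this]; module

theorem EuS_zero {k : ℕ} {B : Finset ℕ} : EuS F k B (0 : (ℕ → R) → R) := by
  refine ⟨fun _ => 0, fun i _ => Submodule.zero_mem _, fun i _ y => rfl, ?_⟩
  have : (∑ i ∈ B, fun y : ℕ → R => jo F (y i) ((0 : (ℕ → R) → R) y)) = 0 := by
    refine Finset.sum_eq_zero fun i _ => ?_
    funext y; simp
  rw [this]; simp

theorem sum_apply_fun {B : Finset ℕ} (f : ℕ → (ℕ → R) → R) (y : ℕ → R) :
    (∑ i ∈ B, f i) y = ∑ i ∈ B, f i y := by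
  rw [Finset.sum_apply]

theorem EuS_of [CharZero F] (hV : OV F R) (k : ℕ) : ∀ (B : Finset ℕ) (u : (ℕ → R) → R),
    u ∈ LL F R (k + 1) B → EuS F k B u := by
  induction k with
  | zero =>
    intro B u hu
    refine LL_ind (p := fun u => EuS F 0 B u) ?_ (fun _ _ => EuS_add) (fun c _ => EuS_smul c)
      EuS_zero hu
    intro u hu
    cases hu with
    | up h =>
      refine ⟨fun _ => 0, fun i _ => Submodule.zero_mem _, fun i hi y => LL0_one h.mem hi y, ?_⟩
      have : (∑ i ∈ B, fun y : ℕ → R => jo F (y i) ((0 : (ℕ → R) → R) y)) = 0 := by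
        refine Finset.sum_eq_zero fun i _ => ?_
        funext y; simp
      rw [this]
      simpa using h.mem
    | @cons _ B v j hj h =>
      refine ⟨fun i => if i = j then v else 0, ?_, ?_, ?_⟩
      · intro i hi
        by_cases hij : i = j
        · subst hij
          simp only [if_true]
          rw [Finset.erase_insert hj]
          exact h.mem
        · simp only [if_neg hij]
          exact Submodule.zero_mem _
      · intro i hi y
        by_cases hij : i = j
        · subst hij
          simp only [if_true, Function.update_self]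
          rw [one_jo]
          apply h.dep
          intro l hl
          rw [Function.update_of_ne]
          rintro rfl; exact hj hl
        · simp only [if_neg hij]
          rw [LL0_one h.mem ((Finset.mem_insert.1 hi).resolve_left hij), map_zero]
          rfl
      · have : (∑ i ∈ insert j B, fun y : ℕ → R => jo F (y i)
            ((if i = j then v else 0 : (ℕ → R) → R) y)) = fun y => jo F (y j) (v y) := by
          rw [Finset.sum_insert hj]
          simp only [if_true]
          have : (∑ i ∈ B, fun y : ℕ → R => jo F (y i)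
            ((if i = j then v else 0 : (ℕ → R) → R) y)) = 0 := by
            refine Finset.sum_eq_zero fun i hi => ?_
            have hij : i ≠ j := by rintro rfl; exact hj hi
            funext y; simp [hij]
          rw [this, add_zero]
        rw [this]
        simp
  | succ k ih =>
    intro B u hu
    refine LL_ind (p := fun u => EuS F (k + 1) B u) ?_ (fun _ _ => EuS_add)
      (fun c _ => EuS_smul c) EuS_zero hu
    intro u hu
    cases hu with
    | up h =>
      obtain ⟨D, h1, h2, h3⟩ := ih B u h.mem
      refine ⟨D, fun i hi => LL_succ _ _ (h1 i hi), h2, ?_⟩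
      have := Submodule.add_mem _ h.mem (LL_succ _ _ h3)
      convert this using 1
      push_cast; module
    | @cons _ B v j hj h =>
      obtain ⟨D, h1, h2, h3⟩ := ih B v h.mem
      refine ⟨fun i => if i = j then v else fun y => jo F (y j) (D i y), ?_, ?_, ?_⟩
      · intro i hi
        by_cases hij : i = j
        · subst hij
          simp only [if_true]
          rw [Finset.erase_insert hj]
          exact h.mem
        · simp only [if_neg hij]
          have hiB : i ∈ B := (Finset.mem_insert.1 hi).resolve_left hij
          have e : (insert j B).erase i = insert j (B.erase i) := by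
            rw [Finset.erase_insert_of_ne (Ne.symm hij)]
          rw [e]
          exact LL_cons (h1 i hiB) (fun hh => hj (Finset.mem_of_mem_erase hh))
      · intro i hi y
        by_cases hij : i = j
        · subst hij
          simp only [if_true, Function.update_self]
          rw [one_jo]
          apply h.dep
          intro l hl
          rw [Function.update_of_ne]
          rintro rfl; exact hj hl
        · simp only [if_neg hij]
          have hiB : i ∈ B := (Finset.mem_insert.1 hi).resolve_left hij
          rw [h2 i hiB, Function.update_of_ne (Ne.symm hij)]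
      · -- the main computation
        have key : ∀ i ∈ B, (fun y : ℕ → R => jo F (y j) (jo F (y i) (D i y))
            - jo F (y i) (jo F (y j) (D i y))) ∈ LL F R k (insert j B) := by
          intro i hi
          have hij : i ≠ j := by rintro rfl; exact hj hi
          have m := h1 i hi
          have hjE : j ∉ B.erase i := fun hh => hj (Finset.mem_of_mem_erase hh)
          have a1 := LL_br hV (S := insert j B) m (Tree.mul (m := br F)
            (Finset.disjoint_singleton.2 (Ne.symm hij)) (Tree.var j) (Tree.var i))
            (by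
              rw [Finset.disjoint_union_left, Finset.disjoint_singleton_left,
                Finset.disjoint_singleton_left]
              exact ⟨hjE, Finset.notMem_erase i B⟩)
            (by
              ext x
              simp only [Finset.mem_union, Finset.mem_singleton, Finset.mem_erase,
                Finset.mem_insert]
              constructor
              · rintro ((h | h) | h)
                · exact Or.inl h
                · exact Or.inr (h ▸ hi)
                · exact Or.inr h.2
              · rintro (h | h)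
                · exact Or.inl (Or.inl h)
                · by_cases hx : x = i
                  · exact Or.inl (Or.inr hx)
                  · exact Or.inr ⟨hx, h⟩)
          have a2 := LL_br hV (S := B) m (Tree.var (m := br F) i)
            (Finset.disjoint_singleton_left.2 (Finset.notMem_erase i B))
            (by rw [← Finset.insert_eq, Finset.insert_erase hi])
          have a3 := LL_br hV (S := insert j B) a2 (Tree.var (m := br F) j)
            (Finset.disjoint_singleton_left.2 hj) (by rw [← Finset.insert_eq])
          have a4 := LL_br hV (S := insert j (B.erase i)) m (Tree.var (m := br F) j)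
            (Finset.disjoint_singleton_left.2 hjE) (by rw [← Finset.insert_eq])
          have a5 := LL_br hV (S := insert j B) a4 (Tree.var (m := br F) i)
            (by
              rw [Finset.disjoint_singleton_left, Finset.mem_insert]
              push Not
              exact ⟨hij, Finset.notMem_erase i B⟩)
            (by rw [← Finset.insert_eq, Finset.insert_comm, Finset.insert_erase hi])
          refine mem_of_eq (Submodule.add_mem _ (Submodule.smul_mem _ (2 / 3 : F) a1)
            (Submodule.smul_mem _ (3⁻¹ : F) (Submodule.sub_mem _ a3 a5))) (fun y => ?_)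
          exact I2 F hV.toIsAlt _ _ _
        have key2 : (∑ i ∈ B, fun y : ℕ → R => jo F (y j) (jo F (y i) (D i y))
            - jo F (y i) (jo F (y j) (D i y))) ∈ LL F R (k + 1) (insert j B) :=
          LL_succ _ _ (Submodule.sum_mem _ key)
        have key3 := LL_cons h3 hj
        refine mem_of_eq (Submodule.add_mem _ key3 key2) (fun y => ?_)
        simp only [Pi.sub_apply, Pi.add_apply, Pi.smul_apply, sum_apply_fun]
        rw [Finset.sum_insert hj, Finset.sum_sub_distrib, map_sub, map_smul, map_sum]
        simp only [if_true]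
        have e : ∑ x ∈ B, jo F (y x) ((if x = j then v else fun y => jo F (y j) (D x y)) y) =
            ∑ x ∈ B, jo F (y x) (jo F (y j) (D x y)) := by
          refine Finset.sum_congr rfl fun x hx => ?_
          have hxj : x ≠ j := by rintro rfl; exact hj hx
          rw [if_neg hxj]
        rw [e]
        push_cast
        module

theorem LL0_decomp {B : Finset ℕ} {u : (ℕ → R) → R} (h : u ∈ LL F R 0 B) :
    ∃ (c : F) (m z : (ℕ → R) → R), (B ≠ ∅ → c = 0) ∧ m ∈ ML (br F) B ∧ (B.card < 2 → m = 0) ∧
      z ∈ ZB F R B ∧ u = fun y => c • (1 : R) + m y + z y := by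
  refine LL_ind (p := fun u => ∃ (c : F) (m z : (ℕ → R) → R), (B ≠ ∅ → c = 0) ∧
    m ∈ ML (br F) B ∧ (B.card < 2 → m = 0) ∧
    z ∈ ZB F R B ∧ u = fun y => c • (1 : R) + m y + z y) ?_ ?_ ?_ ?_ h
  · intro u hu
    cases hu with
    | base h0 =>
      cases h0 with
      | one =>
        exact ⟨1, 0, 0, by simp, Submodule.zero_mem _, fun _ => rfl, Submodule.zero_mem _, by simp⟩
      | mal h hu => exact ⟨0, u, 0, by simp, hu.mem, fun h' => by omega,
          Submodule.zero_mem _, by simp⟩
      | @z B₁ B₂ f g hd h1 h2 hf hg =>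
        exact ⟨0, 0, fun y => jo F (f y) (g y), by simp, Submodule.zero_mem _, fun _ => rfl,
          Submodule.subset_span ⟨B₁, B₂, f, g, hd, rfl, h1, h2, hf, hg, rfl⟩, by simp⟩
  · rintro _ _ ⟨c, m, z, h1, h2, h4, h3, rfl⟩ ⟨c', m', z', h1', h2', h4', h3', rfl⟩
    refine ⟨c + c', m + m', z + z', fun hB => by rw [h1 hB, h1' hB, add_zero],
      Submodule.add_mem _ h2 h2', fun hB => by rw [h4 hB, h4' hB, add_zero],
      Submodule.add_mem _ h3 h3', ?_⟩
    funext y; simp only [Pi.add_apply]; module
  · rintro d _ ⟨c, m, z, h1, h2, h4, h3, rfl⟩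
    refine ⟨d * c, d • m, d • z, fun hB => by rw [h1 hB, mul_zero],
      Submodule.smul_mem _ d h2, fun hB => by rw [h4 hB, smul_zero],
      Submodule.smul_mem _ d h3, ?_⟩
    funext y; simp only [Pi.smul_apply]; module
  · exact ⟨0, 0, 0, by simp, Submodule.zero_mem _, fun _ => rfl, Submodule.zero_mem _,
      by funext y; simp⟩

variable {V : Type u} [AddCommGroup V] [Module F V] {cd : CrossData F V}

theorem ZB_M2 {B : Finset ℕ} {z : (ℕ → R) → R} [CharZero F] (oh : OctHom cd R)
    (hz : z ∈ ZB F R B) (y : ℕ → R) : oh.π (z y) = 0 := by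
  induction hz using Submodule.span_induction with
  | mem z hz =>
    obtain ⟨B₁, B₂, f, g, hd, hB, h1, h2, hf, hg, rfl⟩ := hz
    simp only
    rw [oh.π_jo, oh.τ_M2 (hf.M2 h1 y), oh.τ_M2 (hg.M2 h2 y)]
    simp
  | zero => simp
  | add u v _ _ hu hv => simp [hu, hv]
  | smul c u _ hu => simp [hu]

theorem ZB_empty : ZB F R ∅ = ⊥ := by
  rw [ZB, Submodule.span_eq_bot]
  rintro z ⟨B₁, B₂, f, g, hd, hB, h1, _⟩
  have := Finset.union_eq_empty.1 hB
  rw [this.1] at h1; simp at h1

theorem LL0_inj [CharZero F] (hA : MalcevInj cd) (hV : OV F R) (oh : OctHom cd R)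
    (hτ : oh.τ 1 = 1) {B : Finset ℕ} {u : (ℕ → R) → R} (hu : u ∈ LL F R 0 B)
    (h0 : ∀ y, oh.τ (u y) = 0 ∧ oh.π (u y) = 0) : u = 0 := by
  obtain ⟨c, m, z, h1, h2, h3, h4, rfl⟩ := LL0_decomp hu
  have hm0 : ∀ y, oh.τ (m y) = 0 := by
    intro y
    by_cases hB : B.card < 2
    · rw [h3 hB]; simp
    · exact oh.τ_M2 (ML_M2 h2 (by omega) y)
  have hπ1 : oh.π 1 = 0 := by
    have h := oh.πmul 1 1
    rw [mul_one, hτ, one_smul] at h
    have hs : cd.cr (oh.π 1) (oh.π 1) = 0 := by
      have := cd.anti (oh.π 1) (oh.π 1)
      have h2 : (2 : F) • cd.cr (oh.π 1) (oh.π 1) = 0 := by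
        rw [two_smul]; nth_rewrite 1 [this]; exact neg_add_cancel _
      exact (smul_eq_zero.1 h2).resolve_left two_ne_zero
    rw [hs, add_zero] at h
    have := sub_eq_zero.2 h
    simpa using this
  have hz0 : z = 0 ∧ c = 0 := by
    by_cases hB : B = ∅
    · subst hB
      rw [ZB_empty, Submodule.mem_bot] at h4
      refine ⟨h4, ?_⟩
      have := (h0 (fun _ => 0)).1
      rw [h4, map_add, map_add, hm0, map_smul, hτ] at this
      simpa using this
    · have hc := h1 hB
      refine ⟨?_, hc⟩
      refine Z_inj hA hV oh h4 (fun y => ?_)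
      have := (h0 y).1
      rw [map_add, map_add, hm0, hc] at this
      simpa using this
  obtain ⟨hz, hc⟩ := hz0
  have hm : m = 0 := by
    refine hA R (br F) hV.bv oh.π (fun x y => oh.π_br x y) oh.surj B m h2 (fun y => ?_)
    have := (h0 y).2
    rw [hz, hc] at this
    simpa using this
  rw [hm, hz, hc]
  funext y; simp

/-- Evaluation in the octonions is injective on `LL k B`. -/
theorem LL_inj [CharZero F] (hA : MalcevInj cd) (hV : OV F R) (oh : OctHom cd R)
    (hτ : oh.τ 1 = 1) (n : ℕ) : ∀ (B : Finset ℕ), B.card = n → ∀ (k : ℕ) (u : (ℕ → R) → R),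
    u ∈ LL F R k B → (∀ y, oh.τ (u y) = 0 ∧ oh.π (u y) = 0) → u = 0 := by
  induction n using Nat.strong_induction_on with
  | _ n ih =>
    intro B hB k
    induction k with
    | zero => intro u hu h0; exact LL0_inj hA hV oh hτ hu h0
    | succ k ihk =>
      intro u hu h0
      obtain ⟨D, h1, h2, h3⟩ := EuS_of hV k B u hu
      have hD : ∀ i ∈ B, D i = 0 := by
        intro i hi
        refine ih (B.erase i).card ?_ (B.erase i) rfl k (D i) (h1 i hi) (fun y => ?_)
        · rw [← hB]; exact Finset.card_erase_lt_of_mem hi
        · rw [← h2 i hi y]; exact h0 _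
      have hs : (∑ i ∈ B, (fun y : ℕ → R => jo F (y i) (D i y))) = 0 := by
        refine Finset.sum_eq_zero fun i hi => ?_
        rw [hD i hi]; funext y; simp
      rw [hs, sub_zero] at h3
      have hk : ((k : F) + 1) ≠ 0 := by
        have := Nat.cast_add_one_ne_zero (R := F) k
        exact this
      have hu' : u ∈ LL F R k B := by
        have := Submodule.smul_mem _ ((k : F) + 1)⁻¹ h3
        rwa [smul_smul, inv_mul_cancel₀ hk, one_smul] at this
      exact ihk u hu' h0

/-- Multilinear polynomials vanishing on the octonions vanish on `R`. -/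
theorem mult_inj [CharZero F] (hA : MalcevInj cd) (hV : OV F R) (oh : OctHom cd R)
    (hτ : oh.τ 1 = 1) {B : Finset ℕ} {u : (ℕ → R) → R} (hu : u ∈ ML (LinearMap.mul F R) B)
    (h0 : ∀ y, oh.τ (u y) = 0 ∧ oh.π (u y) = 0) : u = 0 := by
  obtain ⟨k, hk⟩ := ML_LLi hV B hu
  exact LL_inj hA hV oh hτ _ B rfl k u hk h0

end OctBasis
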