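import Mathlib
import Pool.Agent.Work.MP_9b6dd6_al.Basic
import Pool.Agent.Work.MP_9b6dd6_al.ZLinj

/-! Polarization: from multilinear polynomials to arbitrary polynomials. -/

namespace OctBasis

universe u

variable {F : Type u} [Field F] {R : Type u} [NonAssocRing R] [Module F R]
  [IsScalarTower F R R] [SMulCommClass F R R]

/-! ### sums of multilinear polynomials with different letter sets -/

theorem Tree.zero_of {B : Finset ℕ} {u : (ℕ → R) → R} (h : Tree (LinearMap.mul F R) B u)
    {i : ℕ} (hi : i ∈ B) {y : ℕ → R} (hy : y i = 0) : u y = 0 := by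
  induction h with
  | var j =>
    rw [Finset.mem_singleton] at hi
    subst hi; exact hy
  | mul h hu hv ihu ihv =>
    simp only
    rw [Finset.mem_union] at hi
    rcases hi with hi | hi
    · rw [ihu hi, map_zero, LinearMap.zero_apply]
    · rw [ihv hi, map_zero]

theorem ML_zero_of {B : Finset ℕ} {u : (ℕ → R) → R} (h : u ∈ ML (LinearMap.mul F R) B)
    {i : ℕ} (hi : i ∈ B) {y : ℕ → R} (hy : y i = 0) : u y = 0 := by
  refine ML_ind (p := fun u => u y = 0) ?_ ?_ ?_ ?_ h
  · intro u hu; exact hu.zero_of hi hy
  · intro u v hu hv; simp [hu, hv]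
  · intro c u hu; simp [hu]
  · rfl

variable (F R) in
/-- span of all multilinear monomials (arbitrary letter sets) -/
def SM : Submodule F ((ℕ → R) → R) :=
  Submodule.span F {u | ∃ B, Tree (LinearMap.mul F R) B u}

theorem SM_rep {u : (ℕ → R) → R} (h : u ∈ SM F R) :
    ∃ (s : Finset (Finset ℕ)) (v : Finset ℕ → (ℕ → R) → R),
      (∀ B, v B ∈ ML (LinearMap.mul F R) B) ∧ (∀ B, B ∉ s → v B = 0) ∧ u = ∑ B ∈ s, v B := by
  classical
  induction h using Submodule.span_induction with
  | mem u hu =>
    obtain ⟨B, hB⟩ := hu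
    refine ⟨{B}, fun B' => if B' = B then u else 0, ?_, ?_, ?_⟩
    · intro B'
      by_cases h : B' = B
      · subst h; simp only [if_true]; exact hB.mem
      · simp only [if_neg h]; exact Submodule.zero_mem _
    · intro B' h
      rw [Finset.mem_singleton] at h
      simp only [if_neg h]
    · simp
  | zero => exact ⟨∅, fun _ => 0, fun B => Submodule.zero_mem _, fun _ _ => rfl, by simp⟩
  | add u u' _ _ hu hu' =>
    obtain ⟨s, v, h1, h2, rfl⟩ := hu
    obtain ⟨s', v', h1', h2', rfl⟩ := hu'
    refine ⟨s ∪ s', fun B => v B + v' B, fun B => Submodule.add_mem _ (h1 B) (h1' B), ?_, ?_⟩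
    · intro B hB
      rw [Finset.mem_union] at hB
      push Not at hB
      change v B + v' B = 0
      rw [h2 B hB.1, h2' B hB.2, add_zero]
    · rw [Finset.sum_add_distrib]
      congr 1
      · exact Finset.sum_subset Finset.subset_union_left (fun B _ hB => h2 B hB)
      · exact Finset.sum_subset Finset.subset_union_right (fun B _ hB => h2' B hB)
  | smul c u _ hu =>
    obtain ⟨s, v, h1, h2, rfl⟩ := hu
    refine ⟨s, fun B => c • v B, fun B => Submodule.smul_mem _ c (h1 B), ?_, ?_⟩
    · intro B hB
      change c • v B = 0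
      rw [h2 B hB, smul_zero]
    · rw [Finset.smul_sum]

variable {V : Type u} [AddCommGroup V] [Module F V] {cd : CrossData F V}

theorem SM_inj [CharZero F] (hA : MalcevInj cd) (hV : OV F R) (oh : OctHom cd R)
    (hτ : oh.τ 1 = 1) {u : (ℕ → R) → R} (hu : u ∈ SM F R)
    (h0 : ∀ y, oh.τ (u y) = 0 ∧ oh.π (u y) = 0) : u = 0 := by
  classical
  obtain ⟨s, v, h1, h2, rfl⟩ := SM_rep hu
  have key : ∀ (n : ℕ) (B : Finset ℕ), B.card = n → v B = 0 := by
    intro n
    induction n using Nat.strong_induction_on with
    | _ n ih =>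
      intro B hB
      refine mult_inj hA hV oh hτ (h1 B) (fun y => ?_)
      -- restrict to `B`
      have hr : (∑ B' ∈ s, v B') (fun i => if i ∈ B then y i else 0) = v B y := by
        rw [Finset.sum_apply]
        have h3 : ∀ B' ∈ s, B' ≠ B → v B' (fun i => if i ∈ B then y i else 0) = 0 := by
          intro B' _ hne
          by_cases hsub : B' ⊆ B
          · have hlt : B'.card < n := by
              rw [← hB]
              exact Finset.card_lt_card (lt_of_le_of_ne hsub hne)
            rw [ih _ hlt B' rfl]; rfl
          · obtain ⟨i, hi, hiB⟩ := Finset.not_subset.1 hsub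
            exact ML_zero_of (h1 B') hi (by simp [hiB])
        by_cases hBs : B ∈ s
        · rw [Finset.sum_eq_single_of_mem B hBs h3]
          exact ML_dep (h1 B) (fun i hi => by simp [hi])
        · rw [Finset.sum_eq_zero (fun B' hB' => h3 B' hB' (fun e => hBs (e ▸ hB'))), h2 B hBs]
          rfl
      rw [← hr]
      exact h0 _
  exact Finset.sum_eq_zero fun B _ => key _ B rfl

/-! ### polarization -/

/-- substitution of `Σ_{j ∈ T} y_{(i,j)}` for `x_i` -/
def Sw (T : Finset ℕ) (y : ℕ → R) (i : ℕ) : R := ∑ j ∈ T, y (Nat.pair i j)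

/-- the part of `w (Sw T y)` containing exactly the columns `T` -/
def Q : FreeMagma ℕ → Finset ℕ → (ℕ → R) → R
  | FreeMagma.of i, T, y => if T.card = 1 then ∑ j ∈ T, y (Nat.pair i j) else 0
  | FreeMagma.mul a b, T, y => ∑ p ∈ (T.powerset ×ˢ T.powerset).filter (fun p => p.1 ∪ p.2 = T),
      Q a p.1 y * Q b p.2 y

omit [IsScalarTower F R R] [SMulCommClass F R R] [Module F R] in
theorem Q_of (i : ℕ) (T : Finset ℕ) (y : ℕ → R) : Q (FreeMagma.of i) T y =
    if T.card = 1 then ∑ j ∈ T, y (Nat.pair i j) else 0 := rfl

omit [IsScalarTower F R R] [SMulCommClass F R R] [Module F R] in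
theorem Q_mul (a b : FreeMagma ℕ) (T : Finset ℕ) (y : ℕ → R) : Q (a * b) T y =
    ∑ p ∈ (T.powerset ×ˢ T.powerset).filter (fun p => p.1 ∪ p.2 = T),
      Q a p.1 y * Q b p.2 y := rfl

omit [IsScalarTower F R R] [SMulCommClass F R R] [Module F R] in
theorem Q_sum (w : FreeMagma ℕ) (y : ℕ → R) : ∀ T : Finset ℕ,
    OctId.wv (Sw T y) w = ∑ T' ∈ T.powerset, Q w T' y := by
  induction w using FreeMagma.recOnMul with
  | ih1 i =>
    intro T
    rw [OctId.wv_of]
    simp only [Q_of]
    rw [← Finset.sum_filter]
    have : T.powerset.filter (fun T' => T'.card = 1) = T.map ⟨fun j => {j}, Finset.singleton_injective⟩ := by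
      ext T'
      simp only [Finset.mem_filter, Finset.mem_powerset, Finset.mem_map,
        Function.Embedding.coeFn_mk]
      constructor
      · rintro ⟨h1, h2⟩
        obtain ⟨j, rfl⟩ := Finset.card_eq_one.1 h2
        exact ⟨j, by simpa using h1, rfl⟩
      · rintro ⟨j, hj, rfl⟩
        exact ⟨by simpa using hj, by simp⟩
    rw [this, Finset.sum_map]
    simp [Sw]
  | ih2 a b iha ihb =>
    intro T
    rw [OctId.wv_mul, iha, ihb, Finset.sum_mul_sum, ← Finset.sum_product']
    simp only [Q_mul]
    rw [Finset.sum_sigma']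
    refine Finset.sum_bij' (fun p _ => ⟨p.1 ∪ p.2, p⟩) (fun q _ => q.2) ?_ ?_ ?_ ?_ ?_
    · rintro ⟨p1, p2⟩ hp
      simp only [Finset.mem_product, Finset.mem_powerset, Finset.mem_sigma,
        Finset.mem_filter] at hp ⊢
      exact ⟨Finset.union_subset hp.1 hp.2, ⟨Finset.subset_union_left,
        Finset.subset_union_right⟩, trivial⟩
    · rintro ⟨T', p1, p2⟩ hp
      simp only [Finset.mem_product, Finset.mem_powerset, Finset.mem_sigma,
        Finset.mem_filter] at hp ⊢
      exact ⟨hp.2.1.1.trans hp.1, hp.2.1.2.trans hp.1⟩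
    · rintro ⟨p1, p2⟩ _; rfl
    · rintro ⟨T', p1, p2⟩ hp
      simp only [Finset.mem_product, Finset.mem_powerset, Finset.mem_sigma,
        Finset.mem_filter] at hp
      obtain ⟨_, _, rfl⟩ := hp
      rfl
    · rintro ⟨p1, p2⟩ _; rfl

omit [IsScalarTower F R R] [SMulCommClass F R R] [Module F R] in
theorem Q_zero (w : FreeMagma ℕ) (y : ℕ → R) : ∀ T : Finset ℕ, w.length < T.card →
    Q w T y = 0 := by
  induction w using FreeMagma.recOnMul with
  | ih1 i =>
    intro T hT
    rw [Q_of, if_neg]
    simp only [FreeMagma.length] at hT; omega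
  | ih2 a b iha ihb =>
    intro T hT
    rw [Q_mul]
    refine Finset.sum_eq_zero ?_
    rintro ⟨p1, p2⟩ hp
    simp only [Finset.mem_product, Finset.mem_powerset, Finset.mem_filter] at hp
    obtain ⟨_, hp⟩ := hp
    have h1 : T.card ≤ p1.card + p2.card := by rw [← hp]; exact Finset.card_union_le _ _
    have h2 : (a * b).length = a.length + b.length := rfl
    rw [h2] at hT
    by_cases ha : a.length < p1.card
    · simp only; rw [iha _ ha, zero_mul]
    · simp only; rw [ihb _ (by omega), mul_zero]

variable (F R) in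
/-- multilinear monomials with columns in `T` -/
def SC (T : Finset ℕ) : Submodule F ((ℕ → R) → R) :=
  Submodule.span F {u | ∃ B, Tree (LinearMap.mul F R) B u ∧ ∀ x ∈ B, x.unpair.2 ∈ T}

theorem SC_le_SM (T : Finset ℕ) : SC F R T ≤ SM F R := by
  rw [SC, Submodule.span_le]
  rintro u ⟨B, hB, _⟩
  exact Submodule.subset_span ⟨B, hB⟩

theorem SC_mul {T₁ T₂ T : Finset ℕ} (hd : Disjoint T₁ T₂) (hT : T₁ ∪ T₂ = T)
    {u v : (ℕ → R) → R} (hu : u ∈ SC F R T₁) (hv : v ∈ SC F R T₂) :
    (fun y => u y * v y) ∈ SC F R T := by
  subst hT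
  induction hu using Submodule.span_induction with
  | mem u hu =>
    obtain ⟨B, hB, hBT⟩ := hu
    induction hv using Submodule.span_induction with
    | mem v hv =>
      obtain ⟨C, hC, hCT⟩ := hv
      refine Submodule.subset_span ⟨B ∪ C, Tree.mul ?_ hB hC, ?_⟩
      · rw [Finset.disjoint_left]
        intro x hx hx'
        exact (Finset.disjoint_left.1 hd) (hBT x hx) (hCT x hx')
      · intro x hx
        rw [Finset.mem_union] at hx ⊢
        exact hx.imp (hBT x) (hCT x)
    | zero => convert Submodule.zero_mem _ using 1; funext y; simp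
    | add v v' _ _ h h' => convert Submodule.add_mem _ h h' using 1; funext y; simp [mul_add]
    | smul c v _ h =>
      convert Submodule.smul_mem _ c h using 1
      funext y
      simp only [Pi.smul_apply]
      exact mul_smul_comm _ _ _
  | zero => convert Submodule.zero_mem _ using 1; funext y; simp
  | add v v' _ _ h h' => convert Submodule.add_mem _ h h' using 1; funext y; simp [add_mul]
  | smul c v _ h =>
    convert Submodule.smul_mem _ c h using 1
    funext y
    simp only [Pi.smul_apply]
    exact smul_mul_assoc _ _ _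

theorem Q_mem (w : FreeMagma ℕ) : ∀ T : Finset ℕ, w.length ≤ T.card →
    (Q w T : (ℕ → R) → R) ∈ SC F R T := by
  induction w using FreeMagma.recOnMul with
  | ih1 i =>
    intro T hT
    by_cases h : T.card = 1
    · obtain ⟨j, rfl⟩ := Finset.card_eq_one.1 h
      have : (Q (FreeMagma.of i) {j} : (ℕ → R) → R) = fun y => y (Nat.pair i j) := by
        funext y; rw [Q_of]; simp
      rw [this]
      refine Submodule.subset_span ⟨_, Tree.var _, ?_⟩
      intro x hx
      rw [Finset.mem_singleton] at hx
      subst hx; simp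
    · have : (Q (FreeMagma.of i) T : (ℕ → R) → R) = 0 := by
        funext y; rw [Q_of, if_neg h]; rfl
      rw [this]; exact Submodule.zero_mem _
  | ih2 a b iha ihb =>
    intro T hT
    have h2 : (a * b).length = a.length + b.length := rfl
    rw [h2] at hT
    have : (Q (a * b) T : (ℕ → R) → R) =
        ∑ p ∈ (T.powerset ×ˢ T.powerset).filter (fun p => p.1 ∪ p.2 = T),
          fun y => Q a p.1 y * Q b p.2 y := by
      funext y; rw [Q_mul, Finset.sum_apply]
    rw [this]
    refine Submodule.sum_mem _ ?_
    rintro ⟨p1, p2⟩ hp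
    simp only [Finset.mem_product, Finset.mem_powerset, Finset.mem_filter] at hp
    obtain ⟨_, hp⟩ := hp
    simp only
    by_cases ha : a.length < p1.card
    · convert Submodule.zero_mem _ using 1
      funext y; rw [Q_zero a y _ ha, zero_mul]; rfl
    · by_cases hb : b.length < p2.card
      · convert Submodule.zero_mem _ using 1
        funext y; rw [Q_zero b y _ hb, mul_zero]; rfl
      · have h3 : (p1 ∪ p2).card + (p1 ∩ p2).card = p1.card + p2.card :=
          Finset.card_union_add_card_inter _ _
        rw [hp] at h3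
        have h4 : (p1 ∩ p2).card = 0 := by omega
        have h5 : Disjoint p1 p2 := by
          rw [Finset.disjoint_iff_inter_eq_empty]
          exact Finset.card_eq_zero.1 h4
        exact SC_mul h5 hp (iha p1 (by omega)) (ihb p2 (by omega))

omit [IsScalarTower F R R] [SMulCommClass F R R] [Module F R] in
theorem Q_diag (w : FreeMagma ℕ) (x : ℕ → R) : ∀ T : Finset ℕ, w.length = T.card →
    Q w T (fun i => x i.unpair.1) = (T.card.factorial) • OctId.wv x w := by
  classical
  induction w using FreeMagma.recOnMul with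
  | ih1 i =>
    intro T hT
    have h1 : T.card = 1 := hT.symm
    rw [Q_of, if_pos h1, h1]
    obtain ⟨j, rfl⟩ := Finset.card_eq_one.1 h1
    simp
  | ih2 a b iha ihb =>
    intro T hT
    have h2 : (a * b).length = a.length + b.length := rfl
    rw [h2] at hT
    rw [Q_mul, OctId.wv_mul]
    have e : ∑ p ∈ (T.powerset ×ˢ T.powerset).filter (fun p => p.1 ∪ p.2 = T),
        Q a p.1 (fun i => x i.unpair.1) * Q b p.2 (fun i => x i.unpair.1) =
        ∑ T₁ ∈ T.powersetCard a.length, (a.length.factorial * b.length.factorial) •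
          (OctId.wv x a * OctId.wv x b) := by
      have e1 : ∑ T₁ ∈ T.powersetCard a.length, (a.length.factorial * b.length.factorial) •
          (OctId.wv x a * OctId.wv x b) = ∑ p ∈ (T.powersetCard a.length).image
            (fun T₁ => (T₁, T \ T₁)),
            Q a p.1 (fun i => x i.unpair.1) * Q b p.2 (fun i => x i.unpair.1) := by
        rw [Finset.sum_image]
        · refine Finset.sum_congr rfl fun T₁ hT₁ => ?_
          rw [Finset.mem_powersetCard] at hT₁
          have hc : (T \ T₁).card = b.length := by
            rw [Finset.card_sdiff_of_subset hT₁.1]; omega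
          simp only
          rw [iha T₁ hT₁.2.symm, ihb _ hc.symm, hc, hT₁.2, smul_mul_smul_comm]
        · intro T₁ _ T₂ _ h
          exact (Prod.mk.inj h).1
      rw [e1]
      symm
      refine Finset.sum_subset ?_ ?_
      · intro p hp
        rw [Finset.mem_image] at hp
        obtain ⟨T₁, hT₁, rfl⟩ := hp
        rw [Finset.mem_powersetCard] at hT₁
        simp only [Finset.mem_filter, Finset.mem_product, Finset.mem_powerset]
        exact ⟨⟨hT₁.1, Finset.sdiff_subset⟩, Finset.union_sdiff_of_subset hT₁.1⟩
      · rintro ⟨p1, p2⟩ hp hn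
        simp only [Finset.mem_filter, Finset.mem_product, Finset.mem_powerset] at hp
        obtain ⟨⟨hp1, hp2⟩, hp⟩ := hp
        have h3 : (p1 ∪ p2).card ≤ p1.card + p2.card := Finset.card_union_le _ _
        rw [hp] at h3
        simp only
        by_cases ha : a.length < p1.card
        · rw [Q_zero a _ _ ha, zero_mul]
        · by_cases hb : b.length < p2.card
          · rw [Q_zero b _ _ hb, mul_zero]
          · exfalso
            apply hn
            rw [Finset.mem_image]
            have h4 : (p1 ∪ p2).card + (p1 ∩ p2).card = p1.card + p2.card :=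
              Finset.card_union_add_card_inter _ _
            rw [hp] at h4
            refine ⟨p1, Finset.mem_powersetCard.2 ⟨hp1, by omega⟩, ?_⟩
            congr 1
            have h5 : p1 ∩ p2 = ∅ := Finset.card_eq_zero.1 (by omega)
            rw [← hp, Finset.union_sdiff_left]
            rw [Finset.sdiff_eq_self_iff_disjoint, Finset.disjoint_iff_inter_eq_empty,
              Finset.inter_comm]
            exact h5
    rw [e, Finset.sum_const, Finset.card_powersetCard, smul_smul]
    congr 1
    rw [← hT]
    have := Nat.choose_mul_factorial_mul_factorial (Nat.le_add_right a.length b.length)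
    rw [Nat.add_sub_cancel_left] at this
    rw [← this]; ring

end OctBasis
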