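import Mathlib
import Pool.Agent.Work.MP_9b6dd6_al.Basic
import Pool.Agent.Work.MP_9b6dd6_al.ZPol

/-! Expansion of elements of the free algebra into words; the top part of an identity. -/

namespace OctBasis

open OctId (Fr evalAt wv IsIdentity)

universe u

section expand
variable {F : Type u} [Field F]

theorem wv_X_single (w : FreeMagma ℕ) : wv (OctId.X F) w = MonoidAlgebra.single w (1 : F) := by
  induction w using FreeMagma.recOnMul with
  | ih1 i => rfl
  | ih2 a b iha ihb =>
    rw [OctId.wv_mul, iha, ihb, MonoidAlgebra.single_mul_single, one_mul]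

theorem exists_expand (f : Fr F) : ∃ (s : Finset (FreeMagma ℕ)) (c : FreeMagma ℕ → F),
    f = ∑ w ∈ s, c w • wv (OctId.X F) w := by
  refine ⟨f.coeff.support, f.coeff, ?_⟩
  apply MonoidAlgebra.coeff_injective
  rw [MonoidAlgebra.coeff_sum]
  conv_lhs => rw [← Finsupp.sum_single f.coeff]
  rw [Finsupp.sum]
  refine Finset.sum_congr rfl fun w _ => ?_
  rw [wv_X_single, MonoidAlgebra.coeff_smul, MonoidAlgebra.coeff_single, Finsupp.smul_single,
    smul_eq_mul, mul_one]

variable {A : Type*} [NonUnitalNonAssocRing A] [Module F A] [IsScalarTower F A A]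
    [SMulCommClass F A A]

theorem evalAt_sum (φ : ℕ → A) (s : Finset (FreeMagma ℕ)) (c : FreeMagma ℕ → F) :
    evalAt φ (∑ w ∈ s, c w • wv (OctId.X F) w) = ∑ w ∈ s, c w • wv φ w := by
  rw [map_sum]
  refine Finset.sum_congr rfl fun w _ => ?_
  rw [map_smul, OctId.evalAt_wv]

end expand

variable {F : Type u} [Field F] {R : Type u} [NonAssocRing R] [Module F R]
  [IsScalarTower F R R] [SMulCommClass F R R]
  {V : Type u} [AddCommGroup V] [Module F V] {cd : CrossData F V}

/-- If `Σ c w • w` vanishes on the octonions and all words have length at most `n`, then the part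
of length `n` vanishes on `R`. -/
theorem top_vanish [CharZero F] (hA : MalcevInj cd) (hV : OV F R) (oh : OctHom cd R)
    (hτ : oh.τ 1 = 1) (n : ℕ) (s : Finset (FreeMagma ℕ)) (c : FreeMagma ℕ → F)
    (hs : ∀ w ∈ s, w.length ≤ n)
    (h0 : ∀ y : ℕ → R, oh.τ (∑ w ∈ s, c w • wv y w) = 0 ∧ oh.π (∑ w ∈ s, c w • wv y w) = 0)
    (x : ℕ → R) : ∑ w ∈ s.filter (fun w => w.length = n), c w • wv x w = 0 := by
  classical
  -- the functions `Qf T`
  let Qf : Finset ℕ → (ℕ → R) → R := fun T y => ∑ w ∈ s, c w • Q w T y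
  have hQ : ∀ (T : Finset ℕ) (y : ℕ → R), ∑ w ∈ s, c w • wv (Sw T y) w =
      ∑ T' ∈ T.powerset, Qf T' y := by
    intro T y
    simp only [Qf]
    rw [Finset.sum_comm]
    refine Finset.sum_congr rfl fun w _ => ?_
    rw [Q_sum, Finset.smul_sum]
  have hQ0 : ∀ (k : ℕ) (T : Finset ℕ), T.card = k → ∀ y, oh.τ (Qf T y) = 0 ∧
      oh.π (Qf T y) = 0 := by
    intro k
    induction k using Nat.strong_induction_on with
    | _ k ih =>
      intro T hT y
      have h1 := hQ T y
      have h2 : ∑ T' ∈ T.powerset, Qf T' y = Qf T y + ∑ T' ∈ T.ssubsets, Qf T' y := by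
        rw [Finset.ssubsets, ← Finset.add_sum_erase _ _ (Finset.mem_powerset_self T)]
      rw [h2] at h1
      have h3 := h0 (Sw T y)
      rw [h1, map_add, map_add] at h3
      have h4 : ∀ T' ∈ T.ssubsets, oh.τ (Qf T' y) = 0 ∧ oh.π (Qf T' y) = 0 := by
        intro T' hT'
        rw [Finset.mem_ssubsets] at hT'
        exact ih T'.card (by rw [← hT]; exact Finset.card_lt_card hT') T' rfl y
      have h5 : oh.τ (∑ T' ∈ T.ssubsets, Qf T' y) = 0 := by
        rw [map_sum]; exact Finset.sum_eq_zero (fun T' hT' => (h4 T' hT').1)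
      have h6 : oh.π (∑ T' ∈ T.ssubsets, Qf T' y) = 0 := by
        rw [map_sum]; exact Finset.sum_eq_zero (fun T' hT' => (h4 T' hT').2)
      rw [h5, h6, add_zero, add_zero] at h3
      exact h3
  have hmem : Qf (Finset.range n) ∈ SM F R := by
    have e : Qf (Finset.range n) = ∑ w ∈ s, c w • (Q w (Finset.range n) : (ℕ → R) → R) := by
      funext y; simp only [Qf, Finset.sum_apply, Pi.smul_apply]
    rw [e]
    refine Submodule.sum_mem _ fun w hw => Submodule.smul_mem _ _ (SC_le_SM _ (Q_mem w _ ?_))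
    rw [Finset.card_range]; exact hs w hw
  have hz := SM_inj hA hV oh hτ hmem (fun y => hQ0 _ _ rfl y)
  have h5 := congrFun hz (fun i => x i.unpair.1)
  have h6 : Qf (Finset.range n) (fun i => x i.unpair.1) =
      (n.factorial : F) • ∑ w ∈ s.filter (fun w => w.length = n), c w • wv x w := by
    simp only [Qf]
    rw [Finset.smul_sum, ← Finset.sum_filter_add_sum_filter_not s (fun w => w.length = n)]
    rw [Finset.sum_eq_zero (s := s.filter (fun w => ¬ w.length = n)), add_zero]
    · refine Finset.sum_congr rfl fun w hw => ?_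
      rw [Finset.mem_filter] at hw
      rw [Q_diag w x _ (by rw [Finset.card_range]; exact hw.2), Finset.card_range,
        ← Nat.cast_smul_eq_nsmul F, smul_comm]
    · intro w hw
      rw [Finset.mem_filter] at hw
      have := hs w hw.1
      rw [Q_zero w _ _ (by rw [Finset.card_range]; omega), smul_zero]
  rw [h6] at h5
  have h7 : (n.factorial : F) ≠ 0 := by exact_mod_cast Nat.factorial_ne_zero n
  exact (smul_eq_zero.1 h5).resolve_left h7

end OctBasis
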