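import Mathlib
import Pool.Agent.Work.MP_9b6dd6_al.Basic
import Pool.Agent.Work.MP_9b6dd6_al.ZPol
import Pool.Agent.Work.MP_9b6dd6_al.ZTop
import Pool.Agent.Work.MP_9b6dd6_al.ZDefs

/-! In characteristic zero the identities of an algebra are determined by the multilinear ones;
all octonion algebras over `F` have the same identities. -/

namespace OctBasis

open OctId (Fr X evalAt wv IsIdentity tIdeal idOf MW)

universe u

section gen
variable {F : Type u} [Field F] {R : Type u} [NonAssocRing R] [Module F R]
  [IsScalarTower F R R] [SMulCommClass F R R]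
  {G H : Type u} [AddCommGroup G] [Module F G] [AddCommGroup H] [Module F H]
  (g : R →ₗ[F] G) (h : R →ₗ[F] H)

theorem SM_gen (hyp : ∀ (B : Finset ℕ) (u : (ℕ → R) → R), u ∈ ML (LinearMap.mul F R) B →
    (∀ y, g (u y) = 0) → ∀ y, h (u y) = 0) {u : (ℕ → R) → R} (hu : u ∈ SM F R)
    (h0 : ∀ y, g (u y) = 0) (y : ℕ → R) : h (u y) = 0 := by
  classical
  obtain ⟨s, v, h1, h2, rfl⟩ := SM_rep hu
  have key : ∀ (n : ℕ) (B : Finset ℕ), B.card = n → ∀ y, g (v B y) = 0 := by
    intro n
    induction n using Nat.strong_induction_on with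
    | _ n ih =>
      intro B hB y
      have h4 := h0 (fun i => if i ∈ B then y i else 0)
      rw [Finset.sum_apply, map_sum] at h4
      have h3 : ∀ B' ∈ s, B' ≠ B → g (v B' (fun i => if i ∈ B then y i else 0)) = 0 := by
        intro B' _ hne
        by_cases hsub : B' ⊆ B
        · have hlt : B'.card < n := by
            rw [← hB]
            exact Finset.card_lt_card (lt_of_le_of_ne hsub hne)
          exact ih _ hlt B' rfl _
        · obtain ⟨i, hi, hiB⟩ := Finset.not_subset.1 hsub
          rw [ML_zero_of (h1 B') hi (by simp [hiB]), map_zero]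
      by_cases hBs : B ∈ s
      · rw [Finset.sum_eq_single_of_mem B hBs h3] at h4
        rw [← h4]
        congr 1
        exact ML_dep (h1 B) (fun i hi => by simp [hi])
      · rw [h2 B hBs]; exact map_zero g
  rw [Finset.sum_apply, map_sum]
  exact Finset.sum_eq_zero fun B _ => hyp B (v B) (h1 B) (key _ B rfl) y

theorem top_gen [CharZero F] (hyp : ∀ (B : Finset ℕ) (u : (ℕ → R) → R),
    u ∈ ML (LinearMap.mul F R) B →
    (∀ y, g (u y) = 0) → ∀ y, h (u y) = 0)
    (n : ℕ) (s : Finset (FreeMagma ℕ)) (c : FreeMagma ℕ → F)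
    (hs : ∀ w ∈ s, w.length ≤ n) (h0 : ∀ y : ℕ → R, g (∑ w ∈ s, c w • wv y w) = 0)
    (x : ℕ → R) : h (∑ w ∈ s.filter (fun w => w.length = n), c w • wv x w) = 0 := by
  classical
  let Qf : Finset ℕ → (ℕ → R) → R := fun T y => ∑ w ∈ s, c w • Q w T y
  have hQ : ∀ (T : Finset ℕ) (y : ℕ → R), ∑ w ∈ s, c w • wv (Sw T y) w =
      ∑ T' ∈ T.powerset, Qf T' y := by
    intro T y
    simp only [Qf]
    rw [Finset.sum_comm]
    refine Finset.sum_congr rfl fun w _ => ?_
    rw [Q_sum, Finset.smul_sum]
  have hQ0 : ∀ (k : ℕ) (T : Finset ℕ), T.card = k → ∀ y, g (Qf T y) = 0 := by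
    intro k
    induction k using Nat.strong_induction_on with
    | _ k ih =>
      intro T hT y
      have h1 := hQ T y
      have h2 : ∑ T' ∈ T.powerset, Qf T' y = Qf T y + ∑ T' ∈ T.ssubsets, Qf T' y := by
        rw [Finset.ssubsets, ← Finset.add_sum_erase _ _ (Finset.mem_powerset_self T)]
      rw [h2] at h1
      have h3 := h0 (Sw T y)
      rw [h1, map_add] at h3
      have h5 : g (∑ T' ∈ T.ssubsets, Qf T' y) = 0 := by
        rw [map_sum]
        refine Finset.sum_eq_zero fun T' hT' => ?_
        rw [Finset.mem_ssubsets] at hT'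
        exact ih T'.card (by rw [← hT]; exact Finset.card_lt_card hT') T' rfl y
      rw [h5, add_zero] at h3
      exact h3
  have hmem : Qf (Finset.range n) ∈ SM F R := by
    have e : Qf (Finset.range n) = ∑ w ∈ s, c w • (Q w (Finset.range n) : (ℕ → R) → R) := by
      funext y; simp only [Qf, Finset.sum_apply, Pi.smul_apply]
    rw [e]
    refine Submodule.sum_mem _ fun w hw => Submodule.smul_mem _ _ (SC_le_SM _ (Q_mem w _ ?_))
    rw [Finset.card_range]; exact hs w hw
  have h5 := SM_gen g h hyp hmem (fun y => hQ0 _ _ rfl y) (fun i => x i.unpair.1)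
  have h6 : Qf (Finset.range n) (fun i => x i.unpair.1) =
      (n.factorial : F) • ∑ w ∈ s.filter (fun w => w.length = n), c w • wv x w := by
    simp only [Qf]
    rw [Finset.smul_sum, ← Finset.sum_filter_add_sum_filter_not s (fun w => w.length = n)]
    rw [Finset.sum_eq_zero (s := s.filter (fun w => ¬ w.length = n)), add_zero]
    · refine Finset.sum_congr rfl fun w hw => ?_
      rw [Finset.mem_filter] at hw
      rw [Q_diag w x _ (by rw [Finset.card_range]; exact hw.2), Finset.card_range,
        ← Nat.cast_smul_eq_nsmul F, smul_comm]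
    · intro w hw
      rw [Finset.mem_filter] at hw
      have := hs w hw.1
      rw [Q_zero w _ _ (by rw [Finset.card_range]; omega), smul_zero]
  rw [h6, map_smul] at h5
  have h7 : (n.factorial : F) ≠ 0 := by exact_mod_cast Nat.factorial_ne_zero n
  exact (smul_eq_zero.1 h5).resolve_left h7

theorem ML_words {B : Finset ℕ} {u : (ℕ → R) → R} (hu : u ∈ ML (LinearMap.mul F R) B) :
    ∃ (s : Finset (FreeMagma ℕ)) (c : FreeMagma ℕ → F), (∀ w ∈ s, MW B w) ∧
      (∀ w, w ∉ s → c w = 0) ∧ ∀ y, u y = ∑ w ∈ s, c w • wv y w := by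
  classical
  refine ML_ind (p := fun u => ∃ (s : Finset (FreeMagma ℕ)) (c : FreeMagma ℕ → F),
    (∀ w ∈ s, MW B w) ∧ (∀ w, w ∉ s → c w = 0) ∧ ∀ y, u y = ∑ w ∈ s, c w • wv y w)
    ?_ ?_ ?_ ?_ hu
  · intro u hu
    have : ∃ w, MW B w ∧ ∀ y : ℕ → R, wv y w = u y := by
      clear * - hu
      induction hu with
      | var i => exact ⟨_, MW.of i, fun y => rfl⟩
      | mul h hu hv ihu ihv =>
        obtain ⟨w, hw, h1⟩ := ihu
        obtain ⟨w', hw', h1'⟩ := ihv
        exact ⟨_, MW.mul hw hw' h, fun y => by rw [OctId.wv_mul, h1, h1']; rfl⟩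
    obtain ⟨w, hw, h1⟩ := this
    refine ⟨{w}, fun w' => if w' = w then 1 else 0, ?_, ?_, ?_⟩
    · intro w' hw'; rw [Finset.mem_singleton.1 hw']; exact hw
    · intro w' hw'
      rw [Finset.mem_singleton] at hw'
      simp [hw']
    · intro y; simp [h1]
  · rintro u v ⟨s, c, h1, h2, h3⟩ ⟨s', c', h1', h2', h3'⟩
    refine ⟨s ∪ s', fun w => c w + c' w, ?_, ?_, ?_⟩
    · intro w hw
      rw [Finset.mem_union] at hw
      exact hw.elim (h1 w) (h1' w)
    · intro w hw
      rw [Finset.mem_union] at hw
      push Not at hw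
      change c w + c' w = 0
      rw [h2 w hw.1, h2' w hw.2, add_zero]
    · intro y
      simp only [Pi.add_apply, add_smul]
      rw [Finset.sum_add_distrib, h3, h3']
      congr 1
      · exact Finset.sum_subset Finset.subset_union_left
          (fun w _ hw => by rw [h2 w hw, zero_smul])
      · exact Finset.sum_subset Finset.subset_union_right
          (fun w _ hw => by rw [h2' w hw, zero_smul])
  · rintro k u ⟨s, c, h1, h2, h3⟩
    refine ⟨s, fun w => k * c w, h1, fun w hw => by
      change k * c w = 0
      rw [h2 w hw, mul_zero], ?_⟩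
    intro y
    simp only [Pi.smul_apply, h3, Finset.smul_sum, smul_smul]
  · exact ⟨∅, fun _ => 0, by simp, fun _ _ => rfl, by simp⟩

end gen

section transfer
variable {F : Type u} [Field F] [CharZero F] {A A' : Type u} [NonAssocRing A] [Module F A]
  [IsScalarTower F A A] [SMulCommClass F A A] [NonAssocRing A'] [Module F A']
  [IsScalarTower F A' A'] [SMulCommClass F A' A']

theorem idOf_le (hyp : ∀ (B : Finset ℕ) (s : Finset (FreeMagma ℕ)) (c : FreeMagma ℕ → F),
    (∀ w ∈ s, MW B w) → (∀ y : ℕ → A, ∑ w ∈ s, c w • wv y w = 0) →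
    ∀ y : ℕ → A', ∑ w ∈ s, c w • wv y w = 0) : idOf F A ≤ idOf F A' := by
  have hyp' : ∀ (B : Finset ℕ) (u : (ℕ → A × A') → A × A'),
      u ∈ ML (LinearMap.mul F (A × A')) B →
      (∀ y, LinearMap.fst F A A' (u y) = 0) → ∀ y, LinearMap.snd F A A' (u y) = 0 := by
    intro B u hu h0 y
    obtain ⟨s, c, h1, _, h3⟩ := ML_words hu
    have h4 : ∀ y : ℕ → A, ∑ w ∈ s, c w • wv y w = 0 := by
      intro y
      have h5 := h0 (fun i => (y i, 0))
      rw [h3, map_sum] at h5
      rw [← h5]
      refine Finset.sum_congr rfl fun w _ => ?_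
      rw [map_smul]
      congr 1
      symm
      exact OctId.map_wv (NonUnitalAlgHom.fst F A A') (fun i => (y i, (0 : A'))) w
    have h6 := hyp B s c h1 h4 (fun i => (y i).2)
    rw [h3, map_sum, ← h6]
    refine Finset.sum_congr rfl fun w _ => ?_
    rw [map_smul]
    congr 1
    exact OctId.map_wv (NonUnitalAlgHom.snd F A A') y w
  have main : ∀ (n : ℕ) (s : Finset (FreeMagma ℕ)) (c : FreeMagma ℕ → F),
      (∀ w ∈ s, w.length ≤ n) → (∀ y : ℕ → A, ∑ w ∈ s, c w • wv y w = 0) →
      ∀ y : ℕ → A', ∑ w ∈ s, c w • wv y w = 0 := by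
    intro n
    induction n with
    | zero =>
      intro s c hs _ y
      have : s = ∅ := by
        rw [Finset.eq_empty_iff_forall_notMem]
        intro w hw
        have h1 := hs w hw
        have h2 := FreeMagma.length_pos w
        omega
      rw [this, Finset.sum_empty]
    | succ n ih =>
      intro s c hs h0 y
      have h1 : ∀ y : ℕ → A × A', LinearMap.fst F A A' (∑ w ∈ s, c w • wv y w) = 0 := by
        intro y
        rw [map_sum, ← h0 (fun i => (y i).1)]
        refine Finset.sum_congr rfl fun w _ => ?_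
        rw [map_smul]
        congr 1
        exact OctId.map_wv (NonUnitalAlgHom.fst F A A') y w
      -- top part vanishes on `A'`
      have h2 := top_gen (LinearMap.fst F A A') (LinearMap.snd F A A') hyp' (n + 1) s c hs h1
      -- top part vanishes on `A` as well
      have h3 := top_gen (LinearMap.fst F A A') (LinearMap.fst F A A')
        (fun _ _ _ h => h) (n + 1) s c hs h1
      have e1 : ∀ y : ℕ → A', ∑ w ∈ s.filter (fun w => w.length = n + 1), c w • wv y w = 0 := by
        intro y
        have := h2 (fun i => (0, y i))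
        rw [map_sum] at this
        rw [← this]
        refine Finset.sum_congr rfl fun w _ => ?_
        rw [map_smul]
        congr 1
        symm
        exact OctId.map_wv (NonUnitalAlgHom.snd F A A') (fun i => ((0 : A), y i)) w
      have e2 : ∀ y : ℕ → A, ∑ w ∈ s.filter (fun w => w.length = n + 1), c w • wv y w = 0 := by
        intro y
        have := h3 (fun i => (y i, 0))
        rw [map_sum] at this
        rw [← this]
        refine Finset.sum_congr rfl fun w _ => ?_
        rw [map_smul]
        congr 1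
        symm
        exact OctId.map_wv (NonUnitalAlgHom.fst F A A') (fun i => (y i, (0 : A'))) w
      rw [← Finset.sum_filter_add_sum_filter_not s (fun w => w.length = n + 1), e1, zero_add]
      refine ih _ c ?_ ?_ y
      · intro w hw
        rw [Finset.mem_filter] at hw
        have := hs w hw.1
        omega
      · intro y
        have := h0 y
        rw [← Finset.sum_filter_add_sum_filter_not s (fun w => w.length = n + 1), e2,
          zero_add] at this
        exact this
  intro f hf φ
  obtain ⟨s, c, rfl⟩ := exists_expand f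
  rw [evalAt_sum]
  refine main (s.sup FreeMagma.length) s c
    (fun w hw => Finset.le_sup (f := FreeMagma.length) hw) (fun y => ?_) φ
  rw [← evalAt_sum]
  exact hf y

end transfer

end OctBasis
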