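import Mathlib
import Pool.Agent.Work.MP_9b6dd6_al.ZOV
import Pool.Agent.Work.MP_9b6dd6_al.ZZ

/-! The octonions satisfy the identities of the list. -/

namespace OctBasis

universe u

section maps
variable {F : Type*} [Field F] {N N' : Type*} [AddCommGroup N] [Module F N] [AddCommGroup N']
  [Module F N'] {m : N →ₗ[F] N →ₗ[F] N} {m' : N' →ₗ[F] N' →ₗ[F] N'} (p : N →ₗ[F] N')
  (hp : ∀ x y, p (m x y) = m' (p x) (p y))
include hp

theorem map_Dop (a b c : N) : p (Dop m a b c) = Dop m' (p a) (p b) (p c) := by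
  simp [Dop, hp]

theorem map_Oop (a b c d : N) : p (Oop m a b c d) = Oop m' (p a) (p b) (p c) (p d) := by
  simp [Oop, hp, map_Dop p hp]

theorem map_Eop (a b c d : N) : p (Eop m a b c d) = Eop m' (p a) (p b) (p c) (p d) := by
  simp [Eop, map_Oop p hp]

end maps

variable {F : Type u} [Field F] {V : Type u} [AddCommGroup V] [Module F V]

theorem CrossData.E_eq [CharZero F] (cd : CrossData F V) (a b c d : V) :
    Eop cd.cr a b c d = cd.ip a b • cd.cr c d := by
  have hO : ∀ a b c d : V, Oop cd.cr a b c d = cd.ip a c • cd.cr b d + cd.ip b c • cd.cr a d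
      - (2 * cd.ip a b) • cd.cr c d - (cd.ip a d • cd.cr b c + cd.ip b d • cd.cr a c
      - (2 * cd.ip a b) • cd.cr d c) := by
    intro a b c d
    simp only [Oop, Dop, cd.ccr, map_add, map_sub, map_smul, LinearMap.add_apply,
      LinearMap.sub_apply, LinearMap.smul_apply]
  simp only [Eop, hO]
  rw [cd.anti d c, cd.anti b c, cd.anti d b, cd.anti b a, cd.anti c a, cd.anti d a,
    cd.symm b a, cd.symm c a, cd.symm d a, cd.symm c b, cd.symm d b, cd.symm d c]
  module

theorem CrossData.self [CharZero F] (cd : CrossData F V) (a : V) : cd.cr a a = 0 := by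
  have := cd.anti a a
  have h2 : (2 : F) • cd.cr a a = 0 := by
    rw [two_smul]; nth_rewrite 1 [this]; exact neg_add_cancel _
  exact (smul_eq_zero.1 h2).resolve_left two_ne_zero

theorem CrossData.aab [CharZero F] (cd : CrossData F V) (a b : V) :
    cd.cr a (cd.cr a b) = cd.ip a b • a - cd.ip a a • b := by
  have h := cd.ccr a a b
  have h2 : (2 : F) • cd.cr a (cd.cr a b) = (2 : F) • (cd.ip a b • a - cd.ip a a • b) := by
    linear_combination (norm := module) h
  have h3 := congrArg (fun v => (2 : F)⁻¹ • v) h2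
  simpa [smul_smul] using h3

variable {cd : CrossData F V} {R : Type u} [NonUnitalNonAssocRing R] [Module F R]
  [IsScalarTower F R R] [SMulCommClass F R R]

omit [IsScalarTower F R R] [SMulCommClass F R R] in
theorem OctHom.isAlt [CharZero F] (oh : OctHom cd R)
    (hinj : ∀ x, oh.τ x = 0 → oh.π x = 0 → x = 0) : IsAlt R := by
  have ext : ∀ x y : R, oh.τ x = oh.τ y → oh.π x = oh.π y → x = y := by
    intro x y h1 h2
    have := hinj (x - y) (by rw [map_sub, h1, sub_self]) (by rw [map_sub, h2, sub_self])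
    exact sub_eq_zero.1 this
  constructor
  · intro x y
    apply ext
    · simp only [oh.τmul, oh.πmul, map_add, map_smul, LinearMap.add_apply, LinearMap.smul_apply,
        smul_eq_mul]
      have h1 : cd.ip (oh.π x) (cd.cr (oh.π x) (oh.π y)) = 0 := by
        rw [← cd.inv, cd.self]; simp
      rw [h1, cd.self]
      simp
      ring
    · simp only [oh.τmul, oh.πmul, map_add, map_smul, LinearMap.add_apply, LinearMap.smul_apply,
        cd.self, cd.aab, smul_add, smul_sub]
      simp only [map_zero, LinearMap.zero_apply]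
      module
  · intro x y
    apply ext
    · simp only [oh.τmul, oh.πmul, map_add, map_smul, LinearMap.add_apply, LinearMap.smul_apply,
        smul_eq_mul]
      have h1 : cd.ip (cd.cr (oh.π y) (oh.π x)) (oh.π x) = 0 := by
        rw [cd.inv, cd.self]; simp
      rw [h1, cd.self]
      simp
      ring
    · have h3 : cd.cr (cd.cr (oh.π y) (oh.π x)) (oh.π x) =
          cd.ip (oh.π x) (oh.π y) • oh.π x - cd.ip (oh.π x) (oh.π x) • oh.π y := by
        rw [cd.anti (cd.cr (oh.π y) (oh.π x)), cd.anti (oh.π y), map_neg, neg_neg, cd.aab]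
      simp only [oh.τmul, oh.πmul, map_add, map_smul, LinearMap.add_apply, LinearMap.smul_apply,
        cd.self, h3, smul_add, smul_sub, cd.symm (oh.π y) (oh.π x)]
      simp only [map_zero]
      module

theorem OctHom.ov [CharZero F] (oh : OctHom cd R)
    (hinj : ∀ x, oh.τ x = 0 → oh.π x = 0 → x = 0) : OV F R := by
  have ext : ∀ x y : R, oh.τ x = oh.τ y → oh.π x = oh.π y → x = y := by
    intro x y h1 h2
    have := hinj (x - y) (by rw [map_sub, h1, sub_self]) (by rw [map_sub, h2, sub_self])
    exact sub_eq_zero.1 this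
  have hE : ∀ a b c d : R, oh.π (Eop (br F) a b c d) =
      cd.ip (oh.π a) (oh.π b) • cd.cr (oh.π c) (oh.π d) := by
    intro a b c d
    rw [map_Eop (m' := cd.cr) oh.π oh.π_br, cd.E_eq]
  have hτE : ∀ a b c d : R, oh.τ (Eop (br F) a b c d) = 0 := by
    intro a b c d
    simp [Eop, Oop, oh.τ_br]
  have hτD : ∀ a b c : R, oh.τ (Dop (br F) a b c) = 0 := by
    intro a b c
    simp [Dop, oh.τ_br]
  have hπD : ∀ a b c : R, oh.π (Dop (br F) a b c) = Dop cd.cr (oh.π a) (oh.π b) (oh.π c) :=
    map_Dop (m' := cd.cr) oh.π oh.π_br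
  have hτO : ∀ e a b c d : R, oh.τ (OopZ F e a b c d) =
      - cd.ip (Oop cd.cr (oh.π a) (oh.π b) (oh.π c) (oh.π d)) (oh.π e) := by
    intro e a b c d
    simp only [OopZ, Oop, map_sub, oh.τ_jo, oh.τ_br, hτD, oh.π_br, hπD, LinearMap.sub_apply,
      cd.inv]
    ring
  have hπO : ∀ e a b c d : R, oh.π (OopZ F e a b c d) = 0 := by
    intro e a b c d
    simp only [OopZ, map_sub, oh.π_jo, oh.τ_br, hτD, zero_smul, add_zero, sub_self]
  have hτEZ : ∀ e a b c d : R, oh.τ (EopZ F e a b c d) =
      - cd.ip (cd.ip (oh.π a) (oh.π b) • cd.cr (oh.π c) (oh.π d)) (oh.π e) := by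
    intro e a b c d
    rw [← cd.E_eq]
    simp only [EopZ, Eop, map_neg, map_smul, map_add, hτO, LinearMap.neg_apply,
      LinearMap.smul_apply, LinearMap.add_apply, smul_eq_mul]
    ring
  have hπEZ : ∀ e a b c d : R, oh.π (EopZ F e a b c d) = 0 := by
    intro e a b c d
    simp only [EopZ, map_neg, map_smul, map_add, hπO, smul_zero, add_zero, neg_zero]
  have hA := oh.isAlt hinj
  exact
    { toIsAlt := hA
      z1 := by
        intro a b c d w
        apply ext
        · rw [oh.τ_br, map_zero]
        · rw [oh.π_br, oh.π_jo, oh.τ_br, oh.τ_br]; simp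
      z2 := by
        intro a b c d e f
        apply ext
        · rw [map_neg, hτE, neg_zero, oh.τ_jo, oh.τ_br, oh.π_jo, oh.τ_br, oh.τ_br]; simp
        · rw [map_neg, hE, oh.π_jo, oh.τ_br, oh.π_jo, oh.τ_jo, oh.τ_br, oh.τ_br]
          simp [oh.π_br]
      eb := by
        intro a b c d e
        apply ext
        · rw [hτE, oh.τ_br]
        · simp only [hE, oh.π_br, map_smul, LinearMap.smul_apply] }

end OctBasis
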