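import Mathlib
import Pool.Agent.Work.MP_9b6dd6_al.VFacts
import Pool.Agent.Work.MP_9b6dd6_al.ZDefs
import Pool.Agent.Work.MP_9b6dd6_al.ZThmA
import Pool.Agent.Work.MP_9b6dd6_al.ZOVC

/-! The standard octonions as `F × V`. -/

namespace OctBasis

universe u

variable {F : Type u} [Field F]

theorem cj_base (x : F) : cj F x = x := rfl

/-- scalar part -/
def reO (a b c : F) : Oct a b c →ₗ[F] F where
  toFun x := x.fst.fst.fst
  map_add' _ _ := rfl
  map_smul' _ _ := rfl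

/-- vector part, in the basis used for the cross product -/
def imO : Oct (-1 : F) (-1) (-1) →ₗ[F] OctId.V F where
  toFun x := (![x.fst.fst.snd, x.fst.snd.fst, x.snd.fst.fst, x.fst.snd.snd,
    x.snd.snd.fst, -x.snd.snd.snd, x.snd.fst.snd] : Fin 7 → F)
  map_add' x y := by
    apply OctId.V.vext; intro k
    rw [OctId.V.add_apply]
    fin_cases k <;> simp <;> ring
  map_smul' t x := by
    apply OctId.V.vext; intro k
    rw [OctId.V.smul_apply]
    fin_cases k <;> simp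

theorem imO_apply (x : Oct (-1 : F) (-1) (-1)) (k : Fin 7) :
    imO x k = (![x.fst.fst.snd, x.fst.snd.fst, x.snd.fst.fst, x.fst.snd.snd,
    x.snd.snd.fst, -x.snd.snd.snd, x.snd.fst.snd] : Fin 7 → F) k := rfl

noncomputable def ohO : OctHom (cdV F) (Oct (-1 : F) (-1) (-1)) where
  τ := reO _ _ _
  π := imO
  τmul x y := by
    change (x * y).fst.fst.fst = x.fst.fst.fst * y.fst.fst.fst - OctId.V.ip (imO x) (imO y)
    simp only [OctId.V.ip, Fin.sum_univ_seven, imO_apply, Dbl.fst_mul, Dbl.snd_mul, Dbl.fst_add,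
      Dbl.fst_smul, Dbl.conj_fst, Dbl.conj_snd, cj_base, smul_eq_mul, Dbl.fst_neg, Dbl.snd_neg]
    simp
    ring
  πmul x y := by
    apply OctId.V.vext; intro k
    rw [OctId.V.add_apply, OctId.V.add_apply, OctId.V.smul_apply, OctId.V.smul_apply]
    change imO (x * y) k = x.fst.fst.fst * imO y k + y.fst.fst.fst * imO x k + (imO x * imO y) k
    rw [OctId.V.mul_apply]
    simp only [imO_apply, Dbl.fst_mul, Dbl.snd_mul, Dbl.fst_add, Dbl.snd_add,
      Dbl.fst_smul, Dbl.snd_smul, Dbl.conj_fst, Dbl.conj_snd, cj_base, smul_eq_mul, Dbl.fst_neg,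
      Dbl.snd_neg, map_add, map_neg, map_smul]
    fin_cases k <;> simp <;> ring
  surj v := by
    refine ⟨⟨⟨⟨0, v 0⟩, ⟨v 1, v 3⟩⟩, ⟨⟨v 2, v 6⟩, ⟨v 4, -v 5⟩⟩⟩, ?_⟩
    apply OctId.V.vext; intro k
    fin_cases k <;> simp [imO_apply]

theorem ohO_inj (x : Oct (-1 : F) (-1) (-1)) (h1 : (ohO (F := F)).τ x = 0)
    (h2 : (ohO (F := F)).π x = 0) : x = 0 := by
  have h1' : x.fst.fst.fst = 0 := h1
  have h3 : ∀ k, imO x k = 0 := fun k => congrFun h2 k
  have e0 := h3 0
  have e1 := h3 1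
  have e2 := h3 2
  have e3 := h3 3
  have e4 := h3 4
  have e5 := h3 5
  have e6 := h3 6
  simp [imO_apply] at e0 e1 e2 e3 e4 e5 e6
  ext <;> simp [*]

theorem ohO_one : (ohO (F := F)).τ 1 = 1 := rfl

theorem OV_oct [CharZero F] : OV F (Oct (-1 : F) (-1) (-1)) := ohO.ov ohO_inj

end OctBasis
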