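import Mathlib
import Pool.Agent.Work.MP_9b6dd6_al.ZGen
import Pool.Agent.Work.MP_9b6dd6_al.ZOct

/-! All octonion algebras over `F` have the same identities. -/

namespace OctBasis

open OctId (Fr X evalAt wv IsIdentity tIdeal idOf MW)

universe u

section lin
variable {K : Type u} [Field K] {T : Type u} [NonAssocRing T] [Module K T]
  [IsScalarTower K T T] [SMulCommClass K T T]

theorem wv_update_add {B : Finset ℕ} {w : FreeMagma ℕ} (hw : MW B w) {i : ℕ} (hi : i ∈ B)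
    (y : ℕ → T) (a b : T) : wv (Function.update y i (a + b)) w =
      wv (Function.update y i a) w + wv (Function.update y i b) w := by
  induction hw with
  | of j =>
    rw [Finset.mem_singleton] at hi
    subst hi; simp
  | @mul B₁ B₂ w₁ w₂ h1 h2 hd ih1 ih2 =>
    rw [OctId.wv_mul, OctId.wv_mul, OctId.wv_mul]
    rw [Finset.mem_union] at hi
    rcases hi with hi | hi
    · have hn : i ∉ B₂ := Finset.disjoint_left.1 hd hi
      have e : ∀ c : T, wv (Function.update y i c) w₂ = wv y w₂ := fun c =>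
        OctId.wv_congr h2 (fun j hj => by
          rw [Function.update_of_ne]; rintro rfl; exact hn hj)
      rw [ih1 hi, e, e, e, add_mul]
    · have hn : i ∉ B₁ := fun h => Finset.disjoint_left.1 hd h hi
      have e : ∀ c : T, wv (Function.update y i c) w₁ = wv y w₁ := fun c =>
        OctId.wv_congr h1 (fun j hj => by
          rw [Function.update_of_ne]; rintro rfl; exact hn hj)
      rw [ih2 hi, e, e, e, mul_add]

theorem wv_update_smul {B : Finset ℕ} {w : FreeMagma ℕ} (hw : MW B w) {i : ℕ} (hi : i ∈ B)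
    (y : ℕ → T) (k : K) (a : T) : wv (Function.update y i (k • a)) w =
      k • wv (Function.update y i a) w := by
  induction hw with
  | of j =>
    rw [Finset.mem_singleton] at hi
    subst hi; simp
  | @mul B₁ B₂ w₁ w₂ h1 h2 hd ih1 ih2 =>
    rw [OctId.wv_mul, OctId.wv_mul]
    rw [Finset.mem_union] at hi
    rcases hi with hi | hi
    · have hn : i ∉ B₂ := Finset.disjoint_left.1 hd hi
      have e : ∀ c : T, wv (Function.update y i c) w₂ = wv y w₂ := fun c =>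
        OctId.wv_congr h2 (fun j hj => by
          rw [Function.update_of_ne]; rintro rfl; exact hn hj)
      rw [ih1 hi, e, e, smul_mul_assoc]
    · have hn : i ∉ B₁ := fun h => Finset.disjoint_left.1 hd h hi
      have e : ∀ c : T, wv (Function.update y i c) w₁ = wv y w₁ := fun c =>
        OctId.wv_congr h1 (fun j hj => by
          rw [Function.update_of_ne]; rintro rfl; exact hn hj)
      rw [ih2 hi, e, e, mul_smul_comm]

/-- A multilinear combination vanishing on a spanning set vanishes. -/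
theorem span_vanish {B : Finset ℕ} (s : Finset (FreeMagma ℕ)) (c : FreeMagma ℕ → K)
    (hs : ∀ w ∈ s, MW B w) (P : Set T) (hP : Submodule.span K P = ⊤)
    (h0 : ∀ y : ℕ → T, (∀ i ∈ B, y i ∈ P) → ∑ w ∈ s, c w • wv y w = 0) (y : ℕ → T) :
    ∑ w ∈ s, c w • wv y w = 0 := by
  classical
  have key : ∀ S : Finset ℕ, S ⊆ B → ∀ y : ℕ → T, (∀ i ∈ B, i ∉ S → y i ∈ P) →
      ∑ w ∈ s, c w • wv y w = 0 := by
    intro S
    induction S using Finset.induction_on with
    | empty => intro _ y hy; exact h0 y (fun i hi => hy i hi (by simp))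
    | insert i S hiS ih =>
      intro hSB y hy
      have hiB : i ∈ B := hSB (Finset.mem_insert_self _ _)
      have hm : y i ∈ Submodule.span K P := by rw [hP]; trivial
      have : ∀ t ∈ Submodule.span K P, ∑ w ∈ s, c w • wv (Function.update y i t) w = 0 := by
        intro t ht
        induction ht using Submodule.span_induction with
        | mem t ht =>
          refine ih (fun j hj => hSB (Finset.mem_insert_of_mem hj)) _ (fun j hj hjS => ?_)
          by_cases hji : j = i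
          · subst hji; rw [Function.update_self]; exact ht
          · rw [Function.update_of_ne hji]
            exact hy j hj (fun h => (Finset.mem_insert.1 h).elim hji hjS)
        | zero =>
          have : ∀ w ∈ s, c w • wv (Function.update y i (0 : T)) w = 0 := by
            intro w hw
            have h1 := wv_update_smul (hs w hw) hiB y (0 : K) (0 : T)
            rw [zero_smul, zero_smul] at h1
            rw [h1, smul_zero]
          exact Finset.sum_eq_zero this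
        | add a b _ _ ha hb =>
          rw [← add_zero (0 : T)]
          nth_rewrite 1 [← ha]
          rw [← hb, ← Finset.sum_add_distrib]
          refine Finset.sum_congr rfl fun w hw => ?_
          rw [wv_update_add (hs w hw) hiB, smul_add]
        | smul k a _ ha =>
          rw [← smul_zero k, ← ha, Finset.smul_sum]
          refine Finset.sum_congr rfl fun w hw => ?_
          rw [wv_update_smul (hs w hw) hiB, smul_comm]
      have h2 := this (y i) hm
      rwa [Function.update_eq_self] at h2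
  exact key B (Finset.Subset.refl _) y (fun i hi hn => absurd hi hn)

end lin

section ext
variable {F K : Type u} [Field F] [Field K] (j : F →+* K) {A T : Type u} [NonAssocRing A]
  [Module F A] [NonAssocRing T] [Module K T] [IsScalarTower K T T] [SMulCommClass K T T]

theorem wv_map (p : A →+ T) (hm : ∀ x y, p (x * y) = p x * p y) (y : ℕ → A)
    (w : FreeMagma ℕ) : p (wv y w) = wv (fun i => p (y i)) w := by
  induction w using FreeMagma.recOnMul with
  | ih1 i => rfl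
  | ih2 a b ha hb => rw [OctId.wv_mul, OctId.wv_mul, hm, ha, hb]

/-- multilinear identities can be tested on an `F`-form. -/
theorem form_iff (p : A →+ T) (hm : ∀ x y, p (x * y) = p x * p y)
    (hsm : ∀ (c : F) x, p (c • x) = j c • p x) (hinj : Function.Injective p)
    (hspan : Submodule.span K (Set.range p) = ⊤) {B : Finset ℕ} (s : Finset (FreeMagma ℕ))
    (c : FreeMagma ℕ → F) (hs : ∀ w ∈ s, MW B w) :
    (∀ y : ℕ → A, ∑ w ∈ s, c w • wv y w = 0) ↔
    ∀ y : ℕ → T, ∑ w ∈ s, j (c w) • wv y w = 0 := by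
  have h1 : ∀ y : ℕ → A, p (∑ w ∈ s, c w • wv y w) =
      ∑ w ∈ s, j (c w) • wv (fun i => p (y i)) w := by
    intro y
    rw [map_sum]
    refine Finset.sum_congr rfl fun w _ => ?_
    rw [hsm, wv_map p hm]
  constructor
  · intro h0
    apply span_vanish s (fun w => j (c w)) hs (Set.range p) hspan
    intro y hy
    have : ∀ i, ∃ x : A, i ∈ B → p x = y i := by
      intro i
      by_cases hi : i ∈ B
      · obtain ⟨x, hx⟩ := hy i hi
        exact ⟨x, fun _ => hx⟩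
      · exact ⟨0, fun h => absurd h hi⟩
    choose x hx using this
    have h2 := h1 x
    rw [h0, map_zero] at h2
    rw [h2]
    refine Finset.sum_congr rfl fun w hw => ?_
    rw [OctId.wv_congr (hs w hw) (fun i hi => (hx i hi).symm)]
  · intro h0 y
    apply hinj
    rw [h1, h0, map_zero]

end ext

section oct
variable {F K : Type u} [Field F] [Field K] (j : F →+* K)

/-- the form embedding -/
def psi (a b c : F) (α β γ : K) : Oct a b c →+ Oct (-1 : K) (-1) (-1) where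
  toFun x := ⟨⟨⟨j x.fst.fst.fst, α * j x.fst.fst.snd⟩, ⟨β * j x.fst.snd.fst,
      α * β * j x.fst.snd.snd⟩⟩, ⟨⟨γ * j x.snd.fst.fst, α * γ * j x.snd.fst.snd⟩,
      ⟨β * γ * j x.snd.snd.fst, α * β * γ * j x.snd.snd.snd⟩⟩⟩
  map_zero' := by ext <;> simp
  map_add' x y := by ext <;> simp <;> ring

theorem psi_mul {a b c : F} {α β γ : K} (ha : j a = -α ^ 2) (hb : j b = -β ^ 2)
    (hc : j c = -γ ^ 2) (x y : Oct a b c) :
    psi j a b c α β γ (x * y) = psi j a b c α β γ x * psi j a b c α β γ y := by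
  change (⟨⟨⟨_, _⟩, ⟨_, _⟩⟩, ⟨⟨_, _⟩, ⟨_, _⟩⟩⟩ : Oct (-1 : K) (-1) (-1)) = ⟨⟨⟨_, _⟩, ⟨_, _⟩⟩, ⟨⟨_, _⟩, ⟨_, _⟩⟩⟩ * ⟨⟨⟨_, _⟩, ⟨_, _⟩⟩, ⟨⟨_, _⟩, ⟨_, _⟩⟩⟩
  ext <;>
  simp only [Dbl.fst_mul, Dbl.snd_mul, Dbl.fst_add, Dbl.snd_add, Dbl.fst_smul, Dbl.snd_smul,
    Dbl.conj_fst, Dbl.conj_snd, cj_base, smul_eq_mul, Dbl.fst_neg, Dbl.snd_neg, map_add, map_neg,
    map_mul, ha, hb, hc] <;> ring

theorem psi_smul {a b c : F} {α β γ : K} (k : F) (x : Oct a b c) :
    psi j a b c α β γ (k • x) = j k • psi j a b c α β γ x := by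
  change (⟨⟨⟨_, _⟩, ⟨_, _⟩⟩, ⟨⟨_, _⟩, ⟨_, _⟩⟩⟩ : Oct (-1 : K) (-1) (-1)) = j k • ⟨⟨⟨_, _⟩, ⟨_, _⟩⟩, ⟨⟨_, _⟩, ⟨_, _⟩⟩⟩
  ext <;> simp <;> ring

theorem psi_inj {a b c : F} {α β γ : K} (hα : α ≠ 0) (hβ : β ≠ 0) (hγ : γ ≠ 0) :
    Function.Injective (psi j a b c α β γ) := by
  rw [injective_iff_map_eq_zero]
  intro x hx
  have h0 := congrArg (fun z : Oct (-1 : K) (-1) (-1) => z.fst.fst.fst) hx
  have h1 := congrArg (fun z : Oct (-1 : K) (-1) (-1) => z.fst.fst.snd) hx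
  have h2 := congrArg (fun z : Oct (-1 : K) (-1) (-1) => z.fst.snd.fst) hx
  have h3 := congrArg (fun z : Oct (-1 : K) (-1) (-1) => z.fst.snd.snd) hx
  have h4 := congrArg (fun z : Oct (-1 : K) (-1) (-1) => z.snd.fst.fst) hx
  have h5 := congrArg (fun z : Oct (-1 : K) (-1) (-1) => z.snd.fst.snd) hx
  have h6 := congrArg (fun z : Oct (-1 : K) (-1) (-1) => z.snd.snd.fst) hx
  have h7 := congrArg (fun z : Oct (-1 : K) (-1) (-1) => z.snd.snd.snd) hx
  simp [psi, hα, hβ, hγ] at h0 h1 h2 h3 h4 h5 h6 h7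
  ext <;> simp [*]

theorem psi_span {a b c : F} {α β γ : K} (hα : α ≠ 0) (hβ : β ≠ 0) (hγ : γ ≠ 0) :
    Submodule.span K (Set.range (psi j a b c α β γ)) = ⊤ := by
  rw [eq_top_iff]
  intro z _
  have e : z = z.fst.fst.fst • psi j a b c α β γ ⟨⟨⟨1, 0⟩, ⟨0, 0⟩⟩, ⟨⟨0, 0⟩, ⟨0, 0⟩⟩⟩
      + (z.fst.fst.snd / α) • psi j a b c α β γ ⟨⟨⟨0, 1⟩, ⟨0, 0⟩⟩, ⟨⟨0, 0⟩, ⟨0, 0⟩⟩⟩
      + (z.fst.snd.fst / β) • psi j a b c α β γ ⟨⟨⟨0, 0⟩, ⟨1, 0⟩⟩, ⟨⟨0, 0⟩, ⟨0, 0⟩⟩⟩
      + (z.fst.snd.snd / (α * β)) • psi j a b c α β γ ⟨⟨⟨0, 0⟩, ⟨0, 1⟩⟩, ⟨⟨0, 0⟩, ⟨0, 0⟩⟩⟩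
      + (z.snd.fst.fst / γ) • psi j a b c α β γ ⟨⟨⟨0, 0⟩, ⟨0, 0⟩⟩, ⟨⟨1, 0⟩, ⟨0, 0⟩⟩⟩
      + (z.snd.fst.snd / (α * γ)) • psi j a b c α β γ ⟨⟨⟨0, 0⟩, ⟨0, 0⟩⟩, ⟨⟨0, 1⟩, ⟨0, 0⟩⟩⟩
      + (z.snd.snd.fst / (β * γ)) • psi j a b c α β γ ⟨⟨⟨0, 0⟩, ⟨0, 0⟩⟩, ⟨⟨0, 0⟩, ⟨1, 0⟩⟩⟩
      + (z.snd.snd.snd / (α * β * γ)) • psi j a b c α β γ
          ⟨⟨⟨0, 0⟩, ⟨0, 0⟩⟩, ⟨⟨0, 0⟩, ⟨0, 1⟩⟩⟩ := by
    ext <;> simp [psi] <;> field_simp
  rw [e]
  have hm : ∀ (k : K) (x : Oct a b c), k • psi j a b c α β γ x ∈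
      Submodule.span K (Set.range (psi j a b c α β γ)) := fun k x =>
    Submodule.smul_mem _ _ (Submodule.subset_span ⟨x, rfl⟩)
  exact Submodule.add_mem _ (Submodule.add_mem _ (Submodule.add_mem _ (Submodule.add_mem _
    (Submodule.add_mem _ (Submodule.add_mem _ (Submodule.add_mem _ (hm _ _) (hm _ _)) (hm _ _))
    (hm _ _)) (hm _ _)) (hm _ _)) (hm _ _)) (hm _ _)

end oct

section main
variable {F : Type u} [Field F] [CharZero F]

theorem exists_roots {a : F} (ha : a ≠ 0) : ∃ α : AlgebraicClosure F,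
    α ≠ 0 ∧ algebraMap F (AlgebraicClosure F) a = -α ^ 2 := by
  obtain ⟨α, hα⟩ := IsAlgClosed.exists_pow_nat_eq
    (-(algebraMap F (AlgebraicClosure F) a)) (n := 2) (by norm_num)
  refine ⟨α, ?_, by rw [hα, neg_neg]⟩
  rintro rfl
  rw [zero_pow two_ne_zero] at hα
  have := neg_eq_zero.1 hα.symm
  exact ha ((map_eq_zero _).1 this)

theorem oct_iff {a b c : F} (ha : a ≠ 0) (hb : b ≠ 0) (hc : c ≠ 0) {B : Finset ℕ}
    (s : Finset (FreeMagma ℕ)) (k : FreeMagma ℕ → F) (hs : ∀ w ∈ s, MW B w) :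
    (∀ y : ℕ → Oct a b c, ∑ w ∈ s, k w • wv y w = 0) ↔
    ∀ y : ℕ → Oct (-1 : AlgebraicClosure F) (-1) (-1),
      ∑ w ∈ s, (algebraMap F (AlgebraicClosure F) (k w)) • wv y w = 0 := by
  obtain ⟨α, h1, h1'⟩ := exists_roots ha
  obtain ⟨β, h2, h2'⟩ := exists_roots hb
  obtain ⟨γ, h3, h3'⟩ := exists_roots hc
  exact form_iff (algebraMap F (AlgebraicClosure F)) (psi _ a b c α β γ)
    (psi_mul _ h1' h2' h3') (psi_smul _) (psi_inj _ h1 h2 h3) (psi_span _ h1 h2 h3) s k hs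

/-- All octonion algebras over `F` have the same identities. -/
theorem idOf_oct_eq {a b c a' b' c' : F} (ha : a ≠ 0) (hb : b ≠ 0) (hc : c ≠ 0)
    (ha' : a' ≠ 0) (hb' : b' ≠ 0) (hc' : c' ≠ 0) :
    idOf F (Oct a b c) = idOf F (Oct a' b' c') := by
  apply le_antisymm
  · refine idOf_le (fun B s k hs h0 => ?_)
    rw [oct_iff ha' hb' hc' s k hs]
    rwa [oct_iff ha hb hc s k hs] at h0
  · refine idOf_le (fun B s k hs h0 => ?_)
    rw [oct_iff ha hb hc s k hs]
    rwa [oct_iff ha' hb' hc' s k hs] at h0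

end main

end OctBasis
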