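import Mathlib
import Pool.Agent.Work.MP_9b6dd6_al.Basic
import Pool.Agent.Work.MP_9b6dd6_al.ZOV
import Pool.Agent.Work.MP_9b6dd6_al.ZOVC

/-! The identities of the list for unital hulls and products. -/

namespace OctBasis

universe u

section homs
variable {F : Type u} [Field F] {A B : Type*} [NonUnitalNonAssocRing A] [Module F A]
  [IsScalarTower F A A] [SMulCommClass F A A] [NonUnitalNonAssocRing B] [Module F B]
  [IsScalarTower F B B] [SMulCommClass F B B] (g : A →ₙₐ[F] B)

theorem map_br (x y : A) : g (br F x y) = br F (g x) (g y) := by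
  simp only [br_def, map_smul, map_sub, map_mul]

theorem map_jo (x y : A) : g (jo F x y) = jo F (g x) (g y) := by
  simp only [jo_def, map_smul, map_add, map_mul]

theorem map_EopH (a b c d : A) : g (Eop (br F) a b c d) =
    Eop (br F) (g a) (g b) (g c) (g d) :=
  map_Eop (m' := br F) (OctId.homL g) (fun x y => map_br g x y) a b c d

theorem map_DopH (a b c : A) : g (Dop (br F) a b c) = Dop (br F) (g a) (g b) (g c) :=
  map_Dop (m' := br F) (OctId.homL g) (fun x y => map_br g x y) a b c

theorem map_OopZ (e a b c d : A) : g (OopZ F e a b c d) =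
    OopZ F (g e) (g a) (g b) (g c) (g d) := by
  simp only [OopZ, map_sub, map_jo, map_br, map_DopH]

theorem map_EopZ (e a b c d : A) : g (EopZ F e a b c d) =
    EopZ F (g e) (g a) (g b) (g c) (g d) := by
  simp only [EopZ, map_neg, map_smul, map_add, map_OopZ]

end homs

section pair
variable {F : Type u} [Field F] {A B C : Type*} [NonUnitalNonAssocRing A] [Module F A]
  [IsScalarTower F A A] [SMulCommClass F A A] [NonUnitalNonAssocRing B] [Module F B]
  [IsScalarTower F B B] [SMulCommClass F B B] [NonUnitalNonAssocRing C] [Module F C]
  [IsScalarTower F C C] [SMulCommClass F C C] (g : C →ₙₐ[F] A) (h : C →ₙₐ[F] B)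

theorem OV_of_pair (hA : OV F A) (hB : OV F B) (inj : ∀ x, g x = 0 → h x = 0 → x = 0) :
    OV F C := by
  have ext : ∀ x y : C, g x = g y → h x = h y → x = y := by
    intro x y h1 h2
    have := inj (x - y) (by rw [map_sub, h1, sub_self]) (by rw [map_sub, h2, sub_self])
    exact sub_eq_zero.1 this
  exact
    { altl := fun x y => ext _ _ (by simp only [map_mul]; exact hA.altl _ _)
        (by simp only [map_mul]; exact hB.altl _ _)
      altr := fun x y => ext _ _ (by simp only [map_mul]; exact hA.altr _ _)
        (by simp only [map_mul]; exact hB.altr _ _)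
      z1 := fun a b c d w => ext _ _ (by simp only [map_br, map_jo, map_zero]; exact hA.z1 _ _ _ _ _)
        (by simp only [map_br, map_jo, map_zero]; exact hB.z1 _ _ _ _ _)
      z2 := fun a b c d e f => ext _ _
        (by simp only [map_neg, map_br, map_jo, map_EopH]; exact hA.z2 _ _ _ _ _ _)
        (by simp only [map_neg, map_br, map_jo, map_EopH]; exact hB.z2 _ _ _ _ _ _)
      eb := fun a b c d e => ext _ _
        (by simp only [map_br, map_EopH]; exact hA.eb _ _ _ _ _)
        (by simp only [map_br, map_EopH]; exact hB.eb _ _ _ _ _) }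

end pair

section unit
variable {F : Type u} [Field F] {A : Type u} [NonUnitalNonAssocRing A] [Module F A]
  [IsScalarTower F A A] [SMulCommClass F A A]

theorem unitTower : IsScalarTower F (Unitization F A) (Unitization F A) :=
  ⟨by
    intro c x y
    refine Unitization.ext ?_ ?_
    · simp [mul_assoc]
    · simp only [smul_eq_mul, Unitization.snd_mul, Unitization.fst_smul, Unitization.snd_smul,
        smul_add, smul_mul_assoc, smul_smul]
      rw [mul_comm c y.fst]⟩

theorem unitComm : SMulCommClass F (Unitization F A) (Unitization F A) :=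
  ⟨by
    intro c x y
    refine Unitization.ext ?_ ?_
    · simp; ring
    · simp only [smul_eq_mul, Unitization.snd_mul, Unitization.fst_smul, Unitization.snd_smul,
        smul_add, mul_smul_comm, smul_smul]
      rw [mul_comm c x.fst]⟩

attribute [local instance] unitTower unitComm

variable (F A) in
/-- inclusion as a homomorphism -/
def inrH : A →ₙₐ[F] Unitization F A where
  toFun := Unitization.inr
  map_smul' c a := Unitization.inr_smul F c a
  map_zero' := Unitization.inr_zero F
  map_add' := Unitization.inr_add F
  map_mul' := Unitization.inr_mul F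

theorem br_unit (x y : Unitization F A) : br F x y = inrH F A (br F x.snd y.snd) := by
  rw [br_def, br_def]
  change _ = Unitization.inr _
  refine Unitization.ext ?_ ?_
  · rw [sub_eq_add_neg, Unitization.fst_smul, Unitization.fst_add, Unitization.fst_neg,
      Unitization.fst_mul, Unitization.fst_mul, Unitization.fst_inr, mul_comm x.fst,
      add_neg_cancel, smul_zero]
  · rw [sub_eq_add_neg, Unitization.snd_smul, Unitization.snd_add, Unitization.snd_neg,
      Unitization.snd_mul, Unitization.snd_mul, Unitization.snd_inr]
    congr 1
    abel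

theorem snd_inrH (a : A) : (inrH F A a).snd = a := Unitization.snd_inr F a

theorem altl_unit (h : IsAlt A) (x y : Unitization F A) : (x * x) * y = x * (x * y) := by
  refine Unitization.ext ?_ ?_
  · simp [mul_assoc]
  · simp only [Unitization.snd_mul, Unitization.fst_mul, smul_add, add_mul, mul_add,
      smul_mul_assoc, mul_smul_comm, h.altl]
    module

theorem altr_unit (h : IsAlt A) (x y : Unitization F A) : (y * x) * x = y * (x * x) := by
  refine Unitization.ext ?_ ?_
  · simp [mul_assoc]
  · simp only [Unitization.snd_mul, Unitization.fst_mul, smul_add, add_mul, mul_add,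
      smul_mul_assoc, mul_smul_comm, h.altr]
    module

theorem Dop_unit (x y z : Unitization F A) : Dop (br F) x y z =
    inrH F A (Dop (br F) x.snd y.snd z.snd) := by
  simp only [Dop, br_unit, snd_inrH, map_add]

theorem Oop_unit (x y z w : Unitization F A) : Oop (br F) x y z w =
    inrH F A (Oop (br F) x.snd y.snd z.snd w.snd) := by
  simp only [Oop, Dop_unit]
  rw [br_unit, br_unit, snd_inrH, snd_inrH, ← map_sub]

theorem Eop_unit (x y z w : Unitization F A) : Eop (br F) x y z w =
    inrH F A (Eop (br F) x.snd y.snd z.snd w.snd) := by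
  simp only [Eop, Oop_unit, map_neg, map_smul, map_add]

theorem OopZ_unit (e x y z w : Unitization F A) : OopZ F e x y z w =
    inrH F A (OopZ F e.snd x.snd y.snd z.snd w.snd) := by
  simp only [OopZ, Dop_unit, br_unit, map_sub, map_jo]

theorem EopZ_unit (e x y z w : Unitization F A) : EopZ F e x y z w =
    inrH F A (EopZ F e.snd x.snd y.snd z.snd w.snd) := by
  simp only [EopZ, OopZ_unit, map_neg, map_smul, map_add]

theorem OV_unit (h : OV F A) : OV F (Unitization F A) where
  altl := altl_unit h.toIsAlt
  altr := altr_unit h.toIsAlt
  z1 a b c d w := by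
    simp only [br_unit, ← map_jo, snd_inrH, h.z1, map_zero]
  z2 a b c d e f := by
    simp only [br_unit, ← map_jo, Eop_unit, snd_inrH, h.z2, map_neg]
  eb a b c d e := by
    simp only [br_unit, Eop_unit, snd_inrH, h.eb]

end unit

end OctBasis
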