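import Mathlib
import Pool.Agent.Work.MP_9b6dd6_al.Basic
import Pool.Agent.Work.MP_9b6dd6_al.ZOct
import Pool.Agent.Work.MP_9b6dd6_al.ZUnit
import Pool.Agent.Work.MP_9b6dd6_al.ZTop

/-! The basis of identities of the octonions, given Theorem A. -/

namespace OctBasis

open OctId (Fr X evalAt wv IsIdentity tIdeal idOf)

universe u

section list
variable (F : Type u) [Field F]

/-- The list of identities. -/
noncomputable def octB : Set (Fr F) :=
  {(X F 0 * X F 0) * X F 1 - X F 0 * (X F 0 * X F 1),
   (X F 1 * X F 0) * X F 0 - X F 1 * (X F 0 * X F 0),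
   br F (X F 4) (jo F (br F (X F 0) (X F 1)) (br F (X F 2) (X F 3))),
   jo F (jo F (br F (X F 0) (X F 1)) (br F (X F 2) (X F 3))) (br F (X F 4) (X F 5))
     + Eop (br F) (br F (X F 0) (X F 1)) (br F (X F 2) (X F 3)) (X F 4) (X F 5),
   Eop (br F) (X F 0) (X F 1) (br F (X F 2) (X F 3)) (X F 4)
     - br F (Eop (br F) (X F 0) (X F 1) (X F 2) (X F 3)) (X F 4)}

end list

section
variable {F : Type u} [Field F] {A : Type*} [NonUnitalNonAssocRing A] [Module F A]
  [IsScalarTower F A A] [SMulCommClass F A A]

theorem ident_of_OV (h : OV F A) : ∀ f ∈ octB F, IsIdentity A f := by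
  intro f hf φ
  rcases hf with rfl | rfl | rfl | rfl | rfl
  · simp only [map_sub, map_mul, OctId.evalAt_X]
    rw [h.altl, sub_self]
  · simp only [map_sub, map_mul, OctId.evalAt_X]
    rw [h.altr, sub_self]
  · rw [map_br, map_jo, map_br, map_br]
    exact h.z1 _ _ _ _ _
  · rw [map_add, map_jo, map_jo, map_EopH, map_br, map_br, map_br, h.z2]
    exact neg_add_cancel _
  · rw [map_sub, map_br, map_EopH, map_EopH, map_br, h.eb, sub_self]

/-- a point with given first coordinates -/
def pt (a b c d e f : A) : ℕ → A
  | 0 => a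
  | 1 => b
  | 2 => c
  | 3 => d
  | 4 => e
  | 5 => f
  | _ => 0

theorem OV_of_ident (h : ∀ f ∈ octB F, IsIdentity A f) : OV F A where
  altl x y := by
    have := h _ (Or.inl rfl) (pt x y 0 0 0 0)
    simp only [map_sub, map_mul, OctId.evalAt_X] at this
    exact sub_eq_zero.1 this
  altr x y := by
    have := h _ (Or.inr (Or.inl rfl)) (pt x y 0 0 0 0)
    simp only [map_sub, map_mul, OctId.evalAt_X] at this
    exact sub_eq_zero.1 this
  z1 a b c d w := by
    have := h _ (Or.inr (Or.inr (Or.inl rfl))) (pt a b c d w 0)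
    rw [map_br, map_jo, map_br, map_br] at this
    simp only [OctId.evalAt_X] at this
    exact this
  z2 a b c d e f := by
    have := h _ (Or.inr (Or.inr (Or.inr (Or.inl rfl)))) (pt a b c d e f)
    rw [map_add, map_jo, map_jo, map_EopH, map_br, map_br, map_br] at this
    simp only [OctId.evalAt_X] at this
    exact eq_neg_of_add_eq_zero_left this
  eb a b c d e := by
    have := h _ (Or.inr (Or.inr (Or.inr (Or.inr rfl)))) (pt a b c d e 0)
    rw [map_sub, map_br, map_EopH, map_EopH, map_br] at this
    simp only [OctId.evalAt_X] at this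
    exact sub_eq_zero.1 this

end

section final
variable {F : Type u} [Field F] [CharZero F]

attribute [local instance] unitTower unitComm

/-- the standard octonion algebra -/
abbrev O (F : Type u) [Field F] : Type u := Oct (-1 : F) (-1) (-1)

theorem OV_RF : OV F (OctId.RF (octB F)) :=
  OV_of_ident fun _ hf => OctId.RF.identity_of_mem (OctId.subset_tIdeal _ hf)

/-- unital hull times the octonions -/
abbrev Big (F : Type u) [Field F] : Type u := Unitization F (OctId.RF (octB F)) × O F

noncomputable def fstH : Big F →ₙₐ[F] Unitization F (OctId.RF (octB F)) :=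
  NonUnitalAlgHom.fst F _ _

noncomputable def sndH : Big F →ₙₐ[F] O F := NonUnitalAlgHom.snd F _ _

theorem OV_Big : OV F (Big F) :=
  OV_of_pair fstH sndH (OV_unit OV_RF) OV_oct (fun _ h1 h2 => Prod.ext h1 h2)

/-- the homomorphism onto the octonions -/
noncomputable def ohBig : OctHom (cdV F) (Big F) where
  τ := ohO.τ ∘ₗ LinearMap.snd F _ _
  π := ohO.π ∘ₗ LinearMap.snd F _ _
  τmul x y := ohO.τmul x.2 y.2
  πmul x y := ohO.πmul x.2 y.2
  surj v := by
    obtain ⟨x, hx⟩ := (ohO (F := F)).surj v
    exact ⟨(0, x), hx⟩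

theorem main_le (hA : MalcevInj (cdV F)) (n : ℕ) : ∀ (s : Finset (FreeMagma ℕ))
    (c : FreeMagma ℕ → F), (∀ w ∈ s, w.length ≤ n) →
    IsIdentity (O F) (∑ w ∈ s, c w • wv (X F) w) →
    (∑ w ∈ s, c w • wv (X F) w) ∈ tIdeal (octB F) := by
  induction n with
  | zero =>
    intro s c hs _
    have : s = ∅ := by
      rw [Finset.eq_empty_iff_forall_notMem]
      intro w hw
      have h1 := hs w hw
      have h2 := FreeMagma.length_pos w
      omega
    rw [this, Finset.sum_empty]
    exact Submodule.zero_mem _
  | succ n ih =>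
    intro s c hs hid
    have htop : (∑ w ∈ s.filter (fun w => w.length = n + 1), c w • wv (X F) w)
        ∈ tIdeal (octB F) := by
      rw [← OctId.RF.evalAt_gen_eq_zero, evalAt_sum]
      have h0 : ∀ y : ℕ → Big F, ohBig.τ (∑ w ∈ s, c w • wv y w) = 0 ∧
          ohBig.π (∑ w ∈ s, c w • wv y w) = 0 := by
        intro y
        have h1 : (∑ w ∈ s, c w • wv y w).2 = 0 := by
          have h2 := hid (fun i => (y i).2)
          rw [evalAt_sum] at h2
          have h3 : ∀ w, (wv y w).2 = wv (fun i => (y i).2) w := fun w =>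
            OctId.map_wv (sndH (F := F)) y w
          rw [Prod.snd_sum, ← h2]
          refine Finset.sum_congr rfl fun w _ => ?_
          rw [Prod.smul_snd, h3]
        constructor
        · change ohO.τ (∑ w ∈ s, c w • wv y w).2 = 0
          rw [h1, map_zero]
        · change ohO.π (∑ w ∈ s, c w • wv y w).2 = 0
          rw [h1, map_zero]
      have h1 := top_vanish hA OV_Big ohBig rfl (n + 1) s c hs h0
        (fun i => (inrH F _ (OctId.RF.gen (octB F) i), 0))
      have h2 := congrArg Prod.fst h1
      rw [Prod.fst_sum] at h2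
      have h3 : ∀ w, (wv (fun i => ((inrH F _ (OctId.RF.gen (octB F) i), 0) : Big F)) w).1 =
          inrH F _ (wv (OctId.RF.gen (octB F)) w) := by
        intro w
        induction w using FreeMagma.recOnMul with
        | ih1 i => rfl
        | ih2 a b iha ihb => rw [OctId.wv_mul, OctId.wv_mul, Prod.fst_mul, iha, ihb, map_mul]
      have h4 : inrH F _ (∑ w ∈ s.filter (fun w => w.length = n + 1),
          c w • wv (OctId.RF.gen (octB F)) w) = 0 := by
        rw [map_sum, ← Prod.fst_zero (M := Unitization F (OctId.RF (octB F))) (N := O F), ← h2]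
        refine Finset.sum_congr rfl fun w _ => ?_
        rw [Prod.smul_fst, h3, map_smul]
      have h5 := congrArg (fun x : Unitization F (OctId.RF (octB F)) => x.snd) h4
      simp only [snd_inrH] at h5
      exact h5
    have hle : tIdeal (octB F) ≤ idOf F (O F) :=
      OctId.tIdeal_le (OctId.idOf_isTIdeal _) (ident_of_OV OV_oct)
    rw [← Finset.sum_filter_add_sum_filter_not s (fun w => w.length = n + 1)] at hid ⊢
    refine Submodule.add_mem _ htop (ih _ c ?_ ?_)
    · intro w hw
      rw [Finset.mem_filter] at hw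
      have := hs w hw.1
      omega
    · have h1 := (idOf F (O F)).sub_mem hid (hle htop)
      rw [add_sub_cancel_left] at h1
      exact h1

/-- Theorem B: the list is a basis of the identities of the octonions. -/
theorem basis_of_thmA (hA : ∀ (B : Finset ℕ) (f : Fr F), f ∈ OctId.MF F B →
      IsIdentity (OctId.V F) f → f ∈ tIdeal (OctId.malB F)) :
    tIdeal (octB F) = idOf F (O F) := by
  apply le_antisymm
  · exact OctId.tIdeal_le (OctId.idOf_isTIdeal _) (ident_of_OV OV_oct)
  · intro f hf
    obtain ⟨s, c, rfl⟩ := exists_expand f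
    exact main_le (malcevInj_of_thmA hA) (s.sup FreeMagma.length) s c
      (fun w hw => Finset.le_sup (f := FreeMagma.length) hw) hf

end final

end OctBasis
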