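import Mathlib
import Pool.Agent.Work.MP_9b6dd6_al.ZFinal
import Pool.Agent.Work.MP_9b6dd6_al.ZAll

/-! The basis of identities for all octonion algebras, given Theorem A. -/

namespace OctBasis

open OctId (Fr X evalAt wv IsIdentity tIdeal idOf)

universe u

/-- Theorem B for all octonion algebras. -/
theorem basis_all_of_thmA {F : Type u} [Field F] [CharZero F]
    (hA : ∀ (B : Finset ℕ) (f : Fr F), f ∈ OctId.MF F B →
      IsIdentity (OctId.V F) f → f ∈ tIdeal (OctId.malB F)) {a b c : F} (ha : a ≠ 0)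
    (hb : b ≠ 0) (hc : c ≠ 0) : tIdeal (octB F) = idOf F (Oct a b c) := by
  rw [basis_of_thmA hA]
  exact idOf_oct_eq (neg_ne_zero.2 one_ne_zero) (neg_ne_zero.2 one_ne_zero)
    (neg_ne_zero.2 one_ne_zero) ha hb hc

end OctBasis
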