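import Mathlib
import Pool.Agent.Work.MP_9b6dd6_al.Defs
import Pool.Agent.Work.MP_9b6dd6_al.ZDefs
import Pool.Agent.Work.MP_9b6dd6_al.ThmA
import Pool.Agent.Work.MP_9b6dd6_al.ZMain
import Pool.Agent.Work.MP_9b6dd6_al.Stmt

/-! Comparison of the statement with the definitions used in the proof. -/

namespace OctStmt

universe u v

theorem basis_eq (F : Type u) [Field F] : basis F = OctBasis.octB F := by
  have hb : ∀ x y : OctId.Fr F, br F x y = OctBasis.br F x y :=
    fun x y => (OctBasis.br_def F x y).symm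
  have hj : ∀ x y : OctId.Fr F, jo F x y = OctBasis.jo F x y :=
    fun x y => (OctBasis.jo_def F x y).symm
  simp only [basis, OctBasis.octB, p1, p2, p3, p4, p5, E, Q, D, hb, hj, OctBasis.Eop,
    OctBasis.Oop, OctBasis.Dop]

theorem mem_tIdeal_iff (F : Type u) [Field F] (S : Set (FreeNonUnitalNonAssocAlgebra F ℕ))
    (f : FreeNonUnitalNonAssocAlgebra F ℕ) :
    f ∈ OctId.tIdeal S ↔ ∀ I, IsTIdeal F I → S ⊆ I → f ∈ I := by
  constructor
  · intro hf I hI hS
    have h1 : OctId.tIdeal S ≤
        ({ carrier := I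
           add_mem' := fun {a b} ha hb => hI.add a b ha hb
           zero_mem' := hI.zero
           smul_mem' := fun c f hf => hI.smul c f hf } : Submodule F (OctId.Fr F)) :=
      OctId.tIdeal_le ⟨fun a b hb => hI.mul_left a b hb, fun a b ha => hI.mul_right a b ha,
        fun φ f hf => hI.subst (OctId.evalAt φ) f hf⟩ hS
    exact h1 hf
  · intro h
    refine h (OctId.tIdeal S : Set (OctId.Fr F)) ⟨?_, ?_, ?_, ?_, ?_, ?_⟩
      (OctId.subset_tIdeal S)
    · exact Submodule.zero_mem _
    · intro f g hf hg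
      exact Submodule.add_mem _ hf hg
    · intro c f hf
      exact Submodule.smul_mem _ c hf
    · intro f g hg
      exact (OctId.tIdeal_isTIdeal S).mul_left f g hg
    · intro f g hf
      exact (OctId.tIdeal_isTIdeal S).mul_right f g hf
    · intro φ f hf
      have h1 := (OctId.tIdeal_isTIdeal S).subst (fun i => φ (OctId.X F i)) f hf
      have h2 : OctId.evalAt (fun i => φ (OctId.X F i)) = φ := by
        apply FreeNonUnitalNonAssocAlgebra.hom_ext
        intro i
        exact OctId.evalAt_X _ i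
      rw [h2] at h1
      exact h1

section oct
variable {F : Type u} [Field F] {a b c : F}

open OctBasis (Dbl Oct cj)

/-- quaternions as a double Cayley-Dickson double -/
def qd (q : QuaternionAlgebra F a 0 b) : Dbl b (Dbl a F) := ⟨⟨q.re, q.imI⟩, ⟨q.imJ, q.imK⟩⟩

theorem qd_mul (p q : QuaternionAlgebra F a 0 b) : qd (p * q) = qd p * qd q := by
  ext <;> simp [qd, OctBasis.cj_base, OctBasis.Dbl.conj_fst, OctBasis.Dbl.conj_snd] <;> ring

theorem qd_add (p q : QuaternionAlgebra F a 0 b) : qd (p + q) = qd p + qd q := by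
  ext <;> simp [qd]

theorem qd_smul (t : F) (q : QuaternionAlgebra F a 0 b) : qd (t • q) = t • qd q := by
  ext <;> simp [qd]

theorem qd_star (q : QuaternionAlgebra F a 0 b) : qd (star q) = cj F (qd q) := by
  ext <;> simp [qd, OctBasis.cj_base, OctBasis.Dbl.conj_fst, OctBasis.Dbl.conj_snd]

theorem qd_inj {p q : QuaternionAlgebra F a 0 b} (h : qd p = qd q) : p = q := by
  have h1 : (qd p).fst.fst = (qd q).fst.fst := by rw [h]
  have h2 : (qd p).fst.snd = (qd q).fst.snd := by rw [h]
  have h3 : (qd p).snd.fst = (qd q).snd.fst := by rw [h]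
  have h4 : (qd p).snd.snd = (qd q).snd.snd := by rw [h]
  exact QuaternionAlgebra.ext h1 h2 h3 h4

variable {A : Type v} [NonUnitalNonAssocRing A] [Module F A]
  (e : A → QuaternionAlgebra F a 0 b × QuaternionAlgebra F a 0 b)
  (hadd : ∀ x y, e (x + y) = e x + e y) (hsmul : ∀ (t : F) x, e (t • x) = t • e x)
  (hmul : ∀ x y, e (x * y) = cdMul c (e x) (e y))

/-- the isomorphism with the triple double -/
def toOct : A →ₙₐ[F] Oct a b c where
  toFun x := ⟨qd (e x).1, qd (e x).2⟩
  map_smul' t x := by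
    refine OctBasis.Dbl.ext ?_ ?_
    · change qd (e (t • x)).1 = t • qd (e x).1
      rw [hsmul, Prod.smul_fst, qd_smul]
    · change qd (e (t • x)).2 = t • qd (e x).2
      rw [hsmul, Prod.smul_snd, qd_smul]
  map_zero' := by
    have h0 : e 0 = 0 := by
      have := hsmul 0 0
      rw [zero_smul, zero_smul] at this
      exact this
    rw [h0]
    rfl
  map_add' x y := by
    refine OctBasis.Dbl.ext ?_ ?_
    · change qd (e (x + y)).1 = qd (e x).1 + qd (e y).1
      rw [hadd, Prod.fst_add, qd_add]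
    · change qd (e (x + y)).2 = qd (e x).2 + qd (e y).2
      rw [hadd, Prod.snd_add, qd_add]
  map_mul' x y := by
    rw [hmul]
    refine OctBasis.Dbl.ext ?_ ?_
    · change qd ((e x).1 * (e y).1 + c • (star (e y).2 * (e x).2)) =
        qd (e x).1 * qd (e y).1 + c • (cj F (qd (e y).2) * qd (e x).2)
      rw [qd_add, qd_mul, qd_smul, qd_mul, qd_star]
    · change qd ((e y).2 * (e x).1 + (e x).2 * star (e y).1) =
        qd (e y).2 * qd (e x).1 + qd (e x).2 * cj F (qd (e y).1)
      rw [qd_add, qd_mul, qd_mul, qd_star]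

theorem toOct_inj (hi : Function.Injective e) :
    Function.Injective (toOct e hadd hsmul hmul) := by
  intro x y hxy
  have h1 : (toOct e hadd hsmul hmul x).fst = (toOct e hadd hsmul hmul y).fst := by rw [hxy]
  have h2 : (toOct e hadd hsmul hmul x).snd = (toOct e hadd hsmul hmul y).snd := by rw [hxy]
  exact hi (Prod.ext (qd_inj h1) (qd_inj h2))

theorem toOct_surj (hs : Function.Surjective e) :
    Function.Surjective (toOct e hadd hsmul hmul) := by
  intro z
  obtain ⟨x, hx⟩ := hs (⟨z.fst.fst.fst, z.fst.fst.snd, z.fst.snd.fst, z.fst.snd.snd⟩,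
    ⟨z.snd.fst.fst, z.snd.fst.snd, z.snd.snd.fst, z.snd.snd.snd⟩)
  refine ⟨x, ?_⟩
  change (⟨qd (e x).1, qd (e x).2⟩ : Oct a b c) = z
  rw [hx]
  rfl

theorem isIdentity_iff [IsScalarTower F A A] [SMulCommClass F A A] (g : A →ₙₐ[F] Oct a b c)
    (hi : Function.Injective g) (hs : Function.Surjective g)
    (f : FreeNonUnitalNonAssocAlgebra F ℕ) :
    IsIdentity F A f ↔ OctId.IsIdentity (Oct a b c) f := by
  constructor
  · intro h φ
    choose ψ hψ using fun i => hs (φ i)
    have h1 : g (OctId.evalAt ψ f) = OctId.evalAt φ f := by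
      rw [OctId.map_evalAt]
      exact congrArg (fun u : ℕ → Oct a b c => OctId.evalAt u f) (funext hψ)
    rw [← h1, h (OctId.evalAt ψ), map_zero]
  · intro h φ
    apply hi
    rw [map_zero]
    have h1 : g.comp φ = OctId.evalAt (fun i => g (φ (OctId.X F i))) := by
      apply FreeNonUnitalNonAssocAlgebra.hom_ext
      intro i
      exact (OctId.evalAt_X (fun i => g (φ (OctId.X F i))) i).symm
    have h2 : g (φ f) = (g.comp φ) f := rfl
    rw [h2, h1]
    exact h _

end oct

theorem main (F : Type u) [Field F] [CharZero F] (A : Type v) [NonUnitalNonAssocRing A]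
    [Module F A] [IsScalarTower F A A] [SMulCommClass F A A] (hA : IsOctonion F A)
    (f : FreeNonUnitalNonAssocAlgebra F ℕ) :
    IsIdentity F A f ↔ ∀ I, IsTIdeal F I → basis F ⊆ I → f ∈ I := by
  obtain ⟨a, b, c, ha, hb, hc, e, he, hadd, hsmul, hmul⟩ := hA
  rw [← mem_tIdeal_iff, basis_eq, OctBasis.basis_all_of_thmA OctId.thmA ha hb hc,
    isIdentity_iff (toOct e hadd hsmul hmul) (toOct_inj e hadd hsmul hmul he.1)
      (toOct_surj e hadd hsmul hmul he.2)]
  rfl

end OctStmt
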