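import Pool.Agent.Work.MP_9b6dd6_al.FunA

/-!
# The Casimir identity
-/

namespace OctId

open Finset

set_option linter.unusedSectionVars false

noncomputable section

variable {F : Type*} [Field F]

/-- linear combinations in one letter -/
theorem Cas_sum {b : ℕ} {f : Fn F} (hf : LinIn b f) {ι : Type*} (s : Finset ι) (c : ι → F)
    (g : ι → V F) (y : ℕ → V F) :
    ∑ i ∈ s, c i • f (Function.update y b (g i)) =
      f (Function.update y b (∑ i ∈ s, c i • g i)) := by
  rw [FunA_sum hf]
  exact Finset.sum_congr rfl fun i _ => (hf.2 _ _ _).symm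

theorem Cas_neg {b : ℕ} {f : Fn F} (hf : LinIn b f) (y : ℕ → V F) (u : V F) :
    f (Function.update y b (-u)) = -f (Function.update y b u) := by
  rw [← neg_one_smul F u, hf.2, neg_one_smul]

/-- the four terms of one pair of letters -/
theorem Cas_pair {B : Finset ℕ} {f : Fn F} (hf : f ∈ W F B) {p q : ℕ} (hp : p ∈ B) (hq : q ∈ B)
    (hpq : q ≠ p) (y : ℕ → V F) :
    ∑ j : Fin 7, f (Function.update (Function.update y p (V.e j)) q
        (V.Dr (y p) (V.e j) (y q))) =
      f y + ren (Equiv.swap p q) f y - (2 : F) • gm p q (ctr p q f) y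
        + cp p q (ctx p q f) y := by
  have hlp := W_lin hf hp
  have hlq := W_lin hf hq
  have h1 : ∀ j : Fin 7, f (Function.update (Function.update y p (V.e j)) q
        (V.Dr (y p) (V.e j) (y q))) =
      V.ip (y p) (V.e j) • f (Function.update y p (V.e j)) +
      V.ip (y q) (V.e j) • f (Function.update (Function.update y q (y p)) p (V.e j)) +
      (-(2 * V.ip (y p) (y q))) •
        f (Function.update (Function.update y p (V.e j)) q (V.e j)) +
      f (Function.update (Function.update y p (V.e j)) q (V.e j * (y p * y q))) := by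
    intro j
    have e1 : V.Dr (y p) (V.e j) (y q) = V.ip (y p) (V.e j) • y q + V.ip (y q) (V.e j) • y p +
        (-(2 * V.ip (y p) (y q))) • V.e j + V.e j * (y p * y q) := by
      rw [V.Dr, V.mul_anti (y p * y q) (V.e j)]
      module
    rw [e1, hlq.1, hlq.1, hlq.1, hlq.2, hlq.2, hlq.2]
    congr 1
    congr 1
    congr 1
    · congr 2
      rw [Function.update_eq_self_iff, Function.update_of_ne hpq]
    · congr 2
      rw [Function.update_comm hpq]
  rw [Finset.sum_congr rfl fun j _ => h1 j, Finset.sum_add_distrib, Finset.sum_add_distrib,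
    Finset.sum_add_distrib, Cas_sum hlp, Cas_sum hlp, V.sum_ip_e, V.sum_ip_e,
    Function.update_eq_self, ← Finset.smul_sum]
  congr 1
  · rw [sub_eq_add_neg]
    congr 1
    · congr 1
      rw [ren_apply]
      congr 1
      funext i
      by_cases h2 : i = p
      · subst h2
        rw [Function.update_self, Equiv.swap_apply_left]
      · by_cases h3 : i = q
        · subst h3
          rw [Function.update_of_ne h2, Function.update_self, Equiv.swap_apply_right]
        · rw [Function.update_of_ne h2, Function.update_of_ne h3,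
            Equiv.swap_apply_of_ne_of_ne h2 h3]
    · rw [gm_apply, ctr_apply, smul_smul, neg_smul]
  · rw [cp_apply, ctx_apply]
    refine Finset.sum_congr rfl fun j _ => ?_
    rw [Function.update_idem, Function.update_self]

/-- first half: for each letter `p` -/
theorem casimir_letter {B : Finset ℕ} {f : Fn F} (hf : f ∈ W F B) {p : ℕ} (hp : p ∈ B)
    (y : ℕ → V F) :
    ∑ q ∈ B.erase p, (f y + ren (Equiv.swap p q) f y - (2 : F) • gm p q (ctr p q f) y
        + cp p q (ctx p q f) y)
      = ∑ j : Fin 7, V.Dr (y p) (V.e j) (f (Function.update y p (V.e j))) - (12 : F) • f y := by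
  have h1 : ∀ q ∈ B.erase p, (f y + ren (Equiv.swap p q) f y - (2 : F) • gm p q (ctr p q f) y
      + cp p q (ctx p q f) y) = ∑ j : Fin 7, f (Function.update (Function.update y p (V.e j)) q
        (V.Dr (y p) (V.e j) (y q))) := by
    intro q hq
    exact (Cas_pair hf hp (Finset.mem_of_mem_erase hq) (Finset.ne_of_mem_erase hq) y).symm
  rw [Finset.sum_congr rfl h1, Finset.sum_comm, eq_sub_iff_add_eq]
  have h2 : (12 : F) • f y = ∑ j : Fin 7, f (Function.update y p
      (V.Dr (y p) (V.e j) (V.e j))) := by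
    rw [← FunA_sum (W_lin hf hp), V.sum_Dr_e, (W_lin hf hp).2, Function.update_eq_self]
  rw [h2, ← Finset.sum_add_distrib]
  refine Finset.sum_congr rfl fun j _ => ?_
  rw [← W_equi hf (y p) (V.e j) (Function.update y p (V.e j)),
    ← Finset.sum_erase_add B _ hp]
  congr 1
  · refine Finset.sum_congr rfl fun q hq => ?_
    rw [Function.update_of_ne (Finset.ne_of_mem_erase hq)]
  · rw [Function.update_self, Function.update_idem]

/-- the Casimir operator on the values -/
theorem casimir_value {B : Finset ℕ} {f : Fn F} (hf : f ∈ W F B) (y : ℕ → V F) :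
    ∑ p ∈ B, ∑ j : Fin 7, V.Dr (y p) (V.e j) (f (Function.update y p (V.e j)))
      = (12 : F) • f y := by
  apply V.ext_ip
  intro t
  rw [V.ip_sum_left]
  have h1 : ∀ p ∈ B, V.ip (∑ j : Fin 7, V.Dr (y p) (V.e j) (f (Function.update y p (V.e j)))) t =
      ∑ k : Fin 7, V.ip (f (Function.update y p (V.Dr (V.e k) t (y p)))) (V.e k) := by
    intro p hp
    have hl := W_lin hf hp
    have h2 : ∀ j : Fin 7, V.ip (V.Dr (y p) (V.e j) (f (Function.update y p (V.e j)))) t =
        ∑ k : Fin 7, V.ip (f (Function.update y p (V.e j))) (V.e k) *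
          V.ip (V.Dr (V.e k) t (y p)) (V.e j) := by
      intro j
      have h3 : ∀ z : V F, V.ip (V.Dr (y p) (V.e j) z) t = -V.ip z (V.Dr (y p) (V.e j) t) :=
        fun z => V.Dr_skew _ _ _ _
      rw [← V.sum_ip_e (f (Function.update y p (V.e j))), h3, V.ip_sum_left,
        ← Finset.sum_neg_distrib, V.sum_ip_e]
      refine Finset.sum_congr rfl fun k _ => ?_
      rw [V.ip_smul_left, ← mul_neg, ← h3, V.Dr_pair]
    rw [V.ip_sum_left, Finset.sum_congr rfl fun j _ => h2 j, Finset.sum_comm]
    refine Finset.sum_congr rfl fun k _ => ?_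
    have h4 : f (Function.update y p (V.Dr (V.e k) t (y p))) =
        ∑ j : Fin 7, V.ip (V.Dr (V.e k) t (y p)) (V.e j) • f (Function.update y p (V.e j)) := by
      rw [Cas_sum hl, V.sum_ip_e]
    rw [h4, V.ip_sum_left]
    refine Finset.sum_congr rfl fun j _ => ?_
    rw [V.ip_smul_left, mul_comm]
  rw [Finset.sum_congr rfl h1, Finset.sum_comm]
  have h5 : ∀ k : Fin 7, ∑ p ∈ B, V.ip (f (Function.update y p (V.Dr (V.e k) t (y p)))) (V.e k) =
      V.ip (V.Dr (f y) (V.e k) (V.e k)) t := by
    intro k
    rw [← V.ip_sum_left, W_equi hf, V.Dr_pair]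
  rw [Finset.sum_congr rfl fun k _ => h5 k, ← V.ip_sum_left, V.sum_Dr_e]

/-- the Casimir identity -/
theorem casimir {B : Finset ℕ} {f : Fn F} (hf : f ∈ W F B) :
    ∑ e ∈ B.offDiag, (f + ren (Equiv.swap e.1 e.2) f - (2 : F) • gm e.1 e.2 (ctr e.1 e.2 f)
        + cp e.1 e.2 (ctx e.1 e.2 f))
      = (-(12 * ((B.card : F) - 1))) • f := by
  rw [Finset.sum_finset_product B.offDiag B (fun p => B.erase p) (by
    rintro ⟨p, q⟩
    simp only [Finset.mem_offDiag, Finset.mem_erase]
    constructor
    · rintro ⟨h1, h2, h3⟩; exact ⟨h1, fun h => h3 h.symm, h2⟩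
    · rintro ⟨h1, h2, h3⟩; exact ⟨h1, h3, fun h => h2 h.symm⟩)]
  funext y
  simp only [Finset.sum_apply, Pi.add_apply, Pi.sub_apply, Pi.smul_apply]
  rw [Finset.sum_congr rfl fun p hp => casimir_letter hf hp y, Finset.sum_sub_distrib,
    casimir_value hf y, Finset.sum_const, ← Nat.cast_smul_eq_nsmul F, smul_smul]
  module

end

end OctId
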