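import Mathlib

/-!
Reflection for multilinear identities in anticommutative algebras.
-/

set_option autoImplicit false

namespace OctId.CertR

/-- nonassociative monomials -/
inductive Tr : Type
  | l : ℕ → Tr
  | n : Tr → Tr → Tr

/-- polynomials: lists of (coefficient, monomial) -/
abbrev Po := List (ℤ × Tr)

variable {A : Type*} [NonUnitalNonAssocRing A]

/-- value of a monomial -/
def Tr.ev (x : ℕ → A) : Tr → A
  | .l i => x i
  | .n s t => s.ev x * t.ev x

/-- value of a polynomial -/
def ev (x : ℕ → A) (p : Po) : A := (p.map (fun c => c.1 • c.2.ev x)).sum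

def var (i : ℕ) : Po := [(1, .l i)]
def add (p q : Po) : Po := p ++ q
def smul (k : ℤ) (p : Po) : Po := p.map (fun c => (k * c.1, c.2))
def sub (p q : Po) : Po := p ++ smul (-1) q
def mul (p q : Po) : Po := p.flatMap (fun c => q.map (fun d => (c.1 * d.1, Tr.n c.2 d.2)))

theorem ev_nil (x : ℕ → A) : ev x [] = 0 := by simp [ev]

theorem ev_cons (x : ℕ → A) (c : ℤ × Tr) (p : Po) : ev x (c :: p) = c.1 • c.2.ev x + ev x p := by
  simp [ev]

theorem ev_append (x : ℕ → A) (p q : Po) : ev x (p ++ q) = ev x p + ev x q := by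
  simp [ev]

theorem ev_var (x : ℕ → A) (i : ℕ) : ev x (var i) = x i := by
  simp [ev, var, Tr.ev]

theorem ev_add (x : ℕ → A) (p q : Po) : ev x (add p q) = ev x p + ev x q := ev_append x p q

theorem ev_smul (x : ℕ → A) (k : ℤ) (p : Po) : ev x (smul k p) = k • ev x p := by
  induction p with
  | nil => simp [ev, smul]
  | cons c p ih =>
    have h : smul k (c :: p) = (k * c.1, c.2) :: smul k p := rfl
    rw [h, ev_cons, ev_cons, ih, smul_add, mul_smul]

theorem ev_sub (x : ℕ → A) (p q : Po) : ev x (sub p q) = ev x p - ev x q := by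
  simp [sub, ev_append, ev_smul, sub_eq_add_neg]

theorem ev_mul (x : ℕ → A) (p q : Po) : ev x (mul p q) = ev x p * ev x q := by
  induction p with
  | nil => simp [ev, mul]
  | cons c p ih =>
    have h : mul (c :: p) q = q.map (fun d => (c.1 * d.1, Tr.n c.2 d.2)) ++ mul p q := rfl
    rw [h, ev_append, ih, ev_cons, add_mul]
    congr 1
    clear ih h
    induction q with
    | nil => simp [ev]
    | cons d q ih =>
      rw [List.map_cons, ev_cons, ev_cons, ih, mul_add]
      congr 1
      simp only [Tr.ev]
      rw [smul_mul_smul_comm]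

/-- normal form of monomials: (sign, key, power, tree) -/
def nfm : Tr → ℤ × ℕ × ℕ × Tr
  | .l i => (1, i + 1, 16, .l i)
  | .n s t =>
    match nfm s, nfm t with
    | (c, k, w, s'), (d, m, v, t') =>
      match Nat.blt k m with
      | true => (c * d, 15 * w * v + k * v + m, 16 * w * v, .n s' t')
      | false => (-(c * d), 15 * w * v + m * w + k, 16 * w * v, .n t' s')

theorem nfm_ev (hac : ∀ x y : A, y * x = -(x * y)) (x : ℕ → A) (t : Tr) :
    (nfm t).1 • (nfm t).2.2.2.ev x = t.ev x := by
  induction t with
  | l i => simp [nfm, Tr.ev]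
  | n s t ihs iht =>
    simp only [nfm, Tr.ev]
    rw [← ihs, ← iht]
    cases Nat.blt (nfm s).2.1 (nfm t).2.1 with
    | true => simp only [Tr.ev]; rw [smul_mul_smul_comm]
    | false =>
      simp only [Tr.ev]
      rw [smul_mul_smul_comm, neg_smul, hac ((nfm t).2.2.2.ev x) ((nfm s).2.2.2.ev x), smul_neg]

/-- boolean equality of trees -/
def Tr.eqb : Tr → Tr → Bool
  | .l i, .l j => Nat.beq i j
  | .n s t, .n s' t' => (Tr.eqb s s') && (Tr.eqb t t')
  | _, _ => false

theorem Tr.eqb_sound : ∀ s t : Tr, Tr.eqb s t = true → s = t := by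
  intro s
  induction s with
  | l i =>
    intro t h
    cases t with
    | l j => simp only [Tr.eqb] at h; rw [Nat.eq_of_beq_eq_true h]
    | n a b => simp [Tr.eqb] at h
  | n a b iha ihb =>
    intro t h
    cases t with
    | l j => simp [Tr.eqb] at h
    | n c d =>
      simp only [Tr.eqb, Bool.and_eq_true] at h
      rw [iha c h.1, ihb d h.2]

def evS (x : ℕ → A) (p : List (ℕ × ℤ × Tr)) : A := (p.map (fun c => c.2.1 • c.2.2.ev x)).sum

theorem evS_cons (x : ℕ → A) (e : ℕ × ℤ × Tr) (p : List (ℕ × ℤ × Tr)) :
    evS x (e :: p) = e.2.1 • e.2.2.ev x + evS x p := by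
  simp [evS]

/-- merging sorted lists -/
def mg : ℕ → List (ℕ × ℤ × Tr) → List (ℕ × ℤ × Tr) → List (ℕ × ℤ × Tr)
  | 0, p, q => p ++ q
  | _ + 1, [], q => q
  | _ + 1, a :: p, [] => a :: p
  | n + 1, (k, c, t) :: p, (k', c', t') :: q =>
    match Nat.blt k k' with
    | true => (k, c, t) :: mg n p ((k', c', t') :: q)
    | false =>
      match Nat.beq k k' && Tr.eqb t t' with
      | true => (k', c + c', t') :: mg n p q
      | false => (k', c', t') :: mg n ((k, c, t) :: p) q

theorem mg_ev (x : ℕ → A) (n : ℕ) : ∀ p q : List (ℕ × ℤ × Tr),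
    evS x (mg n p q) = evS x p + evS x q := by
  induction n with
  | zero => intro p q; simp [mg, evS]
  | succ n ih =>
    intro p q
    match p, q with
    | [], q => simp [mg, evS]
    | a :: p, [] => simp [mg, evS]
    | (k, c, t) :: p, (k', c', t') :: q =>
      simp only [mg]
      cases Nat.blt k k' with
      | true =>
        dsimp only
        rw [evS_cons, ih, evS_cons x (k, c, t) p]
        abel
      | false =>
        dsimp only
        cases h : (Nat.beq k k' && Tr.eqb t t') with
        | true =>
          simp only [Bool.and_eq_true] at h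
          have := Tr.eqb_sound t t' h.2
          subst this
          dsimp only
          rw [evS_cons, ih, evS_cons x _ p, evS_cons x _ q]
          simp only [add_smul]
          abel
        | false =>
          dsimp only
          rw [evS_cons, ih, evS_cons x _ q]
          abel

def pass : List (List (ℕ × ℤ × Tr)) → List (List (ℕ × ℤ × Tr))
  | a :: b :: r => mg 1000 a b :: pass r
  | [a] => [a]
  | [] => []

def evL (x : ℕ → A) (l : List (List (ℕ × ℤ × Tr))) : A := (l.map (evS x)).sum

theorem pass_ev (x : ℕ → A) : ∀ l : List (List (ℕ × ℤ × Tr)), evL x (pass l) = evL x l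
  | [] => rfl
  | [a] => rfl
  | a :: b :: r => by
    have h1 : evL x (pass (a :: b :: r)) = evS x (mg 1000 a b) + evL x (pass r) := by
      simp [pass, evL]
    have h2 : evL x (a :: b :: r) = evS x a + (evS x b + evL x r) := by simp [evL]
    rw [h1, h2, mg_ev, pass_ev x r, add_assoc]

def passes : ℕ → List (List (ℕ × ℤ × Tr)) → List (List (ℕ × ℤ × Tr))
  | 0, l => l
  | n + 1, l => passes n (pass l)

theorem passes_ev (x : ℕ → A) (n : ℕ) : ∀ l : List (List (ℕ × ℤ × Tr)),
    evL x (passes n l) = evL x l := by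
  induction n with
  | zero => intro l; rfl
  | succ n ih => intro l; rw [passes, ih, pass_ev]

def single (e : ℤ × Tr) : List (ℕ × ℤ × Tr) :=
  match nfm e.2 with
  | (d, k, _, t') => [(k, e.1 * d, t')]

theorem single_ev (hac : ∀ x y : A, y * x = -(x * y)) (x : ℕ → A) (e : ℤ × Tr) :
    evS x (single e) = e.1 • e.2.ev x := by
  simp only [single, evS, List.map_cons, List.map_nil, List.sum_cons, List.sum_nil, add_zero]
  rw [mul_smul, nfm_ev hac]

/-- normal form -/
def nf (p : Po) : List (List (ℕ × ℤ × Tr)) := passes 13 (p.map single)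

theorem nf_ev (hac : ∀ x y : A, y * x = -(x * y)) (x : ℕ → A) (p : Po) :
    evL x (nf p) = ev x p := by
  rw [nf, passes_ev]
  induction p with
  | nil => simp [evL, ev]
  | cons e p ih =>
    have h2 : evL x ((e :: p).map single) = evS x (single e) + evL x (p.map single) := by
      simp [evL]
    rw [h2, ih, single_ev hac, ev_cons]

def allZ : List (ℕ × ℤ × Tr) → Bool
  | [] => true
  | (_, c, _) :: r => (c == 0) && allZ r

theorem allZ_ev (x : ℕ → A) (p : List (ℕ × ℤ × Tr)) (h : allZ p = true) : evS x p = 0 := by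
  induction p with
  | nil => simp [evS]
  | cons e r ih =>
    obtain ⟨k, c, t⟩ := e
    simp only [allZ, Bool.and_eq_true, beq_iff_eq] at h
    have h3 : evS x ((k, c, t) :: r) = c • t.ev x + evS x r := by simp [evS]
    rw [h3, ih h.2, h.1]
    simp

def allZZ : List (List (ℕ × ℤ × Tr)) → Bool
  | [] => true
  | a :: r => allZ a && allZZ r

theorem allZZ_ev (x : ℕ → A) (l : List (List (ℕ × ℤ × Tr))) (h : allZZ l = true) :
    evL x l = 0 := by
  induction l with
  | nil => simp [evL]
  | cons a r ih =>
    simp only [allZZ, Bool.and_eq_true] at h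
    have h3 : evL x (a :: r) = evS x a + evL x r := by simp [evL]
    rw [h3, ih h.2, allZ_ev x a h.1, add_zero]

/-- a polynomial which vanishes by anticommutativity -/
theorem zero_of (hac : ∀ x y : A, y * x = -(x * y)) (x : ℕ → A) (p : Po)
    (h : allZZ (nf p) = true) : ev x p = 0 := by
  rw [← nf_ev hac, allZZ_ev x _ h]

end OctId.CertR
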