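import Pool.Agent.Work.MP_9b6dd6_al.Defs
import Pool.Agent.Work.MP_9b6dd6_al.CertR

/-!
The degree 4 and 5 identities of algebras satisfying the Malcev basis: certificates over the
integers, checked by reflection.
-/

set_option autoImplicit false
set_option linter.unusedSimpArgs false

namespace OctId.CertR

section alg

variable {A : Type*} [NonUnitalNonAssocRing A]

/-- twelve times `E(a,b;c,d)` -/
def E12 (a b c d : A) : A :=
  (-1 : ℤ) • ((4 : ℤ) • Oo a b c d + (Oo a c b d + (Oo b c a d + (Oo a d c b + Oo b d c a))))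

/-- twelve times `e3(w,c;s)` for `w = u * v` -/
def e12 (u v c s : A) : A :=
  E12 s c u v - ((4 : ℤ) • Dd s (u * v) c + (8 : ℤ) • Dd c (u * v) s)

/-- integral form of the Malcev basis -/
structure BV (A : Type*) [NonUnitalNonAssocRing A] : Prop where
  ac : ∀ x y : A, y * x = -(x * y)
  sag : ∀ a b c d : A, sagle a b c d = 0
  b2 : ∀ a b c d e : A, E12 a b (c * d) e = E12 a b c d * e

end alg

/-! polynomials -/

def pD (a b c : Po) : Po := add (mul a (mul b c)) (mul b (mul a c))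
def pO (a b c d : Po) : Po := sub (mul (pD a b c) d) (mul (pD a b d) c)
def pE (a b c d : Po) : Po :=
  smul (-1) (add (smul 4 (pO a b c d)) (add (pO a c b d) (add (pO b c a d) (add (pO a d c b)
    (pO b d c a)))))
def pe (u v c s : Po) : Po :=
  sub (pE s c u v) (add (smul 4 (pD s (mul u v) c)) (smul 8 (pD c (mul u v) s)))

section ev
variable {A : Type*} [NonUnitalNonAssocRing A] (x : ℕ → A)

theorem ev_pD (a b c : Po) : ev x (pD a b c) = Dd (ev x a) (ev x b) (ev x c) := by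
  simp only [pD, Dd, ev_add, ev_mul]
theorem ev_pO (a b c d : Po) : ev x (pO a b c d) = Oo (ev x a) (ev x b) (ev x c) (ev x d) := by
  simp only [pO, Oo, ev_sub, ev_mul, ev_pD]
theorem ev_pE (a b c d : Po) : ev x (pE a b c d) = E12 (ev x a) (ev x b) (ev x c) (ev x d) := by
  simp only [pE, E12, ev_add, ev_smul, ev_pO]
theorem ev_pe (a b c d : Po) : ev x (pe a b c d) = e12 (ev x a) (ev x b) (ev x c) (ev x d) := by
  simp only [pe, e12, ev_add, ev_sub, ev_smul, ev_pE, ev_pD, ev_mul]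

end ev

/-- instances of the identities of the basis -/
inductive Ins
  | sag (a b c d : Tr)
  | msag (a b c d e : Tr)
  | b2 (a b c d e : Tr)

def tp (t : Tr) : Po := [(1, t)]

def pSag (a b c d : Po) : Po :=
  sub (sub (sub (sub (mul (mul a c) (mul b d)) (mul (mul (mul a b) c) d)) (mul (mul (mul b c) d) a))
    (mul (mul (mul c d) a) b)) (mul (mul (mul d a) b) c)

def Ins.po : Ins → Po
  | .sag a b c d => pSag (tp a) (tp b) (tp c) (tp d)
  | .msag a b c d e => mul (pSag (tp a) (tp b) (tp c) (tp d)) (tp e)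
  | .b2 a b c d e => sub (pE (tp a) (tp b) (mul (tp c) (tp d)) (tp e))
      (mul (pE (tp a) (tp b) (tp c) (tp d)) (tp e))

def tot : List (ℤ × Ins) → Po
  | [] => []
  | (k, i) :: r => add (smul k i.po) (tot r)

section sound
variable {A : Type*} [NonUnitalNonAssocRing A] (x : ℕ → A)

theorem ev_pSag (h : BV A) (a b c d : Po) : ev x (pSag a b c d) = 0 := by
  simp only [pSag, ev_add, ev_mul, ev_sub]
  exact h.sag (ev x a) (ev x b) (ev x c) (ev x d)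

theorem ev_ins (h : BV A) (i : Ins) : ev x i.po = 0 := by
  cases i with
  | sag a b c d => exact ev_pSag x h _ _ _ _
  | msag a b c d e => simp only [Ins.po, ev_mul, ev_pSag x h, zero_mul]
  | b2 a b c d e =>
    simp only [Ins.po, ev_mul, ev_sub, ev_pE]
    rw [h.b2]
    exact sub_self _

theorem ev_tot (h : BV A) (l : List (ℤ × Ins)) : ev x (tot l) = 0 := by
  induction l with
  | nil => exact ev_nil x
  | cons e r ih =>
    obtain ⟨k, i⟩ := e
    simp only [tot, ev_add, ev_smul, ev_ins x h, ih, smul_zero, add_zero]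

/-- the certificate principle -/
theorem cert (h : BV A) (p : Po) (l : List (ℤ × Ins))
    (hc : allZZ (nf (sub p (tot l))) = true) : ev x p = 0 := by
  have h1 := zero_of h.ac x _ hc
  rw [ev_sub, ev_tot x h, sub_zero] at h1
  exact h1

end sound

def va : Po := var 0
def vb : Po := var 1
def vc : Po := var 2
def vd : Po := var 3
def ve : Po := var 4

/-- five values -/
def vals {A : Type*} (a b c d e : A) : ℕ → A
  | 0 => a
  | 1 => b
  | 2 => c
  | 3 => d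
  | _ => e

def pS1 : Po :=
  (add (smul (12) (mul (pD va vb vc) vd)) (add (smul (2) (pE va vb vc vd)) (add (smul (-1) (pE
    va vc vb vd)) (smul (-1) (pE vb vc va vd)))))

def cS1 : List (ℤ × Ins) :=
  [(3, .sag (.l 0) (.l 3) (.l 1) (.l 2)), (3, .sag (.l 0) (.l 2) (.l 1) (.l 3))]

theorem chkS1 : allZZ (nf (sub pS1 (tot cS1))) = true := by decide +kernel

theorem S1 {A : Type*} [NonUnitalNonAssocRing A] (h : BV A) (a b c d : A) :
    (((12 : ℤ) • ((Dd a b c) * d)) + (((2 : ℤ) • (E12 a b c d)) + (((-1 : ℤ) • (E12 a c b d)) +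
    ((-1 : ℤ) • (E12 b c a d))))) = 0 := by
  have h1 := cert (vals a b c d d) h pS1 cS1 chkS1
  simp only [pS1, ev_add, ev_smul, ev_mul, ev_pE, ev_pe, ev_pD, va, vb, vc, vd, ve, ev_var,
    vals] at h1
  exact h1

def pS4 : Po :=
  (add (smul (1) (pe va vb vc vd)) (smul (1) (pe va vc vb vd)))

def cS4 : List (ℤ × Ins) :=
  [(-3, .sag (.l 0) (.l 1) (.l 3) (.l 2)), (-4, .sag (.l 0) (.l 1) (.l 2) (.l 3)), (-4, .sag (.l
    0) (.l 2) (.l 1) (.l 3)), (-3, .sag (.l 0) (.l 2) (.l 3) (.l 1))]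

theorem chkS4 : allZZ (nf (sub pS4 (tot cS4))) = true := by decide +kernel

theorem S4 {A : Type*} [NonUnitalNonAssocRing A] (h : BV A) (a b c d : A) :
    (((1 : ℤ) • (e12 a b c d)) + ((1 : ℤ) • (e12 a c b d))) = 0 := by
  have h1 := cert (vals a b c d d) h pS4 cS4 chkS4
  simp only [pS4, ev_add, ev_smul, ev_mul, ev_pE, ev_pe, ev_pD, va, vb, vc, vd, ve, ev_var,
    vals] at h1
  exact h1

def pS4b : Po :=
  (add (smul (1) (pe va vb vc vd)) (smul (1) (pe vb va vc vd)))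

def cS4b : List (ℤ × Ins) :=
  []

theorem chkS4b : allZZ (nf (sub pS4b (tot cS4b))) = true := by decide +kernel

theorem S4b {A : Type*} [NonUnitalNonAssocRing A] (h : BV A) (a b c d : A) :
    (((1 : ℤ) • (e12 a b c d)) + ((1 : ℤ) • (e12 b a c d))) = 0 := by
  have h1 := cert (vals a b c d d) h pS4b cS4b chkS4b
  simp only [pS4b, ev_add, ev_smul, ev_mul, ev_pE, ev_pe, ev_pD, va, vb, vc, vd, ve, ev_var,
    vals] at h1
  exact h1

def pS6 : Po :=
  (add (smul (12) (mul (mul vb vc) (mul va vd))) (add (smul (12) (mul (mul vc va) (mul vb vd)))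
    (add (smul (12) (mul (mul va vb) (mul vc vd))) (add (smul (3) (pe va vb vc vd)) (add (smul
    (1) (pe vd vb vc va)) (add (smul (1) (pe va vd vc vb)) (add (smul (1) (pe va vb vd vc)) (add
    (smul (-2) (pE va vd vb vc)) (add (smul (-2) (pE vb vd vc va)) (smul (-2) (pE vc vd va
    vb)))))))))))

def cS6 : List (ℤ × Ins) :=
  [(-2, .sag (.l 0) (.l 2) (.l 3) (.l 1)), (-8, .sag (.l 0) (.l 1) (.l 2) (.l 3)), (-10, .sag
    (.l 0) (.l 1) (.l 3) (.l 2)), (-3, .sag (.l 0) (.l 2) (.l 1) (.l 3)), (-7, .sag (.l 0) (.l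
    3) (.l 1) (.l 2))]

theorem chkS6 : allZZ (nf (sub pS6 (tot cS6))) = true := by decide +kernel

theorem S6 {A : Type*} [NonUnitalNonAssocRing A] (h : BV A) (a b c d : A) :
    (((12 : ℤ) • ((b * c) * (a * d))) + (((12 : ℤ) • ((c * a) * (b * d))) + (((12 : ℤ) • ((a *
    b) * (c * d))) + (((3 : ℤ) • (e12 a b c d)) + (((1 : ℤ) • (e12 d b c a)) + (((1 : ℤ) • (e12
    a d c b)) + (((1 : ℤ) • (e12 a b d c)) + (((-2 : ℤ) • (E12 a d b c)) + (((-2 : ℤ) • (E12 b d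
    c a)) + ((-2 : ℤ) • (E12 c d a b))))))))))) = 0 := by
  have h1 := cert (vals a b c d d) h pS6 cS6 chkS6
  simp only [pS6, ev_add, ev_smul, ev_mul, ev_pE, ev_pe, ev_pD, va, vb, vc, vd, ve, ev_var,
    vals] at h1
  exact h1

def pta : Po :=
  (add (smul (12) (mul (mul va vb) (mul vc vd))) (add (smul (1) (pE va vc vb vd)) (add (smul
    (-1) (pE va vd vb vc)) (add (smul (-1) (pE vb vc va vd)) (add (smul (1) (pE vb vd va vc))
    (add (smul (1) (pe va vb vc vd)) (add (smul (-1) (pe va vb vd vc)) (add (smul (-1) (pe va vc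
    vd vb)) (smul (1) (pe vb vc vd va))))))))))

def cta : List (ℤ × Ins) :=
  [(-5, .sag (.l 0) (.l 1) (.l 3) (.l 2)), (-1, .sag (.l 0) (.l 2) (.l 3) (.l 1)), (1, .sag (.l
    0) (.l 3) (.l 2) (.l 1)), (-3, .sag (.l 0) (.l 1) (.l 2) (.l 3)), (-4, .sag (.l 0) (.l 3)
    (.l 1) (.l 2))]

theorem chkta : allZZ (nf (sub pta (tot cta))) = true := by decide +kernel

theorem ta {A : Type*} [NonUnitalNonAssocRing A] (h : BV A) (a b c d : A) :
    (((12 : ℤ) • ((a * b) * (c * d))) + (((1 : ℤ) • (E12 a c b d)) + (((-1 : ℤ) • (E12 a d b c))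
    + (((-1 : ℤ) • (E12 b c a d)) + (((1 : ℤ) • (E12 b d a c)) + (((1 : ℤ) • (e12 a b c d)) +
    (((-1 : ℤ) • (e12 a b d c)) + (((-1 : ℤ) • (e12 a c d b)) + ((1 : ℤ) • (e12 b c d
    a)))))))))) = 0 := by
  have h1 := cert (vals a b c d d) h pta cta chkta
  simp only [pta, ev_add, ev_smul, ev_mul, ev_pE, ev_pe, ev_pD, va, vb, vc, vd, ve, ev_var,
    vals] at h1
  exact h1

def ptb : Po :=
  (add (smul (12) (mul (mul (mul va vb) vc) vd)) (add (smul (-1) (pE va vc vb vd)) (add (smul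
    (1) (pE va vd vb vc)) (add (smul (1) (pE vb vc va vd)) (add (smul (-1) (pE vb vd va vc))
    (add (smul (1) (pE vc vd va vb)) (add (smul (-1) (pe va vb vd vc)) (add (smul (1) (pe va vc
    vd vb)) (smul (-1) (pe vb vc vd va))))))))))

def ctb : List (ℤ × Ins) :=
  [(4, .sag (.l 0) (.l 1) (.l 2) (.l 3)), (6, .sag (.l 0) (.l 1) (.l 3) (.l 2)), (5, .sag (.l 0)
    (.l 3) (.l 1) (.l 2)), (2, .sag (.l 0) (.l 2) (.l 3) (.l 1)), (1, .sag (.l 0) (.l 2) (.l 1)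
    (.l 3))]

theorem chktb : allZZ (nf (sub ptb (tot ctb))) = true := by decide +kernel

theorem tb {A : Type*} [NonUnitalNonAssocRing A] (h : BV A) (a b c d : A) :
    (((12 : ℤ) • (((a * b) * c) * d)) + (((-1 : ℤ) • (E12 a c b d)) + (((1 : ℤ) • (E12 a d b c))
    + (((1 : ℤ) • (E12 b c a d)) + (((-1 : ℤ) • (E12 b d a c)) + (((1 : ℤ) • (E12 c d a b)) +
    (((-1 : ℤ) • (e12 a b d c)) + (((1 : ℤ) • (e12 a c d b)) + ((-1 : ℤ) • (e12 b c d
    a)))))))))) = 0 := by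
  have h1 := cert (vals a b c d d) h ptb ctb chktb
  simp only [ptb, ev_add, ev_smul, ev_mul, ev_pE, ev_pe, ev_pD, va, vb, vc, vd, ve, ev_var,
    vals] at h1
  exact h1

def pS12 : Po :=
  (add (smul (1) (pe va vb vc (mul vd ve))) (smul (-1) (pE (mul va vb) vc vd ve)))

def cS12 : List (ℤ × Ins) :=
  [(-3, .sag (.l 0) (.l 1) (.l 2) (.n (.l 3) (.l 4))), (-1, .sag (.l 0) (.l 2) (.l 1) (.n (.l 3)
    (.l 4))), (-1, .msag (.l 0) (.l 3) (.l 2) (.l 1) (.l 4)), (-2, .sag (.l 0) (.n (.l 3) (.l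
    4)) (.l 1) (.l 2)), (1, .sag (.n (.l 0) (.l 1)) (.l 3) (.l 4) (.l 2)), (-1, .msag (.l 0) (.l
    3) (.l 1) (.l 2) (.l 4)), (1, .msag (.l 0) (.l 4) (.l 1) (.l 2) (.l 3)), (2, .sag (.l 0) (.l
    1) (.l 3) (.n (.l 2) (.l 4))), (2, .sag (.l 0) (.n (.l 1) (.l 4)) (.l 2) (.l 3)), (1, .msag
    (.l 0) (.l 2) (.l 4) (.l 1) (.l 3)), (-1, .b2 (.l 1) (.l 3) (.l 0) (.l 2) (.l 4)), (2, .msag
    (.l 0) (.l 2) (.l 4) (.l 3) (.l 1)), (1, .msag (.l 0) (.l 1) (.l 2) (.l 4) (.l 3)), (-1, .b2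
    (.l 0) (.l 4) (.l 1) (.l 2) (.l 3)), (-3, .sag (.l 0) (.l 1) (.n (.l 3) (.l 4)) (.l 2)),
    (-1, .sag (.n (.l 0) (.l 1)) (.l 2) (.l 4) (.l 3)), (-1, .sag (.n (.l 0) (.l 1)) (.l 3) (.l
    2) (.l 4)), (2, .sag (.n (.l 0) (.l 3)) (.l 2) (.l 4) (.l 1)), (-1, .msag (.l 0) (.l 1) (.l
    3) (.l 2) (.l 4)), (-1, .sag (.n (.l 0) (.l 2)) (.l 4) (.l 1) (.l 3)), (-1, .sag (.l 0) (.l
    4) (.n (.l 1) (.l 2)) (.l 3)), (2, .msag (.l 1) (.l 2) (.l 3) (.l 4) (.l 0)), (-2, .sag (.n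
    (.l 0) (.l 1)) (.l 4) (.l 3) (.l 2)), (2, .sag (.l 0) (.l 4) (.n (.l 2) (.l 3)) (.l 1))]

theorem chkS12 : allZZ (nf (sub pS12 (tot cS12))) = true := by decide +kernel

theorem S12 {A : Type*} [NonUnitalNonAssocRing A] (h : BV A) (a b c d e : A) :
    (((1 : ℤ) • (e12 a b c (d * e))) + ((-1 : ℤ) • (E12 (a * b) c d e))) = 0 := by
  have h1 := cert (vals a b c d e) h pS12 cS12 chkS12
  simp only [pS12, ev_add, ev_smul, ev_mul, ev_pE, ev_pe, ev_pD, va, vb, vc, vd, ve, ev_var,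
    vals] at h1
  exact h1

def pS10 : Po :=
  (add (smul (24) (mul (mul (mul va vb) vc) (mul vd ve))) (add (smul (24) (mul (mul (mul vb vc)
    va) (mul vd ve))) (add (smul (24) (mul (mul (mul vc va) vb) (mul vd ve))) (add (smul (2) (pE
    va vd (mul vb vc) ve)) (add (smul (2) (pE va vd (mul vc ve) vb)) (add (smul (2) (pE va vd
    (mul ve vb) vc)) (add (smul (-2) (pE va ve (mul vb vc) vd)) (add (smul (-2) (pE va ve (mul
    vc vd) vb)) (add (smul (-2) (pE va ve (mul vd vb) vc)) (add (smul (-1) (pE va vd vc (mul ve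
    vb))) (add (smul (-1) (pE va vd vb (mul vc ve))) (add (smul (2) (pE va vd ve (mul vb vc)))
    (add (smul (1) (pE va ve vc (mul vd vb))) (add (smul (1) (pE va ve vb (mul vc vd))) (add
    (smul (-2) (pE va ve vd (mul vb vc))) (add (smul (3) (pE (mul va vb) vd vc ve)) (add (smul
    (-3) (pE (mul va vb) ve vc vd)) (add (smul (9) (pE (mul va vd) ve vb vc)) (add (smul (2) (pE
    vb vd (mul vc va) ve)) (add (smul (2) (pE vb vd (mul va ve) vc)) (add (smul (2) (pE vb vd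
    (mul ve vc) va)) (add (smul (-2) (pE vb ve (mul vc va) vd)) (add (smul (-2) (pE vb ve (mul
    va vd) vc)) (add (smul (-2) (pE vb ve (mul vd vc) va)) (add (smul (-1) (pE vb vd va (mul ve
    vc))) (add (smul (-1) (pE vb vd vc (mul va ve))) (add (smul (2) (pE vb vd ve (mul vc va)))
    (add (smul (1) (pE vb ve va (mul vd vc))) (add (smul (1) (pE vb ve vc (mul va vd))) (add
    (smul (-2) (pE vb ve vd (mul vc va))) (add (smul (3) (pE (mul vb vc) vd va ve)) (add (smul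
    (-3) (pE (mul vb vc) ve va vd)) (add (smul (9) (pE (mul vb vd) ve vc va)) (add (smul (2) (pE
    vc vd (mul va vb) ve)) (add (smul (2) (pE vc vd (mul vb ve) va)) (add (smul (2) (pE vc vd
    (mul ve va) vb)) (add (smul (-2) (pE vc ve (mul va vb) vd)) (add (smul (-2) (pE vc ve (mul
    vb vd) va)) (add (smul (-2) (pE vc ve (mul vd va) vb)) (add (smul (-1) (pE vc vd vb (mul ve
    va))) (add (smul (-1) (pE vc vd va (mul vb ve))) (add (smul (2) (pE vc vd ve (mul va vb)))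
    (add (smul (1) (pE vc ve vb (mul vd va))) (add (smul (1) (pE vc ve va (mul vb vd))) (add
    (smul (-2) (pE vc ve vd (mul va vb))) (add (smul (3) (pE (mul vc va) vd vb ve)) (add (smul
    (-3) (pE (mul vc va) ve vb vd)) (add (smul (9) (pE (mul vc vd) ve va vb)) (smul (-9) (pE
    (mul va vb) vc vd ve))))))))))))))))))))))))))))))))))))))))))))))))))

def cS10 : List (ℤ × Ins) :=
  [(-18, .msag (.l 0) (.l 2) (.l 4) (.l 3) (.l 1)), (3, .b2 (.l 1) (.l 3) (.l 0) (.l 4) (.l 2)),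
    (30, .msag (.l 0) (.l 4) (.l 1) (.l 3) (.l 2)), (12, .msag (.l 0) (.l 3) (.l 2) (.l 4) (.l
    1)), (18, .sag (.n (.l 0) (.l 1)) (.l 3) (.l 4) (.l 2)), (-3, .msag (.l 0) (.l 1) (.l 4) (.l
    2) (.l 3)), (-15, .msag (.l 1) (.l 4) (.l 3) (.l 2) (.l 0)), (6, .b2 (.l 2) (.l 3) (.l 1)
    (.l 4) (.l 0)), (9, .sag (.l 0) (.n (.l 1) (.l 4)) (.l 2) (.l 3)), (-9, .msag (.l 0) (.l 2)
    (.l 4) (.l 1) (.l 3)), (12, .msag (.l 0) (.l 2) (.l 1) (.l 3) (.l 4)), (18, .sag (.l 0) (.l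
    2) (.n (.l 1) (.l 3)) (.l 4)), (-6, .b2 (.l 0) (.l 2) (.l 1) (.l 3) (.l 4)), (-18, .sag (.n
    (.l 0) (.l 3)) (.l 1) (.l 2) (.l 4)), (6, .sag (.l 0) (.n (.l 1) (.l 2)) (.l 4) (.l 3)),
    (-12, .sag (.n (.l 0) (.l 3)) (.l 2) (.l 4) (.l 1)), (-6, .sag (.n (.l 0) (.l 4)) (.l 1) (.l
    2) (.l 3)), (-3, .b2 (.l 3) (.l 4) (.l 0) (.l 2) (.l 1)), (-6, .sag (.l 0) (.l 1) (.l 3) (.n
    (.l 2) (.l 4))), (-6, .sag (.n (.l 0) (.l 1)) (.l 2) (.l 4) (.l 3)), (-6, .sag (.n (.l 0)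
    (.l 3)) (.l 4) (.l 2) (.l 1)), (24, .sag (.n (.l 0) (.l 1)) (.l 3) (.l 2) (.l 4)), (18, .sag
    (.l 0) (.l 1) (.n (.l 2) (.l 4)) (.l 3)), (-6, .msag (.l 0) (.l 3) (.l 1) (.l 2) (.l 4)),
    (12, .msag (.l 1) (.l 3) (.l 2) (.l 4) (.l 0)), (-24, .sag (.l 0) (.l 1) (.l 4) (.n (.l 2)
    (.l 3))), (-6, .sag (.l 0) (.n (.l 3) (.l 4)) (.l 2) (.l 1)), (6, .sag (.l 0) (.l 4) (.l 2)
    (.n (.l 1) (.l 3))), (-3, .sag (.l 0) (.l 3) (.l 2) (.n (.l 1) (.l 4))), (9, .msag (.l 1)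
    (.l 2) (.l 3) (.l 4) (.l 0)), (30, .sag (.n (.l 0) (.l 1)) (.l 2) (.l 3) (.l 4)), (-30, .sag
    (.l 0) (.n (.l 3) (.l 4)) (.l 1) (.l 2)), (3, .b2 (.l 0) (.l 4) (.l 1) (.l 2) (.l 3)), (-9,
    .b2 (.l 1) (.l 3) (.l 2) (.l 4) (.l 0)), (27, .msag (.l 0) (.l 1) (.l 4) (.l 3) (.l 2)),
    (24, .sag (.n (.l 0) (.l 2)) (.l 4) (.l 1) (.l 3)), (9, .msag (.l 0) (.l 3) (.l 4) (.l 1)
    (.l 2)), (-12, .msag (.l 1) (.l 4) (.l 2) (.l 3) (.l 0)), (21, .sag (.l 0) (.n (.l 1) (.l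
    2)) (.l 3) (.l 4)), (3, .sag (.l 0) (.l 4) (.l 3) (.n (.l 1) (.l 2))), (9, .b2 (.l 0) (.l 3)
    (.l 2) (.l 4) (.l 1)), (24, .sag (.n (.l 0) (.l 4)) (.l 3) (.l 2) (.l 1)), (6, .msag (.l 0)
    (.l 4) (.l 1) (.l 2) (.l 3)), (-3, .b2 (.l 2) (.l 3) (.l 0) (.l 4) (.l 1))]

theorem chkS10 : allZZ (nf (sub pS10 (tot cS10))) = true := by decide +kernel

theorem S10 {A : Type*} [NonUnitalNonAssocRing A] (h : BV A) (a b c d e : A) :
    (((24 : ℤ) • (((a * b) * c) * (d * e))) + (((24 : ℤ) • (((b * c) * a) * (d * e))) + (((24 :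
    ℤ) • (((c * a) * b) * (d * e))) + (((2 : ℤ) • (E12 a d (b * c) e)) + (((2 : ℤ) • (E12 a d (c
    * e) b)) + (((2 : ℤ) • (E12 a d (e * b) c)) + (((-2 : ℤ) • (E12 a e (b * c) d)) + (((-2 : ℤ)
    • (E12 a e (c * d) b)) + (((-2 : ℤ) • (E12 a e (d * b) c)) + (((-1 : ℤ) • (E12 a d c (e *
    b))) + (((-1 : ℤ) • (E12 a d b (c * e))) + (((2 : ℤ) • (E12 a d e (b * c))) + (((1 : ℤ) •
    (E12 a e c (d * b))) + (((1 : ℤ) • (E12 a e b (c * d))) + (((-2 : ℤ) • (E12 a e d (b * c)))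
    + (((3 : ℤ) • (E12 (a * b) d c e)) + (((-3 : ℤ) • (E12 (a * b) e c d)) + (((9 : ℤ) • (E12 (a
    * d) e b c)) + (((2 : ℤ) • (E12 b d (c * a) e)) + (((2 : ℤ) • (E12 b d (a * e) c)) + (((2 :
    ℤ) • (E12 b d (e * c) a)) + (((-2 : ℤ) • (E12 b e (c * a) d)) + (((-2 : ℤ) • (E12 b e (a *
    d) c)) + (((-2 : ℤ) • (E12 b e (d * c) a)) + (((-1 : ℤ) • (E12 b d a (e * c))) + (((-1 : ℤ)
    • (E12 b d c (a * e))) + (((2 : ℤ) • (E12 b d e (c * a))) + (((1 : ℤ) • (E12 b e a (d * c)))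
    + (((1 : ℤ) • (E12 b e c (a * d))) + (((-2 : ℤ) • (E12 b e d (c * a))) + (((3 : ℤ) • (E12 (b
    * c) d a e)) + (((-3 : ℤ) • (E12 (b * c) e a d)) + (((9 : ℤ) • (E12 (b * d) e c a)) + (((2 :
    ℤ) • (E12 c d (a * b) e)) + (((2 : ℤ) • (E12 c d (b * e) a)) + (((2 : ℤ) • (E12 c d (e * a)
    b)) + (((-2 : ℤ) • (E12 c e (a * b) d)) + (((-2 : ℤ) • (E12 c e (b * d) a)) + (((-2 : ℤ) •
    (E12 c e (d * a) b)) + (((-1 : ℤ) • (E12 c d b (e * a))) + (((-1 : ℤ) • (E12 c d a (b * e)))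
    + (((2 : ℤ) • (E12 c d e (a * b))) + (((1 : ℤ) • (E12 c e b (d * a))) + (((1 : ℤ) • (E12 c e
    a (b * d))) + (((-2 : ℤ) • (E12 c e d (a * b))) + (((3 : ℤ) • (E12 (c * a) d b e)) + (((-3 :
    ℤ) • (E12 (c * a) e b d)) + (((9 : ℤ) • (E12 (c * d) e a b)) + ((-9 : ℤ) • (E12 (a * b) c d
    e)))))))))))))))))))))))))))))))))))))))))))))))))) = 0 := by
  have h1 := cert (vals a b c d e) h pS10 cS10 chkS10
  simp only [pS10, ev_add, ev_smul, ev_mul, ev_pE, ev_pe, ev_pD, va, vb, vc, vd, ve, ev_var,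
    vals] at h1
  exact h1

def pS11 : Po :=
  (add (smul (60) (pE va vb vc (mul vd ve))) (add (smul (60) (pE va vb vd (mul vc ve))) (add
    (smul (-60) (pE vc vd va (mul vb ve))) (add (smul (-60) (pE vc vd vb (mul va ve))) (add
    (smul (4) (pE va vb ve (mul vd vc))) (add (smul (4) (pE va vb vc (mul ve vd))) (add (smul
    (-8) (pE va vb vd (mul vc ve))) (add (smul (2) (pE va vc vd (mul ve vb))) (add (smul (2) (pE
    va vc vb (mul vd ve))) (add (smul (-4) (pE va vc ve (mul vb vd))) (add (smul (4) (pE va vb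
    ve (mul vc vd))) (add (smul (4) (pE va vb vd (mul ve vc))) (add (smul (-8) (pE va vb vc (mul
    vd ve))) (add (smul (2) (pE va vd vc (mul ve vb))) (add (smul (2) (pE va vd vb (mul vc ve)))
    (add (smul (-4) (pE va vd ve (mul vb vc))) (add (smul (4) (pE vb va ve (mul vd vc))) (add
    (smul (4) (pE vb va vc (mul ve vd))) (add (smul (-8) (pE vb va vd (mul vc ve))) (add (smul
    (2) (pE vb vc vd (mul ve va))) (add (smul (2) (pE vb vc va (mul vd ve))) (add (smul (-4) (pE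
    vb vc ve (mul va vd))) (add (smul (4) (pE vb va ve (mul vc vd))) (add (smul (4) (pE vb va vd
    (mul ve vc))) (add (smul (-8) (pE vb va vc (mul vd ve))) (add (smul (2) (pE vb vd vc (mul ve
    va))) (add (smul (2) (pE vb vd va (mul vc ve))) (add (smul (-4) (pE vb vd ve (mul va vc)))
    (add (smul (4) (pE va ve vb (mul vd vc))) (add (smul (4) (pE va ve vc (mul vb vd))) (add
    (smul (-8) (pE va ve vd (mul vc vb))) (add (smul (2) (pE va vc vd (mul vb ve))) (add (smul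
    (2) (pE va vc ve (mul vd vb))) (add (smul (-4) (pE va vc vb (mul ve vd))) (add (smul (4) (pE
    va ve vb (mul vc vd))) (add (smul (4) (pE va ve vd (mul vb vc))) (add (smul (-8) (pE va ve
    vc (mul vd vb))) (add (smul (2) (pE va vd vc (mul vb ve))) (add (smul (2) (pE va vd ve (mul
    vc vb))) (add (smul (-4) (pE va vd vb (mul ve vc))) (add (smul (4) (pE ve va vb (mul vd
    vc))) (add (smul (4) (pE ve va vc (mul vb vd))) (add (smul (-8) (pE ve va vd (mul vc vb)))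
    (add (smul (2) (pE ve vc vd (mul vb va))) (add (smul (2) (pE ve vc va (mul vd vb))) (add
    (smul (-4) (pE ve vc vb (mul va vd))) (add (smul (4) (pE ve va vb (mul vc vd))) (add (smul
    (4) (pE ve va vd (mul vb vc))) (add (smul (-8) (pE ve va vc (mul vd vb))) (add (smul (2) (pE
    ve vd vc (mul vb va))) (add (smul (2) (pE ve vd va (mul vc vb))) (add (smul (-4) (pE ve vd
    vb (mul va vc))) (add (smul (4) (pE vb ve va (mul vd vc))) (add (smul (4) (pE vb ve vc (mul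
    va vd))) (add (smul (-8) (pE vb ve vd (mul vc va))) (add (smul (2) (pE vb vc vd (mul va
    ve))) (add (smul (2) (pE vb vc ve (mul vd va))) (add (smul (-4) (pE vb vc va (mul ve vd)))
    (add (smul (4) (pE vb ve va (mul vc vd))) (add (smul (4) (pE vb ve vd (mul va vc))) (add
    (smul (-8) (pE vb ve vc (mul vd va))) (add (smul (2) (pE vb vd vc (mul va ve))) (add (smul
    (2) (pE vb vd ve (mul vc va))) (add (smul (-4) (pE vb vd va (mul ve vc))) (add (smul (4) (pE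
    ve vb va (mul vd vc))) (add (smul (4) (pE ve vb vc (mul va vd))) (add (smul (-8) (pE ve vb
    vd (mul vc va))) (add (smul (2) (pE ve vc vd (mul va vb))) (add (smul (2) (pE ve vc vb (mul
    vd va))) (add (smul (-4) (pE ve vc va (mul vb vd))) (add (smul (4) (pE ve vb va (mul vc
    vd))) (add (smul (4) (pE ve vb vd (mul va vc))) (add (smul (-8) (pE ve vb vc (mul vd va)))
    (add (smul (2) (pE ve vd vc (mul va vb))) (add (smul (2) (pE ve vd vb (mul vc va))) (add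
    (smul (-4) (pE ve vd va (mul vb vc))) (add (smul (-4) (pE vc vd ve (mul vb va))) (add (smul
    (-4) (pE vc vd va (mul ve vb))) (add (smul (8) (pE vc vd vb (mul va ve))) (add (smul (-2)
    (pE vc va vb (mul ve vd))) (add (smul (-2) (pE vc va vd (mul vb ve))) (add (smul (4) (pE vc
    va ve (mul vd vb))) (add (smul (-4) (pE vc vd ve (mul va vb))) (add (smul (-4) (pE vc vd vb
    (mul ve va))) (add (smul (8) (pE vc vd va (mul vb ve))) (add (smul (-2) (pE vc vb va (mul ve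
    vd))) (add (smul (-2) (pE vc vb vd (mul va ve))) (add (smul (4) (pE vc vb ve (mul vd va)))
    (add (smul (-4) (pE vd vc ve (mul vb va))) (add (smul (-4) (pE vd vc va (mul ve vb))) (add
    (smul (8) (pE vd vc vb (mul va ve))) (add (smul (-2) (pE vd va vb (mul ve vc))) (add (smul
    (-2) (pE vd va vc (mul vb ve))) (add (smul (4) (pE vd va ve (mul vc vb))) (add (smul (-4)
    (pE vd vc ve (mul va vb))) (add (smul (-4) (pE vd vc vb (mul ve va))) (add (smul (8) (pE vd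
    vc va (mul vb ve))) (add (smul (-2) (pE vd vb va (mul ve vc))) (add (smul (-2) (pE vd vb vc
    (mul va ve))) (add (smul (4) (pE vd vb ve (mul vc va))) (add (smul (-4) (pE vc ve vd (mul vb
    va))) (add (smul (-4) (pE vc ve va (mul vd vb))) (add (smul (8) (pE vc ve vb (mul va vd)))
    (add (smul (-2) (pE vc va vb (mul vd ve))) (add (smul (-2) (pE vc va ve (mul vb vd))) (add
    (smul (4) (pE vc va vd (mul ve vb))) (add (smul (-4) (pE vc ve vd (mul va vb))) (add (smul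
    (-4) (pE vc ve vb (mul vd va))) (add (smul (8) (pE vc ve va (mul vb vd))) (add (smul (-2)
    (pE vc vb va (mul vd ve))) (add (smul (-2) (pE vc vb ve (mul va vd))) (add (smul (4) (pE vc
    vb vd (mul ve va))) (add (smul (-4) (pE ve vc vd (mul vb va))) (add (smul (-4) (pE ve vc va
    (mul vd vb))) (add (smul (8) (pE ve vc vb (mul va vd))) (add (smul (-2) (pE ve va vb (mul vd
    vc))) (add (smul (-2) (pE ve va vc (mul vb vd))) (add (smul (4) (pE ve va vd (mul vc vb)))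
    (add (smul (-4) (pE ve vc vd (mul va vb))) (add (smul (-4) (pE ve vc vb (mul vd va))) (add
    (smul (8) (pE ve vc va (mul vb vd))) (add (smul (-2) (pE ve vb va (mul vd vc))) (add (smul
    (-2) (pE ve vb vc (mul va vd))) (add (smul (4) (pE ve vb vd (mul vc va))) (add (smul (-4)
    (pE vd ve vc (mul vb va))) (add (smul (-4) (pE vd ve va (mul vc vb))) (add (smul (8) (pE vd
    ve vb (mul va vc))) (add (smul (-2) (pE vd va vb (mul vc ve))) (add (smul (-2) (pE vd va ve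
    (mul vb vc))) (add (smul (4) (pE vd va vc (mul ve vb))) (add (smul (-4) (pE vd ve vc (mul va
    vb))) (add (smul (-4) (pE vd ve vb (mul vc va))) (add (smul (8) (pE vd ve va (mul vb vc)))
    (add (smul (-2) (pE vd vb va (mul vc ve))) (add (smul (-2) (pE vd vb ve (mul va vc))) (add
    (smul (4) (pE vd vb vc (mul ve va))) (add (smul (-4) (pE ve vd vc (mul vb va))) (add (smul
    (-4) (pE ve vd va (mul vc vb))) (add (smul (8) (pE ve vd vb (mul va vc))) (add (smul (-2)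
    (pE ve va vb (mul vc vd))) (add (smul (-2) (pE ve va vd (mul vb vc))) (add (smul (4) (pE ve
    va vc (mul vd vb))) (add (smul (-4) (pE ve vd vc (mul va vb))) (add (smul (-4) (pE ve vd vb
    (mul vc va))) (add (smul (8) (pE ve vd va (mul vb vc))) (add (smul (-2) (pE ve vb va (mul vc
    vd))) (add (smul (-2) (pE ve vb vd (mul va vc))) (smul (4) (pE ve vb vc (mul vd
    va))))))))))))))))))))))))))))))))))))))))))))))))))))))))))))))))))))))))))))))))))))))))))))))))))))))))))))))))))))))))))))))))))))))))))))))))))))))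

def cS11 : List (ℤ × Ins) :=
  [(-36, .b2 (.l 0) (.l 1) (.l 2) (.l 4) (.l 3)), (-6, .b2 (.l 0) (.l 3) (.l 1) (.l 2) (.l 4)),
    (36, .sag (.n (.l 0) (.l 3)) (.l 1) (.l 4) (.l 2)), (72, .sag (.l 0) (.n (.l 1) (.l 4)) (.l
    2) (.l 3)), (30, .b2 (.l 2) (.l 3) (.l 0) (.l 4) (.l 1)), (36, .sag (.n (.l 0) (.l 2)) (.l
    3) (.l 4) (.l 1)), (-72, .sag (.l 0) (.l 2) (.n (.l 3) (.l 4)) (.l 1)), (-6, .b2 (.l 1) (.l
    2) (.l 3) (.l 4) (.l 0)), (30, .b2 (.l 2) (.l 3) (.l 1) (.l 4) (.l 0)), (-6, .b2 (.l 0) (.l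
    2) (.l 3) (.l 4) (.l 1)), (36, .sag (.n (.l 0) (.l 2)) (.l 1) (.l 4) (.l 3)), (72, .sag (.n
    (.l 0) (.l 4)) (.l 3) (.l 2) (.l 1)), (-72, .sag (.l 0) (.l 1) (.l 3) (.n (.l 2) (.l 4))),
    (36, .sag (.l 0) (.l 4) (.l 2) (.n (.l 1) (.l 3))), (-6, .b2 (.l 0) (.l 3) (.l 2) (.l 4) (.l
    1)), (-6, .b2 (.l 0) (.l 2) (.l 1) (.l 3) (.l 4)), (-36, .b2 (.l 0) (.l 1) (.l 3) (.l 4) (.l
    2)), (-6, .b2 (.l 1) (.l 2) (.l 0) (.l 3) (.l 4)), (36, .sag (.l 0) (.l 4) (.l 3) (.n (.l 1)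
    (.l 2))), (-72, .sag (.l 0) (.l 3) (.n (.l 2) (.l 4)) (.l 1)), (36, .sag (.n (.l 0) (.l 3))
    (.l 2) (.l 4) (.l 1)), (-72, .sag (.l 0) (.l 1) (.l 2) (.n (.l 3) (.l 4))), (-6, .b2 (.l 1)
    (.l 3) (.l 0) (.l 2) (.l 4)), (72, .sag (.l 0) (.n (.l 1) (.l 4)) (.l 3) (.l 2)), (-6, .b2
    (.l 1) (.l 3) (.l 2) (.l 4) (.l 0)), (36, .sag (.l 0) (.n (.l 1) (.l 2)) (.l 3) (.l 4)),
    (72, .sag (.n (.l 0) (.l 4)) (.l 2) (.l 3) (.l 1)), (36, .sag (.l 0) (.n (.l 1) (.l 3)) (.l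
    2) (.l 4))]

theorem chkS11 : allZZ (nf (sub pS11 (tot cS11))) = true := by decide +kernel

theorem S11 {A : Type*} [NonUnitalNonAssocRing A] (h : BV A) (a b c d e : A) :
    (((60 : ℤ) • (E12 a b c (d * e))) + (((60 : ℤ) • (E12 a b d (c * e))) + (((-60 : ℤ) • (E12 c
    d a (b * e))) + (((-60 : ℤ) • (E12 c d b (a * e))) + (((4 : ℤ) • (E12 a b e (d * c))) + (((4
    : ℤ) • (E12 a b c (e * d))) + (((-8 : ℤ) • (E12 a b d (c * e))) + (((2 : ℤ) • (E12 a c d (e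
    * b))) + (((2 : ℤ) • (E12 a c b (d * e))) + (((-4 : ℤ) • (E12 a c e (b * d))) + (((4 : ℤ) •
    (E12 a b e (c * d))) + (((4 : ℤ) • (E12 a b d (e * c))) + (((-8 : ℤ) • (E12 a b c (d * e)))
    + (((2 : ℤ) • (E12 a d c (e * b))) + (((2 : ℤ) • (E12 a d b (c * e))) + (((-4 : ℤ) • (E12 a
    d e (b * c))) + (((4 : ℤ) • (E12 b a e (d * c))) + (((4 : ℤ) • (E12 b a c (e * d))) + (((-8
    : ℤ) • (E12 b a d (c * e))) + (((2 : ℤ) • (E12 b c d (e * a))) + (((2 : ℤ) • (E12 b c a (d *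
    e))) + (((-4 : ℤ) • (E12 b c e (a * d))) + (((4 : ℤ) • (E12 b a e (c * d))) + (((4 : ℤ) •
    (E12 b a d (e * c))) + (((-8 : ℤ) • (E12 b a c (d * e))) + (((2 : ℤ) • (E12 b d c (e * a)))
    + (((2 : ℤ) • (E12 b d a (c * e))) + (((-4 : ℤ) • (E12 b d e (a * c))) + (((4 : ℤ) • (E12 a
    e b (d * c))) + (((4 : ℤ) • (E12 a e c (b * d))) + (((-8 : ℤ) • (E12 a e d (c * b))) + (((2
    : ℤ) • (E12 a c d (b * e))) + (((2 : ℤ) • (E12 a c e (d * b))) + (((-4 : ℤ) • (E12 a c b (e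
    * d))) + (((4 : ℤ) • (E12 a e b (c * d))) + (((4 : ℤ) • (E12 a e d (b * c))) + (((-8 : ℤ) •
    (E12 a e c (d * b))) + (((2 : ℤ) • (E12 a d c (b * e))) + (((2 : ℤ) • (E12 a d e (c * b))) +
    (((-4 : ℤ) • (E12 a d b (e * c))) + (((4 : ℤ) • (E12 e a b (d * c))) + (((4 : ℤ) • (E12 e a
    c (b * d))) + (((-8 : ℤ) • (E12 e a d (c * b))) + (((2 : ℤ) • (E12 e c d (b * a))) + (((2 :
    ℤ) • (E12 e c a (d * b))) + (((-4 : ℤ) • (E12 e c b (a * d))) + (((4 : ℤ) • (E12 e a b (c *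
    d))) + (((4 : ℤ) • (E12 e a d (b * c))) + (((-8 : ℤ) • (E12 e a c (d * b))) + (((2 : ℤ) •
    (E12 e d c (b * a))) + (((2 : ℤ) • (E12 e d a (c * b))) + (((-4 : ℤ) • (E12 e d b (a * c)))
    + (((4 : ℤ) • (E12 b e a (d * c))) + (((4 : ℤ) • (E12 b e c (a * d))) + (((-8 : ℤ) • (E12 b
    e d (c * a))) + (((2 : ℤ) • (E12 b c d (a * e))) + (((2 : ℤ) • (E12 b c e (d * a))) + (((-4
    : ℤ) • (E12 b c a (e * d))) + (((4 : ℤ) • (E12 b e a (c * d))) + (((4 : ℤ) • (E12 b e d (a *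
    c))) + (((-8 : ℤ) • (E12 b e c (d * a))) + (((2 : ℤ) • (E12 b d c (a * e))) + (((2 : ℤ) •
    (E12 b d e (c * a))) + (((-4 : ℤ) • (E12 b d a (e * c))) + (((4 : ℤ) • (E12 e b a (d * c)))
    + (((4 : ℤ) • (E12 e b c (a * d))) + (((-8 : ℤ) • (E12 e b d (c * a))) + (((2 : ℤ) • (E12 e
    c d (a * b))) + (((2 : ℤ) • (E12 e c b (d * a))) + (((-4 : ℤ) • (E12 e c a (b * d))) + (((4
    : ℤ) • (E12 e b a (c * d))) + (((4 : ℤ) • (E12 e b d (a * c))) + (((-8 : ℤ) • (E12 e b c (d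
    * a))) + (((2 : ℤ) • (E12 e d c (a * b))) + (((2 : ℤ) • (E12 e d b (c * a))) + (((-4 : ℤ) •
    (E12 e d a (b * c))) + (((-4 : ℤ) • (E12 c d e (b * a))) + (((-4 : ℤ) • (E12 c d a (e * b)))
    + (((8 : ℤ) • (E12 c d b (a * e))) + (((-2 : ℤ) • (E12 c a b (e * d))) + (((-2 : ℤ) • (E12 c
    a d (b * e))) + (((4 : ℤ) • (E12 c a e (d * b))) + (((-4 : ℤ) • (E12 c d e (a * b))) + (((-4
    : ℤ) • (E12 c d b (e * a))) + (((8 : ℤ) • (E12 c d a (b * e))) + (((-2 : ℤ) • (E12 c b a (e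
    * d))) + (((-2 : ℤ) • (E12 c b d (a * e))) + (((4 : ℤ) • (E12 c b e (d * a))) + (((-4 : ℤ) •
    (E12 d c e (b * a))) + (((-4 : ℤ) • (E12 d c a (e * b))) + (((8 : ℤ) • (E12 d c b (a * e)))
    + (((-2 : ℤ) • (E12 d a b (e * c))) + (((-2 : ℤ) • (E12 d a c (b * e))) + (((4 : ℤ) • (E12 d
    a e (c * b))) + (((-4 : ℤ) • (E12 d c e (a * b))) + (((-4 : ℤ) • (E12 d c b (e * a))) + (((8
    : ℤ) • (E12 d c a (b * e))) + (((-2 : ℤ) • (E12 d b a (e * c))) + (((-2 : ℤ) • (E12 d b c (a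
    * e))) + (((4 : ℤ) • (E12 d b e (c * a))) + (((-4 : ℤ) • (E12 c e d (b * a))) + (((-4 : ℤ) •
    (E12 c e a (d * b))) + (((8 : ℤ) • (E12 c e b (a * d))) + (((-2 : ℤ) • (E12 c a b (d * e)))
    + (((-2 : ℤ) • (E12 c a e (b * d))) + (((4 : ℤ) • (E12 c a d (e * b))) + (((-4 : ℤ) • (E12 c
    e d (a * b))) + (((-4 : ℤ) • (E12 c e b (d * a))) + (((8 : ℤ) • (E12 c e a (b * d))) + (((-2
    : ℤ) • (E12 c b a (d * e))) + (((-2 : ℤ) • (E12 c b e (a * d))) + (((4 : ℤ) • (E12 c b d (e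
    * a))) + (((-4 : ℤ) • (E12 e c d (b * a))) + (((-4 : ℤ) • (E12 e c a (d * b))) + (((8 : ℤ) •
    (E12 e c b (a * d))) + (((-2 : ℤ) • (E12 e a b (d * c))) + (((-2 : ℤ) • (E12 e a c (b * d)))
    + (((4 : ℤ) • (E12 e a d (c * b))) + (((-4 : ℤ) • (E12 e c d (a * b))) + (((-4 : ℤ) • (E12 e
    c b (d * a))) + (((8 : ℤ) • (E12 e c a (b * d))) + (((-2 : ℤ) • (E12 e b a (d * c))) + (((-2
    : ℤ) • (E12 e b c (a * d))) + (((4 : ℤ) • (E12 e b d (c * a))) + (((-4 : ℤ) • (E12 d e c (b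
    * a))) + (((-4 : ℤ) • (E12 d e a (c * b))) + (((8 : ℤ) • (E12 d e b (a * c))) + (((-2 : ℤ) •
    (E12 d a b (c * e))) + (((-2 : ℤ) • (E12 d a e (b * c))) + (((4 : ℤ) • (E12 d a c (e * b)))
    + (((-4 : ℤ) • (E12 d e c (a * b))) + (((-4 : ℤ) • (E12 d e b (c * a))) + (((8 : ℤ) • (E12 d
    e a (b * c))) + (((-2 : ℤ) • (E12 d b a (c * e))) + (((-2 : ℤ) • (E12 d b e (a * c))) + (((4
    : ℤ) • (E12 d b c (e * a))) + (((-4 : ℤ) • (E12 e d c (b * a))) + (((-4 : ℤ) • (E12 e d a (c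
    * b))) + (((8 : ℤ) • (E12 e d b (a * c))) + (((-2 : ℤ) • (E12 e a b (c * d))) + (((-2 : ℤ) •
    (E12 e a d (b * c))) + (((4 : ℤ) • (E12 e a c (d * b))) + (((-4 : ℤ) • (E12 e d c (a * b)))
    + (((-4 : ℤ) • (E12 e d b (c * a))) + (((8 : ℤ) • (E12 e d a (b * c))) + (((-2 : ℤ) • (E12 e
    b a (c * d))) + (((-2 : ℤ) • (E12 e b d (a * c))) + ((4 : ℤ) • (E12 e b c (d *
    a))))))))))))))))))))))))))))))))))))))))))))))))))))))))))))))))))))))))))))))))))))))))))))))))))))))))))))))))))))))))))))))))))))))))))))))))))))))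
    = 0 := by
  have h1 := cert (vals a b c d e) h pS11 cS11 chkS11
  simp only [pS11, ev_add, ev_smul, ev_mul, ev_pE, ev_pe, ev_pD, va, vb, vc, vd, ve, ev_var,
    vals] at h1
  exact h1

end OctId.CertR
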