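import Pool.Agent.Work.MP_9b6dd6_al.Defs
import Pool.Agent.Work.MP_9b6dd6_al.CertP

/-!
# Identities of degree 4 and 5 in Malcev algebras satisfying the basis

All statements are consequences of anticommutativity, Sagle's identity and (B2).
-/

namespace OctId

open Finset

set_option linter.unusedSectionVars false
set_option linter.unusedSimpArgs false

noncomputable section

variable {F : Type*} [Field F] [CharZero F] {R : Type*} [NonUnitalNonAssocRing R] [Module F R]
  [IsScalarTower F R R] [SMulCommClass F R R]

/-! ### formal properties of `EE` (anticommutativity only) -/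

theorem EE_symm (a b c d : R) : EE F a b c d = EE F b a c d := by
  simp only [EE, Oo, Dd, mul_add, add_mul]
  module

theorem EE_skew (a b c d : R) : EE F a b c d = -EE F a b d c := by
  simp only [EE, Oo, Dd, mul_add, add_mul]
  module

theorem EE_add1 (a a' b c d : R) : EE F (a + a') b c d = EE F a b c d + EE F a' b c d := by
  simp only [EE, Oo, Dd, mul_add, add_mul]
  module

theorem EE_add3 (a b c c' d : R) : EE F a b (c + c') d = EE F a b c d + EE F a b c' d := by
  simp only [EE, Oo, Dd, mul_add, add_mul]
  module

theorem EE_smul1 (x : F) (a b c d : R) : EE F (x • a) b c d = x • EE F a b c d := by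
  simp only [EE, Oo, Dd, mul_add, add_mul, smul_mul_assoc, mul_smul_comm]
  module

theorem EE_smul3 (x : F) (a b c d : R) : EE F a b (x • c) d = x • EE F a b c d := by
  simp only [EE, Oo, Dd, mul_add, add_mul, smul_mul_assoc, mul_smul_comm]
  module

/-! ### bridge to the integral certificates -/

open CertR in
theorem Cert_E12 (a b c d : R) : EE F a b c d = (1 / 12 : F) • E12 a b c d := by
  simp only [EE, E12]
  module

open CertR in
theorem Cert_e12 (a b c s : R) : e4 F a b c s = (1 / 12 : F) • e12 a b c s := by
  simp only [e4, e12, Cert_E12 (F := F)]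
  module

open CertR in
theorem Cert_BV (hR : MalAlg F R) : BV R where
  ac := fun x y => hR.anti y x
  sag := hR.sagle
  b2 := by
    intro a b c d e
    have h := hR.b2 a b c d e
    rw [Cert_E12, Cert_E12, smul_mul_assoc] at h
    have h2 := congrArg (fun z => (12 : F) • z) h
    simp only [smul_smul] at h2
    norm_num at h2
    exact h2

/-! ### degree 4 -/

variable (hR : MalAlg F R)
include hR

/-- (S1) -/
theorem cert_S1 (a b c d : R) :
    Dd a b c * d = (-2 : F) • EE F a b c d + EE F a c b d + EE F b c a d := by
  have h := CertR.S1 (Cert_BV hR) a b c d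
  simp only [Cert_E12 (F := F)]
  linear_combination (norm := module) (1 / 12 : F) • h

/-- (S4') `e4` is skew in the last two of the first three arguments -/
theorem cert_e4_skew (a b c s : R) : e4 F a b c s + e4 F a c b s = 0 := by
  have h := CertR.S4 (Cert_BV hR) a b c s
  simp only [Cert_e12 (F := F)]
  linear_combination (norm := module) (1 / 12 : F) • h

/-- `e4` is skew in the first two arguments -/
theorem cert_e4_skew' (a b c s : R) : e4 F a b c s + e4 F b a c s = 0 := by
  have h := CertR.S4b (Cert_BV hR) a b c s
  simp only [Cert_e12 (F := F)]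
  linear_combination (norm := module) (1 / 12 : F) • h

/-- (S6') -/
theorem cert_S6 (a b c q : R) :
    (b * c) * (a * q) + (c * a) * (b * q) + (a * b) * (c * q) =
      (-3 : F) • e4 F a b c q - e4 F q b c a - e4 F a q c b - e4 F a b q c
        + (2 : F) • (EE F a q b c + EE F b q c a + EE F c q a b) := by
  have h := CertR.S6 (Cert_BV hR) a b c q
  simp only [Cert_e12 (F := F), Cert_E12 (F := F)]
  linear_combination (norm := module) (1 / 12 : F) • h

theorem cert_tree_a (a b c d : R) :
    (a * b) * (c * d) = -EE F a c b d + EE F a d b c + EE F b c a d - EE F b d a c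
      - e4 F a b c d + e4 F a b d c + e4 F a c d b - e4 F b c d a := by
  have h := CertR.ta (Cert_BV hR) a b c d
  simp only [Cert_e12 (F := F), Cert_E12 (F := F)]
  linear_combination (norm := module) (1 / 12 : F) • h

theorem cert_tree_b (a b c d : R) :
    ((a * b) * c) * d = EE F a c b d - EE F a d b c - EE F b c a d + EE F b d a c
      - EE F c d a b + e4 F a b d c - e4 F a c d b + e4 F b c d a := by
  have h := CertR.tb (Cert_BV hR) a b c d
  simp only [Cert_e12 (F := F), Cert_E12 (F := F)]
  linear_combination (norm := module) (1 / 12 : F) • h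

/-! ### degree 5 -/

/-- (S12) -/
theorem cert_S12 (a b c p q : R) : e4 F a b c (p * q) = EE F (a * b) c p q := by
  have h := CertR.S12 (Cert_BV hR) a b c p q
  simp only [Cert_e12 (F := F), Cert_E12 (F := F)]
  linear_combination (norm := module) (1 / 12 : F) • h

/-- (S10), where `g(a,b)` applied to a product `c*d` is `EE a b c d` -/
theorem cert_S10 (g : R → R → R →ₗ[F] R) (hg : ∀ a b c d, g a b (c * d) = EE F a b c d)
    (a b c d e : R) :
    Jj a b c * (d * e) =
      -((g a d (Jj b c e) - g a e (Jj b c d)) + (g b d (Jj c a e) - g b e (Jj c a d))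
        + (g c d (Jj a b e) - g c e (Jj a b d)))
      + (3 / 2 : F) • ((g a d (Dh F b c e) - g a e (Dh F b c d))
        + (g b d (Dh F c a e) - g b e (Dh F c a d)) + (g c d (Dh F a b e) - g c e (Dh F a b d)))
      + (9 / 2 : F) • g (a * b) c (d * e)
      - (3 / 2 : F) • ((g (a * b) d (c * e) - g (a * b) e (c * d))
        + (g (b * c) d (a * e) - g (b * c) e (a * d))
        + (g (c * a) d (b * e) - g (c * a) e (b * d)))
      - (9 / 2 : F) • (g (a * d) e (b * c) + g (b * d) e (c * a) + g (c * d) e (a * b)) := by
  have h := CertR.S10 (Cert_BV hR) a b c d e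
  simp only [Jj, Dh, map_add, map_sub, map_smul, hg, Cert_E12 (F := F), add_mul]
  linear_combination (norm := module) (1 / 24 : F) • h

/-- the element `d_{pq}` of degree 5, a lift of `g_pq o_{abc} - o_{pqabc}` -/
def dfive (F : Type*) [Field F] {R : Type*} [NonUnitalNonAssocRing R] [Module F R]
    (g : R → R → R →ₗ[F] R) (p q a b c : R) : R :=
  (1 / 60 : F) • (
    ((4 : F) • g a b (Dh F p c q) + (2 : F) • g a p (Dh F b q c))
    + ((4 : F) • g a b (Dh F q c p) + (2 : F) • g a q (Dh F b p c))
    + ((4 : F) • g b a (Dh F p c q) + (2 : F) • g b p (Dh F a q c))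
    + ((4 : F) • g b a (Dh F q c p) + (2 : F) • g b q (Dh F a p c))
    + ((4 : F) • g a c (Dh F p b q) + (2 : F) • g a p (Dh F c q b))
    + ((4 : F) • g a c (Dh F q b p) + (2 : F) • g a q (Dh F c p b))
    + ((4 : F) • g c a (Dh F p b q) + (2 : F) • g c p (Dh F a q b))
    + ((4 : F) • g c a (Dh F q b p) + (2 : F) • g c q (Dh F a p b))
    + ((4 : F) • g b c (Dh F p a q) + (2 : F) • g b p (Dh F c q a))
    + ((4 : F) • g b c (Dh F q a p) + (2 : F) • g b q (Dh F c p a))
    + ((4 : F) • g c b (Dh F p a q) + (2 : F) • g c p (Dh F b q a))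
    + ((4 : F) • g c b (Dh F q a p) + (2 : F) • g c q (Dh F b p a)))

/-- (S11) -/
theorem cert_S11 (g : R → R → R →ₗ[F] R) (hg : ∀ a b c d, g a b (c * d) = EE F a b c d)
    (a b c d l : R) :
    g a b (-(1 / 3 : F) • Dd c d l) - g c d (-(1 / 3 : F) • Dd a b l)
      = dfive F g c d a b l - dfive F g a b c d l := by
  have h := CertR.S11 (Cert_BV hR) a b c d l
  simp only [dfive, Dd, Dh, map_add, map_sub, map_smul, hg, Cert_E12 (F := F)]
  linear_combination (norm := module) (-(1 / 2160) : F) • h

end

end OctId
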