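import Mathlib

/-!
# The matching complex: rational acyclicity in degree one

A function `del` on ordered pairs of disjoint two-element subsets satisfying the cocycle condition on
triples of pairwise disjoint subsets is a coboundary, if there are at least 7 letters.
-/

namespace OctId

open Finset

/-- four distinct letters -/
def D4 (p q r t : ℕ) : Prop := p ≠ q ∧ p ≠ r ∧ p ≠ t ∧ q ≠ r ∧ q ≠ t ∧ r ≠ t

/-- six distinct letters -/
def D6 (p q r t u v : ℕ) : Prop :=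
  D4 p q r t ∧ u ≠ v ∧ (u ≠ p ∧ u ≠ q ∧ u ≠ r ∧ u ≠ t) ∧ (v ≠ p ∧ v ≠ q ∧ v ≠ r ∧ v ≠ t)

theorem four_cycle_aux {F E : Type*} [Field F] [CharZero F] [AddCommGroup E] [Module F E]
    (D : Fin 7 → Fin 7 → Fin 7 → Fin 7 → E)
    (h3 : ∀ p q r t : Fin 7, [p, q, r, t].Nodup → D r t p q = -D p q r t)
    (h4 : ∀ p q r t u v : Fin 7, [p, q, r, t, u, v].Nodup →
      D p q r t + D r t u v + D u v p q = 0) :
    D 0 1 3 4 - D 0 2 3 4 + D 0 2 3 5 - D 0 1 3 5 = 0 := by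
  have t0 := h4 0 3 1 2 5 6 (by decide)
  rw [h3 0 3 5 6 (by decide)] at t0
  have t1 := h4 0 2 1 6 3 4 (by decide)
  rw [h3 0 2 3 4 (by decide)] at t1
  have t2 := h4 1 6 2 5 3 4 (by decide)
  rw [h3 1 6 3 4 (by decide)] at t2
  have t3 := h4 0 1 2 5 3 4 (by decide)
  rw [h3 0 1 3 4 (by decide)] at t3
  have t4 := h4 0 3 1 6 2 5 (by decide)
  rw [h3 0 3 2 5 (by decide)] at t4
  have t5 := h4 0 2 3 4 5 6 (by decide)
  rw [h3 0 2 5 6 (by decide)] at t5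
  have t6 := h4 0 1 3 5 4 6 (by decide)
  rw [h3 0 1 4 6 (by decide)] at t6
  have t7 := h4 1 6 2 4 3 5 (by decide)
  rw [h3 1 6 3 5 (by decide)] at t7
  have t8 := h4 0 1 2 4 5 6 (by decide)
  rw [h3 0 1 5 6 (by decide)] at t8
  have t9 := h4 1 2 3 5 4 6 (by decide)
  rw [h3 1 2 4 6 (by decide)] at t9
  have t10 := h4 1 3 2 5 4 6 (by decide)
  rw [h3 1 3 4 6 (by decide)] at t10
  have t11 := h4 0 1 2 4 3 5 (by decide)
  rw [h3 0 1 3 5 (by decide)] at t11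
  have t12 := h4 0 2 1 3 5 6 (by decide)
  rw [h3 0 2 5 6 (by decide)] at t12
  have t13 := h4 0 4 1 2 5 6 (by decide)
  rw [h3 0 4 5 6 (by decide)] at t13
  have t14 := h4 0 2 1 3 4 6 (by decide)
  rw [h3 0 2 4 6 (by decide)] at t14
  have t15 := h4 0 4 1 3 2 5 (by decide)
  rw [h3 0 4 2 5 (by decide)] at t15
  have t16 := h4 0 3 2 5 4 6 (by decide)
  rw [h3 0 3 4 6 (by decide)] at t16
  have t17 := h4 0 1 3 4 5 6 (by decide)
  rw [h3 0 1 5 6 (by decide)] at t17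
  have t18 := h4 0 4 1 2 3 5 (by decide)
  rw [h3 0 4 3 5 (by decide)] at t18
  have t19 := h4 0 4 1 3 5 6 (by decide)
  rw [h3 0 4 5 6 (by decide)] at t19
  have t20 := h4 0 4 1 6 3 5 (by decide)
  rw [h3 0 4 3 5 (by decide)] at t20
  have t21 := h4 0 3 2 4 5 6 (by decide)
  rw [h3 0 3 5 6 (by decide)] at t21
  have t22 := h4 0 3 1 6 2 4 (by decide)
  rw [h3 0 3 2 4 (by decide)] at t22
  have t23 := h4 0 2 3 5 4 6 (by decide)
  rw [h3 0 2 4 6 (by decide)] at t23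
  have t24 := h4 0 2 1 6 3 5 (by decide)
  rw [h3 0 2 3 5 (by decide)] at t24
  have t25 := h4 0 3 1 2 4 6 (by decide)
  rw [h3 0 3 4 6 (by decide)] at t25
  have t26 := h4 0 1 2 5 4 6 (by decide)
  rw [h3 0 1 4 6 (by decide)] at t26
  have t27 := h4 0 4 1 6 2 5 (by decide)
  rw [h3 0 4 2 5 (by decide)] at t27
  linear_combination (norm := module) (-1 / 3 : F) • t0 + (2 / 3 : F) • t1 + (2 / 3 : F) • t2 + (-2 / 3 : F) • t3 + (-1 / 3 : F) • t4 + (-1 / 3 : F) • t5 + (-2 / 3 : F) • t6 + (-1 / 3 : F) • t7 + (-1 / 3 : F) • t8 + (1 / 3 : F) • t9 + (-1 / 3 : F) • t10 + (1 / 3 : F) • t11 + (1 / 3 : F) • t12 + (1 / 3 : F) • t13 + (-1 / 3 : F) • t14 + (1 / 3 : F) • t15 + (-1 / 3 : F) • t16 + (1 / 3 : F) • t17 + (-1 / 3 : F) • t18 + (-1 / 3 : F) • t19 + (1 / 3 : F) • t20 + (1 / 3 : F) • t21 + (1 / 3 : F) • t22 + (1 / 3 : F) • t23 + (-2 / 3 : F) • t24 + (1 / 3 : F) • t25 + (2 / 3 : F) • t26 + (-1 / 3 :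 F) • t27

theorem Coh_exists_not_mem {B S : Finset ℕ} (h : S.card < B.card) : ∃ w ∈ B, w ∉ S := by
  by_contra hcon
  push Not at hcon
  exact absurd (Finset.card_le_card (fun w hw => hcon w hw)) (not_le.mpr h)

/-- the 4-cycle condition -/
theorem four_cycle {F E : Type*} [Field F] [CharZero F] [AddCommGroup E] [Module F E]
    {B : Finset ℕ} (hB : 7 ≤ B.card) (del : ℕ → ℕ → ℕ → ℕ → E)
    (h3 : ∀ p ∈ B, ∀ q ∈ B, ∀ r ∈ B, ∀ t ∈ B, D4 p q r t → del r t p q = -del p q r t)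
    (h4 : ∀ p ∈ B, ∀ q ∈ B, ∀ r ∈ B, ∀ t ∈ B, ∀ u ∈ B, ∀ v ∈ B, D6 p q r t u v →
      del p q r t + del r t u v + del u v p q = 0)
    {a b c x y z : ℕ} (ha : a ∈ B) (hb : b ∈ B) (hc : c ∈ B) (hx : x ∈ B) (hy : y ∈ B)
    (hz : z ∈ B) (h : D6 a b c x y z) :
    del a b x y - del a c x y + del a c x z - del a b x z = 0 := by
  obtain ⟨w, hw, hwn⟩ := Coh_exists_not_mem (B := B) (S := {a, b, c, x, y, z})
    (lt_of_le_of_lt Finset.card_le_six (by omega))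
  simp only [Finset.mem_insert, Finset.mem_singleton, not_or] at hwn
  obtain ⟨w1, w2, w3, w4, w5, w6⟩ := hwn
  obtain ⟨⟨n1, n2, n3, n4, n5, n6⟩, n7, ⟨n8, n9, n10, n11⟩, ⟨n12, n13, n14, n15⟩⟩ := h
  let L : Fin 7 → ℕ := ![a, b, c, x, y, z, w]
  have hLB : ∀ i, L i ∈ B := by
    intro i
    fin_cases i <;> simp [L, ha, hb, hc, hx, hy, hz, hw]
  have hL : Function.Injective L := by
    intro i j hij
    fin_cases i <;> fin_cases j <;> simp [L] at hij ⊢ <;> first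
      | exact absurd hij (by assumption)
      | exact absurd hij.symm (by assumption)
  have h := four_cycle_aux (F := F) (fun p q r t => del (L p) (L q) (L r) (L t))
    (by
      intro p q r t hn
      simp only [List.nodup_cons, List.mem_cons, List.not_mem_nil, or_false, not_or,
        List.nodup_nil, not_false_eq_true, and_true] at hn
      obtain ⟨⟨m1, m2, m3⟩, ⟨m4, m5⟩, m6⟩ := hn
      exact h3 _ (hLB p) _ (hLB q) _ (hLB r) _ (hLB t)
        ⟨hL.ne m1, hL.ne m2, hL.ne m3, hL.ne m4, hL.ne m5, hL.ne m6⟩)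
    (by
      intro p q r t u v hn
      simp only [List.nodup_cons, List.mem_cons, List.not_mem_nil, or_false, not_or,
        List.nodup_nil, not_false_eq_true, and_true] at hn
      obtain ⟨⟨m1, m2, m3, m4, m5⟩, ⟨m6, m7, m8, m9⟩, ⟨m10, m11, m12⟩, ⟨m13, m14⟩, m15⟩ := hn
      exact h4 _ (hLB p) _ (hLB q) _ (hLB r) _ (hLB t) _ (hLB u) _ (hLB v)
        ⟨⟨hL.ne m1, hL.ne m2, hL.ne m3, hL.ne m6, hL.ne m7, hL.ne m10⟩, hL.ne m15,
          ⟨(hL.ne m4).symm, (hL.ne m8).symm, (hL.ne m11).symm, (hL.ne m13).symm⟩,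
          ⟨(hL.ne m5).symm, (hL.ne m9).symm, (hL.ne m12).symm, (hL.ne m14).symm⟩⟩)
  exact h

theorem Coh_disj {p q r t : ℕ} : Disjoint ({p, q} : Finset ℕ) {r, t} ↔
    p ≠ r ∧ p ≠ t ∧ q ≠ r ∧ q ≠ t := by
  simp only [Finset.disjoint_left, Finset.mem_insert, Finset.mem_singleton]
  constructor
  · intro h
    refine ⟨fun e => h (Or.inl rfl) (Or.inl e), fun e => h (Or.inl rfl) (Or.inr e),
      fun e => h (Or.inr rfl) (Or.inl e), fun e => h (Or.inr rfl) (Or.inr e)⟩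
  · rintro ⟨h1, h2, h3, h4⟩ w (rfl | rfl) (h | h)
    · exact h1 h
    · exact h2 h
    · exact h3 h
    · exact h4 h

/-- abstract form: pairs as two-element sets -/
theorem Coh_potential {E : Type*} [AddCommGroup E] {B : Finset ℕ} (hB : 7 ≤ B.card)
    (Δ : Finset ℕ → Finset ℕ → E)
    (h3 : ∀ e f : Finset ℕ, e ⊆ B → f ⊆ B → e.card = 2 → f.card = 2 → Disjoint e f →
      Δ f e = -Δ e f)
    (h4 : ∀ e f g : Finset ℕ, e ⊆ B → f ⊆ B → g ⊆ B → e.card = 2 → f.card = 2 → g.card = 2 →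
      Disjoint e f → Disjoint f g → Disjoint e g → Δ e f + Δ f g + Δ g e = 0)
    (h5 : ∀ a ∈ B, ∀ b ∈ B, ∀ c ∈ B, ∀ x ∈ B, ∀ y ∈ B, ∀ z ∈ B, D6 a b c x y z →
      Δ {a, b} {x, y} - Δ {a, c} {x, y} + Δ {a, c} {x, z} - Δ {a, b} {x, z} = 0) :
    ∃ d : Finset ℕ → E, ∀ e f : Finset ℕ, e ⊆ B → f ⊆ B → e.card = 2 → f.card = 2 →
      Disjoint e f → Δ e f = d f - d e := by
  -- two pairs which meet in exactly one letter
  have hmeet : ∀ e f : Finset ℕ, e.card = 2 → f.card = 2 → ¬ Disjoint e f → e ≠ f →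
      ∃ a b c, e = {a, b} ∧ f = {a, c} ∧ a ≠ b ∧ a ≠ c ∧ b ≠ c := by
    intro e f he hf hd hne
    rw [Finset.not_disjoint_iff] at hd
    obtain ⟨a, hae, haf⟩ := hd
    have h1 : (e.erase a).card = 1 := by rw [Finset.card_erase_of_mem hae, he]
    have h2 : (f.erase a).card = 1 := by rw [Finset.card_erase_of_mem haf, hf]
    obtain ⟨b, hb⟩ := Finset.card_eq_one.mp h1
    obtain ⟨c, hc⟩ := Finset.card_eq_one.mp h2
    have he' : e = {a, b} := by rw [← Finset.insert_erase hae, hb]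
    have hf' : f = {a, c} := by rw [← Finset.insert_erase haf, hc]
    have hb' : b ∈ e.erase a := by rw [hb]; exact Finset.mem_singleton_self b
    have hc' : c ∈ f.erase a := by rw [hc]; exact Finset.mem_singleton_self c
    refine ⟨a, b, c, he', hf', (Finset.ne_of_mem_erase hb').symm,
      (Finset.ne_of_mem_erase hc').symm, ?_⟩
    intro hbc
    apply hne
    rw [he', hf', hbc]
  -- independence of the path
  have hpath : ∀ e f h h' : Finset ℕ, e ⊆ B → f ⊆ B → h ⊆ B → h' ⊆ B → e.card = 2 →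
      f.card = 2 → h.card = 2 → h'.card = 2 → Disjoint e h → Disjoint f h → Disjoint e h' →
      Disjoint f h' → Δ e h + Δ h f = Δ e h' + Δ h' f := by
    intro e f h h' he hf hh hh' ce cf ch ch' d1 d2 d3 d4
    by_cases hd : Disjoint h h'
    · have t1 := h4 e h h' he hh hh' ce ch ch' d1 hd d3
      have t2 := h4 f h h' hf hh hh' cf ch ch' d2 hd d4
      rw [h3 e h' he hh' ce ch' d3] at t1
      rw [h3 f h' hf hh' cf ch' d4] at t2
      rw [h3 f h hf hh cf ch d2, h3 f h' hf hh' cf ch' d4]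
      have t3 : Δ e h + -Δ f h - (Δ e h' + -Δ f h') =
          (Δ e h + Δ h h' + -Δ e h') - (Δ f h + Δ h h' + -Δ f h') := by abel
      rw [← sub_eq_zero, t3, t1, t2, sub_zero]
    by_cases hd2 : Disjoint e f
    · have t1 := h4 e h f he hh hf ce ch cf d1 d2.symm hd2
      have t2 := h4 e h' f he hh' hf ce ch' cf d3 d4.symm hd2
      have t3 : Δ e h + Δ h f - (Δ e h' + Δ h' f) =
          (Δ e h + Δ h f + Δ f e) - (Δ e h' + Δ h' f + Δ f e) := by abel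
      rw [← sub_eq_zero, t3, t1, t2, sub_zero]
    by_cases hef : e = f
    · subst hef
      rw [h3 e h he hh ce ch d1, h3 e h' he hh' ce ch' d3]
      simp
    by_cases hhh : h = h'
    · rw [hhh]
    obtain ⟨a, b, c, rfl, rfl, nab, nac, nbc⟩ := hmeet e f ce cf hd2 hef
    obtain ⟨x, y, z, rfl, rfl, nxy, nxz, nyz⟩ := hmeet h h' ch ch' hd hhh
    rw [Coh_disj] at d1 d2 d3 d4
    obtain ⟨ax, ay, bx, bY⟩ := d1
    obtain ⟨_, _, cx, cy⟩ := d2
    obtain ⟨_, az, _, bz⟩ := d3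
    obtain ⟨_, _, _, cz⟩ := d4
    have ma : a ∈ B := he (by simp)
    have mb : b ∈ B := he (by simp)
    have mc : c ∈ B := hf (by simp)
    have mx : x ∈ B := hh (by simp)
    have my : y ∈ B := hh (by simp)
    have mz : z ∈ B := hh' (by simp)
    have t := h5 a ma b mb c mc x mx y my z mz
      ⟨⟨nab, nac, ax, nbc, bx, cx⟩, nyz, ⟨ay.symm, bY.symm, cy.symm, nxy.symm⟩,
        ⟨az.symm, bz.symm, cz.symm, nxz.symm⟩⟩
    rw [h3 {a, c} {x, y} hf hh cf ch (Coh_disj.mpr ⟨ax, ay, cx, cy⟩),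
      h3 {a, c} {x, z} hf hh' cf ch' (Coh_disj.mpr ⟨ax, az, cx, cz⟩)]
    rw [← sub_eq_zero]
    have t3 : Δ {a, b} {x, y} + -Δ {a, c} {x, y} - (Δ {a, b} {x, z} + -Δ {a, c} {x, z}) =
      Δ {a, b} {x, y} - Δ {a, c} {x, y} + Δ {a, c} {x, z} - Δ {a, b} {x, z} := by abel
    rw [t3, t]
  -- free pairs
  have hfree : ∀ S : Finset ℕ, S.card ≤ 5 → ∃ h ⊆ B, h.card = 2 ∧ Disjoint S h := by
    intro S hS
    have h1 : 2 ≤ (B \ S).card := by
      have := Finset.le_card_sdiff S B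
      omega
    obtain ⟨h, hh, ch⟩ := Finset.exists_subset_card_eq h1
    refine ⟨h, hh.trans Finset.sdiff_subset, ch, ?_⟩
    rw [Finset.disjoint_left]
    intro w hw hw'
    exact (Finset.mem_sdiff.mp (hh hw')).2 hw
  obtain ⟨e₀, he₀, ce₀⟩ := Finset.exists_subset_card_eq (show 2 ≤ B.card by omega)
  have hch : ∀ f : Finset ℕ, f.card = 2 → ∃ h ⊆ B, h.card = 2 ∧ Disjoint e₀ h ∧ Disjoint f h := by
    intro f cf
    obtain ⟨h, hh, ch, dh⟩ := hfree (e₀ ∪ f) ((Finset.card_union_le _ _).trans (by omega))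
    exact ⟨h, hh, ch, (Finset.disjoint_union_left.mp dh).1, (Finset.disjoint_union_left.mp dh).2⟩
  classical
  let hf : Finset ℕ → Finset ℕ := fun f => if c : f.card = 2 then (hch f c).choose else ∅
  have hfs : ∀ f : Finset ℕ, f.card = 2 → hf f ⊆ B ∧ (hf f).card = 2 ∧ Disjoint e₀ (hf f) ∧
      Disjoint f (hf f) := by
    intro f c
    have : hf f = (hch f c).choose := by simp [hf, c]
    rw [this]
    exact (hch f c).choose_spec
  refine ⟨fun f => Δ e₀ (hf f) + Δ (hf f) f, ?_⟩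
  intro f k hfB hkB cf ck dfk
  change Δ f k = (Δ e₀ (hf k) + Δ (hf k) k) - (Δ e₀ (hf f) + Δ (hf f) f)
  obtain ⟨a1, a2, a3, a4⟩ := hfs f cf
  obtain ⟨b1, b2, b3, b4⟩ := hfs k ck
  by_cases h5' : (e₀ ∪ f ∪ k).card ≤ 5
  · obtain ⟨h, hh, ch, dh⟩ := hfree _ h5'
    have q1 := (Finset.disjoint_union_left.mp dh).2
    have q2 := (Finset.disjoint_union_left.mp (Finset.disjoint_union_left.mp dh).1).1
    have q3 := (Finset.disjoint_union_left.mp (Finset.disjoint_union_left.mp dh).1).2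
    have p1 := hpath e₀ f (hf f) h he₀ hfB a1 hh ce₀ cf a2 ch a3 a4 q2 q3
    have p2 := hpath e₀ k (hf k) h he₀ hkB b1 hh ce₀ ck b2 ch b3 b4 q2 q1
    rw [p1, p2]
    have t := h4 f h k hfB hh hkB cf ch ck q3 q1.symm dfk
    rw [h3 f k hfB hkB cf ck dfk] at t
    rw [h3 f h hfB hh cf ch q3]
    have t3 : Δ f k - ((Δ e₀ h + Δ h k) - (Δ e₀ h + -Δ f h)) =
        -(Δ f h + Δ h k + -Δ f k) := by abel
    rw [← sub_eq_zero, t3, t, neg_zero]
  · have hd : Disjoint (e₀ ∪ f) k ∧ Disjoint e₀ f := by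
      have h1 := Finset.card_union_add_card_inter (e₀ ∪ f) k
      have h2 := Finset.card_union_add_card_inter e₀ f
      constructor
      · rw [Finset.disjoint_iff_inter_eq_empty, ← Finset.card_eq_zero]
        omega
      · rw [Finset.disjoint_iff_inter_eq_empty, ← Finset.card_eq_zero]
        omega
    obtain ⟨hd1, hd2⟩ := hd
    have hd3 := (Finset.disjoint_union_left.mp hd1).1
    have t1 := h4 e₀ (hf f) f he₀ a1 hfB ce₀ a2 cf a3 a4.symm hd2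
    have t2 := h4 e₀ (hf k) k he₀ b1 hkB ce₀ b2 ck b3 b4.symm hd3
    have t3 := h4 f e₀ k hfB he₀ hkB cf ce₀ ck hd2.symm hd3 dfk
    rw [h3 e₀ f he₀ hfB ce₀ cf hd2] at t1 t3
    rw [h3 e₀ k he₀ hkB ce₀ ck hd3] at t2
    rw [h3 f k hfB hkB cf ck dfk] at t3
    have t4 : Δ f k - ((Δ e₀ (hf k) + Δ (hf k) k) - (Δ e₀ (hf f) + Δ (hf f) f)) =
        (Δ e₀ (hf f) + Δ (hf f) f + -Δ e₀ f) - (Δ e₀ (hf k) + Δ (hf k) k + -Δ e₀ k)
          - (-Δ e₀ f + Δ e₀ k + -Δ f k) := by abel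
    rw [← sub_eq_zero, t4, t1, t2, t3]
    simp

/-- existence of a potential -/
theorem exists_potential {F E : Type*} [Field F] [CharZero F] [AddCommGroup E] [Module F E]
    {B : Finset ℕ} (hB : 7 ≤ B.card) (del : ℕ → ℕ → ℕ → ℕ → E)
    (h1 : ∀ p ∈ B, ∀ q ∈ B, ∀ r ∈ B, ∀ t ∈ B, D4 p q r t → del p q r t = del q p r t)
    (h3 : ∀ p ∈ B, ∀ q ∈ B, ∀ r ∈ B, ∀ t ∈ B, D4 p q r t → del r t p q = -del p q r t)
    (h4 : ∀ p ∈ B, ∀ q ∈ B, ∀ r ∈ B, ∀ t ∈ B, ∀ u ∈ B, ∀ v ∈ B, D6 p q r t u v →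
      del p q r t + del r t u v + del u v p q = 0) :
    ∃ d : ℕ → ℕ → E, ∀ p ∈ B, ∀ q ∈ B, ∀ r ∈ B, ∀ t ∈ B, D4 p q r t →
      del p q r t = d r t - d p q := by
  classical
  have hD4 : ∀ {p q r t : ℕ}, D4 p q r t → D4 r t p q := by
    rintro p q r t ⟨n1, n2, n3, n4, n5, n6⟩
    exact ⟨n6, n2.symm, n4.symm, n3.symm, n5.symm, n1⟩
  have hD4' : ∀ {p q r t : ℕ}, D4 p q r t → D4 q p r t := by
    rintro p q r t ⟨n1, n2, n3, n4, n5, n6⟩
    exact ⟨n1.symm, n4, n5, n2, n3, n6⟩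
  have h2 : ∀ p ∈ B, ∀ q ∈ B, ∀ r ∈ B, ∀ t ∈ B, D4 p q r t → del p q r t = del p q t r := by
    intro p hp q hq r hr t ht h
    have hh := hD4' (hD4 h)
    rw [← neg_inj, ← h3 p hp q hq r hr t ht h, ← h3 p hp q hq t ht r hr (hD4 hh)]
    exact h1 r hr t ht p hp q hq (hD4 h)
  -- the function on sets
  let P : Finset ℕ → Finset ℕ → ℕ × ℕ × ℕ × ℕ → Prop := fun e f w =>
    e = {w.1, w.2.1} ∧ f = {w.2.2.1, w.2.2.2}
  let Δ : Finset ℕ → Finset ℕ → E := fun e f =>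
    if h : ∃ w, P e f w then
      del h.choose.1 h.choose.2.1 h.choose.2.2.1 h.choose.2.2.2 else 0
  have hpair : ∀ {a b c d : ℕ}, ({a, b} : Finset ℕ) = {c, d} → a ≠ b →
      (c = a ∧ d = b) ∨ (c = b ∧ d = a) := by
    intro a b c d h hab
    have e1 : a ∈ ({c, d} : Finset ℕ) := by rw [← h]; simp
    have e2 : b ∈ ({c, d} : Finset ℕ) := by rw [← h]; simp
    simp only [Finset.mem_insert, Finset.mem_singleton] at e1 e2
    rcases e1 with e1 | e1 <;> rcases e2 with e2 | e2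
    · exact absurd (e1.trans e2.symm) hab
    · exact Or.inl ⟨e1.symm, e2.symm⟩
    · exact Or.inr ⟨e2.symm, e1.symm⟩
    · exact absurd (e1.trans e2.symm) hab
  have hΔ : ∀ p ∈ B, ∀ q ∈ B, ∀ r ∈ B, ∀ t ∈ B, D4 p q r t → Δ {p, q} {r, t} = del p q r t := by
    intro p hp q hq r hr t ht h
    have hex : ∃ w, P {p, q} {r, t} w := ⟨(p, q, r, t), rfl, rfl⟩
    have hd : Δ {p, q} {r, t} =
      del hex.choose.1 hex.choose.2.1 hex.choose.2.2.1 hex.choose.2.2.2 := by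
      simp only [Δ, dif_pos hex]
    rw [hd]
    obtain ⟨s1, s2⟩ := hex.choose_spec
    rcases hpair s1 h.1 with ⟨e1, e2⟩ | ⟨e1, e2⟩ <;>
      rcases hpair s2 h.2.2.2.2.2 with ⟨e3, e4⟩ | ⟨e3, e4⟩ <;> rw [e1, e2, e3, e4]
    · exact (h2 p hp q hq r hr t ht h).symm
    · exact (h1 p hp q hq r hr t ht h).symm
    · rw [← h2 q hq p hp r hr t ht (hD4' h)]
      exact (h1 p hp q hq r hr t ht h).symm
  -- sets of two elements
  have htwo : ∀ e : Finset ℕ, e ⊆ B → e.card = 2 → ∃ p ∈ B, ∃ q ∈ B, p ≠ q ∧ e = {p, q} := by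
    intro e he ce
    obtain ⟨p, q, hpq, rfl⟩ := Finset.card_eq_two.mp ce
    exact ⟨p, he (by simp), q, he (by simp), hpq, rfl⟩
  obtain ⟨d, hd⟩ := Coh_potential hB Δ
    (by
      intro e f he hf ce cf hdis
      obtain ⟨p, hp, q, hq, hpq, rfl⟩ := htwo e he ce
      obtain ⟨r, hr, t, ht, hrt, rfl⟩ := htwo f hf cf
      rw [Coh_disj] at hdis
      obtain ⟨n1, n2, n3, n4⟩ := hdis
      have h : D4 p q r t := ⟨hpq, n1, n2, n3, n4, hrt⟩
      rw [hΔ p hp q hq r hr t ht h, hΔ r hr t ht p hp q hq (hD4 h)]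
      exact h3 p hp q hq r hr t ht h)
    (by
      intro e f g he hf hg ce cf cg d1 d2 d3
      obtain ⟨p, hp, q, hq, hpq, rfl⟩ := htwo e he ce
      obtain ⟨r, hr, t, ht, hrt, rfl⟩ := htwo f hf cf
      obtain ⟨u, hu, v, hv, huv, rfl⟩ := htwo g hg cg
      rw [Coh_disj] at d1 d2 d3
      obtain ⟨n1, n2, n3, n4⟩ := d1
      obtain ⟨m1, m2, m3, m4⟩ := d2
      obtain ⟨k1, k2, k3, k4⟩ := d3
      rw [hΔ p hp q hq r hr t ht ⟨hpq, n1, n2, n3, n4, hrt⟩,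
        hΔ r hr t ht u hu v hv ⟨hrt, m1, m2, m3, m4, huv⟩,
        hΔ u hu v hv p hp q hq ⟨huv, k1.symm, k3.symm, k2.symm, k4.symm, hpq⟩]
      exact h4 p hp q hq r hr t ht u hu v hv
        ⟨⟨hpq, n1, n2, n3, n4, hrt⟩, huv, ⟨k1.symm, k3.symm, m1.symm, m3.symm⟩,
          ⟨k2.symm, k4.symm, m2.symm, m4.symm⟩⟩)
    (by
      intro a ha b hb c hc x hx y hy z hz h
      have h' := h
      obtain ⟨⟨n1, n2, n3, n4, n5, n6⟩, n7, ⟨n8, n9, n10, n11⟩, ⟨n12, n13, n14, n15⟩⟩ := h'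
      rw [hΔ a ha b hb x hx y hy ⟨n1, n3, n8.symm, n5, n9.symm, n11.symm⟩,
        hΔ a ha c hc x hx y hy ⟨n2, n3, n8.symm, n6, n10.symm, n11.symm⟩,
        hΔ a ha c hc x hx z hz ⟨n2, n3, n12.symm, n6, n14.symm, n15.symm⟩,
        hΔ a ha b hb x hx z hz ⟨n1, n3, n12.symm, n5, n13.symm, n15.symm⟩]
      exact four_cycle (F := F) hB del h3 h4 ha hb hc hx hy hz h)
  refine ⟨fun p q => d {p, q}, ?_⟩
  intro p hp q hq r hr t ht h
  rw [← hΔ p hp q hq r hr t ht h]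
  apply hd
  · intro w hw
    simp only [Finset.mem_insert, Finset.mem_singleton] at hw
    rcases hw with rfl | rfl <;> assumption
  · intro w hw
    simp only [Finset.mem_insert, Finset.mem_singleton] at hw
    rcases hw with rfl | rfl <;> assumption
  · exact Finset.card_pair h.1
  · exact Finset.card_pair h.2.2.2.2.2
  · exact Coh_disj.mpr ⟨h.2.1, h.2.2.1, h.2.2.2.1, h.2.2.2.2.1⟩

end OctId
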