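import Pool.Agent.Work.MP_9b6dd6_al.FunA

/-!
# Contractions of products with forms
-/

namespace OctId

open Finset

set_option linter.unusedSectionVars false

noncomputable section

variable {F : Type*} [Field F]

/-- expansion of a linear letter in the basis -/
theorem FunB_exp {q : ℕ} {x : Fn F} (hx : LinIn q x) (y : ℕ → V F) (v : V F) :
    ∑ j : Fin 7, V.ip (V.e j) v • x (Function.update y q (V.e j)) =
      x (Function.update y q v) := by
  conv_rhs => rw [← V.sum_ip_e v]
  rw [FunA_sum hx]
  refine Finset.sum_congr rfl fun j _ => ?_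
  rw [hx.2, V.ip_comm]

theorem FunB_exp_mul {q : ℕ} {x : Fn F} (hx : LinIn q x) (y : ℕ → V F) (v w : V F) :
    ∑ j : Fin 7, V.ip (V.e j) v • x (Function.update y q (V.e j * w)) =
      x (Function.update y q (v * w)) := by
  conv_rhs => rw [← V.sum_ip_e v, Finset.sum_mul]
  rw [FunA_sum hx]
  refine Finset.sum_congr rfl fun j _ => ?_
  rw [smul_mul_assoc, hx.2, V.ip_comm]

/-- letters `p, q` different from `a, b` -/
theorem ctr_gm_in {p q a b : ℕ} (hpa : p ≠ a) (hpb : p ≠ b) (hqa : q ≠ a) (hqb : q ≠ b)
    (x : Fn F) : ctr p q (gm a b x) = gm a b (ctr p q x) := by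
  funext y
  simp only [ctr_apply, gm_apply, phm_apply, ctx_apply, Function.update_of_ne hpa.symm,
    Function.update_of_ne hpb.symm, Function.update_of_ne hqa.symm,
    Function.update_of_ne hqb.symm, Finset.smul_sum]

theorem ctx_gm_in {p q a b : ℕ} (hpa : p ≠ a) (hpb : p ≠ b) (hqa : q ≠ a) (hqb : q ≠ b)
    (x : Fn F) : ctx p q (gm a b x) = gm a b (ctx p q x) := by
  funext y
  simp only [ctr_apply, gm_apply, phm_apply, ctx_apply, Function.update_of_ne hpa.symm,
    Function.update_of_ne hpb.symm, Function.update_of_ne hqa.symm,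
    Function.update_of_ne hqb.symm, Finset.smul_sum]

theorem ctr_phm_in {p q a b c : ℕ} (hpa : p ≠ a) (hpb : p ≠ b) (hpc : p ≠ c) (hqa : q ≠ a)
    (hqb : q ≠ b) (hqc : q ≠ c) (x : Fn F) :
    ctr p q (phm a b c x) = phm a b c (ctr p q x) := by
  funext y
  simp only [ctr_apply, gm_apply, phm_apply, ctx_apply, Function.update_of_ne hpa.symm,
    Function.update_of_ne hpb.symm, Function.update_of_ne hpc.symm,
    Function.update_of_ne hqa.symm, Function.update_of_ne hqb.symm,
    Function.update_of_ne hqc.symm, Finset.smul_sum]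

theorem ctx_phm_in {p q a b c : ℕ} (hpa : p ≠ a) (hpb : p ≠ b) (hpc : p ≠ c) (hqa : q ≠ a)
    (hqb : q ≠ b) (hqc : q ≠ c) (x : Fn F) :
    ctx p q (phm a b c x) = phm a b c (ctx p q x) := by
  funext y
  simp only [ctr_apply, gm_apply, phm_apply, ctx_apply, Function.update_of_ne hpa.symm,
    Function.update_of_ne hpb.symm, Function.update_of_ne hpc.symm,
    Function.update_of_ne hqa.symm, Function.update_of_ne hqb.symm,
    Function.update_of_ne hqc.symm, Finset.smul_sum]

theorem cp_gm_in {p q a b : ℕ} (hpa : p ≠ a) (hpb : p ≠ b) (x : Fn F) :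
    cp p q (gm a b x) = gm a b (cp p q x) := by
  funext y
  simp only [cp_apply, gm_apply, Function.update_of_ne hpa.symm, Function.update_of_ne hpb.symm]

theorem cp_phm_in {p q a b c : ℕ} (hpa : p ≠ a) (hpb : p ≠ b) (hpc : p ≠ c) (x : Fn F) :
    cp p q (phm a b c x) = phm a b c (cp p q x) := by
  funext y
  simp only [cp_apply, phm_apply, Function.update_of_ne hpa.symm, Function.update_of_ne hpb.symm,
    Function.update_of_ne hpc.symm]

theorem gm_comm' (a b c d : ℕ) (x : Fn F) : gm a b (gm c d x) = gm c d (gm a b x) := by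
  funext y
  simp only [gm_apply]
  rw [smul_comm]

theorem gm_phm_comm (a b p q r : ℕ) (x : Fn F) :
    gm a b (phm p q r x) = phm p q r (gm a b x) := by
  funext y
  simp only [gm_apply, phm_apply]
  rw [smul_comm]

theorem gm_symm (a b : ℕ) (x : Fn F) : gm a b x = gm b a x := by
  funext y
  simp only [gm_apply]
  rw [V.ip_comm]

theorem phm_cyc (a b c : ℕ) (x : Fn F) : phm a b c x = phm b c a x := by
  funext y
  simp only [phm_apply]
  rw [V.tri_cyc]

theorem phm_swap (a b c : ℕ) (x : Fn F) : phm a b c x = -phm b a c x := by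
  funext y
  rw [Pi.neg_apply]
  simp only [phm_apply]
  rw [V.tri_swap, neg_smul]

section self

variable {C : Finset ℕ} {x : Fn F} (hx : x ∈ W F C)
include hx

theorem cp_gm_self {p q b : ℕ} (hp : p ∉ C) (hpb : p ≠ b) :
    cp p q (gm p b x) = phm p q b x := by
  funext y
  simp only [cp_apply, gm_apply, phm_apply, Function.update_self, Function.update_of_ne hpb.symm,
    W_update hx hp]

theorem ctr_gm_self {a b : ℕ} (ha : a ∉ C) (hb : b ∉ C) (hab : a ≠ b) :
    ctr a b (gm a b x) = (7 : F) • x := by
  funext y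
  simp only [ctr_apply, gm_apply, Function.update_self, Function.update_of_ne hab,
    W_update hx hb, W_update hx ha]
  rw [Fin.sum_univ_seven]
  simp only [V.ip_e_right, V.e_apply, if_true, one_smul, Pi.smul_apply]
  module

theorem ctx_gm_self {a b : ℕ} (ha : a ∉ C) (hb : b ∉ C) (hab : a ≠ b) :
    ctx a b (gm a b x) = 0 := by
  funext y
  simp only [ctx_apply, gm_apply, Function.update_self, Function.update_of_ne hab,
    W_update hx hb, W_update hx ha, ← V.tri_move, V.tri_self_left, zero_smul,
    Finset.sum_const_zero, Pi.zero_apply]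

theorem ctr_gm_cross {a b q : ℕ} (ha : a ∉ C) (hb : b ∉ C) (hq : q ∈ C) (hab : a ≠ b) :
    ctr a q (gm a b x) = pull (fun y => Function.update y q (y b)) x := by
  have hqa : q ≠ a := fun h => ha (h ▸ hq)
  have hqb : q ≠ b := fun h => hb (h ▸ hq)
  funext y
  rw [pull_apply, ← FunB_exp (W_lin hx hq) y (y b), ctr_apply]
  refine Finset.sum_congr rfl fun j _ => ?_
  rw [gm_apply, Function.update_of_ne hqa.symm, Function.update_self,
    Function.update_of_ne hqb.symm, Function.update_of_ne hab.symm,
    Function.update_comm hqa.symm, W_update hx ha]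

theorem ctr_gm_cross' {a b q : ℕ} (ha : a ∉ C) (hb : b ∉ C) (hq : q ∈ C) (hab : a ≠ b) :
    ctr q a (gm a b x) = pull (fun y => Function.update y q (y b)) x := by
  have hqa : q ≠ a := fun h => ha (h ▸ hq)
  have hqb : q ≠ b := fun h => hb (h ▸ hq)
  funext y
  rw [pull_apply, ← FunB_exp (W_lin hx hq) y (y b), ctr_apply]
  refine Finset.sum_congr rfl fun j _ => ?_
  rw [gm_apply, Function.update_self, Function.update_of_ne hab.symm,
    Function.update_of_ne hqb.symm, W_update hx ha]

theorem ctx_gm_cross {a b q : ℕ} (ha : a ∉ C) (hb : b ∉ C) (hq : q ∈ C) (hab : a ≠ b) :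
    ctx a q (gm a b x) = pull (fun y => Function.update y q (y b * y a)) x := by
  have hqa : q ≠ a := fun h => ha (h ▸ hq)
  have hqb : q ≠ b := fun h => hb (h ▸ hq)
  funext y
  rw [pull_apply, ← FunB_exp_mul (W_lin hx hq) y (y b) (y a), ctx_apply]
  refine Finset.sum_congr rfl fun j _ => ?_
  rw [gm_apply, Function.update_of_ne hqa.symm, Function.update_self,
    Function.update_of_ne hqb.symm, Function.update_of_ne hab.symm,
    Function.update_comm hqa.symm, W_update hx ha]

theorem ctx_gm_cross' {a b q : ℕ} (ha : a ∉ C) (hb : b ∉ C) (hq : q ∈ C) (hab : a ≠ b) :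
    ctx q a (gm a b x) = pull (fun y => Function.update y q (y q * y b)) x := by
  have hqa : q ≠ a := fun h => ha (h ▸ hq)
  have hqb : q ≠ b := fun h => hb (h ▸ hq)
  funext y
  rw [pull_apply, ← FunB_exp (W_lin hx hq) y (y q * y b), ctx_apply]
  refine Finset.sum_congr rfl fun j _ => ?_
  rw [gm_apply, Function.update_self, Function.update_of_ne hab.symm,
    Function.update_of_ne hqb.symm, W_update hx ha, V.tri_move]

theorem ctr_phm_self {a b c : ℕ} (ha : a ∉ C) (hb : b ∉ C) (hc : c ∉ C) (hab : a ≠ b)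
    (hac : a ≠ c) (hbc : b ≠ c) : ctr a b (phm a b c x) = 0 := by
  funext y
  simp only [ctr_apply, phm_apply, Function.update_self, Function.update_of_ne hab,
    V.mul_self, V.ip_zero_left, zero_smul, Finset.sum_const_zero, Pi.zero_apply]

theorem ctx_phm_self {a b c : ℕ} (ha : a ∉ C) (hb : b ∉ C) (hc : c ∉ C) (hab : a ≠ b)
    (hac : a ≠ c) (hbc : b ≠ c) : ctx a b (phm a b c x) = (-6 : F) • gm a c x := by
  funext y
  have h : ∀ j : Fin 7, phm a b c x (Function.update (Function.update y a (V.e j)) b
      (V.e j * y a)) = V.ip (V.e j * (V.e j * y a)) (y c) • x y := by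
    intro j
    rw [phm_apply, Function.update_of_ne hab, Function.update_self, Function.update_self,
      Function.update_of_ne hbc.symm, Function.update_of_ne hac.symm, W_update hx hb,
      W_update hx ha]
  rw [ctx_apply, Finset.sum_congr rfl fun j _ => h j, ← Finset.sum_smul, ← V.ip_sum_left,
    V.sum_e_mul_e_mul, V.ip_smul_left, Pi.smul_apply, gm_apply, mul_smul]

theorem ctr_phm_cross {a b c q : ℕ} (ha : a ∉ C) (hb : b ∉ C) (hc : c ∉ C) (hq : q ∈ C)
    (hab : a ≠ b) (hac : a ≠ c) (hbc : b ≠ c) :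
    ctr a q (phm a b c x) = pull (fun y => Function.update y q (y b * y c)) x := by
  have hqa : q ≠ a := fun h => ha (h ▸ hq)
  have hqb : q ≠ b := fun h => hb (h ▸ hq)
  have hqc : q ≠ c := fun h => hc (h ▸ hq)
  funext y
  rw [pull_apply, ← FunB_exp (W_lin hx hq) y (y b * y c), ctr_apply]
  refine Finset.sum_congr rfl fun j _ => ?_
  rw [phm_apply, Function.update_of_ne hqa.symm, Function.update_self,
    Function.update_of_ne hqb.symm, Function.update_of_ne hab.symm,
    Function.update_of_ne hqc.symm, Function.update_of_ne hac.symm,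
    Function.update_comm hqa.symm, W_update hx ha, V.tri_move]

theorem ctr_phm_cross' {a b c q : ℕ} (ha : a ∉ C) (hb : b ∉ C) (hc : c ∉ C) (hq : q ∈ C)
    (hab : a ≠ b) (hac : a ≠ c) (hbc : b ≠ c) :
    ctr q a (phm a b c x) = pull (fun y => Function.update y q (y b * y c)) x := by
  have hqa : q ≠ a := fun h => ha (h ▸ hq)
  have hqb : q ≠ b := fun h => hb (h ▸ hq)
  have hqc : q ≠ c := fun h => hc (h ▸ hq)
  funext y
  rw [pull_apply, ← FunB_exp (W_lin hx hq) y (y b * y c), ctr_apply]
  refine Finset.sum_congr rfl fun j _ => ?_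
  rw [phm_apply, Function.update_self, Function.update_of_ne hab.symm,
    Function.update_of_ne hqb.symm, Function.update_of_ne hac.symm,
    Function.update_of_ne hqc.symm, W_update hx ha, V.tri_move]

theorem ctx_phm_cross {a b c q : ℕ} (ha : a ∉ C) (hb : b ∉ C) (hc : c ∉ C) (hq : q ∈ C)
    (hab : a ≠ b) (hac : a ≠ c) (hbc : b ≠ c) :
    ctx a q (phm a b c x) = pull (fun y => Function.update y q ((y b * y c) * y a)) x := by
  have hqa : q ≠ a := fun h => ha (h ▸ hq)
  have hqb : q ≠ b := fun h => hb (h ▸ hq)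
  have hqc : q ≠ c := fun h => hc (h ▸ hq)
  funext y
  rw [pull_apply, ← FunB_exp_mul (W_lin hx hq) y (y b * y c) (y a), ctx_apply]
  refine Finset.sum_congr rfl fun j _ => ?_
  rw [phm_apply, Function.update_of_ne hqa.symm, Function.update_self,
    Function.update_of_ne hqb.symm, Function.update_of_ne hab.symm,
    Function.update_of_ne hqc.symm, Function.update_of_ne hac.symm,
    Function.update_comm hqa.symm, W_update hx ha, V.tri_move]

theorem ctx_phm_cross' {a b c q : ℕ} (ha : a ∉ C) (hb : b ∉ C) (hc : c ∉ C) (hq : q ∈ C)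
    (hab : a ≠ b) (hac : a ≠ c) (hbc : b ≠ c) :
    ctx q a (phm a b c x) = pull (fun y => Function.update y q (y q * (y b * y c))) x := by
  have hqa : q ≠ a := fun h => ha (h ▸ hq)
  have hqb : q ≠ b := fun h => hb (h ▸ hq)
  have hqc : q ≠ c := fun h => hc (h ▸ hq)
  funext y
  rw [pull_apply, ← FunB_exp (W_lin hx hq) y (y q * (y b * y c)), ctx_apply]
  refine Finset.sum_congr rfl fun j _ => ?_
  rw [phm_apply, Function.update_self, Function.update_of_ne hab.symm,
    Function.update_of_ne hqb.symm, Function.update_of_ne hac.symm,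
    Function.update_of_ne hqc.symm, W_update hx ha, V.tri_move, V.tri_move]

end self

end

end OctId
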