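import Pool.Agent.Work.MP_9b6dd6_al.Low

/-!
# Generation of the multilinear parts of the relatively free Malcev algebra
-/

namespace OctId

open Finset

set_option linter.unusedSectionVars false

noncomputable section

variable {F : Type*} [Field F] [CharZero F]

/-- span of the `G ML` and `Ph ML` -/
def GM (F : Type*) [Field F] [CharZero F] (B : Finset ℕ) : Submodule F (Mal F) :=
  Submodule.span F ({u | ∃ p q h, p ∈ B ∧ q ∈ B ∧ p ≠ q ∧ h ∈ ML F xg (B \ {p, q}) ∧
      u = G (xg p) (xg q) h} ∪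
    {u | ∃ p q r h, p ∈ B ∧ q ∈ B ∧ r ∈ B ∧ p ≠ q ∧ p ≠ r ∧ q ≠ r ∧
      h ∈ ML F xg (B \ {p, q, r}) ∧ u = Ph (xg p) (xg q) (xg r) h})

lemma genM_G {B C : Finset ℕ} {p q : ℕ} (hpq : p ≠ q) (hp : p ∉ C) (hq : q ∉ C)
    (hB : B = {p, q} ∪ C) {h : Mal F} (hh : h ∈ ML F xg C) : G (xg p) (xg q) h ∈ GM F B := by
  refine Submodule.subset_span (Or.inl ⟨p, q, h, ?_, ?_, hpq, ?_, rfl⟩)
  · rw [hB]; simp
  · rw [hB]; simp
  · have : B \ {p, q} = C := by
      rw [hB]
      ext x
      simp only [mem_sdiff, mem_union, mem_insert, mem_singleton]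
      constructor
      · rintro ⟨h1, h2⟩; tauto
      · intro hx
        refine ⟨Or.inr hx, ?_⟩
        rintro (rfl | rfl)
        · exact hp hx
        · exact hq hx
    rw [this]
    exact hh

lemma genM_Ph {B C : Finset ℕ} {p q r : ℕ} (hpq : p ≠ q) (hpr : p ≠ r) (hqr : q ≠ r)
    (hp : p ∉ C) (hq : q ∉ C) (hr : r ∉ C)
    (hB : B = {p, q, r} ∪ C) {h : Mal F} (hh : h ∈ ML F xg C) :
    Ph (xg p) (xg q) (xg r) h ∈ GM F B := by
  refine Submodule.subset_span (Or.inr ⟨p, q, r, h, ?_, ?_, ?_, hpq, hpr, hqr, ?_, rfl⟩)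
  · rw [hB]; simp
  · rw [hB]; simp
  · rw [hB]; simp
  · have : B \ {p, q, r} = C := by
      rw [hB]
      ext x
      simp only [mem_sdiff, mem_union, mem_insert, mem_singleton]
      constructor
      · rintro ⟨h1, h2⟩; tauto
      · intro hx
        refine ⟨Or.inr hx, ?_⟩
        rintro (rfl | rfl | rfl)
        · exact hp hx
        · exact hq hx
        · exact hr hx
    rw [this]
    exact hh

/-- products of elements of `GM` -/
theorem GM_mul {A B : Finset ℕ} (hA : 5 ≤ A.card) {u v : Mal F} (hu : u ∈ GM F A)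
    (hv : v ∈ ML F xg B) (h : Disjoint A B) : u * v ∈ GM F (A ∪ B) := by
  refine Submodule.span_induction (p := fun u _ => u * v ∈ GM F (A ∪ B)) ?_ ?_ ?_ ?_ hu
  · rintro _ (⟨p, q, h', hp, hq, hpq, hh, rfl⟩ | ⟨p, q, r, h', hp, hq, hr, hpq, hpr, hqr, hh, rfl⟩)
    · have hc : 2 ≤ (A \ {p, q}).card := by
        have h1 := Finset.le_card_sdiff ({p, q} : Finset ℕ) A
        have h2 : ({p, q} : Finset ℕ).card ≤ 2 := Finset.card_le_two
        omega
      rw [G_mul_right _ _ (ML_le_M2 hc hh)]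
      have hd : Disjoint (A \ {p, q}) B := Finset.disjoint_of_subset_left sdiff_subset h
      refine genM_G hpq ?_ ?_ ?_ (mul_mem_ML hh hv hd)
      · intro hx
        rcases mem_union.1 hx with hx | hx
        · simp at hx
        · exact (Finset.disjoint_left.1 h hp) hx
      · intro hx
        rcases mem_union.1 hx with hx | hx
        · simp at hx
        · exact (Finset.disjoint_left.1 h hq) hx
      · ext x
        simp only [mem_union, mem_sdiff, mem_insert, mem_singleton]
        constructor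
        · tauto
        · rintro ((rfl | rfl) | h1 | h1)
          · exact Or.inl hp
          · exact Or.inl hq
          · exact Or.inl h1.1
          · exact Or.inr h1
    · have hc : 2 ≤ (A \ {p, q, r}).card := by
        have h1 := Finset.le_card_sdiff ({p, q, r} : Finset ℕ) A
        have h2 : ({p, q, r} : Finset ℕ).card ≤ 3 := Finset.card_le_three
        omega
      rw [G_mul_right _ _ (ML_le_M2 hc hh)]
      have hd : Disjoint (A \ {p, q, r}) B := Finset.disjoint_of_subset_left sdiff_subset h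
      refine genM_Ph hpq hpr hqr ?_ ?_ ?_ ?_ (mul_mem_ML hh hv hd)
      · intro hx
        rcases mem_union.1 hx with hx | hx
        · simp at hx
        · exact (Finset.disjoint_left.1 h hp) hx
      · intro hx
        rcases mem_union.1 hx with hx | hx
        · simp at hx
        · exact (Finset.disjoint_left.1 h hq) hx
      · intro hx
        rcases mem_union.1 hx with hx | hx
        · simp at hx
        · exact (Finset.disjoint_left.1 h hr) hx
      · ext x
        simp only [mem_union, mem_sdiff, mem_insert, mem_singleton]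
        constructor
        · tauto
        · rintro ((rfl | rfl | rfl) | h1 | h1)
          · exact Or.inl hp
          · exact Or.inl hq
          · exact Or.inl hr
          · exact Or.inl h1.1
          · exact Or.inr h1
  · rw [zero_mul]; exact Submodule.zero_mem _
  · intro x y _ _ hx hy
    rw [add_mul]; exact Submodule.add_mem _ hx hy
  · intro c x _ hx
    rw [smul_mul_assoc]; exact Submodule.smul_mem _ c hx

lemma genM_ne4 {p q r s : ℕ} (h : ({p, q, r, s} : Finset ℕ).card = 4) :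
    p ≠ q ∧ p ≠ r ∧ p ≠ s ∧ q ≠ r ∧ q ≠ s ∧ r ≠ s := by
  have h1 : p ∉ ({q, r, s} : Finset ℕ) := by
    intro hm
    rw [insert_eq_of_mem hm] at h
    have := Finset.card_le_three (a := q) (b := r) (c := s)
    omega
  have h2 : q ∉ ({r, s} : Finset ℕ) := by
    intro hm
    rw [insert_eq_of_mem hm] at h
    have := Finset.card_le_three (a := p) (b := r) (c := s)
    omega
  have h3 : r ∉ ({s} : Finset ℕ) := by
    intro hm
    rw [insert_eq_of_mem hm] at h
    have := Finset.card_le_three (a := p) (b := q) (c := s)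
    omega
  simp only [mem_insert, mem_singleton, not_or] at h1 h2 h3
  exact ⟨h1.1, h1.2.1, h1.2.2, h2.1, h2.2, h3⟩

/-- one factor of degree 4 -/
theorem GM_four {A B : Finset ℕ} (hA : A.card = 4) (hB : B.Nonempty) {u v : Mal F}
    (hu : u ∈ ML F xg A) (hv : v ∈ ML F xg B) (h : Disjoint A B) : u * v ∈ GM F (A ∪ B) := by
  obtain ⟨a, b, c, d, hab, hac, had, hbc, hbd, hcd, rfl⟩ := Finset.card_eq_four.1 hA
  refine Submodule.span_induction (p := fun u _ => u * v ∈ GM F ({a, b, c, d} ∪ B))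
    ?_ ?_ ?_ ?_ (ML_four hA hu)
  · rintro _ ⟨p, q, r, s, hs, h1⟩
    rw [← hs] at hA h ⊢
    obtain ⟨hpq, hpr, hps, hqr, hqs, hrs⟩ := genM_ne4 hA
    have hd : p ∉ B ∧ q ∉ B ∧ r ∉ B ∧ s ∉ B := by
      simp only [Finset.disjoint_left] at h
      exact ⟨h (by simp), h (by simp), h (by simp), h (by simp)⟩
    obtain ⟨hp, hq, hr, hs'⟩ := hd
    rcases h1 with rfl | rfl
    · rw [← G_mul, G_mul_right _ _ (mul_mem_M2 _ _)]
      refine genM_G (C := ({r} ∪ {s}) ∪ B) hpq (by simp [*]) (by simp [*]) ?_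
        (mul_mem_ML (mul_mem_ML (oper_ML_gen _ r) (oper_ML_gen _ s) (by simpa using hrs)) hv ?_)
      · clear * -
        grind
      · rw [Finset.disjoint_left]
        intro x hx
        simp only [mem_union, mem_singleton] at hx
        rcases hx with rfl | rfl <;> assumption
    · rw [e4_mul]
      refine genM_Ph (C := {s} ∪ B) hpq hpr hqr (by simp [*]) (by simp [*]) (by simp [*]) ?_
        (mul_mem_ML (oper_ML_gen _ s) hv (by simpa using hs'))
      clear * -
      grind
  · rw [zero_mul]; exact Submodule.zero_mem _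
  · intro x y _ _ hx hy
    rw [add_mul]; exact Submodule.add_mem _ hx hy
  · intro c x _ hx
    rw [smul_mul_assoc]; exact Submodule.smul_mem _ c hx

/-- (SS) -/
lemma genM_Dd {B C : Finset ℕ} {a b t : ℕ} (hab : a ≠ b) (hat : a ≠ t) (hbt : b ≠ t)
    (ha : a ∉ C) (hb : b ∉ C) (ht : t ∉ C) (hB : B = {a, b, t} ∪ C) {v : Mal F}
    (hv : v ∈ ML F xg C) : Dd (xg a) (xg b) (xg t) * v ∈ GM F B := by
  rw [operA_S1]
  have h1 : ∀ x y z : ℕ, x ≠ y → x ≠ z → y ≠ z → x ∉ C → y ∉ C → z ∉ C →
      ({a, b, t} : Finset ℕ) ∪ C = {x, y, z} ∪ C → G (xg x) (xg y) (xg z * v) ∈ GM F B := by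
    intro x y z hxy hxz hyz hx hy hz hs
    refine genM_G (C := {z} ∪ C) hxy (by simp [*]) (by simp [*]) ?_
      (mul_mem_ML (oper_ML_gen _ z) hv (by simpa using hz))
    rw [hB, hs]
    clear * -
    grind
  refine Submodule.add_mem _ (Submodule.add_mem _ (Submodule.smul_mem _ _ ?_) ?_) ?_
  · exact h1 a b t hab hat hbt ha hb ht rfl
  · refine h1 a t b hat hab hbt.symm ha ht hb ?_
    clear * -
    grind
  · refine h1 b t a hbt hab.symm hat.symm hb ht ha ?_
    clear * -
    grind

lemma genM_one_word {A : Finset ℕ} (hA : A.card = 1) {w : FreeMagma ℕ} (hw : MW A w) :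
    ∃ a : ℕ, A = {a} ∧ (wv xg w : Mal F) = xg a := by
  cases hw with
  | of i => exact ⟨i, rfl, rfl⟩
  | @mul C D u v hu hv hd =>
    have hs := Finset.card_union_of_disjoint hd
    have hC := hu.nonempty.card_pos
    have hD := hv.nonempty.card_pos
    omega

lemma genM_two_word {A : Finset ℕ} (hA : A.card = 2) {w : FreeMagma ℕ} (hw : MW A w) :
    ∃ a b : ℕ, a ≠ b ∧ A = {a, b} ∧ (wv xg w : Mal F) = xg a * xg b := by
  cases hw with
  | of i => simp at hA
  | @mul C D u v hu hv hd =>
    have hs := Finset.card_union_of_disjoint hd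
    have hC := hu.nonempty.card_pos
    have hD := hv.nonempty.card_pos
    obtain ⟨a, rfl, ha⟩ := genM_one_word (F := F) (by omega : C.card = 1) hu
    obtain ⟨b, rfl, hb⟩ := genM_one_word (F := F) (by omega : D.card = 1) hv
    refine ⟨a, b, by simpa using hd, rfl, ?_⟩
    rw [wv_mul, ha, hb]

/-- a word with three letters -/
lemma genM_three_word {A : Finset ℕ} (hA : A.card = 3) {w : FreeMagma ℕ} (hw : MW A w) :
    ∃ a b c : ℕ, a ≠ b ∧ a ≠ c ∧ b ≠ c ∧ A = {a, b, c} ∧
      ((wv xg w : Mal F) = (xg a * xg b) * xg c ∨ (wv xg w : Mal F) = -((xg a * xg b) * xg c)) := by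
  have hM := malAlg_Mal (F := F)
  cases hw with
  | of i => simp at hA
  | @mul C D u v hu hv hd =>
    have hs := Finset.card_union_of_disjoint hd
    have hC := hu.nonempty.card_pos
    have hD := hv.nonempty.card_pos
    rcases (by omega : (C.card = 2 ∧ D.card = 1) ∨ (C.card = 1 ∧ D.card = 2)) with
      ⟨h1, h2⟩ | ⟨h1, h2⟩
    · obtain ⟨a, b, hab, rfl, ha⟩ := genM_two_word (F := F) h1 hu
      obtain ⟨c, rfl, hc⟩ := genM_one_word (F := F) h2 hv
      simp only [disjoint_singleton_right, mem_insert, mem_singleton, not_or] at hd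
      refine ⟨a, b, c, hab, Ne.symm hd.1, Ne.symm hd.2, ?_, Or.inl ?_⟩
      · clear * -
        grind
      · rw [wv_mul, ha, hc]
    · obtain ⟨c, rfl, hc⟩ := genM_one_word (F := F) h1 hu
      obtain ⟨a, b, hab, rfl, ha⟩ := genM_two_word (F := F) h2 hv
      simp only [disjoint_singleton_left, mem_insert, mem_singleton, not_or] at hd
      refine ⟨a, b, c, hab, Ne.symm hd.1, Ne.symm hd.2, ?_, Or.inr ?_⟩
      · clear * -
        grind
      · rw [wv_mul, ha, hc, hM.anti]

/-- trees of three letters in terms of `Jj` and `Dd` -/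
lemma genM_tree3 (x y z : Mal F) :
    (x * y) * z = (1 / 3 : F) • (Jj x y z - Dd z x y + Dd z y x) := by
  have hM := malAlg_Mal (F := F)
  unfold Jj Dd
  rw [hM.anti z (x * y), hM.anti x (z * y), hM.anti z y, hM.anti z (y * x), hM.anti y x,
    hM.anti y (z * x)]
  simp only [neg_mul, mul_neg, neg_neg]
  module

lemma genM_mem {A B C : Finset ℕ} {x y : Mal F} (hx : x ∈ ML F xg A) (hy : y ∈ ML F xg B)
    (h : Disjoint A B) (hC : A ∪ B = C) : x * y ∈ ML F xg C := hC ▸ mul_mem_ML hx hy h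

lemma genM_Jj_mem {A B C D : Finset ℕ} {x y z : Mal F} (hx : x ∈ ML F xg A)
    (hy : y ∈ ML F xg B) (hz : z ∈ ML F xg C) (h1 : Disjoint A B) (h2 : Disjoint A C)
    (h3 : Disjoint B C) (hD : A ∪ B ∪ C = D) : Jj x y z ∈ ML F xg D := by
  refine Submodule.add_mem _ (Submodule.add_mem _ ?_ ?_) ?_
  · exact genM_mem (mul_mem_ML hx hy h1) hz (disjoint_union_left.2 ⟨h2, h3⟩) hD
  · refine genM_mem (mul_mem_ML hy hz h3) hx (disjoint_union_left.2 ⟨h1.symm, h2.symm⟩) ?_
    rw [← hD, union_comm, union_assoc]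
  · refine genM_mem (mul_mem_ML hz hx h2.symm) hy (disjoint_union_left.2 ⟨h3.symm, h1⟩) ?_
    rw [← hD]
    ext i
    simp only [mem_union]
    tauto

lemma genM_Dd_mem {A B C D : Finset ℕ} {x y z : Mal F} (hx : x ∈ ML F xg A)
    (hy : y ∈ ML F xg B) (hz : z ∈ ML F xg C) (h1 : Disjoint A B) (h2 : Disjoint A C)
    (h3 : Disjoint B C) (hD : A ∪ B ∪ C = D) : Dd x y z ∈ ML F xg D := by
  rw [← hD]
  exact oper_ML_Dd h1 h2 h3 hx hy hz

lemma genM_Dh_mem {A B C D : Finset ℕ} {x y z : Mal F} (hx : x ∈ ML F xg A)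
    (hy : y ∈ ML F xg B) (hz : z ∈ ML F xg C) (h1 : Disjoint A B) (h2 : Disjoint A C)
    (h3 : Disjoint B C) (hD : A ∪ B ∪ C = D) : Dh F x y z ∈ ML F xg D := by
  refine Submodule.smul_mem _ _ (Submodule.sub_mem _ (Submodule.add_mem _ ?_ ?_)
    (Submodule.smul_mem _ _ ?_))
  · refine genM_mem hy (mul_mem_ML hz hx h2.symm) (disjoint_union_right.2 ⟨h3, h1.symm⟩) ?_
    rw [← hD]
    ext i
    simp only [mem_union]
    tauto
  · refine genM_mem hx (mul_mem_ML hy hz h3) (disjoint_union_right.2 ⟨h1, h2⟩) ?_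
    rw [← hD, union_assoc]
  · refine genM_mem hz (mul_mem_ML hx hy h1) (disjoint_union_right.2 ⟨h2.symm, h3.symm⟩) ?_
    rw [← hD, union_comm]

lemma genM_e4_mem {A B C D E : Finset ℕ} {x y z s : Mal F} (hx : x ∈ ML F xg A)
    (hy : y ∈ ML F xg B) (hz : z ∈ ML F xg C) (hs : s ∈ ML F xg D) (h1 : Disjoint A B)
    (h2 : Disjoint A C) (h3 : Disjoint B C) (h4 : Disjoint A D) (h5 : Disjoint B D)
    (h6 : Disjoint C D) (hE : A ∪ B ∪ C ∪ D = E) : e4 F x y z s ∈ ML F xg E := by
  refine Submodule.sub_mem _ ?_ (Submodule.smul_mem _ _ (Submodule.add_mem _ ?_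
    (Submodule.smul_mem _ _ ?_)))
  · have := oper_ML_EE h6.symm h4.symm h2.symm h5.symm h3.symm h1 hs hz hx hy
    have h7 : D ∪ C ∪ A ∪ B = E := by
      rw [← hE]
      ext i
      simp only [mem_union]
      tauto
    rwa [h7] at this
  · refine genM_Dd_mem hs (mul_mem_ML hx hy h1) hz (disjoint_union_right.2 ⟨h4.symm, h5.symm⟩)
      h6.symm (disjoint_union_left.2 ⟨h2, h3⟩) ?_
    rw [← hE]
    ext i
    simp only [mem_union]
    tauto
  · refine genM_Dd_mem hz (mul_mem_ML hx hy h1) hs (disjoint_union_right.2 ⟨h2.symm, h3.symm⟩)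
      h6 (disjoint_union_left.2 ⟨h4, h5⟩) ?_
    rw [← hE]
    ext i
    simp only [mem_union]
    tauto

lemma genM_J_leaf {B : Finset ℕ} {x y p q r : ℕ} (h : [x, y, p, q, r].Nodup)
    (hB : B = {x, y, p, q, r}) :
    G (xg x) (xg y) (Jj (xg p) (xg q) (xg r) : Mal F) ∈ GM F B := by
  simp only [List.nodup_cons, List.mem_cons, List.not_mem_nil, or_false, not_or,
    List.nodup_nil, and_true, not_false_eq_true] at h
  obtain ⟨⟨h1, h2, h3, h4⟩, ⟨h5, h6, h7⟩, ⟨h8, h9⟩, h10⟩ := h
  refine genM_G (C := {p, q, r}) h1 (by simp [*]) (by simp [*]) ?_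
    (genM_Jj_mem (oper_ML_gen _ p) (oper_ML_gen _ q) (oper_ML_gen _ r) (by simpa using h8)
      (by simpa using h9) (by simpa using h10) ?_)
  · rw [hB]
    clear * -
    grind
  · clear * -
    grind

lemma genM_Dh_leaf {B : Finset ℕ} {x y p q r : ℕ} (h : [x, y, p, q, r].Nodup)
    (hB : B = {x, y, p, q, r}) :
    G (xg x) (xg y) (Dh F (xg p) (xg q) (xg r) : Mal F) ∈ GM F B := by
  simp only [List.nodup_cons, List.mem_cons, List.not_mem_nil, or_false, not_or,
    List.nodup_nil, and_true, not_false_eq_true] at h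
  obtain ⟨⟨h1, h2, h3, h4⟩, ⟨h5, h6, h7⟩, ⟨h8, h9⟩, h10⟩ := h
  refine genM_G (C := {p, q, r}) h1 (by simp [*]) (by simp [*]) ?_
    (genM_Dh_mem (oper_ML_gen _ p) (oper_ML_gen _ q) (oper_ML_gen _ r) (by simpa using h8)
      (by simpa using h9) (by simpa using h10) ?_)
  · rw [hB]
    clear * -
    grind
  · clear * -
    grind

lemma genM_P_leaf {B : Finset ℕ} {x y z p q : ℕ} (h : [x, y, z, p, q].Nodup)
    (hB : B = {x, y, z, p, q}) :
    G (F := F) (xg x * xg y) (xg z) (xg p * xg q) ∈ GM F B := by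
  simp only [List.nodup_cons, List.mem_cons, List.not_mem_nil, or_false, not_or,
    List.nodup_nil, and_true, not_false_eq_true] at h
  obtain ⟨⟨h1, h2, h3, h4⟩, ⟨h5, h6, h7⟩, ⟨h8, h9⟩, h10⟩ := h
  refine genM_Ph (C := {p} ∪ {q}) h1 h2 h5 (by simp [*]) (by simp [*]) (by simp [*]) ?_
    (mul_mem_ML (oper_ML_gen _ p) (oper_ML_gen _ q) (by simpa using h10))
  rw [hB]
  clear * -
  grind

/-- `J(a,b,c)(de)` -/
lemma genM_J_two {a b c d e : ℕ} (h : [a, b, c, d, e].Nodup) :
    Jj (xg a) (xg b) (xg c) * (xg d * xg e) ∈ GM F {a, b, c, d, e} := by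
  have hcy := h
  simp only [List.nodup_cons, List.mem_cons, List.not_mem_nil, or_false, not_or,
    List.nodup_nil, and_true, not_false_eq_true] at h
  obtain ⟨⟨hab, hac, had, hae⟩, ⟨hbc, hbd, hbe⟩, ⟨hcd, hce⟩, hde⟩ := h
  have hba := Ne.symm hab
  have hca := Ne.symm hac
  have hda := Ne.symm had
  have hea := Ne.symm hae
  have hcb := Ne.symm hbc
  have hdb := Ne.symm hbd
  have heb := Ne.symm hbe
  have hdc := Ne.symm hcd
  have hec := Ne.symm hce
  have hed := Ne.symm hde
  rw [cert_S10 malAlg_Mal G G_mul]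
  refine Submodule.sub_mem _ (Submodule.sub_mem _ (Submodule.add_mem _ (Submodule.add_mem _
    (Submodule.neg_mem _ (Submodule.add_mem _ (Submodule.add_mem _ (Submodule.sub_mem _ ?_ ?_)
      (Submodule.sub_mem _ ?_ ?_)) (Submodule.sub_mem _ ?_ ?_)))
    (Submodule.smul_mem _ _ (Submodule.add_mem _ (Submodule.add_mem _ (Submodule.sub_mem _ ?_ ?_)
      (Submodule.sub_mem _ ?_ ?_)) (Submodule.sub_mem _ ?_ ?_))))
    (Submodule.smul_mem _ _ ?_))
    (Submodule.smul_mem _ _ (Submodule.add_mem _ (Submodule.add_mem _ (Submodule.sub_mem _ ?_ ?_)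
      (Submodule.sub_mem _ ?_ ?_)) (Submodule.sub_mem _ ?_ ?_))))
    (Submodule.smul_mem _ _ (Submodule.add_mem _ (Submodule.add_mem _ ?_ ?_) ?_))
  iterate 6
    · exact genM_J_leaf (by simp [*]) (by clear * -; grind)
  iterate 6
    · exact genM_Dh_leaf (by simp [*]) (by clear * -; grind)
  iterate 10
    · exact genM_P_leaf (by simp [*]) (by clear * -; grind)

/-- degrees (3,2) -/
theorem GM_three_two {A B : Finset ℕ} (hA : A.card = 3) (hB : B.card = 2) {u v : Mal F}
    (hu : u ∈ ML F xg A) (hv : v ∈ ML F xg B) (h : Disjoint A B) : u * v ∈ GM F (A ∪ B) := by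
  refine ML_induction (p := fun u => u * v ∈ GM F (A ∪ B)) ?_ ?_ ?_ ?_ hu
  · intro w hw
    obtain ⟨a, b, c, hab, hac, hbc, hAe, hw'⟩ := genM_three_word (F := F) hA hw
    have key : ((xg a * xg b) * xg c) * v ∈ GM F (A ∪ B) := by
      have hd : a ∉ B ∧ b ∉ B ∧ c ∉ B := by
        rw [hAe] at h
        simp only [Finset.disjoint_left] at h
        exact ⟨h (by simp), h (by simp), h (by simp)⟩
      obtain ⟨ha, hb, hc⟩ := hd
      rw [genM_tree3 (xg a) (xg b) (xg c), smul_mul_assoc, add_mul, sub_mul]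
      refine Submodule.smul_mem _ _ (Submodule.add_mem _ (Submodule.sub_mem _ ?_ ?_) ?_)
      · refine ML_induction (p := fun v => Jj (xg a) (xg b) (xg c) * v ∈ GM F (A ∪ B))
          ?_ ?_ ?_ ?_ hv
        · intro w2 hw2
          obtain ⟨d, e, hde, hBe, hw2'⟩ := genM_two_word (F := F) hB hw2
          rw [hw2']
          have hs : A ∪ B = {a, b, c, d, e} := by
            rw [hAe, hBe]
            clear * -
            grind
          rw [hs]
          rw [hBe] at ha hb hc
          simp only [mem_insert, mem_singleton, not_or] at ha hb hc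
          refine genM_J_two ?_
          simp only [List.nodup_cons, List.mem_cons, List.not_mem_nil, or_false, not_or,
            List.nodup_nil, and_true, not_false_eq_true]
          exact ⟨⟨hab, hac, ha.1, ha.2⟩, ⟨hbc, hb.1, hb.2⟩, ⟨hc.1, hc.2⟩, hde⟩
        · rw [mul_zero]; exact Submodule.zero_mem _
        · intro x y hx hy
          rw [mul_add]; exact Submodule.add_mem _ hx hy
        · intro k x hx
          rw [mul_smul_comm]; exact Submodule.smul_mem _ k hx
      · refine genM_Dd hac.symm hbc.symm hab hc ha hb ?_ hv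
        rw [hAe]
        clear * -
        grind
      · refine genM_Dd hbc.symm hac.symm hab.symm hc hb ha ?_ hv
        rw [hAe]
        clear * -
        grind
    rcases hw' with hw' | hw'
    · rw [hw']
      exact key
    · rw [hw', neg_mul]
      exact Submodule.neg_mem _ key
  · rw [zero_mul]; exact Submodule.zero_mem _
  · intro x y hx hy
    rw [add_mul]; exact Submodule.add_mem _ hx hy
  · intro k x hx
    rw [smul_mul_assoc]; exact Submodule.smul_mem _ k hx

/-- degree 5 -/
theorem GM_five {B : Finset ℕ} (hB : B.card = 5) : ML F xg B ≤ GM F B := by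
  have hM := malAlg_Mal (F := F)
  intro u0 hu0
  refine ML_induction (p := fun u => u ∈ GM F B) ?_ ?_ ?_ ?_ hu0
  · intro w hw
    cases hw with
    | of i => simp at hB
    | @mul C D u v hu hv hd =>
      have hs := Finset.card_union_of_disjoint hd
      have hC := hu.nonempty.card_pos
      have hD := hv.nonempty.card_pos
      rw [wv_mul]
      rcases (by omega : (C.card = 4 ∧ D.card = 1) ∨ (C.card = 3 ∧ D.card = 2) ∨
        (C.card = 2 ∧ D.card = 3) ∨ (C.card = 1 ∧ D.card = 4)) with h | h | h | h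
      · exact GM_four h.1 hv.nonempty (wv_mem_ML hu) (wv_mem_ML hv) hd
      · exact GM_three_two h.1 h.2 (wv_mem_ML hu) (wv_mem_ML hv) hd
      · rw [hM.anti, union_comm]
        exact Submodule.neg_mem _
          (GM_three_two h.2 h.1 (wv_mem_ML hv) (wv_mem_ML hu) hd.symm)
      · rw [hM.anti, union_comm]
        exact Submodule.neg_mem _
          (GM_four h.2 hu.nonempty (wv_mem_ML hv) (wv_mem_ML hu) hd.symm)
  · exact Submodule.zero_mem _
  · intro x y hx hy
    exact Submodule.add_mem _ hx hy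
  · intro k x hx
    exact Submodule.smul_mem _ k hx

/-- `G` with a product of two letters as first argument, symmetric form -/
lemma genM_GD_leaf {B C : Finset ℕ} {p q r : ℕ} (hpq : p ≠ q) (hpr : p ≠ r) (hqr : q ≠ r)
    (hp : p ∉ C) (hq : q ∉ C) (hr : r ∉ C)
    (hB : B = {p, q, r} ∪ C) {h : Mal F} (hh : h ∈ ML F xg C) (h2 : 2 ≤ C.card) :
    G (xg r) (xg p * xg q) h ∈ GM F B := by
  rw [G_symm _ _ (ML_le_M2 h2 hh)]
  exact genM_Ph hpq hpr hqr hp hq hr hB hh

/-- `P(a,b,D)(x y)` for `D = d1 d2` -/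
lemma genM_PD_leaf {B : Finset ℕ} {p q a b x y : ℕ} (h : [p, q, a, b, x, y].Nodup)
    (hB : B = {p, q, a, b, x, y}) :
    G (F := F) ((xg p * xg q) * xg a) (xg b) (xg x * xg y) ∈ GM F B := by
  simp only [List.nodup_cons, List.mem_cons, List.not_mem_nil, or_false, not_or,
    List.nodup_nil, and_true, not_false_eq_true] at h
  obtain ⟨⟨h1, h2, h3, h4, h5⟩, ⟨h6, h7, h8, h9⟩, ⟨h10, h11, h12⟩, ⟨h13, h14⟩, h15⟩ := h
  have hm : e4 F (xg p * xg q) (xg a) (xg b) (xg x) ∈ ML F xg (({p} ∪ {q}) ∪ {a} ∪ {b} ∪ {x}) :=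
    genM_e4_mem (mul_mem_ML (oper_ML_gen _ p) (oper_ML_gen _ q) (by simpa using h1))
      (oper_ML_gen _ a) (oper_ML_gen _ b) (oper_ML_gen _ x)
      (by simp only [disjoint_union_left, disjoint_singleton]; exact ⟨h2, h6⟩)
      (by simp only [disjoint_union_left, disjoint_singleton]; exact ⟨h3, h7⟩)
      (by simpa using h10)
      (by simp only [disjoint_union_left, disjoint_singleton]; exact ⟨h4, h8⟩)
      (by simpa using h11) (by simpa using h13) rfl
  have hcard : (({p} ∪ {q}) ∪ {a} ∪ {b} ∪ {x} : Finset ℕ).card = 5 := by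
    rw [card_union_of_disjoint, card_union_of_disjoint, card_union_of_disjoint,
      card_union_of_disjoint]
    · simp
    · simpa using h1
    · simp only [disjoint_union_left, disjoint_singleton]; exact ⟨h2, h6⟩
    · simp only [disjoint_union_left, disjoint_singleton]; exact ⟨⟨h3, h7⟩, h10⟩
    · simp only [disjoint_union_left, disjoint_singleton]; exact ⟨⟨⟨h4, h8⟩, h11⟩, h13⟩
  have key := GM_mul (by rw [hcard]) (GM_five hcard hm) (oper_ML_gen xg y)
    (by simp only [disjoint_union_left, disjoint_singleton]; exact ⟨⟨⟨⟨h5, h9⟩, h12⟩, h14⟩, h15⟩)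
  rw [e4_mul] at key
  have hs : (({p} ∪ {q}) ∪ {a} ∪ {b} ∪ {x} ∪ {y} : Finset ℕ) = B := by
    rw [hB]
    clear * -
    grind
  rw [hs] at key
  exact key

/-- `J(a,b,c)((pq)e)` -/
lemma genM_J_three {a b c p q e : ℕ} (h : [a, b, c, p, q, e].Nodup) :
    Jj (xg a) (xg b) (xg c) * ((xg p * xg q) * xg e) ∈ GM F {a, b, c, p, q, e} := by
  simp only [List.nodup_cons, List.mem_cons, List.not_mem_nil, or_false, not_or,
    List.nodup_nil, and_true, not_false_eq_true] at h
  obtain ⟨⟨hab, hac, hap, haq, hae⟩, ⟨hbc, hbp, hbq, hbe⟩, ⟨hcp, hcq, hce⟩, ⟨hpq, hpe⟩, hqe⟩ := h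
  have hba := Ne.symm hab
  have hca := Ne.symm hac
  have hpa := Ne.symm hap
  have hqa := Ne.symm haq
  have hea := Ne.symm hae
  have hcb := Ne.symm hbc
  have hpb := Ne.symm hbp
  have hqb := Ne.symm hbq
  have heb := Ne.symm hbe
  have hpc := Ne.symm hcp
  have hqc := Ne.symm hcq
  have hec := Ne.symm hce
  have hqp := Ne.symm hpq
  have hep := Ne.symm hpe
  have heq := Ne.symm hqe
  -- leaves
  have L1 : ∀ x y z : ℕ, x ≠ y → x ≠ z → y ≠ z → x ≠ p → x ≠ q → x ≠ e → y ≠ p → y ≠ q → y ≠ e →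
      z ≠ p → z ≠ q → z ≠ e → ({a, b, c} : Finset ℕ) = {x, y, z} →
      G (F := F) (xg x) (xg p * xg q) (Jj (xg y) (xg z) (xg e)) ∈ GM F {a, b, c, p, q, e} := by
    intro x y z hxy hxz hyz hxp hxq hxe hyp hyq hye hzp hzq hze hs
    refine genM_GD_leaf (C := {y} ∪ {z} ∪ {e}) hpq (Ne.symm hxp) (Ne.symm hxq)
      (by simp only [mem_union, mem_singleton, not_or]; exact ⟨⟨hyp.symm, hzp.symm⟩, hpe⟩)
      (by simp only [mem_union, mem_singleton, not_or]; exact ⟨⟨hyq.symm, hzq.symm⟩, hqe⟩)
      (by simp only [mem_union, mem_singleton, not_or]; exact ⟨⟨hxy, hxz⟩, hxe⟩) ?_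
      (genM_Jj_mem (oper_ML_gen _ y) (oper_ML_gen _ z) (oper_ML_gen _ e) (by simpa using hyz)
        (by simpa using hye) (by simpa using hze) rfl) ?_
    · have : ({a, b, c, p, q, e} : Finset ℕ) = {a, b, c} ∪ {p, q, e} := by
        clear * -
        grind
      rw [this, hs]
      clear * -
      grind
    · rw [card_union_of_disjoint (by simp only [disjoint_union_left, disjoint_singleton]; exact ⟨hye, hze⟩),
        card_union_of_disjoint (by simpa using hyz)]
      simp
  have L2 : ∀ x y z : ℕ, x ≠ y → x ≠ z → y ≠ z → x ≠ p → x ≠ q → x ≠ e → y ≠ p → y ≠ q → y ≠ e →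
      z ≠ p → z ≠ q → z ≠ e → ({a, b, c} : Finset ℕ) = {x, y, z} →
      G (F := F) (xg x) (xg p * xg q) (Dh F (xg y) (xg z) (xg e)) ∈ GM F {a, b, c, p, q, e} := by
    intro x y z hxy hxz hyz hxp hxq hxe hyp hyq hye hzp hzq hze hs
    refine genM_GD_leaf (C := {y} ∪ {z} ∪ {e}) hpq (Ne.symm hxp) (Ne.symm hxq)
      (by simp only [mem_union, mem_singleton, not_or]; exact ⟨⟨hyp.symm, hzp.symm⟩, hpe⟩)
      (by simp only [mem_union, mem_singleton, not_or]; exact ⟨⟨hyq.symm, hzq.symm⟩, hqe⟩)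
      (by simp only [mem_union, mem_singleton, not_or]; exact ⟨⟨hxy, hxz⟩, hxe⟩) ?_
      (genM_Dh_mem (oper_ML_gen _ y) (oper_ML_gen _ z) (oper_ML_gen _ e) (by simpa using hyz)
        (by simpa using hye) (by simpa using hze) rfl) ?_
    · have : ({a, b, c, p, q, e} : Finset ℕ) = {a, b, c} ∪ {p, q, e} := by
        clear * -
        grind
      rw [this, hs]
      clear * -
      grind
    · rw [card_union_of_disjoint (by simp only [disjoint_union_left, disjoint_singleton]; exact ⟨hye, hze⟩),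
        card_union_of_disjoint (by simpa using hyz)]
      simp
  have L3 : ∀ x y z : ℕ, x ≠ y → x ≠ z → y ≠ z → x ≠ p → x ≠ q → x ≠ e → y ≠ p → y ≠ q → y ≠ e →
      z ≠ p → z ≠ q → z ≠ e → ({a, b, c} : Finset ℕ) = {x, y, z} →
      G (F := F) (xg x) (xg e) (Jj (xg y) (xg z) (xg p * xg q)) ∈ GM F {a, b, c, p, q, e} := by
    intro x y z hxy hxz hyz hxp hxq hxe hyp hyq hye hzp hzq hze hs
    refine genM_G (C := {y} ∪ {z} ∪ ({p} ∪ {q})) hxe
      (by simp only [mem_union, mem_singleton, not_or]; exact ⟨⟨hxy, hxz⟩, hxp, hxq⟩)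
      (by simp only [mem_union, mem_singleton, not_or]; exact ⟨⟨hye.symm, hze.symm⟩, hep, heq⟩) ?_
      (genM_Jj_mem (oper_ML_gen _ y) (oper_ML_gen _ z)
        (mul_mem_ML (oper_ML_gen _ p) (oper_ML_gen _ q) (by simpa using hpq)) (by simpa using hyz)
        (by simp only [disjoint_union_right, disjoint_singleton]; exact ⟨hyp, hyq⟩)
        (by simp only [disjoint_union_right, disjoint_singleton]; exact ⟨hzp, hzq⟩) rfl)
    have : ({a, b, c, p, q, e} : Finset ℕ) = {a, b, c} ∪ {p, q, e} := by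
      clear * -
      grind
    rw [this, hs]
    clear * -
    grind
  have L4 : ∀ x y z : ℕ, x ≠ y → x ≠ z → y ≠ z → x ≠ p → x ≠ q → x ≠ e → y ≠ p → y ≠ q → y ≠ e →
      z ≠ p → z ≠ q → z ≠ e → ({a, b, c} : Finset ℕ) = {x, y, z} →
      G (F := F) (xg x) (xg e) (Dh F (xg y) (xg z) (xg p * xg q)) ∈
        GM F {a, b, c, p, q, e} := by
    intro x y z hxy hxz hyz hxp hxq hxe hyp hyq hye hzp hzq hze hs
    refine genM_G (C := {y} ∪ {z} ∪ ({p} ∪ {q})) hxe
      (by simp only [mem_union, mem_singleton, not_or]; exact ⟨⟨hxy, hxz⟩, hxp, hxq⟩)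
      (by simp only [mem_union, mem_singleton, not_or]; exact ⟨⟨hye.symm, hze.symm⟩, hep, heq⟩) ?_
      (genM_Dh_mem (oper_ML_gen _ y) (oper_ML_gen _ z)
        (mul_mem_ML (oper_ML_gen _ p) (oper_ML_gen _ q) (by simpa using hpq)) (by simpa using hyz)
        (by simp only [disjoint_union_right, disjoint_singleton]; exact ⟨hyp, hyq⟩)
        (by simp only [disjoint_union_right, disjoint_singleton]; exact ⟨hzp, hzq⟩) rfl)
    have : ({a, b, c, p, q, e} : Finset ℕ) = {a, b, c} ∪ {p, q, e} := by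
      clear * -
      grind
    rw [this, hs]
    clear * -
    grind
  -- `P(x,y,D)(z e)`
  have L5 : ∀ x y z w : ℕ, [p, q, x, y, z, w].Nodup →
      ({a, b, c, p, q, e} : Finset ℕ) = {p, q, x, y, z, w} →
      G (F := F) (xg x * xg y) (xg p * xg q) (xg z * xg w) ∈ GM F {a, b, c, p, q, e} := by
    intro x y z w hn hs
    have h1 := genM_PD_leaf (F := F) hn hs
    have h2 : G (F := F) (xg x * xg y) (xg p * xg q) (xg z * xg w)
        = G (F := F) ((xg p * xg q) * xg x) (xg y) (xg z * xg w) := by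
      have e1 := Ph_skew23 (F := F) (xg x) (xg y) (xg p * xg q) (mul_mem_M2 (xg z) (xg w))
      have e2 := Ph_skew12 (F := F) (xg x) (xg p * xg q) (xg y) (mul_mem_M2 (xg z) (xg w))
      have e3 : G (F := F) (xg x * xg y) (xg p * xg q) (xg z * xg w) =
        -G (F := F) (xg x * (xg p * xg q)) (xg y) (xg z * xg w) := e1
      have e4 : G (F := F) (xg x * (xg p * xg q)) (xg y) (xg z * xg w) =
        -G (F := F) ((xg p * xg q) * xg x) (xg y) (xg z * xg w) := e2
      rw [e3, e4, neg_neg]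
    rw [h2]
    exact h1
  -- `P(x,D,y)(z w)`
  have L6 : ∀ x y z w : ℕ, [p, q, x, y, z, w].Nodup →
      ({a, b, c, p, q, e} : Finset ℕ) = {p, q, x, y, z, w} →
      G (F := F) (xg x * (xg p * xg q)) (xg y) (xg z * xg w) ∈ GM F {a, b, c, p, q, e} := by
    intro x y z w hn hs
    have h1 := genM_PD_leaf (F := F) hn hs
    have e2 := Ph_skew12 (F := F) (xg x) (xg p * xg q) (xg y) (mul_mem_M2 (xg z) (xg w))
    have e4 : G (F := F) (xg x * (xg p * xg q)) (xg y) (xg z * xg w) =
        -G (F := F) ((xg p * xg q) * xg x) (xg y) (xg z * xg w) := e2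
    rw [e4]
    exact Submodule.neg_mem _ h1
  -- `P(x,y,e)(z D)`
  have L7 : ∀ x y z : ℕ, x ≠ y → x ≠ z → y ≠ z → x ≠ p → x ≠ q → x ≠ e → y ≠ p → y ≠ q → y ≠ e →
      z ≠ p → z ≠ q → z ≠ e → ({a, b, c} : Finset ℕ) = {x, y, z} →
      G (F := F) (xg x * xg y) (xg e) (xg z * (xg p * xg q)) ∈ GM F {a, b, c, p, q, e} := by
    intro x y z hxy hxz hyz hxp hxq hxe hyp hyq hye hzp hzq hze hs
    refine genM_Ph (C := {z} ∪ ({p} ∪ {q})) hxy hxe hye
      (by simp only [mem_union, mem_singleton, not_or]; exact ⟨hxz, hxp, hxq⟩)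
      (by simp only [mem_union, mem_singleton, not_or]; exact ⟨hyz, hyp, hyq⟩)
      (by simp only [mem_union, mem_singleton, not_or]; exact ⟨hze.symm, hep, heq⟩) ?_
      (mul_mem_ML (oper_ML_gen _ z) (mul_mem_ML (oper_ML_gen _ p) (oper_ML_gen _ q)
        (by simpa using hpq))
        (by simp only [disjoint_union_right, disjoint_singleton]; exact ⟨hzp, hzq⟩))
    have : ({a, b, c, p, q, e} : Finset ℕ) = {a, b, c} ∪ {p, q, e} := by
      clear * -
      grind
    rw [this, hs]
    clear * -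
    grind
  -- `P(a,b,c)(D e)`
  have L8 : G (F := F) (xg a * xg b) (xg c) ((xg p * xg q) * xg e) ∈ GM F {a, b, c, p, q, e} := by
    refine genM_Ph (C := ({p} ∪ {q}) ∪ {e}) hab hac hbc
      (by simp only [mem_union, mem_singleton, not_or]; exact ⟨⟨hap, haq⟩, hae⟩)
      (by simp only [mem_union, mem_singleton, not_or]; exact ⟨⟨hbp, hbq⟩, hbe⟩)
      (by simp only [mem_union, mem_singleton, not_or]; exact ⟨⟨hcp, hcq⟩, hce⟩) ?_
      (mul_mem_ML (mul_mem_ML (oper_ML_gen _ p) (oper_ML_gen _ q)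
        (by simpa using hpq)) (oper_ML_gen _ e)
        (by simp only [disjoint_union_left, disjoint_singleton]; exact ⟨hpe, hqe⟩))
    clear * -
    grind
  have hs1 : ({a, b, c} : Finset ℕ) = {b, c, a} := by clear * -; grind
  have hs2 : ({a, b, c} : Finset ℕ) = {c, a, b} := by clear * -; grind
  rw [cert_S10 malAlg_Mal G G_mul]
  refine Submodule.sub_mem _ (Submodule.sub_mem _ (Submodule.add_mem _ (Submodule.add_mem _
    (Submodule.neg_mem _ (Submodule.add_mem _ (Submodule.add_mem _ (Submodule.sub_mem _ ?_ ?_)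
      (Submodule.sub_mem _ ?_ ?_)) (Submodule.sub_mem _ ?_ ?_)))
    (Submodule.smul_mem _ _ (Submodule.add_mem _ (Submodule.add_mem _ (Submodule.sub_mem _ ?_ ?_)
      (Submodule.sub_mem _ ?_ ?_)) (Submodule.sub_mem _ ?_ ?_))))
    (Submodule.smul_mem _ _ ?_))
    (Submodule.smul_mem _ _ (Submodule.add_mem _ (Submodule.add_mem _ (Submodule.sub_mem _ ?_ ?_)
      (Submodule.sub_mem _ ?_ ?_)) (Submodule.sub_mem _ ?_ ?_))))
    (Submodule.smul_mem _ _ (Submodule.add_mem _ (Submodule.add_mem _ ?_ ?_) ?_))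
  · exact L1 a b c hab hac hbc hap haq hae hbp hbq hbe hcp hcq hce rfl
  · exact L3 a b c hab hac hbc hap haq hae hbp hbq hbe hcp hcq hce rfl
  · exact L1 b c a hbc hba hca hbp hbq hbe hcp hcq hce hap haq hae hs1
  · exact L3 b c a hbc hba hca hbp hbq hbe hcp hcq hce hap haq hae hs1
  · exact L1 c a b hca hcb hab hcp hcq hce hap haq hae hbp hbq hbe hs2
  · exact L3 c a b hca hcb hab hcp hcq hce hap haq hae hbp hbq hbe hs2
  · exact L2 a b c hab hac hbc hap haq hae hbp hbq hbe hcp hcq hce rfl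
  · exact L4 a b c hab hac hbc hap haq hae hbp hbq hbe hcp hcq hce rfl
  · exact L2 b c a hbc hba hca hbp hbq hbe hcp hcq hce hap haq hae hs1
  · exact L4 b c a hbc hba hca hbp hbq hbe hcp hcq hce hap haq hae hs1
  · exact L2 c a b hca hcb hab hcp hcq hce hap haq hae hbp hbq hbe hs2
  · exact L4 c a b hca hcb hab hcp hcq hce hap haq hae hbp hbq hbe hs2
  · exact L8
  · exact L5 a b c e (by simp [*]) (by clear * -; grind)
  · exact L7 a b c hab hac hbc hap haq hae hbp hbq hbe hcp hcq hce rfl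
  · exact L5 b c a e (by simp [*]) (by clear * -; grind)
  · exact L7 b c a hbc hba hca hbp hbq hbe hcp hcq hce hap haq hae hs1
  · exact L5 c a b e (by simp [*]) (by clear * -; grind)
  · exact L7 c a b hca hcb hab hcp hcq hce hap haq hae hbp hbq hbe hs2
  · exact L6 a e b c (by simp [*]) (by clear * -; grind)
  · exact L6 b e c a (by simp [*]) (by clear * -; grind)
  · exact L6 c e a b (by simp [*]) (by clear * -; grind)

/-- degrees (3,3) -/
theorem GM_three_three {A B : Finset ℕ} (hA : A.card = 3) (hB : B.card = 3) {u v : Mal F}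
    (hu : u ∈ ML F xg A) (hv : v ∈ ML F xg B) (h : Disjoint A B) : u * v ∈ GM F (A ∪ B) := by
  refine ML_induction (p := fun u => u * v ∈ GM F (A ∪ B)) ?_ ?_ ?_ ?_ hu
  · intro w hw
    obtain ⟨a, b, c, hab, hac, hbc, hAe, hw'⟩ := genM_three_word (F := F) hA hw
    have key : ((xg a * xg b) * xg c) * v ∈ GM F (A ∪ B) := by
      have hd : a ∉ B ∧ b ∉ B ∧ c ∉ B := by
        rw [hAe] at h
        simp only [Finset.disjoint_left] at h
        exact ⟨h (by simp), h (by simp), h (by simp)⟩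
      obtain ⟨ha, hb, hc⟩ := hd
      rw [genM_tree3 (xg a) (xg b) (xg c), smul_mul_assoc, add_mul, sub_mul]
      refine Submodule.smul_mem _ _ (Submodule.add_mem _ (Submodule.sub_mem _ ?_ ?_) ?_)
      · refine ML_induction (p := fun v => Jj (xg a) (xg b) (xg c) * v ∈ GM F (A ∪ B))
          ?_ ?_ ?_ ?_ hv
        · intro w2 hw2
          obtain ⟨p, q, e, hpq, hpe, hqe, hBe, hw2'⟩ := genM_three_word (F := F) hB hw2
          have hs : A ∪ B = {a, b, c, p, q, e} := by
            rw [hAe, hBe]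
            clear * -
            grind
          rw [hs]
          rw [hBe] at ha hb hc
          simp only [mem_insert, mem_singleton, not_or] at ha hb hc
          have key2 : Jj (xg a) (xg b) (xg c) * ((xg p * xg q) * xg e) ∈
              GM F {a, b, c, p, q, e} := by
            refine genM_J_three ?_
            simp only [List.nodup_cons, List.mem_cons, List.not_mem_nil, or_false, not_or,
              List.nodup_nil, and_true, not_false_eq_true]
            exact ⟨⟨hab, hac, ha.1, ha.2.1, ha.2.2⟩, ⟨hbc, hb.1, hb.2.1, hb.2.2⟩,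
              ⟨hc.1, hc.2.1, hc.2.2⟩, ⟨hpq, hpe⟩, hqe⟩
          rcases hw2' with hw2' | hw2'
          · rw [hw2']
            exact key2
          · rw [hw2', mul_neg]
            exact Submodule.neg_mem _ key2
        · rw [mul_zero]; exact Submodule.zero_mem _
        · intro x y hx hy
          rw [mul_add]; exact Submodule.add_mem _ hx hy
        · intro k x hx
          rw [mul_smul_comm]; exact Submodule.smul_mem _ k hx
      · refine genM_Dd hac.symm hbc.symm hab hc ha hb ?_ hv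
        rw [hAe]
        clear * -
        grind
      · refine genM_Dd hbc.symm hac.symm hab.symm hc hb ha ?_ hv
        rw [hAe]
        clear * -
        grind
    rcases hw' with hw' | hw'
    · rw [hw']
      exact key
    · rw [hw', neg_mul]
      exact Submodule.neg_mem _ key
  · rw [zero_mul]; exact Submodule.zero_mem _
  · intro x y hx hy
    rw [add_mul]; exact Submodule.add_mem _ hx hy
  · intro k x hx
    rw [smul_mul_assoc]; exact Submodule.smul_mem _ k hx

lemma genM_aux (n : ℕ) : ∀ B : Finset ℕ, 5 ≤ B.card → B.card ≤ n → ML F xg B ≤ GM F B := by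
  have hM := malAlg_Mal (F := F)
  induction n with
  | zero => intro B h1 h2; omega
  | succ n ih =>
    intro B hB hn u0 hu0
    refine ML_induction (p := fun u => u ∈ GM F B) ?_ ?_ ?_ ?_ hu0
    · intro w hw
      cases hw with
      | of i => simp at hB
      | @mul C D u v hu hv hd =>
        have hs := Finset.card_union_of_disjoint hd
        have hC := hu.nonempty.card_pos
        have hD := hv.nonempty.card_pos
        rw [wv_mul]
        by_cases h1 : 5 ≤ C.card
        · exact GM_mul h1 (ih C h1 (by omega) (wv_mem_ML hu)) (wv_mem_ML hv) hd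
        by_cases h2 : 5 ≤ D.card
        · rw [hM.anti, union_comm]
          exact Submodule.neg_mem _
            (GM_mul h2 (ih D h2 (by omega) (wv_mem_ML hv)) (wv_mem_ML hu) hd.symm)
        by_cases h3 : C.card = 4
        · exact GM_four h3 hv.nonempty (wv_mem_ML hu) (wv_mem_ML hv) hd
        by_cases h4 : D.card = 4
        · rw [hM.anti, union_comm]
          exact Submodule.neg_mem _
            (GM_four h4 hu.nonempty (wv_mem_ML hv) (wv_mem_ML hu) hd.symm)
        rcases (by omega : (C.card = 3 ∧ D.card = 3) ∨ (C.card = 3 ∧ D.card = 2) ∨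
          (C.card = 2 ∧ D.card = 3)) with h | h | h
        · exact GM_three_three h.1 h.2 (wv_mem_ML hu) (wv_mem_ML hv) hd
        · exact GM_three_two h.1 h.2 (wv_mem_ML hu) (wv_mem_ML hv) hd
        · rw [hM.anti, union_comm]
          exact Submodule.neg_mem _
            (GM_three_two h.2 h.1 (wv_mem_ML hv) (wv_mem_ML hu) hd.symm)
    · exact Submodule.zero_mem _
    · intro x y hx hy
      exact Submodule.add_mem _ hx hy
    · intro k x hx
      exact Submodule.smul_mem _ k hx

theorem genM {B : Finset ℕ} (hB : 5 ≤ B.card) : ML F xg B ≤ GM F B :=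
  genM_aux B.card B hB le_rfl

end

end OctId
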