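import Pool.Agent.Work.MP_9b6dd6_al.Mu
import Pool.Agent.Work.MP_9b6dd6_al.GenM
import Pool.Agent.Work.MP_9b6dd6_al.FunB

/-!
# The abstract core induction step: definitions
-/

namespace OctId

open Finset

set_option linter.unusedSectionVars false

noncomputable section

variable {F : Type*} [Field F] [CharZero F]

/-- induction hypothesis -/
def IH (F : Type*) [Field F] [CharZero F] (n : ℕ) : Prop :=
  ∀ C : Finset ℕ, C.card < n → Inj F C

/-- the lifted operators on functions -/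
structure CoreData (F : Type*) [Field F] [CharZero F] (B : Finset ℕ) where
  hG : ℕ → ℕ → Fn F →ₗ[F] Mal F
  hC : ℕ → ℕ → Fn F →ₗ[F] Mal F
  dd : ℕ → ℕ → Mal F
  ee : ℕ → ℕ → ℕ → Mal F
  A1 : ∀ p ∈ B, ∀ q ∈ B, p ≠ q → ∀ x ∈ W F (B \ {p, q}), rho x = 0 →
    hG p q x = G (xg p) (xg q) (mu (B \ {p, q}) x)
  A2 : ∀ p ∈ B, ∀ q ∈ B, p ≠ q → ∀ x ∈ W F (B.erase q), rho x = 0 →
    hC p q x = cher p q (mu (B.erase q) x)
  B1 : ∀ a ∈ B, ∀ b ∈ B, ∀ p ∈ B, ∀ q ∈ B, [a, b, p, q].Nodup →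
    ∀ x ∈ W F (B \ {a, b, p, q}),
      hG p q (gm a b x) = G (xg a) (xg b) (mu (B \ {a, b}) (gm p q x - rho x • oB F (B \ {a, b})))
        + rho x • dd a b
  B2 : ∀ a ∈ B, ∀ b ∈ B, ∀ c ∈ B, ∀ p ∈ B, ∀ q ∈ B, [a, b, c, p, q].Nodup →
    ∀ x ∈ W F (B \ {a, b, c, p, q}),
      hG p q (phm a b c x) =
        Ph (xg a) (xg b) (xg c) (mu (B \ {a, b, c}) (gm p q x - rho x • oB F (B \ {a, b, c})))
        + rho x • ee a b c
  B3 : ∀ a ∈ B, ∀ b ∈ B, ∀ p ∈ B, ∀ q ∈ B, [a, b, p, q].Nodup →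
    ∀ x ∈ W F (B \ {a, b, q}),
      hC p q (gm a b x) = G (xg a) (xg b) (mu (B \ {a, b}) (cp p q x))
  B4 : ∀ a ∈ B, ∀ b ∈ B, ∀ c ∈ B, ∀ p ∈ B, ∀ q ∈ B, [a, b, c, p, q].Nodup →
    ∀ x ∈ W F (B \ {a, b, c, q}),
      hC p q (phm a b c x) = Ph (xg a) (xg b) (xg c) (mu (B \ {a, b, c}) (cp p q x))

variable {B : Finset ℕ}

/-- evaluation of the Casimir identity at the constant tuple: the sum of the `rho` of the
contractions of a function with `rho = 0` -/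
theorem rho_ctr_sum {f : Fn F} (hf : f ∈ W F B) (h0 : rho f = 0) :
    ∑ e ∈ B.offDiag, rho (ctr e.1 e.2 f) = 0 := by
  have hc := congrArg rho (casimir hf)
  simp only [map_sum, map_add, map_sub, map_smul, rho_ren, rho_gm, h0] at hc
  have h1 : ∀ e ∈ B.offDiag, ((0 : F) + 0 - (2 : F) • rho (ctr e.1 e.2 f) +
      rho (cp e.1 e.2 (ctx e.1 e.2 f))) = (-2 : F) * rho (ctr e.1 e.2 f) := by
    intro e he
    rw [Finset.mem_offDiag] at he
    obtain ⟨he1, he2, hne⟩ := he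
    have h4 : rho (cp e.1 e.2 (ctx e.1 e.2 f)) = 0 :=
      rho_cp (ctx_mem hf he1 he2 hne) (Finset.mem_erase.mpr ⟨hne, he1⟩) _
    rw [h4, smul_eq_mul]
    ring
  rw [Finset.sum_congr rfl h1, ← Finset.mul_sum, smul_zero] at hc
  exact (mul_eq_zero.mp hc).resolve_left (by norm_num)

/-- the bracket of a pair -/
def brk (D : CoreData F B) (p q : ℕ) (u : Mal F) : Mal F :=
  u + rn (Equiv.swap p q) u - (2 : F) • D.hG p q (ctr p q (ev u)) + D.hC p q (ctx p q (ev u))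

theorem brk_add (D : CoreData F B) (p q : ℕ) (u v : Mal F) :
    brk D p q (u + v) = brk D p q u + brk D p q v := by
  unfold brk
  simp only [map_add, smul_add]
  abel

theorem brk_smul (D : CoreData F B) (p q : ℕ) (c : F) (u : Mal F) :
    brk D p q (c • u) = c • brk D p q u := by
  unfold brk
  simp only [map_smul]
  module

end

end OctId
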