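import Pool.Agent.Work.MP_9b6dd6_al.CoreDefs
import Pool.Agent.Work.MP_9b6dd6_al.CoreP

/-!
# The core induction step: the operators `G`
-/

namespace OctId

open Finset

set_option linter.unusedSectionVars false

noncomputable section

variable {F : Type*} [Field F] [CharZero F]

variable {B : Finset ℕ}

section G

variable (D : CoreData F B) (hB : 5 ≤ B.card) (hI : IH F B.card) {a b : ℕ} (ha : a ∈ B)
  (hb : b ∈ B) (hab : a ≠ b) {h : Mal F} (hh : h ∈ ML F xg (B \ {a, b}))
include hB hI ha hb hab hh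

/-- pairs inside the complement of `{a,b}` -/
theorem brk_G_in : ∑ e ∈ (B \ {a, b}).offDiag, brk D e.1 e.2 (G (xg a) (xg b) h)
    = (-(12 * ((B.card : F) - 3))) • G (xg a) (xg b) h := by
  set C := B \ {a, b} with hCdef
  have hCcard : C.card = B.card - 2 := oneRow_card_sdiff ha hb hab
  have hC2 : 2 ≤ C.card := by omega
  have hM2 : h ∈ M2 F := ML_le_M2 hC2 hh
  have hIC : Inj F C := hI C (by omega)
  set x := ev h with hx
  have hxW : x ∈ W F C := ev_mem_W hh
  have hx0 : rho x = 0 := rho_ev hh hC2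
  have hmx : mu C x = h := mu_ev hIC hh
  have haC : a ∉ C := by simp [hCdef]
  have hbC : b ∉ C := by simp [hCdef]
  have key : ∀ e ∈ C.offDiag, brk D e.1 e.2 (G (xg a) (xg b) h) =
      G (xg a) (xg b) (mu C (x + ren (Equiv.swap e.1 e.2) x
        - (2 : F) • gm e.1 e.2 (ctr e.1 e.2 x) + cp e.1 e.2 (ctx e.1 e.2 x)))
      + rho (ctr e.1 e.2 x) • ((2 : F) • G (xg a) (xg b) (mu C (oB F C))
        - (2 : F) • D.dd a b) := by
    rintro ⟨p, q⟩ he
    rw [Finset.mem_offDiag] at he
    obtain ⟨hp, hq, hpq⟩ := he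
    simp only at hp hq hpq ⊢
    have hpa : p ≠ a := fun h => haC (h ▸ hp)
    have hpb : p ≠ b := fun h => hbC (h ▸ hp)
    have hqa : q ≠ a := fun h => haC (h ▸ hq)
    have hqb : q ≠ b := fun h => hbC (h ▸ hq)
    have hpB : p ∈ B := (Finset.mem_sdiff.1 hp).1
    have hqB : q ∈ B := (Finset.mem_sdiff.1 hq).1
    have hnd : [a, b, p, q].Nodup := by
      simp only [List.nodup_cons, List.mem_cons, List.not_mem_nil, or_false, not_or,
        not_false_eq_true, List.nodup_nil, and_true]
      exact ⟨⟨hab, hpa.symm, hqa.symm⟩, ⟨hpb.symm, hqb.symm⟩, hpq⟩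
    have e1 : B \ {a, b, p, q} = C \ {p, q} := by
      ext i
      simp only [hCdef, Finset.mem_sdiff, Finset.mem_insert, Finset.mem_singleton, not_or]
      tauto
    have e2 : B \ {a, b, q} = C.erase q := by
      ext i
      simp only [hCdef, Finset.mem_sdiff, Finset.mem_insert, Finset.mem_singleton, not_or,
        Finset.mem_erase]
      tauto
    have hctr : ctr p q x ∈ W F (B \ {a, b, p, q}) := by
      rw [e1]; exact ctr_mem hxW hp hq hpq
    have hctx : ctx p q x ∈ W F (B \ {a, b, q}) := by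
      rw [e2]; exact ctx_mem hxW hp hq hpq
    have hswapC : C.map (Equiv.swap p q).toEmbedding = C := by
      apply Finset.eq_of_subset_of_card_le
      · intro i hi
        obtain ⟨k, hk, rfl⟩ := Finset.mem_map.mp hi
        simp only [Equiv.coe_toEmbedding]
        by_cases h1 : k = p
        · rw [h1, Equiv.swap_apply_left]; exact hq
        · by_cases h2 : k = q
          · rw [h2, Equiv.swap_apply_right]; exact hp
          · rw [Equiv.swap_apply_of_ne_of_ne h1 h2]; exact hk
      · rw [Finset.card_map]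
    have hrn : rn (Equiv.swap p q) h = mu C (ren (Equiv.swap p q) x) := by
      have h1 := rn_mem_ML hh (Equiv.swap p q)
      rw [hswapC] at h1
      rw [← ev_rn, mu_ev hIC h1]
    unfold brk
    rw [ev_G_gen a b hM2, ← hx, ctr_gm_in hpa hpb hqa hqb,
      ctx_gm_in hpa hpb hqa hqb,
      D.B1 a ha b hb p hpB q hqB hnd _ hctr, D.B3 a ha b hb p hpB q hqB hnd _ hctx,
      G_sub _ _ _ hM2, RF.sub_gen, RF.sub_gen,
      Equiv.swap_apply_of_ne_of_ne hpa.symm hqa.symm,
      Equiv.swap_apply_of_ne_of_ne hpb.symm hqb.symm, hrn, ← hCdef]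
    simp only [map_add, map_sub, map_smul, hmx, smul_sub, smul_add]
    module
  rw [Finset.sum_congr rfl key, Finset.sum_add_distrib, ← Finset.sum_smul, rho_ctr_sum hxW hx0,
    zero_smul, add_zero]
  have h1 := casimir hxW
  have h2 : ∑ e ∈ C.offDiag, G (xg a) (xg b) (mu C (x + ren (Equiv.swap e.1 e.2) x
        - (2 : F) • gm e.1 e.2 (ctr e.1 e.2 x) + cp e.1 e.2 (ctx e.1 e.2 x))) =
      G (xg a) (xg b) (mu C (∑ e ∈ C.offDiag, (x + ren (Equiv.swap e.1 e.2) x
        - (2 : F) • gm e.1 e.2 (ctr e.1 e.2 x) + cp e.1 e.2 (ctx e.1 e.2 x)))) := by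
    rw [map_sum, map_sum]
  rw [h2, h1, map_smul, map_smul, hmx, hCcard, Nat.cast_sub (by omega)]
  congr 1
  push_cast
  ring

/-- the pair `{a,b}`, first order -/
theorem CoreG_self : brk D a b (G (xg a) (xg b) h) = (-12 : F) • G (xg a) (xg b) h := by
  set C := B \ {a, b} with hCdef
  have hCcard : C.card = B.card - 2 := oneRow_card_sdiff ha hb hab
  have hC2 : 2 ≤ C.card := by omega
  have hM2 : h ∈ M2 F := ML_le_M2 hC2 hh
  have hIC : Inj F C := hI C (by omega)
  set x := ev h with hx
  have hxW : x ∈ W F C := ev_mem_W hh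
  have hx0 : rho x = 0 := rho_ev hh hC2
  have hmx : mu C x = h := mu_ev hIC hh
  have haC : a ∉ C := by simp [hCdef]
  have hbC : b ∉ C := by simp [hCdef]
  have hrn : rn (Equiv.swap a b) (G (xg a) (xg b) h) = G (xg a) (xg b) h := by
    rw [G_sub _ _ _ hM2, RF.sub_gen, RF.sub_gen, Equiv.swap_apply_left,
      Equiv.swap_apply_right,
      CoreP_rn_fix hh (fun i hi => Equiv.swap_apply_of_ne_of_ne (ne_of_mem_of_not_mem hi haC)
        (ne_of_mem_of_not_mem hi hbC))]
    exact G_symm _ _ hM2
  unfold brk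
  rw [hrn, ev_G_gen a b hM2, ← hx, ctr_gm_self hxW haC hbC hab,
    ctx_gm_self hxW haC hbC hab, map_zero, add_zero, map_smul,
    D.A1 a ha b hb hab _ hxW hx0, ← hCdef, hmx]
  module

theorem brk_G_self : brk D a b (G (xg a) (xg b) h) = (-12 : F) • G (xg a) (xg b) h ∧
    brk D b a (G (xg a) (xg b) h) = (-12 : F) • G (xg a) (xg b) h := by
  have hM2 : h ∈ M2 F := ML_le_M2 (by
    rw [oneRow_card_sdiff ha hb hab]; omega) hh
  refine ⟨CoreG_self D hB hI ha hb hab hh, ?_⟩
  have h1 := CoreG_self D hB hI hb ha hab.symm (h := h) (by rwa [Finset.pair_comm b a])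
  rwa [G_symm (xg b) (xg a) hM2] at h1

/-- the two brackets of a cross pair -/
theorem CoreG_cross {q : ℕ} (hq : q ∈ B \ {a, b}) :
    brk D a q (G (xg a) (xg b) h) = G (xg a) (xg b) h
      + G (xg q) (xg b) (put q (xg a) h)
      - (2 : F) • G (xg a) (xg q) (put q (xg b) h)
      + put q (xg b * (xg a * xg q)) h ∧
    brk D q a (G (xg a) (xg b) h) = G (xg a) (xg b) h
      + G (xg q) (xg b) (put q (xg a) h)
      - (2 : F) • G (xg a) (xg q) (put q (xg b) h)
      + put q (xg b * (xg a * xg q)) h := by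
  set C := B \ {a, b} with hCdef
  have hCcard : C.card = B.card - 2 := oneRow_card_sdiff ha hb hab
  have hC2 : 2 ≤ C.card := by omega
  have hM2 : h ∈ M2 F := ML_le_M2 hC2 hh
  set x := ev h with hx
  have hxW : x ∈ W F C := ev_mem_W hh
  have haC : a ∉ C := by simp [hCdef]
  have hbC : b ∉ C := by simp [hCdef]
  have hqa : q ≠ a := fun h => haC (h ▸ hq)
  have hqb : q ≠ b := fun h => hbC (h ▸ hq)
  have hqB : q ∈ B := (Finset.mem_sdiff.1 hq).1
  have hcard1 : (B \ {a, q}).card = B.card - 2 := oneRow_card_sdiff ha hqB hqa.symm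
  have hcard2 : (B.erase q).card = B.card - 1 := Finset.card_erase_of_mem hqB
  have hcard3 : (B.erase a).card = B.card - 1 := Finset.card_erase_of_mem ha
  -- the lifts
  have hk1 : put q (xg b) h ∈ ML F xg (B \ {a, q}) := by
    have h1 := CoreP_put_mem hh hq (CoreP_gen_mem b) (by
      rw [Finset.disjoint_singleton_right]
      intro hi
      exact hbC (Finset.mem_of_mem_erase hi))
    have e : C.erase q ∪ {b} = B \ {a, q} := by
      ext i
      simp only [hCdef, Finset.mem_sdiff, Finset.mem_insert, Finset.mem_singleton, not_or,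
        Finset.mem_erase, Finset.mem_union]
      constructor
      · rintro (⟨h1, h2, h3, h4⟩ | rfl)
        · exact ⟨h2, h3, h1⟩
        · exact ⟨hb, hab.symm, hqb.symm⟩
      · rintro ⟨h1, h2, h3⟩
        by_cases hib : i = b
        · exact Or.inr hib
        · exact Or.inl ⟨h3, h1, h2, hib⟩
    rwa [e] at h1
  have hk2 : put q (xg b * xg a) h ∈ ML F xg (B.erase q) := by
    have h1 := CoreP_put_mem hh hq (mul_mem_ML (CoreP_gen_mem b) (CoreP_gen_mem a)
      (Finset.disjoint_singleton.2 hab.symm)) (by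
      rw [Finset.disjoint_left]
      intro i hi hi'
      simp only [Finset.mem_union, Finset.mem_singleton] at hi'
      rcases hi' with rfl | rfl
      · exact hbC (Finset.mem_of_mem_erase hi)
      · exact haC (Finset.mem_of_mem_erase hi))
    have e : C.erase q ∪ ({b} ∪ {a}) = B.erase q := by
      ext i
      simp only [hCdef, Finset.mem_sdiff, Finset.mem_insert, Finset.mem_singleton, not_or,
        Finset.mem_erase, Finset.mem_union]
      constructor
      · rintro (⟨h1, h2, h3, h4⟩ | rfl | rfl)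
        · exact ⟨h1, h2⟩
        · exact ⟨hqb.symm, hb⟩
        · exact ⟨hqa.symm, ha⟩
      · rintro ⟨h1, h2⟩
        by_cases hib : i = b
        · exact Or.inr (Or.inl hib)
        · by_cases hia : i = a
          · exact Or.inr (Or.inr hia)
          · exact Or.inl ⟨h1, h2, hia, hib⟩
    rwa [e] at h1
  have hk3 : put q (xg q * xg b) h ∈ ML F xg (B.erase a) := by
    have h1 := CoreP_put_mem hh hq (mul_mem_ML (CoreP_gen_mem q) (CoreP_gen_mem b)
      (Finset.disjoint_singleton.2 hqb)) (by
      rw [Finset.disjoint_left]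
      intro i hi hi'
      simp only [Finset.mem_union, Finset.mem_singleton] at hi'
      rcases hi' with rfl | rfl
      · exact Finset.notMem_erase _ _ hi
      · exact hbC (Finset.mem_of_mem_erase hi))
    have e : C.erase q ∪ ({q} ∪ {b}) = B.erase a := by
      ext i
      simp only [hCdef, Finset.mem_sdiff, Finset.mem_insert, Finset.mem_singleton, not_or,
        Finset.mem_erase, Finset.mem_union]
      constructor
      · rintro (⟨h1, h2, h3, h4⟩ | rfl | rfl)
        · exact ⟨h3, h2⟩
        · exact ⟨hqa, hqB⟩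
        · exact ⟨hab.symm, hb⟩
      · rintro ⟨h1, h2⟩
        by_cases hib : i = b
        · exact Or.inr (Or.inr hib)
        · by_cases hiq : i = q
          · exact Or.inr (Or.inl hiq)
          · exact Or.inl ⟨hiq, h2, h1, hib⟩
    rwa [e] at h1
  -- their values
  have hv1 : pull (fun y => Function.update y q (y b)) x = ev (put q (xg b) h) := by
    rw [CoreP_ev_put]
    simp only [ev_gen]
    rfl
  have hv2 : pull (fun y => Function.update y q (y b * y a)) x =
      ev (put q (xg b * xg a) h) := by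
    rw [CoreP_ev_put]
    simp only [ev_mul, ev_gen]
    rfl
  have hv3 : pull (fun y => Function.update y q (y q * y b)) x =
      ev (put q (xg q * xg b) h) := by
    rw [CoreP_ev_put]
    simp only [ev_mul, ev_gen]
    rfl
  -- the renaming
  have hrn : rn (Equiv.swap a q) (G (xg a) (xg b) h) =
      G (xg q) (xg b) (put q (xg a) h) := by
    rw [G_sub _ _ _ hM2, RF.sub_gen, RF.sub_gen, Equiv.swap_apply_left,
      Equiv.swap_apply_of_ne_of_ne hab.symm hqb.symm]
    congr 1
    refine sub_congr hh fun i hi => ?_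
    by_cases hiq : i = q
    · rw [hiq, Equiv.swap_apply_right, Function.update_self]
    · rw [Function.update_of_ne hiq,
        Equiv.swap_apply_of_ne_of_ne (ne_of_mem_of_not_mem hi haC) hiq]
  -- the cherries
  have hch2 : cher a q (put q (xg b * xg a) h) = put q (xg b * (xg a * xg q)) h := by
    rw [RF.sub_sub]
    refine sub_congr hh fun i hi => ?_
    by_cases hiq : i = q
    · subst hiq
      rw [Function.update_self, Function.update_self, map_mul, RF.sub_gen,
        RF.sub_gen, Function.update_self, Function.update_of_ne hab.symm]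
    · rw [Function.update_of_ne hiq, Function.update_of_ne hiq, RF.sub_gen,
        Function.update_of_ne (ne_of_mem_of_not_mem hi haC)]
  have hch3 : cher q a (put q (xg q * xg b) h) = put q (xg b * (xg a * xg q)) h := by
    have hM := malAlg_Mal (F := F)
    have e : (xg b : Mal F) * (xg a * xg q) = (xg q * xg a) * xg b := by
      rw [hM.anti (xg b), hM.anti (xg a) (xg q), neg_mul, neg_neg]
    rw [e, RF.sub_sub]
    refine sub_congr hh fun i hi => ?_
    by_cases hiq : i = q
    · subst hiq
      rw [Function.update_self, Function.update_self, map_mul, RF.sub_gen,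
        RF.sub_gen, Function.update_self, Function.update_of_ne hqb.symm]
    · rw [Function.update_of_ne hiq, Function.update_of_ne hiq, RF.sub_gen,
        Function.update_of_ne hiq]
  have hI1 : Inj F (B \ {a, q}) := hI _ (by omega)
  have hI2 : Inj F (B.erase q) := hI _ (by omega)
  have hI3 : Inj F (B.erase a) := hI _ (by omega)
  constructor
  · unfold brk
    rw [hrn, ev_G_gen a b hM2, ← hx, ctr_gm_cross hxW haC hbC hq hab,
      ctx_gm_cross hxW haC hbC hq hab, hv1, hv2,
      D.A1 a ha q hqB hqa.symm _ (ev_mem_W hk1) (rho_ev hk1 (by omega)),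
      D.A2 a ha q hqB hqa.symm _ (ev_mem_W hk2) (rho_ev hk2 (by omega)),
      mu_ev hI1 hk1, mu_ev hI2 hk2, hch2]
  · unfold brk
    rw [Equiv.swap_comm q a, hrn, ev_G_gen a b hM2, ← hx,
      ctr_gm_cross' hxW haC hbC hq hab,
      ctx_gm_cross' hxW haC hbC hq hab, hv1, hv3,
      D.A1 q hqB a ha hqa _ (by rw [Finset.pair_comm q a]; exact ev_mem_W hk1)
        (rho_ev hk1 (by omega)),
      D.A2 q hqB a ha hqa _ (ev_mem_W hk3) (rho_ev hk3 (by omega)), Finset.pair_comm q a,
      mu_ev hI1 hk1, mu_ev hI3 hk3, hch3, G_symm (xg q) (xg a) (sub_mem_M2 _ hM2)]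

theorem brk_G_cross {q : ℕ} (hq : q ∈ B \ {a, b}) :
    brk D a q (G (xg a) (xg b) h) + brk D q a (G (xg a) (xg b) h)
      + brk D b q (G (xg a) (xg b) h) + brk D q b (G (xg a) (xg b) h) = 0 := by
  have hC2 : 2 ≤ (B \ {a, b}).card := by
    rw [oneRow_card_sdiff ha hb hab]; omega
  have hM2 : h ∈ M2 F := ML_le_M2 hC2 hh
  have h1 := CoreG_cross D hB hI ha hb hab hh hq
  have h2 := CoreG_cross D hB hI hb ha hab.symm (h := h) (by rwa [Finset.pair_comm b a])
    (q := q) (by rwa [Finset.pair_comm b a])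
  rw [G_symm (xg b) (xg a) hM2] at h2
  have hSS := SS hh hC2 hq (xg a) (xg b)
  have hDd : put q (Dd (xg a) (xg b) (xg q)) h =
      put q (xg a * (xg b * xg q)) h + put q (xg b * (xg a * xg q)) h :=
    CoreP_put_add hh hq _ _
  rw [hDd] at hSS
  rw [h1.1, h1.2, h2.1, h2.2, G_symm (xg q) (xg b) (sub_mem_M2 _ hM2),
    G_symm (xg q) (xg a) (sub_mem_M2 _ hM2)]
  have hSS' := sub_eq_zero.2 hSS
  have : ∀ (u g1 g2 s1 s2 : Mal F),
      s2 + s1 - ((-2 : F) • u + g1 + g2) = 0 →
      (u + g2 - (2 : F) • g1 + s1) + (u + g2 - (2 : F) • g1 + s1)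
      + (u + g1 - (2 : F) • g2 + s2) + (u + g1 - (2 : F) • g2 + s2) = 0 := by
    intro u g1 g2 s1 s2 hs
    have h2 : (2 : F) • (s2 + s1 - ((-2 : F) • u + g1 + g2)) = 0 := by rw [hs, smul_zero]
    rw [← h2]
    module
  exact this _ _ _ _ _ hSS'

theorem Q_G : ∑ e ∈ B.offDiag, brk D e.1 e.2 (G (xg a) (xg b) h)
    + (12 * ((B.card : F) - 1)) • G (xg a) (xg b) h = 0 := by
  have h1 := brk_G_self D hB hI ha hb hab hh
  have hin := brk_G_in D hB hI ha hb hab hh
  have hcross : ∀ q ∈ B \ {a, b}, _ := fun q hq => brk_G_cross D hB hI ha hb hab hh hq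
  set u := G (xg a) (xg b) h with hu
  set C := B \ {a, b} with hCdef
  have haC : a ∉ C := by simp [hCdef]
  have hbC : b ∉ C := by simp [hCdef]
  set g : ℕ → ℕ → Mal F := fun p q => if p = q then 0 else brk D p q u with hg
  have hsum : ∀ S : Finset ℕ, ∑ e ∈ S.offDiag, brk D e.1 e.2 u = ∑ p ∈ S, ∑ q ∈ S, g p q := by
    intro S
    have e1 : S.offDiag = (S ×ˢ S).filter (fun e => e.1 ≠ e.2) := by
      ext e
      simp only [Finset.mem_offDiag, Finset.mem_filter, Finset.mem_product, and_assoc]
    rw [← Finset.sum_product', e1, Finset.sum_filter]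
    refine Finset.sum_congr rfl fun e _ => ?_
    simp only [hg]
    by_cases h1 : e.1 = e.2
    · rw [if_pos h1, if_neg (not_not.2 h1)]
    · rw [if_neg h1, if_pos h1]
  have hBC : B = C ∪ {a, b} := by
    ext i
    simp only [hCdef, Finset.mem_union, Finset.mem_sdiff, Finset.mem_insert,
      Finset.mem_singleton]
    constructor
    · intro hi
      by_cases h : i = a ∨ i = b
      · exact Or.inr h
      · exact Or.inl ⟨hi, h⟩
    · rintro (⟨h, _⟩ | rfl | rfl)
      · exact h
      · exact ha
      · exact hb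
  have hdisj : Disjoint C {a, b} := Finset.sdiff_disjoint
  have hA : ∀ f : ℕ → Mal F, ∑ p ∈ ({a, b} : Finset ℕ), f p = f a + f b := by
    intro f
    rw [Finset.sum_insert (by simp [hab]), Finset.sum_singleton]
  have hsplit : ∑ e ∈ B.offDiag, brk D e.1 e.2 u =
      ∑ e ∈ C.offDiag, brk D e.1 e.2 u +
      ∑ q ∈ C, (brk D a q u + brk D q a u + brk D b q u + brk D q b u) +
      (brk D a b u + brk D b a u) := by
    rw [hsum B, hsum C]
    conv_lhs => rw [hBC]
    rw [Finset.sum_union hdisj]
    simp only [Finset.sum_union hdisj, hA, Finset.sum_add_distrib]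
    have gne : ∀ p q, p ≠ q → g p q = brk D p q u := fun p q h => if_neg h
    have gaa : ∀ p, g p p = 0 := fun p => if_pos rfl
    have s1 : ∀ t, t ∉ C → ∑ q ∈ C, g t q = ∑ q ∈ C, brk D t q u := fun t ht =>
      Finset.sum_congr rfl fun q hq => gne _ _ (fun h => ht (h ▸ hq))
    have s2 : ∀ t, t ∉ C → ∑ q ∈ C, g q t = ∑ q ∈ C, brk D q t u := fun t ht =>
      Finset.sum_congr rfl fun q hq => gne _ _ (fun h => ht (h ▸ hq))
    rw [s1 a haC, s1 b hbC, s2 a haC, s2 b hbC, gaa, gaa, gne a b hab, gne b a hab.symm]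
    abel
  rw [hsplit, hin, Finset.sum_congr rfl hcross, Finset.sum_const_zero, h1.1, h1.2]
  module

end G

end

end OctId
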