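import Mathlib

/-!
# Diagonal dominance in modules with an action of a symmetric group
-/

namespace OctId

open Finset

noncomputable section

/-- a square integer system with strictly dominant diagonal has only the zero solution -/
theorem DD_matrix {F : Type*} [Field F] [CharZero F] {G : Type*} [Fintype G]
    [DecidableEq G] {E : Type*} [AddCommGroup E] [Module F E] (M : Matrix G G ℤ) (x : G → E)
    (hM : ∀ k, ∑ j ∈ univ.erase k, |M k j| < |M k k|)
    (h : ∀ s, ∑ s', (M s s' : F) • x s' = 0) : ∀ s, x s = 0 := by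
  have hdet : M.det ≠ 0 := by
    have h1 : (M.map (fun z : ℤ => (z : ℝ))).det ≠ 0 := by
      refine det_ne_zero_of_sum_row_lt_diag fun k => ?_
      simp only [Matrix.map_apply, Real.norm_eq_abs]
      have := hM k
      exact_mod_cast this
    intro h0
    rw [← Int.cast_det, h0] at h1
    simp at h1
  intro s
  have h2 : (M.det : F) • x s = 0 := by
    have h3 : ∑ r, (M.adjugate s r : F) • ∑ s', (M r s' : F) • x s' = 0 :=
      Finset.sum_eq_zero fun r _ => by rw [h r, smul_zero]
    have h4 : ∑ r, (M.adjugate s r : F) • ∑ s', (M r s' : F) • x s' =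
        ∑ s', ((∑ r, M.adjugate s r * M r s' : ℤ) : F) • x s' := by
      simp only [Finset.smul_sum, smul_smul]
      rw [Finset.sum_comm]
      refine Finset.sum_congr rfl fun s' _ => ?_
      rw [Int.cast_sum, Finset.sum_smul]
      refine Finset.sum_congr rfl fun r _ => ?_
      rw [Int.cast_mul]
    rw [h4] at h3
    have h5 : ∀ s', ∑ r, M.adjugate s r * M r s' = if s = s' then M.det else 0 := by
      intro s'
      have := congrFun (congrFun (Matrix.adjugate_mul M) s) s'
      rw [Matrix.mul_apply] at this
      rw [this, Matrix.smul_apply, Matrix.one_apply]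
      split_ifs <;> simp
    simp only [h5] at h3
    rw [Finset.sum_eq_single s] at h3
    · simpa using h3
    · intro s' _ hs'
      rw [if_neg (Ne.symm hs')]
      simp
    · intro hs
      exact absurd (Finset.mem_univ s) hs
  rcases smul_eq_zero.1 h2 with h6 | h6
  · exact absurd (Int.cast_eq_zero.1 h6) hdet
  · exact h6

/-- strictly diagonally dominant systems over a group -/
theorem dd_group {F : Type*} [Field F] [CharZero F] {G : Type*} [Group G] [Fintype G]
    [DecidableEq G] {E : Type*} [AddCommGroup E] [Module F E] {ι : Type*} (S : Finset ι)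
    (t : ι → G) (c : ℕ) (hc : S.card < c) (x : G → E)
    (h : ∀ s, (c : F) • x s + ∑ i ∈ S, x (s * t i) = 0) : ∀ s, x s = 0 := by
  set M : Matrix G G ℤ := fun s s' =>
    (if s = s' then (c : ℤ) else 0) + ∑ i ∈ S, if s * t i = s' then (1 : ℤ) else 0 with hMdef
  have hpos : ∀ k j, 0 ≤ M k j := by
    intro k j
    have h1 : (0 : ℤ) ≤ if k = j then (c : ℤ) else 0 := by split_ifs <;> positivity
    have h2 : (0 : ℤ) ≤ ∑ i ∈ S, if k * t i = j then (1 : ℤ) else 0 :=
      Finset.sum_nonneg fun i _ => by split_ifs <;> norm_num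
    exact add_nonneg h1 h2
  refine DD_matrix (F := F) M x (fun k => ?_) (fun s => ?_)
  · simp only [abs_of_nonneg (hpos _ _)]
    have h1 : (c : ℤ) ≤ M k k := by
      have h2 : (0 : ℤ) ≤ ∑ i ∈ S, if k * t i = k then (1 : ℤ) else 0 :=
        Finset.sum_nonneg fun i _ => by split_ifs <;> norm_num
      simp only [hMdef, if_true]
      linarith
    have h2 : ∑ j, M k j = c + S.card := by
      simp only [hMdef, Finset.sum_add_distrib]
      rw [Finset.sum_ite_eq, if_pos (Finset.mem_univ k), Finset.sum_comm]
      simp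
    have h3 := Finset.add_sum_erase univ (fun j => M k j) (Finset.mem_univ k)
    have hc' : (S.card : ℤ) < c := by exact_mod_cast hc
    linarith
  · rw [← h s]
    simp only [hMdef, Int.cast_add, add_smul, Finset.sum_add_distrib]
    congr 1
    · rw [Finset.sum_eq_single s]
      · simp
      · intro s' _ hs'
        simp [Ne.symm hs']
      · intro hs
        exact absurd (Finset.mem_univ s) hs
    · simp only [Int.cast_sum, Finset.sum_smul]
      rw [Finset.sum_comm]
      refine Finset.sum_congr rfl fun i _ => ?_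
      rw [Finset.sum_eq_single (s * t i)]
      · simp
      · intro s' _ hs'
        simp [Ne.symm hs']
      · intro hs
        exact absurd (Finset.mem_univ _) hs

/-- main consequence; `act` is an action of the permutations of `ℕ`, `G` a submodule stable under
the permutations supported in `B` -/
theorem dd_sub {F : Type*} [Field F] [CharZero F] {E : Type*} [AddCommGroup E] [Module F E]
    (act : Equiv.Perm ℕ →* Module.End F E) (B : Finset ℕ) (hB : 2 ≤ B.card)
    (G : Submodule F E)
    (hG : ∀ σ : Equiv.Perm ℕ, (∀ b, b ∉ B → σ b = b) → ∀ g ∈ G, act σ g ∈ G) (u : E)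
    (h : ∑ e ∈ B.offDiag, (u + act (Equiv.swap e.1 e.2) u)
      + (12 * ((B.card : F) - 1)) • u ∈ G) : u ∈ G := by
  classical
  set x : Equiv.Perm {b // b ∈ B} → E ⧸ G := fun σ =>
    G.mkQ (act (Equiv.Perm.ofSubtype σ) u) with hx
  set t : ℕ × ℕ → Equiv.Perm {b // b ∈ B} := fun e =>
    if h : e.1 ∈ B ∧ e.2 ∈ B then Equiv.swap ⟨e.1, h.1⟩ ⟨e.2, h.2⟩ else 1 with ht
  have hto : ∀ e ∈ B.offDiag, Equiv.Perm.ofSubtype (t e) = Equiv.swap e.1 e.2 := by
    intro e he
    rw [Finset.mem_offDiag] at he
    simp only [ht, dif_pos (And.intro he.1 he.2.1)]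
    exact Equiv.Perm.ofSubtype_swap_eq _ _
  have hcard : B.offDiag.card = B.card * B.card - B.card := Finset.offDiag_card B
  set n := B.card with hn
  have hx0 : ∀ σ, x σ = 0 := by
    refine dd_group (F := F) B.offDiag t (B.offDiag.card + 12 * (n - 1)) (by omega) x
      fun σ => ?_
    have h1 : act (Equiv.Perm.ofSubtype σ) (∑ e ∈ B.offDiag, (u + act (Equiv.swap e.1 e.2) u)
      + (12 * ((B.card : F) - 1)) • u) ∈ G := by
      refine hG _ (fun b hb => ?_) _ h
      exact Equiv.Perm.ofSubtype_apply_of_not_mem σ hb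
    have h2 := (Submodule.Quotient.mk_eq_zero G).2 h1
    have h3 : G.mkQ (act (Equiv.Perm.ofSubtype σ) (∑ e ∈ B.offDiag,
      (u + act (Equiv.swap e.1 e.2) u) + (12 * ((B.card : F) - 1)) • u)) = 0 := h2
    rw [map_add, map_sum, map_add, map_sum, map_smul, map_smul] at h3
    have h4 : ∀ e ∈ B.offDiag, G.mkQ (act (Equiv.Perm.ofSubtype σ)
        (u + act (Equiv.swap e.1 e.2) u)) = x σ + x (σ * t e) := by
      intro e he
      rw [map_add, map_add]
      congr 1
      simp only [hx, map_mul, hto e he]
      rfl
    rw [Finset.sum_congr rfl h4, Finset.sum_add_distrib, Finset.sum_const] at h3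
    rw [← h3]
    have hn1 : ((n - 1 : ℕ) : F) = (n : F) - 1 := by
      rw [Nat.cast_sub (by omega)]
      simp
    rw [Nat.cast_add, Nat.cast_mul, hn1, add_smul, ← Nat.cast_smul_eq_nsmul F]
    push_cast
    rw [← hn]
    simp only [hx]
    abel
  have h5 := hx0 1
  simp only [hx, map_one] at h5
  exact (Submodule.Quotient.mk_eq_zero G).1 h5

end

end OctId
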