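import Pool.Agent.Work.MP_9b6dd6_al.GenW2

/-!
# One-row functions and the functional `rho`
-/

namespace OctId

open Finset

set_option linter.unusedSectionVars false
set_option linter.unusedSimpArgs false

noncomputable section

variable {F : Type*} [Field F]

@[simp] theorem rho_gm (p q : ℕ) (f : Fn F) : rho (gm p q f) = rho f := by
  rw [rho_apply, rho_apply, gm_apply, V.smul_apply, V.ip_e_right, V.e_apply, if_pos rfl, one_mul]

@[simp] theorem rho_phm (p q r : ℕ) (f : Fn F) : rho (phm p q r f) = 0 := by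
  rw [rho_apply, phm_apply, V.mul_self, V.ip_zero_left, zero_smul, V.zero_apply]

@[simp] theorem rho_ren (σ : Equiv.Perm ℕ) (f : Fn F) : rho (ren σ f) = rho f := rfl

theorem rho_cp {B : Finset ℕ} {f : Fn F} (hf : f ∈ W F B) {p : ℕ} (hp : p ∈ B) (q : ℕ) :
    rho (cp p q f) = 0 := by
  rw [rho_apply, cp_apply, V.mul_self]
  have h := (hf.1 p hp).2 (fun _ => V.e 0) 0 0
  rw [zero_smul, zero_smul] at h
  rw [h, V.zero_apply]

theorem rho_mul (f g : Fn F) (hf : ∃ c : F, f (fun _ => V.e 0) = c • V.e 0)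
    (hg : ∃ c : F, g (fun _ => V.e 0) = c • V.e 0) : (f * g) (fun _ => V.e 0) = 0 := by
  obtain ⟨c, hc⟩ := hf
  obtain ⟨d, hd⟩ := hg
  rw [Pi.mul_apply, hc, hd, smul_mul_smul_comm, V.mul_self, smul_zero]

variable [CharZero F]

theorem rho_even {B : Finset ℕ} (hB : Even B.card) {f : Fn F} (hf : f ∈ W F B) : rho f = 0 := by
  induction hn : B.card using Nat.strong_induction_on generalizing B f with
  | _ n ih =>
  rw [hn] at hB
  rcases Nat.eq_zero_or_pos n with h0 | hpos
  · rw [h0, Finset.card_eq_zero] at hn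
    subst hn
    rw [W_empty hf, map_zero]
  · have h2 : 2 ≤ n := by
      obtain ⟨k, hk⟩ := hB
      omega
    have hc := congrArg rho (casimir hf)
    simp only [map_sum, map_add, map_sub, map_smul, rho_ren, rho_gm] at hc
    have h1 : ∀ e ∈ B.offDiag, (rho f + rho f - (2 : F) • rho (ctr e.1 e.2 f) +
        rho (cp e.1 e.2 (ctx e.1 e.2 f))) = 2 * rho f := by
      intro e he
      rw [Finset.mem_offDiag] at he
      obtain ⟨he1, he2, hne⟩ := he
      have hcard : (B \ {e.1, e.2}).card = n - 2 := by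
        rw [Finset.card_sdiff_of_subset (by
          intro x hx
          rw [Finset.mem_insert, Finset.mem_singleton] at hx
          rcases hx with rfl | rfl
          · exact he1
          · exact he2), Finset.card_pair hne, hn]
      have h3 : rho (ctr e.1 e.2 f) = 0 := by
        refine ih (n - 2) (by omega) ?_ (ctr_mem hf he1 he2 hne) hcard
        rw [hcard]
        exact (Nat.even_sub h2).mpr ⟨fun _ => even_two, fun _ => hB⟩
      have h4 : rho (cp e.1 e.2 (ctx e.1 e.2 f)) = 0 :=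
        rho_cp (ctx_mem hf he1 he2 hne) (Finset.mem_erase.mpr ⟨hne, he1⟩) _
      rw [h3, h4, smul_zero]
      ring
    rw [Finset.sum_congr rfl h1, Finset.sum_const, Finset.offDiag_card, hn, nsmul_eq_mul,
      smul_eq_mul] at hc
    have h5 : ((n * n - n : ℕ) : F) = (n : F) * (n - 1) := by
      rw [Nat.cast_sub (Nat.le_mul_self n)]
      push_cast
      ring
    rw [h5] at hc
    have h6 : ((n : F) - 1) * (2 * n + 12) * rho f = 0 := by linear_combination hc
    have h7 : ((n : F) - 1) ≠ 0 := by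
      have : ((n - 1 : ℕ) : F) ≠ 0 := Nat.cast_ne_zero.mpr (by omega)
      rwa [Nat.cast_sub (by omega), Nat.cast_one] at this
    have h8 : (2 * (n : F) + 12) ≠ 0 := by
      have : ((2 * n + 12 : ℕ) : F) ≠ 0 := Nat.cast_ne_zero.mpr (by omega)
      push_cast at this
      exact this
    exact (mul_eq_zero.mp h6).resolve_left (mul_ne_zero h7 h8)

theorem oneRow_card_sdiff {B : Finset ℕ} {p q : ℕ} (hp : p ∈ B) (hq : q ∈ B) (hpq : p ≠ q) :
    (B \ {p, q}).card = B.card - 2 := by
  rw [Finset.card_sdiff_of_subset (by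
    intro x hx
    rw [Finset.mem_insert, Finset.mem_singleton] at hx
    rcases hx with rfl | rfl
    · exact hp
    · exact hq), Finset.card_pair hpq]

theorem oB_single (i : ℕ) : oB F {i} = fun y => y i := by
  unfold oB
  rw [Finset.card_singleton]
  show oo F 0 {i} = _
  unfold oo
  funext y
  rw [Finset.sum_singleton]

theorem oneRow_oo_mem (k : ℕ) : ∀ B : Finset ℕ, B.card = 2 * k + 1 → oo F k B ∈ W F B := by
  induction k with
  | zero =>
    intro B hB
    obtain ⟨i, rfl⟩ := Finset.card_eq_one.mp (by omega : B.card = 1)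
    have : oo F 0 {i} = fun y => y i := by
      unfold oo
      funext y
      rw [Finset.sum_singleton]
    rw [this]
    exact W_single i
  | succ k ih =>
    intro B hB
    unfold oo
    refine Submodule.smul_mem _ _ (Submodule.sum_mem _ fun e he => ?_)
    rw [Finset.mem_offDiag] at he
    obtain ⟨he1, he2, hne⟩ := he
    refine gm_mem (ih _ ?_) he1 he2 hne
    rw [oneRow_card_sdiff he1 he2 hne]
    omega

theorem oB_mem {B : Finset ℕ} (hB : Odd B.card) : oB F B ∈ W F B := by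
  obtain ⟨k, hk⟩ := hB
  unfold oB
  rw [hk]
  have : (2 * k + 1 - 1) / 2 = k := by omega
  rw [this]
  exact oneRow_oo_mem k B hk

theorem oneRow_rho_oo (k : ℕ) : ∀ B : Finset ℕ, B.card = 2 * k + 1 → rho (oo F k B) = 1 := by
  induction k with
  | zero =>
    intro B hB
    obtain ⟨i, rfl⟩ := Finset.card_eq_one.mp (by omega : B.card = 1)
    have : oo F 0 {i} = fun y => y i := by
      unfold oo
      funext y
      rw [Finset.sum_singleton]
    rw [this, rho_apply]
    show (V.e 0 : V F) 0 = 1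
    rw [V.e_apply, if_pos rfl]
  | succ k ih =>
    intro B hB
    unfold oo
    rw [map_smul, map_sum]
    have h1 : ∀ e ∈ B.offDiag, rho (gm e.1 e.2 (oo F k (B \ {e.1, e.2}))) = 1 := by
      intro e he
      rw [Finset.mem_offDiag] at he
      obtain ⟨he1, he2, hne⟩ := he
      rw [rho_gm, ih]
      rw [oneRow_card_sdiff he1 he2 hne]
      omega
    rw [Finset.sum_congr rfl h1, Finset.sum_const, nsmul_eq_mul, mul_one, smul_eq_mul,
      inv_mul_cancel₀]
    rw [Nat.cast_ne_zero, Finset.offDiag_card, hB]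
    have : (2 * (k + 1) + 1) * 1 < (2 * (k + 1) + 1) * (2 * (k + 1) + 1) :=
      Nat.mul_lt_mul_of_pos_left (by omega) (by omega)
    omega

theorem rho_oB {B : Finset ℕ} (hB : Odd B.card) : rho (oB F B) = 1 := by
  obtain ⟨k, hk⟩ := hB
  unfold oB
  rw [hk]
  have : (2 * k + 1 - 1) / 2 = k := by omega
  rw [this]
  exact oneRow_rho_oo k B hk

theorem oneRow_ren_gm (σ : Equiv.Perm ℕ) (p q : ℕ) (f : Fn F) :
    ren σ (gm p q f) = gm (σ p) (σ q) (ren σ f) := rfl

theorem oneRow_ren_oo (σ : Equiv.Perm ℕ) (k : ℕ) :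
    ∀ B : Finset ℕ, ren σ (oo F k B) = oo F k (B.map σ.toEmbedding) := by
  induction k with
  | zero =>
    intro B
    unfold oo
    funext y
    rw [ren_apply, Finset.sum_map]
    rfl
  | succ k ih =>
    intro B
    unfold oo
    rw [map_smul, map_sum]
    have hc : (B.map σ.toEmbedding).offDiag.card = B.offDiag.card := by
      rw [Finset.offDiag_card, Finset.offDiag_card, Finset.card_map]
    rw [hc]
    congr 1
    refine Finset.sum_bij (fun e _ => (σ e.1, σ e.2)) ?_ ?_ ?_ ?_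
    · intro e he
      rw [Finset.mem_offDiag] at he ⊢
      exact ⟨Finset.mem_map_of_mem _ he.1, Finset.mem_map_of_mem _ he.2.1,
        fun h => he.2.2 (σ.injective h)⟩
    · intro a _ b _ hab
      rw [Prod.mk.injEq] at hab
      exact Prod.ext (σ.injective hab.1) (σ.injective hab.2)
    · intro b hb
      rw [Finset.mem_offDiag] at hb
      obtain ⟨h1, h2, h3⟩ := hb
      obtain ⟨a1, ha1, e1⟩ := Finset.mem_map.mp h1
      obtain ⟨a2, ha2, e2⟩ := Finset.mem_map.mp h2
      refine ⟨(a1, a2), ?_, Prod.ext e1 e2⟩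
      rw [Finset.mem_offDiag]
      refine ⟨ha1, ha2, fun h => h3 ?_⟩
      simp only at h
      rw [← e1, ← e2, h]
    · intro e _
      rw [oneRow_ren_gm, ih, Finset.map_sdiff, Finset.map_insert, Finset.map_singleton]
      rfl

theorem ren_oB (B : Finset ℕ) (σ : Equiv.Perm ℕ) :
    ren σ (oB F B) = oB F (B.map σ.toEmbedding) := by
  unfold oB
  rw [oneRow_ren_oo, Finset.card_map]

theorem oB_three {p q r : ℕ} (hpq : p ≠ q) (hpr : p ≠ r) (hqr : q ≠ r) :
    oB F {p, q, r} = fun y => (1 / 3 : F) • (V.ip (y q) (y r) • y p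
      + V.ip (y p) (y r) • y q + V.ip (y p) (y q) • y r) := by
  have hcard : ({p, q, r} : Finset ℕ).card = 3 := Finset.card_eq_three.mpr
    ⟨p, q, r, hpq, hpr, hqr, rfl⟩
  unfold oB
  rw [hcard]
  show oo F 1 {p, q, r} = _
  have hoff : ({p, q, r} : Finset ℕ).offDiag =
      {(p, q), (p, r), (q, p), (q, r), (r, p), (r, q)} := by
    ext ⟨a, b⟩
    simp only [Finset.mem_offDiag, Finset.mem_insert, Finset.mem_singleton, Prod.mk.injEq]
    constructor
    · rintro ⟨h1 | h1 | h1, h2 | h2 | h2, h3⟩ <;> subst h1 <;> subst h2 <;> simp_all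
    · rintro (⟨h1, h2⟩ | ⟨h1, h2⟩ | ⟨h1, h2⟩ | ⟨h1, h2⟩ | ⟨h1, h2⟩ | ⟨h1, h2⟩) <;>
        subst h1 <;> subst h2 <;> simp_all [Ne.symm]
  have hoo : ∀ i : ℕ, oo F 0 {i} = fun y => y i := by
    intro i
    unfold oo
    funext y
    rw [Finset.sum_singleton]
  unfold oo
  rw [hoff]
  have s1 : ({p, q, r} : Finset ℕ) \ {p, q} = {r} := by
    ext a; simp only [Finset.mem_sdiff, Finset.mem_insert, Finset.mem_singleton]
    constructor
    · rintro ⟨h1, h2⟩; tauto
    · rintro rfl; exact ⟨Or.inr (Or.inr rfl), fun h => h.elim (fun h => hpr h.symm) (fun h => hqr h.symm)⟩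
  have s2 : ({p, q, r} : Finset ℕ) \ {p, r} = {q} := by
    ext a; simp only [Finset.mem_sdiff, Finset.mem_insert, Finset.mem_singleton]
    constructor
    · rintro ⟨h1, h2⟩; tauto
    · rintro rfl; exact ⟨Or.inr (Or.inl rfl), fun h => h.elim (fun h => hpq h.symm) (fun h => hqr h)⟩
  have s3 : ({p, q, r} : Finset ℕ) \ {q, r} = {p} := by
    ext a; simp only [Finset.mem_sdiff, Finset.mem_insert, Finset.mem_singleton]
    constructor
    · rintro ⟨h1, h2⟩; tauto
    · rintro rfl; exact ⟨Or.inl rfl, fun h => h.elim (fun h => hpq h) (fun h => hpr h)⟩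
  have s1' : ({p, q, r} : Finset ℕ) \ {q, p} = {r} := by rw [Finset.pair_comm q p, s1]
  have s2' : ({p, q, r} : Finset ℕ) \ {r, p} = {q} := by rw [Finset.pair_comm r p, s2]
  have s3' : ({p, q, r} : Finset ℕ) \ {r, q} = {p} := by rw [Finset.pair_comm r q, s3]
  have n1 : (p, q) ∉ ({(p, r), (q, p), (q, r), (r, p), (r, q)} : Finset (ℕ × ℕ)) := by
    simp [hpq, hpr, hqr, hpq.symm, hpr.symm, hqr.symm]
  have n2 : (p, r) ∉ ({(q, p), (q, r), (r, p), (r, q)} : Finset (ℕ × ℕ)) := by
    simp [hpq, hpr, hqr, hpq.symm, hpr.symm, hqr.symm]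
  have n3 : (q, p) ∉ ({(q, r), (r, p), (r, q)} : Finset (ℕ × ℕ)) := by
    simp [hpq, hpr, hqr, hpq.symm, hpr.symm, hqr.symm]
  have n4 : (q, r) ∉ ({(r, p), (r, q)} : Finset (ℕ × ℕ)) := by
    simp [hpq, hpr, hqr, hpq.symm, hpr.symm, hqr.symm]
  have n5 : (r, p) ∉ ({(r, q)} : Finset (ℕ × ℕ)) := by
    simp [hpq, hpr, hqr, hpq.symm, hpr.symm, hqr.symm]
  rw [Finset.sum_insert n1, Finset.sum_insert n2, Finset.sum_insert n3, Finset.sum_insert n4,
    Finset.sum_insert n5, Finset.sum_singleton, Finset.card_insert_of_notMem n1,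
    Finset.card_insert_of_notMem n2, Finset.card_insert_of_notMem n3,
    Finset.card_insert_of_notMem n4, Finset.card_insert_of_notMem n5, Finset.card_singleton]
  simp only [s1, s2, s3, s1', s2', s3', hoo]
  funext y
  simp only [Pi.smul_apply, Pi.add_apply, gm_apply]
  rw [V.ip_comm (y q) (y p), V.ip_comm (y r) (y p), V.ip_comm (y r) (y q)]
  have h6 : ((1 + 1 + 1 + 1 + 1 + 1 : ℕ) : F) = 6 := by norm_num
  rw [h6]
  have h3 : (1 / 3 : F) = (6 : F)⁻¹ * 2 := by norm_num
  rw [h3]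
  module

/-- span of `g S` and `phi S` -/
def GS (F : Type*) [Field F] (B : Finset ℕ) : Submodule F (Fn F) :=
  Submodule.span F ({f | ∃ p q h, p ∈ B ∧ q ∈ B ∧ p ≠ q ∧ h ∈ W F (B \ {p, q}) ∧ rho h = 0 ∧
      f = gm p q h} ∪
    {f | ∃ p q r h, p ∈ B ∧ q ∈ B ∧ r ∈ B ∧ p ≠ q ∧ p ≠ r ∧ q ≠ r ∧ h ∈ W F (B \ {p, q, r}) ∧
      rho h = 0 ∧ f = phm p q r h})

theorem oneRow_gm_GS {B : Finset ℕ} {p q : ℕ} {h : Fn F} (hp : p ∈ B) (hq : q ∈ B) (hpq : p ≠ q)
    (hh : h ∈ W F (B \ {p, q})) (h0 : rho h = 0) : gm p q h ∈ GS F B :=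
  Submodule.subset_span (Or.inl ⟨p, q, h, hp, hq, hpq, hh, h0, rfl⟩)

theorem oneRow_phm_GS {B : Finset ℕ} {p q r : ℕ} {h : Fn F} (hp : p ∈ B) (hq : q ∈ B)
    (hr : r ∈ B) (hpq : p ≠ q) (hpr : p ≠ r) (hqr : q ≠ r)
    (hh : h ∈ W F (B \ {p, q, r})) (h0 : rho h = 0) : phm p q r h ∈ GS F B :=
  Submodule.subset_span (Or.inr ⟨p, q, r, h, hp, hq, hr, hpq, hpr, hqr, hh, h0, rfl⟩)

theorem oneRow_gm_comm (p q a b : ℕ) (h : Fn F) : gm p q (gm a b h) = gm a b (gm p q h) := by
  funext y
  simp only [gm_apply, smul_smul]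
  rw [mul_comm]

theorem oneRow_phm_gm (p q r a b : ℕ) (h : Fn F) :
    phm p q r (gm a b h) = gm a b (phm p q r h) := by
  funext y
  simp only [gm_apply, phm_apply, smul_smul]
  rw [mul_comm]

theorem oneRow_card_sdiff3 {B : Finset ℕ} {p q r : ℕ} (hp : p ∈ B) (hq : q ∈ B) (hr : r ∈ B)
    (hpq : p ≠ q) (hpr : p ≠ r) (hqr : q ≠ r) : (B \ {p, q, r}).card = B.card - 3 := by
  rw [Finset.card_sdiff_of_subset (by
    intro x hx
    rw [Finset.mem_insert, Finset.mem_insert, Finset.mem_singleton] at hx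
    rcases hx with rfl | rfl | rfl
    · exact hp
    · exact hq
    · exact hr), Finset.card_eq_three.mpr ⟨p, q, r, hpq, hpr, hqr, rfl⟩]

/-- disjoint pairs -/
theorem oneRow_disj {B : Finset ℕ} (hB : 5 ≤ B.card) (hodd : Odd B.card) {p q a b : ℕ}
    (hp : p ∈ B) (hq : q ∈ B) (hpq : p ≠ q) (ha : a ∈ B \ {p, q}) (hb : b ∈ B \ {p, q})
    (hab : a ≠ b) :
    gm p q (oB F (B \ {p, q})) - gm a b (oB F (B \ {a, b})) ∈ GS F B := by
  have ha' := Finset.mem_sdiff.mp ha
  have hb' := Finset.mem_sdiff.mp hb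
  have hpa : p ≠ a := fun h => ha'.2 (by simp [h])
  have hqa : q ≠ a := fun h => ha'.2 (by simp [h])
  have hpb : p ≠ b := fun h => hb'.2 (by simp [h])
  have hqb : q ≠ b := fun h => hb'.2 (by simp [h])
  have hp' : p ∈ B \ {a, b} := by simp [hp, hpa, hpb]
  have hq' : q ∈ B \ {a, b} := by simp [hq, hqa, hqb]
  have hset : (B \ {p, q}) \ {a, b} = (B \ {a, b}) \ {p, q} := by
    ext x; simp only [Finset.mem_sdiff]; tauto
  have hc1 : (B \ {p, q}).card = B.card - 2 := oneRow_card_sdiff hp hq hpq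
  have hc2 : (B \ {a, b}).card = B.card - 2 := oneRow_card_sdiff ha'.1 hb'.1 hab
  have hc3 : ((B \ {p, q}) \ {a, b}).card = B.card - 4 := by
    rw [oneRow_card_sdiff ha hb hab, hc1]
    omega
  have ho1 : Odd (B \ {p, q}).card := by rw [hc1]; obtain ⟨k, hk⟩ := hodd; exact ⟨k - 1, by omega⟩
  have ho2 : Odd (B \ {a, b}).card := by rw [hc2]; obtain ⟨k, hk⟩ := hodd; exact ⟨k - 1, by omega⟩
  have ho3 : Odd ((B \ {p, q}) \ {a, b}).card := by
    rw [hc3]; obtain ⟨k, hk⟩ := hodd; exact ⟨k - 2, by omega⟩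
  set o'' := oB F ((B \ {p, q}) \ {a, b}) with ho''
  have hm'' : o'' ∈ W F ((B \ {p, q}) \ {a, b}) := oB_mem ho3
  have e1 : gm p q (oB F (B \ {p, q})) - gm a b (oB F (B \ {a, b})) =
      gm p q (oB F (B \ {p, q}) - gm a b o'') - gm a b (oB F (B \ {a, b}) - gm p q o'') := by
    rw [map_sub, map_sub, oneRow_gm_comm a b p q]
    abel
  rw [e1]
  refine Submodule.sub_mem _ (oneRow_gm_GS hp hq hpq ?_ ?_) (oneRow_gm_GS ha'.1 hb'.1 hab ?_ ?_)
  · exact Submodule.sub_mem _ (oB_mem ho1) (gm_mem hm'' ha hb hab)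
  · rw [map_sub, rho_gm, rho_oB ho1, rho_oB ho3, sub_self]
  · exact Submodule.sub_mem _ (oB_mem ho2) (gm_mem (by rw [← hset]; exact hm'') hp' hq' hpq)
  · rw [map_sub, rho_gm, rho_oB ho2, rho_oB ho3, sub_self]

/-- arbitrary pairs -/
theorem oneRow_any {B : Finset ℕ} (hB : 5 ≤ B.card) (hodd : Odd B.card) {p q a b : ℕ}
    (hp : p ∈ B) (hq : q ∈ B) (hpq : p ≠ q) (ha : a ∈ B) (hb : b ∈ B) (hab : a ≠ b) :
    gm p q (oB F (B \ {p, q})) - gm a b (oB F (B \ {a, b})) ∈ GS F B := by
  by_cases hd : a ∈ B \ {p, q} ∧ b ∈ B \ {p, q}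
  · exact oneRow_disj hB hodd hp hq hpq hd.1 hd.2 hab
  · have hcu : 2 ≤ (B \ ({p, q} ∪ {a, b})).card := by
      have h1 : ({p, q} ∪ {a, b} : Finset ℕ).card ≤ 3 := by
        have h2 := Finset.card_union_add_card_inter ({p, q} : Finset ℕ) {a, b}
        rw [Finset.card_pair hpq, Finset.card_pair hab] at h2
        have h3 : 0 < (({p, q} : Finset ℕ) ∩ {a, b}).card := by
          rw [Finset.card_pos]
          rw [not_and_or] at hd
          rcases hd with h | h
          · refine ⟨a, Finset.mem_inter.mpr ⟨?_, by simp⟩⟩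
            by_contra h4
            exact h (Finset.mem_sdiff.mpr ⟨ha, h4⟩)
          · refine ⟨b, Finset.mem_inter.mpr ⟨?_, by simp⟩⟩
            by_contra h4
            exact h (Finset.mem_sdiff.mpr ⟨hb, h4⟩)
        omega
      have h5 := Finset.le_card_sdiff ({p, q} ∪ {a, b}) B
      omega
    obtain ⟨c, hc, d, hd', hcd⟩ := Finset.one_lt_card.mp hcu
    simp only [Finset.mem_sdiff, Finset.mem_union, not_or] at hc hd'
    have h1 : gm p q (oB F (B \ {p, q})) - gm c d (oB F (B \ {c, d})) ∈ GS F B :=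
      oneRow_disj hB hodd hp hq hpq (Finset.mem_sdiff.mpr ⟨hc.1, hc.2.1⟩)
        (Finset.mem_sdiff.mpr ⟨hd'.1, hd'.2.1⟩) hcd
    have h2 : gm a b (oB F (B \ {a, b})) - gm c d (oB F (B \ {c, d})) ∈ GS F B :=
      oneRow_disj hB hodd ha hb hab (Finset.mem_sdiff.mpr ⟨hc.1, hc.2.2⟩)
        (Finset.mem_sdiff.mpr ⟨hd'.1, hd'.2.2⟩) hcd
    have h3 := Submodule.sub_mem _ h1 h2
    have e : gm p q (oB F (B \ {p, q})) - gm c d (oB F (B \ {c, d})) -
        (gm a b (oB F (B \ {a, b})) - gm c d (oB F (B \ {c, d}))) =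
        gm p q (oB F (B \ {p, q})) - gm a b (oB F (B \ {a, b})) := by abel
    rwa [e] at h3

theorem genS {B : Finset ℕ} (hB : 5 ≤ B.card) {f : Fn F} (hf : f ∈ W F B) (h0 : rho f = 0) :
    f ∈ GS F B := by
  have hG : f ∈ GW F B := genW (by omega) hf
  rcases Nat.even_or_odd B.card with hev | hodd
  · -- even case
    have hle : GW F B ≤ GS F B := by
      unfold GW
      rw [Submodule.span_le]
      rintro g (⟨p, q, h, hp, hq, hpq, hh, rfl⟩ | ⟨p, q, r, h, hp, hq, hr, hpq, hpr, hqr, hh, rfl⟩)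
      · refine oneRow_gm_GS hp hq hpq hh (rho_even ?_ hh)
        rw [oneRow_card_sdiff hp hq hpq]
        exact (Nat.even_sub (by omega)).mpr ⟨fun _ => even_two, fun _ => hev⟩
      · have hc : (B \ {p, q, r}).card = B.card - 3 := oneRow_card_sdiff3 hp hq hr hpq hpr hqr
        have ho : Odd (B \ {p, q, r}).card := by
          rw [hc]; obtain ⟨k, hk⟩ := hev; exact ⟨k - 2, by omega⟩
        obtain ⟨a, ha, b, hb, hab⟩ := Finset.one_lt_card.mp
          (show 1 < (B \ {p, q, r}).card by rw [hc]; omega)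
        have ho' : Odd ((B \ {p, q, r}) \ {a, b}).card := by
          rw [oneRow_card_sdiff ha hb hab, hc]
          obtain ⟨k, hk⟩ := hev
          exact ⟨k - 3, by omega⟩
        have ha' := Finset.mem_sdiff.mp ha
        have hb' := Finset.mem_sdiff.mp hb
        set o := oB F (B \ {p, q, r}) with hodef
        set o' := oB F ((B \ {p, q, r}) \ {a, b}) with ho'def
        have hom : o ∈ W F (B \ {p, q, r}) := oB_mem ho
        have hom' : o' ∈ W F ((B \ {p, q, r}) \ {a, b}) := oB_mem ho'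
        have e1 : phm p q r h = phm p q r (h - rho h • o) + rho h • (phm p q r (o - gm a b o') +
            gm a b (phm p q r o')) := by
          rw [map_sub, map_sub, map_smul, oneRow_phm_gm]
          module
        rw [SetLike.mem_coe, e1]
        have m1 : ∀ x : ℕ, x ∈ ({p, q, r} : Finset ℕ) ↔ x = p ∨ x = q ∨ x = r := by
          intro x; simp
        have hset : (B \ {a, b}) \ {p, q, r} = (B \ {p, q, r}) \ {a, b} := by
          ext x; simp only [Finset.mem_sdiff]; tauto
        have hpab : p ∈ B \ {a, b} := by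
          rw [Finset.mem_sdiff, Finset.mem_insert, Finset.mem_singleton]
          refine ⟨hp, ?_⟩
          rintro (h | h)
          · exact ha'.2 ((m1 a).mpr (Or.inl h.symm))
          · exact hb'.2 ((m1 b).mpr (Or.inl h.symm))
        have hqab : q ∈ B \ {a, b} := by
          rw [Finset.mem_sdiff, Finset.mem_insert, Finset.mem_singleton]
          refine ⟨hq, ?_⟩
          rintro (h | h)
          · exact ha'.2 ((m1 a).mpr (Or.inr (Or.inl h.symm)))
          · exact hb'.2 ((m1 b).mpr (Or.inr (Or.inl h.symm)))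
        have hrab : r ∈ B \ {a, b} := by
          rw [Finset.mem_sdiff, Finset.mem_insert, Finset.mem_singleton]
          refine ⟨hr, ?_⟩
          rintro (h | h)
          · exact ha'.2 ((m1 a).mpr (Or.inr (Or.inr h.symm)))
          · exact hb'.2 ((m1 b).mpr (Or.inr (Or.inr h.symm)))
        refine Submodule.add_mem _ (oneRow_phm_GS hp hq hr hpq hpr hqr ?_ ?_)
          (Submodule.smul_mem _ _ (Submodule.add_mem _ (oneRow_phm_GS hp hq hr hpq hpr hqr ?_ ?_)
            (oneRow_gm_GS ha'.1 hb'.1 hab ?_ ?_)))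
        · exact Submodule.sub_mem _ hh (Submodule.smul_mem _ _ hom)
        · rw [map_sub, map_smul, rho_oB ho, smul_eq_mul, mul_one, sub_self]
        · exact Submodule.sub_mem _ hom (gm_mem hom' ha hb hab)
        · rw [map_sub, rho_gm, rho_oB ho, rho_oB ho', sub_self]
        · exact phm_mem (by rw [hset]; exact hom') hpab hqab hrab hpq hpr hqr
        · exact rho_phm _ _ _ _
    exact hle hG
  · -- odd case
    obtain ⟨a, ha, b, hb, hab⟩ := Finset.one_lt_card.mp (show 1 < B.card by omega)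
    set w0 : Fn F := gm a b (oB F (B \ {a, b})) with hw0
    set T : Fn F →ₗ[F] Fn F := LinearMap.id - rho.smulRight w0 with hT
    have hTa : ∀ g : Fn F, T g = g - rho g • w0 := fun g => rfl
    have hle : GW F B ≤ (GS F B).comap T := by
      unfold GW
      rw [Submodule.span_le]
      rintro g (⟨p, q, h, hp, hq, hpq, hh, rfl⟩ | ⟨p, q, r, h, hp, hq, hr, hpq, hpr, hqr, hh, rfl⟩)
      · have ho : Odd (B \ {p, q}).card := by
          rw [oneRow_card_sdiff hp hq hpq]
          obtain ⟨k, hk⟩ := hodd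
          exact ⟨k - 1, by omega⟩
        have e1 : T (gm p q h) =
            gm p q (h - rho h • oB F (B \ {p, q})) +
              rho h • (gm p q (oB F (B \ {p, q})) - w0) := by
          rw [hTa, rho_gm, map_sub, map_smul]
          module
        rw [SetLike.mem_coe, Submodule.mem_comap, e1]
        refine Submodule.add_mem _ (oneRow_gm_GS hp hq hpq ?_ ?_)
          (Submodule.smul_mem _ _ (oneRow_any hB hodd hp hq hpq ha hb hab))
        · exact Submodule.sub_mem _ hh (Submodule.smul_mem _ _ (oB_mem ho))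
        · rw [map_sub, map_smul, rho_oB ho, smul_eq_mul, mul_one, sub_self]
      · rw [SetLike.mem_coe, Submodule.mem_comap, hTa, rho_phm, zero_smul, sub_zero]
        refine oneRow_phm_GS hp hq hr hpq hpr hqr hh (rho_even ?_ hh)
        rw [oneRow_card_sdiff3 hp hq hr hpq hpr hqr]
        obtain ⟨k, hk⟩ := hodd
        exact ⟨k - 1, by omega⟩
    have h1 := hle hG
    rw [Submodule.mem_comap, hTa, h0, zero_smul, sub_zero] at h1
    exact h1

end

end OctId
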