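import Pool.Agent.Work.MP_9b6dd6_al.VDer
import Pool.Agent.Work.MP_9b6dd6_al.Basic

/-!
# The Malcev basis holds in the imaginary octonions
-/

namespace OctId

open Finset

set_option linter.unusedSectionVars false
set_option linter.unusedSimpArgs false

noncomputable section

variable {F : Type*} [Field F] [CharZero F]

theorem VId_Oo (a b c d : V F) : Oo a b c d = V.ip a c • (b * d) + V.ip b c • (a * d)
    - V.ip a d • (b * c) - V.ip b d • (a * c) - (4 * V.ip a b) • (c * d) := by
  simp only [Oo, V.Dd_eq, add_mul, sub_mul, smul_mul_assoc]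
  rw [V.mul_anti d c]
  module

theorem EE_V (a b c d : V F) : EE F a b c d = V.ip a b • (c * d) := by
  simp only [EE, VId_Oo]
  rw [V.ip_comm b a, V.ip_comm c a, V.ip_comm c b, V.ip_comm d a, V.ip_comm d b, V.ip_comm d c,
    V.mul_anti b a, V.mul_anti c a, V.mul_anti c b, V.mul_anti d a, V.mul_anti d b,
    V.mul_anti d c]
  module

theorem e4_V (a b c s : V F) : e4 F a b c s = V.ip (a * b) c • s := by
  simp only [e4, EE_V, V.Dd_eq]
  rw [V.ip_comm s c, V.ip_comm s (a * b), V.ip_comm c (a * b)]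
  module

theorem Dh_V (a b c : V F) : Dh F a b c = V.ip a c • b - V.ip b c • a := by
  have h1 := V.mul_mul a c b
  have h2 := V.mul_mul b c a
  have e1 : c * b = -(b * c) := V.mul_anti c b
  have e2 : b * a = -(a * b) := V.mul_anti b a
  rw [e1, V.ip_comm c b] at h1
  rw [e2, V.ip_comm b a, V.ip_comm c a] at h2
  simp only [Dh]
  simp only [mul_neg] at h1 h2
  linear_combination (norm := module) (1 / 3 : F) • h2 - (1 / 3 : F) • h1

/-- the four-letter tree is a combination of forms times trees -/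
theorem VId_swap (a b c d : V F) : a * (b * (c * d)) + b * (a * (c * d)) =
    V.ip a (c * d) • b + V.ip b (c * d) • a - (2 * V.ip a b) • (c * d) :=
  V.mul_mul a b (c * d)

theorem VId_in (a b c d : V F) : a * (b * (c * d)) + a * (c * (b * d)) =
    V.ip b d • (a * c) + V.ip c d • (a * b) - (2 * V.ip b c) • (a * d) := by
  have h := congrArg (fun v => a * v) (V.mul_mul b c d)
  simp only [mul_add, mul_sub, mul_smul_comm] at h
  exact h

theorem VId_two (a b c d : V F) : (a * b) * (c * d) = c * (d * (a * b)) +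
    V.ip (a * b) d • c + V.ip c d • (a * b) - (2 * V.ip (a * b) c) • d := by
  have h := V.mul_mul (a * b) c d
  have e : (a * b) * d = -(d * (a * b)) := V.mul_anti _ _
  rw [e, mul_neg] at h
  linear_combination (norm := module) h

theorem VId_tri1 (a b c : V F) : V.ip a (b * c) = V.ip (a * b) c := (V.tri_move a b c).symm

theorem VId_tri2 (a b c : V F) : V.ip b (a * c) = -V.ip (a * b) c := by
  rw [← V.tri_move, V.tri_swap]

theorem VId_tri3 (a b c : V F) : V.ip c (a * b) = V.ip (a * b) c := V.ip_comm _ _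

theorem VId_tri4 (a b c : V F) : V.ip (a * c) b = -V.ip (a * b) c := by
  rw [V.ip_comm, VId_tri2]

theorem VId_tri5 (a b c : V F) : V.ip (b * c) a = V.ip (a * b) c := by
  rw [V.ip_comm, VId_tri1]

theorem sagle_V (a b c d : V F) : sagle a b c d = 0 := by
  have hba : b * a = -(a * b) := V.mul_anti _ _
  have hca : c * a = -(a * c) := V.mul_anti _ _
  have hda : d * a = -(a * d) := V.mul_anti _ _
  have hcb : c * b = -(b * c) := V.mul_anti _ _
  have hdb : d * b = -(b * d) := V.mul_anti _ _
  have hdc : d * c = -(c * d) := V.mul_anti _ _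
  have s1 := VId_swap b a c d
  have s2 := VId_swap d a c b
  have s3 := VId_swap c a b d
  have i1 := VId_in b d a c
  have i2 := VId_in a c b d
  have i3 := VId_in a d c b
  have i4 := VId_in d c a b
  have i5 := VId_in a d b c
  have i6 := VId_in c b a d
  have t1 := VId_two a c b d
  have t2 := VId_two b d a c
  have hh : (b * d) * (a * c) = -((a * c) * (b * d)) := V.mul_anti _ _
  have e1 : ((a * b) * c) * d = d * (c * (a * b)) := by
    rw [V.mul_anti _ d, V.mul_anti _ c, mul_neg, neg_neg]
  have e2 : ((b * c) * d) * a = a * (d * (b * c)) := by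
    rw [V.mul_anti _ a, V.mul_anti _ d, mul_neg, neg_neg]
  have e3 : ((c * d) * a) * b = b * (a * (c * d)) := by
    rw [V.mul_anti _ b, V.mul_anti _ a, mul_neg, neg_neg]
  have e4 : ((d * a) * b) * c = -(c * (b * (a * d))) := by
    rw [V.mul_anti _ c, V.mul_anti _ b, mul_neg, neg_neg, hda, mul_neg, mul_neg]
  simp only [hba, hca, hda, hcb, hdb, hdc, mul_neg, V.ip_neg_right, V.ip_neg_left, smul_neg]
    at s1 s2 s3 i1 i2 i3 i4 i5 i6 t1 t2
  simp only [V.ip_comm b a, V.ip_comm c a, V.ip_comm c b, V.ip_comm d a, V.ip_comm d b,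
    V.ip_comm d c] at s1 s2 s3 i1 i2 i3 i4 i5 i6 t1 t2
  simp only [VId_tri1 a b c, VId_tri1 a b d, VId_tri1 a c d, VId_tri1 b c d,
    VId_tri2 a b c, VId_tri2 a b d, VId_tri2 a c d, VId_tri2 b c d,
    VId_tri3 a b c, VId_tri3 a b d, VId_tri3 a c d, VId_tri3 b c d,
    VId_tri4 a b c, VId_tri4 a b d, VId_tri4 a c d, VId_tri4 b c d,
    VId_tri5 a b c, VId_tri5 a b d, VId_tri5 a c d, VId_tri5 b c d] at s1 s2 s3 t1 t2
  rw [hh] at t2
  simp only [sagle, e1, e2, e3, e4]
  linear_combination (norm := module) t1 + s1 + i1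
    - (i2 + i3 - s2 + i4) - i5 - s1 - (-i2 + s3 - i6)
    - (1 / 2 : F) • (s1 + i1 + i2 + t1 + t2)

theorem malAlg_V : MalAlg F (V F) where
  anti := V.mul_anti
  sagle := sagle_V
  b2 a b c d e := by rw [EE_V, EE_V, smul_mul_assoc]

/-- an algebra satisfies the Malcev basis iff the three polynomials are identities -/
theorem MalAlg.isIdentity {R : Type*} [NonUnitalNonAssocRing R] [Module F R]
    [IsScalarTower F R R] [SMulCommClass F R R] (hR : MalAlg F R) :
    ∀ f ∈ malB F, IsIdentity R f := by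
  intro f hf φ
  simp only [malB, Set.mem_insert_iff, Set.mem_singleton_iff] at hf
  rcases hf with rfl | rfl | rfl
  · rw [map_add, map_mul, map_mul, evalAt_X, evalAt_X, hR.anti (φ 0) (φ 1), neg_add_cancel]
  · have h := hR.sagle (φ 0) (φ 1) (φ 2) (φ 3)
    simpa only [OctId.sagle, map_sub, map_mul, evalAt_X] using h
  · have h := hR.b2 (φ 0) (φ 1) (φ 2) (φ 3) (φ 4)
    rw [← sub_eq_zero] at h
    simpa only [EE, Oo, Dd, map_sub, map_mul, map_add, map_smul, evalAt_X] using h

end

end OctId
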