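import Pool.Agent.Work.MP_9b6dd6_al.OperA
import Pool.Agent.Work.MP_9b6dd6_al.OneRow
import Pool.Agent.Work.MP_9b6dd6_al.VId

/-!
# Evaluation of the relatively free algebra on imaginary octonions
-/

namespace OctId

open Finset

set_option linter.unusedSectionVars false

noncomputable section

variable {F : Type*} [Field F] [CharZero F]

/-- evaluation at a tuple -/
def evA (y : ℕ → V F) : Mal F →ₙₐ[F] V F := RF.lift (malAlg_V (F := F)).isIdentity y

/-- evaluation as a function of the tuple -/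
def ev : Mal F →ₗ[F] Fn F where
  toFun u := fun y => evA y u
  map_add' a b := by funext y; exact map_add (evA y) a b
  map_smul' c a := by funext y; exact map_smul (evA y) c a

theorem ev_apply (u : Mal F) (y : ℕ → V F) : ev u y = evA y u := rfl

theorem ev_gen (i : ℕ) (y : ℕ → V F) : ev (xg i) y = y i := by
  rw [ev_apply]
  exact RF.lift_gen _ _ _

theorem ev_mul (a b : Mal F) (y : ℕ → V F) : ev (a * b) y = ev a y * ev b y := by
  simp only [ev_apply]
  exact map_mul (evA y) a b

theorem ev_sub (u : ℕ → Mal F) (a : Mal F) (y : ℕ → V F) :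
    ev (RF.sub u a) y = ev a (fun i => ev (u i) y) := by
  have h : (evA y).comp (RF.sub u) = evA (fun i => ev (u i) y) := by
    apply RF.hom_ext
    intro i
    change evA y (RF.sub u (RF.gen (malB F) i)) = evA (fun i => ev (u i) y) (RF.gen (malB F) i)
    rw [RF.sub_gen]
    exact (ev_gen i (fun i => ev (u i) y)).symm
  exact DFunLike.congr_fun h a

theorem ev_put (t : ℕ) (b a : Mal F) (y : ℕ → V F) :
    ev (put t b a) y = ev a (Function.update y t (ev b y)) := by
  rw [ev_sub]
  refine congrArg (ev a) (funext fun i => ?_)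
  rcases eq_or_ne i t with rfl | h
  · rw [Function.update_self, Function.update_self]
  · rw [Function.update_of_ne h, Function.update_of_ne h, ev_gen]

theorem ev_EE (a b c d : Mal F) (y : ℕ → V F) :
    ev (EE F a b c d) y = V.ip (ev a y) (ev b y) • (ev c y * ev d y) := by
  simp only [ev_apply]
  rw [oper_map_EE, EE_V]

theorem Ev_map_e4 (g : Mal F →ₙₐ[F] V F) (a b c s : Mal F) :
    g (e4 F a b c s) = e4 F (g a) (g b) (g c) (g s) := by
  simp only [e4, oper_map_EE, oper_map_Dd, map_sub, map_smul, map_add, map_mul]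

theorem Ev_map_Dh (g : Mal F →ₙₐ[F] V F) (a b c : Mal F) :
    g (Dh F a b c) = Dh F (g a) (g b) (g c) := by
  simp only [Dh, map_sub, map_smul, map_add, map_mul]

theorem ev_e4 (a b c s : Mal F) (y : ℕ → V F) :
    ev (e4 F a b c s) y = V.ip (ev a y * ev b y) (ev c y) • ev s y := by
  simp only [ev_apply]
  rw [Ev_map_e4, e4_V]

theorem ev_Dh (a b c : Mal F) (y : ℕ → V F) :
    ev (Dh F a b c) y = V.ip (ev a y) (ev c y) • ev b y - V.ip (ev b y) (ev c y) • ev a y := by
  simp only [ev_apply]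
  rw [Ev_map_Dh, Dh_V]

theorem ev_G (a b : Mal F) {h : Mal F} (hh : h ∈ M2 F) (y : ℕ → V F) :
    ev (G a b h) y = V.ip (ev a y) (ev b y) • ev h y := by
  refine Submodule.span_induction (p := fun h _ => ev (G a b h) y =
    V.ip (ev a y) (ev b y) • ev h y) ?_ ?_ ?_ ?_ hh
  · rintro _ ⟨c, d, rfl⟩
    rw [G_mul, ev_EE, ev_mul]
  · rw [map_zero, map_zero, Pi.zero_apply, smul_zero]
  · intro u v _ _ hu hv
    rw [map_add, map_add, map_add, Pi.add_apply, Pi.add_apply, hu, hv, smul_add]
  · intro c u _ hu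
    rw [map_smul, map_smul, map_smul, Pi.smul_apply, Pi.smul_apply, hu, smul_comm]

theorem ev_G_gen (p q : ℕ) {h : Mal F} (hh : h ∈ M2 F) :
    ev (G (xg p) (xg q) h) = gm p q (ev h) := by
  funext y
  rw [ev_G _ _ hh, gm_apply, ev_gen, ev_gen]

theorem ev_Ph_gen (p q r : ℕ) {h : Mal F} (hh : h ∈ M2 F) :
    ev (Ph (xg p) (xg q) (xg r) h) = phm p q r (ev h) := by
  funext y
  rw [ev_G _ _ hh, phm_apply, ev_mul, ev_gen, ev_gen, ev_gen]

theorem ev_rn (σ : Equiv.Perm ℕ) (a : Mal F) : ev (rn σ a) = ren σ (ev a) := by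
  funext y
  rw [ev_sub, ren_apply]
  exact congrArg (ev a) (funext fun i => ev_gen (σ i) y)

/-- insertion of a cherry -/
abbrev cher (p q : ℕ) : Mal F →ₙₐ[F] Mal F := put p (xg p * xg q)

theorem ev_cher (p q : ℕ) (a : Mal F) : ev (cher p q a) = cp p q (ev a) := by
  funext y
  rw [ev_put, cp_apply, ev_mul, ev_gen, ev_gen]

theorem Ev_word_mem {B : Finset ℕ} {w : FreeMagma ℕ} (hw : MW B w) :
    ev (wv xg w : Mal F) ∈ W F B := by
  induction hw with
  | of i =>
    have h : ev (wv xg (FreeMagma.of i) : Mal F) = fun y : ℕ → V F => y i := by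
      funext y
      exact ev_gen i y
    rw [h]
    exact W_single i
  | @mul C D u v hu hv hd ihu ihv =>
    have h : ev (wv xg (u * v) : Mal F) = ev (wv xg u) * ev (wv xg v) := by
      funext y
      rw [wv_mul]
      exact ev_mul _ _ y
    rw [h]
    exact W_mul ihu ihv hd

theorem ev_mem_W {B : Finset ℕ} {u : Mal F} (hu : u ∈ ML F xg B) : ev u ∈ W F B := by
  refine ML_induction (p := fun u => ev u ∈ W F B) ?_ ?_ ?_ ?_ hu
  · intro w hw
    exact Ev_word_mem hw
  · rw [map_zero]
    exact Submodule.zero_mem _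
  · intro a b ha hb
    rw [map_add]
    exact Submodule.add_mem _ ha hb
  · intro c a ha
    rw [map_smul]
    exact Submodule.smul_mem _ c ha

theorem Ev_word_const {B : Finset ℕ} {w : FreeMagma ℕ} (hw : MW B w) :
    ∃ c : F, ev (wv xg w : Mal F) (fun _ => V.e 0) = c • V.e 0 := by
  induction hw with
  | of i => exact ⟨1, by rw [one_smul]; exact ev_gen i _⟩
  | @mul C D u v hu hv hd ihu ihv =>
    obtain ⟨c, hc⟩ := ihu
    obtain ⟨d, hd⟩ := ihv
    refine ⟨0, ?_⟩
    rw [wv_mul, ev_mul, hc, hd, smul_mul_smul_comm, V.mul_self, smul_zero, zero_smul]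

theorem Ev_word_rho {B : Finset ℕ} {w : FreeMagma ℕ} (hw : MW B w) (h2 : 2 ≤ B.card) :
    rho (ev (wv xg w : Mal F)) = 0 := by
  cases hw with
  | of i => simp at h2
  | @mul C D u v hu hv hd =>
    obtain ⟨c, hc⟩ := Ev_word_const (F := F) hu
    obtain ⟨d, hd⟩ := Ev_word_const (F := F) hv
    rw [rho_apply, wv_mul, ev_mul, hc, hd, smul_mul_smul_comm, V.mul_self, smul_zero,
      V.zero_apply]

theorem rho_ev {B : Finset ℕ} {u : Mal F} (hu : u ∈ ML F xg B) (h2 : 2 ≤ B.card) :
    rho (ev u) = 0 := by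
  refine ML_induction (p := fun u => rho (ev u) = 0) ?_ ?_ ?_ ?_ hu
  · intro w hw
    exact Ev_word_rho hw h2
  · rw [map_zero, map_zero]
  · intro a b ha hb
    rw [map_add, map_add, ha, hb, add_zero]
  · intro c a ha
    rw [map_smul, map_smul, ha, smul_zero]

end

end OctId
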