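import Pool.Agent.Work.MP_9b6dd6_al.EvenB

/-!
# The relations in even degree: the core data
-/

namespace OctId

open Finset

set_option linter.unusedSectionVars false

noncomputable section

variable {F : Type*} [Field F] [CharZero F]

/-- the one-row part of a function with an odd number of letters -/
theorem Even_split {C : Finset ℕ} (ho : Odd C.card) {x : Fn F} (hx : x ∈ W F C) :
    x - rho x • oB F C ∈ W F C ∧ rho (x - rho x • oB F C) = 0 := by
  refine ⟨Submodule.sub_mem _ hx (Submodule.smul_mem _ _ (oB_mem ho)), ?_⟩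
  rw [map_sub, map_smul, rho_oB ho, smul_eq_mul, mul_one, sub_self]

theorem Even_one {C : Finset ℕ} (hc : C.card = 1) {x : Fn F} (hx : x ∈ W F C)
    (h0 : rho x = 0) : x = 0 := by
  obtain ⟨i, rfl⟩ := Finset.card_eq_one.1 hc
  obtain ⟨c, rfl⟩ := W_one hx
  have h1 : c = 0 := by
    have h2 : (c • V.e (0 : Fin 7) : V F) 0 = 0 := h0
    rwa [V.smul_apply, V.e_apply, if_pos rfl, mul_one] at h2
  funext y
  rw [h1, zero_smul]
  rfl

section

variable {B : Finset ℕ} (hB : 6 ≤ B.card) (he : Even B.card) (hI : IH F B.card)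
include hB he hI

theorem Even_B1 {a b p q : ℕ} (ha : a ∈ B) (hb : b ∈ B) (hp : p ∈ B) (hq : q ∈ B)
    (hd : [a, b, p, q].Nodup) {x : Fn F} (hx : x ∈ W F (B \ {a, b, p, q})) :
    rho x = 0 ∧ G (xg p) (xg q) (mu (B \ {p, q}) (gm a b x)) =
      G (xg a) (xg b) (mu (B \ {a, b}) (gm p q x)) := by
  simp only [List.nodup_cons, List.mem_cons, List.not_mem_nil, or_false, not_or,
    List.nodup_nil, not_false_eq_true, and_true] at hd
  obtain ⟨⟨nab, nap, naq⟩, ⟨nbp, nbq⟩, npq⟩ := hd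
  have e1 : (B \ {p, q}) \ {a, b} = B \ {a, b, p, q} := by
    ext i
    simp only [Finset.mem_sdiff, Finset.mem_insert, Finset.mem_singleton]
    tauto
  have e2 : (B \ {a, b}) \ {p, q} = B \ {a, b, p, q} := by
    ext i
    simp only [Finset.mem_sdiff, Finset.mem_insert, Finset.mem_singleton]
    tauto
  have ma : a ∈ B \ {p, q} := EvenB_mem_sdiff ha nap naq
  have mb : b ∈ B \ {p, q} := EvenB_mem_sdiff hb nbp nbq
  have mp : p ∈ B \ {a, b} := EvenB_mem_sdiff hp (Ne.symm nap) (Ne.symm nbp)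
  have mq : q ∈ B \ {a, b} := EvenB_mem_sdiff hq (Ne.symm naq) (Ne.symm nbq)
  have c1 : (B \ {p, q}).card = B.card - 2 := oneRow_card_sdiff hp hq npq
  have c2 : (B \ {a, b}).card = B.card - 2 := oneRow_card_sdiff ha hb nab
  have c3 : (B \ {a, b, p, q}).card = B.card - 4 := by
    rw [← e1, oneRow_card_sdiff ma mb nab]
    omega
  have h0 : rho x = 0 := by
    refine rho_even ?_ hx
    rw [c3]
    obtain ⟨k, hk⟩ := he
    exact ⟨k - 2, by omega⟩
  have i1 : Inj F (B \ {a, b, p, q}) := hI _ (by omega)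
  refine ⟨h0, ?_⟩
  have hm : mu (B \ {a, b, p, q}) x ∈ ML F xg (B \ {a, b, p, q}) := mu_mem i1 (by omega) hx h0
  rw [mu_gm (hI _ (by omega)) (by rw [e1]; exact i1) ma mb nab (by omega) (by rw [e1]; exact hx)
    h0, mu_gm (hI _ (by omega)) (by rw [e2]; exact i1) mp mq npq (by omega)
    (by rw [e2]; exact hx) h0, e1, e2]
  exact G_comm _ _ _ _ (ML_le_M2 (by omega) hm)

theorem Even_B2 {a b c p q : ℕ} (ha : a ∈ B) (hb : b ∈ B) (hc : c ∈ B) (hp : p ∈ B) (hq : q ∈ B)
    (hd : [a, b, c, p, q].Nodup) {E : Mal F}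
    (hE : G (xg p) (xg q) (mu (B \ {p, q}) (phm a b c (oB F (B \ {a, b, c, p, q}))))
        - Ph (xg a) (xg b) (xg c) (sB (F := F) (B \ {a, b, c}) p q) = E)
    {x : Fn F} (hx : x ∈ W F (B \ {a, b, c, p, q})) :
    G (xg p) (xg q) (mu (B \ {p, q}) (phm a b c x)) =
      Ph (xg a) (xg b) (xg c) (mu (B \ {a, b, c}) (gm p q x - rho x • oB F (B \ {a, b, c})))
        + rho x • E := by
  simp only [List.nodup_cons, List.mem_cons, List.not_mem_nil, or_false, not_or,
    List.nodup_nil, not_false_eq_true, and_true] at hd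
  obtain ⟨⟨nab, nac, nap, naq⟩, ⟨nbc, nbp, nbq⟩, ⟨ncp, ncq⟩, npq⟩ := hd
  have e1 : (B \ {p, q}) \ {a, b, c} = B \ {a, b, c, p, q} := by
    ext i
    simp only [Finset.mem_sdiff, Finset.mem_insert, Finset.mem_singleton]
    tauto
  have e2 : (B \ {a, b, c}) \ {p, q} = B \ {a, b, c, p, q} := by
    ext i
    simp only [Finset.mem_sdiff, Finset.mem_insert, Finset.mem_singleton]
    tauto
  have ma : a ∈ B \ {p, q} := EvenB_mem_sdiff ha nap naq
  have mb : b ∈ B \ {p, q} := EvenB_mem_sdiff hb nbp nbq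
  have mc : c ∈ B \ {p, q} := EvenB_mem_sdiff hc ncp ncq
  have mp : p ∈ B \ {a, b, c} := by
    simp only [Finset.mem_sdiff, Finset.mem_insert, Finset.mem_singleton, not_or]
    exact ⟨hp, Ne.symm nap, Ne.symm nbp, Ne.symm ncp⟩
  have mq : q ∈ B \ {a, b, c} := by
    simp only [Finset.mem_sdiff, Finset.mem_insert, Finset.mem_singleton, not_or]
    exact ⟨hq, Ne.symm naq, Ne.symm nbq, Ne.symm ncq⟩
  have c1 : (B \ {p, q}).card = B.card - 2 := oneRow_card_sdiff hp hq npq
  have c2 : (B \ {a, b, c}).card = B.card - 3 := oneRow_card_sdiff3 ha hb hc nab nac nbc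
  have c3 : (B \ {a, b, c, p, q}).card = B.card - 5 := by
    rw [← e2, oneRow_card_sdiff mp mq npq]
    omega
  have ho : Odd (B \ {a, b, c, p, q}).card := by
    rw [c3]
    obtain ⟨k, hk⟩ := he
    exact ⟨k - 3, by omega⟩
  obtain ⟨hx0, h0⟩ := Even_split ho hx
  have i1 : Inj F (B \ {a, b, c, p, q}) := hI _ (by omega)
  -- the part with `rho = 0`
  have key : ∀ z : Fn F, z ∈ W F (B \ {a, b, c, p, q}) → rho z = 0 →
      G (xg p) (xg q) (mu (B \ {p, q}) (phm a b c z)) =
        Ph (xg a) (xg b) (xg c) (mu (B \ {a, b, c}) (gm p q z)) := by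
    intro z hz hz0
    by_cases h6 : B.card = 6
    · have hz1 : z = 0 := Even_one (by omega) hz hz0
      rw [hz1]
      simp only [map_zero]
    · have h8 : 8 ≤ B.card := by
        obtain ⟨k, hk⟩ := he
        omega
      have hm : mu (B \ {a, b, c, p, q}) z ∈ ML F xg (B \ {a, b, c, p, q}) :=
        mu_mem i1 (by omega) hz hz0
      rw [mu_phm (hI _ (by omega)) (by rw [e1]; exact i1) ma mb mc nab nac nbc (by omega)
        (by rw [e1]; exact hz) hz0, mu_gm (hI _ (by omega)) (by rw [e2]; exact i1) mp mq npq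
        (by omega) (by rw [e2]; exact hz) hz0, e1, e2]
      exact G_comm _ _ _ _ (ML_le_M2 (by omega) hm)
  have h1 := key _ hx0 h0
  have h2 : sB (F := F) (B \ {a, b, c}) p q =
      mu (B \ {a, b, c}) (gm p q (oB F (B \ {a, b, c, p, q}))) -
        mu (B \ {a, b, c}) (oB F (B \ {a, b, c})) := by
    unfold sB
    rw [map_sub, e2]
  rw [h2] at hE
  rw [← hE]
  simp only [map_sub, map_smul] at h1 ⊢
  rw [sub_eq_iff_eq_add] at h1
  rw [h1]
  module

theorem Even_B3 {a b p q : ℕ} (ha : a ∈ B) (hb : b ∈ B) (hp : p ∈ B) (hq : q ∈ B)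
    (hd : [a, b, p, q].Nodup) {E : Mal F}
    (hE : G (xg a) (xg b) (mu (B \ {a, b}) (cp p q (oB F (B \ {q, a, b}))))
        - cher p q (sB (F := F) (B.erase q) a b) = E)
    {x : Fn F} (hx : x ∈ W F (B \ {a, b, q})) :
    cher p q (mu (B.erase q) (gm a b x - rho x • oB F (B.erase q))) + rho x • E =
      G (xg a) (xg b) (mu (B \ {a, b}) (cp p q x)) := by
  simp only [List.nodup_cons, List.mem_cons, List.not_mem_nil, or_false, not_or,
    List.nodup_nil, not_false_eq_true, and_true] at hd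
  obtain ⟨⟨nab, nap, naq⟩, ⟨nbp, nbq⟩, npq⟩ := hd
  have e1 : (B.erase q) \ {a, b} = B \ {a, b, q} := by
    ext i
    simp only [Finset.mem_sdiff, Finset.mem_erase, Finset.mem_insert, Finset.mem_singleton]
    tauto
  have e2 : (B \ {a, b}).erase q = B \ {a, b, q} := by
    ext i
    simp only [Finset.mem_sdiff, Finset.mem_erase, Finset.mem_insert, Finset.mem_singleton]
    tauto
  have e3 : B \ {q, a, b} = B \ {a, b, q} := by
    ext i
    simp only [Finset.mem_sdiff, Finset.mem_insert, Finset.mem_singleton]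
    tauto
  have ma : a ∈ B.erase q := Finset.mem_erase.2 ⟨naq, ha⟩
  have mb : b ∈ B.erase q := Finset.mem_erase.2 ⟨nbq, hb⟩
  have mp : p ∈ B \ {a, b} := EvenB_mem_sdiff hp (Ne.symm nap) (Ne.symm nbp)
  have mq : q ∈ B \ {a, b} := EvenB_mem_sdiff hq (Ne.symm naq) (Ne.symm nbq)
  have c1 : (B.erase q).card = B.card - 1 := Finset.card_erase_of_mem hq
  have c2 : (B \ {a, b}).card = B.card - 2 := oneRow_card_sdiff ha hb nab
  have c3 : (B \ {a, b, q}).card = B.card - 3 := by
    rw [← e1, oneRow_card_sdiff ma mb nab]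
    omega
  have ho : Odd (B \ {a, b, q}).card := by
    rw [c3]
    obtain ⟨k, hk⟩ := he
    exact ⟨k - 2, by omega⟩
  obtain ⟨hx0, h0⟩ := Even_split ho hx
  have i1 : Inj F (B \ {a, b, q}) := hI _ (by omega)
  have h1 : cher p q (mu (B.erase q) (gm a b (x - rho x • oB F (B \ {a, b, q})))) =
      G (xg a) (xg b) (mu (B \ {a, b}) (cp p q (x - rho x • oB F (B \ {a, b, q})))) := by
    have hm : mu (B \ {a, b, q}) (x - rho x • oB F (B \ {a, b, q})) ∈ ML F xg (B \ {a, b, q}) :=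
      mu_mem i1 (by omega) hx0 h0
    rw [mu_gm (hI _ (by omega)) (by rw [e1]; exact i1) ma mb nab (by omega)
      (by rw [e1]; exact hx0) h0, mu_cp (hI _ (by omega)) (by rw [e2]; exact i1) mp mq npq
      (by omega) (by rw [e2]; exact hx0) h0, e1, e2]
    exact cher_G (Ne.symm nap) (Ne.symm nbp) (ML_le_M2 (by omega) hm)
  have h2 : sB (F := F) (B.erase q) a b =
      mu (B.erase q) (gm a b (oB F (B \ {a, b, q}))) - mu (B.erase q) (oB F (B.erase q)) := by
    unfold sB
    rw [map_sub, e1]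
  rw [h2, e3] at hE
  rw [← hE]
  simp only [map_sub, map_smul] at h1 ⊢
  rw [sub_eq_iff_eq_add] at h1
  rw [h1]
  module

theorem Even_B4 {a b c p q : ℕ} (ha : a ∈ B) (hb : b ∈ B) (hc : c ∈ B) (hp : p ∈ B) (hq : q ∈ B)
    (hd : [a, b, c, p, q].Nodup) {x : Fn F} (hx : x ∈ W F (B \ {a, b, c, q})) :
    cher p q (mu (B.erase q) (phm a b c x)) =
      Ph (xg a) (xg b) (xg c) (mu (B \ {a, b, c}) (cp p q x)) := by
  simp only [List.nodup_cons, List.mem_cons, List.not_mem_nil, or_false, not_or,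
    List.nodup_nil, not_false_eq_true, and_true] at hd
  obtain ⟨⟨nab, nac, nap, naq⟩, ⟨nbc, nbp, nbq⟩, ⟨ncp, ncq⟩, npq⟩ := hd
  have e1 : (B.erase q) \ {a, b, c} = B \ {a, b, c, q} := by
    ext i
    simp only [Finset.mem_sdiff, Finset.mem_erase, Finset.mem_insert, Finset.mem_singleton]
    tauto
  have e2 : (B \ {a, b, c}).erase q = B \ {a, b, c, q} := by
    ext i
    simp only [Finset.mem_sdiff, Finset.mem_erase, Finset.mem_insert, Finset.mem_singleton]
    tauto
  have ma : a ∈ B.erase q := Finset.mem_erase.2 ⟨naq, ha⟩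
  have mb : b ∈ B.erase q := Finset.mem_erase.2 ⟨nbq, hb⟩
  have mc : c ∈ B.erase q := Finset.mem_erase.2 ⟨ncq, hc⟩
  have mp : p ∈ B \ {a, b, c} := by
    simp only [Finset.mem_sdiff, Finset.mem_insert, Finset.mem_singleton, not_or]
    exact ⟨hp, Ne.symm nap, Ne.symm nbp, Ne.symm ncp⟩
  have mq : q ∈ B \ {a, b, c} := by
    simp only [Finset.mem_sdiff, Finset.mem_insert, Finset.mem_singleton, not_or]
    exact ⟨hq, Ne.symm naq, Ne.symm nbq, Ne.symm ncq⟩
  have c1 : (B.erase q).card = B.card - 1 := Finset.card_erase_of_mem hq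
  have c2 : (B \ {a, b, c}).card = B.card - 3 := oneRow_card_sdiff3 ha hb hc nab nac nbc
  have c3 : (B \ {a, b, c, q}).card = B.card - 4 := by
    rw [← e1, oneRow_card_sdiff3 ma mb mc nab nac nbc]
    omega
  have h0 : rho x = 0 := by
    refine rho_even ?_ hx
    rw [c3]
    obtain ⟨k, hk⟩ := he
    exact ⟨k - 2, by omega⟩
  have i1 : Inj F (B \ {a, b, c, q}) := hI _ (by omega)
  have hm : mu (B \ {a, b, c, q}) x ∈ ML F xg (B \ {a, b, c, q}) := mu_mem i1 (by omega) hx h0
  rw [mu_phm (hI _ (by omega)) (by rw [e1]; exact i1) ma mb mc nab nac nbc (by omega)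
    (by rw [e1]; exact hx) h0, mu_cp (hI _ (by omega)) (by rw [e2]; exact i1) mp mq npq
    (by omega) (by rw [e2]; exact hx) h0, e1, e2]
  exact cher_Ph (Ne.symm nap) (Ne.symm nbp) (Ne.symm ncp) (ML_le_M2 (by omega) hm)

/-- the core data in even degree -/
theorem coreData_even : Nonempty (CoreData F B) := by
  classical
  -- choices
  have hex : ∀ a b c : ℕ, ∃ E : Mal F, a ∈ B → b ∈ B → c ∈ B → [a, b, c].Nodup →
      ∀ x ∈ B, ∀ y ∈ B, [a, b, c, x, y].Nodup →
      G (xg x) (xg y) (mu (B \ {x, y}) (phm a b c (oB F (B \ {a, b, c, x, y}))))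
        - Ph (xg a) (xg b) (xg c) (sB (F := F) (B \ {a, b, c}) x y) = E := by
    intro a b c
    by_cases h : a ∈ B ∧ b ∈ B ∧ c ∈ B ∧ [a, b, c].Nodup
    · obtain ⟨h1, h2, h3, h4⟩ := h
      obtain ⟨E, hE⟩ := exists_eps hB he hI h1 h2 h3 h4
      exact ⟨E, fun _ _ _ _ => hE⟩
    · exact ⟨0, fun h1 h2 h3 h4 => absurd ⟨h1, h2, h3, h4⟩ h⟩
  have hgx : ∀ p q : ℕ, ∃ E : Mal F, p ∈ B → q ∈ B → p ≠ q →
      ∀ x ∈ B, ∀ y ∈ B, [p, q, x, y].Nodup →
      G (xg x) (xg y) (mu (B \ {x, y}) (cp p q (oB F (B \ {q, x, y}))))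
        - cher p q (sB (F := F) (B.erase q) x y) = E := by
    intro p q
    by_cases h : p ∈ B ∧ q ∈ B ∧ p ≠ q
    · obtain ⟨h1, h2, h3⟩ := h
      obtain ⟨E, hE⟩ := exists_gam hB he hI h1 h2 h3
      exact ⟨E, fun _ _ _ => hE⟩
    · exact ⟨0, fun h1 h2 h3 => absurd ⟨h1, h2, h3⟩ h⟩
  choose ee hee using hex
  choose gam hgam using hgx
  refine ⟨{
    hG := fun p q => (G (xg p) (xg q)).comp (mu (B \ {p, q}))
    hC := fun p q => (homL (cher p q)).comp ((mu (B.erase q)).comp
      (LinearMap.id - (rho (F := F)).smulRight (oB F (B.erase q)))) +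
        (rho (F := F)).smulRight (gam p q)
    dd := fun _ _ => 0
    ee := ee
    A1 := fun p _ q _ _ x _ _ => rfl
    A2 := ?_
    B1 := ?_
    B2 := ?_
    B3 := ?_
    B4 := ?_ }⟩
  · intro p hp q hq hpq x hx h0
    simp only [LinearMap.add_apply, LinearMap.comp_apply, LinearMap.sub_apply,
      LinearMap.smulRight_apply, LinearMap.id_apply, homL_apply, h0, zero_smul, sub_zero,
      add_zero]
  · intro a ha b hb p hp q hq hd x hx
    obtain ⟨h0, h1⟩ := Even_B1 hB he hI ha hb hp hq hd hx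
    simp only [LinearMap.comp_apply, h0, zero_smul, sub_zero, add_zero]
    exact h1
  · intro a ha b hb c hc p hp q hq hd x hx
    have hd3 : [a, b, c].Nodup := by
      simp only [List.nodup_cons, List.mem_cons, List.not_mem_nil, or_false, not_or,
        List.nodup_nil, not_false_eq_true, and_true] at hd ⊢
      exact ⟨⟨hd.1.1, hd.1.2.1⟩, hd.2.1.1⟩
    exact Even_B2 hB he hI ha hb hc hp hq hd (hee a b c ha hb hc hd3 p hp q hq hd) hx
  · intro a ha b hb p hp q hq hd x hx
    simp only [LinearMap.add_apply, LinearMap.comp_apply, LinearMap.sub_apply,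
      LinearMap.smulRight_apply, LinearMap.id_apply, homL_apply, rho_gm]
    have hd' := hd
    simp only [List.nodup_cons, List.mem_cons, List.not_mem_nil, or_false, not_or,
      List.nodup_nil, not_false_eq_true, and_true] at hd'
    obtain ⟨⟨nab, nap, naq⟩, ⟨nbp, nbq⟩, npq⟩ := hd'
    have hd4 : [p, q, a, b].Nodup := by
      simp only [List.nodup_cons, List.mem_cons, List.not_mem_nil, or_false, not_or,
        List.nodup_nil, not_false_eq_true, and_true]
      exact ⟨⟨npq, Ne.symm nap, Ne.symm nbp⟩, ⟨Ne.symm naq, Ne.symm nbq⟩, nab⟩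
    exact Even_B3 hB he hI ha hb hp hq hd (hgam p q hp hq npq a ha b hb hd4) hx
  · intro a ha b hb c hc p hp q hq hd x hx
    simp only [LinearMap.add_apply, LinearMap.comp_apply, LinearMap.sub_apply,
      LinearMap.smulRight_apply, LinearMap.id_apply, homL_apply, rho_phm, zero_smul, sub_zero,
      add_zero]
    exact Even_B4 hB he hI ha hb hc hp hq hd hx

end

end

end OctId
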