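import Pool.Agent.Work.MP_9b6dd6_al.CoreDefs

/-!
# The relations in even degree: `eps`
-/

namespace OctId

open Finset

set_option linter.unusedSectionVars false

noncomputable section

variable {F : Type*} [Field F] [CharZero F]

/-- words are linear in every letter -/
theorem EvenA_lin_word {B : Finset ℕ} {w : FreeMagma ℕ} (hw : MW B w) (z : ℕ) (hz : z ∈ B) :
    ∃ L : Mal F →ₗ[F] Mal F, ∀ u, put z u (wv xg w) = L u := by
  induction hw with
  | of i =>
    refine ⟨LinearMap.id, fun u => ?_⟩
    have : i = z := (Finset.mem_singleton.1 hz).symm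
    subst this
    rw [map_wv, wv_of, RF.sub_gen, Function.update_self]
    rfl
  | @mul A B a b ha hb hd iha ihb =>
    rcases Finset.mem_union.1 hz with h | h
    · obtain ⟨L, hL⟩ := iha h
      refine ⟨(LinearMap.mulRight F (wv xg b)).comp L, fun u => ?_⟩
      have hzB : z ∉ B := Finset.disjoint_left.1 hd h
      have e : put z u (wv xg b) = wv xg b := by
        rw [map_wv]
        refine wv_congr hb fun i hi => ?_
        rw [RF.sub_gen, Function.update_of_ne]
        rintro rfl
        exact hzB hi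
      rw [wv_mul, map_mul, hL u, e]
      rfl
    · obtain ⟨L, hL⟩ := ihb h
      refine ⟨(LinearMap.mulLeft F (wv xg a)).comp L, fun u => ?_⟩
      have hzA : z ∉ A := Finset.disjoint_right.1 hd h
      have e : put z u (wv xg a) = wv xg a := by
        rw [map_wv]
        refine wv_congr ha fun i hi => ?_
        rw [RF.sub_gen, Function.update_of_ne]
        rintro rfl
        exact hzA hi
      rw [wv_mul, map_mul, hL u, e]
      rfl

/-- elements of `ML` are linear in every letter -/
theorem EvenA_lin {B : Finset ℕ} {K : Mal F} (hK : K ∈ ML F xg B) (z : ℕ) (hz : z ∈ B) :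
    ∃ L : Mal F →ₗ[F] Mal F, ∀ u, put z u K = L u := by
  refine ML_induction (p := fun K => ∃ L : Mal F →ₗ[F] Mal F, ∀ u, put z u K = L u)
    ?_ ?_ ?_ ?_ hK
  · intro w hw
    exact EvenA_lin_word hw z hz
  · exact ⟨0, fun u => by rw [map_zero]; rfl⟩
  · rintro a b ⟨L, hL⟩ ⟨M, hM⟩
    exact ⟨L + M, fun u => by rw [map_add, hL, hM]; rfl⟩
  · rintro c a ⟨L, hL⟩
    exact ⟨c • L, fun u => by rw [map_smul, hL]; rfl⟩

/-- composition of substitutions -/
theorem EvenA_put_put {D : Finset ℕ} {K : Mal F} {z p : ℕ} (hzD : z ∉ D) (hpD : p ∉ D)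
    (hK : K ∈ ML F xg (insert z D)) (v w : Mal F) :
    put p w (put z v K) = put z (put p w v) K := by
  rw [RF.sub_sub]
  refine sub_congr hK fun i hi => ?_
  rcases Finset.mem_insert.1 hi with rfl | h
  · rw [Function.update_self, Function.update_self]
  · have h1 : i ≠ z := fun h' => hzD (h' ▸ h)
    have h2 : i ≠ p := fun h' => hpD (h' ▸ h)
    rw [Function.update_of_ne h1, Function.update_of_ne h1, RF.sub_gen,
      Function.update_of_ne h2]

theorem EvenA_put_self {K : Mal F} (z : ℕ) : put z (xg z) K = K := by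
  have : Function.update (xg (F := F)) z (xg z) = RF.gen (malB F) := by
    funext i
    by_cases h : i = z
    · subst h; rw [Function.update_self]
    · rw [Function.update_of_ne h]
  change RF.sub (Function.update (xg (F := F)) z (xg z)) K = K
  rw [this, RF.sub_id]

/-- renaming of one letter -/
theorem EvenA_put_mem {D : Finset ℕ} {K : Mal F} {z p : ℕ} (hzD : z ∉ D) (hpD : p ∉ D)
    (hK : K ∈ ML F xg (insert z D)) : put z (xg p) K ∈ ML F xg (insert p D) := by
  have h1 := rn_mem_ML hK (Equiv.swap z p)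
  have e1 : (insert z D).map (Equiv.swap z p).toEmbedding = insert p D := by
    rw [Finset.map_insert]
    congr 1
    · simp
    · ext i
      rw [Finset.mem_map]
      constructor
      · rintro ⟨j, hj, rfl⟩
        have h1 : j ≠ z := fun h' => hzD (h' ▸ hj)
        have h2 : j ≠ p := fun h' => hpD (h' ▸ hj)
        rw [Equiv.coe_toEmbedding, Equiv.swap_apply_of_ne_of_ne h1 h2]
        exact hj
      · intro hi
        have h1 : i ≠ z := fun h' => hzD (h' ▸ hi)
        have h2 : i ≠ p := fun h' => hpD (h' ▸ hi)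
        exact ⟨i, hi, by rw [Equiv.coe_toEmbedding, Equiv.swap_apply_of_ne_of_ne h1 h2]⟩
  rw [e1] at h1
  have e2 : put z (xg p) K = rn (Equiv.swap z p) K := by
    refine sub_congr hK fun i hi => ?_
    rcases Finset.mem_insert.1 hi with rfl | h
    · rw [Function.update_self, Equiv.swap_apply_left]
    · have h1 : i ≠ z := fun h' => hzD (h' ▸ h)
      have h2 : i ≠ p := fun h' => hpD (h' ▸ h)
      rw [Function.update_of_ne h1, Equiv.swap_apply_of_ne_of_ne h1 h2]
  rw [e2]
  exact h1

/-- cherry in the place of a letter -/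
theorem EvenA_put_cherry_mem {D : Finset ℕ} {K : Mal F} {z p q : ℕ} (hzD : z ∉ D) (hpD : p ∉ D)
    (hqD : q ∉ D) (hpq : p ≠ q) (hK : K ∈ ML F xg (insert z D)) :
    put z (xg p * xg q) K ∈ ML F xg (insert p (insert q D)) := by
  have h1 := EvenA_put_mem hzD hpD hK
  have e1 : (insert p (insert q D)).erase q = insert p D := by
    ext i
    simp only [mem_erase, mem_insert]
    constructor
    · rintro ⟨h1, h2 | h2 | h2⟩
      · exact Or.inl h2
      · exact absurd h2 h1
      · exact Or.inr h2
    · rintro (h2 | h2)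
      · exact ⟨h2 ▸ hpq, Or.inl h2⟩
      · exact ⟨fun h' => hqD (h' ▸ h2), Or.inr (Or.inr h2)⟩
  have h2 := put_cherry_mem_ML (B := insert p (insert q D)) (p := p) (q := q) (by simp) (by simp)
    hpq (h := put z (xg p) K) (by rw [e1]; exact h1)
  have e2 : put p (xg p * xg q) (put z (xg p) K) = put z (xg p * xg q) K := by
    rw [EvenA_put_put hzD hpD hK, RF.sub_gen, Function.update_self]
  rw [e2] at h2
  exact h2

/-- substitution in functions -/
def EvenA_fs (z : ℕ) (g k : Fn F) : Fn F := fun y => k (Function.update y z (g y))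

theorem EvenA_fs_pq_mem {D : Finset ℕ} {k : Fn F} {z p q : ℕ} (hzD : z ∉ D) (hpD : p ∉ D)
    (hqD : q ∉ D) (hpq : p ≠ q) (hk : k ∈ W F (insert z D)) :
    EvenA_fs z (fun y => y p * y q) k ∈ W F (insert p (insert q D)) := by
  have hg : (fun y : ℕ → V F => y p * y q) ∈ W F ({p} ∪ {q}) :=
    W_mul (W_single p) (W_single q) (Finset.disjoint_singleton.mpr hpq)
  have e0 : (insert z D).erase z = D := Finset.erase_insert hzD
  have h := W_subst (t := z) hk (Finset.mem_insert_self z D) hg (by
    rw [e0, Finset.disjoint_left]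
    intro i hi hi'
    rcases Finset.mem_union.1 hi' with h | h
    · exact hpD (Finset.mem_singleton.1 h ▸ hi)
    · exact hqD (Finset.mem_singleton.1 h ▸ hi))
  have e1 : (insert z D).erase z ∪ ({p} ∪ {q}) = insert p (insert q D) := by
    rw [e0]
    ext i
    simp only [mem_union, mem_singleton, mem_insert]
    tauto
  rw [e1] at h
  exact h

theorem EvenA_fs_pq_rho {D : Finset ℕ} {k : Fn F} {z p q : ℕ} (hk : k ∈ W F (insert z D)) :
    rho (EvenA_fs z (fun y => y p * y q) k) = 0 := by
  rw [rho_apply]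
  change k (Function.update (fun _ => V.e 0) z (V.e 0 * V.e 0)) 0 = 0
  rw [V.mul_self]
  have h := (hk.1 z (Finset.mem_insert_self z D)).2 (fun _ => V.e 0) 0 0
  rw [zero_smul, zero_smul] at h
  rw [h, V.zero_apply]

theorem EvenA_Inj_eq {B : Finset ℕ} (h : Inj F B) {u v : Mal F} (hu : u ∈ ML F xg B)
    (hv : v ∈ ML F xg B) (he : ev u = ev v) : u = v := by
  have h1 := h (u - v) (Submodule.sub_mem _ hu hv) (by rw [map_sub, he, sub_self])
  exact sub_eq_zero.1 h1

theorem EvenA_card3 {D : Finset ℕ} {a b c : ℕ} (ha : a ∈ D) (hb : b ∈ D) (hc : c ∈ D)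
    (hab : a ≠ b) (hac : a ≠ c) (hbc : b ≠ c) : 3 ≤ D.card := by
  have h1 : ({a, b, c} : Finset ℕ) ⊆ D := by
    intro i hi
    simp only [mem_insert, mem_singleton] at hi
    rcases hi with rfl | rfl | rfl <;> assumption
  have h2 : ({a, b, c} : Finset ℕ).card = 3 := by
    rw [Finset.card_eq_three]
    exact ⟨a, b, c, hab, hac, hbc, rfl⟩
  rw [← h2]
  exact Finset.card_le_card h1

/-- the key identity, first step -/
theorem EvenA_key1 {D : Finset ℕ} {a b c z p q : ℕ} (ha : a ∈ D) (hb : b ∈ D) (hc : c ∈ D)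
    (hab : a ≠ b) (hac : a ≠ c) (hbc : b ≠ c) (hzD : z ∉ D) (hpD : p ∉ D) (hqD : q ∉ D)
    (hpq : p ≠ q)
    (I1 : Inj F (insert p (insert q D)))
    (I2 : Inj F (insert p (insert q (D \ {a, b, c}))))
    {k : Fn F} (hk : k ∈ W F (insert z (D \ {a, b, c})))
    {K : Mal F} (hK : K ∈ ML F xg (insert z D)) (hev : ev K = phm a b c k) :
    put z (xg p * xg q) K =
      Ph (xg a) (xg b) (xg c) (mu (insert p (insert q (D \ {a, b, c})))
        (EvenA_fs z (fun y => y p * y q) k)) := by
  have hD' : ∀ i, i ∉ D → i ∉ D \ {a, b, c} := fun i hi h => hi (Finset.mem_sdiff.1 h).1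
  have hf := EvenA_fs_pq_mem (hD' z hzD) (hD' p hpD) (hD' q hqD) hpq hk
  have hr0 : rho (EvenA_fs z (fun y => y p * y q) k) = 0 := EvenA_fs_pq_rho hk
  have hpq' : p ∉ insert q (D \ {a, b, c}) := by
    rw [Finset.mem_insert]
    rintro (h | h)
    · exact hpq h
    · exact hD' p hpD h
  have hc2 : 2 ≤ (insert p (insert q (D \ {a, b, c}))).card := by
    rw [Finset.card_insert_of_notMem hpq', Finset.card_insert_of_notMem (hD' q hqD)]
    omega
  have hmem := mu_mem I2 hc2 hf hr0
  have hevm := ev_mu I2 hc2 hf hr0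
  have hpq'' : p ∉ insert q D := by
    rw [Finset.mem_insert]
    rintro (h | h)
    · exact hpq h
    · exact hpD h
  have hc5 : 5 ≤ (insert p (insert q D)).card := by
    rw [Finset.card_insert_of_notMem hpq'', Finset.card_insert_of_notMem hqD]
    have := EvenA_card3 ha hb hc hab hac hbc
    omega
  have hne : ∀ i ∈ D, ∀ j, j ∉ D → i ≠ j := fun i hi j hj h => hj (h ▸ hi)
  have eset : insert p (insert q D) \ {a, b, c} = insert p (insert q (D \ {a, b, c})) := by
    ext i
    simp only [mem_sdiff, mem_insert, mem_singleton]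
    constructor
    · rintro ⟨h1 | h1 | h1, h2⟩
      · exact Or.inl h1
      · exact Or.inr (Or.inl h1)
      · exact Or.inr (Or.inr ⟨h1, h2⟩)
    · rintro (h1 | h1 | h1)
      · refine ⟨Or.inl h1, ?_⟩
        subst h1
        rintro (h2 | h2 | h2)
        · exact hne a ha _ hpD h2.symm
        · exact hne b hb _ hpD h2.symm
        · exact hne c hc _ hpD h2.symm
      · refine ⟨Or.inr (Or.inl h1), ?_⟩
        subst h1
        rintro (h2 | h2 | h2)
        · exact hne a ha _ hqD h2.symm
        · exact hne b hb _ hqD h2.symm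
        · exact hne c hc _ hqD h2.symm
      · exact ⟨Or.inr (Or.inr h1.1), h1.2⟩
  have hmem2 := Ph_mem_ML (B := insert p (insert q D)) (p := a) (q := b) (r := c)
    (by simp [ha]) (by simp [hb]) (by simp [hc]) hab hac hbc hc5
    (h := mu (insert p (insert q (D \ {a, b, c}))) (EvenA_fs z (fun y => y p * y q) k))
    (by rw [eset]; exact hmem)
  refine EvenA_Inj_eq I1 (EvenA_put_cherry_mem hzD hpD hqD hpq hK) hmem2 ?_
  rw [ev_Ph_gen a b c (ML_le_M2 hc2 hmem), hevm]
  funext y
  rw [ev_put, ev_mul, ev_gen, ev_gen, hev, phm_apply, phm_apply,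
    Function.update_of_ne (hne a ha z hzD), Function.update_of_ne (hne b hb z hzD),
    Function.update_of_ne (hne c hc z hzD)]
  rfl

/-- the key identity -/
theorem EvenA_key {D : Finset ℕ} {a b c z p q r : ℕ} (ha : a ∈ D) (hb : b ∈ D) (hc : c ∈ D)
    (hab : a ≠ b) (hac : a ≠ c) (hbc : b ≠ c) (hzD : z ∉ D) (hpD : p ∉ D) (hqD : q ∉ D)
    (hrD : r ∉ D) (hpq : p ≠ q) (hpr : p ≠ r) (hqr : q ≠ r)
    (I1 : Inj F (insert p (insert q D)))
    (I2 : Inj F (insert p (insert q (D \ {a, b, c}))))
    (I3 : Inj F (insert r (insert p (insert q (D \ {a, b, c})))))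
    {k : Fn F} (hk : k ∈ W F (insert z (D \ {a, b, c})))
    {K : Mal F} (hK : K ∈ ML F xg (insert z D)) (hev : ev K = phm a b c k) :
    put z (xg p * (xg q * xg r)) K =
      Ph (xg a) (xg b) (xg c) (mu (insert r (insert p (insert q (D \ {a, b, c}))))
        (EvenA_fs z (fun y => y p * (y q * y r)) k)) := by
  have h1 := EvenA_key1 ha hb hc hab hac hbc hzD hpD hqD hpq I1 I2 hk hK hev
  have hD' : ∀ i, i ∉ D → i ∉ D \ {a, b, c} := fun i hi h => hi (Finset.mem_sdiff.1 h).1
  have hf := EvenA_fs_pq_mem (hD' z hzD) (hD' p hpD) (hD' q hqD) hpq hk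
  have hr0 : rho (EvenA_fs z (fun y => y p * y q) k) = 0 := EvenA_fs_pq_rho hk
  have hpq' : p ∉ insert q (D \ {a, b, c}) := by
    rw [Finset.mem_insert]
    rintro (h | h)
    · exact hpq h
    · exact hD' p hpD h
  have hrpq' : r ∉ insert p (insert q (D \ {a, b, c})) := by
    rw [Finset.mem_insert, Finset.mem_insert]
    rintro (h | h | h)
    · exact hpr h.symm
    · exact hqr h.symm
    · exact hD' r hrD h
  have hc2 : 2 ≤ (insert p (insert q (D \ {a, b, c}))).card := by
    rw [Finset.card_insert_of_notMem hpq', Finset.card_insert_of_notMem (hD' q hqD)]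
    omega
  have hc3 : 3 ≤ (insert r (insert p (insert q (D \ {a, b, c})))).card := by
    rw [Finset.card_insert_of_notMem hrpq']
    omega
  have hmem := mu_mem I2 hc2 hf hr0
  have hne : ∀ i ∈ D, ∀ j, j ∉ D → i ≠ j := fun i hi j hj h => hj (h ▸ hi)
  have eer : (insert r (insert p (insert q (D \ {a, b, c})))).erase r =
      insert p (insert q (D \ {a, b, c})) := Finset.erase_insert hrpq'
  have h2 := congrArg (cher (F := F) q r) h1
  rw [EvenA_put_put hzD hqD hK] at h2
  have e1 : put q (xg q * xg r) (xg p * xg q) = (xg p * (xg q * xg r) : Mal F) := by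
    rw [map_mul, RF.sub_gen, RF.sub_gen, Function.update_of_ne hpq, Function.update_self]
  rw [e1, cher_Ph (hne a ha q hqD).symm (hne b hb q hqD).symm (hne c hc q hqD).symm
    (ML_le_M2 hc2 hmem)] at h2
  rw [h2]
  congr 1
  have h3 := mu_cp (B := insert r (insert p (insert q (D \ {a, b, c})))) I3 (p := q) (q := r)
    (by rw [eer]; exact I2) (by simp) (by simp) hqr hc3
    (x := EvenA_fs z (fun y => y p * y q) k) (by rw [eer]; exact hf) hr0
  rw [eer] at h3
  rw [← h3]
  congr 1
  funext y
  rw [cp_apply]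
  refine W_dep hk _ _ fun i hi => ?_
  rcases Finset.mem_insert.1 hi with rfl | h
  · rw [Function.update_self, Function.update_self]
    change Function.update y q (y q * y r) p * Function.update y q (y q * y r) q =
      y p * (y q * y r)
    rw [Function.update_of_ne hpq, Function.update_self]
  · have h4 : i ≠ z := fun h' => hD' z hzD (h' ▸ h)
    have h5 : i ≠ q := fun h' => hD' q hqD (h' ▸ h)
    rw [Function.update_of_ne h4, Function.update_of_ne h4, Function.update_of_ne h5]

theorem EvenA_fs_add {D : Finset ℕ} {k : Fn F} {z : ℕ} (hk : k ∈ W F (insert z D))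
    (y : ℕ → V F) (u v : V F) : k (Function.update y z (u + v)) =
      k (Function.update y z u) + k (Function.update y z v) :=
  (hk.1 z (Finset.mem_insert_self z D)).1 y u v

theorem EvenA_fs_smul {D : Finset ℕ} {k : Fn F} {z : ℕ} (hk : k ∈ W F (insert z D))
    (y : ℕ → V F) (c : F) (u : V F) : k (Function.update y z (c • u)) =
      c • k (Function.update y z u) :=
  (hk.1 z (Finset.mem_insert_self z D)).2 y c u

theorem EvenA_lin3 (P : Mal F →ₗ[F] Mal F) {u v w1 w2 w3 : Mal F}
    (h : u - v = (1 / 3 : F) • (w1 - (2 : F) • w2 - w3)) :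
    P u - P v = (1 / 3 : F) • (P w1 - (2 : F) • P w2 - P w3) := by
  have h1 := congrArg P h
  rwa [map_sub, map_smul, map_sub, map_sub, map_smul] at h1

/-- the identity on the function side -/
theorem EvenA_fun {D : Finset ℕ} {k k1 : Fn F} {x y z : ℕ} (hk : k ∈ W F (insert z D))
    (hk1 : ∀ Y : ℕ → V F, k1 Y = k (Function.update Y z (Y y))) :
    gm x y k - gm x z k1 = (1 / 3 : F) • (EvenA_fs z (fun y' => y' z * (y' x * y' y)) k
      - (2 : F) • EvenA_fs z (fun y' => y' x * (y' y * y' z)) k
      - EvenA_fs z (fun y' => y' y * (y' x * y' z)) k) := by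
  funext Y
  have h1 := V.Dd_eq (Y z) (Y x) (Y y)
  have h2 := V.Dd_eq (Y x) (Y y) (Y z)
  have h3 : Y x * (Y z * Y y) = -(Y x * (Y y * Y z)) := by
    rw [V.mul_anti (Y z) (Y y), mul_neg]
  unfold Dd at h1 h2
  rw [h3] at h1
  have h4 : Y z * (Y x * Y y) + (-2 : F) • (Y x * (Y y * Y z)) + (-1 : F) • (Y y * (Y x * Y z)) =
      (3 * V.ip (Y x) (Y y)) • Y z + (-(3 * V.ip (Y x) (Y z))) • Y y := by
    have h5 : Y z * (Y x * Y y) + (-2 : F) • (Y x * (Y y * Y z)) +
        (-1 : F) • (Y y * (Y x * Y z)) =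
        (Y z * (Y x * Y y) + -(Y x * (Y y * Y z))) -
          (Y x * (Y y * Y z) + Y y * (Y x * Y z)) := by
      module
    rw [h5, h1, h2, V.ip_comm (Y z) (Y y), V.ip_comm (Y z) (Y x)]
    module
  have h6 := congrArg (fun v => k (Function.update Y z v)) h4
  simp only [EvenA_fs_add hk, EvenA_fs_smul hk] at h6
  rw [Function.update_eq_self] at h6
  simp only [Pi.sub_apply, Pi.smul_apply, gm_apply, EvenA_fs]
  rw [hk1]
  have h7 : k (Function.update Y z (Y z * (Y x * Y y))) -
      (2 : F) • k (Function.update Y z (Y x * (Y y * Y z))) -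
      k (Function.update Y z (Y y * (Y x * Y z))) =
      (3 * V.ip (Y x) (Y y)) • k Y + (-(3 * V.ip (Y x) (Y z))) • k (Function.update Y z (Y y)) := by
    rw [← h6]
    module
  rw [h7, smul_add, smul_smul, smul_smul]
  have e3 : (3 : F) ≠ 0 := by norm_num
  have e4 : (1 / 3 : F) * (3 * V.ip (Y x) (Y y)) = V.ip (Y x) (Y y) := by field_simp
  have e5 : (1 / 3 : F) * (-(3 * V.ip (Y x) (Y z))) = -V.ip (Y x) (Y z) := by field_simp
  rw [e4, e5, neg_smul, sub_eq_add_neg]

/-- the overlapping pairs, in terms of `D` -/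
theorem EvenA_core {D : Finset ℕ} {a b c x y z : ℕ} (ha : a ∈ D) (hb : b ∈ D) (hc : c ∈ D)
    (hab : a ≠ b) (hac : a ≠ c) (hbc : b ≠ c) (hxD : x ∉ D) (hyD : y ∉ D) (hzD : z ∉ D)
    (hxy : x ≠ y) (hxz : x ≠ z) (hyz : y ≠ z)
    (hI : ∀ C : Finset ℕ, C.card ≤ D.card + 2 → Inj F C)
    (ho : Odd (insert z (D \ {a, b, c})).card) (f : Fn F) {C : Finset ℕ}
    (hC : C = insert x (insert y (insert z (D \ {a, b, c})))) :
    G (xg x) (xg y) (mu (insert z D) (phm a b c (oB F (insert z (D \ {a, b, c})))))
      - Ph (xg a) (xg b) (xg c) (mu C (gm x y (oB F (insert z (D \ {a, b, c}))) - f))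
    = G (xg x) (xg z) (mu (insert y D) (phm a b c (oB F (insert y (D \ {a, b, c})))))
      - Ph (xg a) (xg b) (xg c) (mu C (gm x z (oB F (insert y (D \ {a, b, c}))) - f)) := by
  set D' := D \ {a, b, c} with hD'
  have hsub : ∀ i, i ∉ D → i ∉ D' := fun i hi h => hi (Finset.mem_sdiff.1 h).1
  have hne : ∀ i ∈ D, ∀ j, j ∉ D → i ≠ j := fun i hi j hj h => hj (h ▸ hi)
  have hle : D'.card ≤ D.card := Finset.card_le_card Finset.sdiff_subset
  have hcD3 := EvenA_card3 ha hb hc hab hac hbc
  have hcD' : D'.card + 3 ≤ D.card := by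
    have h1 : ({a, b, c} : Finset ℕ).card = 3 :=
      Finset.card_eq_three.2 ⟨a, b, c, hab, hac, hbc, rfl⟩
    have h2 : ({a, b, c} : Finset ℕ) ⊆ D := by
      intro i hi
      simp only [mem_insert, mem_singleton] at hi
      rcases hi with rfl | rfl | rfl <;> assumption
    rw [hD', Finset.card_sdiff_of_subset h2, h1]
    omega
  have hcz : (insert z D).card = D.card + 1 := Finset.card_insert_of_notMem hzD
  have hcy : (insert y D).card = D.card + 1 := Finset.card_insert_of_notMem hyD
  have I1z : Inj F (insert z D) := hI _ (by omega)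
  have I1y : Inj F (insert y D) := hI _ (by omega)
  have J2 : ∀ p q : ℕ, Inj F (insert p (insert q D)) := fun p q => hI _ (by
    have h1 := Finset.card_insert_le p (insert q D)
    have h2 := Finset.card_insert_le q D
    omega)
  have J2' : ∀ p q : ℕ, Inj F (insert p (insert q D')) := fun p q => hI _ (by
    have h1 := Finset.card_insert_le p (insert q D')
    have h2 := Finset.card_insert_le q D'
    omega)
  have J3' : ∀ p q r : ℕ, Inj F (insert r (insert p (insert q D'))) := fun p q r => hI _ (by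
    have h1 := Finset.card_insert_le r (insert p (insert q D'))
    have h2 := Finset.card_insert_le p (insert q D')
    have h3 := Finset.card_insert_le q D'
    omega)
  have esz : insert z D \ {a, b, c} = insert z D' := by
    rw [hD']
    ext i
    simp only [mem_sdiff, mem_insert, mem_singleton]
    constructor
    · rintro ⟨h1 | h1, h2⟩
      · exact Or.inl h1
      · exact Or.inr ⟨h1, h2⟩
    · rintro (h1 | h1)
      · refine ⟨Or.inl h1, ?_⟩
        subst h1
        rintro (h2 | h2 | h2)
        · exact hne a ha _ hzD h2.symm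
        · exact hne b hb _ hzD h2.symm
        · exact hne c hc _ hzD h2.symm
      · exact ⟨Or.inr h1.1, h1.2⟩
  set k : Fn F := oB F (insert z D') with hk
  set k1 : Fn F := oB F (insert y D') with hk1
  have hkW : k ∈ W F (insert z D') := oB_mem ho
  have hpW : phm a b c k ∈ W F (insert z D) := by
    refine phm_mem ?_ (by simp [ha]) (by simp [hb]) (by simp [hc]) hab hac hbc
    rw [esz]
    exact hkW
  have hk1e : ∀ Y : ℕ → V F, k1 Y = k (Function.update Y z (Y y)) := by
    intro Y
    have h1 := ren_oB (F := F) (insert z D') (Equiv.swap z y)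
    have e1 : (insert z D').map (Equiv.swap z y).toEmbedding = insert y D' := by
      rw [Finset.map_insert]
      congr 1
      · simp
      · ext i
        rw [Finset.mem_map]
        constructor
        · rintro ⟨j, hj, rfl⟩
          have h1 : j ≠ z := fun h' => hsub z hzD (h' ▸ hj)
          have h2 : j ≠ y := fun h' => hsub y hyD (h' ▸ hj)
          rw [Equiv.coe_toEmbedding, Equiv.swap_apply_of_ne_of_ne h1 h2]
          exact hj
        · intro hi
          have h1 : i ≠ z := fun h' => hsub z hzD (h' ▸ hi)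
          have h2 : i ≠ y := fun h' => hsub y hyD (h' ▸ hi)
          exact ⟨i, hi, by rw [Equiv.coe_toEmbedding, Equiv.swap_apply_of_ne_of_ne h1 h2]⟩
    rw [e1] at h1
    rw [hk1, ← h1, ren_apply]
    refine W_dep hkW _ _ fun i hi => ?_
    rcases Finset.mem_insert.1 hi with rfl | h
    · rw [Function.update_self, Equiv.swap_apply_left]
    · have h1 : i ≠ z := fun h' => hsub z hzD (h' ▸ h)
      have h2 : i ≠ y := fun h' => hsub y hyD (h' ▸ h)
      rw [Function.update_of_ne h1, Equiv.swap_apply_of_ne_of_ne h1 h2]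
  have h2z : 2 ≤ (insert z D).card := by omega
  have h2y : 2 ≤ (insert y D).card := by omega
  have hKm := mu_mem I1z h2z hpW (rho_phm _ _ _ _)
  have hKe := ev_mu I1z h2z hpW (rho_phm _ _ _ _)
  set K : Mal F := mu (insert z D) (phm a b c k) with hK
  have hK1m : put z (xg y) K ∈ ML F xg (insert y D) := EvenA_put_mem hzD hyD hKm
  have hK1 : mu (insert y D) (phm a b c k1) = put z (xg y) K := by
    refine mu_eq I1y hK1m ?_
    funext Y
    rw [ev_put, ev_gen, hKe, phm_apply, phm_apply, hk1e,
      Function.update_of_ne (hne a ha z hzD), Function.update_of_ne (hne b hb z hzD),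
      Function.update_of_ne (hne c hc z hzD)]
  rw [hK1]
  set K1 : Mal F := put z (xg y) K with hK1d
  obtain ⟨L, hL⟩ := EvenA_lin hKm z (Finset.mem_insert_self z D)
  have hLy : L (xg y) = K1 := (hL (xg y)).symm
  have hLz : L (xg z) = K := by rw [← hL, EvenA_put_self]
  have hputy : ∀ w : Mal F, put y w K1 = L w := by
    intro w
    rw [hK1d, EvenA_put_put hzD hyD hKm, RF.sub_gen, Function.update_self, hL]
  have s1 := SS hKm h2z (Finset.mem_insert_self z D) (xg x) (xg y)
  have s2 := SS hK1m h2y (Finset.mem_insert_self y D) (xg z) (xg x)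
  rw [hL, hL, hL, hLy] at s1
  rw [hputy, hputy, hputy, hLz] at s2
  have hKM := ML_le_M2 h2z hKm
  have hK1M := ML_le_M2 h2y hK1m
  have hLxM : L (xg x) ∈ M2 F := by
    rw [← hL]
    exact sub_mem_M2 _ hKM
  rw [G_symm (xg z) (xg x) hK1M, G_symm (xg z) (xg y) hLxM] at s2
  -- the three words
  have w1 := EvenA_key (F := F) (D := D) (a := a) (b := b) (c := c) (z := z) (p := z) (q := x)
    (r := y) ha hb hc hab hac hbc hzD hzD hxD hyD hxz.symm hyz.symm hxy (J2 z x) (J2' z x)
    (J3' z x y) hkW hKm hKe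
  have w2 := EvenA_key (F := F) (D := D) (a := a) (b := b) (c := c) (z := z) (p := x) (q := y)
    (r := z) ha hb hc hab hac hbc hzD hxD hyD hzD hxy hxz hyz (J2 x y) (J2' x y)
    (J3' x y z) hkW hKm hKe
  have w3 := EvenA_key (F := F) (D := D) (a := a) (b := b) (c := c) (z := z) (p := y) (q := x)
    (r := z) ha hb hc hab hac hbc hzD hyD hxD hzD hxy.symm hyz hxz (J2 y x) (J2' y x)
    (J3' y x z) hkW hKm hKe
  rw [hL] at w1 w2 w3
  have c1 : insert y (insert z (insert x D')) = C := by
    rw [hC]
    ext i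
    simp only [mem_insert]
    tauto
  have c2 : insert z (insert x (insert y D')) = C := by
    rw [hC]
    ext i
    simp only [mem_insert]
    tauto
  have c3 : insert z (insert y (insert x D')) = C := by
    rw [hC]
    ext i
    simp only [mem_insert]
    tauto
  rw [← hD', c1] at w1
  rw [← hD', c2] at w2
  rw [← hD', c3] at w3
  have hfun := EvenA_fun (F := F) (x := x) (y := y) hkW hk1e
  have hGG : G (xg x) (xg y) K - G (xg x) (xg z) K1 =
      (1 / 3 : F) • (L (xg z * (xg x * xg y)) - (2 : F) • L (xg x * (xg y * xg z))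
        - L (xg y * (xg x * xg z))) := by
    have h1 : Dd (xg z) (xg x) (xg y) - Dd (xg x) (xg y) (xg z) =
        (xg z * (xg x * xg y) - (2 : F) • (xg x * (xg y * xg z)) - xg y * (xg x * xg z) : Mal F) := by
      unfold Dd
      rw [(malAlg_Mal (F := F)).anti (xg z) (xg y), mul_neg]
      module
    have h2 := congrArg L h1
    rw [map_sub, s1, s2, map_sub, map_sub, map_smul] at h2
    rw [← h2]
    module
  have hmm : mu C (gm x y k - f) - mu C (gm x z k1 - f) =
      (1 / 3 : F) • (mu C (EvenA_fs z (fun y' => y' z * (y' x * y' y)) k)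
      - (2 : F) • mu C (EvenA_fs z (fun y' => y' x * (y' y * y' z)) k)
      - mu C (EvenA_fs z (fun y' => y' y * (y' x * y' z)) k)) := by
    have h1 := congrArg (mu C) hfun
    rw [map_sub, map_smul, map_sub, map_sub, map_smul] at h1
    rw [← h1, map_sub, map_sub]
    abel
  have hPP := EvenA_lin3 (Ph (xg a) (xg b) (xg c)) hmm
  rw [← w1, ← w2, ← w3, ← hGG] at hPP
  rw [sub_eq_sub_iff_sub_eq_sub]
  rw [← hPP]

section

variable {B : Finset ℕ} (hB : 6 ≤ B.card) (he : Even B.card) (hI : IH F B.card)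
include hB he hI

/-- independence of the pair for overlapping pairs -/
theorem eps_overlap {a b c x y z : ℕ} (ha : a ∈ B) (hb : b ∈ B) (hc : c ∈ B) (hx : x ∈ B)
    (hy : y ∈ B) (hz : z ∈ B) (hd : [a, b, c, x, y, z].Nodup) :
    G (xg x) (xg y) (mu (B \ {x, y}) (phm a b c (oB F (B \ {a, b, c, x, y}))))
      - Ph (xg a) (xg b) (xg c) (sB (F := F) (B \ {a, b, c}) x y)
    = G (xg x) (xg z) (mu (B \ {x, z}) (phm a b c (oB F (B \ {a, b, c, x, z}))))
      - Ph (xg a) (xg b) (xg c) (sB (F := F) (B \ {a, b, c}) x z) := by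
  simp only [List.nodup_cons, List.mem_cons, List.not_mem_nil, or_false, not_or,
    List.nodup_nil, and_true, not_false_eq_true] at hd
  obtain ⟨⟨hab, hac, hax, hay, haz⟩, ⟨hbc, hbx, hby, hbz⟩, ⟨hcx, hcy, hcz⟩, ⟨hxy, hxz⟩, hyz⟩ := hd
  have e1 : B \ {x, y} = insert z (B \ {x, y, z}) := by
    ext i
    simp only [mem_sdiff, mem_insert, mem_singleton]
    constructor
    · rintro ⟨h1, h2⟩
      by_cases h3 : i = z
      · exact Or.inl h3
      · exact Or.inr ⟨h1, by tauto⟩
    · rintro (h1 | h1)
      · subst h1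
        exact ⟨hz, by tauto⟩
      · exact ⟨h1.1, by tauto⟩
  have e2 : B \ {x, z} = insert y (B \ {x, y, z}) := by
    ext i
    simp only [mem_sdiff, mem_insert, mem_singleton]
    constructor
    · rintro ⟨h1, h2⟩
      by_cases h3 : i = y
      · exact Or.inl h3
      · exact Or.inr ⟨h1, by tauto⟩
    · rintro (h1 | h1)
      · subst h1
        exact ⟨hy, by tauto⟩
      · exact ⟨h1.1, by tauto⟩
  have e3 : B \ {a, b, c, x, y} = insert z ((B \ {x, y, z}) \ {a, b, c}) := by
    ext i
    simp only [mem_sdiff, mem_insert, mem_singleton]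
    constructor
    · rintro ⟨h1, h2⟩
      by_cases h3 : i = z
      · exact Or.inl h3
      · exact Or.inr ⟨⟨h1, by tauto⟩, by tauto⟩
    · rintro (h1 | h1)
      · subst h1
        exact ⟨hz, by tauto⟩
      · exact ⟨h1.1.1, by tauto⟩
  have e4 : B \ {a, b, c, x, z} = insert y ((B \ {x, y, z}) \ {a, b, c}) := by
    ext i
    simp only [mem_sdiff, mem_insert, mem_singleton]
    constructor
    · rintro ⟨h1, h2⟩
      by_cases h3 : i = y
      · exact Or.inl h3
      · exact Or.inr ⟨⟨h1, by tauto⟩, by tauto⟩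
    · rintro (h1 | h1)
      · subst h1
        exact ⟨hy, by tauto⟩
      · exact ⟨h1.1.1, by tauto⟩
  have e5 : B \ {a, b, c} = insert x (insert y (insert z ((B \ {x, y, z}) \ {a, b, c}))) := by
    ext i
    simp only [mem_sdiff, mem_insert, mem_singleton]
    constructor
    · rintro ⟨h1, h2⟩
      by_cases h3 : i = x ∨ i = y ∨ i = z
      · tauto
      · exact Or.inr (Or.inr (Or.inr ⟨⟨h1, h3⟩, by tauto⟩))
    · rintro (h1 | h1 | h1 | h1)
      · subst h1
        exact ⟨hx, by tauto⟩
      · subst h1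
        exact ⟨hy, by tauto⟩
      · subst h1
        exact ⟨hz, by tauto⟩
      · exact ⟨h1.1.1, by tauto⟩
  have e6 : (B \ {a, b, c}) \ {x, y} = insert z ((B \ {x, y, z}) \ {a, b, c}) := by
    rw [← e3]
    ext i
    simp only [mem_sdiff, mem_insert, mem_singleton]
    tauto
  have e7 : (B \ {a, b, c}) \ {x, z} = insert y ((B \ {x, y, z}) \ {a, b, c}) := by
    rw [← e4]
    ext i
    simp only [mem_sdiff, mem_insert, mem_singleton]
    tauto
  have hc3 : ({x, y, z} : Finset ℕ).card = 3 := Finset.card_eq_three.2 ⟨x, y, z, hxy, hxz, hyz, rfl⟩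
  have hs3 : ({x, y, z} : Finset ℕ) ⊆ B := by
    intro i hi
    simp only [mem_insert, mem_singleton] at hi
    rcases hi with rfl | rfl | rfl <;> assumption
  have hcD : (B \ {x, y, z}).card = B.card - 3 := by
    rw [Finset.card_sdiff_of_subset hs3, hc3]
  have hc3' : ({a, b, c} : Finset ℕ).card = 3 :=
    Finset.card_eq_three.2 ⟨a, b, c, hab, hac, hbc, rfl⟩
  have haD : a ∈ B \ {x, y, z} := by
    simp only [mem_sdiff, mem_insert, mem_singleton]
    tauto
  have hbD : b ∈ B \ {x, y, z} := by
    simp only [mem_sdiff, mem_insert, mem_singleton]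
    tauto
  have hcD' : c ∈ B \ {x, y, z} := by
    simp only [mem_sdiff, mem_insert, mem_singleton]
    tauto
  have hs3' : ({a, b, c} : Finset ℕ) ⊆ B \ {x, y, z} := by
    intro i hi
    simp only [mem_insert, mem_singleton] at hi
    rcases hi with rfl | rfl | rfl <;> assumption
  have hcD2 : ((B \ {x, y, z}) \ {a, b, c}).card = B.card - 3 - 3 := by
    rw [Finset.card_sdiff_of_subset hs3', hc3', hcD]
  have hz2 : z ∉ (B \ {x, y, z}) \ {a, b, c} := by
    simp only [mem_sdiff, mem_insert, mem_singleton]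
    tauto
  have hodd : Odd (insert z ((B \ {x, y, z}) \ {a, b, c})).card := by
    rw [Finset.card_insert_of_notMem hz2, hcD2]
    obtain ⟨m, hm⟩ := he
    exact ⟨m - 3, by omega⟩
  unfold sB
  rw [e6, e7, e3, e4, e1, e2]
  refine EvenA_core haD hbD hcD' hab hac hbc (by simp) (by simp) (by simp) hxy hxz hyz ?_ hodd _ e5
  intro C hC
  exact hI C (by omega)

/-- existence of `eps` -/
theorem exists_eps {a b c : ℕ} (ha : a ∈ B) (hb : b ∈ B) (hc : c ∈ B)
    (hd : [a, b, c].Nodup) :
    ∃ E : Mal F, ∀ x ∈ B, ∀ y ∈ B, [a, b, c, x, y].Nodup →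
      G (xg x) (xg y) (mu (B \ {x, y}) (phm a b c (oB F (B \ {a, b, c, x, y}))))
        - Ph (xg a) (xg b) (xg c) (sB (F := F) (B \ {a, b, c}) x y) = E := by
  set v : ℕ → ℕ → Mal F := fun x y =>
    G (xg x) (xg y) (mu (B \ {x, y}) (phm a b c (oB F (B \ {a, b, c, x, y}))))
        - Ph (xg a) (xg b) (xg c) (sB (F := F) (B \ {a, b, c}) x y) with hv
  have hsym : ∀ x ∈ B, ∀ y ∈ B, [a, b, c, x, y].Nodup → v x y = v y x := by
    intro x hx y hy hd
    simp only [List.nodup_cons, List.mem_cons, List.not_mem_nil, or_false, not_or,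
      List.nodup_nil, and_true, not_false_eq_true] at hd
    obtain ⟨⟨hab, hac, hax, hay⟩, ⟨hbc, hbx, hby⟩, ⟨hcx, hcy⟩, hxy⟩ := hd
    have hc2 : (B \ {x, y}).card = B.card - 2 := by
      rw [oneRow_card_sdiff hx hy hxy]
    have hpW : phm a b c (oB F (B \ {a, b, c, x, y})) ∈ W F (B \ {x, y}) := by
      refine phm_mem ?_ (by simp; tauto) (by simp; tauto) (by simp; tauto) hab hac hbc
      have e1 : (B \ {x, y}) \ {a, b, c} = B \ {a, b, c, x, y} := by
        ext i
        simp only [mem_sdiff, mem_insert, mem_singleton]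
        tauto
      rw [e1]
      refine oB_mem ?_
      rw [← e1, oneRow_card_sdiff3 (by simp; tauto) (by simp; tauto) (by simp; tauto) hab hac hbc,
        hc2]
      obtain ⟨m, hm⟩ := he
      exact ⟨m - 3, by omega⟩
    have hm := mu_mem (hI _ (by omega)) (by omega) hpW (rho_phm _ _ _ _)
    have e2 : B \ {a, b, c, x, y} = B \ {a, b, c, y, x} := by
      rw [Finset.pair_comm x y]
    have e3 : B \ {x, y} = B \ {y, x} := by
      rw [Finset.pair_comm x y]
    rw [hv]
    simp only
    rw [G_symm _ _ (ML_le_M2 (by omega) hm), sB_symm, e2, e3]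
  have hov : ∀ x ∈ B, ∀ y ∈ B, ∀ z ∈ B, [a, b, c, x, y].Nodup → [a, b, c, x, z].Nodup →
      v x y = v x z := by
    intro x hx y hy z hz h1 h2
    by_cases hyz : y = z
    · rw [hyz]
    · refine eps_overlap hB he hI ha hb hc hx hy hz ?_
      simp only [List.nodup_cons, List.mem_cons, List.not_mem_nil, or_false, not_or,
        List.nodup_nil, and_true, not_false_eq_true] at h1 h2 ⊢
      tauto
  by_cases hex : ∃ x ∈ B, ∃ y ∈ B, [a, b, c, x, y].Nodup
  · obtain ⟨x, hx, y, hy, hxy⟩ := hex
    refine ⟨v x y, fun u hu w hw huw => ?_⟩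
    change v u w = v x y
    by_cases hux : u = x
    · subst hux
      exact hov u hu w hw y hy huw hxy
    · have h1 : [a, b, c, x, u].Nodup := by
        simp only [List.nodup_cons, List.mem_cons, List.not_mem_nil, or_false, not_or,
          List.nodup_nil, and_true, not_false_eq_true] at hxy huw ⊢
        tauto
      have h2 : [a, b, c, u, x].Nodup := by
        simp only [List.nodup_cons, List.mem_cons, List.not_mem_nil, or_false, not_or,
          List.nodup_nil, and_true, not_false_eq_true] at hxy huw ⊢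
        tauto
      rw [hov u hu w hw x hx huw h2, hsym u hu x hx h2]
      exact hov x hx u hu y hy h1 hxy
  · refine ⟨0, fun u hu w hw huw => ?_⟩
    exact absurd ⟨u, hu, w, hw, huw⟩ hex

end

end

end OctId
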