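import Pool.Agent.Work.MP_9b6dd6_al.EvenA

/-!
# The relations in even degree: `gam`
-/

namespace OctId

open Finset

set_option linter.unusedSectionVars false

noncomputable section

variable {F : Type*} [Field F] [CharZero F]

theorem EvenB_odd_sub {n : ℕ} (h : Odd n) (h2 : 2 ≤ n) : Odd (n - 2) := by
  obtain ⟨k, hk⟩ := h
  exact ⟨k - 1, by omega⟩

theorem EvenB_mem_sdiff {C : Finset ℕ} {a p q : ℕ} (ha : a ∈ C) (h1 : a ≠ p) (h2 : a ≠ q) :
    a ∈ C \ {p, q} := by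
  simp only [Finset.mem_sdiff, Finset.mem_insert, Finset.mem_singleton, not_or]
  exact ⟨ha, h1, h2⟩

/-- `s_e` and `s_f` for disjoint pairs -/
theorem EvenB_sB_sB {C : Finset ℕ} (hI : ∀ D : Finset ℕ, D.card ≤ C.card → Inj F D)
    (hC : 5 ≤ C.card) (ho : Odd C.card) {p q r t : ℕ} (hp : p ∈ C) (hq : q ∈ C) (hr : r ∈ C)
    (ht : t ∈ C) (hpq : p ≠ q) (hpr : p ≠ r) (hpt : p ≠ t) (hqr : q ≠ r) (hqt : q ≠ t)
    (hrt : r ≠ t) :
    sB (F := F) C p q - sB C r t =
      G (xg r) (xg t) (sB (F := F) (C \ {r, t}) p q)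
        - G (xg p) (xg q) (sB (F := F) (C \ {p, q}) r t) := by
  have c1 : (C \ {r, t}).card = C.card - 2 := oneRow_card_sdiff hr ht hrt
  have c2 : (C \ {p, q}).card = C.card - 2 := oneRow_card_sdiff hp hq hpq
  have i0 : Inj F C := hI C le_rfl
  have i1 : Inj F (C \ {r, t}) := hI _ (by omega)
  have i2 : Inj F (C \ {p, q}) := hI _ (by omega)
  have o1 : Odd (C \ {r, t}).card := by rw [c1]; exact EvenB_odd_sub ho (by omega)
  have o2 : Odd (C \ {p, q}).card := by rw [c2]; exact EvenB_odd_sub ho (by omega)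
  have mp : p ∈ C \ {r, t} := EvenB_mem_sdiff hp hpr hpt
  have mq : q ∈ C \ {r, t} := EvenB_mem_sdiff hq hqr hqt
  have mr : r ∈ C \ {p, q} := EvenB_mem_sdiff hr hpr.symm hqr.symm
  have mt : t ∈ C \ {p, q} := EvenB_mem_sdiff ht hpt.symm hqt.symm
  have s1 : sB (F := F) (C \ {r, t}) p q ∈ ML F xg (C \ {r, t}) :=
    sB_mem i1 o1 (by omega) mp mq hpq
  have s2 : sB (F := F) (C \ {p, q}) r t ∈ ML F xg (C \ {p, q}) :=
    sB_mem i2 o2 (by omega) mr mt hrt
  have e0 : (C \ {r, t}) \ {p, q} = (C \ {p, q}) \ {r, t} := by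
    ext i
    simp only [Finset.mem_sdiff, Finset.mem_insert, Finset.mem_singleton]
    tauto
  rw [← sub_eq_zero]
  apply i0
  · refine Submodule.sub_mem _ (Submodule.sub_mem _ (sB_mem i0 ho (by omega) hp hq hpq)
      (sB_mem i0 ho (by omega) hr ht hrt)) (Submodule.sub_mem _ ?_ ?_)
    · exact G_mem_ML hr ht hrt (by omega) s1
    · exact G_mem_ML hp hq hpq (by omega) s2
  · rw [map_sub, map_sub, map_sub, ev_G_gen _ _ (ML_le_M2 (by omega) s1),
      ev_G_gen _ _ (ML_le_M2 (by omega) s2), ev_sB i0 ho (by omega) hp hq hpq,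
      ev_sB i0 ho (by omega) hr ht hrt, ev_sB i1 o1 (by omega) mp mq hpq,
      ev_sB i2 o2 (by omega) mr mt hrt, map_sub, map_sub, gm_comm' r t p q, e0]
    abel

section

variable {B : Finset ℕ} (hB : 6 ≤ B.card) (he : Even B.card) (hI : IH F B.card)
include hB he hI

/-- `gam` in terms of `eps` -/
theorem gam_eq {p q r x y : ℕ} (hp : p ∈ B) (hq : q ∈ B) (hr : r ∈ B) (hx : x ∈ B)
    (hy : y ∈ B) (hd : [p, q, r, x, y].Nodup) :
    G (xg x) (xg y) (mu (B \ {x, y}) (cp p q (oB F (B \ {q, x, y}))))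
        - cher p q (sB (F := F) (B.erase q) x y)
      = G (xg x) (xg y) (mu (B \ {x, y}) (phm p q r (oB F (B \ {p, q, r, x, y}))))
        - Ph (xg p) (xg q) (xg r) (sB (F := F) (B \ {p, q, r}) x y)
        - cher p q (sB (F := F) (B.erase q) p r) := by
  simp only [List.nodup_cons, List.mem_cons, List.not_mem_nil, or_false, not_or,
    List.nodup_nil, not_false_eq_true, and_true] at hd
  obtain ⟨⟨npq, npr, npx, npy⟩, ⟨nqr, nqx, nqy⟩, ⟨nrx, nry⟩, nxy⟩ := hd
  have hc : (B.erase q).card = B.card - 1 := Finset.card_erase_of_mem hq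
  have hco : Odd (B.erase q).card := by
    rw [hc]
    obtain ⟨k, hk⟩ := he
    exact ⟨k - 1, by omega⟩
  have hIC : ∀ D : Finset ℕ, D.card ≤ (B.erase q).card → Inj F D := fun D hD => hI D (by omega)
  have mp : p ∈ B.erase q := Finset.mem_erase.2 ⟨npq, hp⟩
  have mr : r ∈ B.erase q := Finset.mem_erase.2 ⟨Ne.symm nqr, hr⟩
  have mx : x ∈ B.erase q := Finset.mem_erase.2 ⟨Ne.symm nqx, hx⟩
  have my : y ∈ B.erase q := Finset.mem_erase.2 ⟨Ne.symm nqy, hy⟩
  have h1 := EvenB_sB_sB hIC (by omega) hco mx my mp mr nxy (Ne.symm npx) (Ne.symm nrx)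
    (Ne.symm npy) (Ne.symm nry) npr
  have e1 : (B.erase q) \ {p, r} = B \ {p, q, r} := by
    ext i
    simp only [Finset.mem_sdiff, Finset.mem_erase, Finset.mem_insert, Finset.mem_singleton]
    tauto
  have e2 : (B.erase q) \ {x, y} = B \ {q, x, y} := by
    ext i
    simp only [Finset.mem_sdiff, Finset.mem_erase, Finset.mem_insert, Finset.mem_singleton]
    tauto
  have e3 : (B \ {x, y}).erase q = B \ {q, x, y} := by
    ext i
    simp only [Finset.mem_sdiff, Finset.mem_erase, Finset.mem_insert, Finset.mem_singleton]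
    tauto
  have e4 : (B \ {q, x, y}) \ {p, r} = B \ {p, q, r, x, y} := by
    ext i
    simp only [Finset.mem_sdiff, Finset.mem_insert, Finset.mem_singleton]
    tauto
  have cpr : ((B.erase q) \ {p, r}).card = B.card - 3 := by
    rw [oneRow_card_sdiff mp mr npr]
    omega
  have cxy : ((B.erase q) \ {x, y}).card = B.card - 3 := by
    rw [oneRow_card_sdiff mx my nxy]
    omega
  have oxy : Odd ((B.erase q) \ {x, y}).card := by
    rw [cxy]
    obtain ⟨k, hk⟩ := he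
    exact ⟨k - 2, by omega⟩
  have opr : Odd ((B.erase q) \ {p, r}).card := by
    rw [cpr]
    obtain ⟨k, hk⟩ := he
    exact ⟨k - 2, by omega⟩
  have s1 : sB (F := F) ((B.erase q) \ {p, r}) x y ∈ ML F xg ((B.erase q) \ {p, r}) :=
    sB_mem (hIC _ (by omega)) opr (by omega) (EvenB_mem_sdiff mx (Ne.symm npx) (Ne.symm nrx))
      (EvenB_mem_sdiff my (Ne.symm npy) (Ne.symm nry)) nxy
  have mpx : p ∈ (B.erase q) \ {x, y} := EvenB_mem_sdiff mp npx npy
  have mrx : r ∈ (B.erase q) \ {x, y} := EvenB_mem_sdiff mr nrx nry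
  have s2 : sB (F := F) ((B.erase q) \ {x, y}) p r ∈ ML F xg ((B.erase q) \ {x, y}) :=
    sB_mem (hIC _ (by omega)) oxy (by omega) mpx mrx npr
  -- apply the cherry
  have h2 := congrArg (cher p q) h1
  rw [map_sub, map_sub,
    cher_G_self (B := (B.erase q) \ {p, r}) (by simp) npr s1 (by omega),
    cher_G npx npy (ML_le_M2 (by omega) s2)] at h2
  -- the lift of the cherry
  have cD : (B \ {x, y}).card = B.card - 2 := oneRow_card_sdiff hx hy nxy
  have w2 := mu_sB_aux (F := F) oxy (by omega) mpx mrx npr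
  have h3 : cher p q (sB (F := F) ((B.erase q) \ {x, y}) p r) =
      mu (B \ {x, y}) (phm p q r (oB F (B \ {p, q, r, x, y})))
        - mu (B \ {x, y}) (cp p q (oB F (B \ {q, x, y}))) := by
    unfold sB
    rw [e2] at w2 ⊢
    rw [← e3] at w2 ⊢
    rw [← mu_cp (hI _ (by omega)) (hI _ (by rw [e3, ← e2]; omega)) (EvenB_mem_sdiff hp npx npy)
      (EvenB_mem_sdiff hq nqx nqy) npq (by omega) w2.1 w2.2, map_sub, map_sub, e3, e4]
    congr 2
    apply cp_gm_self (C := B \ {p, q, r, x, y}) _ (by simp) npr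
    apply oB_mem
    rw [← e4, oneRow_card_sdiff (by rw [← e2]; exact mpx) (by rw [← e2]; exact mrx) npr, ← e2]
    exact EvenB_odd_sub oxy (by omega)
  rw [h3, map_sub, e1] at h2
  linear_combination (norm := abel) -(1 : ℤ) • h2

/-- existence of `gam` -/
theorem exists_gam {p q : ℕ} (hp : p ∈ B) (hq : q ∈ B) (hpq : p ≠ q) :
    ∃ E : Mal F, ∀ x ∈ B, ∀ y ∈ B, [p, q, x, y].Nodup →
      G (xg x) (xg y) (mu (B \ {x, y}) (cp p q (oB F (B \ {q, x, y}))))
        - cher p q (sB (F := F) (B.erase q) x y) = E := by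
  set V : ℕ → ℕ → Mal F := fun x y =>
    G (xg x) (xg y) (mu (B \ {x, y}) (cp p q (oB F (B \ {q, x, y}))))
        - cher p q (sB (F := F) (B.erase q) x y) with hV
  have hsmall : ∀ a b c d e : ℕ, ∃ r ∈ B, r ≠ a ∧ r ≠ b ∧ r ≠ c ∧ r ≠ d ∧ r ≠ e := by
    intro a b c d e
    by_contra hcon
    push Not at hcon
    have h1 : B ⊆ {a, b, c, d, e} := by
      intro r hr
      simp only [Finset.mem_insert, Finset.mem_singleton]
      by_contra hr2
      push Not at hr2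
      exact hr2.2.2.2.2 (hcon r hr hr2.1 hr2.2.1 hr2.2.2.1 hr2.2.2.2.1)
    have h2 := Finset.card_le_card h1
    have h3 : ({a, b, c, d, e} : Finset ℕ).card ≤ 5 := Finset.card_le_five
    omega
  have hVeq : ∀ r x y : ℕ, r ∈ B → x ∈ B → y ∈ B → [p, q, r, x, y].Nodup →
      ∀ E : Mal F, (∀ x ∈ B, ∀ y ∈ B, [p, q, r, x, y].Nodup →
      G (xg x) (xg y) (mu (B \ {x, y}) (phm p q r (oB F (B \ {p, q, r, x, y}))))
        - Ph (xg p) (xg q) (xg r) (sB (F := F) (B \ {p, q, r}) x y) = E) →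
      V x y = E - cher p q (sB (F := F) (B.erase q) p r) := by
    intro r x y hr hx hy hn E hE
    rw [hV]
    simp only
    rw [gam_eq hB he hI hp hq hr hx hy hn, hE x hx y hy hn]
  -- two pairs with at most three letters
  have hstep : ∀ x y z w : ℕ, x ∈ B → y ∈ B → z ∈ B → w ∈ B → [p, q, x, y].Nodup →
      [p, q, z, w].Nodup → (z = x ∨ z = y ∨ w = x ∨ w = y) → V x y = V z w := by
    intro x y z w hx hy hz hw h1 h2 h3
    have hr : ∃ r ∈ B, r ≠ p ∧ r ≠ q ∧ r ≠ x ∧ r ≠ y ∧ r ≠ z ∧ r ≠ w := by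
      rcases h3 with h3 | h3 | h3 | h3
      · obtain ⟨r, hr, n1, n2, n3, n4, n5⟩ := hsmall p q x y w
        exact ⟨r, hr, n1, n2, n3, n4, by rw [h3]; exact n3, n5⟩
      · obtain ⟨r, hr, n1, n2, n3, n4, n5⟩ := hsmall p q x y w
        exact ⟨r, hr, n1, n2, n3, n4, by rw [h3]; exact n4, n5⟩
      · obtain ⟨r, hr, n1, n2, n3, n4, n5⟩ := hsmall p q x y z
        exact ⟨r, hr, n1, n2, n3, n4, n5, by rw [h3]; exact n3⟩
      · obtain ⟨r, hr, n1, n2, n3, n4, n5⟩ := hsmall p q x y z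
        exact ⟨r, hr, n1, n2, n3, n4, n5, by rw [h3]; exact n4⟩
    obtain ⟨r, hr, n1, n2, n3, n4, n5, n6⟩ := hr
    simp only [List.nodup_cons, List.mem_cons, List.not_mem_nil, or_false, not_or,
      List.nodup_nil, not_false_eq_true, and_true] at h1 h2
    have k0 : [p, q, r].Nodup := by
      simp only [List.nodup_cons, List.mem_cons, List.not_mem_nil, or_false, not_or,
        List.nodup_nil, not_false_eq_true, and_true]
      exact ⟨⟨hpq, n1.symm⟩, n2.symm⟩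
    have k1 : [p, q, r, x, y].Nodup := by
      simp only [List.nodup_cons, List.mem_cons, List.not_mem_nil, or_false, not_or,
        List.nodup_nil, not_false_eq_true, and_true]
      exact ⟨⟨hpq, n1.symm, h1.1.2.1, h1.1.2.2⟩, ⟨n2.symm, h1.2.1.1, h1.2.1.2⟩, ⟨n3, n4⟩, h1.2.2⟩
    have k2 : [p, q, r, z, w].Nodup := by
      simp only [List.nodup_cons, List.mem_cons, List.not_mem_nil, or_false, not_or,
        List.nodup_nil, not_false_eq_true, and_true]
      exact ⟨⟨hpq, n1.symm, h2.1.2.1, h2.1.2.2⟩, ⟨n2.symm, h2.2.1.1, h2.2.1.2⟩, ⟨n5, n6⟩, h2.2.2⟩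
    obtain ⟨E, hE⟩ := exists_eps hB he hI hp hq hr k0
    rw [hVeq r x y hr hx hy k1 E hE, hVeq r z w hr hz hw k2 E hE]
  -- a base pair
  obtain ⟨x₀, hx₀, a1, a2, -, -, -⟩ := hsmall p q p p p
  obtain ⟨y₀, hy₀, b1, b2, b3, -, -⟩ := hsmall p q x₀ x₀ x₀
  have nd : ∀ {x y : ℕ}, p ≠ x → p ≠ y → q ≠ x → q ≠ y → x ≠ y → [p, q, x, y].Nodup := by
    intro x y m1 m2 m3 m4 m5
    simp only [List.nodup_cons, List.mem_cons, List.not_mem_nil, or_false, not_or,
      List.nodup_nil, not_false_eq_true, and_true]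
    exact ⟨⟨hpq, m1, m2⟩, ⟨m3, m4⟩, m5⟩
  have n0 : [p, q, x₀, y₀].Nodup := nd a1.symm b1.symm a2.symm b2.symm b3.symm
  refine ⟨V x₀ y₀, ?_⟩
  intro x hx y hy hn
  change V x y = V x₀ y₀
  have hn' := hn
  simp only [List.nodup_cons, List.mem_cons, List.not_mem_nil, or_false, not_or,
    List.nodup_nil, not_false_eq_true, and_true] at hn'
  obtain ⟨⟨-, m1, m2⟩, ⟨m3, m4⟩, m5⟩ := hn'
  by_cases hxx : x = x₀
  · exact hstep x y x₀ y₀ hx hy hx₀ hy₀ hn n0 (Or.inl hxx.symm)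
  · have n1 : [p, q, x, x₀].Nodup := nd m1 a1.symm m3 a2.symm hxx
    rw [hstep x y x x₀ hx hy hx hx₀ hn n1 (Or.inl rfl)]
    exact hstep x x₀ x₀ y₀ hx hx₀ hx₀ hy₀ n1 n0 (Or.inr (Or.inl rfl))

end

end

end OctId
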