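import Pool.Agent.Work.MP_9b6dd6_al.VFacts

/-!
# Equivariant multilinear functions: definitions

`Fn F` is the space of functions of tuples `y : ℕ → V F` with values in `V F`;
`W B` the subspace of functions multilinear in the letters `B` and equivariant.
-/

namespace OctId

open Finset

set_option linter.unusedSectionVars false

noncomputable section

variable {F : Type*} [Field F]

/-- functions of tuples of imaginary octonions -/
abbrev Fn (F : Type*) [Field F] := (ℕ → V F) → V F

/-- `f` is linear in the letter `b` -/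
def LinIn (b : ℕ) (f : Fn F) : Prop :=
  (∀ (y : ℕ → V F) (u v : V F), f (Function.update y b (u + v)) =
      f (Function.update y b u) + f (Function.update y b v)) ∧
  (∀ (y : ℕ → V F) (c : F) (u : V F), f (Function.update y b (c • u)) =
      c • f (Function.update y b u))

/-- `f` only depends on the letters in `B` -/
def DepOn (B : Finset ℕ) (f : Fn F) : Prop :=
  ∀ y y' : ℕ → V F, (∀ b ∈ B, y b = y' b) → f y = f y'

/-- `f` is equivariant (infinitesimally) with letters `B` -/
def Equi (B : Finset ℕ) (f : Fn F) : Prop :=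
  ∀ (u w : V F) (y : ℕ → V F),
    ∑ b ∈ B, f (Function.update y b (V.Dr u w (y b))) = V.Dr u w (f y)

/-- equivariant `B`-multilinear functions -/
def W (F : Type*) [Field F] (B : Finset ℕ) : Submodule F (Fn F) where
  carrier := {f | (∀ b ∈ B, LinIn b f) ∧ DepOn B f ∧ Equi B f}
  add_mem' := by
    rintro f g ⟨h1, h2, h3⟩ ⟨k1, k2, k3⟩
    refine ⟨fun b hb => ⟨fun y u v => ?_, fun y c u => ?_⟩, fun y y' h => ?_, fun u w y => ?_⟩
    · simp only [Pi.add_apply, (h1 b hb).1, (k1 b hb).1]
      abel
    · simp only [Pi.add_apply, (h1 b hb).2, (k1 b hb).2, smul_add]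
    · simp only [Pi.add_apply, h2 y y' h, k2 y y' h]
    · simp only [Pi.add_apply, Finset.sum_add_distrib, V.Dr_add]
      rw [h3 u w y, k3 u w y]
  zero_mem' := by
    refine ⟨fun b hb => ⟨fun y u v => ?_, fun y c u => ?_⟩, fun y y' h => rfl, fun u w y => ?_⟩
    · simp
    · simp
    · simp
  smul_mem' := by
    rintro c f ⟨h1, h2, h3⟩
    refine ⟨fun b hb => ⟨fun y u v => ?_, fun y d u => ?_⟩, fun y y' h => ?_, fun u w y => ?_⟩
    · simp only [Pi.smul_apply, (h1 b hb).1, smul_add]
    · simp only [Pi.smul_apply, (h1 b hb).2, smul_comm c d]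
    · simp only [Pi.smul_apply, h2 y y' h]
    · simp only [Pi.smul_apply, ← Finset.smul_sum, V.Dr_smul]
      rw [h3 u w y]

/-- multiplication by `(y_p, y_q)` -/
def gm (p q : ℕ) : Fn F →ₗ[F] Fn F where
  toFun f := fun y => V.ip (y p) (y q) • f y
  map_add' f g := by funext y; simp only [Pi.add_apply, smul_add]
  map_smul' c f := by
    funext y; simp only [Pi.smul_apply, RingHom.id_apply, smul_comm c]

/-- multiplication by `(y_p x y_q, y_r)` -/
def phm (p q r : ℕ) : Fn F →ₗ[F] Fn F where
  toFun f := fun y => V.ip (y p * y q) (y r) • f y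
  map_add' f g := by funext y; simp only [Pi.add_apply, smul_add]
  map_smul' c f := by
    funext y; simp only [Pi.smul_apply, RingHom.id_apply, smul_comm c]

/-- general substitution of the tuple -/
def pull (t : (ℕ → V F) → (ℕ → V F)) : Fn F →ₗ[F] Fn F where
  toFun f := fun y => f (t y)
  map_add' _ _ := rfl
  map_smul' _ _ := rfl

/-- renaming of letters -/
def ren (σ : Equiv.Perm ℕ) : Fn F →ₗ[F] Fn F := pull fun y i => y (σ i)

/-- insertion of a cherry: substitute `y_p ↦ y_p x y_q` -/
def cp (p q : ℕ) : Fn F →ₗ[F] Fn F := pull fun y => Function.update y p (y p * y q)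

/-- contraction of the letters `p, q` -/
def ctr (p q : ℕ) : Fn F →ₗ[F] Fn F :=
  ∑ j : Fin 7, pull fun y => Function.update (Function.update y p (V.e j)) q (V.e j)

/-- contraction of the letters `p, q` with a cross product; `p` plays the new letter -/
def ctx (p q : ℕ) : Fn F →ₗ[F] Fn F :=
  ∑ j : Fin 7, pull fun y => Function.update (Function.update y p (V.e j)) q (V.e j * y p)

/-- the value at the constant tuple `e_0` -/
def rho : Fn F →ₗ[F] F where
  toFun f := f (fun _ => V.e 0) 0
  map_add' _ _ := rfl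
  map_smul' _ _ := rfl

/-- the one-row functions: `oo k B` for `#B = 2k+1` -/
def oo (F : Type*) [Field F] : ℕ → Finset ℕ → Fn F
  | 0, B => fun y => ∑ i ∈ B, y i
  | k + 1, B => ((B.offDiag.card : F)⁻¹) •
      ∑ e ∈ B.offDiag, gm e.1 e.2 (oo F k (B \ {e.1, e.2}))

/-- the one-row function of `B` -/
def oB (F : Type*) [Field F] (B : Finset ℕ) : Fn F := oo F ((B.card - 1) / 2) B

@[simp] theorem gm_apply (p q : ℕ) (f : Fn F) (y : ℕ → V F) :
    gm p q f y = V.ip (y p) (y q) • f y := rfl

@[simp] theorem phm_apply (p q r : ℕ) (f : Fn F) (y : ℕ → V F) :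
    phm p q r f y = V.ip (y p * y q) (y r) • f y := rfl

@[simp] theorem pull_apply (t : (ℕ → V F) → (ℕ → V F)) (f : Fn F) (y : ℕ → V F) :
    pull t f y = f (t y) := rfl

@[simp] theorem ren_apply (σ : Equiv.Perm ℕ) (f : Fn F) (y : ℕ → V F) :
    ren σ f y = f (fun i => y (σ i)) := rfl

@[simp] theorem cp_apply (p q : ℕ) (f : Fn F) (y : ℕ → V F) :
    cp p q f y = f (Function.update y p (y p * y q)) := rfl

theorem ctr_apply (p q : ℕ) (f : Fn F) (y : ℕ → V F) :
    ctr p q f y = ∑ j : Fin 7, f (Function.update (Function.update y p (V.e j)) q (V.e j)) := by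
  simp [ctr, LinearMap.sum_apply, Finset.sum_apply]

theorem ctx_apply (p q : ℕ) (f : Fn F) (y : ℕ → V F) :
    ctx p q f y =
      ∑ j : Fin 7, f (Function.update (Function.update y p (V.e j)) q (V.e j * y p)) := by
  simp [ctx, LinearMap.sum_apply, Finset.sum_apply]

theorem rho_apply (f : Fn F) : rho f = f (fun _ => V.e 0) 0 := rfl

end

end OctId
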