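import Pool.Agent.Work.MP_9b6dd6_al.VFacts

/-!
# The derivation property of `Dr` and the identity (V7)

Only one coordinate is checked by brute force; the others follow by cyclic symmetry.
-/

namespace OctId

open Finset

noncomputable section

namespace V

variable {F : Type*} [Field F]

/-- cyclic shift of the coordinates -/
def shft (k : Fin 7) (a : V F) : V F := fun j => a (j + k)

theorem shft_apply (k j : Fin 7) (a : V F) : shft k a j = a (j + k) := rfl

theorem shft_mul (k : Fin 7) (a b : V F) : shft k (a * b) = shft k a * shft k b := by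
  apply vext
  intro j
  simp only [shft_apply, mul_apply]
  simp only [add_right_comm j k]

theorem shft_add (k : Fin 7) (a b : V F) : shft k (a + b) = shft k a + shft k b := rfl
theorem shft_sub (k : Fin 7) (a b : V F) : shft k (a - b) = shft k a - shft k b := rfl
theorem shft_neg (k : Fin 7) (a : V F) : shft k (-a) = -shft k a := rfl
theorem shft_smul (k : Fin 7) (c : F) (a : V F) : shft k (c • a) = c • shft k a := rfl

theorem ip_shft (k : Fin 7) (a b : V F) : ip (shft k a) (shft k b) = ip a b := by
  simp only [ip, shft_apply]
  exact Equiv.sum_comp (Equiv.addRight k) fun j => a j * b j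

theorem shft_Dr (k : Fin 7) (u w z : V F) :
    shft k (Dr u w z) = Dr (shft k u) (shft k w) (shft k z) := by
  simp only [Dr, shft_sub, shft_add, shft_smul, shft_mul, ip_shft]

theorem eq_of_zero {a b : V F} (h : ∀ k : Fin 7, shft k a 0 = shft k b 0) : a = b := by
  apply vext
  intro k
  have := h k
  simpa [shft_apply] using this

theorem Dr_mul_zero (u w a b : V F) :
    Dr u w (a * b) 0 = (Dr u w a * b + a * Dr u w b) 0 := by
  simp only [Dr, ip, Fin.sum_univ_seven, mul_apply, add_apply, sub_apply, smul_apply]
  simp
  ring

/-- `Dr u w` is a derivation of the cross product -/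
theorem Dr_mul (u w a b : V F) : Dr u w (a * b) = Dr u w a * b + a * Dr u w b := by
  apply eq_of_zero
  intro k
  simp only [shft_Dr, shft_add, shft_mul]
  exact Dr_mul_zero _ _ _ _

theorem mul_mul_mul_zero (a b c q : V F) :
    ((b * c) * (a * q) + (c * a) * (b * q) + (a * b) * (c * q)) 0 =
      (-((3 * ip (a * b) c) • q) - ip (q * b) c • a - ip (a * q) c • b - ip (a * b) q • c
        + (2 : F) • (ip a q • (b * c) + ip b q • (c * a) + ip c q • (a * b))) 0 := by
  simp only [ip, Fin.sum_univ_seven, mul_apply, add_apply, sub_apply, smul_apply, neg_apply]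
  simp
  ring

/-- the identity (V7) -/
theorem mul_mul_mul (a b c q : V F) :
    (b * c) * (a * q) + (c * a) * (b * q) + (a * b) * (c * q) =
      -((3 * ip (a * b) c) • q) - ip (q * b) c • a - ip (a * q) c • b - ip (a * b) q • c
        + (2 : F) • (ip a q • (b * c) + ip b q • (c * a) + ip c q • (a * b)) := by
  apply eq_of_zero
  intro k
  simp only [shft_add, shft_sub, shft_neg, shft_smul, shft_mul]
  rw [← ip_shft k (a * b) c, ← ip_shft k (q * b) c, ← ip_shft k (a * q) c, ← ip_shft k (a * b) q,
    ← ip_shft k a q, ← ip_shft k b q, ← ip_shft k c q]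
  simp only [shft_mul]
  exact mul_mul_mul_zero _ _ _ _

end V

end

end OctId
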