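import Pool.Agent.Work.MP_9b6dd6_al.Fun
import Pool.Agent.Work.MP_9b6dd6_al.VDer

/-!
# Closure properties of the spaces `W B`
-/

namespace OctId

open Finset

set_option linter.unusedSectionVars false

noncomputable section

variable {F : Type*} [Field F]

theorem W_lin {B : Finset ℕ} {f : Fn F} (hf : f ∈ W F B) {b : ℕ} (hb : b ∈ B) : LinIn b f :=
  hf.1 b hb

theorem W_dep {B : Finset ℕ} {f : Fn F} (hf : f ∈ W F B) : DepOn B f := hf.2.1

theorem W_equi {B : Finset ℕ} {f : Fn F} (hf : f ∈ W F B) : Equi B f := hf.2.2

/-- letters outside `B` do not matter (form for `DepOn`) -/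
theorem FunA_up {B : Finset ℕ} {f : Fn F} (hf : DepOn B f) {b : ℕ} (hb : b ∉ B)
    (y : ℕ → V F) (v : V F) : f (Function.update y b v) = f y := by
  apply hf
  intro c hc
  have : c ≠ b := fun h => hb (h ▸ hc)
  rw [Function.update_of_ne this]

theorem FunA_sum {b : ℕ} {f : Fn F} (hf : LinIn b f) {ι : Type*} (s : Finset ι) (g : ι → V F)
    (y : ℕ → V F) :
    f (Function.update y b (∑ i ∈ s, g i)) = ∑ i ∈ s, f (Function.update y b (g i)) := by
  classical
  induction s using Finset.induction_on with
  | empty =>
    have h := hf.2 y 0 0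
    rw [zero_smul, zero_smul] at h
    rw [Finset.sum_empty, Finset.sum_empty, h]
  | insert a s ha ih => rw [Finset.sum_insert ha, Finset.sum_insert ha, hf.1, ih]

/-- invariant scalar functions, multilinear in the letters `A` -/
structure FunA_SW (A : Finset ℕ) (s : (ℕ → V F) → F) : Prop where
  add : ∀ b ∈ A, ∀ (y : ℕ → V F) (u v : V F), s (Function.update y b (u + v)) =
    s (Function.update y b u) + s (Function.update y b v)
  smul : ∀ b ∈ A, ∀ (y : ℕ → V F) (c : F) (u : V F), s (Function.update y b (c • u)) =
    c * s (Function.update y b u)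
  dep : ∀ y y' : ℕ → V F, (∀ b ∈ A, y b = y' b) → s y = s y'
  inv : ∀ (u w : V F) (y : ℕ → V F), ∑ b ∈ A, s (Function.update y b (V.Dr u w (y b))) = 0

theorem FunA_SW.up {A : Finset ℕ} {s : (ℕ → V F) → F} (hs : FunA_SW A s) {b : ℕ} (hb : b ∉ A)
    (y : ℕ → V F) (v : V F) : s (Function.update y b v) = s y := by
  apply hs.dep
  intro c hc
  have : c ≠ b := fun h => hb (h ▸ hc)
  rw [Function.update_of_ne this]

theorem FunA_smul {A B : Finset ℕ} {s : (ℕ → V F) → F} {f : Fn F} (hs : FunA_SW A s)
    (hf : f ∈ W F B) (h : Disjoint A B) : (fun y => s y • f y) ∈ W F (A ∪ B) := by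
  obtain ⟨f1, f2, f3⟩ := hf
  refine ⟨fun b hb => ?_, fun y y' hy => ?_, fun u w y => ?_⟩
  · rcases Finset.mem_union.mp hb with hbA | hbB
    · have hbB : b ∉ B := Finset.disjoint_left.mp h hbA
      refine ⟨fun y u v => ?_, fun y c u => ?_⟩
      · simp only [FunA_up f2 hbB, hs.add b hbA, add_smul]
      · simp only [FunA_up f2 hbB, hs.smul b hbA, mul_smul]
    · have hbA : b ∉ A := fun h' => Finset.disjoint_left.mp h h' hbB
      refine ⟨fun y u v => ?_, fun y c u => ?_⟩
      · simp only [hs.up hbA, (f1 b hbB).1, smul_add]
      · simp only [hs.up hbA, (f1 b hbB).2, smul_comm c]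
  · change s y • f y = s y' • f y'
    rw [hs.dep y y' (fun b hb => hy b (Finset.mem_union_left _ hb)),
      f2 y y' (fun b hb => hy b (Finset.mem_union_right _ hb))]
  · rw [Finset.sum_union h]
    have h1 : ∑ b ∈ A, s (Function.update y b (V.Dr u w (y b))) •
        f (Function.update y b (V.Dr u w (y b))) = 0 := by
      have : ∀ b ∈ A, s (Function.update y b (V.Dr u w (y b))) •
          f (Function.update y b (V.Dr u w (y b))) =
          s (Function.update y b (V.Dr u w (y b))) • f y := by
        intro b hb
        rw [FunA_up f2 (Finset.disjoint_left.mp h hb)]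
      rw [Finset.sum_congr rfl this, ← Finset.sum_smul, hs.inv, zero_smul]
    have h2 : ∑ b ∈ B, s (Function.update y b (V.Dr u w (y b))) •
        f (Function.update y b (V.Dr u w (y b))) = s y • V.Dr u w (f y) := by
      have : ∀ b ∈ B, s (Function.update y b (V.Dr u w (y b))) •
          f (Function.update y b (V.Dr u w (y b))) =
          s y • f (Function.update y b (V.Dr u w (y b))) := by
        intro b hb
        rw [hs.up (fun h' => Finset.disjoint_left.mp h h' hb)]
      rw [Finset.sum_congr rfl this, ← Finset.smul_sum, f3]
    rw [h1, h2, zero_add, V.Dr_smul]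

theorem FunA_SW_ip {p q : ℕ} (hpq : p ≠ q) :
    FunA_SW (F := F) {p, q} (fun y => V.ip (y p) (y q)) := by
  refine ⟨fun b hb y u v => ?_, fun b hb y c u => ?_, fun y y' h => ?_, fun u w y => ?_⟩
  · rcases Finset.mem_insert.mp hb with rfl | hb
    · simp only [Function.update_self, Function.update_of_ne hpq.symm, V.ip_add_left]
    · rw [Finset.mem_singleton] at hb
      subst hb
      simp only [Function.update_self, Function.update_of_ne hpq, V.ip_add_right]
  · rcases Finset.mem_insert.mp hb with rfl | hb
    · simp only [Function.update_self, Function.update_of_ne hpq.symm, V.ip_smul_left]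
    · rw [Finset.mem_singleton] at hb
      subst hb
      simp only [Function.update_self, Function.update_of_ne hpq, V.ip_smul_right]
  · simp only [h p (by simp), h q (by simp)]
  · rw [Finset.sum_pair hpq]
    simp only [Function.update_self, Function.update_of_ne hpq, Function.update_of_ne hpq.symm]
    rw [V.Dr_skew, neg_add_cancel]

theorem FunA_SW_phi {p q r : ℕ} (hpq : p ≠ q) (hpr : p ≠ r) (hqr : q ≠ r) :
    FunA_SW (F := F) {p, q, r} (fun y => V.ip (y p * y q) (y r)) := by
  refine ⟨fun b hb y u v => ?_, fun b hb y c u => ?_, fun y y' h => ?_, fun u w y => ?_⟩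
  · simp only [Finset.mem_insert, Finset.mem_singleton] at hb
    rcases hb with rfl | rfl | rfl
    · simp only [Function.update_self, Function.update_of_ne hpq.symm,
        Function.update_of_ne hpr.symm, V.ip_add_left, add_mul]
    · simp only [Function.update_self, Function.update_of_ne hpq,
        Function.update_of_ne hqr.symm, V.ip_add_left, mul_add]
    · simp only [Function.update_self, Function.update_of_ne hpr,
        Function.update_of_ne hqr, V.ip_add_right]
  · simp only [Finset.mem_insert, Finset.mem_singleton] at hb
    rcases hb with rfl | rfl | rfl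
    · simp only [Function.update_self, Function.update_of_ne hpq.symm,
        Function.update_of_ne hpr.symm, V.ip_smul_left, smul_mul_assoc]
    · simp only [Function.update_self, Function.update_of_ne hpq,
        Function.update_of_ne hqr.symm, V.ip_smul_left, mul_smul_comm]
    · simp only [Function.update_self, Function.update_of_ne hpr,
        Function.update_of_ne hqr, V.ip_smul_right]
  · simp only [h p (by simp), h q (by simp), h r (by simp)]
  · rw [Finset.sum_insert (by simp [hpq, hpr]), Finset.sum_pair hqr]
    simp only [Function.update_self, Function.update_of_ne hpq, Function.update_of_ne hpq.symm,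
      Function.update_of_ne hpr, Function.update_of_ne hpr.symm, Function.update_of_ne hqr,
      Function.update_of_ne hqr.symm]
    have h := V.Dr_skew u w (y p * y q) (y r)
    rw [V.Dr_mul, V.ip_add_left] at h
    linear_combination h

/-- bilinear expressions in a basis vector and its image under `Dr` -/
theorem FunA_bil {M : Type*} [AddCommGroup M] [Module F M] (β : V F → V F → M)
    (h1 : ∀ a a' b, β (a + a') b = β a b + β a' b) (h2 : ∀ (c : F) a b, β (c • a) b = c • β a b)
    (h3 : ∀ a b b', β a (b + b') = β a b + β a b') (h4 : ∀ (c : F) a b, β a (c • b) = c • β a b)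
    (u w : V F) :
    ∑ j : Fin 7, (β (V.Dr u w (V.e j)) (V.e j) + β (V.e j) (V.Dr u w (V.e j))) = 0 := by
  let L : V F →ₗ[F] V F →ₗ[F] M := LinearMap.mk₂ F β h1 h2 h3 h4
  have hL : ∀ a b, β a b = L a b := fun a b => rfl
  have e1 : ∀ j : Fin 7, β (V.Dr u w (V.e j)) (V.e j) =
      ∑ k : Fin 7, V.ip (V.Dr u w (V.e j)) (V.e k) • β (V.e k) (V.e j) := by
    intro j
    conv_lhs => rw [← V.sum_ip_e (V.Dr u w (V.e j))]
    rw [hL, map_sum, LinearMap.sum_apply]
    refine Finset.sum_congr rfl fun k _ => ?_
    rw [map_smul, LinearMap.smul_apply, ← hL]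
  have e2 : ∀ j : Fin 7, β (V.e j) (V.Dr u w (V.e j)) =
      ∑ k : Fin 7, V.ip (V.Dr u w (V.e j)) (V.e k) • β (V.e j) (V.e k) := by
    intro j
    conv_lhs => rw [← V.sum_ip_e (V.Dr u w (V.e j))]
    rw [hL, map_sum]
    refine Finset.sum_congr rfl fun k _ => ?_
    rw [map_smul, ← hL]
  rw [Finset.sum_add_distrib, Finset.sum_congr rfl (fun j _ => e1 j),
    Finset.sum_congr rfl (fun j _ => e2 j), Finset.sum_comm, ← Finset.sum_add_distrib]
  apply Finset.sum_eq_zero
  intro k _
  rw [← Finset.sum_add_distrib]
  apply Finset.sum_eq_zero
  intro j _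
  rw [← add_smul, V.Dr_skew, V.ip_comm (V.e j), neg_add_cancel, zero_smul]

/-- letters outside `B` do not matter -/
theorem W_update {B : Finset ℕ} {f : Fn F} (hf : f ∈ W F B) {b : ℕ} (hb : b ∉ B)
    (y : ℕ → V F) (v : V F) : f (Function.update y b v) = f y :=
  FunA_up (W_dep hf) hb y v

theorem W_single (i : ℕ) : (fun y : ℕ → V F => y i) ∈ W F {i} := by
  refine ⟨fun b hb => ?_, fun y y' hy => ?_, fun u w y => ?_⟩
  · rw [Finset.mem_singleton] at hb
    subst hb
    refine ⟨fun y u v => ?_, fun y c u => ?_⟩
    · simp only [Function.update_self]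
    · simp only [Function.update_self]
  · exact hy i (Finset.mem_singleton_self i)
  · simp only [Finset.sum_singleton, Function.update_self]

theorem W_mul {A B : Finset ℕ} {f g : Fn F} (hf : f ∈ W F A) (hg : g ∈ W F B)
    (h : Disjoint A B) : f * g ∈ W F (A ∪ B) := by
  obtain ⟨f1, f2, f3⟩ := hf
  obtain ⟨g1, g2, g3⟩ := hg
  refine ⟨fun b hb => ?_, fun y y' hy => ?_, fun u w y => ?_⟩
  · rcases Finset.mem_union.mp hb with hbA | hbB
    · have hbB : b ∉ B := Finset.disjoint_left.mp h hbA
      refine ⟨fun y u v => ?_, fun y c u => ?_⟩
      · simp only [Pi.mul_apply, FunA_up g2 hbB, (f1 b hbA).1, add_mul]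
      · simp only [Pi.mul_apply, FunA_up g2 hbB, (f1 b hbA).2, smul_mul_assoc]
    · have hbA : b ∉ A := fun h' => Finset.disjoint_left.mp h h' hbB
      refine ⟨fun y u v => ?_, fun y c u => ?_⟩
      · simp only [Pi.mul_apply, FunA_up f2 hbA, (g1 b hbB).1, mul_add]
      · simp only [Pi.mul_apply, FunA_up f2 hbA, (g1 b hbB).2, mul_smul_comm]
  · simp only [Pi.mul_apply]
    rw [f2 y y' (fun b hb => hy b (Finset.mem_union_left _ hb)),
      g2 y y' (fun b hb => hy b (Finset.mem_union_right _ hb))]
  · rw [Finset.sum_union h]
    simp only [Pi.mul_apply]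
    have h1 : ∑ b ∈ A, f (Function.update y b (V.Dr u w (y b))) *
        g (Function.update y b (V.Dr u w (y b))) = V.Dr u w (f y) * g y := by
      have : ∀ b ∈ A, f (Function.update y b (V.Dr u w (y b))) *
          g (Function.update y b (V.Dr u w (y b))) =
          f (Function.update y b (V.Dr u w (y b))) * g y := by
        intro b hb
        rw [FunA_up g2 (Finset.disjoint_left.mp h hb)]
      rw [Finset.sum_congr rfl this, ← Finset.sum_mul, f3]
    have h2 : ∑ b ∈ B, f (Function.update y b (V.Dr u w (y b))) *
        g (Function.update y b (V.Dr u w (y b))) = f y * V.Dr u w (g y) := by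
      have : ∀ b ∈ B, f (Function.update y b (V.Dr u w (y b))) *
          g (Function.update y b (V.Dr u w (y b))) =
          f y * g (Function.update y b (V.Dr u w (y b))) := by
        intro b hb
        rw [FunA_up f2 (fun h' => Finset.disjoint_left.mp h h' hb)]
      rw [Finset.sum_congr rfl this, ← Finset.mul_sum, g3]
    rw [h1, h2, V.Dr_mul]

theorem gm_mem {B : Finset ℕ} {f : Fn F} {p q : ℕ} (hf : f ∈ W F (B \ {p, q})) (hp : p ∈ B)
    (hq : q ∈ B) (hpq : p ≠ q) : gm p q f ∈ W F B := by
  have h := FunA_smul (FunA_SW_ip (F := F) hpq) hf Finset.disjoint_sdiff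
  have hB : {p, q} ∪ B \ {p, q} = B := by
    apply Finset.union_sdiff_of_subset
    intro x hx
    simp only [Finset.mem_insert, Finset.mem_singleton] at hx
    rcases hx with rfl | rfl
    · exact hp
    · exact hq
  rw [hB] at h
  exact h

theorem phm_mem {B : Finset ℕ} {f : Fn F} {p q r : ℕ} (hf : f ∈ W F (B \ {p, q, r}))
    (hp : p ∈ B) (hq : q ∈ B) (hr : r ∈ B) (hpq : p ≠ q) (hpr : p ≠ r) (hqr : q ≠ r) :
    phm p q r f ∈ W F B := by
  have h := FunA_smul (FunA_SW_phi (F := F) hpq hpr hqr) hf Finset.disjoint_sdiff
  have hB : {p, q, r} ∪ B \ {p, q, r} = B := by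
    apply Finset.union_sdiff_of_subset
    intro x hx
    simp only [Finset.mem_insert, Finset.mem_singleton] at hx
    rcases hx with rfl | rfl | rfl
    · exact hp
    · exact hq
    · exact hr
  rw [hB] at h
  exact h

theorem FunA_comp_update (σ : Equiv.Perm ℕ) (y : ℕ → V F) (c : ℕ) (v : V F) :
    (fun i => Function.update y (σ c) v (σ i)) = Function.update (fun i => y (σ i)) c v := by
  funext i
  by_cases h : i = c
  · subst h
    simp
  · rw [Function.update_of_ne h, Function.update_of_ne (fun h' => h (σ.injective h'))]

theorem ren_mem {B : Finset ℕ} {f : Fn F} (hf : f ∈ W F B) (σ : Equiv.Perm ℕ) :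
    ren σ f ∈ W F (B.map σ.toEmbedding) := by
  obtain ⟨f1, f2, f3⟩ := hf
  refine ⟨fun b hb => ?_, fun y y' hy => ?_, fun u w y => ?_⟩
  · obtain ⟨c, hc, rfl⟩ := Finset.mem_map.mp hb
    refine ⟨fun y u v => ?_, fun y d u => ?_⟩
    · simp only [ren_apply, Equiv.coe_toEmbedding, FunA_comp_update, (f1 c hc).1]
    · simp only [ren_apply, Equiv.coe_toEmbedding, FunA_comp_update, (f1 c hc).2]
  · simp only [ren_apply]
    apply f2
    intro b hb
    exact hy (σ b) (Finset.mem_map_of_mem σ.toEmbedding hb)
  · rw [Finset.sum_map]
    simp only [ren_apply, Equiv.coe_toEmbedding, FunA_comp_update]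
    exact f3 u w (fun i => y (σ i))

theorem ren_swap_mem {B : Finset ℕ} {f : Fn F} (hf : f ∈ W F B) {p q : ℕ} (hp : p ∈ B)
    (hq : q ∈ B) : ren (Equiv.swap p q) f ∈ W F B := by
  have h := ren_mem hf (Equiv.swap p q)
  have hB : B.map (Equiv.swap p q).toEmbedding = B := by
    apply Finset.eq_of_subset_of_card_le
    · intro x hx
      obtain ⟨c, hc, rfl⟩ := Finset.mem_map.mp hx
      simp only [Equiv.coe_toEmbedding]
      by_cases h1 : c = p
      · rw [h1, Equiv.swap_apply_left]; exact hq
      · by_cases h2 : c = q
        · rw [h2, Equiv.swap_apply_right]; exact hp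
        · rw [Equiv.swap_apply_of_ne_of_ne h1 h2]; exact hc
    · rw [Finset.card_map]
  rw [hB] at h
  exact h

/-- substitution of a general equivariant function for a letter -/
theorem W_subst {B C : Finset ℕ} {f g : Fn F} {t : ℕ} (hf : f ∈ W F B) (ht : t ∈ B)
    (hg : g ∈ W F C) (h : Disjoint (B.erase t) C) :
    (fun y => f (Function.update y t (g y))) ∈ W F (B.erase t ∪ C) := by
  obtain ⟨f1, f2, f3⟩ := hf
  obtain ⟨g1, g2, g3⟩ := hg
  -- a letter of `C` in the first argument does not matter
  have hC : ∀ b ∈ C, ∀ (y : ℕ → V F) (v z : V F),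
      f (Function.update (Function.update y b v) t z) = f (Function.update y t z) := by
    intro b hb y v z
    by_cases hbt : b = t
    · subst hbt
      rw [Function.update_idem]
    · have hbB : b ∉ B := fun h' =>
        Finset.disjoint_left.mp h (Finset.mem_erase.mpr ⟨hbt, h'⟩) hb
      rw [Function.update_comm hbt, FunA_up f2 hbB]
  have hE : ∀ b ∈ B.erase t, ∀ (y : ℕ → V F) (v z : V F),
      f (Function.update (Function.update y b v) t z) =
        f (Function.update (Function.update y t z) b v) := by
    intro b hb y v z
    rw [Function.update_comm (Finset.ne_of_mem_erase hb)]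
  refine ⟨fun b hb => ?_, fun y y' hy => ?_, fun u w y => ?_⟩
  · rcases Finset.mem_union.mp hb with hbB | hbC
    · have hbC : b ∉ C := Finset.disjoint_left.mp h hbB
      have hlin := f1 b (Finset.mem_of_mem_erase hbB)
      refine ⟨fun y u v => ?_, fun y c u => ?_⟩
      · simp only [FunA_up g2 hbC, hE b hbB, hlin.1]
      · simp only [FunA_up g2 hbC, hE b hbB, hlin.2]
    · refine ⟨fun y u v => ?_, fun y c u => ?_⟩
      · simp only [(g1 b hbC).1, hC b hbC, (f1 t ht).1]
      · simp only [(g1 b hbC).2, hC b hbC, (f1 t ht).2]
  · have hgy : g y = g y' := g2 y y' (fun b hb => hy b (Finset.mem_union_right _ hb))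
    change f (Function.update y t (g y)) = f (Function.update y' t (g y'))
    rw [hgy]
    apply f2
    intro b hb
    by_cases hbt : b = t
    · subst hbt; simp only [Function.update_self]
    · rw [Function.update_of_ne hbt, Function.update_of_ne hbt]
      exact hy b (Finset.mem_union_left _ (Finset.mem_erase.mpr ⟨hbt, hb⟩))
  · rw [Finset.sum_union h]
    have h1 : ∑ b ∈ B.erase t, f (Function.update (Function.update y b (V.Dr u w (y b))) t
        (g (Function.update y b (V.Dr u w (y b))))) =
        ∑ b ∈ B.erase t, f (Function.update (Function.update y t (g y)) b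
          (V.Dr u w (Function.update y t (g y) b))) := by
      apply Finset.sum_congr rfl
      intro b hb
      rw [FunA_up g2 (Finset.disjoint_left.mp h hb), hE b hb,
        Function.update_of_ne (Finset.ne_of_mem_erase hb)]
    have h2 : ∑ b ∈ C, f (Function.update (Function.update y b (V.Dr u w (y b))) t
        (g (Function.update y b (V.Dr u w (y b))))) =
        f (Function.update (Function.update y t (g y)) t
          (V.Dr u w (Function.update y t (g y) t))) := by
      rw [Function.update_idem, Function.update_self, ← g3, FunA_sum (f1 t ht)]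
      apply Finset.sum_congr rfl
      intro b hb
      rw [hC b hb]
    rw [h1, h2, Finset.sum_erase_add _ _ ht, f3]

theorem cp_mem {B : Finset ℕ} {f : Fn F} {p q : ℕ} (hf : f ∈ W F (B.erase q)) (hp : p ∈ B)
    (hq : q ∈ B) (hpq : p ≠ q) : cp p q f ∈ W F B := by
  have hg : (fun y : ℕ → V F => y p) * (fun y : ℕ → V F => y q) ∈ W F ({p} ∪ {q}) :=
    W_mul (W_single p) (W_single q) (Finset.disjoint_singleton.mpr hpq)
  have h := W_subst (t := p) hf (Finset.mem_erase.mpr ⟨hpq, hp⟩) hg (by
    rw [Finset.disjoint_left]
    intro x hx hx'
    simp only [Finset.mem_erase, Finset.mem_union, Finset.mem_singleton] at hx hx'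
    rcases hx' with h' | h'
    · exact hx.1 h'
    · exact hx.2.1 h')
  have hB : (B.erase q).erase p ∪ ({p} ∪ {q}) = B := by
    ext x
    simp only [Finset.mem_erase, Finset.mem_union, Finset.mem_singleton]
    constructor
    · rintro (h' | h' | h')
      · exact h'.2.2
      · rw [h']; exact hp
      · rw [h']; exact hq
    · intro hx
      by_cases h1 : x = p
      · exact Or.inr (Or.inl h1)
      · by_cases h2 : x = q
        · exact Or.inr (Or.inr h2)
        · exact Or.inl ⟨h1, h2, hx⟩
  rw [hB] at h
  exact h

/-- splitting off two letters from a sum -/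
theorem FunA_split {B : Finset ℕ} {p q : ℕ} (hp : p ∈ B) (hq : q ∈ B) (hpq : p ≠ q)
    (s : ℕ → V F) : ∑ b ∈ B, s b = ∑ b ∈ B \ {p, q}, s b + (s p + s q) := by
  have hsub : ({p, q} : Finset ℕ) ⊆ B := by
    intro x hx
    simp only [Finset.mem_insert, Finset.mem_singleton] at hx
    rcases hx with rfl | rfl
    · exact hp
    · exact hq
  rw [← Finset.sum_sdiff hsub, Finset.sum_pair hpq]

theorem ctr_mem {B : Finset ℕ} {f : Fn F} {p q : ℕ} (hf : f ∈ W F B) (hp : p ∈ B)
    (hq : q ∈ B) (hpq : p ≠ q) : ctr p q f ∈ W F (B \ {p, q}) := by
  obtain ⟨f1, f2, f3⟩ := hf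
  have hcomm : ∀ b ∈ B \ {p, q}, ∀ (y : ℕ → V F) (v z z' : V F),
      Function.update (Function.update (Function.update y b v) p z) q z' =
        Function.update (Function.update (Function.update y p z) q z') b v := by
    intro b hb y v z z'
    simp only [Finset.mem_sdiff, Finset.mem_insert, Finset.mem_singleton, not_or] at hb
    rw [Function.update_comm hb.2.1, Function.update_comm hb.2.2]
  refine ⟨fun b hb => ?_, fun y y' hy => ?_, fun u w y => ?_⟩
  · have hlin := f1 b (Finset.mem_sdiff.mp hb).1
    refine ⟨fun y u v => ?_, fun y c u => ?_⟩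
    · simp only [ctr_apply, hcomm b hb, hlin.1, Finset.sum_add_distrib]
    · simp only [ctr_apply, hcomm b hb, hlin.2, Finset.smul_sum]
  · simp only [ctr_apply]
    apply Finset.sum_congr rfl
    intro j _
    apply f2
    intro b hb
    by_cases h2 : b = q
    · subst h2; simp only [Function.update_self]
    · rw [Function.update_of_ne h2, Function.update_of_ne h2]
      by_cases h1 : b = p
      · subst h1; simp only [Function.update_self]
      · rw [Function.update_of_ne h1, Function.update_of_ne h1]
        exact hy b (by simp [hb, h1, h2])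
  · have key : ∀ j : Fin 7, ∑ b ∈ B \ {p, q},
        f (Function.update (Function.update (Function.update y b (V.Dr u w (y b))) p (V.e j)) q
          (V.e j)) =
        V.Dr u w (f (Function.update (Function.update y p (V.e j)) q (V.e j))) -
          (f (Function.update (Function.update y p (V.Dr u w (V.e j))) q (V.e j)) +
           f (Function.update (Function.update y p (V.e j)) q (V.Dr u w (V.e j)))) := by
      intro j
      have e := f3 u w (Function.update (Function.update y p (V.e j)) q (V.e j))
      rw [FunA_split hp hq hpq] at e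
      rw [← e]
      have e1 : Function.update (Function.update (Function.update y p (V.e j)) q (V.e j)) p
          (V.Dr u w (Function.update (Function.update y p (V.e j)) q (V.e j) p)) =
          Function.update (Function.update y p (V.Dr u w (V.e j))) q (V.e j) := by
        rw [Function.update_of_ne hpq, Function.update_self, Function.update_comm hpq.symm,
          Function.update_idem]
      have e2 : Function.update (Function.update (Function.update y p (V.e j)) q (V.e j)) q
          (V.Dr u w (Function.update (Function.update y p (V.e j)) q (V.e j) q)) =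
          Function.update (Function.update y p (V.e j)) q (V.Dr u w (V.e j)) := by
        rw [Function.update_self, Function.update_idem]
      rw [e1, e2, add_sub_cancel_right]
      apply Finset.sum_congr rfl
      intro b hb
      rw [hcomm b hb]
      simp only [Finset.mem_sdiff, Finset.mem_insert, Finset.mem_singleton, not_or] at hb
      rw [Function.update_of_ne hb.2.2, Function.update_of_ne hb.2.1]
    simp only [ctr_apply]
    rw [Finset.sum_comm, Finset.sum_congr rfl (fun j _ => key j), Finset.sum_sub_distrib,
      V.Dr_sum, FunA_bil (fun a b => f (Function.update (Function.update y p a) q b)),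
      sub_zero]
    · intro a a' b
      simp only [Function.update_comm hpq, (f1 p hp).1]
    · intro c a b
      simp only [Function.update_comm hpq, (f1 p hp).2]
    · intro a b b'
      exact (f1 q hq).1 _ _ _
    · intro c a b
      exact (f1 q hq).2 _ _ _

theorem ctx_mem {B : Finset ℕ} {f : Fn F} {p q : ℕ} (hf : f ∈ W F B) (hp : p ∈ B)
    (hq : q ∈ B) (hpq : p ≠ q) : ctx p q f ∈ W F (B.erase q) := by
  obtain ⟨f1, f2, f3⟩ := hf
  have hpE : p ∈ B.erase q := Finset.mem_erase.mpr ⟨hpq, hp⟩
  have hE : ∀ b, b ∈ B.erase q → b ≠ p → b ∈ B \ {p, q} := by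
    intro b hb hbp
    simp only [Finset.mem_sdiff, Finset.mem_insert, Finset.mem_singleton, not_or]
    exact ⟨Finset.mem_of_mem_erase hb, hbp, Finset.ne_of_mem_erase hb⟩
  have hcomm : ∀ b ∈ B \ {p, q}, ∀ (y : ℕ → V F) (v z z' : V F),
      Function.update (Function.update (Function.update y b v) p z) q z' =
        Function.update (Function.update (Function.update y p z) q z') b v := by
    intro b hb y v z z'
    simp only [Finset.mem_sdiff, Finset.mem_insert, Finset.mem_singleton, not_or] at hb
    rw [Function.update_comm hb.2.1, Function.update_comm hb.2.2]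
  have hval : ∀ b ∈ B \ {p, q}, ∀ (y : ℕ → V F) (v : V F), Function.update y b v p = y p := by
    intro b hb y v
    simp only [Finset.mem_sdiff, Finset.mem_insert, Finset.mem_singleton, not_or] at hb
    rw [Function.update_of_ne (Ne.symm hb.2.1)]
  refine ⟨fun b hb => ?_, fun y y' hy => ?_, fun u w y => ?_⟩
  · by_cases hbp : b = p
    · subst hbp
      refine ⟨fun y u v => ?_, fun y c u => ?_⟩
      · simp only [ctx_apply, Function.update_idem, Function.update_self, mul_add, (f1 q hq).1,
          Finset.sum_add_distrib]
      · simp only [ctx_apply, Function.update_idem, Function.update_self, mul_smul_comm,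
          (f1 q hq).2, Finset.smul_sum]
    · have hb' := hE b hb hbp
      have hlin := f1 b (Finset.mem_of_mem_erase hb)
      refine ⟨fun y u v => ?_, fun y c u => ?_⟩
      · simp only [ctx_apply, hcomm b hb', hval b hb', hlin.1, Finset.sum_add_distrib]
      · simp only [ctx_apply, hcomm b hb', hval b hb', hlin.2, Finset.smul_sum]
  · simp only [ctx_apply]
    have hpy := hy p hpE
    apply Finset.sum_congr rfl
    intro j _
    rw [hpy]
    apply f2
    intro b hb
    by_cases h2 : b = q
    · subst h2; simp only [Function.update_self]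
    · rw [Function.update_of_ne h2, Function.update_of_ne h2]
      by_cases h1 : b = p
      · subst h1; simp only [Function.update_self]
      · rw [Function.update_of_ne h1, Function.update_of_ne h1]
        exact hy b (Finset.mem_erase.mpr ⟨h2, hb⟩)
  · have hset : B.erase q = insert p (B \ {p, q}) := by
      ext x
      simp only [Finset.mem_erase, Finset.mem_insert, Finset.mem_sdiff, Finset.mem_singleton,
        not_or]
      constructor
      · rintro ⟨h1, h2⟩
        by_cases h3 : x = p
        · exact Or.inl h3
        · exact Or.inr ⟨h2, h3, h1⟩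
      · rintro (h1 | ⟨h1, h2, h3⟩)
        · rw [h1]; exact ⟨hpq, hp⟩
        · exact ⟨h3, h1⟩
    have key : ∀ j : Fin 7, ∑ b ∈ B \ {p, q},
        f (Function.update (Function.update (Function.update y b (V.Dr u w (y b))) p (V.e j)) q
          (V.e j * y p)) +
        f (Function.update (Function.update y p (V.e j)) q (V.e j * V.Dr u w (y p))) =
        V.Dr u w (f (Function.update (Function.update y p (V.e j)) q (V.e j * y p))) -
          (f (Function.update (Function.update y p (V.Dr u w (V.e j))) q (V.e j * y p)) +
           f (Function.update (Function.update y p (V.e j)) q (V.Dr u w (V.e j) * y p))) := by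
      intro j
      have e := f3 u w (Function.update (Function.update y p (V.e j)) q (V.e j * y p))
      rw [FunA_split hp hq hpq] at e
      rw [← e]
      have e1 : Function.update (Function.update (Function.update y p (V.e j)) q (V.e j * y p)) p
          (V.Dr u w (Function.update (Function.update y p (V.e j)) q (V.e j * y p) p)) =
          Function.update (Function.update y p (V.Dr u w (V.e j))) q (V.e j * y p) := by
        rw [Function.update_of_ne hpq, Function.update_self, Function.update_comm hpq.symm,
          Function.update_idem]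
      have e2 : Function.update (Function.update (Function.update y p (V.e j)) q (V.e j * y p)) q
          (V.Dr u w (Function.update (Function.update y p (V.e j)) q (V.e j * y p) q)) =
          Function.update (Function.update y p (V.e j)) q
            (V.Dr u w (V.e j) * y p + V.e j * V.Dr u w (y p)) := by
        rw [Function.update_self, Function.update_idem, V.Dr_mul]
      rw [e1, e2, (f1 q hq).1]
      have e3 : ∑ b ∈ B \ {p, q},
          f (Function.update (Function.update (Function.update y b (V.Dr u w (y b))) p (V.e j)) q
            (V.e j * y p)) =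
          ∑ b ∈ B \ {p, q},
            f (Function.update (Function.update (Function.update y p (V.e j)) q (V.e j * y p)) b
            (V.Dr u w (Function.update (Function.update y p (V.e j)) q (V.e j * y p) b))) := by
        apply Finset.sum_congr rfl
        intro b hb
        rw [hcomm b hb]
        simp only [Finset.mem_sdiff, Finset.mem_insert, Finset.mem_singleton, not_or] at hb
        rw [Function.update_of_ne hb.2.2, Function.update_of_ne hb.2.1]
      rw [e3]
      abel
    rw [hset, Finset.sum_insert (by simp)]
    simp only [ctx_apply, Function.update_idem, Function.update_self]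
    have h1 : ∑ b ∈ B \ {p, q}, ∑ j : Fin 7,
        f (Function.update (Function.update (Function.update y b (V.Dr u w (y b))) p (V.e j)) q
          (V.e j * Function.update y b (V.Dr u w (y b)) p)) =
        ∑ j : Fin 7, ∑ b ∈ B \ {p, q},
        f (Function.update (Function.update (Function.update y b (V.Dr u w (y b))) p (V.e j)) q
          (V.e j * y p)) := by
      rw [Finset.sum_comm]
      apply Finset.sum_congr rfl
      intro j _
      apply Finset.sum_congr rfl
      intro b hb
      rw [hval b hb]
    rw [h1, add_comm, ← Finset.sum_add_distrib, Finset.sum_congr rfl (fun j _ => key j),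
      Finset.sum_sub_distrib, V.Dr_sum,
      FunA_bil (fun a b => f (Function.update (Function.update y p a) q (b * y p))), sub_zero]
    · intro a a' b
      simp only [Function.update_comm hpq, (f1 p hp).1]
    · intro c a b
      simp only [Function.update_comm hpq, (f1 p hp).2]
    · intro a b b'
      simp only [add_mul, (f1 q hq).1]
    · intro c a b
      simp only [smul_mul_assoc, (f1 q hq).2]

end

end OctId
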