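import Pool.Agent.Work.MP_9b6dd6_al.Low

/-!
# Generation in degree (3,3)
-/

namespace OctId

open Finset

set_option linter.unusedSectionVars false

noncomputable section

variable {F : Type*} [Field F] [CharZero F]

/-- span of the `G ML` and `Ph ML` -/
def GM (F : Type*) [Field F] [CharZero F] (B : Finset ℕ) : Submodule F (Mal F) :=
  Submodule.span F ({u | ∃ p q h, p ∈ B ∧ q ∈ B ∧ p ≠ q ∧ h ∈ ML F xg (B \ {p, q}) ∧
      u = G (xg p) (xg q) h} ∪
    {u | ∃ p q r h, p ∈ B ∧ q ∈ B ∧ r ∈ B ∧ p ≠ q ∧ p ≠ r ∧ q ≠ r ∧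
      h ∈ ML F xg (B \ {p, q, r}) ∧ u = Ph (xg p) (xg q) (xg r) h})

theorem GenM33_G {C : Finset ℕ} {p q : ℕ} (hp : p ∉ C) (hq : q ∉ C) (hpq : p ≠ q) {h : Mal F}
    (hh : h ∈ ML F xg C) {B : Finset ℕ} (hB : insert p (insert q C) = B) :
    G (xg p) (xg q) h ∈ GM F B := by
  subst hB
  apply Submodule.subset_span
  left
  refine ⟨p, q, h, by simp, by simp, hpq, ?_, rfl⟩
  have e : (insert p (insert q C)) \ {p, q} = C := by
    ext w
    simp only [Finset.mem_sdiff, Finset.mem_insert, Finset.mem_singleton]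
    constructor
    · rintro ⟨h1, h2⟩
      tauto
    · intro h1
      exact ⟨Or.inr (Or.inr h1), fun h2 => h2.elim (fun e => hp (e ▸ h1)) (fun e => hq (e ▸ h1))⟩
  rw [e]
  exact hh

theorem GenM33_P {C : Finset ℕ} {p q r : ℕ} (hp : p ∉ C) (hq : q ∉ C) (hr : r ∉ C) (hpq : p ≠ q)
    (hpr : p ≠ r) (hqr : q ≠ r) {h : Mal F} (hh : h ∈ ML F xg C) {B : Finset ℕ}
    (hB : insert p (insert q (insert r C)) = B) :
    Ph (xg p) (xg q) (xg r) h ∈ GM F B := by
  subst hB
  apply Submodule.subset_span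
  right
  refine ⟨p, q, r, h, by simp, by simp, by simp, hpq, hpr, hqr, ?_, rfl⟩
  have e : (insert p (insert q (insert r C))) \ {p, q, r} = C := by
    ext w
    simp only [Finset.mem_sdiff, Finset.mem_insert, Finset.mem_singleton]
    constructor
    · rintro ⟨h1, h2⟩
      tauto
    · intro h1
      exact ⟨Or.inr (Or.inr (Or.inr h1)), fun h2 => h2.elim (fun e => hp (e ▸ h1))
        (fun h2 => h2.elim (fun e => hq (e ▸ h1)) (fun e => hr (e ▸ h1)))⟩
  rw [e]
  exact hh

theorem GenM33_e4 {A B C D : Finset ℕ} (h1 : Disjoint A B) (h2 : Disjoint A C)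
    (h3 : Disjoint A D) (h4 : Disjoint B C) (h5 : Disjoint B D) (h6 : Disjoint C D)
    {a b c d : Mal F} (ha : a ∈ ML F xg A) (hb : b ∈ ML F xg B) (hc : c ∈ ML F xg C)
    (hd : d ∈ ML F xg D) : e4 F a b c d ∈ ML F xg (A ∪ B ∪ C ∪ D) := by
  unfold e4
  have hab := oper_ML_mul h1 ha hb
  apply Submodule.sub_mem
  · have h := oper_ML_EE h6.symm h3.symm h2.symm h5.symm h4.symm h1 hd hc ha hb
    have e : D ∪ C ∪ A ∪ B = A ∪ B ∪ C ∪ D := by
      ext w; simp only [Finset.mem_union]; tauto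
    rw [e] at h
    exact h
  · apply Submodule.smul_mem
    apply Submodule.add_mem
    · have h := oper_ML_Dd (Finset.disjoint_union_right.2 ⟨h3.symm, h5.symm⟩) h6.symm
        (Finset.disjoint_union_left.2 ⟨h2, h4⟩) hd hab hc
      have e : D ∪ (A ∪ B) ∪ C = A ∪ B ∪ C ∪ D := by
        ext w; simp only [Finset.mem_union]; tauto
      rw [e] at h
      exact h
    · apply Submodule.smul_mem
      have h := oper_ML_Dd (Finset.disjoint_union_right.2 ⟨h2.symm, h4.symm⟩) h6
        (Finset.disjoint_union_left.2 ⟨h3, h5⟩) hc hab hd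
      have e : C ∪ (A ∪ B) ∪ D = A ∪ B ∪ C ∪ D := by
        ext w; simp only [Finset.mem_union]; tauto
      rw [e] at h
      exact h

/-- words with three letters -/
theorem GenM33_words {A : Finset ℕ} (hA : A.card = 3) {u : Mal F} (hu : u ∈ ML F xg A) :
    u ∈ Submodule.span F {v : Mal F | ∃ p q r, p ≠ q ∧ p ≠ r ∧ q ≠ r ∧ A = {p, q, r} ∧
      v = xg p * (xg q * xg r)} := by
  have hM := malAlg_Mal (F := F)
  have key1 : ∀ {C : Finset ℕ} {w : FreeMagma ℕ}, MW C w → C.card = 1 →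
      ∃ p, C = {p} ∧ w = FreeMagma.of p := by
    intro C w hw hC
    cases hw with
    | of i => exact ⟨i, rfl, rfl⟩
    | @mul C1 C2 u1 u2 h1 h2 h3 =>
      rw [Finset.card_union_of_disjoint h3] at hC
      have := Finset.card_pos.2 h1.nonempty
      have := Finset.card_pos.2 h2.nonempty
      omega
  have key2 : ∀ {C : Finset ℕ} {w : FreeMagma ℕ}, MW C w → C.card = 2 →
      ∃ p q, p ≠ q ∧ C = {p, q} ∧ w = FreeMagma.of p * FreeMagma.of q := by
    intro C w hw hC
    cases hw with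
    | of i => simp at hC
    | @mul C1 C2 u1 u2 h1 h2 h3 =>
      rw [Finset.card_union_of_disjoint h3] at hC
      have := Finset.card_pos.2 h1.nonempty
      have := Finset.card_pos.2 h2.nonempty
      obtain ⟨p, rfl, rfl⟩ := key1 h1 (by omega)
      obtain ⟨q, rfl, rfl⟩ := key1 h2 (by omega)
      exact ⟨p, q, by simpa using h3, rfl, rfl⟩
  refine ML_induction (p := fun u => u ∈ Submodule.span F {v : Mal F | ∃ p q r, p ≠ q ∧ p ≠ r ∧
    q ≠ r ∧ A = {p, q, r} ∧ v = xg p * (xg q * xg r)}) ?_ ?_ ?_ ?_ hu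
  · intro w hw
    cases hw with
    | of i => simp at hA
    | @mul C1 C2 u1 u2 h1 h2 h3 =>
      rw [Finset.card_union_of_disjoint h3] at hA
      have c1 := Finset.card_pos.2 h1.nonempty
      have c2 := Finset.card_pos.2 h2.nonempty
      by_cases hc : C1.card = 1
      · obtain ⟨p, rfl, rfl⟩ := key1 h1 hc
        obtain ⟨q, r, hqr, rfl, rfl⟩ := key2 h2 (by omega)
        apply Submodule.subset_span
        rw [Finset.disjoint_singleton_left] at h3
        simp only [Finset.mem_insert, Finset.mem_singleton, not_or] at h3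
        exact ⟨p, q, r, h3.1, h3.2, hqr, rfl, by rw [wv_mul, wv_mul, wv_of, wv_of, wv_of]⟩
      · obtain ⟨p, rfl, rfl⟩ := key1 h2 (by omega)
        obtain ⟨q, r, hqr, rfl, rfl⟩ := key2 h1 (by omega)
        rw [Finset.disjoint_singleton_right] at h3
        simp only [Finset.mem_insert, Finset.mem_singleton, not_or] at h3
        rw [wv_mul, wv_mul, wv_of, wv_of, wv_of, hM.anti]
        apply Submodule.neg_mem
        apply Submodule.subset_span
        refine ⟨p, q, r, h3.1, h3.2, hqr, ?_, rfl⟩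
        ext w
        simp only [Finset.mem_union, Finset.mem_insert, Finset.mem_singleton]
        tauto
  · exact Submodule.zero_mem _
  · intro a b ha hb
    exact Submodule.add_mem _ ha hb
  · intro c a ha
    exact Submodule.smul_mem _ c ha

/-- `D_{ab} c * v` -/
theorem GenM33_D {a b c : ℕ} (hab : a ≠ b) (hac : a ≠ c) (hbc : b ≠ c) {B : Finset ℕ}
    (hB : 1 ≤ B.card) (ha : a ∉ B) (hb : b ∉ B) (hc : c ∉ B) {v : Mal F} (hv : v ∈ ML F xg B)
    {S : Finset ℕ} (hS : {a, b, c} ∪ B = S) :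
    Dd (xg a) (xg b) (xg c) * v ∈ GM F S := by
  have hx : ∀ i : ℕ, xg i ∈ ML F (xg (F := F)) {i} := fun i => oper_ML_gen xg i
  have hcv : xg c * v ∈ ML F xg ({c} ∪ B) := oper_ML_mul (by simpa using hc) (hx c) hv
  have hbv : xg b * v ∈ ML F xg ({b} ∪ B) := oper_ML_mul (by simpa using hb) (hx b) hv
  have hav : xg a * v ∈ ML F xg ({a} ∪ B) := oper_ML_mul (by simpa using ha) (hx a) hv
  have hv' : ∀ w : Mal F, put c w v = v := by
    intro w
    have e : RF.sub (Function.update xg c w) v = RF.sub xg v := by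
      refine sub_congr hv fun i hi => ?_
      rw [Function.update_of_ne]
      rintro rfl
      exact hc hi
    have e2 : put c w v = RF.sub (Function.update xg c w) v := rfl
    rw [e2, e]
    exact RF.sub_id v
  have hput : ∀ w : Mal F, put c w (xg c * v) = w * v := by
    intro w
    rw [map_mul, hv', RF.sub_gen, Function.update_self]
  have h := SS hcv (t := c) (by
    rw [Finset.card_union_of_disjoint (by simpa using hc), Finset.card_singleton]
    omega) (by simp) (xg a) (xg b)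
  rw [hput, hput, hput] at h
  rw [h]
  subst hS
  apply Submodule.add_mem
  · apply Submodule.add_mem
    · apply Submodule.smul_mem
      refine GenM33_G ?_ ?_ hab hcv ?_
      · simp only [Finset.mem_union, Finset.mem_singleton, not_or]
        exact ⟨hac, ha⟩
      · simp only [Finset.mem_union, Finset.mem_singleton, not_or]
        exact ⟨hbc, hb⟩
      · ext w; simp only [Finset.mem_union, Finset.mem_insert, Finset.mem_singleton]; tauto
    · refine GenM33_G ?_ ?_ hac hbv ?_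
      · simp only [Finset.mem_union, Finset.mem_singleton, not_or]
        exact ⟨hab, ha⟩
      · simp only [Finset.mem_union, Finset.mem_singleton, not_or]
        exact ⟨hbc.symm, hc⟩
      · ext w; simp only [Finset.mem_union, Finset.mem_insert, Finset.mem_singleton]; tauto
  · refine GenM33_G ?_ ?_ hbc hav ?_
    · simp only [Finset.mem_union, Finset.mem_singleton, not_or]
      exact ⟨hab.symm, hb⟩
    · simp only [Finset.mem_union, Finset.mem_singleton, not_or]
      exact ⟨hac.symm, hc⟩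
    · ext w; simp only [Finset.mem_union, Finset.mem_insert, Finset.mem_singleton]; tauto

theorem GenM33_Jj {A B C : Finset ℕ} (h1 : Disjoint A B) (h2 : Disjoint A C)
    (h3 : Disjoint B C) {a b c : Mal F} (ha : a ∈ ML F xg A) (hb : b ∈ ML F xg B)
    (hc : c ∈ ML F xg C) : Jj a b c ∈ ML F xg (A ∪ B ∪ C) := by
  unfold Jj
  have e1 := oper_ML_mul (Finset.disjoint_union_left.2 ⟨h2, h3⟩) (oper_ML_mul h1 ha hb) hc
  have e2 := oper_ML_mul (Finset.disjoint_union_left.2 ⟨h1.symm, h2.symm⟩)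
    (oper_ML_mul h3 hb hc) ha
  have e3 := oper_ML_mul (Finset.disjoint_union_left.2 ⟨h3.symm, h1⟩)
    (oper_ML_mul h2.symm hc ha) hb
  have f2 : B ∪ C ∪ A = A ∪ B ∪ C := by
    ext w; simp only [Finset.mem_union]; tauto
  have f3 : C ∪ A ∪ B = A ∪ B ∪ C := by
    ext w; simp only [Finset.mem_union]; tauto
  rw [f2] at e2
  rw [f3] at e3
  exact Submodule.add_mem _ (Submodule.add_mem _ e1 e2) e3

theorem GenM33_Dh {A B C : Finset ℕ} (h1 : Disjoint A B) (h2 : Disjoint A C)
    (h3 : Disjoint B C) {a b c : Mal F} (ha : a ∈ ML F xg A) (hb : b ∈ ML F xg B)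
    (hc : c ∈ ML F xg C) : Dh F a b c ∈ ML F xg (A ∪ B ∪ C) := by
  unfold Dh
  have e1 := oper_ML_mul (Finset.disjoint_union_right.2 ⟨h3, h1.symm⟩) hb
    (oper_ML_mul h2.symm hc ha)
  have e2 := oper_ML_mul (Finset.disjoint_union_right.2 ⟨h1, h2⟩) ha (oper_ML_mul h3 hb hc)
  have e3 := oper_ML_mul (Finset.disjoint_union_right.2 ⟨h2.symm, h3.symm⟩) hc
    (oper_ML_mul h1 ha hb)
  have f1 : B ∪ (C ∪ A) = A ∪ B ∪ C := by
    ext w; simp only [Finset.mem_union]; tauto
  have f2 : A ∪ (B ∪ C) = A ∪ B ∪ C := by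
    ext w; simp only [Finset.mem_union]; tauto
  have f3 : C ∪ (A ∪ B) = A ∪ B ∪ C := by
    ext w; simp only [Finset.mem_union]; tauto
  rw [f1] at e1
  rw [f2] at e2
  rw [f3] at e3
  exact Submodule.smul_mem _ _ (Submodule.sub_mem _ (Submodule.add_mem _ e1 e2)
    (Submodule.smul_mem _ _ e3))

section six

variable {x y z p q r : ℕ} (N : [x, y, z, p, q, r].Nodup) {S : Finset ℕ}
  (hS : ({x, y, z, p, q, r} : Finset ℕ) = S)
include N hS

theorem GenM33_GD {C : Finset ℕ} (hC : C = {y, z, r}) {h : Mal F} (hh : h ∈ ML F xg C) :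
    G (xg x) (xg p * xg q) h ∈ GM F S := by
  subst hC
  have hc : 2 ≤ ({y, z, r} : Finset ℕ).card := by
    simp only [List.nodup_cons, List.mem_cons, List.not_mem_nil, or_false, not_or,
      List.nodup_nil, not_false_eq_true, and_true] at N
    rw [Finset.card_eq_three.mpr ⟨y, z, r, by tauto, by tauto, by tauto, rfl⟩]
    norm_num
  rw [G_symm _ _ (ML_le_M2 hc hh)]
  simp only [List.nodup_cons, List.mem_cons, List.not_mem_nil, or_false, not_or,
    List.nodup_nil, not_false_eq_true, and_true] at N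
  obtain ⟨⟨m1, m2, m3, m4, m5⟩, ⟨m6, m7, m8, m9⟩, ⟨m10, m11, m12⟩, ⟨m13, m14⟩, m15⟩ := N
  subst hS
  refine GenM33_P (C := {y, z, r}) ?_ ?_ ?_ m13 (Ne.symm m3) (Ne.symm m4) hh ?_
  · simp only [Finset.mem_insert, Finset.mem_singleton, not_or]
    exact ⟨Ne.symm m7, Ne.symm m10, m14⟩
  · simp only [Finset.mem_insert, Finset.mem_singleton, not_or]
    exact ⟨Ne.symm m8, Ne.symm m11, m15⟩
  · simp only [Finset.mem_insert, Finset.mem_singleton, not_or]
    exact ⟨m1, m2, m5⟩
  · ext w; simp only [Finset.mem_insert, Finset.mem_singleton]; tauto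

theorem GenM33_Ge {C : Finset ℕ} (hC : C = {y, z, p, q}) {h : Mal F} (hh : h ∈ ML F xg C) :
    G (xg x) (xg r) h ∈ GM F S := by
  subst hC
  simp only [List.nodup_cons, List.mem_cons, List.not_mem_nil, or_false, not_or,
    List.nodup_nil, not_false_eq_true, and_true] at N
  obtain ⟨⟨m1, m2, m3, m4, m5⟩, ⟨m6, m7, m8, m9⟩, ⟨m10, m11, m12⟩, ⟨m13, m14⟩, m15⟩ := N
  subst hS
  refine GenM33_G (C := {y, z, p, q}) ?_ ?_ m5 hh ?_
  · simp only [Finset.mem_insert, Finset.mem_singleton, not_or]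
    exact ⟨m1, m2, m3, m4⟩
  · simp only [Finset.mem_insert, Finset.mem_singleton, not_or]
    exact ⟨Ne.symm m9, Ne.symm m12, Ne.symm m14, Ne.symm m15⟩
  · ext w; simp only [Finset.mem_insert, Finset.mem_singleton]; tauto

theorem GenM33_T1 : G (xg x) (xg p * xg q) (Jj (xg y) (xg z) (xg r)) ∈ GM F S := by
  have N' := N
  simp only [List.nodup_cons, List.mem_cons, List.not_mem_nil, or_false, not_or,
    List.nodup_nil, not_false_eq_true, and_true] at N'
  obtain ⟨⟨m1, m2, m3, m4, m5⟩, ⟨m6, m7, m8, m9⟩, ⟨m10, m11, m12⟩, ⟨m13, m14⟩, m15⟩ := N'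
  have hx : ∀ i : ℕ, xg i ∈ ML F (xg (F := F)) {i} := fun i => oper_ML_gen xg i
  refine GenM33_GD N hS ?_ (GenM33_Jj (A := {y}) (B := {z}) (C := {r}) (by simpa using m6)
    (by simpa using m9) (by simpa using m12) (hx y) (hx z) (hx r))
  ext w; simp only [Finset.mem_union, Finset.mem_insert, Finset.mem_singleton]; tauto

theorem GenM33_T3 : G (xg x) (xg p * xg q) (Dh F (xg y) (xg z) (xg r)) ∈ GM F S := by
  have N' := N
  simp only [List.nodup_cons, List.mem_cons, List.not_mem_nil, or_false, not_or,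
    List.nodup_nil, not_false_eq_true, and_true] at N'
  obtain ⟨⟨m1, m2, m3, m4, m5⟩, ⟨m6, m7, m8, m9⟩, ⟨m10, m11, m12⟩, ⟨m13, m14⟩, m15⟩ := N'
  have hx : ∀ i : ℕ, xg i ∈ ML F (xg (F := F)) {i} := fun i => oper_ML_gen xg i
  refine GenM33_GD N hS ?_ (GenM33_Dh (A := {y}) (B := {z}) (C := {r}) (by simpa using m6)
    (by simpa using m9) (by simpa using m12) (hx y) (hx z) (hx r))
  ext w; simp only [Finset.mem_union, Finset.mem_insert, Finset.mem_singleton]; tauto

theorem GenM33_T2 : G (xg x) (xg r) (Jj (xg y) (xg z) (xg p * xg q)) ∈ GM F S := by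
  have N' := N
  simp only [List.nodup_cons, List.mem_cons, List.not_mem_nil, or_false, not_or,
    List.nodup_nil, not_false_eq_true, and_true] at N'
  obtain ⟨⟨m1, m2, m3, m4, m5⟩, ⟨m6, m7, m8, m9⟩, ⟨m10, m11, m12⟩, ⟨m13, m14⟩, m15⟩ := N'
  have hx : ∀ i : ℕ, xg i ∈ ML F (xg (F := F)) {i} := fun i => oper_ML_gen xg i
  have hpq := oper_ML_mul (C := {p}) (D := {q}) (by simpa using m13) (hx p) (hx q)
  refine GenM33_Ge N hS ?_ (GenM33_Jj (A := {y}) (B := {z}) (C := {p} ∪ {q}) (by simpa using m6)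
    (by simpa using ⟨m7, m8⟩) (by simpa using ⟨m10, m11⟩) (hx y) (hx z) hpq)
  ext w; simp only [Finset.mem_union, Finset.mem_insert, Finset.mem_singleton]; tauto

theorem GenM33_T4 : G (xg x) (xg r) (Dh F (xg y) (xg z) (xg p * xg q)) ∈ GM F S := by
  have N' := N
  simp only [List.nodup_cons, List.mem_cons, List.not_mem_nil, or_false, not_or,
    List.nodup_nil, not_false_eq_true, and_true] at N'
  obtain ⟨⟨m1, m2, m3, m4, m5⟩, ⟨m6, m7, m8, m9⟩, ⟨m10, m11, m12⟩, ⟨m13, m14⟩, m15⟩ := N'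
  have hx : ∀ i : ℕ, xg i ∈ ML F (xg (F := F)) {i} := fun i => oper_ML_gen xg i
  have hpq := oper_ML_mul (C := {p}) (D := {q}) (by simpa using m13) (hx p) (hx q)
  refine GenM33_Ge N hS ?_ (GenM33_Dh (A := {y}) (B := {z}) (C := {p} ∪ {q}) (by simpa using m6)
    (by simpa using ⟨m7, m8⟩) (by simpa using ⟨m10, m11⟩) (hx y) (hx z) hpq)
  ext w; simp only [Finset.mem_union, Finset.mem_insert, Finset.mem_singleton]; tauto

theorem GenM33_T5 : Ph (xg x) (xg y) (xg z) ((xg p * xg q) * xg r) ∈ GM F S := by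
  have N' := N
  simp only [List.nodup_cons, List.mem_cons, List.not_mem_nil, or_false, not_or,
    List.nodup_nil, not_false_eq_true, and_true] at N'
  obtain ⟨⟨m1, m2, m3, m4, m5⟩, ⟨m6, m7, m8, m9⟩, ⟨m10, m11, m12⟩, ⟨m13, m14⟩, m15⟩ := N'
  have hx : ∀ i : ℕ, xg i ∈ ML F (xg (F := F)) {i} := fun i => oper_ML_gen xg i
  have hpq := oper_ML_mul (C := {p}) (D := {q}) (by simpa using m13) (hx p) (hx q)
  have h := oper_ML_mul (C := {p} ∪ {q}) (D := {r}) (by simpa using ⟨Ne.symm m14, Ne.symm m15⟩) hpq (hx r)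
  subst hS
  refine GenM33_P (C := {p} ∪ {q} ∪ {r}) ?_ ?_ ?_ m1 m2 m6 h ?_
  · simp only [Finset.mem_union, Finset.mem_singleton, not_or]
    exact ⟨⟨m3, m4⟩, m5⟩
  · simp only [Finset.mem_union, Finset.mem_singleton, not_or]
    exact ⟨⟨m7, m8⟩, m9⟩
  · simp only [Finset.mem_union, Finset.mem_singleton, not_or]
    exact ⟨⟨m10, m11⟩, m12⟩
  · ext w; simp only [Finset.mem_union, Finset.mem_insert, Finset.mem_singleton]; tauto

theorem GenM33_T7 : Ph (xg x) (xg y) (xg r) (xg z * (xg p * xg q)) ∈ GM F S := by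
  have N' := N
  simp only [List.nodup_cons, List.mem_cons, List.not_mem_nil, or_false, not_or,
    List.nodup_nil, not_false_eq_true, and_true] at N'
  obtain ⟨⟨m1, m2, m3, m4, m5⟩, ⟨m6, m7, m8, m9⟩, ⟨m10, m11, m12⟩, ⟨m13, m14⟩, m15⟩ := N'
  have hx : ∀ i : ℕ, xg i ∈ ML F (xg (F := F)) {i} := fun i => oper_ML_gen xg i
  have hpq := oper_ML_mul (C := {p}) (D := {q}) (by simpa using m13) (hx p) (hx q)
  have h := oper_ML_mul (C := {z}) (D := {p} ∪ {q}) (by simpa using ⟨m10, m11⟩) (hx z) hpq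
  subst hS
  refine GenM33_P (C := {z} ∪ ({p} ∪ {q})) ?_ ?_ ?_ m1 m5 m9 h ?_
  · simp only [Finset.mem_union, Finset.mem_singleton, not_or]
    exact ⟨m2, m3, m4⟩
  · simp only [Finset.mem_union, Finset.mem_singleton, not_or]
    exact ⟨m6, m7, m8⟩
  · simp only [Finset.mem_union, Finset.mem_singleton, not_or]
    exact ⟨Ne.symm m12, Ne.symm m14, Ne.symm m15⟩
  · ext w; simp only [Finset.mem_union, Finset.mem_insert, Finset.mem_singleton]; tauto

variable (GM_mul : ∀ {A B : Finset ℕ}, 5 ≤ A.card → ∀ {u v : Mal F}, u ∈ GM F A →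
    v ∈ ML F xg B → Disjoint A B → u * v ∈ GM F (A ∪ B))
  (GM_five : ∀ {B : Finset ℕ}, B.card = 5 → ML F xg B ≤ GM F B)
include GM_mul GM_five

theorem GenM33_T6 : G (xg x * xg y) (xg p * xg q) (xg z * xg r) ∈ GM F S := by
  have N' := N
  simp only [List.nodup_cons, List.mem_cons, List.not_mem_nil, or_false, not_or,
    List.nodup_nil, not_false_eq_true, and_true] at N'
  obtain ⟨⟨m1, m2, m3, m4, m5⟩, ⟨m6, m7, m8, m9⟩, ⟨m10, m11, m12⟩, ⟨m13, m14⟩, m15⟩ := N'
  have hx : ∀ i : ℕ, xg i ∈ ML F (xg (F := F)) {i} := fun i => oper_ML_gen xg i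
  have hpq := oper_ML_mul (C := {p}) (D := {q}) (by simpa using m13) (hx p) (hx q)
  have h5 := GenM33_e4 (F := F) (A := {x}) (B := {y}) (C := {p} ∪ {q}) (D := {z})
    (by simpa using m1) (by simpa using ⟨m3, m4⟩) (by simpa using m2)
    (by simpa using ⟨m7, m8⟩) (by simpa using m6) (by simpa using ⟨m10, m11⟩)
    (hx x) (hx y) hpq (hx z)
  have hc : ({x} ∪ {y} ∪ ({p} ∪ {q}) ∪ {z} : Finset ℕ).card = 5 := by
    have e : ({x} ∪ {y} ∪ ({p} ∪ {q}) ∪ {z} : Finset ℕ) = [x, y, z, p, q].toFinset := by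
      ext w
      simp only [Finset.mem_union, Finset.mem_singleton, List.mem_toFinset, List.mem_cons,
        List.not_mem_nil, or_false]
      tauto
    rw [e, List.toFinset_card_of_nodup]
    · rfl
    · simp only [List.nodup_cons, List.mem_cons, List.not_mem_nil, or_false, not_or,
        List.nodup_nil, not_false_eq_true, and_true]
      tauto
  have h6 := GM_mul hc.ge (GM_five hc h5) (hx r) (by
    simp only [Finset.disjoint_singleton_right, Finset.mem_union, Finset.mem_singleton, not_or]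
    exact ⟨⟨⟨Ne.symm m5, Ne.symm m9⟩, Ne.symm m14, Ne.symm m15⟩, Ne.symm m12⟩)
  rw [e4_mul] at h6
  have e : ({x} ∪ {y} ∪ ({p} ∪ {q}) ∪ {z} : Finset ℕ) ∪ {r} = S := by
    rw [← hS]
    ext w; simp only [Finset.mem_union, Finset.mem_insert, Finset.mem_singleton]; tauto
  rw [e] at h6
  exact h6

theorem GenM33_T8 : G (xg x * (xg p * xg q)) (xg r) (xg y * xg z) ∈ GM F S := by
  have N' := N
  simp only [List.nodup_cons, List.mem_cons, List.not_mem_nil, or_false, not_or,
    List.nodup_nil, not_false_eq_true, and_true] at N'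
  obtain ⟨⟨m1, m2, m3, m4, m5⟩, ⟨m6, m7, m8, m9⟩, ⟨m10, m11, m12⟩, ⟨m13, m14⟩, m15⟩ := N'
  have hx : ∀ i : ℕ, xg i ∈ ML F (xg (F := F)) {i} := fun i => oper_ML_gen xg i
  have hpq := oper_ML_mul (C := {p}) (D := {q}) (by simpa using m13) (hx p) (hx q)
  have h5 := GenM33_e4 (F := F) (A := {x}) (B := {p} ∪ {q}) (C := {r}) (D := {y})
    (by simpa using ⟨m3, m4⟩) (by simpa using m5) (by simpa using m1)
    (by simpa using ⟨Ne.symm m14, Ne.symm m15⟩) (by simpa using ⟨m7, m8⟩)
    (by simpa using Ne.symm m9) (hx x) hpq (hx r) (hx y)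
  have hc : ({x} ∪ ({p} ∪ {q}) ∪ {r} ∪ {y} : Finset ℕ).card = 5 := by
    have e : ({x} ∪ ({p} ∪ {q}) ∪ {r} ∪ {y} : Finset ℕ) = [x, y, p, q, r].toFinset := by
      ext w
      simp only [Finset.mem_union, Finset.mem_singleton, List.mem_toFinset, List.mem_cons,
        List.not_mem_nil, or_false]
      tauto
    rw [e, List.toFinset_card_of_nodup]
    · rfl
    · simp only [List.nodup_cons, List.mem_cons, List.not_mem_nil, or_false, not_or,
        List.nodup_nil, not_false_eq_true, and_true]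
      tauto
  have h6 := GM_mul hc.ge (GM_five hc h5) (hx z) (by
    simp only [Finset.disjoint_singleton_right, Finset.mem_union, Finset.mem_singleton, not_or]
    exact ⟨⟨⟨Ne.symm m2, m10, m11⟩, m12⟩, Ne.symm m6⟩)
  rw [e4_mul] at h6
  have e : ({x} ∪ ({p} ∪ {q}) ∪ {r} ∪ {y} : Finset ℕ) ∪ {z} = S := by
    rw [← hS]
    ext w; simp only [Finset.mem_union, Finset.mem_insert, Finset.mem_singleton]; tauto
  rw [e] at h6
  exact h6

theorem GenM33_J : Jj (xg x) (xg y) (xg z) * ((xg p * xg q) * xg r) ∈ GM F S := by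
  have N2 : [y, z, x, p, q, r].Nodup := by
    simp only [List.nodup_cons, List.mem_cons, List.not_mem_nil, or_false, not_or,
      List.nodup_nil, not_false_eq_true, and_true] at N ⊢
    obtain ⟨⟨m1, m2, m3, m4, m5⟩, ⟨m6, m7, m8, m9⟩, ⟨m10, m11, m12⟩, ⟨m13, m14⟩, m15⟩ := N
    exact ⟨⟨m6, Ne.symm m1, m7, m8, m9⟩, ⟨Ne.symm m2, m10, m11, m12⟩, ⟨m3, m4, m5⟩, ⟨m13, m14⟩,
      m15⟩
  have N3 : [z, x, y, p, q, r].Nodup := by
    simp only [List.nodup_cons, List.mem_cons, List.not_mem_nil, or_false, not_or,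
      List.nodup_nil, not_false_eq_true, and_true] at N ⊢
    obtain ⟨⟨m1, m2, m3, m4, m5⟩, ⟨m6, m7, m8, m9⟩, ⟨m10, m11, m12⟩, ⟨m13, m14⟩, m15⟩ := N
    exact ⟨⟨Ne.symm m2, Ne.symm m6, m10, m11, m12⟩, ⟨m1, m3, m4, m5⟩, ⟨m7, m8, m9⟩, ⟨m13, m14⟩,
      m15⟩
  have S2 : ({y, z, x, p, q, r} : Finset ℕ) = S := by
    rw [← hS]; ext w; simp only [Finset.mem_insert, Finset.mem_singleton]; tauto
  have S3 : ({z, x, y, p, q, r} : Finset ℕ) = S := by
    rw [← hS]; ext w; simp only [Finset.mem_insert, Finset.mem_singleton]; tauto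
  rw [cert_S10 (malAlg_Mal (F := F)) G G_mul]
  refine Submodule.sub_mem _ (Submodule.sub_mem _ (Submodule.add_mem _ (Submodule.add_mem _
    (Submodule.neg_mem _ (Submodule.add_mem _ (Submodule.add_mem _ (Submodule.sub_mem _ ?_ ?_)
      (Submodule.sub_mem _ ?_ ?_)) (Submodule.sub_mem _ ?_ ?_)))
    (Submodule.smul_mem _ _ (Submodule.add_mem _ (Submodule.add_mem _ (Submodule.sub_mem _ ?_ ?_)
      (Submodule.sub_mem _ ?_ ?_)) (Submodule.sub_mem _ ?_ ?_))))
    (Submodule.smul_mem _ _ ?_))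
    (Submodule.smul_mem _ _ (Submodule.add_mem _ (Submodule.add_mem _ (Submodule.sub_mem _ ?_ ?_)
      (Submodule.sub_mem _ ?_ ?_)) (Submodule.sub_mem _ ?_ ?_))))
    (Submodule.smul_mem _ _ (Submodule.add_mem _ (Submodule.add_mem _ ?_ ?_) ?_))
  · exact GenM33_T1 N hS
  · exact GenM33_T2 N hS
  · exact GenM33_T1 N2 S2
  · exact GenM33_T2 N2 S2
  · exact GenM33_T1 N3 S3
  · exact GenM33_T2 N3 S3
  · exact GenM33_T3 N hS
  · exact GenM33_T4 N hS
  · exact GenM33_T3 N2 S2
  · exact GenM33_T4 N2 S2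
  · exact GenM33_T3 N3 S3
  · exact GenM33_T4 N3 S3
  · exact GenM33_T5 N hS
  · exact GenM33_T6 N hS GM_mul GM_five
  · exact GenM33_T7 N hS
  · exact GenM33_T6 N2 S2 GM_mul GM_five
  · exact GenM33_T7 N2 S2
  · exact GenM33_T6 N3 S3 GM_mul GM_five
  · exact GenM33_T7 N3 S3
  · exact GenM33_T8 N hS GM_mul GM_five
  · exact GenM33_T8 N2 S2 GM_mul GM_five
  · exact GenM33_T8 N3 S3 GM_mul GM_five

end six

/-- degrees (3,3), given `GM_mul` and `GM_five` -/
theorem GenM33_main
    (GM_mul : ∀ {A B : Finset ℕ}, 5 ≤ A.card → ∀ {u v : Mal F}, u ∈ GM F A →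
      v ∈ ML F xg B → Disjoint A B → u * v ∈ GM F (A ∪ B))
    (GM_five : ∀ {B : Finset ℕ}, B.card = 5 → ML F xg B ≤ GM F B)
    {A B : Finset ℕ} (hA : A.card = 3) (hB : B.card = 3) {u v : Mal F}
    (hu : u ∈ ML F xg A) (hv : v ∈ ML F xg B) (h : Disjoint A B) : u * v ∈ GM F (A ∪ B) := by
  have hM := malAlg_Mal (F := F)
  have hu' := GenM33_words hA hu
  refine Submodule.span_induction (p := fun u _ => u * v ∈ GM F (A ∪ B)) ?_ ?_ ?_ ?_ hu'
  · rintro _ ⟨a, b, c, hab, hac, hbc, rfl, rfl⟩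
    have e : (xg a * (xg b * xg c) : Mal F) = (1 / 3 : F) • (-Jj (xg a) (xg b) (xg c)
        + Dd (xg a) (xg b) (xg c) - Dd (xg c) (xg a) (xg b)) := by
      unfold Jj Dd
      rw [hM.anti (xg a * xg b) (xg c), hM.anti (xg b * xg c) (xg a), hM.anti (xg c * xg a) (xg b),
        hM.anti (xg a) (xg c), hM.anti (xg c) (xg b)]
      simp only [mul_neg]
      module
    rw [e, smul_mul_assoc, sub_mul, add_mul, neg_mul]
    apply Submodule.smul_mem
    have hd : ∀ w ∈ ({a, b, c} : Finset ℕ), w ∉ B := fun w hw => Finset.disjoint_left.1 h hw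
    have ha := hd a (by simp)
    have hb := hd b (by simp)
    have hc := hd c (by simp)
    apply Submodule.sub_mem
    · apply Submodule.add_mem
      · apply Submodule.neg_mem
        have hv' := GenM33_words hB hv
        refine Submodule.span_induction
          (p := fun v _ => Jj (xg a) (xg b) (xg c) * v ∈ GM F ({a, b, c} ∪ B)) ?_ ?_ ?_ ?_ hv'
        · rintro _ ⟨r, p, q, hrp, hrq, hpq, rfl, rfl⟩
          rw [hM.anti (xg r), mul_neg]
          apply Submodule.neg_mem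
          simp only [Finset.mem_insert, Finset.mem_singleton, not_or] at ha hb hc
          refine GenM33_J ?_ ?_ GM_mul GM_five
          · simp only [List.nodup_cons, List.mem_cons, List.not_mem_nil, or_false, not_or,
              List.nodup_nil, not_false_eq_true, and_true]
            exact ⟨⟨hab, hac, ha.2.1, ha.2.2, ha.1⟩, ⟨hbc, hb.2.1, hb.2.2, hb.1⟩,
              ⟨hc.2.1, hc.2.2, hc.1⟩, ⟨hpq, hrp.symm⟩, hrq.symm⟩
          · ext w; simp only [Finset.mem_union, Finset.mem_insert, Finset.mem_singleton]; tauto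
        · rw [mul_zero]; exact Submodule.zero_mem _
        · intro s t _ _ hs ht
          rw [mul_add]; exact Submodule.add_mem _ hs ht
        · intro k s _ hs
          rw [mul_smul_comm]; exact Submodule.smul_mem _ k hs
      · exact GenM33_D hab hac hbc (by omega) ha hb hc hv rfl
    · refine GenM33_D hac.symm hbc.symm hab (by omega) hc ha hb hv ?_
      ext w; simp only [Finset.mem_union, Finset.mem_insert, Finset.mem_singleton]; tauto
  · rw [zero_mul]; exact Submodule.zero_mem _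
  · intro s t _ _ hs ht
    rw [add_mul]; exact Submodule.add_mem _ hs ht
  · intro k s _ hs
    rw [smul_mul_assoc]; exact Submodule.smul_mem _ k hs

end

end OctId
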