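import Pool.Agent.Work.MP_9b6dd6_al.Cas
import Pool.Agent.Work.MP_9b6dd6_al.DD

/-!
# Generation of the spaces `W B`
-/

namespace OctId

open Finset

set_option linter.unusedSectionVars false

noncomputable section

variable {F : Type*} [Field F] [CharZero F]

/-- renaming as an action -/
def renAct (F : Type*) [Field F] : Equiv.Perm ℕ →* Module.End F (Fn F) where
  toFun σ := ren σ
  map_one' := by ext; rfl
  map_mul' σ τ := by ext; rfl

/-- consequence of the Casimir identity and of diagonal dominance: `W B` is contained in every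
stable subspace containing all `g_pq W` and `c_pq W` -/
theorem W_le_of {B : Finset ℕ} (hB : 2 ≤ B.card) (G : Submodule F (Fn F))
    (hG : ∀ σ : Equiv.Perm ℕ, (∀ b, b ∉ B → σ b = b) → ∀ g ∈ G, ren σ g ∈ G)
    (h1 : ∀ p ∈ B, ∀ q ∈ B, p ≠ q → ∀ h ∈ W F (B \ {p, q}), gm p q h ∈ G)
    (h2 : ∀ p ∈ B, ∀ q ∈ B, p ≠ q → ∀ h ∈ W F (B.erase q), cp p q h ∈ G) : W F B ≤ G := by
  intro f hf
  refine dd_sub (F := F) (renAct F) B hB G hG f ?_
  have hc := casimir hf
  have h3 : ∑ e ∈ B.offDiag, (f + (renAct F) (Equiv.swap e.1 e.2) f)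
      + (12 * ((B.card : F) - 1)) • f =
      ∑ e ∈ B.offDiag, ((2 : F) • gm e.1 e.2 (ctr e.1 e.2 f) - cp e.1 e.2 (ctx e.1 e.2 f)) := by
    have h4 : ∑ e ∈ B.offDiag, (f + ren (Equiv.swap e.1 e.2) f -
        (2 : F) • gm e.1 e.2 (ctr e.1 e.2 f) + cp e.1 e.2 (ctx e.1 e.2 f)) =
        ∑ e ∈ B.offDiag, (f + ren (Equiv.swap e.1 e.2) f) -
        ∑ e ∈ B.offDiag, ((2 : F) • gm e.1 e.2 (ctr e.1 e.2 f) -
          cp e.1 e.2 (ctx e.1 e.2 f)) := by
      rw [← Finset.sum_sub_distrib]
      refine Finset.sum_congr rfl fun e _ => ?_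
      abel
    rw [h4] at hc
    have h5 : ∑ e ∈ B.offDiag, (f + ren (Equiv.swap e.1 e.2) f) =
        (-(12 * ((B.card : F) - 1))) • f + ∑ e ∈ B.offDiag,
          ((2 : F) • gm e.1 e.2 (ctr e.1 e.2 f) - cp e.1 e.2 (ctx e.1 e.2 f)) :=
      sub_eq_iff_eq_add.1 hc
    have h6 : ∑ e ∈ B.offDiag, (f + (renAct F) (Equiv.swap e.1 e.2) f) =
        ∑ e ∈ B.offDiag, (f + ren (Equiv.swap e.1 e.2) f) := rfl
    rw [h6, h5, neg_smul]
    abel
  rw [h3]
  refine Submodule.sum_mem _ fun e he => ?_
  rw [Finset.mem_offDiag] at he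
  obtain ⟨he1, he2, hne⟩ := he
  exact Submodule.sub_mem _
    (Submodule.smul_mem _ _ (h1 e.1 he1 e.2 he2 hne _ (ctr_mem hf he1 he2 hne)))
    (h2 e.1 he1 e.2 he2 hne _ (ctx_mem hf he1 he2 hne))

theorem W_empty {f : Fn F} (hf : f ∈ W F ∅) : f = 0 := by
  funext y
  have h := casimir_value hf y
  rw [Finset.sum_empty] at h
  rcases smul_eq_zero.1 h.symm with h1 | h1
  · norm_num at h1
  · exact h1

theorem GenW_Dr (z e a : V F) : V.Dr z e a =
    (2 * V.ip a e) • z - V.ip z e • a - V.ip z a • e - z * (e * a) := by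
  rw [V.Dr, V.mul_anti (z * a) e, eq_sub_of_add_eq (V.mul_mul e z a), V.ip_comm e a,
    V.ip_comm e z]
  module

theorem W_one {i : ℕ} {f : Fn F} (hf : f ∈ W F {i}) : ∃ c : F, f = fun y => c • y i := by
  have hlin := W_lin hf (Finset.mem_singleton_self i)
  have hdep : ∀ y y' : ℕ → V F, y i = y' i → f y = f y' := by
    intro y y' h
    apply W_dep hf
    intro b hb
    rw [Finset.mem_singleton] at hb
    rw [hb, h]
  -- the linear map
  set L : V F → V F := fun z => f (fun _ => z) with hL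
  have hLf : ∀ y, f y = L (y i) := fun y => hdep y _ rfl
  have hLu : ∀ (y : ℕ → V F) (z : V F), f (Function.update y i z) = L z := by
    intro y z
    rw [hLf, Function.update_self]
  have hLsum : ∀ c : Fin 7 → F, ∑ j : Fin 7, c j • L (V.e j) = L (∑ j, c j • V.e j) := by
    intro c
    have := Cas_sum hlin Finset.univ c (fun j => V.e j) (fun _ => 0)
    simpa only [hLu] using this
  -- the vector `sum e_j L e_j` vanishes
  have hv : ∑ j : Fin 7, V.e j * L (V.e j) = 0 := by
    have hne : i + 1 ≠ i := by omega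
    have hk : (fun y : ℕ → V F => y (i + 1)) * f ∈ W F ({i + 1} ∪ {i}) :=
      W_mul (W_single (i + 1)) hf (by simp)
    have hc := ctr_mem hk (p := i + 1) (q := i) (by simp) (by simp) hne
    have he : (({i + 1} ∪ {i} : Finset ℕ) \ {i + 1, i}) = ∅ := by
      rw [Finset.sdiff_eq_empty_iff_subset]
      intro x hx
      simpa using hx
    rw [he] at hc
    have h0 := congrFun (W_empty hc) (fun _ => 0)
    rw [ctr_apply, Pi.zero_apply] at h0
    rw [← h0]
    refine Finset.sum_congr rfl fun j _ => ?_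
    rw [Pi.mul_apply, hLu, Function.update_of_ne hne, Function.update_self]
  set T : F := ∑ j : Fin 7, V.ip (L (V.e j)) (V.e j) with hT
  have key : ∀ z t : V F, 13 * V.ip (L z) t + V.ip z (L t) = 2 * T * V.ip z t := by
    intro z t
    have h := casimir_value hf (fun _ => z)
    rw [Finset.sum_singleton] at h
    simp only [hLu] at h
    have h1 := congrArg (fun v => V.ip v t) h
    simp only [V.ip_sum_left, V.ip_smul_left] at h1
    have h2 : ∀ j : Fin 7, V.ip (V.Dr z (V.e j) (L (V.e j))) t =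
        2 * V.ip (L (V.e j)) (V.e j) * V.ip z t - V.ip z (V.e j) * V.ip (L (V.e j)) t
          - V.ip z (L (V.e j)) * V.ip t (V.e j) - V.ip (z * (V.e j * L (V.e j))) t := by
      intro j
      rw [GenW_Dr, V.ip_sub_left, V.ip_sub_left, V.ip_sub_left, V.ip_smul_left, V.ip_smul_left,
        V.ip_smul_left, V.ip_comm (V.e j) t]
    rw [Finset.sum_congr rfl fun j _ => h2 j, Finset.sum_sub_distrib, Finset.sum_sub_distrib,
      Finset.sum_sub_distrib] at h1
    have h3 : ∑ j : Fin 7, 2 * V.ip (L (V.e j)) (V.e j) * V.ip z t = 2 * T * V.ip z t := by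
      rw [hT, Finset.mul_sum, Finset.sum_mul]
    have h4 : ∑ j : Fin 7, V.ip z (V.e j) * V.ip (L (V.e j)) t = V.ip (L z) t := by
      have h5 := hLsum (fun j => V.ip z (V.e j))
      rw [V.sum_ip_e] at h5
      rw [← h5, V.ip_sum_left]
      exact Finset.sum_congr rfl fun j _ => (V.ip_smul_left _ _ _).symm
    have h6 : ∑ j : Fin 7, V.ip z (L (V.e j)) * V.ip t (V.e j) = V.ip z (L t) := by
      have h5 := hLsum (fun j => V.ip t (V.e j))
      rw [V.sum_ip_e] at h5
      rw [← h5, V.ip_sum_right]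
      refine Finset.sum_congr rfl fun j _ => ?_
      rw [V.ip_smul_right, mul_comm]
    have h7 : ∑ j : Fin 7, V.ip (z * (V.e j * L (V.e j))) t = 0 := by
      rw [← V.ip_sum_left, ← Finset.mul_sum, hv, mul_zero, V.ip_zero_left]
    rw [h3, h4, h6, h7] at h1
    have h8 : V.ip (f fun _ => z) t = V.ip (L z) t := rfl
    rw [h8] at h1
    linear_combination -h1
  refine ⟨T / 7, ?_⟩
  funext y
  rw [hLf]
  apply V.ext_ip
  intro t
  have h1 := key (y i) t
  have h2 := key t (y i)
  rw [V.ip_comm (L t) (y i), V.ip_comm t (L (y i)), V.ip_comm t (y i)] at h2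
  rw [V.ip_smul_left]
  have h3 : (168 : F) * V.ip (L (y i)) t = 168 * (T / 7 * V.ip (y i) t) := by
    linear_combination 13 * h1 - h2
  exact mul_left_cancel₀ (by norm_num) h3

theorem W_two {p q : ℕ} (hpq : p ≠ q) {f : Fn F} (hf : f ∈ W F {p, q}) :
    ∃ c : F, f = fun y => c • (y p * y q) := by
  set G : Submodule F (Fn F) := Submodule.span F {fun y => y p * y q} with hGdef
  have hmem : ∀ a b : ℕ, a ∈ ({p, q} : Finset ℕ) → b ∈ ({p, q} : Finset ℕ) → a ≠ b →
      (fun y : ℕ → V F => y a * y b) ∈ G := by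
    intro a b ha hb hab
    simp only [Finset.mem_insert, Finset.mem_singleton] at ha hb
    rcases ha with rfl | rfl <;> rcases hb with rfl | rfl
    · exact absurd rfl hab
    · exact Submodule.subset_span rfl
    · have h1 : (fun y : ℕ → V F => y a * y b) = (-1 : F) • fun y => y b * y a := by
        funext y
        rw [Pi.smul_apply, V.mul_anti (y a) (y b)]
        module
      rw [h1]
      exact Submodule.smul_mem _ _ (Submodule.subset_span rfl)
    · exact absurd rfl hab
  have hle : W F {p, q} ≤ G := by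
    refine W_le_of (by rw [Finset.card_pair hpq]) G ?_ ?_ ?_
    · intro σ hσ g hg
      obtain ⟨c, rfl⟩ := Submodule.mem_span_singleton.1 hg
      rw [map_smul]
      refine Submodule.smul_mem _ _ ?_
      have hσ' : ∀ a ∈ ({p, q} : Finset ℕ), σ a ∈ ({p, q} : Finset ℕ) := by
        intro a ha
        by_contra hcon
        have h1 := hσ _ hcon
        have h2 := σ.injective h1
        rw [h2] at hcon
        exact hcon ha
      exact hmem (σ p) (σ q) (hσ' p (by simp)) (hσ' q (by simp)) (fun h => hpq (σ.injective h))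
    · intro a ha b hb hab h hh
      have he : (({p, q} : Finset ℕ) \ {a, b}) = ∅ := by
        rw [Finset.sdiff_eq_empty_iff_subset]
        simp only [Finset.mem_insert, Finset.mem_singleton] at ha hb
        intro x hx
        simp only [Finset.mem_insert, Finset.mem_singleton] at hx ⊢
        omega
      rw [he] at hh
      rw [W_empty hh, map_zero]
      exact Submodule.zero_mem _
    · intro a ha b hb hab h hh
      have he : (({p, q} : Finset ℕ).erase b) = {a} := by
        simp only [Finset.mem_insert, Finset.mem_singleton] at ha hb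
        ext x
        simp only [Finset.mem_erase, Finset.mem_insert, Finset.mem_singleton]
        omega
      rw [he] at hh
      obtain ⟨c, rfl⟩ := W_one hh
      have h1 : cp a b (fun y : ℕ → V F => c • y a) = c • fun y => y a * y b := by
        funext y
        rw [cp_apply, Pi.smul_apply, Function.update_self]
      rw [h1]
      exact Submodule.smul_mem _ _ (hmem a b ha hb hab)
  obtain ⟨c, hc⟩ := Submodule.mem_span_singleton.1 (hle hf)
  exact ⟨c, by rw [← hc]; rfl⟩

/-- the explicit space of three letters -/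
def GenW_T (F : Type*) [Field F] (p q r : ℕ) : Submodule F (Fn F) where
  carrier := {f | ∃ a b c d : F, f = fun y =>
      a • V.ip (y q) (y r) • y p + b • V.ip (y p) (y r) • y q + c • V.ip (y p) (y q) • y r
      + d • (y p * (y q * y r))}
  add_mem' := by
    rintro f g ⟨a, b, c, d, rfl⟩ ⟨a', b', c', d', rfl⟩
    refine ⟨a + a', b + b', c + c', d + d', ?_⟩
    funext y
    simp only [Pi.add_apply]
    module
  zero_mem' := by
    refine ⟨0, 0, 0, 0, ?_⟩
    funext y
    simp only [Pi.zero_apply]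
    module
  smul_mem' := by
    rintro x f ⟨a, b, c, d, rfl⟩
    refine ⟨x * a, x * b, x * c, x * d, ?_⟩
    funext y
    simp only [Pi.smul_apply]
    module

theorem GenW_T_mem {p q r : ℕ} (hpq : p ≠ q) (hpr : p ≠ r) (hqr : q ≠ r) {a b c : ℕ}
    (ha : a ∈ ({p, q, r} : Finset ℕ)) (hb : b ∈ ({p, q, r} : Finset ℕ))
    (hc : c ∈ ({p, q, r} : Finset ℕ)) (hab : a ≠ b) (hac : a ≠ c) (hbc : b ≠ c) :
    (fun y : ℕ → V F => V.ip (y a) (y b) • y c) ∈ GenW_T F p q r ∧
    (fun y : ℕ → V F => y a * (y b * y c)) ∈ GenW_T F p q r := by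
  simp only [Finset.mem_insert, Finset.mem_singleton] at ha hb hc
  rcases ha with rfl | rfl | rfl <;> rcases hb with rfl | rfl | rfl <;>
    rcases hc with rfl | rfl | rfl
  all_goals first
    | exact absurd rfl hab
    | exact absurd rfl hac
    | exact absurd rfl hbc
    | skip
  · -- p q r
    refine ⟨⟨0, 0, 1, 0, ?_⟩, ⟨0, 0, 0, 1, ?_⟩⟩
    · funext y; module
    · funext y; module
  · -- p r q
    refine ⟨⟨0, 1, 0, 0, ?_⟩, ⟨0, 0, 0, -1, ?_⟩⟩
    · funext y; module
    · funext y
      rw [V.mul_anti (y b) (y c), mul_neg]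
      module
  · -- q p r
    refine ⟨⟨0, 0, 1, 0, ?_⟩, ⟨1, 1, -2, -1, ?_⟩⟩
    · funext y; rw [V.ip_comm (y a) (y b)]; module
    · funext y
      rw [eq_sub_of_add_eq (V.mul_mul (y a) (y b) (y c)), V.ip_comm (y a) (y b)]
      module
  · -- q r p
    refine ⟨⟨1, 0, 0, 0, ?_⟩, ⟨-1, -1, 2, 1, ?_⟩⟩
    · funext y; module
    · funext y
      rw [V.mul_anti (y b) (y c), mul_neg, eq_sub_of_add_eq (V.mul_mul (y a) (y c) (y b)),
        V.ip_comm (y a) (y c)]
      module
  · -- r p q
    refine ⟨⟨0, 1, 0, 0, ?_⟩, ⟨1, -2, 1, 1, ?_⟩⟩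
    · funext y; rw [V.ip_comm (y a) (y b)]; module
    · funext y
      rw [eq_sub_of_add_eq (V.mul_mul (y a) (y b) (y c)), V.mul_anti (y a) (y c), mul_neg,
        V.ip_comm (y a) (y c), V.ip_comm (y a) (y b)]
      module
  · -- r q p
    refine ⟨⟨1, 0, 0, 0, ?_⟩, ⟨-1, 2, -1, -1, ?_⟩⟩
    · funext y; rw [V.ip_comm (y a) (y b)]; module
    · funext y
      rw [V.mul_anti (y b) (y c), mul_neg, eq_sub_of_add_eq (V.mul_mul (y a) (y c) (y b)),
        V.mul_anti (y a) (y b), mul_neg, V.ip_comm (y a) (y c), V.ip_comm (y a) (y b)]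
      module

theorem W_three {p q r : ℕ} (hpq : p ≠ q) (hpr : p ≠ r) (hqr : q ≠ r) {f : Fn F}
    (hf : f ∈ W F {p, q, r}) : ∃ a b c d : F, f = fun y =>
      a • V.ip (y q) (y r) • y p + b • V.ip (y p) (y r) • y q + c • V.ip (y p) (y q) • y r
      + d • (y p * (y q * y r)) := by
  have hcard : ({p, q, r} : Finset ℕ).card = 3 := by
    rw [Finset.card_eq_three]
    exact ⟨p, q, r, hpq, hpr, hqr, rfl⟩
  have hle : W F {p, q, r} ≤ GenW_T F p q r := by
    refine W_le_of (by rw [hcard]; norm_num) _ ?_ ?_ ?_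
    · intro σ hσ g hg
      obtain ⟨a, b, c, d, rfl⟩ := hg
      have hσ' : ∀ a ∈ ({p, q, r} : Finset ℕ), σ a ∈ ({p, q, r} : Finset ℕ) := by
        intro a ha
        by_contra hcon
        have h1 := hσ _ hcon
        have h2 := σ.injective h1
        rw [h2] at hcon
        exact hcon ha
      have hp := hσ' p (by simp)
      have hq := hσ' q (by simp)
      have hr := hσ' r (by simp)
      have npq : σ p ≠ σ q := fun h => hpq (σ.injective h)
      have npr : σ p ≠ σ r := fun h => hpr (σ.injective h)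
      have nqr : σ q ≠ σ r := fun h => hqr (σ.injective h)
      have h1 := (GenW_T_mem (F := F) hpq hpr hqr hq hr hp nqr npq.symm npr.symm).1
      have h2 := (GenW_T_mem (F := F) hpq hpr hqr hp hr hq npr npq nqr.symm).1
      have h3 := GenW_T_mem (F := F) hpq hpr hqr hp hq hr npq npr nqr
      exact Submodule.add_mem _ (Submodule.add_mem _ (Submodule.add_mem _
        (Submodule.smul_mem _ a h1) (Submodule.smul_mem _ b h2)) (Submodule.smul_mem _ c h3.1))
        (Submodule.smul_mem _ d h3.2)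
    · intro a ha b hb hab h hh
      obtain ⟨c, hc, hac, hbc, he⟩ : ∃ c ∈ ({p, q, r} : Finset ℕ), a ≠ c ∧ b ≠ c ∧
          (({p, q, r} : Finset ℕ) \ {a, b}) = {c} := by
        have h1 : (({p, q, r} : Finset ℕ) \ {a, b}).card = 1 := by
          rw [Finset.card_sdiff_of_subset, hcard, Finset.card_pair hab]
          intro x hx
          simp only [Finset.mem_insert, Finset.mem_singleton] at hx
          rcases hx with rfl | rfl
          · exact ha
          · exact hb
        obtain ⟨c, hc⟩ := Finset.card_eq_one.1 h1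
        have h2 : c ∈ (({p, q, r} : Finset ℕ) \ {a, b}) := by rw [hc]; simp
        have h3 := (Finset.mem_sdiff.1 h2).2
        rw [Finset.mem_insert, Finset.mem_singleton, not_or] at h3
        exact ⟨c, (Finset.mem_sdiff.1 h2).1, fun h => h3.1 h.symm, fun h => h3.2 h.symm, hc⟩
      rw [he] at hh
      obtain ⟨x, rfl⟩ := W_one hh
      have h1 : gm a b (fun y : ℕ → V F => x • y c) = x • fun y => V.ip (y a) (y b) • y c := by
        funext y
        rw [gm_apply, Pi.smul_apply, smul_comm]
      rw [h1]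
      exact Submodule.smul_mem _ _ (GenW_T_mem hpq hpr hqr ha hb hc hab hac hbc).1
    · intro a ha b hb hab h hh
      obtain ⟨c, hc, hac, hbc, he⟩ : ∃ c ∈ ({p, q, r} : Finset ℕ), a ≠ c ∧ b ≠ c ∧
          (({p, q, r} : Finset ℕ).erase b) = {a, c} := by
        have h1 : ((({p, q, r} : Finset ℕ).erase b).erase a).card = 1 := by
          rw [Finset.card_erase_of_mem (Finset.mem_erase.2 ⟨hab, ha⟩),
            Finset.card_erase_of_mem hb, hcard]
        obtain ⟨c, hc⟩ := Finset.card_eq_one.1 h1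
        have h2 : c ∈ ((({p, q, r} : Finset ℕ).erase b).erase a) := by rw [hc]; simp
        rw [Finset.mem_erase, Finset.mem_erase] at h2
        refine ⟨c, h2.2.2, fun h => h2.1 h.symm, fun h => h2.2.1 h.symm, ?_⟩
        rw [← Finset.insert_erase (Finset.mem_erase.2 ⟨hab, ha⟩), hc]
      rw [he] at hh
      obtain ⟨x, rfl⟩ := W_two hac hh
      have h1 : cp a b (fun y : ℕ → V F => x • (y a * y c)) =
          (-x) • fun y => y c * (y a * y b) := by
        funext y
        rw [cp_apply, Pi.smul_apply, Function.update_self, Function.update_of_ne hac.symm,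
          V.mul_anti (y a * y b) (y c), smul_neg, neg_smul]
      rw [h1]
      exact Submodule.smul_mem _ _
        (GenW_T_mem hpq hpr hqr hc ha hb hac.symm hbc.symm hab).2
  exact hle hf

/-- span of `g W` and `phi W` -/
def GW (F : Type*) [Field F] (B : Finset ℕ) : Submodule F (Fn F) :=
  Submodule.span F ({f | ∃ p q h, p ∈ B ∧ q ∈ B ∧ p ≠ q ∧ h ∈ W F (B \ {p, q}) ∧ f = gm p q h} ∪
    {f | ∃ p q r h, p ∈ B ∧ q ∈ B ∧ r ∈ B ∧ p ≠ q ∧ p ≠ r ∧ q ≠ r ∧ h ∈ W F (B \ {p, q, r}) ∧
      f = phm p q r h})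

end

end OctId
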