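import Pool.Agent.Work.MP_9b6dd6_al.GenW

/-!
# Generation of the spaces `W B`, second part
-/

namespace OctId

open Finset

set_option linter.unusedSectionVars false

noncomputable section

variable {F : Type*} [Field F] [CharZero F]

/-! ## elementary facts on `GW` -/

theorem genW2_gm {B : Finset ℕ} {p q : ℕ} {h : Fn F} (hp : p ∈ B) (hq : q ∈ B) (hpq : p ≠ q)
    (hh : h ∈ W F (B \ {p, q})) : gm p q h ∈ GW F B :=
  Submodule.subset_span (Or.inl ⟨p, q, h, hp, hq, hpq, hh, rfl⟩)

theorem genW2_phm {B : Finset ℕ} {p q r : ℕ} {h : Fn F} (hp : p ∈ B) (hq : q ∈ B) (hr : r ∈ B)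
    (hpq : p ≠ q) (hpr : p ≠ r) (hqr : q ≠ r) (hh : h ∈ W F (B \ {p, q, r})) :
    phm p q r h ∈ GW F B :=
  Submodule.subset_span (Or.inr ⟨p, q, r, h, hp, hq, hr, hpq, hpr, hqr, hh, rfl⟩)

theorem genW2_le {B : Finset ℕ} : GW F B ≤ W F B := by
  refine Submodule.span_le.2 ?_
  rintro f (⟨p, q, h, hp, hq, hpq, hh, rfl⟩ | ⟨p, q, r, h, hp, hq, hr, hpq, hpr, hqr, hh, rfl⟩)
  · exact gm_mem hh hp hq hpq
  · exact phm_mem hh hp hq hr hpq hpr hqr

/-- induction principle -/
theorem genW2_ind {B : Finset ℕ} {G : Submodule F (Fn F)} (L : Fn F →ₗ[F] Fn F)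
    (h1 : ∀ p q h, p ∈ B → q ∈ B → p ≠ q → h ∈ W F (B \ {p, q}) → L (gm p q h) ∈ G)
    (h2 : ∀ p q r h, p ∈ B → q ∈ B → r ∈ B → p ≠ q → p ≠ r → q ≠ r → h ∈ W F (B \ {p, q, r}) →
      L (phm p q r h) ∈ G) {f : Fn F} (hf : f ∈ GW F B) : L f ∈ G := by
  have : GW F B ≤ G.comap L := by
    refine Submodule.span_le.2 ?_
    rintro f (⟨p, q, h, hp, hq, hpq, hh, rfl⟩ | ⟨p, q, r, h, hp, hq, hr, hpq, hpr, hqr, hh, rfl⟩)
    · exact h1 p q h hp hq hpq hh
    · exact h2 p q r h hp hq hr hpq hpr hqr hh
  exact this hf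

/-- membership in `W` from an equality of sets -/
theorem genW2_cast {A B : Finset ℕ} {f : Fn F} (hf : f ∈ W F A) (h : A = B) : f ∈ W F B := h ▸ hf

/-- left multiplication by a letter -/
def genW2_lm (F : Type*) [Field F] (u : ℕ) : Fn F →ₗ[F] Fn F where
  toFun f := fun y => y u * f y
  map_add' f g := by funext y; simp only [Pi.add_apply, mul_add]
  map_smul' c f := by
    funext y; simp only [Pi.smul_apply, RingHom.id_apply, mul_smul_comm]

@[simp] theorem genW2_lm_apply (u : ℕ) (f : Fn F) (y : ℕ → V F) :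
    genW2_lm F u f y = y u * f y := rfl

theorem genW2_lm_W {A : Finset ℕ} {u : ℕ} {f : Fn F} (hf : f ∈ W F A) (hu : u ∉ A) :
    genW2_lm F u f ∈ W F (insert u A) := by
  have h := W_mul (W_single (F := F) u) hf (by
    rw [Finset.disjoint_singleton_left]; exact hu)
  rw [Finset.insert_eq]
  exact h

theorem genW2_lm_GW {A : Finset ℕ} {u : ℕ} {f : Fn F} (hf : f ∈ GW F A) (hu : u ∉ A) :
    genW2_lm F u f ∈ GW F (insert u A) := by
  refine genW2_ind (genW2_lm F u) ?_ ?_ hf
  · intro p q h hp hq hpq hh
    have e : genW2_lm F u (gm p q h) = gm p q (genW2_lm F u h) := by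
      funext y; simp only [genW2_lm_apply, gm_apply, mul_smul_comm]
    rw [e]
    refine genW2_gm (Finset.mem_insert_of_mem hp) (Finset.mem_insert_of_mem hq) hpq ?_
    refine genW2_cast (genW2_lm_W hh (fun h => hu (Finset.mem_sdiff.1 h).1)) ?_
    ext x
    simp only [Finset.mem_insert, Finset.mem_sdiff, Finset.mem_singleton]
    constructor
    · rintro (rfl | ⟨h1, h2⟩)
      · refine ⟨Or.inl rfl, ?_⟩
        rintro (rfl | rfl)
        · exact hu hp
        · exact hu hq
      · exact ⟨Or.inr h1, h2⟩
    · rintro ⟨rfl | h1, h2⟩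
      · exact Or.inl rfl
      · exact Or.inr ⟨h1, h2⟩
  · intro p q r h hp hq hr hpq hpr hqr hh
    have e : genW2_lm F u (phm p q r h) = phm p q r (genW2_lm F u h) := by
      funext y; simp only [genW2_lm_apply, phm_apply, mul_smul_comm]
    rw [e]
    refine genW2_phm (Finset.mem_insert_of_mem hp) (Finset.mem_insert_of_mem hq)
      (Finset.mem_insert_of_mem hr) hpq hpr hqr ?_
    refine genW2_cast (genW2_lm_W hh (fun h => hu (Finset.mem_sdiff.1 h).1)) ?_
    ext x
    simp only [Finset.mem_insert, Finset.mem_sdiff, Finset.mem_singleton]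
    constructor
    · rintro (rfl | ⟨h1, h2⟩)
      · refine ⟨Or.inl rfl, ?_⟩
        rintro (rfl | rfl | rfl)
        · exact hu hp
        · exact hu hq
        · exact hu hr
      · exact ⟨Or.inr h1, h2⟩
    · rintro ⟨rfl | h1, h2⟩
      · exact Or.inl rfl
      · exact Or.inr ⟨h1, h2⟩

/-- product of two letters -/
theorem genW2_two {r s : ℕ} (h : r ≠ s) : (fun y : ℕ → V F => y r * y s) ∈ W F {r, s} := by
  have h := genW2_lm_W (W_single (F := F) s) (u := r) (by simpa using h)
  exact h

/-! ## degree 4 -/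

/-- four distinct letters forming `B` -/
structure Genw2D (B : Finset ℕ) (p q r s : ℕ) : Prop where
  pq : p ≠ q
  pr : p ≠ r
  ps : p ≠ s
  qr : q ≠ r
  qs : q ≠ s
  rs : r ≠ s
  eq : B = {p, q, r, s}

theorem genW2_D {p q r s : ℕ} (h : ({p, q, r, s} : Finset ℕ).card = 4) :
    Genw2D {p, q, r, s} p q r s := by
  have h1 : p ∉ ({q, r, s} : Finset ℕ) := by
    intro hp
    rw [Finset.insert_eq_of_mem hp] at h
    have := Finset.card_le_three (a := q) (b := r) (c := s)
    omega
  rw [Finset.card_insert_of_notMem h1] at h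
  have h2 : q ∉ ({r, s} : Finset ℕ) := by
    intro hp
    rw [Finset.insert_eq_of_mem hp] at h
    have := Finset.card_le_two (a := r) (b := s)
    omega
  rw [Finset.card_insert_of_notMem h2] at h
  have h3 : r ∉ ({s} : Finset ℕ) := by
    intro hp
    rw [Finset.insert_eq_of_mem hp] at h
    rw [Finset.card_singleton] at h
    omega
  simp only [Finset.mem_insert, Finset.mem_singleton, not_or] at h1 h2 h3
  exact ⟨h1.1, h1.2.1, h1.2.2, h2.1, h2.2, h3, rfl⟩

namespace Genw2D

variable {B : Finset ℕ} {p q r s : ℕ}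

theorem s12 (h : Genw2D B p q r s) : Genw2D B q p r s :=
  ⟨h.pq.symm, h.qr, h.qs, h.pr, h.ps, h.rs, by
    rw [h.eq]; ext x; simp only [Finset.mem_insert, Finset.mem_singleton]; tauto⟩

theorem s23 (h : Genw2D B p q r s) : Genw2D B p r q s :=
  ⟨h.pr, h.pq, h.ps, h.qr.symm, h.rs, h.qs, by
    rw [h.eq]; ext x; simp only [Finset.mem_insert, Finset.mem_singleton]; tauto⟩

theorem s34 (h : Genw2D B p q r s) : Genw2D B p q s r :=
  ⟨h.pq, h.ps, h.pr, h.qs, h.qr, h.rs.symm, by
    rw [h.eq]; ext x; simp only [Finset.mem_insert, Finset.mem_singleton]; tauto⟩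

theorem mp (h : Genw2D B p q r s) : p ∈ B := by rw [h.eq]; simp
theorem mq (h : Genw2D B p q r s) : q ∈ B := by rw [h.eq]; simp
theorem mr (h : Genw2D B p q r s) : r ∈ B := by rw [h.eq]; simp
theorem ms (h : Genw2D B p q r s) : s ∈ B := by rw [h.eq]; simp

theorem sd2 (h : Genw2D B p q r s) : B \ {p, q} = {r, s} := by
  rw [h.eq]
  ext x
  simp only [Finset.mem_insert, Finset.mem_singleton, Finset.mem_sdiff]
  constructor
  · tauto
  · rintro (rfl | rfl)
    · exact ⟨by tauto, by simp [h.pr.symm, h.qr.symm]⟩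
    · exact ⟨by tauto, by simp [h.ps.symm, h.qs.symm]⟩

theorem sd3 (h : Genw2D B p q r s) : B \ {p, q, r} = {s} := by
  rw [h.eq]
  ext x
  simp only [Finset.mem_insert, Finset.mem_singleton, Finset.mem_sdiff]
  constructor
  · tauto
  · rintro rfl
    exact ⟨by tauto, by simp [h.ps.symm, h.qs.symm, h.rs.symm]⟩

/-- `(y_p, y_q) y_r y_s` -/
theorem g (h : Genw2D B p q r s) :
    (fun y : ℕ → V F => V.ip (y p) (y q) • (y r * y s)) ∈ GW F B :=
  genW2_gm h.mp h.mq h.pq (genW2_cast (genW2_two h.rs) h.sd2.symm)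

/-- `(y_p y_q, y_r) y_s` -/
theorem ph (h : Genw2D B p q r s) :
    (fun y : ℕ → V F => V.ip (y p * y q) (y r) • y s) ∈ GW F B :=
  genW2_phm h.mp h.mq h.mr h.pq h.pr h.qr (genW2_cast (W_single s) h.sd3.symm)

/-- the right normed tree is skew in the first two letters -/
theorem t12 (h : Genw2D B p q r s) :
    (fun y : ℕ → V F => y p * (y q * (y r * y s)) + y q * (y p * (y r * y s))) ∈ GW F B := by
  have e : (fun y : ℕ → V F => y p * (y q * (y r * y s)) + y q * (y p * (y r * y s)))
      = (fun y : ℕ → V F => V.ip (y r * y s) (y p) • y q)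
        + (fun y : ℕ → V F => V.ip (y r * y s) (y q) • y p)
        - (2 : F) • (fun y : ℕ → V F => V.ip (y p) (y q) • (y r * y s)) := by
    funext y
    simp only [Pi.add_apply, Pi.sub_apply, Pi.smul_apply]
    rw [V.mul_mul, V.ip_comm (y p) (y r * y s), V.ip_comm (y q) (y r * y s), smul_smul]
  rw [e]
  refine Submodule.sub_mem _ (Submodule.add_mem _ ?_ ?_) (Submodule.smul_mem _ _ h.g)
  · exact h.s23.s12.s34.s23.ph
  · exact h.s12.s23.s12.s34.s23.ph

theorem t23 (h : Genw2D B p q r s) :
    (fun y : ℕ → V F => y p * (y q * (y r * y s)) + y p * (y r * (y q * y s))) ∈ GW F B := by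
  have e : (fun y : ℕ → V F => y p * (y q * (y r * y s)) + y p * (y r * (y q * y s)))
      = (fun y : ℕ → V F => V.ip (y q) (y s) • (y p * y r))
        + (fun y : ℕ → V F => V.ip (y r) (y s) • (y p * y q))
        - (2 : F) • (fun y : ℕ → V F => V.ip (y q) (y r) • (y p * y s)) := by
    funext y
    simp only [Pi.add_apply, Pi.sub_apply, Pi.smul_apply]
    rw [← mul_add, V.mul_mul, mul_sub, mul_add, mul_smul_comm, mul_smul_comm, mul_smul_comm,
      smul_smul]
  rw [e]
  refine Submodule.sub_mem _ (Submodule.add_mem _ ?_ ?_) (Submodule.smul_mem _ _ ?_)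
  · exact h.s12.s34.s23.g
  · exact h.s23.s12.s34.s23.g
  · exact h.s12.s23.g

theorem t34 (_h : Genw2D B p q r s) :
    (fun y : ℕ → V F => y p * (y q * (y r * y s)) + y p * (y q * (y s * y r))) ∈ GW F B := by
  have e : (fun y : ℕ → V F => y p * (y q * (y r * y s)) + y p * (y q * (y s * y r))) = 0 := by
    funext y
    rw [V.mul_anti (y s) (y r)]
    simp
  rw [e]
  exact Submodule.zero_mem _

/-- `(y_r y_s)(y_p y_q)` is the right normed tree -/
theorem tb (h : Genw2D B p q r s) :
    (fun y : ℕ → V F => (y r * y s) * (y p * y q) - y p * (y q * (y r * y s))) ∈ GW F B := by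
  have e : (fun y : ℕ → V F => (y r * y s) * (y p * y q) - y p * (y q * (y r * y s)))
      = (fun y : ℕ → V F => V.ip (y p) (y q) • (y r * y s))
        + (fun y : ℕ → V F => V.ip (y r * y s) (y q) • y p)
        - (2 : F) • (fun y : ℕ → V F => V.ip (y r * y s) (y p) • y q) := by
    funext y
    simp only [Pi.add_apply, Pi.sub_apply, Pi.smul_apply]
    have h1 := V.mul_mul (y p) (y r * y s) (y q)
    rw [V.mul_anti (y r * y s) (y q), mul_neg] at h1
    rw [sub_eq_neg_add, h1, V.ip_comm (y p) (y r * y s), smul_smul]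
  rw [e]
  refine Submodule.sub_mem _ (Submodule.add_mem _ h.g ?_) (Submodule.smul_mem _ _ ?_)
  · exact h.s12.s23.s12.s34.s23.ph
  · exact h.s23.s12.s34.s23.ph

/-- the right normed tree lies in `GW` -/
theorem tree (h : Genw2D B p q r s) :
    (fun y : ℕ → V F => y p * (y q * (y r * y s))) ∈ GW F B := by
  have h1 := h.tb (F := F)
  have h2 := h.s23.s12.s34.s23.tb (F := F)
  have h3 := h.t23 (F := F)
  have h4 := h.s23.t12 (F := F)
  have h5 := h.s23.s12.t34 (F := F)
  have h6 := h.s23.s12.s34.t23 (F := F)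
  have h7 := Submodule.smul_mem _ (1 / 2 : F) (Submodule.add_mem _ (Submodule.neg_mem _
    (Submodule.add_mem _ h1 h2)) (Submodule.sub_mem _ (Submodule.add_mem _ (Submodule.sub_mem _ h3
      h4) h5) h6))
  convert h7 using 1
  funext y
  simp only [Pi.add_apply, Pi.sub_apply, Pi.smul_apply, Pi.neg_apply]
  rw [V.mul_anti (y r * y s) (y p * y q)]
  have hd : (2 : F) ≠ 0 := two_ne_zero
  match_scalars <;> field_simp <;> ring

theorem cherries (h : Genw2D B p q r s) :
    (fun y : ℕ → V F => (y p * y q) * (y r * y s)) ∈ GW F B := by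
  have h1 := Submodule.add_mem _ (h.s23.s12.s34.s23.tb (F := F)) (h.s23.s12.s34.s23.tree (F := F))
  convert h1 using 1
  funext y
  simp only [Pi.add_apply]
  abel

end Genw2D

/-- trees of degree 4 lie in `GW` -/
theorem tree4_mem_GW {p q r s : ℕ} (h : ({p, q, r, s} : Finset ℕ).card = 4) :
    (fun y : ℕ → V F => y p * (y q * (y r * y s))) ∈ GW F {p, q, r, s} ∧
    (fun y : ℕ → V F => (y p * y q) * (y r * y s)) ∈ GW F {p, q, r, s} :=
  ⟨(genW2_D h).tree, (genW2_D h).cherries⟩

/-- labels of a set of cardinality 4 containing two given letters -/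
theorem genW2_exD {B : Finset ℕ} (hB : B.card = 4) {p q : ℕ} (hp : p ∈ B) (hq : q ∈ B)
    (hpq : p ≠ q) : ∃ r s, Genw2D B p q r s := by
  have h1 : (B \ {p, q}).card = 2 := by
    rw [Finset.card_sdiff_of_subset (by
      intro x hx
      simp only [Finset.mem_insert, Finset.mem_singleton] at hx
      rcases hx with rfl | rfl
      · exact hp
      · exact hq), hB, Finset.card_pair hpq]
  obtain ⟨r, s, hrs, he⟩ := Finset.card_eq_two.1 h1
  have hr : r ∈ B \ {p, q} := by rw [he]; simp
  have hs : s ∈ B \ {p, q} := by rw [he]; simp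
  simp only [Finset.mem_sdiff, Finset.mem_insert, Finset.mem_singleton, not_or] at hr hs
  refine ⟨r, s, hpq, fun h => hr.2.1 h.symm, fun h => hs.2.1 h.symm, fun h => hr.2.2 h.symm,
    fun h => hs.2.2 h.symm, hrs, ?_⟩
  have : B = (B \ {p, q}) ∪ {p, q} := by
    rw [Finset.sdiff_union_of_subset]
    intro x hx
    simp only [Finset.mem_insert, Finset.mem_singleton] at hx
    rcases hx with rfl | rfl
    · exact hp
    · exact hq
  rw [this, he]
  ext x
  simp only [Finset.mem_union, Finset.mem_insert, Finset.mem_singleton]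
  tauto

/-- `GW` is stable under the permutations supported in `B` -/
theorem genW2_stable {B : Finset ℕ} (σ : Equiv.Perm ℕ) (hσ : ∀ b, b ∉ B → σ b = b) :
    ∀ g ∈ GW F B, ren σ g ∈ GW F B := by
  have hB : ∀ b, σ b ∈ B ↔ b ∈ B := by
    intro b
    constructor
    · intro h
      by_contra hb
      rw [hσ b hb] at h
      exact hb h
    · intro h
      by_contra hb
      have := hσ _ hb
      have h2 := σ.injective this
      rw [h2] at hb
      exact hb h
  have hmap : ∀ C : Finset ℕ, (B \ C).map σ.toEmbedding = B \ C.map σ.toEmbedding := by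
    intro C
    ext x
    simp only [Finset.mem_map_equiv, Finset.mem_sdiff]
    have : σ.symm x ∈ B ↔ x ∈ B := by
      rw [← hB (σ.symm x), Equiv.apply_symm_apply]
    rw [this]
  intro g hg
  refine genW2_ind (ren σ) ?_ ?_ hg
  · intro p q h hp hq hpq hh
    have e : ren σ (gm p q h) = gm (σ p) (σ q) (ren σ h) := rfl
    rw [e]
    refine genW2_gm ((hB p).2 hp) ((hB q).2 hq) (σ.injective.ne hpq) ?_
    refine genW2_cast (ren_mem hh σ) ?_
    rw [hmap]
    simp
  · intro p q r h hp hq hr hpq hpr hqr hh
    have e : ren σ (phm p q r h) = phm (σ p) (σ q) (σ r) (ren σ h) := rfl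
    rw [e]
    refine genW2_phm ((hB p).2 hp) ((hB q).2 hq) ((hB r).2 hr) (σ.injective.ne hpq)
      (σ.injective.ne hpr) (σ.injective.ne hqr) ?_
    refine genW2_cast (ren_mem hh σ) ?_
    rw [hmap]
    simp

theorem W_four {B : Finset ℕ} (hB : B.card = 4) : W F B ≤ GW F B := by
  refine W_le_of (by omega) (GW F B) genW2_stable ?_ ?_
  · intro p hp q hq hpq h hh
    exact genW2_gm hp hq hpq hh
  · intro p hp q hq hpq h hh
    obtain ⟨r, s, D⟩ := genW2_exD hB hp hq hpq
    have e1 : B.erase q = {p, r, s} := by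
      rw [D.eq]
      ext x
      simp only [Finset.mem_erase, Finset.mem_insert, Finset.mem_singleton]
      constructor
      · tauto
      · rintro (rfl | rfl | rfl)
        · exact ⟨D.pq, by tauto⟩
        · exact ⟨D.qr.symm, by tauto⟩
        · exact ⟨D.qs.symm, by tauto⟩
    rw [e1] at hh
    obtain ⟨a, b, c, d, rfl⟩ := W_three D.pr D.ps D.rs hh
    have e2 : cp p q (fun y : ℕ → V F => a • V.ip (y r) (y s) • y p
        + b • V.ip (y p) (y s) • y r + c • V.ip (y p) (y r) • y s + d • (y p * (y r * y s)))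
        = a • (fun y : ℕ → V F => V.ip (y r) (y s) • (y p * y q))
          + b • (fun y : ℕ → V F => V.ip (y p * y q) (y s) • y r)
          + c • (fun y : ℕ → V F => V.ip (y p * y q) (y r) • y s)
          + d • (fun y : ℕ → V F => (y p * y q) * (y r * y s)) := by
      funext y
      simp only [cp_apply, Pi.add_apply, Pi.smul_apply, Function.update_self,
        Function.update_of_ne D.pr.symm, Function.update_of_ne D.ps.symm]
    rw [e2]
    refine Submodule.add_mem _ (Submodule.add_mem _ (Submodule.add_mem _ ?_ ?_) ?_) ?_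
    · exact Submodule.smul_mem _ _ D.s23.s12.s34.s23.g
    · exact Submodule.smul_mem _ _ D.s34.ph
    · exact Submodule.smul_mem _ _ D.ph
    · exact Submodule.smul_mem _ _ D.cherries

/-! ## degree 5 -/

/-- five distinct letters forming `B` -/
structure Genw2E (B : Finset ℕ) (p q r s t : ℕ) : Prop where
  pq : p ≠ q
  pr : p ≠ r
  ps : p ≠ s
  pt : p ≠ t
  qr : q ≠ r
  qs : q ≠ s
  qt : q ≠ t
  rs : r ≠ s
  rt : r ≠ t
  st : s ≠ t
  eq : B = {p, q, r, s, t}

theorem genW2_E {p q r s t : ℕ} (h : ({p, q, r, s, t} : Finset ℕ).card = 5) :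
    Genw2E {p, q, r, s, t} p q r s t := by
  have h1 : p ∉ ({q, r, s, t} : Finset ℕ) := by
    intro hp
    rw [Finset.insert_eq_of_mem hp] at h
    have := Finset.card_le_four (a := q) (b := r) (c := s) (d := t)
    omega
  rw [Finset.card_insert_of_notMem h1] at h
  have D := genW2_D (by omega : ({q, r, s, t} : Finset ℕ).card = 4)
  simp only [Finset.mem_insert, Finset.mem_singleton, not_or] at h1
  exact ⟨h1.1, h1.2.1, h1.2.2.1, h1.2.2.2, D.pq, D.pr, D.ps, D.qr, D.qs, D.rs, rfl⟩

namespace Genw2E

variable {B : Finset ℕ} {p q r s t : ℕ}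

theorem s12 (h : Genw2E B p q r s t) : Genw2E B q p r s t :=
  ⟨h.pq.symm, h.qr, h.qs, h.qt, h.pr, h.ps, h.pt, h.rs, h.rt, h.st, by
    rw [h.eq]; ext x; simp only [Finset.mem_insert, Finset.mem_singleton]; tauto⟩

theorem s23 (h : Genw2E B p q r s t) : Genw2E B p r q s t :=
  ⟨h.pr, h.pq, h.ps, h.pt, h.qr.symm, h.rs, h.rt, h.qs, h.qt, h.st, by
    rw [h.eq]; ext x; simp only [Finset.mem_insert, Finset.mem_singleton]; tauto⟩

theorem s34 (h : Genw2E B p q r s t) : Genw2E B p q s r t :=
  ⟨h.pq, h.ps, h.pr, h.pt, h.qs, h.qr, h.qt, h.rs.symm, h.st, h.rt, by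
    rw [h.eq]; ext x; simp only [Finset.mem_insert, Finset.mem_singleton]; tauto⟩

theorem s45 (h : Genw2E B p q r s t) : Genw2E B p q r t s :=
  ⟨h.pq, h.pr, h.pt, h.ps, h.qr, h.qt, h.qs, h.rt, h.rs, h.st.symm, by
    rw [h.eq]; ext x; simp only [Finset.mem_insert, Finset.mem_singleton]; tauto⟩

theorem rot (h : Genw2E B p q r s t) : Genw2E B s t p q r :=
  ⟨h.st, h.ps.symm, h.qs.symm, h.rs.symm, h.pt.symm, h.qt.symm, h.rt.symm, h.pq, h.pr, h.qr, by
    rw [h.eq]; ext x; simp only [Finset.mem_insert, Finset.mem_singleton]; tauto⟩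

theorem mp (h : Genw2E B p q r s t) : p ∈ B := by rw [h.eq]; simp
theorem mq (h : Genw2E B p q r s t) : q ∈ B := by rw [h.eq]; simp
theorem mr (h : Genw2E B p q r s t) : r ∈ B := by rw [h.eq]; simp
theorem ms (h : Genw2E B p q r s t) : s ∈ B := by rw [h.eq]; simp
theorem mt (h : Genw2E B p q r s t) : t ∈ B := by rw [h.eq]; simp

theorem sd2 (h : Genw2E B p q r s t) : B \ {p, q} = {r, s, t} := by
  rw [h.eq]
  ext x
  simp only [Finset.mem_insert, Finset.mem_singleton, Finset.mem_sdiff]
  constructor
  · tauto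
  · rintro (rfl | rfl | rfl)
    · exact ⟨by tauto, by simp [h.pr.symm, h.qr.symm]⟩
    · exact ⟨by tauto, by simp [h.ps.symm, h.qs.symm]⟩
    · exact ⟨by tauto, by simp [h.pt.symm, h.qt.symm]⟩

theorem sd3 (h : Genw2E B p q r s t) : B \ {p, q, r} = {s, t} := by
  rw [h.eq]
  ext x
  simp only [Finset.mem_insert, Finset.mem_singleton, Finset.mem_sdiff]
  constructor
  · tauto
  · rintro (rfl | rfl)
    · exact ⟨by tauto, by simp [h.ps.symm, h.qs.symm, h.rs.symm]⟩
    · exact ⟨by tauto, by simp [h.pt.symm, h.qt.symm, h.rt.symm]⟩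

/-- `(y_p, y_q) w` -/
theorem g (h : Genw2E B p q r s t) {w : Fn F} (hw : w ∈ W F {r, s, t}) :
    (fun y : ℕ → V F => V.ip (y p) (y q) • w y) ∈ GW F B :=
  genW2_gm h.mp h.mq h.pq (genW2_cast hw h.sd2.symm)

/-- `(y_p y_q, y_r) y_s y_t` -/
theorem ph (h : Genw2E B p q r s t) :
    (fun y : ℕ → V F => V.ip (y p * y q) (y r) • (y s * y t)) ∈ GW F B :=
  genW2_phm h.mp h.mq h.mr h.pq h.pr h.qr (genW2_cast (genW2_two h.st) h.sd3.symm)

/-- `(y_p, y_q)(y_r, y_s) y_t` -/
theorem gg (h : Genw2E B p q r s t) :
    (fun y : ℕ → V F => (V.ip (y p) (y q) * V.ip (y r) (y s)) • y t) ∈ GW F B := by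
  have hw : (gm r s (fun y : ℕ → V F => y t)) ∈ W F {r, s, t} := by
    refine gm_mem (genW2_cast (W_single t) ?_) (by simp) (by simp) h.rs
    ext x
    simp only [Finset.mem_insert, Finset.mem_singleton, Finset.mem_sdiff]
    constructor
    · rintro rfl
      exact ⟨by tauto, by simp [h.rt.symm, h.st.symm]⟩
    · tauto
  have h1 := h.g hw
  convert h1 using 1
  funext y
  rw [gm_apply, smul_smul]

/-- the function `X` -/
def X (F : Type*) [Field F] (p q r s t : ℕ) : Fn F :=
  fun y : ℕ → V F => V.ip (y p * y q) (y r * y s) • y t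

theorem x12 (_h : Genw2E B p q r s t) : X F p q r s t + X F q p r s t ∈ GW F B := by
  have e : X F p q r s t + X F q p r s t = 0 := by
    funext y
    simp only [X, Pi.add_apply, Pi.zero_apply]
    rw [V.mul_anti (y q) (y p), V.ip_neg_left]
    module
  rw [e]
  exact Submodule.zero_mem _

theorem x34 (_h : Genw2E B p q r s t) : X F p q r s t + X F p q s r t ∈ GW F B := by
  have e : X F p q r s t + X F p q s r t = 0 := by
    funext y
    simp only [X, Pi.add_apply, Pi.zero_apply]
    rw [V.mul_anti (y s) (y r), V.ip_neg_right]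
    module
  rw [e]
  exact Submodule.zero_mem _

theorem x23 (h : Genw2E B p q r s t) : X F p q r s t + X F p r q s t ∈ GW F B := by
  have e : X F p q r s t + X F p r q s t =
      (fun y : ℕ → V F => (V.ip (y q) (y s) * V.ip (y p) (y r)) • y t)
      + (fun y : ℕ → V F => (V.ip (y r) (y s) * V.ip (y p) (y q)) • y t)
      - (2 : F) • (fun y : ℕ → V F => (V.ip (y q) (y r) * V.ip (y p) (y s)) • y t) := by
    funext y
    simp only [X, Pi.add_apply, Pi.sub_apply, Pi.smul_apply]
    have h1 := congrArg (fun v => V.ip (y p) v) (V.mul_mul (y q) (y r) (y s))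
    simp only [V.ip_add_right, V.ip_sub_right, V.ip_smul_right] at h1
    rw [V.tri_move, V.tri_move (y p) (y r), ← add_smul, h1]
    module
  rw [e]
  refine Submodule.sub_mem _ (Submodule.add_mem _ ?_ ?_) (Submodule.smul_mem _ _ ?_)
  · exact h.s12.s34.s23.gg
  · exact h.s23.s12.s34.s23.gg
  · exact h.s12.s23.gg

/-- `w x (ab) = (w,b)a - 2(w,a)b` for `w` a function of `p, q, r` -/
theorem wab (h : Genw2E B p q r s t) {w : Fn F} (hw : w ∈ W F {p, q, r}) :
    (fun y : ℕ → V F => w y * (y s * y t) - V.ip (w y) (y t) • y s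
      + (2 : F) • (V.ip (w y) (y s) • y t)) ∈ GW F B := by
  have e : (fun y : ℕ → V F => w y * (y s * y t) - V.ip (w y) (y t) • y s
      + (2 : F) • (V.ip (w y) (y s) • y t))
      = (fun y : ℕ → V F => V.ip (y s) (y t) • w y)
        - genW2_lm F s (w * fun y : ℕ → V F => y t) := by
    funext y
    simp only [Pi.sub_apply, genW2_lm_apply, Pi.mul_apply]
    have h1 := V.mul_mul (w y) (y s) (y t)
    rw [eq_sub_iff_add_eq, ← sub_eq_zero] at *
    rw [← h1]
    module
  rw [e]
  refine Submodule.sub_mem _ ?_ ?_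
  · exact h.rot.g hw
  · have h2 : (w * fun y : ℕ → V F => y t) ∈ GW F {p, q, r, t} := by
      refine W_four ?_ ?_
      · rw [Finset.card_insert_of_notMem, Finset.card_insert_of_notMem,
          Finset.card_insert_of_notMem, Finset.card_singleton]
        · simp [h.rt]
        · simp [h.qr, h.qt]
        · simp [h.pq, h.pr, h.pt]
      · refine genW2_cast (W_mul hw (W_single t) ?_) ?_
        · simp [h.pt.symm, h.qt.symm, h.rt.symm]
        · ext x
          simp only [Finset.mem_insert, Finset.mem_singleton, Finset.mem_union]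
          tauto
    have h3 := genW2_lm_GW h2 (u := s) (by simp [h.ps.symm, h.qs.symm, h.rs.symm, h.st])
    have e2 : insert s ({p, q, r, t} : Finset ℕ) = B := by
      rw [h.eq]
      ext x
      simp only [Finset.mem_insert, Finset.mem_singleton]
      tauto
    rwa [e2] at h3

/-- the main relation -/
theorem rel (h : Genw2E B p q r s t) :
    (2 : F) • X F p q r s t - X F r s t q p + (2 : F) • X F r s t p q - X F p q t s r
      + (2 : F) • X F p q t r s ∈ GW F B := by
  -- the two terms `((rs)t)(pq)` and `((pq)t)(rs)`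
  have w1 : (fun y : ℕ → V F => (y r * y s) * y t) ∈ W F {r, s, t} := by
    have h1 := W_mul (genW2_two (F := F) h.rs) (W_single t) (by simp [h.rt.symm, h.st.symm])
    refine genW2_cast h1 ?_
    ext x
    simp only [Finset.mem_insert, Finset.mem_singleton, Finset.mem_union]
    tauto
  have w2 : (fun y : ℕ → V F => (y p * y q) * y t) ∈ W F {p, q, t} := by
    have h1 := W_mul (genW2_two (F := F) h.pq) (W_single t) (by simp [h.pt.symm, h.qt.symm])
    refine genW2_cast h1 ?_
    ext x
    simp only [Finset.mem_insert, Finset.mem_singleton, Finset.mem_union]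
    tauto
  have a1 := h.rot.rot.rot.rot.wab w1
  have a2 := h.s45.s34.wab w2
  have a3 := h.s45.s34.ph (F := F)
  have a4 := h.rot.rot.rot.rot.ph (F := F)
  have a5 := Submodule.add_mem _ (Submodule.add_mem _ a1 a2) (Submodule.add_mem _ a3 a4)
  convert a5 using 1
  funext y
  simp only [X, Pi.add_apply, Pi.sub_apply, Pi.smul_apply]
  have h1 := V.mul_mul (y p * y q) (y r * y s) (y t)
  rw [V.mul_anti (y p * y q) ((y r * y s) * y t), V.mul_anti (y r * y s) ((y p * y q) * y t)] at h1
  rw [V.tri_move (y r * y s) (y t) (y q), V.tri_move (y r * y s) (y t) (y p),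
    V.tri_move (y p * y q) (y t) (y s), V.tri_move (y p * y q) (y t) (y r)]
  refine eq_of_sub_eq_zero ?_
  rw [← sub_eq_zero] at h1
  rw [← h1]
  module

theorem xanti (p q r s t : ℕ) : X F q p r s t = -X F p q r s t := by
  funext y
  simp only [X, Pi.neg_apply]
  rw [V.mul_anti (y q) (y p), V.ip_neg_left]
  module

/-- skew in the last two letters -/
theorem x45 (h : Genw2E B p q r s t) : X F p q r s t + X F p q r t s ∈ GW F B := by
  have a1 := h.rot.s12.rel (F := F)
  have a2 := h.rot.rel (F := F)
  have a3 := Submodule.add_mem _ a1 a2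
  convert a3 using 1
  rw [xanti s t p q r, xanti s t r q p, xanti s t r p q]
  module

/-- degree 5 -/
theorem xmem (h : Genw2E B p q r s t) : X F p q r s t ∈ GW F B := by
  have r0 := h.rel (F := F)
  -- `X(r,s,t,q;p)` to `X(p,q,r,s;t)`, seven transpositions
  have hk : Genw2E B r s t q p := h.rot.rot.rot.rot.s45
  have b1 := hk.x45 (F := F)
  have b2 := hk.s45.x34 (F := F)
  have b3 := hk.s45.s34.x23 (F := F)
  have b4 := hk.s45.s34.s23.x12 (F := F)
  -- now `p r s t q`
  have b5 := hk.s45.s34.s23.s12.x45 (F := F)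
  have b6 := hk.s45.s34.s23.s12.s45.x34 (F := F)
  have b7 := hk.s45.s34.s23.s12.s45.s34.x23 (F := F)
  have c1 := h.s45.s34.s45.x45 (F := F)
  have c2 := h.s45.s34.x34 (F := F)
  have c3 := h.s45.x45 (F := F)
  have d1 := Submodule.add_mem _ (Submodule.sub_mem _ (Submodule.add_mem _ (Submodule.sub_mem _
    (Submodule.add_mem _ (Submodule.sub_mem _ b1 b2) b3) b4) b5) b6) b7
  have d2 := Submodule.sub_mem _ (Submodule.add_mem _ (Submodule.sub_mem _
    (Submodule.add_mem _ (Submodule.sub_mem _ b2 b3) b4) b5) b6) b7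
  have d3 := Submodule.add_mem _ (Submodule.sub_mem _ c1 c2) c3
  have d4 := Submodule.sub_mem _ c2 c3
  have d5 := Submodule.smul_mem _ (1 / 8 : F) (Submodule.sub_mem _ (Submodule.add_mem _
    (Submodule.sub_mem _ (Submodule.add_mem _ r0 d1) (Submodule.smul_mem _ (2 : F) d2)) d3)
    (Submodule.smul_mem _ (2 : F) d4))
  convert d5 using 1
  have hd : (8 : F) ≠ 0 := by norm_num
  match_scalars <;> field_simp <;> ring

end Genw2E

/-- `(y_p x y_q, y_r x y_s) y_t` lies in `GW` -/
theorem lemX {p q r s t : ℕ} (h : ({p, q, r, s, t} : Finset ℕ).card = 5) :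
    (fun y : ℕ → V F => V.ip (y p * y q) (y r * y s) • y t) ∈ GW F {p, q, r, s, t} :=
  (genW2_E h).xmem

/-! ## the general case -/

/-- multiplication by `(y_p x y_q, y_r x y_s)` -/
def genW2_xm (F : Type*) [Field F] (p q r s : ℕ) : Fn F →ₗ[F] Fn F where
  toFun f := fun y => V.ip (y p * y q) (y r * y s) • f y
  map_add' f g := by funext y; simp only [Pi.add_apply, smul_add]
  map_smul' c f := by
    funext y; simp only [Pi.smul_apply, RingHom.id_apply, smul_comm c]

@[simp] theorem genW2_xm_apply (p q r s : ℕ) (f : Fn F) (y : ℕ → V F) :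
    genW2_xm F p q r s f y = V.ip (y p * y q) (y r * y s) • f y := rfl

theorem genW2_xm_W {B : Finset ℕ} {p q r s : ℕ} (hp : p ∈ B) (hq : q ∈ B) (hr : r ∈ B)
    (hs : s ∈ B) (D : Genw2D {p, q, r, s} p q r s) {f : Fn F}
    (hf : f ∈ W F (B \ {p, q, r, s})) : genW2_xm F p q r s f ∈ W F B := by
  have h1 : phm p q r f ∈ W F (B.erase s) := by
    refine phm_mem (genW2_cast hf ?_) (Finset.mem_erase.2 ⟨D.ps, hp⟩)
      (Finset.mem_erase.2 ⟨D.qs, hq⟩) (Finset.mem_erase.2 ⟨D.rs, hr⟩) D.pq D.pr D.qr
    ext x
    simp only [Finset.mem_sdiff, Finset.mem_insert, Finset.mem_singleton, Finset.mem_erase]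
    tauto
  have h2 := cp_mem h1 hr hs D.rs
  convert h2 using 1
  funext y
  rw [cp_apply, phm_apply, genW2_xm_apply, W_update hf (by simp), Function.update_self,
    Function.update_of_ne D.pr, Function.update_of_ne D.qr]

theorem genW2_xm_gm (p q r s a b : ℕ) (f : Fn F) :
    genW2_xm F p q r s (gm a b f) = gm a b (genW2_xm F p q r s f) := by
  funext y
  simp only [genW2_xm_apply, gm_apply, smul_comm (V.ip (y a) (y b))]

theorem genW2_xm_phm (p q r s a b c : ℕ) (f : Fn F) :
    genW2_xm F p q r s (phm a b c f) = phm a b c (genW2_xm F p q r s f) := by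
  funext y
  simp only [genW2_xm_apply, phm_apply, smul_comm (V.ip (y a * y b) (y c))]

theorem genW2_xm_lm (p q r s a : ℕ) (f : Fn F) :
    genW2_xm F p q r s (genW2_lm F a f) = genW2_lm F a (genW2_xm F p q r s f) := by
  funext y
  simp only [genW2_xm_apply, genW2_lm_apply, mul_smul_comm]

/-- general form, with an induction hypothesis -/
theorem genW2_lemX' {B : Finset ℕ}
    (IH : ∀ C : Finset ℕ, C.card < B.card → 4 ≤ C.card → W F C ≤ GW F C) {p q r s : ℕ}
    (hp : p ∈ B) (hq : q ∈ B) (hr : r ∈ B) (hs : s ∈ B)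
    (h4 : ({p, q, r, s} : Finset ℕ).card = 4) (h5 : 5 ≤ B.card) {f : Fn F}
    (hf : f ∈ W F (B \ {p, q, r, s})) : genW2_xm F p q r s f ∈ GW F B := by
  have D := genW2_D h4
  have hsub : ({p, q, r, s} : Finset ℕ) ⊆ B := by
    intro x hx
    simp only [Finset.mem_insert, Finset.mem_singleton] at hx
    rcases hx with rfl | rfl | rfl | rfl <;> assumption
  have hC : (B \ {p, q, r, s}).card = B.card - 4 := by
    rw [Finset.card_sdiff_of_subset hsub, h4]
  have hBC : B = {p, q, r, s} ∪ (B \ {p, q, r, s}) := by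
    rw [Finset.union_comm, Finset.sdiff_union_of_subset hsub]
  -- the basic case: a letter
  have key : ∀ t ∈ B \ {p, q, r, s}, genW2_xm F p q r s (fun y => y t) ∈ GW F {p, q, r, s, t} := by
    intro t ht
    refine lemX ?_
    have e : ({p, q, r, s, t} : Finset ℕ) = insert t {p, q, r, s} := by
      ext x; simp only [Finset.mem_insert, Finset.mem_singleton]; tauto
    rw [e, Finset.card_insert_of_notMem (Finset.mem_sdiff.1 ht).2, h4]
  rcases Nat.lt_or_ge (B \ {p, q, r, s}).card 4 with hlt | hge
  · have h1 : (B \ {p, q, r, s}).card = 1 ∨ (B \ {p, q, r, s}).card = 2 ∨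
      (B \ {p, q, r, s}).card = 3 := by omega
    rcases h1 with h1 | h1 | h1
    · obtain ⟨t, ht⟩ := Finset.card_eq_one.1 h1
      rw [ht] at hf
      obtain ⟨c, rfl⟩ := W_one hf
      have k := key t (by rw [ht]; simp)
      have e : ({p, q, r, s, t} : Finset ℕ) = B := by
        rw [hBC, ht]; ext x
        simp only [Finset.mem_insert, Finset.mem_singleton, Finset.mem_union]; tauto
      rw [e] at k
      have k2 := Submodule.smul_mem _ c k
      rw [← map_smul] at k2
      exact k2
    · obtain ⟨t, u, htu, ht⟩ := Finset.card_eq_two.1 h1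
      rw [ht] at hf
      obtain ⟨c, rfl⟩ := W_two htu hf
      have k := key u (by rw [ht]; simp)
      have htn : t ∈ B \ {p, q, r, s} := by rw [ht]; simp
      have hu := genW2_lm_GW k (u := t) (by
        have := (Finset.mem_sdiff.1 htn).2
        simp only [Finset.mem_insert, Finset.mem_singleton] at this ⊢
        tauto)
      have e : insert t ({p, q, r, s, u} : Finset ℕ) = B := by
        rw [hBC, ht]; ext x
        simp only [Finset.mem_insert, Finset.mem_singleton, Finset.mem_union]; tauto
      rw [e, ← genW2_xm_lm] at hu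
      have k2 := Submodule.smul_mem _ c hu
      rw [← map_smul] at k2
      exact k2
    · obtain ⟨t, u, v, htu, htv, huv, ht⟩ := Finset.card_eq_three.1 h1
      rw [ht] at hf
      obtain ⟨a, b, c, d, rfl⟩ := W_three htu htv huv hf
      have mt : t ∈ B \ {p, q, r, s} := by rw [ht]; simp
      have mu : u ∈ B \ {p, q, r, s} := by rw [ht]; simp
      have mv : v ∈ B \ {p, q, r, s} := by rw [ht]; simp
      have nt := (Finset.mem_sdiff.1 mt).2
      have nu := (Finset.mem_sdiff.1 mu).2
      have nv := (Finset.mem_sdiff.1 mv).2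
      simp only [Finset.mem_insert, Finset.mem_singleton] at nt nu nv
      -- terms `(y_a, y_b) y_c`
      have g3 : ∀ a b c : ℕ, a ≠ b → a ≠ c → b ≠ c → (B \ {p, q, r, s}) = {a, b, c} →
          genW2_xm F p q r s (gm a b (fun y => y c)) ∈ GW F B := by
        intro a b c hab hac hbc he
        have ma : a ∈ B \ {p, q, r, s} := by rw [he]; simp
        have mb : b ∈ B \ {p, q, r, s} := by rw [he]; simp
        have mc : c ∈ B \ {p, q, r, s} := by rw [he]; simp
        have na := (Finset.mem_sdiff.1 ma).2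
        have nb := (Finset.mem_sdiff.1 mb).2
        simp only [Finset.mem_insert, Finset.mem_singleton] at na nb
        rw [genW2_xm_gm]
        refine genW2_gm (Finset.mem_sdiff.1 ma).1 (Finset.mem_sdiff.1 mb).1 hab ?_
        refine genW2_cast (genW2_le (key c mc)) ?_
        rw [hBC, he]
        ext x
        simp only [Finset.mem_insert, Finset.mem_singleton, Finset.mem_union, Finset.mem_sdiff]
        constructor
        · rintro (rfl | rfl | rfl | rfl | rfl)
          · exact ⟨by tauto, by rintro (h | h) <;> subst h <;> tauto⟩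
          · exact ⟨by tauto, by rintro (h | h) <;> subst h <;> tauto⟩
          · exact ⟨by tauto, by rintro (h | h) <;> subst h <;> tauto⟩
          · exact ⟨by tauto, by rintro (h | h) <;> subst h <;> tauto⟩
          · exact ⟨by tauto, by rintro (h | h) <;> subst h <;> tauto⟩
        · tauto
      have e1 : (fun y : ℕ → V F => a • V.ip (y u) (y v) • y t + b • V.ip (y t) (y v) • y u
          + c • V.ip (y t) (y u) • y v + d • (y t * (y u * y v)))
          = a • gm u v (fun y => y t) + b • gm t v (fun y => y u) + c • gm t u (fun y => y v)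
            + d • genW2_lm F t (genW2_lm F u (fun y => y v)) := by
        funext y
        simp only [Pi.add_apply, Pi.smul_apply, gm_apply, genW2_lm_apply]
      rw [e1]
      simp only [map_add, map_smul]
      refine Submodule.add_mem _ (Submodule.add_mem _ (Submodule.add_mem _
        (Submodule.smul_mem _ _ ?_) (Submodule.smul_mem _ _ ?_)) (Submodule.smul_mem _ _ ?_))
        (Submodule.smul_mem _ _ ?_)
      · refine g3 u v t huv htu.symm htv.symm ?_
        rw [ht]; ext x; simp only [Finset.mem_insert, Finset.mem_singleton]; tauto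
      · refine g3 t v u htv htu huv.symm ?_
        rw [ht]; ext x; simp only [Finset.mem_insert, Finset.mem_singleton]; tauto
      · exact g3 t u v htu htv huv ht
      · rw [genW2_xm_lm, genW2_xm_lm]
        have k1 := genW2_lm_GW (key v mv) (u := u) (by
          simp only [Finset.mem_insert, Finset.mem_singleton]
          tauto)
        have k2 := genW2_lm_GW k1 (u := t) (by
          simp only [Finset.mem_insert, Finset.mem_singleton]
          tauto)
        have e : insert t (insert u ({p, q, r, s, v} : Finset ℕ)) = B := by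
          rw [hBC, ht]; ext x
          simp only [Finset.mem_insert, Finset.mem_singleton, Finset.mem_union]; tauto
        rwa [e] at k2
  · have hG := IH _ (by omega) hge hf
    refine genW2_ind (genW2_xm F p q r s) ?_ ?_ hG
    · intro a b h ha hb hab hh
      rw [genW2_xm_gm]
      have ha' := Finset.mem_sdiff.1 ha
      have hb' := Finset.mem_sdiff.1 hb
      simp only [Finset.mem_insert, Finset.mem_singleton] at ha' hb'
      refine genW2_gm ha'.1 hb'.1 hab (genW2_xm_W ?_ ?_ ?_ ?_ D (genW2_cast hh ?_))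
      · simp only [Finset.mem_sdiff, Finset.mem_insert, Finset.mem_singleton]
        exact ⟨hp, by rintro (h | h) <;> subst h <;> tauto⟩
      · simp only [Finset.mem_sdiff, Finset.mem_insert, Finset.mem_singleton]
        exact ⟨hq, by rintro (h | h) <;> subst h <;> tauto⟩
      · simp only [Finset.mem_sdiff, Finset.mem_insert, Finset.mem_singleton]
        exact ⟨hr, by rintro (h | h) <;> subst h <;> tauto⟩
      · simp only [Finset.mem_sdiff, Finset.mem_insert, Finset.mem_singleton]
        exact ⟨hs, by rintro (h | h) <;> subst h <;> tauto⟩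
      · ext x
        simp only [Finset.mem_sdiff]
        tauto
    · intro a b c h ha hb hc hab hac hbc hh
      rw [genW2_xm_phm]
      have ha' := Finset.mem_sdiff.1 ha
      have hb' := Finset.mem_sdiff.1 hb
      have hc' := Finset.mem_sdiff.1 hc
      simp only [Finset.mem_insert, Finset.mem_singleton] at ha' hb' hc'
      refine genW2_phm ha'.1 hb'.1 hc'.1 hab hac hbc (genW2_xm_W ?_ ?_ ?_ ?_ D
        (genW2_cast hh ?_))
      · simp only [Finset.mem_sdiff, Finset.mem_insert, Finset.mem_singleton]
        exact ⟨hp, by rintro (h | h | h) <;> subst h <;> tauto⟩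
      · simp only [Finset.mem_sdiff, Finset.mem_insert, Finset.mem_singleton]
        exact ⟨hq, by rintro (h | h | h) <;> subst h <;> tauto⟩
      · simp only [Finset.mem_sdiff, Finset.mem_insert, Finset.mem_singleton]
        exact ⟨hr, by rintro (h | h | h) <;> subst h <;> tauto⟩
      · simp only [Finset.mem_sdiff, Finset.mem_insert, Finset.mem_singleton]
        exact ⟨hs, by rintro (h | h | h) <;> subst h <;> tauto⟩
      · ext x
        simp only [Finset.mem_sdiff]
        tauto

theorem genW2_card4 {a b c d : ℕ} (h1 : a ≠ b) (h2 : a ≠ c) (h3 : a ≠ d) (h4 : b ≠ c)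
    (h5 : b ≠ d) (h6 : c ≠ d) : ({a, b, c, d} : Finset ℕ).card = 4 := by
  rw [Finset.card_insert_of_notMem (by simp [h1, h2, h3]),
    Finset.card_insert_of_notMem (by simp [h4, h5]),
    Finset.card_insert_of_notMem (by simp [h6]), Finset.card_singleton]

/-- induction step of `genW` for the insertion of a cherry -/
theorem genW2_step {B : Finset ℕ}
    (IH : ∀ C : Finset ℕ, C.card < B.card → 4 ≤ C.card → W F C ≤ GW F C) (h5 : 5 ≤ B.card)
    {p q : ℕ} (hp : p ∈ B) (hq : q ∈ B) (hpq : p ≠ q) {h : Fn F} (hh : h ∈ W F (B.erase q)) :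
    cp p q h ∈ GW F B := by
  have hc : (B.erase q).card = B.card - 1 := Finset.card_erase_of_mem hq
  have hG := IH (B.erase q) (by omega) (by omega) hh
  refine genW2_ind (cp p q) ?_ ?_ hG
  · intro a b f ha hb hab hf
    have ha' := Finset.mem_erase.1 ha
    have hb' := Finset.mem_erase.1 hb
    by_cases hpa : p = a
    · subst hpa
      have e : cp p q (gm p b f) = phm p q b f := by
        funext y
        rw [cp_apply, gm_apply, phm_apply, W_update hf (by simp), Function.update_self,
          Function.update_of_ne hab.symm]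
      rw [e]
      refine genW2_phm hp hq hb'.2 hpq hab (Ne.symm hb'.1) (genW2_cast hf ?_)
      ext x
      simp only [Finset.mem_sdiff, Finset.mem_erase, Finset.mem_insert, Finset.mem_singleton]
      tauto
    · by_cases hpb : p = b
      · subst hpb
        have e : cp p q (gm a p f) = phm p q a f := by
          funext y
          rw [cp_apply, gm_apply, phm_apply, W_update hf (by simp), Function.update_self,
            Function.update_of_ne hab, V.ip_comm]
        rw [e]
        refine genW2_phm hp hq ha'.2 hpq hab.symm (Ne.symm ha'.1) (genW2_cast hf ?_)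
        ext x
        simp only [Finset.mem_sdiff, Finset.mem_erase, Finset.mem_insert, Finset.mem_singleton]
        tauto
      · have e : cp p q (gm a b f) = gm a b (cp p q f) := by
          funext y
          simp only [cp_apply, gm_apply]
          rw [Function.update_of_ne (Ne.symm hpa), Function.update_of_ne (Ne.symm hpb)]
        rw [e]
        refine genW2_gm ha'.2 hb'.2 hab (cp_mem (genW2_cast hf ?_) ?_ ?_ hpq)
        · ext x
          simp only [Finset.mem_sdiff, Finset.mem_erase, Finset.mem_insert, Finset.mem_singleton]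
          tauto
        · simp only [Finset.mem_sdiff, Finset.mem_insert, Finset.mem_singleton]
          tauto
        · simp only [Finset.mem_sdiff, Finset.mem_insert, Finset.mem_singleton]
          exact ⟨hq, by rintro (h | h); exacts [ha'.1 h.symm, hb'.1 h.symm]⟩
  · intro a b c f ha hb hc hab hac hbc hf
    have ha' := Finset.mem_erase.1 ha
    have hb' := Finset.mem_erase.1 hb
    have hc' := Finset.mem_erase.1 hc
    have sd : ∀ a' b' c' : ℕ, ({a, b, c} : Finset ℕ) = {a', b', c'} → a' = p →
        B.erase q \ {a, b, c} = B \ {p, q, b', c'} := by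
      intro a' b' c' he hp'
      rw [he, hp']
      ext x
      simp only [Finset.mem_sdiff, Finset.mem_erase, Finset.mem_insert, Finset.mem_singleton]
      tauto
    by_cases hpa : p = a
    · have e : cp p q (phm a b c f) = genW2_xm F p q b c f := by
        funext y
        rw [cp_apply, phm_apply, genW2_xm_apply, W_update hf (by simp [hpa])]
        subst hpa
        rw [Function.update_self, Function.update_of_ne hab.symm, Function.update_of_ne hac.symm,
          V.tri_move (y p * y q)]
      rw [e]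
      refine genW2_lemX' IH hp hq hb'.2 hc'.2 ?_ h5 (genW2_cast hf (sd a b c rfl hpa.symm))
      exact genW2_card4 hpq (hpa ▸ hab) (hpa ▸ hac) (Ne.symm hb'.1) (Ne.symm hc'.1) hbc
    · by_cases hpb : p = b
      · have e : cp p q (phm a b c f) = genW2_xm F p q c a f := by
          funext y
          rw [cp_apply, phm_apply, genW2_xm_apply, W_update hf (by simp [hpb])]
          subst hpb
          rw [Function.update_self, Function.update_of_ne hab, Function.update_of_ne hbc.symm,
            V.tri_cyc (y a), V.tri_move (y p * y q)]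
        rw [e]
        refine genW2_lemX' IH hp hq hc'.2 ha'.2 ?_ h5 (genW2_cast hf (sd b c a ?_ hpb.symm))
        · exact genW2_card4 hpq (hpb ▸ hbc) hpa (Ne.symm hc'.1) (Ne.symm ha'.1) hac.symm
        · ext x
          simp only [Finset.mem_insert, Finset.mem_singleton]
          tauto
      · by_cases hpc : p = c
        · have e : cp p q (phm a b c f) = genW2_xm F p q a b f := by
            funext y
            rw [cp_apply, phm_apply, genW2_xm_apply, W_update hf (by simp [hpc])]
            subst hpc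
            rw [Function.update_self, Function.update_of_ne hac, Function.update_of_ne hbc,
              V.ip_comm]
          rw [e]
          refine genW2_lemX' IH hp hq ha'.2 hb'.2 ?_ h5 (genW2_cast hf (sd c a b ?_ hpc.symm))
          · exact genW2_card4 hpq hpa hpb (Ne.symm ha'.1) (Ne.symm hb'.1) hab
          · ext x
            simp only [Finset.mem_insert, Finset.mem_singleton]
            tauto
        · have e : cp p q (phm a b c f) = phm a b c (cp p q f) := by
            funext y
            simp only [cp_apply, phm_apply]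
            rw [Function.update_of_ne (Ne.symm hpa), Function.update_of_ne (Ne.symm hpb),
              Function.update_of_ne (Ne.symm hpc)]
          rw [e]
          refine genW2_phm ha'.2 hb'.2 hc'.2 hab hac hbc (cp_mem (genW2_cast hf ?_) ?_ ?_ hpq)
          · ext x
            simp only [Finset.mem_sdiff, Finset.mem_erase, Finset.mem_insert,
              Finset.mem_singleton]
            tauto
          · simp only [Finset.mem_sdiff, Finset.mem_insert, Finset.mem_singleton]
            tauto
          · simp only [Finset.mem_sdiff, Finset.mem_insert, Finset.mem_singleton]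
            exact ⟨hq, by rintro (h | h | h); exacts [ha'.1 h.symm, hb'.1 h.symm, hc'.1 h.symm]⟩

theorem genW2_all (n : ℕ) : ∀ B : Finset ℕ, B.card = n → 4 ≤ B.card → W F B ≤ GW F B := by
  induction n using Nat.strong_induction_on with
  | _ n ih =>
    intro B hn h4
    rcases Nat.lt_or_ge 4 B.card with h5 | h5
    · have IH : ∀ C : Finset ℕ, C.card < B.card → 4 ≤ C.card → W F C ≤ GW F C :=
        fun C hC h => ih C.card (hn ▸ hC) C rfl h
      refine W_le_of (by omega) (GW F B) genW2_stable ?_ ?_
      · intro p hp q hq hpq h hh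
        exact genW2_gm hp hq hpq hh
      · intro p hp q hq hpq h hh
        exact genW2_step IH h5 hp hq hpq hh
    · exact W_four (by omega)

/-- general form -/
theorem lemX' {B : Finset ℕ} {p q r s : ℕ} (hp : p ∈ B) (hq : q ∈ B) (hr : r ∈ B) (hs : s ∈ B)
    (h4 : ({p, q, r, s} : Finset ℕ).card = 4) (h5 : 5 ≤ B.card) {f : Fn F}
    (hf : f ∈ W F (B \ {p, q, r, s})) :
    (fun y : ℕ → V F => V.ip (y p * y q) (y r * y s) • f y) ∈ GW F B :=
  genW2_lemX' (fun C _ h => genW2_all C.card C rfl h) hp hq hr hs h4 h5 hf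

theorem genW {B : Finset ℕ} (hB : 4 ≤ B.card) : W F B ≤ GW F B := genW2_all B.card B rfl hB

end

end OctId
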