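import Pool.Agent.Work.MP_9b6dd6_al.Ev

/-!
# Injectivity of the evaluation in degrees at most 4
-/

namespace OctId

open Finset

set_option linter.unusedSectionVars false

noncomputable section

variable {F : Type*} [Field F] [CharZero F]

/-- the evaluation is injective on `ML B` -/
def Inj (F : Type*) [Field F] [CharZero F] (B : Finset ℕ) : Prop :=
  ∀ u : Mal F, u ∈ ML F xg B → ev u = 0 → u = 0

/-! ### words with at most four letters -/

theorem Low_w1 {B : Finset ℕ} {w : FreeMagma ℕ} (hw : MW B w) (h : B.card = 1) :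
    ∃ p, B = {p} ∧ w = FreeMagma.of p := by
  cases hw with
  | of i => exact ⟨i, rfl, rfl⟩
  | @mul C D u v hu hv hd =>
    exfalso
    rw [card_union_of_disjoint hd] at h
    have h1 := card_pos.2 hu.nonempty
    have h2 := card_pos.2 hv.nonempty
    omega

theorem Low_w2 {B : Finset ℕ} {w : FreeMagma ℕ} (hw : MW B w) (h : B.card = 2) :
    ∃ p q, B = {p, q} ∧ (wv xg w : Mal F) = xg p * xg q := by
  cases hw with
  | of i => simp at h
  | @mul C D u v hu hv hd =>
    rw [card_union_of_disjoint hd] at h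
    have h1 := card_pos.2 hu.nonempty
    have h2 := card_pos.2 hv.nonempty
    obtain ⟨p, rfl, rfl⟩ := Low_w1 hu (by omega)
    obtain ⟨q, rfl, rfl⟩ := Low_w1 hv (by omega)
    exact ⟨p, q, rfl, rfl⟩

theorem Low_w3 {B : Finset ℕ} {w : FreeMagma ℕ} (hw : MW B w) (h : B.card = 3) :
    ∃ p q r, B = {p, q, r} ∧ ((wv xg w : Mal F) = (xg p * xg q) * xg r ∨
      (wv xg w : Mal F) = -((xg p * xg q) * xg r)) := by
  cases hw with
  | of i => simp at h
  | @mul C D u v hu hv hd =>
    rw [card_union_of_disjoint hd] at h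
    have h1 := card_pos.2 hu.nonempty
    have h2 := card_pos.2 hv.nonempty
    have h3 : D.card = 1 ∨ C.card = 1 := by omega
    rcases h3 with h3 | h3
    · obtain ⟨r, rfl, rfl⟩ := Low_w1 hv h3
      obtain ⟨p, q, rfl, hpq⟩ := Low_w2 (F := F) hu (by omega)
      refine ⟨p, q, r, ?_, Or.inl ?_⟩
      · ext i; simp only [mem_union, mem_insert, mem_singleton]; tauto
      · rw [wv_mul, hpq, wv_of]
    · obtain ⟨r, rfl, rfl⟩ := Low_w1 hu h3
      obtain ⟨p, q, rfl, hpq⟩ := Low_w2 (F := F) hv (by omega)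
      refine ⟨p, q, r, ?_, Or.inr ?_⟩
      · ext i; simp only [mem_union, mem_insert, mem_singleton]; tauto
      · rw [wv_mul, hpq, wv_of]
        exact malAlg_Mal.anti _ _

theorem Low_w4 {B : Finset ℕ} {w : FreeMagma ℕ} (hw : MW B w) (h : B.card = 4) :
    ∃ p q r s, B = {p, q, r, s} ∧ ∀ P : Submodule F (Mal F),
      (xg p * xg q) * (xg r * xg s) ∈ P → ((xg p * xg q) * xg r) * xg s ∈ P →
      (wv xg w : Mal F) ∈ P := by
  cases hw with
  | of i => simp at h
  | @mul C D u v hu hv hd =>
    rw [card_union_of_disjoint hd] at h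
    have h1 := card_pos.2 hu.nonempty
    have h2 := card_pos.2 hv.nonempty
    have h3 : D.card = 1 ∨ C.card = 1 ∨ D.card = 2 := by omega
    rcases h3 with h3 | h3 | h3
    · obtain ⟨s, rfl, rfl⟩ := Low_w1 hv h3
      obtain ⟨p, q, r, rfl, hpq⟩ := Low_w3 (F := F) hu (by omega)
      refine ⟨p, q, r, s, ?_, fun P _ hb => ?_⟩
      · ext i; simp only [mem_union, mem_insert, mem_singleton]; tauto
      · rw [wv_mul, wv_of]
        rcases hpq with hpq | hpq
        · rw [hpq]; exact hb
        · rw [hpq, neg_mul]; exact P.neg_mem hb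
    · obtain ⟨s, rfl, rfl⟩ := Low_w1 hu h3
      obtain ⟨p, q, r, rfl, hpq⟩ := Low_w3 (F := F) hv (by omega)
      refine ⟨p, q, r, s, ?_, fun P _ hb => ?_⟩
      · ext i; simp only [mem_union, mem_insert, mem_singleton]; tauto
      · rw [wv_mul, wv_of, malAlg_Mal.anti]
        rcases hpq with hpq | hpq
        · rw [hpq]; exact P.neg_mem hb
        · rw [hpq, neg_mul, neg_neg]; exact hb
    · obtain ⟨p, q, rfl, hpq⟩ := Low_w2 (F := F) hu (by omega)
      obtain ⟨r, s, rfl, hrs⟩ := Low_w2 (F := F) hv h3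
      refine ⟨p, q, r, s, ?_, fun P ha _ => ?_⟩
      · ext i; simp only [mem_union, mem_insert, mem_singleton]; tauto
      · rw [wv_mul, hpq, hrs]; exact ha

/-- `ML` of four letters is spanned by the values of `EE` and `e4` -/
theorem ML_four {a b c d : ℕ} (h : ({a, b, c, d} : Finset ℕ).card = 4) {u : Mal F}
    (hu : u ∈ ML F xg {a, b, c, d}) :
    u ∈ Submodule.span F ({v | ∃ p q r s, ({p, q, r, s} : Finset ℕ) = {a, b, c, d} ∧
      (v = EE F (xg p) (xg q) (xg r) (xg s) ∨ v = e4 F (xg p) (xg q) (xg r) (xg s))}) := by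
  refine ML_induction (p := fun u => u ∈ Submodule.span F
    ({v | ∃ p q r s, ({p, q, r, s} : Finset ℕ) = {a, b, c, d} ∧
      (v = EE F (xg p) (xg q) (xg r) (xg s) ∨ v = e4 F (xg p) (xg q) (xg r) (xg s))}))
    ?_ (Submodule.zero_mem _) (fun _ _ => Submodule.add_mem _)
    (fun c _ => Submodule.smul_mem _ c) hu
  intro w hw
  obtain ⟨p, q, r, s, hB, hP⟩ := Low_w4 (F := F) hw h
  generalize hS : Submodule.span F ({v : Mal F | ∃ p q r s, ({p, q, r, s} : Finset ℕ) =
      {a, b, c, d} ∧ (v = EE F (xg p) (xg q) (xg r) (xg s) ∨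
        v = e4 F (xg p) (xg q) (xg r) (xg s))}) = S
  have hE : ∀ p' q' r' s', ({p', q', r', s'} : Finset ℕ) = {p, q, r, s} →
      EE F (xg p') (xg q') (xg r') (xg s') ∈ S := by
    intro p' q' r' s' h'
    rw [← hS]
    exact Submodule.subset_span ⟨p', q', r', s', h'.trans hB.symm, Or.inl rfl⟩
  have he : ∀ p' q' r' s', ({p', q', r', s'} : Finset ℕ) = {p, q, r, s} →
      e4 F (xg p') (xg q') (xg r') (xg s') ∈ S := by
    intro p' q' r' s' h'
    rw [← hS]
    exact Submodule.subset_span ⟨p', q', r', s', h'.trans hB.symm, Or.inr rfl⟩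
  have t : ∀ p' q' r' s', (∀ i, (i = p' ∨ i = q' ∨ i = r' ∨ i = s') ↔
      (i = p ∨ i = q ∨ i = r ∨ i = s)) → ({p', q', r', s'} : Finset ℕ) = {p, q, r, s} := by
    intro p' q' r' s' h'
    ext i
    simpa only [mem_insert, mem_singleton] using h' i
  have e1 := hE p r q s (t _ _ _ _ fun i => by tauto)
  have e2 := hE p s q r (t _ _ _ _ fun i => by tauto)
  have e3 := hE q r p s (t _ _ _ _ fun i => by tauto)
  have e4' := hE q s p r (t _ _ _ _ fun i => by tauto)
  have e5 := hE r s p q (t _ _ _ _ fun i => by tauto)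
  have f1 := he p q r s (t _ _ _ _ fun i => by tauto)
  have f2 := he p q s r (t _ _ _ _ fun i => by tauto)
  have f3 := he p r s q (t _ _ _ _ fun i => by tauto)
  have f4 := he q r s p (t _ _ _ _ fun i => by tauto)
  apply hP
  · rw [cert_tree_a malAlg_Mal]
    exact S.sub_mem (S.add_mem (S.add_mem (S.sub_mem (S.sub_mem (S.add_mem (S.add_mem
      (S.neg_mem e1) e2) e3) e4') f1) f2) f3) f4
  · rw [cert_tree_b malAlg_Mal]
    exact S.add_mem (S.sub_mem (S.add_mem (S.sub_mem (S.add_mem (S.sub_mem (S.sub_mem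
      e1 e2) e3) e4') e5) f2) f3) f4

/-! ### linear independence of the values -/

theorem Low_ten {x1 x2 x3 x4 x5 x6 z1 z2 z3 z4 : F}
    (H : ∀ v1 v2 v3 v4 : V F, x1 • (V.ip v1 v2 • (v3 * v4)) + x2 • (V.ip v3 v4 • (v1 * v2))
      + x3 • (V.ip v1 v3 • (v2 * v4)) + x4 • (V.ip v2 v4 • (v1 * v3))
      + x5 • (V.ip v1 v4 • (v2 * v3)) + x6 • (V.ip v2 v3 • (v1 * v4))
      + z1 • (V.ip (v2 * v3) v4 • v1) + z2 • (V.ip (v1 * v3) v4 • v2)
      + z3 • (V.ip (v1 * v2) v4 • v3) + z4 • (V.ip (v1 * v2) v3 • v4) = 0) :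
    x1 = 0 ∧ x2 = 0 ∧ x3 = 0 ∧ x4 = 0 ∧ x5 = 0 ∧ x6 = 0 ∧ z1 = 0 ∧ z2 = 0 ∧ z3 = 0 ∧ z4 = 0 := by
  refine ⟨?_, ?_, ?_, ?_, ?_, ?_, ?_, ?_, ?_, ?_⟩
  · have h := congrFun (H (V.e 0) (V.e 0) (V.e 1) (V.e 2)) 4
    simpa [V.add_apply, V.smul_apply, V.mul_apply, V.zero_apply] using h
  · have h := congrFun (H (V.e 1) (V.e 2) (V.e 0) (V.e 0)) 4
    simpa [V.add_apply, V.smul_apply, V.mul_apply, V.zero_apply] using h
  · have h := congrFun (H (V.e 0) (V.e 1) (V.e 0) (V.e 2)) 4
    simpa [V.add_apply, V.smul_apply, V.mul_apply, V.zero_apply] using h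
  · have h := congrFun (H (V.e 1) (V.e 0) (V.e 2) (V.e 0)) 4
    simpa [V.add_apply, V.smul_apply, V.mul_apply, V.zero_apply] using h
  · have h := congrFun (H (V.e 0) (V.e 1) (V.e 2) (V.e 0)) 4
    simpa [V.add_apply, V.smul_apply, V.mul_apply, V.zero_apply] using h
  · have h := congrFun (H (V.e 1) (V.e 0) (V.e 0) (V.e 2)) 4
    simpa [V.add_apply, V.smul_apply, V.mul_apply, V.zero_apply] using h
  · have h := congrFun (H (V.e 2) (V.e 0) (V.e 1) (V.e 3)) 2
    simpa [V.add_apply, V.smul_apply, V.mul_apply, V.zero_apply] using h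
  · have h := congrFun (H (V.e 0) (V.e 2) (V.e 1) (V.e 3)) 2
    simpa [V.add_apply, V.smul_apply, V.mul_apply, V.zero_apply] using h
  · have h := congrFun (H (V.e 0) (V.e 1) (V.e 2) (V.e 3)) 2
    simpa [V.add_apply, V.smul_apply, V.mul_apply, V.zero_apply] using h
  · have h := congrFun (H (V.e 0) (V.e 1) (V.e 3) (V.e 2)) 2
    simpa [V.add_apply, V.smul_apply, V.mul_apply, V.zero_apply] using h

theorem Low_three {x y z : F}
    (H : ∀ v1 v2 v3 : V F, x • ((v1 * v2) * v3) + y • ((v2 * v3) * v1) + z • ((v3 * v1) * v2) = 0) :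
    x = 0 ∧ y = 0 ∧ z = 0 := by
  have h1 := congrFun (H (V.e 0) (V.e 1) (V.e 1)) 0
  have h2 := congrFun (H (V.e 1) (V.e 0) (V.e 1)) 0
  have h3 := congrFun (H (V.e 0) (V.e 1) (V.e 2)) 5
  simp [V.add_apply, V.smul_apply, V.mul_apply, V.zero_apply] at h1 h2 h3
  have hx : (3 : F) * x = 0 := by linear_combination h2 - h1 - h3
  have hx0 : x = 0 := by
    rcases mul_eq_zero.1 hx with h | h
    · exact absurd h (by norm_num)
    · exact h
  refine ⟨hx0, ?_, ?_⟩
  · linear_combination hx0 - h2
  · linear_combination hx0 + h1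

/-- normal form in degree four -/
theorem Low_four {a b c d : ℕ} (hab : a ≠ b) (hac : a ≠ c) (had : a ≠ d) (hbc : b ≠ c)
    (hbd : b ≠ d) (hcd : c ≠ d) {u : Mal F} (hu : u ∈ ML F xg {a, b, c, d}) :
    u ∈ Submodule.span F ({EE F (xg a) (xg b) (xg c) (xg d), EE F (xg c) (xg d) (xg a) (xg b),
      EE F (xg a) (xg c) (xg b) (xg d), EE F (xg b) (xg d) (xg a) (xg c),
      EE F (xg a) (xg d) (xg b) (xg c), EE F (xg b) (xg c) (xg a) (xg d),
      e4 F (xg b) (xg c) (xg d) (xg a), e4 F (xg a) (xg c) (xg d) (xg b),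
      e4 F (xg a) (xg b) (xg d) (xg c), e4 F (xg a) (xg b) (xg c) (xg d)} : Set (Mal F)) := by
  have hcard : ({a, b, c, d} : Finset ℕ).card = 4 := by
    rw [card_insert_of_notMem, card_insert_of_notMem, card_pair hcd]
    · simp only [mem_insert, mem_singleton, not_or]; exact ⟨hbc, hbd⟩
    · simp only [mem_insert, mem_singleton, not_or]; exact ⟨hab, hac, had⟩
  have hu' := ML_four hcard hu
  generalize hS : Submodule.span F ({EE F (xg a) (xg b) (xg c) (xg d),
      EE F (xg c) (xg d) (xg a) (xg b),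
      EE F (xg a) (xg c) (xg b) (xg d), EE F (xg b) (xg d) (xg a) (xg c),
      EE F (xg a) (xg d) (xg b) (xg c), EE F (xg b) (xg c) (xg a) (xg d),
      e4 F (xg b) (xg c) (xg d) (xg a), e4 F (xg a) (xg c) (xg d) (xg b),
      e4 F (xg a) (xg b) (xg d) (xg c), e4 F (xg a) (xg b) (xg c) (xg d)} : Set (Mal F)) = S
  have g1 : EE F (xg a) (xg b) (xg c) (xg d) ∈ S := by
    rw [← hS]; exact Submodule.subset_span (by simp)
  have g2 : EE F (xg c) (xg d) (xg a) (xg b) ∈ S := by
    rw [← hS]; exact Submodule.subset_span (by simp)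
  have g3 : EE F (xg a) (xg c) (xg b) (xg d) ∈ S := by
    rw [← hS]; exact Submodule.subset_span (by simp)
  have g4 : EE F (xg b) (xg d) (xg a) (xg c) ∈ S := by
    rw [← hS]; exact Submodule.subset_span (by simp)
  have g5 : EE F (xg a) (xg d) (xg b) (xg c) ∈ S := by
    rw [← hS]; exact Submodule.subset_span (by simp)
  have g6 : EE F (xg b) (xg c) (xg a) (xg d) ∈ S := by
    rw [← hS]; exact Submodule.subset_span (by simp)
  have k1 : e4 F (xg b) (xg c) (xg d) (xg a) ∈ S := by
    rw [← hS]; exact Submodule.subset_span (by simp)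
  have k2 : e4 F (xg a) (xg c) (xg d) (xg b) ∈ S := by
    rw [← hS]; exact Submodule.subset_span (by simp)
  have k3 : e4 F (xg a) (xg b) (xg d) (xg c) ∈ S := by
    rw [← hS]; exact Submodule.subset_span (by simp)
  have k4 : e4 F (xg a) (xg b) (xg c) (xg d) ∈ S := by
    rw [← hS]; exact Submodule.subset_span (by simp)
  have s1 : ∀ {p q r s : ℕ}, EE F (xg p) (xg q) (xg r) (xg s) ∈ S →
      EE F (xg q) (xg p) (xg r) (xg s) ∈ S := by
    intro p q r s h; rw [EE_symm]; exact h
  have s2 : ∀ {p q r s : ℕ}, EE F (xg p) (xg q) (xg r) (xg s) ∈ S →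
      EE F (xg p) (xg q) (xg s) (xg r) ∈ S := by
    intro p q r s h; rw [EE_skew]; exact S.neg_mem h
  have s3 : ∀ {p q r s : ℕ}, e4 F (xg p) (xg q) (xg r) (xg s) ∈ S →
      e4 F (xg q) (xg p) (xg r) (xg s) ∈ S := by
    intro p q r s h
    rw [eq_neg_of_add_eq_zero_left (cert_e4_skew' malAlg_Mal (xg q) (xg p) (xg r) (xg s))]
    exact S.neg_mem h
  have s4 : ∀ {p q r s : ℕ}, e4 F (xg p) (xg q) (xg r) (xg s) ∈ S →
      e4 F (xg p) (xg r) (xg q) (xg s) ∈ S := by
    intro p q r s h
    rw [eq_neg_of_add_eq_zero_left (cert_e4_skew malAlg_Mal (xg p) (xg r) (xg q) (xg s))]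
    exact S.neg_mem h
  refine Submodule.span_le.2 ?_ hu'
  rintro v ⟨p, q, r, s, hB, hv⟩
  have hc : ({p, q, r, s} : Finset ℕ).card = 4 := by rw [hB]; exact hcard
  have hpq : p ≠ q := by
    rintro rfl
    have : ({p, p, r, s} : Finset ℕ).card ≤ 3 := by
      rw [insert_eq_of_mem (mem_insert_self _ _)]; exact card_le_three
    omega
  have hpr : p ≠ r := by
    rintro rfl
    have : ({p, q, p, s} : Finset ℕ).card ≤ 3 := by
      rw [insert_eq_of_mem (mem_insert_of_mem (mem_insert_self _ _))]; exact card_le_three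
    omega
  have hps : p ≠ s := by
    rintro rfl
    have : ({p, q, r, p} : Finset ℕ).card ≤ 3 := by
      rw [insert_eq_of_mem (by simp)]; exact card_le_three
    omega
  have hqr : q ≠ r := by
    rintro rfl
    have : ({p, q, q, s} : Finset ℕ).card ≤ 3 := by
      rw [insert_eq_of_mem (mem_insert_self q _)]; exact card_le_three
    omega
  have hqs : q ≠ s := by
    rintro rfl
    have : ({p, q, r, q} : Finset ℕ).card ≤ 3 := by
      have e : ({q, r, q} : Finset ℕ) = {r, q} := insert_eq_of_mem (by simp)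
      rw [e]; exact card_le_three
    omega
  have hrs : r ≠ s := by
    rintro rfl
    have : ({p, q, r, r} : Finset ℕ).card ≤ 3 := by
      rw [pair_eq_singleton]; exact card_le_three
    omega
  have mp : p = a ∨ p = b ∨ p = c ∨ p = d := by
    have : p ∈ ({a, b, c, d} : Finset ℕ) := by rw [← hB]; simp
    simpa only [mem_insert, mem_singleton] using this
  have mq : q = a ∨ q = b ∨ q = c ∨ q = d := by
    have : q ∈ ({a, b, c, d} : Finset ℕ) := by rw [← hB]; simp
    simpa only [mem_insert, mem_singleton] using this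
  have mr : r = a ∨ r = b ∨ r = c ∨ r = d := by
    have : r ∈ ({a, b, c, d} : Finset ℕ) := by rw [← hB]; simp
    simpa only [mem_insert, mem_singleton] using this
  have ms : s = a ∨ s = b ∨ s = c ∨ s = d := by
    have : s ∈ ({a, b, c, d} : Finset ℕ) := by rw [← hB]; simp
    simpa only [mem_insert, mem_singleton] using this
  clear hB hc hu' hu hcard hab hac had hbc hbd hcd hS
  rw [SetLike.mem_coe]
  rcases hv with rfl | rfl
  · rcases mp with rfl | rfl | rfl | rfl <;> rcases mq with rfl | rfl | rfl | rfl <;>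
      first | exact absurd rfl hpq | skip
    all_goals rcases mr with rfl | rfl | rfl | rfl <;>
      first | exact absurd rfl hpr | exact absurd rfl hqr | skip
    all_goals rcases ms with rfl | rfl | rfl | rfl <;>
      first | exact absurd rfl hps | exact absurd rfl hqs | exact absurd rfl hrs | skip
    all_goals first
      | with_reducible exact g1 | with_reducible exact s1 g1 | with_reducible exact s2 g1
      | with_reducible exact s1 (s2 g1)
      | with_reducible exact g2 | with_reducible exact s1 g2 | with_reducible exact s2 g2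
      | with_reducible exact s1 (s2 g2)
      | with_reducible exact g3 | with_reducible exact s1 g3 | with_reducible exact s2 g3
      | with_reducible exact s1 (s2 g3)
      | with_reducible exact g4 | with_reducible exact s1 g4 | with_reducible exact s2 g4
      | with_reducible exact s1 (s2 g4)
      | with_reducible exact g5 | with_reducible exact s1 g5 | with_reducible exact s2 g5
      | with_reducible exact s1 (s2 g5)
      | with_reducible exact g6 | with_reducible exact s1 g6 | with_reducible exact s2 g6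
      | with_reducible exact s1 (s2 g6)
  · rcases mp with rfl | rfl | rfl | rfl <;> rcases mq with rfl | rfl | rfl | rfl <;>
      first | exact absurd rfl hpq | skip
    all_goals rcases mr with rfl | rfl | rfl | rfl <;>
      first | exact absurd rfl hpr | exact absurd rfl hqr | skip
    all_goals rcases ms with rfl | rfl | rfl | rfl <;>
      first | exact absurd rfl hps | exact absurd rfl hqs | exact absurd rfl hrs | skip
    all_goals first
      | with_reducible exact k1 | with_reducible exact s3 k1 | with_reducible exact s4 k1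
      | with_reducible exact s3 (s4 k1) | with_reducible exact s4 (s3 k1)
      | with_reducible exact s3 (s4 (s3 k1))
      | with_reducible exact k2 | with_reducible exact s3 k2 | with_reducible exact s4 k2
      | with_reducible exact s3 (s4 k2) | with_reducible exact s4 (s3 k2)
      | with_reducible exact s3 (s4 (s3 k2))
      | with_reducible exact k3 | with_reducible exact s3 k3 | with_reducible exact s4 k3
      | with_reducible exact s3 (s4 k3) | with_reducible exact s4 (s3 k3)
      | with_reducible exact s3 (s4 (s3 k3))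
      | with_reducible exact k4 | with_reducible exact s3 k4 | with_reducible exact s4 k4
      | with_reducible exact s3 (s4 k4) | with_reducible exact s4 (s3 k4)
      | with_reducible exact s3 (s4 (s3 k4))

theorem Low_inj_four {a b c d : ℕ} (hab : a ≠ b) (hac : a ≠ c) (had : a ≠ d) (hbc : b ≠ c)
    (hbd : b ≠ d) (hcd : c ≠ d) : Inj F {a, b, c, d} := by
  intro u hu h0
  have h := Low_four hab hac had hbc hbd hcd hu
  simp only [Submodule.mem_span_insert, Submodule.mem_span_singleton] at h
  obtain ⟨x1, _, ⟨x2, _, ⟨x3, _, ⟨x4, _, ⟨x5, _, ⟨x6, _, ⟨z1, _, ⟨z2, _, ⟨z3, _,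
    ⟨z4, rfl⟩, rfl⟩, rfl⟩, rfl⟩, rfl⟩, rfl⟩, rfl⟩, rfl⟩, rfl⟩, rfl⟩ := h
  have H : ∀ v1 v2 v3 v4 : V F, x1 • (V.ip v1 v2 • (v3 * v4)) + x2 • (V.ip v3 v4 • (v1 * v2))
      + x3 • (V.ip v1 v3 • (v2 * v4)) + x4 • (V.ip v2 v4 • (v1 * v3))
      + x5 • (V.ip v1 v4 • (v2 * v3)) + x6 • (V.ip v2 v3 • (v1 * v4))
      + z1 • (V.ip (v2 * v3) v4 • v1) + z2 • (V.ip (v1 * v3) v4 • v2)
      + z3 • (V.ip (v1 * v2) v4 • v3) + z4 • (V.ip (v1 * v2) v3 • v4) = 0 := by
    intro v1 v2 v3 v4
    obtain ⟨y, ya, yb, yc, yd⟩ : ∃ y : ℕ → V F, y a = v1 ∧ y b = v2 ∧ y c = v3 ∧ y d = v4 :=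
      ⟨fun i => if i = a then v1 else if i = b then v2 else if i = c then v3 else v4,
        by simp, by simp [hab.symm], by simp [hac.symm, hbc.symm],
        by simp [had.symm, hbd.symm, hcd.symm]⟩
    have h := congrFun h0 y
    simp only [map_add, map_smul, Pi.add_apply, Pi.smul_apply, ev_EE, ev_e4, ev_gen, ya, yb, yc,
      yd, Pi.zero_apply] at h
    rw [← h]
    abel
  obtain ⟨rfl, rfl, rfl, rfl, rfl, rfl, rfl, rfl, rfl, rfl⟩ := Low_ten H
  simp

theorem Low_inj_three {a b c : ℕ} (hab : a ≠ b) (hac : a ≠ c) (hbc : b ≠ c) :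
    Inj F {a, b, c} := by
  intro u hu h0
  have hcard : ({a, b, c} : Finset ℕ).card = 3 := by
    rw [card_eq_three]; exact ⟨a, b, c, hab, hac, hbc, rfl⟩
  have h : u ∈ Submodule.span F ({(xg a * xg b) * xg c, (xg b * xg c) * xg a,
      (xg c * xg a) * xg b} : Set (Mal F)) := by
    generalize hS : Submodule.span F ({(xg a * xg b) * xg c, (xg b * xg c) * xg a,
      (xg c * xg a) * xg b} : Set (Mal F)) = S
    have g1 : (xg a * xg b) * xg c ∈ S := by rw [← hS]; exact Submodule.subset_span (by simp)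
    have g2 : (xg b * xg c) * xg a ∈ S := by rw [← hS]; exact Submodule.subset_span (by simp)
    have g3 : (xg c * xg a) * xg b ∈ S := by rw [← hS]; exact Submodule.subset_span (by simp)
    have s1 : ∀ {p q r : ℕ}, (xg p * xg q) * xg r ∈ S → (xg q * xg p) * xg r ∈ S := by
      intro p q r h
      rw [malAlg_Mal.anti (xg q) (xg p), neg_mul]
      exact S.neg_mem h
    refine ML_induction (p := fun u => u ∈ S) ?_ (Submodule.zero_mem _)
      (fun _ _ => Submodule.add_mem _) (fun c _ => Submodule.smul_mem _ c) hu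
    intro w hw
    obtain ⟨p, q, r, hB, hw'⟩ := Low_w3 (F := F) hw hcard
    have hc : ({p, q, r} : Finset ℕ).card = 3 := by rw [← hB]; exact hcard
    have hpq : p ≠ q := by
      rintro rfl
      have : ({p, p, r} : Finset ℕ).card ≤ 2 := by
        rw [insert_eq_of_mem (mem_insert_self _ _)]; exact card_le_two
      omega
    have hpr : p ≠ r := by
      rintro rfl
      have : ({p, q, p} : Finset ℕ).card ≤ 2 := by
        rw [insert_eq_of_mem (by simp)]; exact card_le_two
      omega
    have hqr : q ≠ r := by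
      rintro rfl
      have : ({p, q, q} : Finset ℕ).card ≤ 2 := by
        rw [pair_eq_singleton]; exact card_le_two
      omega
    have mp : p = a ∨ p = b ∨ p = c := by
      have : p ∈ ({a, b, c} : Finset ℕ) := by rw [hB]; simp
      simpa only [mem_insert, mem_singleton] using this
    have mq : q = a ∨ q = b ∨ q = c := by
      have : q ∈ ({a, b, c} : Finset ℕ) := by rw [hB]; simp
      simpa only [mem_insert, mem_singleton] using this
    have mr : r = a ∨ r = b ∨ r = c := by
      have : r ∈ ({a, b, c} : Finset ℕ) := by rw [hB]; simp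
      simpa only [mem_insert, mem_singleton] using this
    have key : (xg p * xg q) * xg r ∈ S := by
      clear hB hc hu hcard hab hac hbc hS hw' hw h0
      rcases mp with rfl | rfl | rfl <;> rcases mq with rfl | rfl | rfl <;>
        first | exact absurd rfl hpq | skip
      all_goals rcases mr with rfl | rfl | rfl <;>
        first | exact absurd rfl hpr | exact absurd rfl hqr | skip
      all_goals first
        | with_reducible exact g1 | with_reducible exact g2 | with_reducible exact g3
        | with_reducible exact s1 g1 | with_reducible exact s1 g2 | with_reducible exact s1 g3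
    rcases hw' with hw' | hw'
    · rw [hw']; exact key
    · rw [hw']; exact S.neg_mem key
  simp only [Submodule.mem_span_insert, Submodule.mem_span_singleton] at h
  obtain ⟨x, _, ⟨y, _, ⟨z, rfl⟩, rfl⟩, rfl⟩ := h
  have H : ∀ v1 v2 v3 : V F, x • ((v1 * v2) * v3) + y • ((v2 * v3) * v1)
      + z • ((v3 * v1) * v2) = 0 := by
    intro v1 v2 v3
    obtain ⟨y', ya, yb, yc⟩ : ∃ y : ℕ → V F, y a = v1 ∧ y b = v2 ∧ y c = v3 :=
      ⟨fun i => if i = a then v1 else if i = b then v2 else v3,
        by simp, by simp [hab.symm], by simp [hac.symm, hbc.symm]⟩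
    have h := congrFun h0 y'
    simp only [map_add, map_smul, Pi.add_apply, Pi.smul_apply, ev_mul, ev_gen, ya, yb, yc,
      Pi.zero_apply] at h
    rw [← h]
    abel
  obtain ⟨rfl, rfl, rfl⟩ := Low_three H
  simp

theorem Low_inj_two {a b : ℕ} (hab : a ≠ b) : Inj F {a, b} := by
  intro u hu h0
  have hcard : ({a, b} : Finset ℕ).card = 2 := card_pair hab
  have h : u ∈ Submodule.span F ({xg a * xg b} : Set (Mal F)) := by
    generalize hS : Submodule.span F ({xg a * xg b} : Set (Mal F)) = S
    have g1 : (xg a * xg b : Mal F) ∈ S := by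
      rw [← hS]; exact Submodule.mem_span_singleton_self _
    have g2 : (xg b * xg a : Mal F) ∈ S := by
      rw [malAlg_Mal.anti (xg b) (xg a)]; exact S.neg_mem g1
    refine ML_induction (p := fun u => u ∈ S)
      ?_ (Submodule.zero_mem _)
      (fun _ _ => Submodule.add_mem _) (fun c _ => Submodule.smul_mem _ c) hu
    intro w hw
    obtain ⟨p, q, hB, hw'⟩ := Low_w2 (F := F) hw hcard
    have hc : ({p, q} : Finset ℕ).card = 2 := by rw [← hB]; exact hcard
    have hpq : p ≠ q := by
      rintro rfl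
      rw [pair_eq_singleton, card_singleton] at hc
      omega
    have mp : p = a ∨ p = b := by
      have : p ∈ ({a, b} : Finset ℕ) := by rw [hB]; simp
      simpa only [mem_insert, mem_singleton] using this
    have mq : q = a ∨ q = b := by
      have : q ∈ ({a, b} : Finset ℕ) := by rw [hB]; simp
      simpa only [mem_insert, mem_singleton] using this
    rw [hw']
    clear hB hc hu hcard hab hS hw' hw h0
    rcases mp with rfl | rfl <;> rcases mq with rfl | rfl
    · exact absurd rfl hpq
    · exact g1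
    · exact g2
    · exact absurd rfl hpq
  rw [Submodule.mem_span_singleton] at h
  obtain ⟨x, rfl⟩ := h
  obtain ⟨y, ya, yb⟩ : ∃ y : ℕ → V F, y a = V.e 0 ∧ y b = V.e 1 :=
    ⟨fun i => if i = a then V.e 0 else V.e 1, by simp, by simp [hab.symm]⟩
  have h := congrFun h0 y
  rw [map_smul, Pi.smul_apply, ev_mul, ev_gen, ev_gen, ya, yb, Pi.zero_apply] at h
  have h := congrFun h 3
  have hx : x = 0 := by
    simpa [V.smul_apply, V.mul_apply, V.zero_apply] using h
  rw [hx, zero_smul]

theorem Low_inj_one {a : ℕ} : Inj F {a} := by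
  intro u hu h0
  have h : u ∈ Submodule.span F ({xg a} : Set (Mal F)) := by
    generalize hS : Submodule.span F ({xg a} : Set (Mal F)) = S
    have g1 : (xg a : Mal F) ∈ S := by
      rw [← hS]; exact Submodule.mem_span_singleton_self _
    refine ML_induction (p := fun u => u ∈ S)
      ?_ (Submodule.zero_mem _)
      (fun _ _ => Submodule.add_mem _) (fun c _ => Submodule.smul_mem _ c) hu
    intro w hw
    obtain ⟨p, hB, rfl⟩ := Low_w1 hw (card_singleton a)
    rw [singleton_inj] at hB
    subst hB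
    rw [wv_of]
    exact g1
  rw [Submodule.mem_span_singleton] at h
  obtain ⟨x, rfl⟩ := h
  have h := congrFun h0 (fun _ => V.e 0)
  rw [map_smul, Pi.smul_apply, ev_gen, Pi.zero_apply] at h
  have h := congrFun h 0
  have hx : x = 0 := by
    simpa [V.smul_apply, V.zero_apply] using h
  rw [hx, zero_smul]

theorem Low_inj_zero : Inj F ∅ := by
  intro u hu h0
  have h : u ∈ (⊥ : Submodule F (Mal F)) := by
    refine ML_induction (p := fun u => u ∈ (⊥ : Submodule F (Mal F))) ?_
      (Submodule.zero_mem _) (fun _ _ => Submodule.add_mem _)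
      (fun c _ => Submodule.smul_mem _ c) hu
    intro w hw
    exact absurd hw.nonempty (by simp)
  exact (Submodule.mem_bot F).1 h

theorem inj_low {B : Finset ℕ} (hB : B.card ≤ 4) : Inj F B := by
  have h : B.card = 0 ∨ B.card = 1 ∨ B.card = 2 ∨ B.card = 3 ∨ B.card = 4 := by omega
  rcases h with h | h | h | h | h
  · rw [card_eq_zero] at h
    subst h
    exact Low_inj_zero
  · rw [card_eq_one] at h
    obtain ⟨a, rfl⟩ := h
    exact Low_inj_one
  · rw [card_eq_two] at h
    obtain ⟨a, b, hab, rfl⟩ := h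
    exact Low_inj_two hab
  · rw [card_eq_three] at h
    obtain ⟨a, b, c, hab, hac, hbc, rfl⟩ := h
    exact Low_inj_three hab hac hbc
  · rw [card_eq_succ] at h
    obtain ⟨a, s, has, rfl, hs⟩ := h
    rw [card_eq_three] at hs
    obtain ⟨b, c, d, hbc, hbd, hcd, rfl⟩ := hs
    simp only [mem_insert, mem_singleton, not_or] at has
    exact Low_inj_four has.1 has.2.1 has.2.2 hbc hbd hcd

end

end OctId
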