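import Pool.Agent.Work.MP_9b6dd6_al.Sur
import Pool.Agent.Work.MP_9b6dd6_al.Low

/-!
# The inverse `mu B` of the evaluation
-/

namespace OctId

open Finset

set_option linter.unusedSectionVars false

noncomputable section

variable {F : Type*} [Field F] [CharZero F]

theorem exists_mu {B : Finset ℕ} (h : Inj F B) :
    ∃ m : Fn F →ₗ[F] Mal F, ∀ u ∈ ML F xg B, m (ev u) = u := by
  set f : ML F xg B →ₗ[F] Fn F := ev.comp (ML F xg B).subtype with hf
  have hker : LinearMap.ker f = ⊥ := by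
    rw [LinearMap.ker_eq_bot']
    intro u hu
    apply Subtype.ext
    exact h u.1 u.2 hu
  obtain ⟨g, hg⟩ := LinearMap.exists_leftInverse_of_injective f hker
  refine ⟨(ML F xg B).subtype.comp g, fun u hu => ?_⟩
  have h1 : g (f ⟨u, hu⟩) = ⟨u, hu⟩ := by
    have := LinearMap.congr_fun hg ⟨u, hu⟩
    simpa using this
  have h2 : f ⟨u, hu⟩ = ev u := rfl
  rw [← h2, LinearMap.comp_apply, h1]
  rfl

open Classical in
/-- total linear left inverse of the evaluation on `ML B` -/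
def mu (B : Finset ℕ) : Fn F →ₗ[F] Mal F :=
  if h : Inj F B then Classical.choose (exists_mu h) else 0

theorem mu_ev {B : Finset ℕ} (h : Inj F B) {u : Mal F} (hu : u ∈ ML F xg B) :
    mu B (ev u) = u := by
  unfold mu
  rw [dif_pos h]
  exact Classical.choose_spec (exists_mu h) u hu

theorem mu_eq {B : Finset ℕ} (h : Inj F B) {u : Mal F} (hu : u ∈ ML F xg B) {f : Fn F}
    (hf : ev u = f) : mu B f = u := by
  rw [← hf, mu_ev h hu]

theorem mu_mem {B : Finset ℕ} (h : Inj F B) (h2 : 2 ≤ B.card) {f : Fn F} (hf : f ∈ W F B)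
    (h0 : rho f = 0) : mu B f ∈ ML F xg B := by
  obtain ⟨u, hu, rfl⟩ := ev_surj h2 hf h0
  rwa [mu_ev h hu]

theorem ev_mu {B : Finset ℕ} (h : Inj F B) (h2 : 2 ≤ B.card) {f : Fn F} (hf : f ∈ W F B)
    (h0 : rho f = 0) : ev (mu B f) = f := by
  obtain ⟨u, hu, rfl⟩ := ev_surj h2 hf h0
  rw [mu_ev h hu]

theorem mu_gm {B : Finset ℕ} (h : Inj F B) {p q : ℕ} (h' : Inj F (B \ {p, q})) (hp : p ∈ B)
    (hq : q ∈ B) (hpq : p ≠ q) (hB : 4 ≤ B.card) {x : Fn F} (hx : x ∈ W F (B \ {p, q}))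
    (h0 : rho x = 0) : mu B (gm p q x) = G (xg p) (xg q) (mu (B \ {p, q}) x) := by
  have hc : 2 ≤ (B \ {p, q}).card := by
    rw [oneRow_card_sdiff hp hq hpq]
    omega
  have h1 := mu_mem h' hc hx h0
  refine mu_eq h (G_mem_ML hp hq hpq hB h1) ?_
  rw [ev_G_gen p q (ML_le_M2 hc h1), ev_mu h' hc hx h0]

theorem mu_phm {B : Finset ℕ} (h : Inj F B) {p q r : ℕ} (h' : Inj F (B \ {p, q, r}))
    (hp : p ∈ B) (hq : q ∈ B) (hr : r ∈ B) (hpq : p ≠ q) (hpr : p ≠ r) (hqr : q ≠ r)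
    (hB : 5 ≤ B.card) {x : Fn F} (hx : x ∈ W F (B \ {p, q, r})) (h0 : rho x = 0) :
    mu B (phm p q r x) = Ph (xg p) (xg q) (xg r) (mu (B \ {p, q, r}) x) := by
  have hc : 2 ≤ (B \ {p, q, r}).card := by
    rw [oneRow_card_sdiff3 hp hq hr hpq hpr hqr]
    omega
  have h1 := mu_mem h' hc hx h0
  refine mu_eq h (Ph_mem_ML hp hq hr hpq hpr hqr hB h1) ?_
  rw [ev_Ph_gen p q r (ML_le_M2 hc h1), ev_mu h' hc hx h0]

theorem mu_cp {B : Finset ℕ} (h : Inj F B) {p q : ℕ} (h' : Inj F (B.erase q)) (hp : p ∈ B)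
    (hq : q ∈ B) (hpq : p ≠ q) (hB : 3 ≤ B.card) {x : Fn F} (hx : x ∈ W F (B.erase q))
    (h0 : rho x = 0) : mu B (cp p q x) = cher p q (mu (B.erase q) x) := by
  have hc : 2 ≤ (B.erase q).card := by
    rw [Finset.card_erase_of_mem hq]
    omega
  have h1 := mu_mem h' hc hx h0
  refine mu_eq h (put_cherry_mem_ML hp hq hpq h1) ?_
  rw [ev_cher, ev_mu h' hc hx h0]

theorem mu_ren {B : Finset ℕ} (h : Inj F B) (σ : Equiv.Perm ℕ)
    (h' : Inj F (B.map σ.toEmbedding)) (h2 : 2 ≤ B.card) {x : Fn F} (hx : x ∈ W F B)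
    (h0 : rho x = 0) : mu (B.map σ.toEmbedding) (ren σ x) = rn σ (mu B x) := by
  refine mu_eq h' (rn_mem_ML (mu_mem h h2 hx h0) σ) ?_
  rw [ev_rn, ev_mu h h2 hx h0]

theorem mu_exists_perm {B C : Finset ℕ} (hc : B.card = C.card) :
    ∃ σ : Equiv.Perm ℕ, B.map σ.toEmbedding = C := by
  have : MulAction.IsMultiplyPretransitive (Equiv.Perm ℕ) ℕ B.card :=
    Equiv.Perm.isMultiplyPretransitive ℕ B.card
  obtain ⟨σ, hσ⟩ := MulAction.exists_smul_eq (Equiv.Perm ℕ)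
    (B.orderEmbOfFin rfl).toEmbedding (C.orderEmbOfFin hc.symm).toEmbedding
  refine ⟨σ, ?_⟩
  apply Finset.eq_of_subset_of_card_le
  · intro c hcm
    obtain ⟨b, hb, rfl⟩ := Finset.mem_map.mp hcm
    have hb' : b ∈ Set.range (B.orderEmbOfFin rfl) := by
      rw [Finset.range_orderEmbOfFin]
      exact hb
    obtain ⟨i, rfl⟩ := hb'
    have h1 := DFunLike.congr_fun hσ i
    have h2 : σ ((B.orderEmbOfFin rfl) i) = (C.orderEmbOfFin hc.symm) i := h1
    show σ ((B.orderEmbOfFin rfl) i) ∈ C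
    rw [h2]
    exact Finset.orderEmbOfFin_mem _ _ _
  · rw [Finset.card_map, hc]

/-- injectivity only depends on the cardinality -/
theorem Inj_of_card {B C : Finset ℕ} (h : Inj F B) (hc : B.card = C.card) : Inj F C := by
  obtain ⟨σ, rfl⟩ := mu_exists_perm hc
  intro u hu hev
  have h1 : rn σ⁻¹ u ∈ ML F xg B := by
    have := rn_mem_ML hu σ⁻¹
    have e : (B.map σ.toEmbedding).map (σ⁻¹ : Equiv.Perm ℕ).toEmbedding = B := by
      rw [Finset.map_map]
      ext b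
      simp
    rwa [e] at this
  have h2 : rn σ⁻¹ u = 0 := by
    apply h _ h1
    rw [ev_rn, hev, map_zero]
  have h3 : rn σ (rn σ⁻¹ u) = u := by
    rw [oper_rn_rn, mul_inv_cancel, oper_rn_one]
  rw [← h3, h2, map_zero]

/-- cherries commute with the operators -/
theorem cher_G {p q r s : ℕ} (hr : p ≠ r) (hs : p ≠ s) {h : Mal F} (hh : h ∈ M2 F) :
    cher p q (G (xg r) (xg s) h) = G (xg r) (xg s) (cher p q h) := by
  rw [G_sub _ _ _ hh, RF.sub_gen, RF.sub_gen, Function.update_of_ne hr.symm,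
    Function.update_of_ne hs.symm]

theorem cher_Ph {p q r s t : ℕ} (hr : p ≠ r) (hs : p ≠ s) (ht : p ≠ t) {h : Mal F}
    (hh : h ∈ M2 F) :
    cher p q (Ph (xg r) (xg s) (xg t) h) = Ph (xg r) (xg s) (xg t) (cher p q h) := by
  rw [G_sub _ _ _ hh, map_mul, RF.sub_gen, RF.sub_gen, RF.sub_gen, Function.update_of_ne hr.symm,
    Function.update_of_ne hs.symm, Function.update_of_ne ht.symm]

/-- a cherry inserted in the index of `G` gives `Ph` -/
theorem cher_G_self {B : Finset ℕ} {p q r : ℕ} (hp : p ∉ B) (hr : p ≠ r) {h : Mal F}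
    (hh : h ∈ ML F xg B) (h2 : 2 ≤ B.card) :
    cher p q (G (xg p) (xg r) h) = Ph (xg p) (xg q) (xg r) h := by
  have h1 : cher p q h = h := by
    have e : RF.sub (Function.update xg p (xg p * xg q)) h = RF.sub xg h := by
      refine sub_congr hh fun i hi => ?_
      rw [Function.update_of_ne]
      rintro rfl
      exact hp hi
    have e2 : cher p q h = RF.sub (Function.update xg p (xg p * xg q)) h := rfl
    rw [e2, e]
    exact RF.sub_id h
  rw [G_sub _ _ _ (ML_le_M2 h2 hh), RF.sub_gen, RF.sub_gen, Function.update_self,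
    Function.update_of_ne hr.symm, h1]

/-- `s_{pq}^B`, the lift of `g_pq o_{B - pq} - o_B` -/
def sB (B : Finset ℕ) (p q : ℕ) : Mal F := mu B (gm p q (oB F (B \ {p, q})) - oB F B)

theorem sB_symm (B : Finset ℕ) (p q : ℕ) : sB (F := F) B p q = sB B q p := by
  unfold sB
  rw [Finset.pair_comm p q]
  congr 2
  funext y
  rw [gm_apply, gm_apply, V.ip_comm]

theorem mu_sB_aux {B : Finset ℕ} (ho : Odd B.card) (h3 : 3 ≤ B.card) {p q : ℕ}
    (hp : p ∈ B) (hq : q ∈ B) (hpq : p ≠ q) :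
    gm p q (oB F (B \ {p, q})) - oB F B ∈ W F B ∧
      rho (gm p q (oB F (B \ {p, q})) - oB F B) = 0 := by
  have ho' : Odd (B \ {p, q}).card := by
    rw [oneRow_card_sdiff hp hq hpq]
    obtain ⟨k, hk⟩ := ho
    exact ⟨k - 1, by omega⟩
  constructor
  · exact Submodule.sub_mem _ (gm_mem (oB_mem ho') hp hq hpq) (oB_mem ho)
  · rw [map_sub, rho_gm, rho_oB ho', rho_oB ho, sub_self]

theorem sB_mem {B : Finset ℕ} (h : Inj F B) (ho : Odd B.card) (h3 : 3 ≤ B.card) {p q : ℕ}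
    (hp : p ∈ B) (hq : q ∈ B) (hpq : p ≠ q) : sB (F := F) B p q ∈ ML F xg B := by
  obtain ⟨h1, h2⟩ := mu_sB_aux (F := F) ho h3 hp hq hpq
  exact mu_mem h (by omega) h1 h2

theorem ev_sB {B : Finset ℕ} (h : Inj F B) (ho : Odd B.card) (h3 : 3 ≤ B.card) {p q : ℕ}
    (hp : p ∈ B) (hq : q ∈ B) (hpq : p ≠ q) :
    ev (sB (F := F) B p q) = gm p q (oB F (B \ {p, q})) - oB F B := by
  obtain ⟨h1, h2⟩ := mu_sB_aux (F := F) ho h3 hp hq hpq
  exact ev_mu h (by omega) h1 h2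

end

end OctId
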