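import Pool.Agent.Work.MP_9b6dd6_al.CoreDefs
import Pool.Agent.Work.MP_9b6dd6_al.Coh

/-!
# The relations in odd degree: existence of `d`
-/

namespace OctId

open Finset

set_option linter.unusedSectionVars false
set_option linter.unusedTactic false

noncomputable section

variable {F : Type*} [Field F] [CharZero F]

theorem OddA_pair {p q r t : ℕ} (hd : [p, q, r, t].Nodup) :
    p ≠ q ∧ p ≠ r ∧ p ≠ t ∧ q ≠ r ∧ q ≠ t ∧ r ≠ t := by
  simp only [List.nodup_cons, List.mem_cons, List.not_mem_nil, or_false, not_or,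
    List.nodup_nil, not_false_eq_true, and_true] at hd
  obtain ⟨⟨m1, m2, m3⟩, ⟨m4, m5⟩, m6⟩ := hd
  exact ⟨m1, m2, m3, m4, m5, m6⟩

theorem OddA_ar1 {a b : ℕ} (h : a = b - 2) (h5 : 5 ≤ b) : a < b ∧ 2 ≤ a ∧ 3 ≤ a := by omega

theorem OddA_ar2 {a b c : ℕ} (h : a = b - 2) (h' : c = a - 2) (h7 : 7 ≤ b) :
    c < b ∧ 2 ≤ c ∧ 3 ≤ c := by omega

theorem OddA_odd {C : Finset ℕ} (hCo : Odd C.card) {p q : ℕ} (hp : p ∈ C) (hq : q ∈ C)
    (hpq : p ≠ q) : Odd (C \ {p, q}).card := by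
  rw [oneRow_card_sdiff hp hq hpq]
  obtain ⟨k, hk⟩ := hCo
  have : 2 ≤ C.card := by
    rw [← Finset.card_pair hpq]
    apply Finset.card_le_card
    intro w hw
    simp only [Finset.mem_insert, Finset.mem_singleton] at hw
    rcases hw with rfl | rfl <;> assumption
  exact ⟨k - 1, by omega⟩

theorem OddA_four {C : Finset ℕ} (hCo : Odd C.card) {p q r t : ℕ}
    (hp : p ∈ C) (hq : q ∈ C) (hr : r ∈ C) (ht : t ∈ C) (hd : [p, q, r, t].Nodup) :
    5 ≤ C.card := by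
  have h4 : 4 ≤ C.card := by
    have h : ([p, q, r, t] : List ℕ).toFinset ⊆ C := by
      intro w hw
      simp only [List.mem_toFinset, List.mem_cons, List.not_mem_nil, or_false] at hw
      rcases hw with rfl | rfl | rfl | rfl <;> assumption
    have h2 := Finset.card_le_card h
    rw [List.toFinset_card_of_nodup hd] at h2
    simpa using h2
  obtain ⟨k, hk⟩ := hCo
  omega

theorem OddA_mem {C : Finset ℕ} {p q r : ℕ} (hr : r ∈ C) (h1 : r ≠ p) (h2 : r ≠ q) :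
    r ∈ C \ {p, q} := by
  simp only [Finset.mem_sdiff, Finset.mem_insert, Finset.mem_singleton, not_or]
  exact ⟨hr, h1, h2⟩

theorem OddA_sdiff_comm (C : Finset ℕ) (p q r t : ℕ) :
    (C \ {p, q}) \ {r, t} = (C \ {r, t}) \ {p, q} := by
  ext w
  simp only [Finset.mem_sdiff]
  tauto

theorem OddA_dfive_symm (g : Mal F → Mal F → Mal F →ₗ[F] Mal F) (p q a b c : Mal F) :
    dfive F g p q a b c = dfive F g q p a b c := by
  unfold dfive
  module

theorem OddA_dfive_12 (g : Mal F → Mal F → Mal F →ₗ[F] Mal F) (p q a b c : Mal F) :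
    dfive F g p q a b c = dfive F g p q b a c := by
  unfold dfive
  module

theorem OddA_dfive_23 (g : Mal F → Mal F → Mal F →ₗ[F] Mal F) (p q a b c : Mal F) :
    dfive F g p q a b c = dfive F g p q a c b := by
  unfold dfive
  module

theorem OddA_dfive_set (g : Mal F → Mal F → Mal F →ₗ[F] Mal F) (p q : Mal F) (x : ℕ → Mal F)
    {a b c a' b' c' : ℕ} (hab : a' ≠ b') (hac : a' ≠ c') (hbc : b' ≠ c')
    (h : ({a', b', c'} : Finset ℕ) = {a, b, c}) :
    dfive F g p q (x a') (x b') (x c') = dfive F g p q (x a) (x b) (x c) := by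
  have e1 : a' ∈ ({a, b, c} : Finset ℕ) := by rw [← h]; simp
  have e2 : b' ∈ ({a, b, c} : Finset ℕ) := by rw [← h]; simp
  have e3 : c' ∈ ({a, b, c} : Finset ℕ) := by rw [← h]; simp
  simp only [Finset.mem_insert, Finset.mem_singleton] at e1 e2 e3
  rcases e1 with e1 | e1 | e1 <;> rcases e2 with e2 | e2 | e2 <;>
    rcases e3 with e3 | e3 | e3 <;> first
    | exact absurd (e1.trans e2.symm) hab
    | exact absurd (e1.trans e3.symm) hac
    | exact absurd (e2.trans e3.symm) hbc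
    | (rw [e1, e2, e3]; done)
    | (rw [e1, e2, e3, OddA_dfive_12]; done)
    | (rw [e1, e2, e3, OddA_dfive_23]; done)
    | (rw [e1, e2, e3, OddA_dfive_12, OddA_dfive_23]; done)
    | (rw [e1, e2, e3, OddA_dfive_23, OddA_dfive_12]; done)
    | (rw [e1, e2, e3, OddA_dfive_12, OddA_dfive_23, OddA_dfive_12]; done)

/-- `s_{cd}` on three letters -/
theorem OddA_s3 {c d l : ℕ} (hcd : c ≠ d) (hcl : c ≠ l) (hdl : d ≠ l)
    (hI : Inj F {c, d, l}) :
    sB (F := F) {c, d, l} c d = -(1 / 3 : F) • Dd (xg c) (xg d) (xg l) := by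
  unfold sB
  apply mu_eq hI
  · apply Submodule.smul_mem
    unfold Dd
    have hc : ∀ i : ℕ, xg i ∈ ML F (xg (F := F)) {i} := fun i => oper_ML_gen xg i
    apply Submodule.add_mem
    · have h1 := mul_mem_ML (hc c) (mul_mem_ML (hc d) (hc l) (by simpa using hdl))
        (by simp [hcd, hcl])
      have e : ({c} ∪ ({d} ∪ {l}) : Finset ℕ) = {c, d, l} := by
        ext w
        simp only [Finset.mem_union, Finset.mem_insert, Finset.mem_singleton]
      rw [e] at h1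
      exact h1
    · have h1 := mul_mem_ML (hc d) (mul_mem_ML (hc c) (hc l) (by simpa using hcl))
        (by simp [hcd.symm, hdl])
      have e : ({d} ∪ ({c} ∪ {l}) : Finset ℕ) = {c, d, l} := by
        ext w
        simp only [Finset.mem_union, Finset.mem_insert, Finset.mem_singleton]
        tauto
      rw [e] at h1
      exact h1
  · have e : ({c, d, l} : Finset ℕ) \ {c, d} = {l} := by
      ext w
      simp only [Finset.mem_sdiff, Finset.mem_insert, Finset.mem_singleton]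
      constructor
      · rintro ⟨h1, h2⟩
        tauto
      · rintro rfl
        exact ⟨Or.inr (Or.inr rfl), fun h => h.elim (fun h => hcl h.symm) (fun h => hdl h.symm)⟩
    rw [e, oB_single, oB_three hcd hcl hdl]
    funext y
    rw [map_smul]
    have h1 : ev (F := F) (Dd (xg c) (xg d) (xg l)) y = Dd (y c) (y d) (y l) := by
      rw [ev_apply, oper_map_Dd, ← ev_apply, ← ev_apply, ← ev_apply, ev_gen, ev_gen, ev_gen]
    simp only [Pi.smul_apply, Pi.sub_apply, gm_apply, h1, V.Dd_eq]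
    module

section

variable {B : Finset ℕ} (hB : 5 ≤ B.card) (ho : Odd B.card) (hI : IH F B.card)
include hB ho hI

/-- `s_e` and `s_f` for disjoint pairs -/
theorem sB_sB {C : Finset ℕ} (hC : C.card < B.card) (hCo : Odd C.card) {p q r t : ℕ}
    (hp : p ∈ C) (hq : q ∈ C) (hr : r ∈ C) (ht : t ∈ C) (hd : [p, q, r, t].Nodup) :
    sB (F := F) C p q - sB C r t =
      G (xg r) (xg t) (sB (F := F) (C \ {r, t}) p q)
        - G (xg p) (xg q) (sB (F := F) (C \ {p, q}) r t) := by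
  obtain ⟨n1, n2, n3, n4, n5, n6⟩ := OddA_pair hd
  have h5 := OddA_four hCo hp hq hr ht hd
  have o1 := OddA_odd hCo hp hq n1
  have o2 := OddA_odd hCo hr ht n6
  have c1 := oneRow_card_sdiff hp hq n1
  have c2 := oneRow_card_sdiff hr ht n6
  have a1 := OddA_ar1 c1 h5
  have a2 := OddA_ar1 c2 h5
  have h2 : 2 ≤ C.card := le_trans (by norm_num) h5
  have h3 : 3 ≤ C.card := le_trans (by norm_num) h5
  have h4 : 4 ≤ C.card := le_trans (by norm_num) h5
  have i0 := hI C hC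
  have i1 : Inj F (C \ {p, q}) := hI _ (a1.1.trans hC)
  have i2 : Inj F (C \ {r, t}) := hI _ (a2.1.trans hC)
  have mp := OddA_mem hp n2 n3
  have mq := OddA_mem hq n4 n5
  have mr := OddA_mem hr n2.symm n4.symm
  have mt := OddA_mem ht n3.symm n5.symm
  have s1 := sB_mem i1 o1 a1.2.2 mr mt n6
  have s2 := sB_mem i2 o2 a2.2.2 mp mq n1
  have t1 := sB_mem i0 hCo h3 hp hq n1
  have t2 := sB_mem i0 hCo h3 hr ht n6
  have g1 := G_mem_ML hp hq n1 h4 s1
  have g2 := G_mem_ML hr ht n6 h4 s2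
  rw [← sub_eq_zero]
  apply i0 _ (Submodule.sub_mem _ (Submodule.sub_mem _ t1 t2) (Submodule.sub_mem _ g2 g1))
  rw [map_sub, map_sub, map_sub, ev_sB i0 hCo h3 hp hq n1,
    ev_sB i0 hCo h3 hr ht n6, ev_G_gen _ _ (ML_le_M2 a1.2.1 s1),
    ev_G_gen _ _ (ML_le_M2 a2.2.1 s2), ev_sB i1 o1 a1.2.2 mr mt n6,
    ev_sB i2 o2 a2.2.2 mp mq n1, OddA_sdiff_comm C p q r t, map_sub, map_sub,
    oneRow_gm_comm p q r t]
  abel

/-- the cocycle condition -/
theorem del_triangle {p q r t u v : ℕ} (hp : p ∈ B) (hq : q ∈ B) (hr : r ∈ B) (ht : t ∈ B)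
    (hu : u ∈ B) (hv : v ∈ B) (hd : [p, q, r, t, u, v].Nodup) (h7 : 7 ≤ B.card) :
    (G (xg p) (xg q) (sB (F := F) (B \ {p, q}) r t)
        - G (xg r) (xg t) (sB (F := F) (B \ {r, t}) p q))
      + (G (xg r) (xg t) (sB (F := F) (B \ {r, t}) u v)
        - G (xg u) (xg v) (sB (F := F) (B \ {u, v}) r t))
      + (G (xg u) (xg v) (sB (F := F) (B \ {u, v}) p q)
        - G (xg p) (xg q) (sB (F := F) (B \ {p, q}) u v)) = 0 := by
  simp only [List.nodup_cons, List.mem_cons, List.not_mem_nil, or_false, not_or,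
    List.nodup_nil, not_false_eq_true, and_true] at hd
  obtain ⟨⟨m1, m2, m3, m4, m5⟩, ⟨m6, m7, m8, m9⟩, ⟨m10, m11, m12⟩, ⟨m13, m14⟩, m15⟩ := hd
  have c1 := oneRow_card_sdiff hp hq m1
  have c2 := oneRow_card_sdiff hr ht m10
  have c3 := oneRow_card_sdiff hu hv m15
  have o1 := OddA_odd ho hp hq m1
  have o2 := OddA_odd ho hr ht m10
  have o3 := OddA_odd ho hu hv m15
  have e1 := sB_sB (F := F) hB ho hI (C := B \ {p, q}) (OddA_ar1 c1 hB).1 o1
    (OddA_mem hr (Ne.symm m2) (Ne.symm m6)) (OddA_mem ht (Ne.symm m3) (Ne.symm m7))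
    (OddA_mem hu (Ne.symm m4) (Ne.symm m8)) (OddA_mem hv (Ne.symm m5) (Ne.symm m9))
    (by simp [m10, m11, m12, m13, m14, m15])
  have e2 := sB_sB (F := F) hB ho hI (C := B \ {r, t}) (OddA_ar1 c2 hB).1 o2
    (OddA_mem hu (Ne.symm m11) (Ne.symm m13)) (OddA_mem hv (Ne.symm m12) (Ne.symm m14))
    (OddA_mem hp m2 m3) (OddA_mem hq m6 m7)
    (by simp [m15, Ne.symm m4, Ne.symm m8, Ne.symm m5, Ne.symm m9, m1])
  have e3 := sB_sB (F := F) hB ho hI (C := B \ {u, v}) (OddA_ar1 c3 hB).1 o3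
    (OddA_mem hp m4 m5) (OddA_mem hq m8 m9) (OddA_mem hr m11 m12) (OddA_mem ht m13 m14)
    (by simp [m1, m2, m3, m6, m7, m10])
  -- memberships in `M2`
  have key : ∀ {a b c d e f : ℕ}, a ∈ B → b ∈ B → c ∈ B → d ∈ B → e ∈ B → f ∈ B →
      a ≠ b → c ≠ d → e ≠ f → c ≠ a → c ≠ b → d ≠ a → d ≠ b → e ≠ a → e ≠ b → f ≠ a → f ≠ b →
      e ≠ c → e ≠ d → f ≠ c → f ≠ d → sB (F := F) ((B \ {a, b}) \ {c, d}) e f ∈ M2 F := by
    intro a b c d e f ha hb hc hd he hf k1 k2 k3 k4 k5 k6 k7 k8 k9 k10 k11 k12 k13 k14 k15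
    have x1 := oneRow_card_sdiff ha hb k1
    have x2 := oneRow_card_sdiff (OddA_mem hc k4 k5) (OddA_mem hd k6 k7) k2
    have x3 := OddA_odd (OddA_odd ho ha hb k1) (OddA_mem hc k4 k5) (OddA_mem hd k6 k7) k2
    have x4 := OddA_ar2 x1 x2 h7
    exact ML_le_M2 x4.2.1 (sB_mem (hI _ x4.1) x3 x4.2.2
      (OddA_mem (OddA_mem he k8 k9) k12 k13) (OddA_mem (OddA_mem hf k10 k11) k14 k15) k3)
  have M1 := key hp hq hu hv hr ht m1 m15 m10 (Ne.symm m4) (Ne.symm m8) (Ne.symm m5) (Ne.symm m9) (Ne.symm m2) (Ne.symm m6)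
    (Ne.symm m3) (Ne.symm m7) m11 m12 m13 m14
  have M2' := key hp hq hr ht hu hv m1 m10 m15 (Ne.symm m2) (Ne.symm m6) (Ne.symm m3) (Ne.symm m7) (Ne.symm m4) (Ne.symm m8)
    (Ne.symm m5) (Ne.symm m9) (Ne.symm m11) (Ne.symm m13) (Ne.symm m12) (Ne.symm m14)
  have M3 := key hr ht hu hv hp hq m10 m15 m1 (Ne.symm m11) (Ne.symm m13) (Ne.symm m12)
    (Ne.symm m14) m2 m3 m6 m7 m4 m5 m8 m9
  have f1 : G (xg p) (xg q) (sB (F := F) (B \ {p, q}) r t) -
      G (xg p) (xg q) (sB (F := F) (B \ {p, q}) u v) =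
      G (xg p) (xg q) (G (xg u) (xg v) (sB (F := F) ((B \ {p, q}) \ {u, v}) r t)) -
      G (xg p) (xg q) (G (xg r) (xg t) (sB (F := F) ((B \ {p, q}) \ {r, t}) u v)) := by
    rw [← map_sub, e1, map_sub]
  have f2 : G (xg r) (xg t) (sB (F := F) (B \ {r, t}) u v) -
      G (xg r) (xg t) (sB (F := F) (B \ {r, t}) p q) =
      G (xg p) (xg q) (G (xg r) (xg t) (sB (F := F) ((B \ {p, q}) \ {r, t}) u v)) -
      G (xg r) (xg t) (G (xg u) (xg v) (sB (F := F) ((B \ {r, t}) \ {u, v}) p q)) := by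
    rw [← map_sub, e2, map_sub, OddA_sdiff_comm B r t p q,
      G_comm (xg r) (xg t) (xg p) (xg q) M2']
  have f3 : G (xg u) (xg v) (sB (F := F) (B \ {u, v}) p q) -
      G (xg u) (xg v) (sB (F := F) (B \ {u, v}) r t) =
      G (xg r) (xg t) (G (xg u) (xg v) (sB (F := F) ((B \ {r, t}) \ {u, v}) p q)) -
      G (xg p) (xg q) (G (xg u) (xg v) (sB (F := F) ((B \ {p, q}) \ {u, v}) r t)) := by
    rw [← map_sub, e3, map_sub, OddA_sdiff_comm B u v r t, OddA_sdiff_comm B u v p q,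
      G_comm (xg u) (xg v) (xg r) (xg t) M3, G_comm (xg u) (xg v) (xg p) (xg q) M1]
  have f4 := congrArg₂ (· + ·) (congrArg₂ (· + ·) f1 f2) f3
  rw [← sub_eq_zero] at f4
  rw [← f4]
  abel

/-- existence of `d`, degree at least 7 -/
theorem exists_d_seven (h7 : 7 ≤ B.card) : ∃ d : ℕ → ℕ → Mal F,
    ∀ p ∈ B, ∀ q ∈ B, ∀ r ∈ B, ∀ t ∈ B, [p, q, r, t].Nodup →
      G (xg p) (xg q) (sB (F := F) (B \ {p, q}) r t) + d p q
        = G (xg r) (xg t) (sB (F := F) (B \ {r, t}) p q) + d r t := by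
  obtain ⟨d, hd⟩ := exists_potential (F := F) (E := Mal F) h7
    (fun p q r t => G (xg p) (xg q) (sB (F := F) (B \ {p, q}) r t)
      - G (xg r) (xg t) (sB (F := F) (B \ {r, t}) p q))
    (by
      rintro p hp q hq r hr t ht ⟨n1, n2, n3, n4, n5, n6⟩
      have c1 := oneRow_card_sdiff hp hq n1
      have o1 := OddA_odd ho hp hq n1
      have a1 := OddA_ar1 c1 hB
      have m1 := ML_le_M2 (F := F) a1.2.1 (sB_mem (F := F) (hI (B \ {p, q}) a1.1) o1
        a1.2.2 (OddA_mem hr n2.symm n4.symm) (OddA_mem ht n3.symm n5.symm) n6)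
      rw [G_symm (xg p) (xg q) m1, Finset.pair_comm p q, sB_symm (B \ {r, t}) p q])
    (by
      intro p _ q _ r _ t _ _
      rw [neg_sub])
    (by
      rintro p hp q hq r hr t ht u hu v hv
        ⟨⟨n1, n2, n3, n4, n5, n6⟩, n7, ⟨n8, n9, n10, n11⟩, ⟨n12, n13, n14, n15⟩⟩
      exact del_triangle hB ho hI hp hq hr ht hu hv (by
        simp only [List.nodup_cons, List.mem_cons, List.not_mem_nil, or_false, not_or,
          List.nodup_nil, not_false_eq_true, and_true]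
        exact ⟨⟨n1, n2, n3, n8.symm, n12.symm⟩, ⟨n4, n5, n9.symm, n13.symm⟩,
          ⟨n6, n10.symm, n14.symm⟩, ⟨n11.symm, n15.symm⟩, n7⟩) h7)
  refine ⟨d, ?_⟩
  intro p hp q hq r hr t ht hn
  have h := hd p hp q hq r hr t ht (OddA_pair hn)
  rw [sub_eq_sub_iff_add_eq_add] at h
  rw [h]
  abel

/-- existence of `d`, degree 5 -/
theorem exists_d_five (h5 : B.card = 5) : ∃ d : ℕ → ℕ → Mal F,
    ∀ p ∈ B, ∀ q ∈ B, ∀ r ∈ B, ∀ t ∈ B, [p, q, r, t].Nodup →
      G (xg p) (xg q) (sB (F := F) (B \ {p, q}) r t) + d p q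
        = G (xg r) (xg t) (sB (F := F) (B \ {r, t}) p q) + d r t := by
  classical
  let P : ℕ → ℕ → ℕ × ℕ × ℕ → Prop := fun p q w =>
    B \ {p, q} = {w.1, w.2.1, w.2.2} ∧ w.1 ≠ w.2.1 ∧ w.1 ≠ w.2.2 ∧ w.2.1 ≠ w.2.2
  let d : ℕ → ℕ → Mal F := fun p q =>
    if h : ∃ w, P p q w then
      dfive F G (xg p) (xg q) (xg h.choose.1) (xg h.choose.2.1) (xg h.choose.2.2) else 0
  have hd : ∀ p q a b c : ℕ, B \ {p, q} = {a, b, c} → a ≠ b → a ≠ c → b ≠ c →
      d p q = dfive F G (xg p) (xg q) (xg a) (xg b) (xg c) := by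
    intro p q a b c h hab hac hbc
    have hex : ∃ w, P p q w := ⟨(a, b, c), h, hab, hac, hbc⟩
    have h1 : d p q = dfive F G (xg p) (xg q) (xg hex.choose.1) (xg hex.choose.2.1)
        (xg hex.choose.2.2) := by
      simp only [d, dif_pos hex]
    rw [h1]
    obtain ⟨s1, s2, s3, s4⟩ := hex.choose_spec
    exact OddA_dfive_set G (xg p) (xg q) xg s2 s3 s4 (s1.symm.trans h)
  refine ⟨d, ?_⟩
  intro p hp q hq r hr t ht hn
  obtain ⟨n1, n2, n3, n4, n5, n6⟩ := OddA_pair hn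
  have c1 := oneRow_card_sdiff hp hq n1
  -- the fifth letter
  have hr' := OddA_mem hr n2.symm n4.symm
  have ht' := OddA_mem ht n3.symm n5.symm
  have c2 := oneRow_card_sdiff hr' ht' n6
  obtain ⟨l, hl⟩ := Finset.card_eq_one.mp (show ((B \ {p, q}) \ {r, t}).card = 1 by omega)
  have hl' : l ∈ (B \ {p, q}) \ {r, t} := by rw [hl]; exact Finset.mem_singleton_self l
  simp only [Finset.mem_sdiff, Finset.mem_insert, Finset.mem_singleton, not_or] at hl'
  obtain ⟨⟨lB, lp, lq⟩, lr, lt⟩ := hl'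
  have hB5 : ∀ w, w ∈ B ↔ (w = p ∨ w = q ∨ w = r ∨ w = t ∨ w = l) := by
    intro w
    constructor
    · intro hw
      by_contra hcon
      push Not at hcon
      obtain ⟨w1, w2, w3, w4, w5⟩ := hcon
      have : w ∈ (B \ {p, q}) \ {r, t} := OddA_mem (OddA_mem hw w1 w2) w3 w4
      rw [hl, Finset.mem_singleton] at this
      exact w5 this
    · rintro (rfl | rfl | rfl | rfl | rfl) <;> assumption
  have e1 : B \ {p, q} = {r, t, l} := by
    ext w
    simp only [Finset.mem_sdiff, Finset.mem_insert, Finset.mem_singleton, hB5]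
    constructor
    · rintro ⟨h1, h2⟩
      tauto
    · rintro (rfl | rfl | rfl)
      · exact ⟨by tauto, fun h => h.elim (fun h => n2 h.symm) (fun h => n4 h.symm)⟩
      · exact ⟨by tauto, fun h => h.elim (fun h => n3 h.symm) (fun h => n5 h.symm)⟩
      · exact ⟨by tauto, fun h => h.elim lp lq⟩
  have e2 : B \ {r, t} = {p, q, l} := by
    ext w
    simp only [Finset.mem_sdiff, Finset.mem_insert, Finset.mem_singleton, hB5]
    constructor
    · rintro ⟨h1, h2⟩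
      tauto
    · rintro (rfl | rfl | rfl)
      · exact ⟨by tauto, fun h => h.elim n2 n3⟩
      · exact ⟨by tauto, fun h => h.elim n4 n5⟩
      · exact ⟨by tauto, fun h => h.elim lr lt⟩
  rw [hd p q r t l e1 n6 (Ne.symm lr) (Ne.symm lt), hd r t p q l e2 n1 (Ne.symm lp) (Ne.symm lq)]
  rw [e1, e2]
  have i1 : Inj F {r, t, l} := hI _ (by rw [← e1]; omega)
  have i2 : Inj F {p, q, l} := hI _ (by
    rw [← e2, oneRow_card_sdiff hr ht n6]; omega)
  rw [OddA_s3 n6 (Ne.symm lr) (Ne.symm lt) i1, OddA_s3 n1 (Ne.symm lp) (Ne.symm lq) i2]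
  have h := cert_S11 (malAlg_Mal (F := F)) G G_mul (xg p) (xg q) (xg r) (xg t) (xg l)
  rw [sub_eq_sub_iff_add_eq_add] at h
  rw [h]
  abel

end

end

end OctId
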