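import Pool.Agent.Work.MP_9b6dd6_al.Basic
import Pool.Agent.Work.MP_9b6dd6_al.Cert

/-!
# The relatively free algebra of the Malcev basis and the operators `G a b`
-/

namespace OctId

open Finset

set_option linter.unusedSectionVars false

noncomputable section

/-- the relatively free algebra of the Malcev basis -/
abbrev Mal (F : Type*) [Field F] := RF (malB F)

/-! ### general lemmas -/

section oper_general

variable {F : Type*} [Field F] {A B : Type*} [NonUnitalNonAssocRing A] [Module F A]
    [IsScalarTower F A A]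
    [SMulCommClass F A A] [NonUnitalNonAssocRing B] [Module F B] [IsScalarTower F B B]
    [SMulCommClass F B B]

lemma oper_map_Dd (g : A →ₙₐ[F] B) (a b c : A) : g (Dd a b c) = Dd (g a) (g b) (g c) := by
  simp only [Dd, map_add, map_mul]

lemma oper_map_Oo (g : A →ₙₐ[F] B) (a b c d : A) :
    g (Oo a b c d) = Oo (g a) (g b) (g c) (g d) := by
  simp only [Oo, oper_map_Dd, map_sub, map_mul]

lemma oper_map_EE (g : A →ₙₐ[F] B) (a b c d : A) :
    g (EE F a b c d) = EE F (g a) (g b) (g c) (g d) := by
  simp only [EE, oper_map_Oo, map_add, map_smul]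

lemma oper_map_sagle (g : A →ₙₐ[F] B) (a b c d : A) :
    g (sagle a b c d) = sagle (g a) (g b) (g c) (g d) := by
  simp only [sagle, map_sub, map_mul]

lemma oper_ML_mul {x : ℕ → A} {C D : Finset ℕ} (h : Disjoint C D) {a b : A}
    (ha : a ∈ ML F x C) (hb : b ∈ ML F x D) : a * b ∈ ML F x (C ∪ D) := by
  refine ML_induction (p := fun a => a * b ∈ ML F x (C ∪ D)) ?_ ?_ ?_ ?_ ha
  · intro w hw
    refine ML_induction (p := fun b => wv x w * b ∈ ML F x (C ∪ D)) ?_ ?_ ?_ ?_ hb
    · intro v hv
      rw [← wv_mul]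
      exact wv_mem_ML (MW.mul hw hv h)
    · rw [mul_zero]; exact Submodule.zero_mem _
    · intro a b ha hb
      rw [mul_add]; exact Submodule.add_mem _ ha hb
    · intro c a ha
      rw [mul_smul_comm]; exact Submodule.smul_mem _ c ha
  · rw [zero_mul]; exact Submodule.zero_mem _
  · intro a b ha hb
    rw [add_mul]; exact Submodule.add_mem _ ha hb
  · intro c a ha
    rw [smul_mul_assoc]; exact Submodule.smul_mem _ c ha

lemma oper_ML_Dd {x : ℕ → A} {C D E : Finset ℕ} (h1 : Disjoint C D) (h2 : Disjoint C E)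
    (h3 : Disjoint D E) {a b c : A}
    (ha : a ∈ ML F x C) (hb : b ∈ ML F x D) (hc : c ∈ ML F x E) :
    Dd a b c ∈ ML F x (C ∪ D ∪ E) := by
  unfold Dd
  apply Submodule.add_mem
  · rw [Finset.union_assoc]
    exact oper_ML_mul (Finset.disjoint_union_right.2 ⟨h1, h2⟩) ha (oper_ML_mul h3 hb hc)
  · have e : C ∪ D ∪ E = D ∪ (C ∪ E) := by
      rw [Finset.union_comm C D, Finset.union_assoc]
    rw [e]
    exact oper_ML_mul (Finset.disjoint_union_right.2 ⟨h1.symm, h3⟩) hb (oper_ML_mul h2 ha hc)

lemma oper_ML_Oo {x : ℕ → A} {C D E G : Finset ℕ} (h1 : Disjoint C D) (h2 : Disjoint C E)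
    (h3 : Disjoint D E) (h4 : Disjoint C G) (h5 : Disjoint D G) (h6 : Disjoint E G) {a b c d : A}
    (ha : a ∈ ML F x C) (hb : b ∈ ML F x D) (hc : c ∈ ML F x E) (hd : d ∈ ML F x G) :
    Oo a b c d ∈ ML F x (C ∪ D ∪ E ∪ G) := by
  unfold Oo
  apply Submodule.sub_mem
  · exact oper_ML_mul (Finset.disjoint_union_left.2 ⟨Finset.disjoint_union_left.2 ⟨h4, h5⟩, h6⟩)
      (oper_ML_Dd h1 h2 h3 ha hb hc) hd
  · have e : C ∪ D ∪ E ∪ G = C ∪ D ∪ G ∪ E := by
      rw [Finset.union_assoc (C ∪ D) E G, Finset.union_comm E G, ← Finset.union_assoc]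
    rw [e]
    exact oper_ML_mul (Finset.disjoint_union_left.2
      ⟨Finset.disjoint_union_left.2 ⟨h2, h3⟩, h6.symm⟩)
      (oper_ML_Dd h1 h4 h5 ha hb hd) hc

lemma oper_ML_EE {x : ℕ → A} {C D E G : Finset ℕ} (h1 : Disjoint C D) (h2 : Disjoint C E)
    (h3 : Disjoint D E) (h4 : Disjoint C G) (h5 : Disjoint D G) (h6 : Disjoint E G) {a b c d : A}
    (ha : a ∈ ML F x C) (hb : b ∈ ML F x D) (hc : c ∈ ML F x E) (hd : d ∈ ML F x G) :
    EE F a b c d ∈ ML F x (C ∪ D ∪ E ∪ G) := by
  unfold EE
  have e1 : C ∪ D ∪ E ∪ G = C ∪ E ∪ D ∪ G := by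
    ext i; simp only [mem_union]; tauto
  have e2 : C ∪ D ∪ E ∪ G = D ∪ E ∪ C ∪ G := by
    ext i; simp only [mem_union]; tauto
  have e3 : C ∪ D ∪ E ∪ G = C ∪ G ∪ E ∪ D := by
    ext i; simp only [mem_union]; tauto
  have e4 : C ∪ D ∪ E ∪ G = D ∪ G ∪ E ∪ C := by
    ext i; simp only [mem_union]; tauto
  apply Submodule.smul_mem
  refine Submodule.add_mem _ (Submodule.add_mem _ (Submodule.add_mem _ (Submodule.add_mem _
    (Submodule.smul_mem _ _ ?_) ?_) ?_) ?_) ?_
  · exact oper_ML_Oo h1 h2 h3 h4 h5 h6 ha hb hc hd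
  · rw [e1]
    exact oper_ML_Oo h2 h1 h3.symm h4 h6 h5 ha hc hb hd
  · rw [e2]
    exact oper_ML_Oo h3 h1.symm h2.symm h5 h6 h4 hb hc ha hd
  · rw [e3]
    exact oper_ML_Oo h4 h2 h6.symm h1 h5.symm h3.symm ha hd hc hb
  · rw [e4]
    exact oper_ML_Oo h5 h3 h6.symm h1.symm h4.symm h2.symm hb hd hc ha

lemma oper_ML_gen (x : ℕ → A) (i : ℕ) : x i ∈ ML F x {i} :=
  wv_mem_ML (x := x) (MW.of i)

lemma oper_MW_mul_inv {C : Finset ℕ} {u v : FreeMagma ℕ} (h : MW C (FreeMagma.mul u v)) :
    ∃ D E, MW D u ∧ MW E v ∧ Disjoint D E ∧ C = D ∪ E := by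
  cases h with
  | mul h1 h2 h3 => exact ⟨_, _, h1, h2, h3, rfl⟩

lemma oper_MW_of_inv {C : Finset ℕ} {i : ℕ} (h : MW C (FreeMagma.of i)) : C = {i} := by
  cases h
  rfl

/-- the operator `E(a,b; . , . )` on words -/
def Et (a b : A) (ψ : ℕ → A) : FreeMagma ℕ → A
  | FreeMagma.of _ => 0
  | FreeMagma.mul u v => EE F a b (wv ψ u) (wv ψ v)

end oper_general

variable {F : Type*} [Field F] [CharZero F]

/-- generators of `Mal F` -/
abbrev xg (i : ℕ) : Mal F := RF.gen (malB F) i

theorem malAlg_Mal : MalAlg F (Mal F) where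
  anti a b := by
    have hm : X F 0 * X F 1 + X F 1 * X F 0 ∈ malB F := Or.inl rfl
    have h := RF.identity_of_mem (subset_tIdeal (malB F) hm)
      (fun i => if i = 0 then a else b)
    rw [map_add, map_mul, map_mul, evalAt_X, evalAt_X] at h
    exact eq_neg_of_add_eq_zero_left h
  sagle a b c d := by
    have hm : sagle (X F 0) (X F 1) (X F 2) (X F 3) ∈ malB F := Or.inr (Or.inl rfl)
    have h := RF.identity_of_mem (subset_tIdeal (malB F) hm)
      (fun i => if i = 0 then a else if i = 1 then b else if i = 2 then c else d)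
    rw [oper_map_sagle, evalAt_X, evalAt_X, evalAt_X, evalAt_X] at h
    exact h
  b2 a b c d e := by
    have hm : EE F (X F 0) (X F 1) (X F 2 * X F 3) (X F 4)
     - (EE F (X F 0) (X F 1) (X F 2) (X F 3)) * X F 4 ∈ malB F := Or.inr (Or.inr rfl)
    have h := RF.identity_of_mem (subset_tIdeal (malB F) hm)
      (fun i => if i = 0 then a else if i = 1 then b else if i = 2 then c else
        if i = 3 then d else e)
    rw [map_sub, map_mul, oper_map_EE, oper_map_EE, map_mul, evalAt_X, evalAt_X, evalAt_X,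
      evalAt_X, evalAt_X] at h
    exact sub_eq_zero.1 h

/-- the span of the products -/
def M2 (F : Type*) [Field F] : Submodule F (Mal F) :=
  Submodule.span F {a | ∃ b c : Mal F, a = b * c}

/-- substitution of one letter -/
abbrev put (r : ℕ) (a : Mal F) : Mal F →ₙₐ[F] Mal F := RF.sub (Function.update xg r a)

/-- renaming of the letters -/
abbrev rn (σ : Equiv.Perm ℕ) : Mal F →ₙₐ[F] Mal F := RF.sub fun i => xg (σ i)

/-- the value of `E(a,b; . , . )` on a word -/
def Ew (a b : Mal F) : FreeMagma ℕ → Mal F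
  | FreeMagma.of _ => 0
  | FreeMagma.mul u v => EE F a b (wv xg u) (wv xg v)

lemma oper_Ew (a b : Mal F) (w : FreeMagma ℕ) : Ew a b w = Et (F := F) a b xg w := by
  cases w <;> rfl

lemma oper_SS_aux {u v : FreeMagma ℕ} {C : Finset ℕ} (hu : MW C u) {t : ℕ} (ht : t ∈ C)
    (a b : Mal F)
    (ih : 2 ≤ C.card → wv (Function.update xg t (Dd a b (xg t))) u =
      (-2 : F) • Et (F := F) a b xg u + Et (F := F) a (xg t) (Function.update xg t b) u
        + Et (F := F) b (xg t) (Function.update xg t a) u) (W : Mal F) :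
    wv (Function.update xg t (Dd a b (xg t))) u * W =
      (-2 : F) • EE F a b (wv xg u) W + EE F a (xg t) (wv (Function.update xg t b) u) W
        + EE F b (xg t) (wv (Function.update xg t a) u) W := by
  have hM := malAlg_Mal (F := F)
  cases hu with
  | of i =>
    rw [Finset.mem_singleton] at ht
    subst ht
    simp only [wv_of, Function.update_self]
    exact cert_S1 hM a b (xg t) W
  | @mul C1 C2 u1 u2 h1 h2 h3 =>
    have hc : 2 ≤ (C1 ∪ C2).card := by
      rw [Finset.card_union_of_disjoint h3]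
      have := Finset.card_pos.2 h1.nonempty
      have := Finset.card_pos.2 h2.nonempty
      omega
    rw [ih hc]
    change ((-2 : F) • EE F a b (wv xg u1) (wv xg u2) + EE F a (xg t)
      (wv (Function.update xg t b) u1) (wv (Function.update xg t b) u2) + EE F b (xg t)
      (wv (Function.update xg t a) u1) (wv (Function.update xg t a) u2)) * W = _
    rw [add_mul, add_mul, smul_mul_assoc, ← hM.b2, ← hM.b2, ← hM.b2]
    rfl

lemma oper_SS {B : Finset ℕ} {w : FreeMagma ℕ} (hw : MW B w) {t : ℕ}
    (ht : t ∈ B) (a b : Mal F) : 2 ≤ B.card →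
    wv (Function.update xg t (Dd a b (xg t))) w =
      (-2 : F) • Et (F := F) a b xg w + Et (F := F) a (xg t) (Function.update xg t b) w
        + Et (F := F) b (xg t) (Function.update xg t a) w := by
  have hM := malAlg_Mal (F := F)
  induction hw with
  | of i => intro h2; simp at h2
  | @mul C D u v hu hv hd ihu ihv =>
    intro _
    rcases Finset.mem_union.1 ht with hC | hD
    · have htD : t ∉ D := fun h => (Finset.disjoint_left.1 hd) hC h
      have hv' : ∀ x : Mal F, wv (Function.update xg t x) v = wv xg v := fun x =>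
        wv_congr hv (fun i hi => Function.update_of_ne (by rintro rfl; exact htD hi) _ _)
      have h := oper_SS_aux (v := v) hu hC a b (ihu hC) (wv xg v)
      rw [wv_mul, hv', h]
      change _ = (-2 : F) • EE F a b (wv xg u) (wv xg v) + EE F a (xg t)
        (wv (Function.update xg t b) u) (wv (Function.update xg t b) v) + EE F b (xg t)
        (wv (Function.update xg t a) u) (wv (Function.update xg t a) v)
      rw [hv', hv']
    · have htC : t ∉ C := fun h => (Finset.disjoint_left.1 hd) h hD
      have hu' : ∀ x : Mal F, wv (Function.update xg t x) u = wv xg u := fun x =>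
        wv_congr hu (fun i hi => Function.update_of_ne (by rintro rfl; exact htC hi) _ _)
      have h := oper_SS_aux (v := u) hv hD a b (ihv hD) (wv xg u)
      rw [wv_mul, hu', hM.anti, h]
      change _ = (-2 : F) • EE F a b (wv xg u) (wv xg v) + EE F a (xg t)
        (wv (Function.update xg t b) u) (wv (Function.update xg t b) v) + EE F b (xg t)
        (wv (Function.update xg t a) u) (wv (Function.update xg t a) v)
      rw [hu', hu', EE_skew a b (wv xg u), EE_skew a (xg t) (wv xg u),
        EE_skew b (xg t) (wv xg u)]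
      rw [neg_add, neg_add, smul_neg]

/-- (SS) for words -/
theorem SS_word {B : Finset ℕ} {w : FreeMagma ℕ} (hw : MW B w) (h2 : 2 ≤ B.card) {t : ℕ}
    (ht : t ∈ B) (a b : Mal F) :
    wv (Function.update xg t (Dd a b (xg t))) w =
      (-2 : F) • Ew a b w
      + (match w with
          | FreeMagma.of _ => 0
          | FreeMagma.mul u v => EE F a (xg t) (wv (Function.update xg t b) u)
              (wv (Function.update xg t b) v))
      + (match w with
          | FreeMagma.of _ => 0
          | FreeMagma.mul u v => EE F b (xg t) (wv (Function.update xg t a) u)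
              (wv (Function.update xg t a) v)) := by
  have h := oper_SS hw ht a b h2
  cases w with
  | of i => exact h
  | mul u v => exact h

lemma oper_rn_rn (σ τ : Equiv.Perm ℕ) (z : Mal F) : rn σ (rn τ z) = rn (σ * τ) z := by
  rw [RF.sub_sub]
  congr 2
  funext i
  rw [RF.sub_gen]
  rfl

lemma oper_rn_one (z : Mal F) : rn 1 z = z := RF.sub_id z

lemma oper_rn_wv (σ : Equiv.Perm ℕ) (w : FreeMagma ℕ) :
    rn σ (wv xg w : Mal F) = wv (fun i => xg (σ i)) w := by
  rw [map_wv]
  congr 2
  funext i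
  rw [RF.sub_gen]

lemma oper_cherry {B : Finset ℕ} {w : FreeMagma ℕ} (hw : MW B w) : 2 ≤ B.card →
    ∃ p ∈ B, ∃ q ∈ B, rn (Equiv.swap p q) (wv xg w : Mal F) = -wv xg w := by
  have hM := malAlg_Mal (F := F)
  induction hw with
  | of i => intro h2; simp at h2
  | @mul C D u v hu hv hd ihu ihv =>
    intro _
    by_cases hC : 2 ≤ C.card
    · obtain ⟨p, hp, q, hq, h⟩ := ihu hC
      refine ⟨p, mem_union_left _ hp, q, mem_union_left _ hq, ?_⟩
      have h2 : rn (Equiv.swap p q) (wv xg v : Mal F) = wv xg v := by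
        rw [oper_rn_wv]
        apply wv_congr hv
        intro i hi
        rw [Equiv.swap_apply_of_ne_of_ne]
        · rintro rfl; exact Finset.disjoint_left.1 hd hp hi
        · rintro rfl; exact Finset.disjoint_left.1 hd hq hi
      rw [wv_mul, map_mul, h, h2, neg_mul]
    · by_cases hD : 2 ≤ D.card
      · obtain ⟨p, hp, q, hq, h⟩ := ihv hD
        refine ⟨p, mem_union_right _ hp, q, mem_union_right _ hq, ?_⟩
        have h2 : rn (Equiv.swap p q) (wv xg u : Mal F) = wv xg u := by
          rw [oper_rn_wv]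
          apply wv_congr hu
          intro i hi
          rw [Equiv.swap_apply_of_ne_of_ne]
          · rintro rfl; exact Finset.disjoint_left.1 hd hi hp
          · rintro rfl; exact Finset.disjoint_left.1 hd hi hq
        rw [wv_mul, map_mul, h, h2, mul_neg]
      · have key : ∀ {C : Finset ℕ} {u : FreeMagma ℕ}, MW C u → ¬ 2 ≤ C.card →
            ∃ p ∈ C, u = FreeMagma.of p := by
          intro C u hu hC
          cases hu with
          | of i => exact ⟨i, mem_singleton_self i, rfl⟩
          | @mul C1 C2 u1 u2 h1 h2 h3 =>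
            exfalso
            apply hC
            rw [Finset.card_union_of_disjoint h3]
            have := Finset.card_pos.2 h1.nonempty
            have := Finset.card_pos.2 h2.nonempty
            omega
        obtain ⟨p, hp, rfl⟩ := key hu hC
        obtain ⟨q, hq, rfl⟩ := key hv hD
        refine ⟨p, mem_union_left _ hp, q, mem_union_right _ hq, ?_⟩
        rw [oper_rn_wv, wv_mul, wv_mul, wv_of, wv_of, wv_of, wv_of, Equiv.swap_apply_left,
          Equiv.swap_apply_right]
        exact hM.anti _ _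

/-- the symmetrisation -/
def oper_S (B : Finset ℕ) : Mal F →ₗ[F] Mal F :=
  ∑ σ : Equiv.Perm {x // x ∈ B}, homL (rn (Equiv.Perm.ofSubtype σ))

lemma oper_S_apply (B : Finset ℕ) (z : Mal F) :
    oper_S B z = ∑ σ : Equiv.Perm {x // x ∈ B}, rn (Equiv.Perm.ofSubtype σ) z := by
  unfold oper_S
  rw [LinearMap.sum_apply]
  rfl

lemma oper_S_zero {B : Finset ℕ} (hB : 2 ≤ B.card) {z : Mal F} (hz : z ∈ ML F xg B) :
    oper_S B z = 0 := by
  refine ML_induction (p := fun z => oper_S B z = 0) ?_ ?_ ?_ ?_ hz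
  · intro w hw
    obtain ⟨p, hp, q, hq, h⟩ := oper_cherry (F := F) hw hB
    have h1 : oper_S B (wv xg w : Mal F) = -oper_S B (wv xg w) := by
      conv_lhs => rw [oper_S_apply]
      rw [← Equiv.sum_comp (Equiv.mulRight
        (Equiv.swap (⟨p, hp⟩ : {x // x ∈ B}) ⟨q, hq⟩)), oper_S_apply, ← Finset.sum_neg_distrib]
      apply Finset.sum_congr rfl
      intro σ _
      rw [Equiv.coe_mulRight, map_mul, ← oper_rn_rn, Equiv.Perm.ofSubtype_swap_eq, h, map_neg]
    have h2 : (2 : F) • oper_S B (wv xg w : Mal F) = 0 := by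
      rw [two_smul]
      nth_rewrite 1 [h1]
      exact neg_add_cancel _
    rcases smul_eq_zero.1 h2 with h3 | h3
    · exact absurd h3 two_ne_zero
    · exact h3
  · exact map_zero _
  · intro a b ha hb
    rw [map_add, ha, hb, add_zero]
  · intro c a ha
    rw [map_smul, ha, smul_zero]

/-- symmetric multilinear elements of degree at least 2 vanish -/
theorem symm_vanish {B : Finset ℕ} (hB : 2 ≤ B.card) {z : Mal F} (hz : z ∈ ML F xg B)
    (h : ∀ p ∈ B, ∀ q ∈ B, rn (Equiv.swap p q) z = z) : z = 0 := by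
  have h1 : ∀ σ : Equiv.Perm {x // x ∈ B}, rn (Equiv.Perm.ofSubtype σ) z = z := by
    intro σ
    induction σ using Equiv.Perm.swap_induction_on with
    | one => rw [map_one]; exact oper_rn_one z
    | swap_mul f x y _ ih =>
      rw [map_mul, ← oper_rn_rn, ih, Equiv.Perm.ofSubtype_swap_eq]
      exact h x x.2 y y.2
  have h2 := oper_S_zero hB hz
  rw [oper_S_apply, Finset.sum_congr rfl (fun σ _ => h1 σ), Finset.sum_const,
    ← Nat.cast_smul_eq_nsmul F] at h2
  rcases smul_eq_zero.1 h2 with h3 | h3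
  · exfalso
    rw [Nat.cast_eq_zero, Finset.card_eq_zero] at h3
    exact Finset.univ_nonempty.ne_empty h3
  · exact h3

lemma oper_map_Et {A B : Type*} [NonUnitalNonAssocRing A] [Module F A]
    [IsScalarTower F A A]
    [SMulCommClass F A A] [NonUnitalNonAssocRing B] [Module F B] [IsScalarTower F B B]
    [SMulCommClass F B B] (g : A →ₙₐ[F] B) (a b : A) (ψ : ℕ → A) (w : FreeMagma ℕ) :
    g (Et (F := F) a b ψ w) = Et (F := F) (g a) (g b) (fun i => g (ψ i)) w := by
  cases w with
  | of i => exact map_zero g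
  | mul u v =>
    change g (EE F a b (wv ψ u) (wv ψ v)) = EE F (g a) (g b) _ _
    rw [oper_map_EE, map_wv, map_wv]

lemma oper_Et_congr {A : Type*} [NonUnitalNonAssocRing A] [Module F A]
    [IsScalarTower F A A] [SMulCommClass F A A] {B : Finset ℕ} {w : FreeMagma ℕ} (hw : MW B w)
    (a b : A) {ψ ψ' : ℕ → A} (h : ∀ i ∈ B, ψ i = ψ' i) :
    Et (F := F) a b ψ w = Et (F := F) a b ψ' w := by
  cases w with
  | of i => rfl
  | mul u v =>
    obtain ⟨D, E, h1, h2, _, rfl⟩ := oper_MW_mul_inv hw
    change EE F a b (wv ψ u) (wv ψ v) = EE F a b (wv ψ' u) (wv ψ' v)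
    rw [wv_congr h1 (fun i hi => h i (mem_union_left _ hi)),
      wv_congr h2 (fun i hi => h i (mem_union_right _ hi))]

lemma oper_Et_symm (a b : Mal F) (ψ : ℕ → Mal F) (w : FreeMagma ℕ) :
    Et (F := F) a b ψ w = Et (F := F) b a ψ w := by
  cases w with
  | of i => rfl
  | mul u v => exact EE_symm _ _ _ _

lemma oper_rn_Et {B : Finset ℕ} {w : FreeMagma ℕ} (hw : MW B w) (i j : ℕ) (σ : Equiv.Perm ℕ)
    (ψ : ℕ → Mal F) (h : ∀ k ∈ B, xg (σ k) = ψ k) :
    rn σ (Et (F := F) (xg i) (xg j) xg w : Mal F) = Et (F := F) (xg (σ i)) (xg (σ j)) ψ w := by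
  rw [oper_map_Et, RF.sub_gen, RF.sub_gen]
  apply oper_Et_congr hw
  intro k hk
  rw [RF.sub_gen]
  exact h k hk

/-- (WD) the operators are well defined: linear combinations of words which vanish in `Mal F` are
killed by `Ew (xg p) (xg q)` -/
theorem wd_zero {B : Finset ℕ} (hB : 2 ≤ B.card) {p q : ℕ} (hp : p ∉ B) (hq : q ∉ B)
    (hpq : p ≠ q) (s : Finset (FreeMagma ℕ)) (hs : ∀ w ∈ s, MW B w) (c : FreeMagma ℕ → F)
    (h0 : ∑ w ∈ s, c w • wv xg w = (0 : Mal F)) :
    ∑ w ∈ s, c w • Ew (xg p) (xg q) w = (0 : Mal F) := by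
  have e0 : ∑ w ∈ s, c w • (Ew (xg p) (xg q) w : Mal F) =
      ∑ w ∈ s, c w • Et (F := F) (xg p) (xg q) xg w :=
    Finset.sum_congr rfl (fun w _ => by rw [oper_Ew])
  rw [e0]
  obtain ⟨z, hz⟩ : ∃ z : Mal F, z = ∑ w ∈ s, c w • Et (F := F) (xg p) (xg q) xg w := ⟨_, rfl⟩
  rw [← hz]
  -- membership
  have hmem : z ∈ ML F xg ({p} ∪ {q} ∪ B) := by
    rw [hz]
    apply Submodule.sum_mem
    intro w hw
    apply Submodule.smul_mem
    have hw' := hs w hw
    cases w with
    | of i => exact Submodule.zero_mem _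
    | mul u v =>
      obtain ⟨D, E, h1, h2, h3, rfl⟩ := oper_MW_mul_inv hw'
      rw [mem_union, not_or] at hp hq
      have e : ({p} ∪ {q} ∪ (D ∪ E) : Finset ℕ) = {p} ∪ {q} ∪ D ∪ E := by
        rw [← Finset.union_assoc]
      rw [e]
      change EE F (xg p) (xg q) (wv xg u) (wv xg v) ∈ _
      exact oper_ML_EE (by simpa using hpq) (by simpa using hp.1) (by simpa using hq.1)
        (by simpa using hp.2) (by simpa using hq.2) h3 (oper_ML_gen xg p) (oper_ML_gen xg q)
        (wv_mem_ML h1) (wv_mem_ML h2)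
  have hmap : ∀ σ : Equiv.Perm ℕ, rn σ z =
      ∑ w ∈ s, c w • rn σ (Et (F := F) (xg p) (xg q) xg w) := by
    intro σ
    rw [hz, map_sum]
    apply Finset.sum_congr rfl
    intro w _
    rw [map_smul]
  -- symmetry in p, q
  have hS : rn (Equiv.swap p q) z = z := by
    rw [hmap, hz]
    apply Finset.sum_congr rfl
    intro w hw
    rw [oper_rn_Et (hs w hw) p q (Equiv.swap p q) xg, Equiv.swap_apply_left,
      Equiv.swap_apply_right, oper_Et_symm]
    intro k hk
    rw [Equiv.swap_apply_of_ne_of_ne]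
    · rintro rfl; exact hp hk
    · rintro rfl; exact hq hk
  -- the basic relation
  have hrel : ∀ r ∈ B, (2 : F) • z = rn (Equiv.swap p r) z + rn (Equiv.swap q r) z := by
    intro r hr
    have hpr : p ≠ r := by rintro rfl; exact hp hr
    have hqr : q ≠ r := by rintro rfl; exact hq hr
    have h1 : ∑ w ∈ s, c w • wv (Function.update xg r (Dd (xg p) (xg q) (xg r))) w =
        (0 : Mal F) := by
      have := congrArg (put r (Dd (xg p) (xg q) (xg r))) h0
      rw [map_zero, map_sum] at this
      rw [← this]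
      apply Finset.sum_congr rfl
      intro w _
      rw [map_smul, map_wv]
      congr 3
      funext i
      rw [RF.sub_gen]
    have h2 : ∑ w ∈ s, c w • wv (Function.update xg r (Dd (xg p) (xg q) (xg r))) w =
        (-2 : F) • z + rn (Equiv.swap q r) z + rn (Equiv.swap p r) z := by
      rw [hmap, hmap, hz, Finset.smul_sum, ← Finset.sum_add_distrib, ← Finset.sum_add_distrib]
      apply Finset.sum_congr rfl
      intro w hw
      rw [oper_SS (hs w hw) hr _ _ hB,
        oper_rn_Et (hs w hw) p q (Equiv.swap q r) (Function.update xg r (xg q)),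
        oper_rn_Et (hs w hw) p q (Equiv.swap p r) (Function.update xg r (xg p)),
        Equiv.swap_apply_left, Equiv.swap_apply_left,
        Equiv.swap_apply_of_ne_of_ne hpq hpr, Equiv.swap_apply_of_ne_of_ne hpq.symm hqr,
        oper_Et_symm (xg r) (xg q), smul_add, smul_add, smul_comm]
      · intro k hk
        by_cases hkr : k = r
        · subst hkr
          rw [Equiv.swap_apply_right, Function.update_self]
        · rw [Equiv.swap_apply_of_ne_of_ne (by rintro rfl; exact hp hk) hkr,
            Function.update_of_ne hkr]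
      · intro k hk
        by_cases hkr : k = r
        · subst hkr
          rw [Equiv.swap_apply_right, Function.update_self]
        · rw [Equiv.swap_apply_of_ne_of_ne (by rintro rfl; exact hq hk) hkr,
            Function.update_of_ne hkr]
    rw [h2] at h1
    have h3 : rn (Equiv.swap p r) z + rn (Equiv.swap q r) z = (2 : F) • z +
        ((-2 : F) • z + rn (Equiv.swap q r) z + rn (Equiv.swap p r) z) := by
      rw [neg_smul]; abel
    rw [h3, h1, add_zero]
  have hfix : ∀ r ∈ B, rn (Equiv.swap p r) z = z ∧ rn (Equiv.swap q r) z = z := by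
    intro r hr
    have hpr : p ≠ r := by rintro rfl; exact hp hr
    have hqr : q ≠ r := by rintro rfl; exact hq hr
    have h1 := hrel r hr
    have hPP : rn (Equiv.swap p r) (rn (Equiv.swap p r) z) = z := by
      rw [oper_rn_rn, Equiv.swap_mul_self]; exact oper_rn_one z
    have hQQ : rn (Equiv.swap q r) (rn (Equiv.swap q r) z) = z := by
      rw [oper_rn_rn, Equiv.swap_mul_self]; exact oper_rn_one z
    have hPQ : rn (Equiv.swap p r) (rn (Equiv.swap q r) z) = rn (Equiv.swap q r) z := by
      have e : Equiv.swap p r * Equiv.swap q r = Equiv.swap q r * Equiv.swap p q := by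
        ext i
        simp only [Equiv.Perm.mul_apply, Equiv.swap_apply_def]
        split_ifs <;> simp_all
      rw [oper_rn_rn, e, ← oper_rn_rn, hS]
    have hQP : rn (Equiv.swap q r) (rn (Equiv.swap p r) z) = rn (Equiv.swap p r) z := by
      have e : Equiv.swap q r * Equiv.swap p r = Equiv.swap p r * Equiv.swap p q := by
        ext i
        simp only [Equiv.Perm.mul_apply, Equiv.swap_apply_def]
        split_ifs <;> simp_all
      rw [oper_rn_rn, e, ← oper_rn_rn, hS]
    have h2 := congrArg (rn (Equiv.swap p r)) h1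
    rw [map_smul, map_add, hPP, hPQ] at h2
    have h3 := congrArg (rn (Equiv.swap q r)) h1
    rw [map_smul, map_add, hQQ, hQP] at h3
    generalize rn (Equiv.swap p r) z = P at *
    generalize rn (Equiv.swap q r) z = Q at *
    have h4 : (3 : F) • (P - Q) = 0 := by
      have : (3 : F) • (P - Q) = ((2 : F) • P - (2 : F) • Q) + (P - Q) := by
        rw [← smul_sub]
        have e3 : (3 : F) = 2 + 1 := by norm_num
        rw [e3, add_smul, one_smul]
      rw [this, h2, h3]
      abel
    have h5 : P = Q := by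
      rcases smul_eq_zero.1 h4 with h | h
      · exact absurd h three_ne_zero
      · exact sub_eq_zero.1 h
    subst h5
    have h6 : (2 : F) • (P - z) = 0 := by
      rw [smul_sub, h1]
      rw [two_smul, sub_self]
    have h7 : P = z := by
      rcases smul_eq_zero.1 h6 with h | h
      · exact absurd h two_ne_zero
      · exact sub_eq_zero.1 h
    exact ⟨h7, h7⟩
  have hfix2 : ∀ r ∈ B, ∀ r' ∈ B, rn (Equiv.swap r r') z = z := by
    intro r hr r' hr'
    have hpr : p ≠ r := by rintro rfl; exact hp hr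
    have hpr' : p ≠ r' := by rintro rfl; exact hp hr'
    by_cases hrr : r = r'
    · subst hrr
      rw [Equiv.swap_self]
      exact oper_rn_one z
    · have e : Equiv.swap r r' = Equiv.swap p r * (Equiv.swap p r' * Equiv.swap p r) := by
        ext i
        simp only [Equiv.Perm.mul_apply, Equiv.swap_apply_def]
        split_ifs <;> simp_all
      rw [e, ← oper_rn_rn, ← oper_rn_rn, (hfix r hr).1, (hfix r' hr').1, (hfix r hr).1]
  apply symm_vanish (B := {p} ∪ {q} ∪ B) _ hmem
  · intro a ha b hb
    simp only [mem_union, mem_singleton] at ha hb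
    rcases ha with (rfl | rfl) | ha <;> rcases hb with (rfl | rfl) | hb
    · rw [Equiv.swap_self]; exact oper_rn_one z
    · exact hS
    · exact (hfix b hb).1
    · rw [Equiv.swap_comm]; exact hS
    · rw [Equiv.swap_self]; exact oper_rn_one z
    · exact (hfix b hb).2
    · rw [Equiv.swap_comm]; exact (hfix a ha).1
    · rw [Equiv.swap_comm]; exact (hfix a ha).2
    · exact hfix2 a ha b hb
  · exact hB.trans (Finset.card_le_card Finset.subset_union_right)

/-! ### existence of the operators -/

section oper_EX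

lemma oper_EE_add4 (a b c d d' : Mal F) :
    EE F a b c (d + d') = EE F a b c d + EE F a b c d' := by
  rw [EE_skew, EE_add3, EE_skew a b c d, EE_skew a b c d', neg_add]

lemma oper_EE_smul4 (x : F) (a b c d : Mal F) :
    EE F a b c (x • d) = x • EE F a b c d := by
  rw [EE_skew, EE_smul3, EE_skew a b c d, smul_neg]

lemma oper_EE_zero3 (a b d : Mal F) : EE F a b 0 d = 0 := by
  have := EE_smul3 (F := F) 0 a b (0 : Mal F) d
  rwa [zero_smul, zero_smul] at this

lemma oper_EE_zero4 (a b c : Mal F) : EE F a b c 0 = 0 := by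
  rw [EE_skew, oper_EE_zero3, neg_zero]

/-- the extension of `Mal F` by the cocycle `E(a,b; . , . )` -/
def OpX (_a _b : Mal F) : Type _ := Mal F × Mal F

variable (a b : Mal F)

instance : AddCommGroup (OpX a b) := inferInstanceAs (AddCommGroup (Mal F × Mal F))
instance : Module F (OpX a b) := inferInstanceAs (Module F (Mal F × Mal F))
instance : Mul (OpX a b) := ⟨fun x y => (x.1 * y.1, EE F a b x.1 y.1)⟩

lemma oper_mul_def (x y : OpX a b) : x * y = (x.1 * y.1, EE F a b x.1 y.1) := rfl

instance : NonUnitalNonAssocRing (OpX a b) :=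
  { (inferInstance : AddCommGroup (OpX a b)) with
    mul := (· * ·)
    left_distrib := by
      intro x y z
      apply Prod.ext
      · exact mul_add _ _ _
      · exact oper_EE_add4 _ _ _ _ _
    right_distrib := by
      intro x y z
      apply Prod.ext
      · exact add_mul _ _ _
      · exact EE_add3 _ _ _ _ _
    zero_mul := by
      intro x
      apply Prod.ext
      · exact zero_mul _
      · exact oper_EE_zero3 _ _ _
    mul_zero := by
      intro x
      apply Prod.ext
      · exact mul_zero _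
      · exact oper_EE_zero4 _ _ _ }

instance : IsScalarTower F (OpX a b) (OpX a b) :=
  ⟨by
    intro c x y
    apply Prod.ext
    · exact smul_mul_assoc _ _ _
    · exact EE_smul3 _ _ _ _ _⟩

instance : SMulCommClass F (OpX a b) (OpX a b) :=
  ⟨by
    intro c x y
    apply Prod.ext
    · exact (mul_smul_comm _ _ _).symm
    · exact (oper_EE_smul4 _ _ _ _ _).symm⟩

/-- first component -/
def oper_fst : OpX a b →ₙₐ[F] Mal F where
  toFun x := x.1
  map_smul' _ _ := rfl
  map_zero' := rfl
  map_add' _ _ := rfl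
  map_mul' _ _ := rfl

/-- second component -/
def oper_snd : OpX a b →ₗ[F] Mal F where
  toFun x := x.2
  map_smul' _ _ := rfl
  map_add' _ _ := rfl

/-- `x_i` with second component zero -/
def oper_in (u : ℕ → Mal F) (i : ℕ) : OpX a b := (u i, 0)

lemma oper_fst_wv (φ : ℕ → OpX a b) (w : FreeMagma ℕ) :
    (wv φ w).1 = wv (fun i => (φ i).1) w := map_wv (oper_fst a b) φ w

lemma oper_snd_mul (φ : ℕ → OpX a b) (u v : FreeMagma ℕ) :
    (wv φ (u * v)).2 = EE F a b (wv (fun i => (φ i).1) u) (wv (fun i => (φ i).1) v) := by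
  rw [wv_mul, oper_mul_def]
  change EE F a b (wv φ u).1 (wv φ v).1 = _
  rw [oper_fst_wv, oper_fst_wv]

lemma oper_snd_Et (ψ : ℕ → Mal F) (w : FreeMagma ℕ) :
    oper_snd a b (wv (oper_in a b ψ) w) = Et (F := F) a b ψ w := by
  cases w with
  | of i => rfl
  | mul u v => exact oper_snd_mul a b (oper_in a b ψ) u v

/-- the second component depends on the first components of the variables only -/
lemma oper_snd_congr {B : Finset ℕ} (hB : 2 ≤ B.card) {f : Fr F} (hf : f ∈ ML F (X F) B)
    (φ φ' : ℕ → OpX a b) (h : ∀ i ∈ B, (φ i).1 = (φ' i).1) :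
    oper_snd a b (evalAt φ f) = oper_snd a b (evalAt φ' f) := by
  refine ML_induction (p := fun f => oper_snd a b (evalAt φ f) = oper_snd a b (evalAt φ' f))
    ?_ ?_ ?_ ?_ hf
  · intro w hw
    rw [evalAt_wv, evalAt_wv]
    cases w with
    | of i =>
      have := oper_MW_of_inv hw
      rw [this] at hB
      simp at hB
    | mul u v =>
      obtain ⟨D, E, h1, h2, _, rfl⟩ := oper_MW_mul_inv hw
      have e1 := oper_snd_mul a b φ u v
      have e2 := oper_snd_mul a b φ' u v
      refine e1.trans (Eq.trans ?_ e2.symm)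
      rw [wv_congr h1 (fun i hi => h i (mem_union_left _ hi)),
        wv_congr h2 (fun i hi => h i (mem_union_right _ hi))]
  · simp only [map_zero]
  · intro x y hx hy
    rw [map_add, map_add, map_add, map_add, hx, hy]
  · intro c x hx
    rw [map_smul, map_smul, map_smul, map_smul, hx]

end oper_EX

lemma oper_wd {B : Finset ℕ} (hB : 2 ≤ B.card) {p q : ℕ} (hp : p ∉ B) (hq : q ∉ B)
    (hpq : p ≠ q) {f : Fr F} (hf : f ∈ ML F (X F) B) (h0 : evalAt (xg : ℕ → Mal F) f = 0) :
    oper_snd (xg p : Mal F) (xg q) (evalAt (oper_in (xg p) (xg q) xg) f) = 0 := by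
  have himg : {a | ∃ w, MW B w ∧ a = wv (X F) w} = (wv (X F)) '' {w | MW B w} := by
    ext a
    constructor
    · rintro ⟨w, hw, rfl⟩; exact ⟨w, hw, rfl⟩
    · rintro ⟨w, hw, rfl⟩; exact ⟨w, hw, rfl⟩
  unfold ML at hf
  rw [himg, Finsupp.mem_span_image_iff_linearCombination] at hf
  obtain ⟨l, hl, hlf⟩ := hf
  have hs : ∀ w ∈ l.support, MW B w := fun w hw => (Finsupp.mem_supported F l).1 hl hw
  have hfs : f = ∑ w ∈ l.support, l w • wv (X F) w := by
    rw [← hlf, Finsupp.linearCombination_apply]
    rfl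
  rw [hfs, map_sum] at h0 ⊢
  have h1 : ∑ w ∈ l.support, l w • wv xg w = (0 : Mal F) := by
    rw [← h0]
    apply Finset.sum_congr rfl
    intro w _
    rw [map_smul, evalAt_wv]
  have h2 := wd_zero hB hp hq hpq l.support hs l h1
  rw [map_sum, ← h2]
  apply Finset.sum_congr rfl
  intro w _
  rw [map_smul, map_smul, evalAt_wv, oper_snd_Et, oper_Ew]

lemma oper_identity {B : Finset ℕ} (hB : 2 ≤ B.card) {f : Fr F} (hf : f ∈ ML F (X F) B)
    (hfm : f ∈ malB F) (a b : Mal F) : IsIdentity (OpX a b) f := by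
  intro φ
  have hid : IsIdentity (Mal F) f := RF.identity_of_mem (subset_tIdeal (malB F) hfm)
  have h1 : (evalAt φ f).1 = 0 := by
    have := map_evalAt (oper_fst a b) φ f
    exact this.trans (hid _)
  obtain ⟨p, hp⟩ := Infinite.exists_notMem_finset B
  obtain ⟨q, hq'⟩ := Infinite.exists_notMem_finset (insert p B)
  rw [mem_insert, not_or] at hq'
  obtain ⟨hqp, hq⟩ := hq'
  have hpq : p ≠ q := fun h => hqp h.symm
  -- the substitution
  obtain ⟨u, hu⟩ : ∃ u : ℕ → Mal F, u = fun i => if i = p then a else if i = q then b else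
    (φ i).1 := ⟨_, rfl⟩
  have hup : u p = a := by rw [hu]; simp
  have huq : u q = b := by rw [hu]; simp [hqp]
  have huB : ∀ i ∈ B, u i = (φ i).1 := by
    intro i hi
    rw [hu]
    simp only
    rw [if_neg (by rintro rfl; exact hp hi), if_neg (by rintro rfl; exact hq hi)]
  have h2 : oper_snd a b (evalAt (oper_in a b u) f) = 0 := by
    let Θ : OpX (xg p : Mal F) (xg q) →ₙₐ[F] OpX a b :=
      { toFun := fun x => (RF.sub u x.1, RF.sub u x.2)
        map_smul' := fun c x => Prod.ext (map_smul (RF.sub u) c x.1) (map_smul (RF.sub u) c x.2)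
        map_zero' := Prod.ext (map_zero (RF.sub u)) (map_zero (RF.sub u))
        map_add' := fun x y => Prod.ext (map_add (RF.sub u) x.1 y.1) (map_add (RF.sub u) x.2 y.2)
        map_mul' := fun x y => Prod.ext (map_mul (RF.sub u) x.1 y.1) (by
          change RF.sub u (EE F (xg p) (xg q) x.1 y.1) = EE F a b (RF.sub u x.1) (RF.sub u y.1)
          rw [oper_map_EE, RF.sub_gen, RF.sub_gen, hup, huq]) }
    have h3 := map_evalAt Θ (oper_in (xg p) (xg q) xg) f
    have h4 : (fun i => Θ (oper_in (xg p) (xg q) xg i)) = oper_in a b u := by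
      funext i
      apply Prod.ext
      · exact RF.sub_gen u i
      · exact map_zero (RF.sub u)
    rw [h4] at h3
    rw [← h3]
    change RF.sub u (oper_snd (xg p : Mal F) (xg q) (evalAt (oper_in (xg p) (xg q) xg) f)) = 0
    rw [oper_wd hB hp hq hpq hf (hid _), map_zero]
  have h3 : oper_snd a b (evalAt φ f) = 0 := by
    rw [← h2]
    apply oper_snd_congr a b hB hf
    intro i hi
    exact (huB i hi).symm
  exact Prod.ext h1 h3

lemma oper_all (a b : Mal F) : ∀ f ∈ malB F, IsIdentity (OpX a b) f := by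
  intro f hf
  have hX : ∀ i, X F i ∈ ML F (X F) {i} := fun i => oper_ML_gen (X F) i
  have hd : ∀ i j : ℕ, i ≠ j → Disjoint ({i} : Finset ℕ) {j} := by
    intro i j hij; simpa using hij
  rcases hf with h | h | h
  · have hm : f ∈ ML F (X F) ({0} ∪ {1}) := by
      rw [h]
      apply Submodule.add_mem
      · exact oper_ML_mul (hd 0 1 (by norm_num)) (hX 0) (hX 1)
      · rw [Finset.union_comm]
        exact oper_ML_mul (hd 1 0 (by norm_num)) (hX 1) (hX 0)
    exact oper_identity (by decide) hm (Or.inl h) a b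
  · have hm : f ∈ ML F (X F) ({0} ∪ {1} ∪ {2} ∪ {3}) := by
      rw [h]
      unfold sagle
      refine Submodule.sub_mem _ (Submodule.sub_mem _ (Submodule.sub_mem _ (Submodule.sub_mem _
        ?_ ?_) ?_) ?_) ?_
      · have e : ({0} ∪ {1} ∪ {2} ∪ {3} : Finset ℕ) = ({0} ∪ {2}) ∪ ({1} ∪ {3}) := by decide
        rw [e]
        exact oper_ML_mul (by decide) (oper_ML_mul (by decide) (hX 0) (hX 2))
          (oper_ML_mul (by decide) (hX 1) (hX 3))
      · exact oper_ML_mul (by decide) (oper_ML_mul (by decide) (oper_ML_mul (by decide)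
          (hX 0) (hX 1)) (hX 2)) (hX 3)
      · have e : ({0} ∪ {1} ∪ {2} ∪ {3} : Finset ℕ) = {1} ∪ {2} ∪ {3} ∪ {0} := by decide
        rw [e]
        exact oper_ML_mul (by decide) (oper_ML_mul (by decide) (oper_ML_mul (by decide)
          (hX 1) (hX 2)) (hX 3)) (hX 0)
      · have e : ({0} ∪ {1} ∪ {2} ∪ {3} : Finset ℕ) = {2} ∪ {3} ∪ {0} ∪ {1} := by decide
        rw [e]
        exact oper_ML_mul (by decide) (oper_ML_mul (by decide) (oper_ML_mul (by decide)
          (hX 2) (hX 3)) (hX 0)) (hX 1)
      · have e : ({0} ∪ {1} ∪ {2} ∪ {3} : Finset ℕ) = {3} ∪ {0} ∪ {1} ∪ {2} := by decide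
        rw [e]
        exact oper_ML_mul (by decide) (oper_ML_mul (by decide) (oper_ML_mul (by decide)
          (hX 3) (hX 0)) (hX 1)) (hX 2)
    exact oper_identity (by decide) hm (Or.inr (Or.inl h)) a b
  · have h' : f = EE F (X F 0) (X F 1) (X F 2 * X F 3) (X F 4)
     - (EE F (X F 0) (X F 1) (X F 2) (X F 3)) * X F 4 := h
    have hm : f ∈ ML F (X F) ({0} ∪ {1} ∪ ({2} ∪ {3}) ∪ {4}) := by
      rw [h']
      apply Submodule.sub_mem
      · exact oper_ML_EE (by decide) (by decide) (by decide) (by decide) (by decide) (by decide)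
          (hX 0) (hX 1) (oper_ML_mul (by decide) (hX 2) (hX 3)) (hX 4)
      · have e : ({0} ∪ {1} ∪ ({2} ∪ {3}) ∪ {4} : Finset ℕ) = {0} ∪ {1} ∪ {2} ∪ {3} ∪ {4} := by
          decide
        rw [e]
        exact oper_ML_mul (by decide) (oper_ML_EE (by decide) (by decide) (by decide) (by decide)
          (by decide) (by decide) (hX 0) (hX 1) (hX 2) (hX 3)) (hX 4)
    exact oper_identity (by decide) hm (Or.inr (Or.inr h)) a b

/-- existence of the operators -/
theorem exists_G : ∃ G : Mal F → Mal F → Mal F →ₗ[F] Mal F,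
    ∀ a b c d, G a b (c * d) = EE F a b c d := by
  refine ⟨fun a b => (oper_snd a b).comp (homL (RF.lift (oper_all a b) (oper_in a b xg))), ?_⟩
  intro a b c d
  have h1 : ∀ x : Mal F, (RF.lift (oper_all a b) (oper_in a b xg) x).1 = x := by
    intro x
    have : (oper_fst a b).comp (RF.lift (oper_all a b) (oper_in a b xg)) =
        NonUnitalAlgHom.id F (Mal F) := by
      apply RF.hom_ext
      intro i
      change oper_fst a b (RF.lift (oper_all a b) (oper_in a b xg) (RF.gen (malB F) i)) = _
      rw [RF.lift_gen]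
      rfl
    exact DFunLike.congr_fun this x
  change (RF.lift (oper_all a b) (oper_in a b xg) (c * d)).2 = _
  rw [map_mul, oper_mul_def]
  change EE F a b (RF.lift (oper_all a b) (oper_in a b xg) c).1
    (RF.lift (oper_all a b) (oper_in a b xg) d).1 = _
  rw [h1, h1]

/-- the operators `G a b` (multiplication by the form) -/
def G : Mal F → Mal F → Mal F →ₗ[F] Mal F := Classical.choose exists_G

theorem G_mul (a b c d : Mal F) : G a b (c * d) = EE F a b c d :=
  Classical.choose_spec exists_G a b c d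

/-- the operators `phi(a,b,c)` -/
abbrev Ph (a b c : Mal F) : Mal F →ₗ[F] Mal F := G (a * b) c

end

end OctId
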