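import Pool.Agent.Work.MP_9b6dd6_al.Oper

/-!
# Properties of the operators `G a b` and `Ph a b c`
-/

namespace OctId

open Finset

set_option linter.unusedSectionVars false

noncomputable section

variable {F : Type*} [Field F] [CharZero F]

theorem mul_mem_M2 (a b : Mal F) : a * b ∈ M2 F := Submodule.subset_span ⟨a, b, rfl⟩

/-- linear maps which agree on products agree on `M2` -/
lemma operA_ext {L L' : Mal F →ₗ[F] Mal F} (H : ∀ c d : Mal F, L (c * d) = L' (c * d))
    {h : Mal F} (hh : h ∈ M2 F) : L h = L' h := by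
  have : Set.EqOn L L' {a | ∃ b c : Mal F, a = b * c} := by
    rintro _ ⟨b, c, rfl⟩
    exact H b c
  exact LinearMap.eqOn_span this hh

lemma operA_ind {p : Mal F → Prop} (hm : ∀ b c : Mal F, p (b * c)) (h0 : p 0)
    (ha : ∀ x y, p x → p y → p (x + y)) (hs : ∀ (c : F) x, p x → p (c • x)) {h : Mal F}
    (hh : h ∈ M2 F) : p h := by
  refine Submodule.span_induction ?_ h0 (fun a b _ _ => ha a b) (fun c a _ => hs c a) hh
  rintro _ ⟨b, c, rfl⟩
  exact hm b c

lemma operA_ML_wv (C : Finset ℕ) (w : FreeMagma ℕ) (hw : MW C w) :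
    (wv xg w : Mal F) ∈ ML F xg C := wv_mem_ML hw

theorem ML_le_M2 {B : Finset ℕ} (hB : 2 ≤ B.card) : ML F xg B ≤ M2 F := by
  intro h hh
  refine ML_induction (p := fun h => h ∈ M2 F) ?_ ?_ ?_ ?_ hh
  · intro w hw
    cases w with
    | of i =>
      have := oper_MW_of_inv hw
      rw [this] at hB
      simp at hB
    | mul u v => exact mul_mem_M2 (wv xg u) (wv xg v)
  · exact Submodule.zero_mem _
  · intro a b ha hb; exact Submodule.add_mem _ ha hb
  · intro c a ha; exact Submodule.smul_mem _ c ha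

lemma operA_Oo_mem (a b c d : Mal F) : Oo a b c d ∈ M2 F :=
  Submodule.sub_mem _ (mul_mem_M2 _ _) (mul_mem_M2 _ _)

lemma operA_EE_mem (a b c d : Mal F) : EE F a b c d ∈ M2 F := by
  unfold EE
  apply Submodule.smul_mem
  exact Submodule.add_mem _ (Submodule.add_mem _ (Submodule.add_mem _ (Submodule.add_mem _
    (Submodule.smul_mem _ _ (operA_Oo_mem _ _ _ _)) (operA_Oo_mem _ _ _ _))
    (operA_Oo_mem _ _ _ _)) (operA_Oo_mem _ _ _ _)) (operA_Oo_mem _ _ _ _)

theorem G_mem_M2 (a b : Mal F) {h : Mal F} (hh : h ∈ M2 F) : G a b h ∈ M2 F := by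
  refine operA_ind (p := fun h => G a b h ∈ M2 F) ?_ ?_ ?_ ?_ hh
  · intro c d; rw [G_mul]; exact operA_EE_mem _ _ _ _
  · rw [map_zero]; exact Submodule.zero_mem _
  · intro x y hx hy; rw [map_add]; exact Submodule.add_mem _ hx hy
  · intro c x hx; rw [map_smul]; exact Submodule.smul_mem _ c hx

theorem G_symm (a b : Mal F) {h : Mal F} (hh : h ∈ M2 F) : G a b h = G b a h :=
  operA_ext (fun c d => by rw [G_mul, G_mul, EE_symm]) hh

theorem G_add1 (a a' b : Mal F) {h : Mal F} (hh : h ∈ M2 F) :
    G (a + a') b h = G a b h + G a' b h :=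
  operA_ext (L := G (a + a') b) (L' := G a b + G a' b)
    (fun c d => by rw [LinearMap.add_apply, G_mul, G_mul, G_mul, EE_add1]) hh

theorem G_smul1 (x : F) (a b : Mal F) {h : Mal F} (hh : h ∈ M2 F) :
    G (x • a) b h = x • G a b h :=
  operA_ext (L := G (x • a) b) (L' := x • G a b)
    (fun c d => by rw [LinearMap.smul_apply, G_mul, G_mul, EE_smul1]) hh

theorem G_neg1 (a b : Mal F) {h : Mal F} (hh : h ∈ M2 F) : G (-a) b h = -G a b h := by
  have := G_smul1 (-1 : F) a b hh
  rw [neg_one_smul, neg_one_smul] at this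
  exact this

/-- `G` commutes with multiplication (B2) -/
theorem G_mul_right (a b : Mal F) {h : Mal F} (hh : h ∈ M2 F) (d : Mal F) :
    G a b h * d = G a b (h * d) := by
  refine operA_ind (p := fun h => G a b h * d = G a b (h * d)) ?_ ?_ ?_ ?_ hh
  · intro c e
    rw [G_mul, G_mul]
    exact (malAlg_Mal.b2 a b c e d).symm
  · simp only [map_zero, zero_mul]
  · intro x y hx hy; rw [map_add, add_mul, add_mul, map_add, hx, hy]
  · intro c x hx; rw [map_smul, smul_mul_assoc, smul_mul_assoc, map_smul, hx]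

theorem G_mul_left (a b : Mal F) {h : Mal F} (hh : h ∈ M2 F) (d : Mal F) :
    d * G a b h = G a b (d * h) := by
  have hM := malAlg_Mal (F := F)
  rw [hM.anti d (G a b h), G_mul_right a b hh, hM.anti d h, map_neg]

/-- naturality -/
theorem G_sub (u : ℕ → Mal F) (a b : Mal F) {h : Mal F} (hh : h ∈ M2 F) :
    RF.sub u (G a b h) = G (RF.sub u a) (RF.sub u b) (RF.sub u h) :=
  operA_ext (L := (homL (RF.sub u)).comp (G a b))
    (L' := (G (RF.sub u a) (RF.sub u b)).comp (homL (RF.sub u)))
    (fun c d => by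
      change RF.sub u (G a b (c * d)) = G (RF.sub u a) (RF.sub u b) (RF.sub u (c * d))
      rw [G_mul, map_mul, G_mul, oper_map_EE]) hh

theorem sub_mem_M2 (u : ℕ → Mal F) {h : Mal F} (hh : h ∈ M2 F) : RF.sub u h ∈ M2 F := by
  refine operA_ind (p := fun h => RF.sub u h ∈ M2 F) ?_ ?_ ?_ ?_ hh
  · intro c d; rw [map_mul]; exact mul_mem_M2 _ _
  · rw [map_zero]; exact Submodule.zero_mem _
  · intro x y hx hy; rw [map_add]; exact Submodule.add_mem _ hx hy
  · intro c x hx; rw [map_smul]; exact Submodule.smul_mem _ c hx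

lemma operA_put_wv (t : ℕ) (b : Mal F) (w : FreeMagma ℕ) :
    put t b (wv xg w) = wv (Function.update xg t b) w := by
  rw [map_wv]
  congr 2
  funext i
  rw [RF.sub_gen]

lemma operA_G_Et (a b : Mal F) (ψ : ℕ → Mal F) {B : Finset ℕ} (hB : 2 ≤ B.card)
    {w : FreeMagma ℕ} (hw : MW B w) : G a b (wv ψ w) = Et (F := F) a b ψ w := by
  cases w with
  | of i =>
    have := oper_MW_of_inv hw
    rw [this] at hB
    simp at hB
  | mul u v => exact G_mul a b (wv ψ u) (wv ψ v)

/-- (SS) -/
theorem SS {B : Finset ℕ} {h : Mal F} (hh : h ∈ ML F xg B) (h2 : 2 ≤ B.card) {t : ℕ}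
    (ht : t ∈ B) (a b : Mal F) :
    put t (Dd a b (xg t)) h =
      (-2 : F) • G a b h + G a (xg t) (put t b h) + G b (xg t) (put t a h) := by
  refine ML_induction (p := fun h => put t (Dd a b (xg t)) h =
      (-2 : F) • G a b h + G a (xg t) (put t b h) + G b (xg t) (put t a h)) ?_ ?_ ?_ ?_ hh
  · intro w hw
    rw [operA_put_wv, operA_put_wv, operA_put_wv, operA_G_Et a b xg h2 hw,
      operA_G_Et a (xg t) _ h2 hw, operA_G_Et b (xg t) _ h2 hw]
    exact oper_SS hw ht a b h2
  · simp only [map_zero, smul_zero, add_zero]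
  · intro x y hx hy
    simp only [map_add, smul_add, hx, hy]
    abel
  · intro c x hx
    simp only [map_smul, hx, smul_add]
    rw [smul_comm c (-2 : F)]

lemma operA_EE_G (a b c d : Mal F) : EE F a b c d = G a b (c * d) := (G_mul a b c d).symm

/-- (SS) for the operator applied to products: `G (D_{pq} t) s` -/
theorem G_Dd (p q t s : Mal F) {h : Mal F} (hh : h ∈ M2 F) :
    G (Dd p q t) s h = (-2 : F) • G p q (G t s h) + G t q (G p s h) + G t p (G q s h) := by
  refine operA_ext (L := G (Dd p q t) s)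
    (L' := (-2 : F) • (G p q).comp (G t s) + (G t q).comp (G p s) + (G t p).comp (G q s))
    ?_ hh
  intro u v
  simp only [LinearMap.add_apply, LinearMap.smul_apply, LinearMap.comp_apply]
  have hf : EE F (xg 0 : Mal F) (xg 1) (xg 2) (xg 3) ∈ ML F xg ({0} ∪ {1} ∪ {2} ∪ {3}) :=
    oper_ML_EE (by decide) (by decide) (by decide) (by decide) (by decide) (by decide)
      (oper_ML_gen xg 0) (oper_ML_gen xg 1) (oper_ML_gen xg 2) (oper_ML_gen xg 3)
  have h1 := SS hf (by decide) (t := 0) (by decide) (xg 4) (xg 5)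
  have hm : ∀ a b c d : Mal F, G a b (c * d) ∈ M2 F := fun a b c d => G_mem_M2 a b (mul_mem_M2 c d)
  have u1 : ∀ x : Mal F, Function.update xg 0 x 1 = xg 1 := fun x =>
    Function.update_of_ne (by norm_num) _ _
  have u2 : ∀ x : Mal F, Function.update xg 0 x 2 = xg 2 := fun x =>
    Function.update_of_ne (by norm_num) _ _
  have u3 : ∀ x : Mal F, Function.update xg 0 x 3 = xg 3 := fun x =>
    Function.update_of_ne (by norm_num) _ _
  rw [oper_map_EE, oper_map_EE, oper_map_EE] at h1
  simp only [RF.sub_gen, Function.update_self, u1, u2, u3, operA_EE_G] at h1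
  have h2 := congrArg (RF.sub (S := malB F) (fun i => if i = 0 then t else if i = 1 then s else
    if i = 2 then u else if i = 3 then v else if i = 4 then p else q)) h1
  rw [map_add, map_add, map_smul, G_sub _ _ _ (mul_mem_M2 _ _), G_sub _ _ _ (hm _ _ _ _),
    G_sub _ _ _ (mul_mem_M2 _ _), G_sub _ _ _ (hm _ _ _ _),
    G_sub _ _ _ (mul_mem_M2 _ _), G_sub _ _ _ (hm _ _ _ _),
    G_sub _ _ _ (mul_mem_M2 _ _), oper_map_Dd] at h2
  rw [map_mul] at h2
  simp only [RF.sub_gen] at h2
  norm_num at h2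
  rw [h2, G_symm p t (hm _ _ _ _), G_symm q t (hm _ _ _ _)]
  simp only [neg_smul]
  abel

lemma operA_S1 (a b u v : Mal F) : Dd a b u * v =
    (-2 : F) • G a b (u * v) + G a u (b * v) + G b u (a * v) := by
  rw [cert_S1 malAlg_Mal a b u v, operA_EE_G, operA_EE_G, operA_EE_G]

/-- (SS) for a tree of depth 3 -/
lemma operA_SS3 (p q r s t v : Mal F) : Dd p q (Dd r s t) * v =
    (-2 : F) • G r s (Dd p q t * v) + G r t (Dd p q s * v) + G s t (Dd p q r * v) := by
  have hf : Dd (xg 4 : Mal F) (xg 5) (xg 0) * xg 1 ∈ ML F xg ({4} ∪ {5} ∪ {0} ∪ {1}) :=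
    oper_ML_mul (by decide) (oper_ML_Dd (by decide) (by decide) (by decide) (oper_ML_gen xg 4)
      (oper_ML_gen xg 5) (oper_ML_gen xg 0)) (oper_ML_gen xg 1)
  have h1 := SS hf (by decide) (t := 0) (by decide) (xg 2) (xg 3)
  have u1 : ∀ x : Mal F, Function.update xg 0 x 1 = xg 1 := fun x =>
    Function.update_of_ne (by norm_num) _ _
  have u4 : ∀ x : Mal F, Function.update xg 0 x 4 = xg 4 := fun x =>
    Function.update_of_ne (by norm_num) _ _
  have u5 : ∀ x : Mal F, Function.update xg 0 x 5 = xg 5 := fun x =>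
    Function.update_of_ne (by norm_num) _ _
  simp only [map_mul, oper_map_Dd, RF.sub_gen, Function.update_self, u1, u4, u5] at h1
  have h2 := congrArg (RF.sub (S := malB F) (fun i => if i = 0 then t else if i = 1 then v else
    if i = 2 then r else if i = 3 then s else if i = 4 then p else q)) h1
  rw [map_add, map_add, map_smul, G_sub _ _ _ (mul_mem_M2 _ _), G_sub _ _ _ (mul_mem_M2 _ _),
    G_sub _ _ _ (mul_mem_M2 _ _)] at h2
  simp only [map_mul, oper_map_Dd, RF.sub_gen] at h2
  norm_num at h2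
  rw [h2]
  simp only [neg_smul]

/-- the commutator on a product -/
def operA_Z (p q r s t v : Mal F) : Mal F :=
  G p q (G r s (t * v)) - G r s (G p q (t * v))

lemma operA_Z_symm34 (p q r s t v : Mal F) : operA_Z p q r s t v = operA_Z p q s r t v := by
  unfold operA_Z
  rw [G_symm r s (mul_mem_M2 _ _), G_symm r s (G_mem_M2 _ _ (mul_mem_M2 _ _))]

lemma operA_Z_anti (p q r s t v : Mal F) : operA_Z p q r s t v = -operA_Z r s p q t v := by
  unfold operA_Z
  abel

lemma operA_Z_flip (p q r s t v : Mal F) : operA_Z p q r s t v = -operA_Z p q r s v t := by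
  unfold operA_Z
  rw [malAlg_Mal.anti t v]
  simp only [map_neg]
  abel

lemma operA_Z_rel (p q r s t v : Mal F) :
    (2 : F) • operA_Z p q r s t v = operA_Z p q r t s v + operA_Z p q t s r v := by
  have hm : ∀ a b c d : Mal F, G a b (c * d) ∈ M2 F := fun a b c d => G_mem_M2 a b (mul_mem_M2 c d)
  have hA : Dd p q (Dd r s t) * v = (-2 : F) • G p q (Dd r s t * v) +
      G (Dd r s t) p (q * v) + G (Dd r s t) q (p * v) := by
    rw [operA_S1 p q (Dd r s t) v, G_symm p (Dd r s t) (mul_mem_M2 _ _),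
      G_symm q (Dd r s t) (mul_mem_M2 _ _)]
  have hB := operA_SS3 p q r s t v
  rw [hA] at hB
  rw [G_Dd r s t p (mul_mem_M2 _ _), G_Dd r s t q (mul_mem_M2 _ _), operA_S1 r s t v,
    operA_S1 p q t v, operA_S1 p q s v, operA_S1 p q r v] at hB
  simp only [map_add, map_smul] at hB
  unfold operA_Z
  rw [G_symm t p (mul_mem_M2 _ _), G_symm t q (mul_mem_M2 _ _), G_symm t s (hm _ _ _ _),
    G_symm r p (mul_mem_M2 _ _), G_symm t r (hm _ _ _ _), G_symm s p (mul_mem_M2 _ _),
    G_symm r q (mul_mem_M2 _ _), G_symm s q (mul_mem_M2 _ _), G_symm t s (hm _ _ _ _),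
    G_symm t r (hm _ _ _ _)] at hB
  rw [G_symm t s (mul_mem_M2 _ _), G_symm t s (hm _ _ _ _)]
  -- linear algebra
  have h2 : (2 : F) • ((2 : F) • (G p q (G r s (t * v)) - G r s (G p q (t * v)))) =
      (2 : F) • (G p q (G r t (s * v)) - G r t (G p q (s * v)) +
        (G p q (G s t (r * v)) - G s t (G p q (r * v)))) := by
    rw [← sub_eq_zero] at hB ⊢
    rw [← hB]
    module
  exact smul_right_injective _ (two_ne_zero (α := F)) h2

lemma operA_Z_45 (p q r s t v : Mal F) : operA_Z p q r s t v = operA_Z p q r t s v := by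
  have h1 := operA_Z_rel p q r s t v
  have h2 := operA_Z_rel p q r t s v
  rw [operA_Z_symm34 p q t s r v] at h1
  generalize operA_Z p q r s t v = A at *
  generalize operA_Z p q r t s v = B at *
  generalize operA_Z p q s t r v = C at *
  have h3 : (3 : F) • (A - B) = 0 := by
    have : (3 : F) • (A - B) = ((2 : F) • A - (2 : F) • B) + (A - B) := by module
    rw [this, h1, h2]
    abel
  rcases smul_eq_zero.1 h3 with h | h
  · exact absurd h three_ne_zero
  · exact sub_eq_zero.1 h

lemma operA_Z_zero (p q r s t v : Mal F) : operA_Z p q r s t v = 0 := by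
  have h1 : operA_Z p q r s t v = -operA_Z p q r s t v := by
    calc operA_Z p q r s t v = operA_Z p q r t s v := operA_Z_45 _ _ _ _ _ _
      _ = -operA_Z p q r t v s := operA_Z_flip _ _ _ _ _ _
      _ = -operA_Z p q r v t s := by rw [operA_Z_45 p q r t v s]
      _ = operA_Z p q r v s t := by rw [operA_Z_flip p q r v s t]
      _ = operA_Z p q r s v t := operA_Z_45 _ _ _ _ _ _
      _ = -operA_Z p q r s t v := operA_Z_flip _ _ _ _ _ _
  have h2 : (2 : F) • operA_Z p q r s t v = 0 := by
    rw [two_smul]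
    nth_rewrite 1 [h1]
    exact neg_add_cancel _
  rcases smul_eq_zero.1 h2 with h | h
  · exact absurd h two_ne_zero
  · exact h

/-- the operators commute -/
theorem G_comm (a b c d : Mal F) {h : Mal F} (hh : h ∈ M2 F) :
    G a b (G c d h) = G c d (G a b h) :=
  operA_ext (L := (G a b).comp (G c d)) (L' := (G c d).comp (G a b))
    (fun t v => by
      have := operA_Z_zero a b c d t v
      unfold operA_Z at this
      exact sub_eq_zero.1 this) hh

/-- (S9) -/
theorem e3_mul (w c s d : Mal F) (hw : w ∈ M2 F) :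
    e3 (F := F) (fun a b h => G a b h) w c s * d = G w c (s * d) := by
  unfold e3
  simp only
  rw [sub_mul, smul_mul_assoc, add_mul, smul_mul_assoc, G_mul_right _ _ hw, operA_S1, operA_S1,
    G_symm s w (mul_mem_M2 _ _), G_symm c w (mul_mem_M2 _ _), G_symm c s (mul_mem_M2 _ _)]
  module

theorem e4_mul (a b c s d : Mal F) : e4 F a b c s * d = Ph a b c (s * d) := by
  rw [← e3_mul (a * b) c s d (mul_mem_M2 _ _)]
  unfold e4 e3
  simp only [G_mul]

lemma operA_e4_add (a b c x y : Mal F) : e4 F a b c (x + y) = e4 F a b c x + e4 F a b c y := by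
  unfold e4 Dd
  rw [EE_add1]
  simp only [add_mul, mul_add]
  module

lemma operA_e4_smul (k : F) (a b c x : Mal F) : e4 F a b c (k • x) = k • e4 F a b c x := by
  unfold e4 Dd
  rw [EE_smul1]
  simp only [smul_mul_assoc, mul_smul_comm]
  module

/-- (S12) on `M2` -/
theorem e4_M2 (a b c : Mal F) {h : Mal F} (hh : h ∈ M2 F) : e4 F a b c h = Ph a b c h := by
  refine operA_ind (p := fun h => e4 F a b c h = Ph a b c h) ?_ ?_ ?_ ?_ hh
  · intro p q
    rw [cert_S12 malAlg_Mal, ← G_mul]
  · have := operA_e4_smul (0 : F) a b c (0 : Mal F)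
    rw [zero_smul, zero_smul] at this
    rw [this, map_zero]
  · intro x y hx hy
    rw [operA_e4_add, hx, hy, map_add]
  · intro k x hx
    rw [operA_e4_smul, hx, map_smul]

theorem Ph_skew12 (a b c : Mal F) {h : Mal F} (hh : h ∈ M2 F) :
    Ph a b c h = -Ph b a c h := by
  change G (a * b) c h = -G (b * a) c h
  rw [malAlg_Mal.anti a b, G_neg1 _ _ hh]

theorem Ph_skew23 (a b c : Mal F) {h : Mal F} (hh : h ∈ M2 F) :
    Ph a b c h = -Ph a c b h := by
  refine operA_ext (L := Ph a b c) (L' := -Ph a c b) ?_ hh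
  intro s d
  rw [LinearMap.neg_apply, ← e4_mul, ← e4_mul, ← neg_mul]
  congr 1
  exact eq_neg_of_add_eq_zero_left (cert_e4_skew malAlg_Mal a b c s)

/-! ### (SP) -/

/-- the equation (SP) for `h` -/
def operA_SP (t : ℕ) (a b c h : Mal F) : Prop :=
  put t ((b * c) * (a * xg t) + (c * a) * (b * xg t) + (a * b) * (c * xg t)) h =
      (-3 : F) • Ph a b c h - Ph (xg t) b c (put t a h) - Ph a (xg t) c (put t b h)
        - Ph a b (xg t) (put t c h)
        + (2 : F) • (G a (xg t) (put t (b * c) h) + G b (xg t) (put t (c * a) h)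
          + G c (xg t) (put t (a * b) h))

lemma operA_SP_neg {t : ℕ} {a b c h : Mal F} (hs : operA_SP t a b c h) :
    operA_SP t a b c (-h) := by
  unfold operA_SP at hs ⊢
  simp only [map_neg, hs]
  module

lemma operA_SP_mul {t : ℕ} {a b c h V : Mal F} (hh : h ∈ M2 F) (hs : operA_SP t a b c h)
    (hV : ∀ x : Mal F, put t x V = V) : operA_SP t a b c (h * V) := by
  unfold operA_SP at hs ⊢
  have hm : ∀ x : Mal F, put t x h ∈ M2 F := fun x => sub_mem_M2 _ hh
  have hp : ∀ x : Mal F, put t x (h * V) = put t x h * V := fun x => by rw [map_mul, hV]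
  simp only [hp, hs]
  rw [add_mul, sub_mul, sub_mul, sub_mul, smul_mul_assoc, smul_mul_assoc, add_mul, add_mul,
    G_mul_right _ _ hh, G_mul_right _ _ (hm _), G_mul_right _ _ (hm _), G_mul_right _ _ (hm _),
    G_mul_right _ _ (hm _), G_mul_right _ _ (hm _), G_mul_right _ _ (hm _)]

lemma operA_SP_base {t : ℕ} {a b c V : Mal F}
    (hV : ∀ x : Mal F, put t x V = V) : operA_SP t a b c (xg t * V) := by
  unfold operA_SP
  have hM := malAlg_Mal (F := F)
  simp only [map_mul, hV, RF.sub_gen, Function.update_self]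
  rw [cert_S6 hM, add_mul, sub_mul, sub_mul, sub_mul, smul_mul_assoc, smul_mul_assoc, add_mul,
    add_mul, e4_mul, e4_mul, e4_mul, e4_mul, ← hM.b2, ← hM.b2, ← hM.b2, operA_EE_G, operA_EE_G,
    operA_EE_G]

lemma operA_put_fix {C : Finset ℕ} {v : FreeMagma ℕ} (hv : MW C v) {t : ℕ} (ht : t ∉ C)
    (x : Mal F) : put t x (wv xg v) = wv xg v := by
  rw [operA_put_wv]
  exact wv_congr hv (fun i hi => Function.update_of_ne (by rintro rfl; exact ht hi) _ _)

lemma operA_SP_word {B : Finset ℕ} {w : FreeMagma ℕ} (hw : MW B w) {t : ℕ}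
    (ht : t ∈ B) (a b c : Mal F) : 2 ≤ B.card → operA_SP t a b c (wv xg w) := by
  have hM := malAlg_Mal (F := F)
  induction hw with
  | of i => intro h2; simp at h2
  | @mul C D u v hu hv hd ihu ihv =>
    intro _
    have key : ∀ {C : Finset ℕ} {u : FreeMagma ℕ} {V : Mal F}, MW C u → t ∈ C →
        (2 ≤ C.card → operA_SP t a b c (wv xg u)) → (∀ x : Mal F, put t x V = V) →
        operA_SP t a b c (wv xg u * V) := by
      intro C u V hu htC ih hV
      cases hu with
      | of i =>
        rw [mem_singleton] at htC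
        subst htC
        exact operA_SP_base hV
      | @mul C1 C2 u1 u2 h1 h2 h3 =>
        have hc : 2 ≤ (C1 ∪ C2).card := by
          rw [Finset.card_union_of_disjoint h3]
          have := Finset.card_pos.2 h1.nonempty
          have := Finset.card_pos.2 h2.nonempty
          omega
        exact operA_SP_mul (mul_mem_M2 (wv xg u1) (wv xg u2)) (ih hc) hV
    rcases Finset.mem_union.1 ht with hC | hD
    · have htD : t ∉ D := fun h => (Finset.disjoint_left.1 hd) hC h
      exact key hu hC (ihu hC) (operA_put_fix hv htD)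
    · have htC : t ∉ C := fun h => (Finset.disjoint_left.1 hd) h hD
      have h1 := key hv hD (ihv hD) (operA_put_fix hu htC)
      have h2 := operA_SP_neg h1
      rw [← hM.anti] at h2
      exact h2

/-- (SP) -/
theorem SP {B : Finset ℕ} {h : Mal F} (hh : h ∈ ML F xg B) (h2 : 2 ≤ B.card) {t : ℕ}
    (ht : t ∈ B) (a b c : Mal F) :
    put t ((b * c) * (a * xg t) + (c * a) * (b * xg t) + (a * b) * (c * xg t)) h =
      (-3 : F) • Ph a b c h - Ph (xg t) b c (put t a h) - Ph a (xg t) c (put t b h)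
        - Ph a b (xg t) (put t c h)
        + (2 : F) • (G a (xg t) (put t (b * c) h) + G b (xg t) (put t (c * a) h)
          + G c (xg t) (put t (a * b) h)) := by
  change operA_SP t a b c h
  refine ML_induction (p := fun h => operA_SP t a b c h) ?_ ?_ ?_ ?_ hh
  · intro w hw
    exact operA_SP_word hw ht a b c h2
  · unfold operA_SP
    simp only [map_zero, smul_zero, add_zero, sub_zero]
  · intro x y hx hy
    unfold operA_SP at *
    simp only [map_add, hx, hy]
    module
  · intro k x hx
    unfold operA_SP at *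
    simp only [map_smul, hx]
    module

/-! ### behaviour of `ML` -/

/-- behaviour of `ML` -/
theorem G_mem_ML {B : Finset ℕ} {p q : ℕ} (hp : p ∈ B) (hq : q ∈ B) (hpq : p ≠ q)
    (hB : 4 ≤ B.card) {h : Mal F} (hh : h ∈ ML F xg (B \ {p, q})) :
    G (xg p) (xg q) h ∈ ML F xg B := by
  have hsub : ({p, q} : Finset ℕ) ⊆ B := by
    intro i hi
    rw [mem_insert, mem_singleton] at hi
    rcases hi with rfl | rfl <;> assumption
  have hc : 2 ≤ (B \ {p, q}).card := by
    rw [Finset.card_sdiff_of_subset hsub, Finset.card_pair hpq]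
    omega
  refine ML_induction (p := fun h => G (xg p) (xg q) h ∈ ML F xg B) ?_ ?_ ?_ ?_ hh
  · intro w hw
    cases w with
    | of i =>
      have := oper_MW_of_inv hw
      rw [this] at hc
      simp at hc
    | mul u v =>
      obtain ⟨D, E, h1, h2, h3, hDE⟩ := oper_MW_mul_inv hw
      have hpn : p ∉ B \ {p, q} := by simp
      have hqn : q ∉ B \ {p, q} := by simp
      rw [hDE, mem_union, not_or] at hpn hqn
      have e : B = {p} ∪ {q} ∪ D ∪ E := by
        rw [Finset.union_assoc _ D E, ← hDE]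
        ext i
        simp only [mem_union, mem_singleton, mem_sdiff, mem_insert]
        constructor
        · intro hi; by_cases h1 : i = p <;> by_cases h2 : i = q <;> tauto
        · rintro ((rfl | rfl) | h) <;> tauto
      have e1 : G (xg p) (xg q) (wv xg (FreeMagma.mul u v)) =
          EE F (xg p) (xg q) (wv xg u) (wv xg v) := G_mul _ _ (wv xg u) (wv xg v)
      rw [e1, e]
      exact oper_ML_EE (by simpa using hpq) (by simpa using hpn.1) (by simpa using hqn.1)
        (by simpa using hpn.2) (by simpa using hqn.2) h3 (oper_ML_gen xg p) (oper_ML_gen xg q)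
        (wv_mem_ML h1) (wv_mem_ML h2)
  · rw [map_zero]; exact Submodule.zero_mem _
  · intro a b ha hb; rw [map_add]; exact Submodule.add_mem _ ha hb
  · intro c a ha; rw [map_smul]; exact Submodule.smul_mem _ c ha

theorem Ph_mem_ML {B : Finset ℕ} {p q r : ℕ} (hp : p ∈ B) (hq : q ∈ B) (hr : r ∈ B)
    (hpq : p ≠ q) (hpr : p ≠ r) (hqr : q ≠ r) (hB : 5 ≤ B.card) {h : Mal F}
    (hh : h ∈ ML F xg (B \ {p, q, r})) : Ph (xg p) (xg q) (xg r) h ∈ ML F xg B := by
  have hsub : ({p, q, r} : Finset ℕ) ⊆ B := by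
    intro i hi
    rw [mem_insert, mem_insert, mem_singleton] at hi
    rcases hi with rfl | rfl | rfl <;> assumption
  have hc : 2 ≤ (B \ {p, q, r}).card := by
    rw [Finset.card_sdiff_of_subset hsub, Finset.card_eq_three.2 ⟨p, q, r, hpq, hpr, hqr, rfl⟩]
    omega
  refine ML_induction (p := fun h => Ph (xg p) (xg q) (xg r) h ∈ ML F xg B) ?_ ?_ ?_ ?_ hh
  · intro w hw
    cases w with
    | of i =>
      have := oper_MW_of_inv hw
      rw [this] at hc
      simp at hc
    | mul u v =>
      obtain ⟨D, E, h1, h2, h3, hDE⟩ := oper_MW_mul_inv hw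
      have hpn : p ∉ B \ {p, q, r} := by simp
      have hqn : q ∉ B \ {p, q, r} := by simp
      have hrn : r ∉ B \ {p, q, r} := by simp
      rw [hDE, mem_union, not_or] at hpn hqn hrn
      have e : B = ({p} ∪ {q}) ∪ {r} ∪ D ∪ E := by
        rw [Finset.union_assoc _ D E, ← hDE]
        ext i
        simp only [mem_union, mem_singleton, mem_sdiff, mem_insert]
        constructor
        · intro hi
          by_cases h1 : i = p <;> by_cases h2 : i = q <;> by_cases h3 : i = r <;> tauto
        · rintro (((rfl | rfl) | rfl) | h) <;> tauto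
      have e1 : Ph (xg p) (xg q) (xg r) (wv xg (FreeMagma.mul u v)) =
          EE F (xg p * xg q) (xg r) (wv xg u) (wv xg v) := G_mul _ _ (wv xg u) (wv xg v)
      rw [e1, e]
      exact oper_ML_EE (by simp [Ne.symm hpr, Ne.symm hqr, hpr, hqr])
        (by simp [hpn.1, hqn.1]) (by simpa using hrn.1)
        (by simp [hpn.2, hqn.2]) (by simpa using hrn.2) h3
        (oper_ML_mul (by simpa using hpq) (oper_ML_gen xg p) (oper_ML_gen xg q))
        (oper_ML_gen xg r) (wv_mem_ML h1) (wv_mem_ML h2)
  · rw [map_zero]; exact Submodule.zero_mem _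
  · intro a b ha hb; rw [map_add]; exact Submodule.add_mem _ ha hb
  · intro c a ha; rw [map_smul]; exact Submodule.smul_mem _ c ha

lemma operA_cherry_word {C : Finset ℕ} {w : FreeMagma ℕ} (hw : MW C w) {p q : ℕ} :
    p ∈ C → q ∉ C → wv (Function.update xg p (xg p * xg q : Mal F)) w ∈ ML F xg (insert q C) := by
  induction hw with
  | of i =>
    intro hp hq
    rw [mem_singleton] at hp
    subst hp
    rw [mem_singleton] at hq
    rw [wv_of, Function.update_self]
    have e : (insert q {p} : Finset ℕ) = {p} ∪ {q} := by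
      rw [Finset.insert_eq, Finset.union_comm]
    rw [e]
    exact oper_ML_mul (by simpa using Ne.symm hq) (oper_ML_gen xg p) (oper_ML_gen xg q)
  | @mul D E u v hu hv hd ihu ihv =>
    intro hp hq
    rw [mem_union, not_or] at hq
    rcases Finset.mem_union.1 hp with hD | hE
    · have hpE : p ∉ E := fun h => (Finset.disjoint_left.1 hd) hD h
      have hv' : wv (Function.update xg p (xg p * xg q : Mal F)) v = wv xg v :=
        wv_congr hv (fun i hi => Function.update_of_ne (by rintro rfl; exact hpE hi) _ _)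
      rw [wv_mul, hv', ← Finset.insert_union]
      exact oper_ML_mul (Finset.disjoint_insert_left.2 ⟨hq.2, hd⟩) (ihu hD hq.1) (wv_mem_ML hv)
    · have hpD : p ∉ D := fun h => (Finset.disjoint_left.1 hd) h hE
      have hu' : wv (Function.update xg p (xg p * xg q : Mal F)) u = wv xg u :=
        wv_congr hu (fun i hi => Function.update_of_ne (by rintro rfl; exact hpD hi) _ _)
      rw [wv_mul, hu', ← Finset.union_insert]
      exact oper_ML_mul (Finset.disjoint_insert_right.2 ⟨hq.1, hd⟩) (wv_mem_ML hu) (ihv hE hq.2)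

theorem put_cherry_mem_ML {B : Finset ℕ} {p q : ℕ} (hp : p ∈ B) (hq : q ∈ B) (hpq : p ≠ q)
    {h : Mal F} (hh : h ∈ ML F xg (B.erase q)) : put p (xg p * xg q) h ∈ ML F xg B := by
  refine ML_induction (p := fun h => put p (xg p * xg q) h ∈ ML F xg B) ?_ ?_ ?_ ?_ hh
  · intro w hw
    rw [operA_put_wv]
    have := operA_cherry_word (F := F) hw (p := p) (q := q) (mem_erase.2 ⟨hpq, hp⟩)
      (Finset.notMem_erase q B)
    rwa [Finset.insert_erase hq] at this
  · rw [map_zero]; exact Submodule.zero_mem _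
  · intro a b ha hb; rw [map_add]; exact Submodule.add_mem _ ha hb
  · intro c a ha; rw [map_smul]; exact Submodule.smul_mem _ c ha

lemma operA_rn_word (σ : Equiv.Perm ℕ) {C : Finset ℕ} {w : FreeMagma ℕ} (hw : MW C w) :
    (wv (fun i => xg (σ i)) w : Mal F) ∈ ML F xg (C.map σ.toEmbedding) := by
  induction hw with
  | of i =>
    rw [Finset.map_singleton]
    exact oper_ML_gen xg (σ i)
  | @mul D E u v hu hv hd ihu ihv =>
    rw [Finset.map_union, wv_mul]
    exact oper_ML_mul ((Finset.disjoint_map _).2 hd) ihu ihv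

theorem rn_mem_ML {B : Finset ℕ} {h : Mal F} (hh : h ∈ ML F xg B) (σ : Equiv.Perm ℕ) :
    rn σ h ∈ ML F xg (B.map σ.toEmbedding) := by
  refine ML_induction (p := fun h => rn σ h ∈ ML F xg (B.map σ.toEmbedding)) ?_ ?_ ?_ ?_ hh
  · intro w hw
    rw [oper_rn_wv]
    exact operA_rn_word σ hw
  · rw [map_zero]; exact Submodule.zero_mem _
  · intro a b ha hb; rw [map_add]; exact Submodule.add_mem _ ha hb
  · intro c a ha; rw [map_smul]; exact Submodule.smul_mem _ c ha

theorem mul_mem_ML {A B : Finset ℕ} {a b : Mal F} (ha : a ∈ ML F xg A) (hb : b ∈ ML F xg B)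
    (h : Disjoint A B) : a * b ∈ ML F xg (A ∪ B) := oper_ML_mul h ha hb

/-- substitution of letters not occurring does nothing -/
theorem sub_congr {B : Finset ℕ} {h : Mal F} (hh : h ∈ ML F xg B) {u v : ℕ → Mal F}
    (huv : ∀ i ∈ B, u i = v i) : RF.sub u h = RF.sub v h := by
  refine ML_induction (p := fun h => RF.sub u h = RF.sub v h) ?_ ?_ ?_ ?_ hh
  · intro w hw
    rw [map_wv, map_wv]
    apply wv_congr hw
    intro i hi
    rw [RF.sub_gen, RF.sub_gen]
    exact huv i hi
  · rw [map_zero, map_zero]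
  · intro a b ha hb; rw [map_add, map_add, ha, hb]
  · intro c a ha; rw [map_smul, map_smul, ha]

end

end OctId
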