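import Pool.Agent.Work.MP_9b6dd6_al.Ev

/-!
# Surjectivity of the evaluation and the low degree cases
-/

namespace OctId

open Finset

set_option linter.unusedSectionVars false

noncomputable section

variable {F : Type*} [Field F] [CharZero F]

/-- the evaluations of the elements of `ML` -/
def Sur_I (F : Type*) [Field F] [CharZero F] (B : Finset ℕ) : Submodule F (Fn F) :=
  (ML F xg B).map (ev (F := F))

theorem Sur_mem {B : Finset ℕ} {f : Fn F} : f ∈ Sur_I F B ↔ ∃ u ∈ ML F xg B, ev u = f :=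
  Submodule.mem_map

theorem Sur_two {p q : ℕ} (hpq : p ≠ q) {f : Fn F} (hf : f ∈ W F {p, q}) :
    f ∈ Sur_I F {p, q} := by
  obtain ⟨c, rfl⟩ := W_two hpq hf
  refine Sur_mem.2 ⟨c • (xg p * xg q), Submodule.smul_mem _ _ ?_, ?_⟩
  · have h := oper_ML_mul (F := F) (C := {p}) (D := {q}) (by simpa using hpq)
      (oper_ML_gen (F := F) (xg (F := F)) p) (oper_ML_gen (F := F) (xg (F := F)) q)
    have e : ({p} ∪ {q} : Finset ℕ) = {p, q} := by
      ext i; simp only [mem_union, mem_singleton, mem_insert]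
    rwa [e] at h
  · funext y
    rw [map_smul, Pi.smul_apply, ev_mul, ev_gen, ev_gen]

theorem Sur_gm {B : Finset ℕ} {p q : ℕ} {h : Fn F} (hB : 4 ≤ B.card) (hp : p ∈ B) (hq : q ∈ B)
    (hpq : p ≠ q) (hh : h ∈ Sur_I F (B \ {p, q})) : gm p q h ∈ Sur_I F B := by
  obtain ⟨u, hu, rfl⟩ := Sur_mem.1 hh
  have hc : 2 ≤ (B \ {p, q}).card := by
    have := oneRow_card_sdiff hp hq hpq
    omega
  exact Sur_mem.2 ⟨G (xg p) (xg q) u, G_mem_ML hp hq hpq hB hu, ev_G_gen p q (ML_le_M2 hc hu)⟩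

theorem Sur_card3 {B : Finset ℕ} {p q r : ℕ} (hp : p ∈ B) (hq : q ∈ B) (hr : r ∈ B)
    (hpq : p ≠ q) (hpr : p ≠ r) (hqr : q ≠ r) : (B \ {p, q, r}).card = B.card - 3 := by
  have hsub : ({p, q, r} : Finset ℕ) ⊆ B := by
    intro i hi
    rw [mem_insert, mem_insert, mem_singleton] at hi
    rcases hi with rfl | rfl | rfl <;> assumption
  rw [Finset.card_sdiff_of_subset hsub, Finset.card_eq_three.2 ⟨p, q, r, hpq, hpr, hqr, rfl⟩]

theorem Sur_phm {B : Finset ℕ} {p q r : ℕ} {h : Fn F} (hB : 5 ≤ B.card) (hp : p ∈ B)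
    (hq : q ∈ B) (hr : r ∈ B) (hpq : p ≠ q) (hpr : p ≠ r) (hqr : q ≠ r)
    (hh : h ∈ Sur_I F (B \ {p, q, r})) : phm p q r h ∈ Sur_I F B := by
  obtain ⟨u, hu, rfl⟩ := Sur_mem.1 hh
  have hc : 2 ≤ (B \ {p, q, r}).card := by
    have := Sur_card3 hp hq hr hpq hpr hqr
    omega
  exact Sur_mem.2 ⟨Ph (xg p) (xg q) (xg r) u, Ph_mem_ML hp hq hr hpq hpr hqr hB hu,
    ev_Ph_gen p q r (ML_le_M2 hc hu)⟩

theorem Sur_Dh_mem {a b c : ℕ} (hab : a ≠ b) (hac : a ≠ c) (hbc : b ≠ c) :
    Dh F (xg a : Mal F) (xg b) (xg c) ∈ ML F xg {a, b, c} := by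
  have g := oper_ML_gen (F := F) (xg (F := F))
  unfold Dh
  refine Submodule.smul_mem _ _ (Submodule.sub_mem _ (Submodule.add_mem _ ?_ ?_)
    (Submodule.smul_mem _ _ ?_))
  · have h := oper_ML_mul (C := {b}) (D := {c} ∪ {a}) (by simp [hbc, hab.symm]) (g b)
      (oper_ML_mul (by simpa using hac.symm) (g c) (g a))
    have e : ({b} ∪ ({c} ∪ {a}) : Finset ℕ) = {a, b, c} := by
      ext i; simp only [mem_union, mem_singleton, mem_insert]; tauto
    rwa [e] at h
  · have h := oper_ML_mul (C := {a}) (D := {b} ∪ {c}) (by simp [hab, hac]) (g a)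
      (oper_ML_mul (by simpa using hbc) (g b) (g c))
    have e : ({a} ∪ ({b} ∪ {c}) : Finset ℕ) = {a, b, c} := by
      ext i; simp only [mem_union, mem_singleton, mem_insert]
    rwa [e] at h
  · have h := oper_ML_mul (C := {c}) (D := {a} ∪ {b}) (by simp [hac.symm, hbc.symm]) (g c)
      (oper_ML_mul (by simpa using hab) (g a) (g b))
    have e : ({c} ∪ ({a} ∪ {b}) : Finset ℕ) = {a, b, c} := by
      ext i; simp only [mem_union, mem_singleton, mem_insert]; tauto
    rwa [e] at h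

theorem Sur_e4_mem {p q r s : ℕ} (hpq : p ≠ q) (hpr : p ≠ r) (hps : p ≠ s) (hqr : q ≠ r)
    (hqs : q ≠ s) (hrs : r ≠ s) :
    e4 F (xg p : Mal F) (xg q) (xg r) (xg s) ∈ ML F xg {p, q, r, s} := by
  have g := oper_ML_gen (F := F) (xg (F := F))
  have hm : (xg p * xg q : Mal F) ∈ ML F xg ({p} ∪ {q}) :=
    oper_ML_mul (by simpa using hpq) (g p) (g q)
  unfold e4
  refine Submodule.sub_mem _ ?_ (Submodule.smul_mem _ _ (Submodule.add_mem _ ?_
    (Submodule.smul_mem _ _ ?_)))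
  · have h := oper_ML_EE (C := {s}) (D := {r}) (E := {p}) (G := {q}) (by simpa using hrs.symm)
      (by simpa using hps.symm) (by simpa using hpr.symm) (by simpa using hqs.symm)
      (by simpa using hqr.symm) (by simpa using hpq) (g s) (g r) (g p) (g q)
    have e : ({s} ∪ {r} ∪ {p} ∪ {q} : Finset ℕ) = {p, q, r, s} := by
      ext i; simp only [mem_union, mem_singleton, mem_insert]; tauto
    rwa [e] at h
  · have h := oper_ML_Dd (C := {s}) (D := {p} ∪ {q}) (E := {r}) (by simp [hps.symm, hqs.symm])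
      (by simpa using hrs.symm) (by simp [hpr.symm, hqr.symm]) (g s) hm (g r)
    have e : ({s} ∪ ({p} ∪ {q}) ∪ {r} : Finset ℕ) = {p, q, r, s} := by
      ext i; simp only [mem_union, mem_singleton, mem_insert]; tauto
    rwa [e] at h
  · have h := oper_ML_Dd (C := {r}) (D := {p} ∪ {q}) (E := {s}) (by simp [hpr.symm, hqr.symm])
      (by simpa using hrs) (by simp [hps.symm, hqs.symm]) (g r) hm (g s)
    have e : ({r} ∪ ({p} ∪ {q}) ∪ {s} : Finset ℕ) = {p, q, r, s} := by
      ext i; simp only [mem_union, mem_singleton, mem_insert]; tauto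
    rwa [e] at h

theorem Sur_e0 : V.ip (V.e 0 : V F) (V.e 0) = 1 := by
  rw [V.ip_e_right, V.e_apply, if_pos rfl]

theorem Sur_three {p q r : ℕ} (hpq : p ≠ q) (hpr : p ≠ r) (hqr : q ≠ r) {f : Fn F}
    (hf : f ∈ W F {p, q, r}) (h0 : rho f = 0) : f ∈ Sur_I F {p, q, r} := by
  obtain ⟨a, b, c, d, rfl⟩ := W_three hpq hpr hqr hf
  have hc : c = -a - b := by
    have hval : (a • V.ip (V.e 0 : V F) (V.e 0) • (V.e 0 : V F) +
        b • V.ip (V.e 0 : V F) (V.e 0) • (V.e 0 : V F) +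
        c • V.ip (V.e 0 : V F) (V.e 0) • (V.e 0 : V F) +
        d • ((V.e 0 : V F) * ((V.e 0 : V F) * (V.e 0 : V F))) : V F) =
        (a + b + c) • (V.e 0 : V F) := by
      rw [Sur_e0, V.mul_self, mul_zero]
      module
    have h1 : ((a + b + c) • (V.e 0 : V F)) 0 = 0 := by
      rw [← hval]
      exact h0
    rw [V.smul_apply, V.e_apply, if_pos rfl, mul_one] at h1
    linear_combination h1
  have hD1 : Dh F (xg r : Mal F) (xg p) (xg q) ∈ ML F xg {p, q, r} := by
    have h := Sur_Dh_mem (F := F) hpr.symm hqr.symm hpq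
    have e : ({r, p, q} : Finset ℕ) = {p, q, r} := by
      ext i; simp only [mem_singleton, mem_insert]; tauto
    rwa [e] at h
  have hD2 : Dh F (xg r : Mal F) (xg q) (xg p) ∈ ML F xg {p, q, r} := by
    have h := Sur_Dh_mem (F := F) hqr.symm hpr.symm hpq.symm
    have e : ({r, q, p} : Finset ℕ) = {p, q, r} := by
      ext i; simp only [mem_singleton, mem_insert]; tauto
    rwa [e] at h
  have hT : ((xg p : Mal F) * ((xg q : Mal F) * (xg r : Mal F))) ∈ ML F xg {p, q, r} := by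
    have g := oper_ML_gen (F := F) (xg (F := F))
    have h := oper_ML_mul (C := {p}) (D := {q} ∪ {r}) (by simp [hpq, hpr]) (g p)
      (oper_ML_mul (by simpa using hqr) (g q) (g r))
    have e : ({p} ∪ ({q} ∪ {r}) : Finset ℕ) = {p, q, r} := by
      ext i; simp only [mem_union, mem_singleton, mem_insert]
    rwa [e] at h
  refine Sur_mem.2 ⟨a • Dh F (xg r) (xg p) (xg q) + b • Dh F (xg r) (xg q) (xg p) +
    d • (xg p * (xg q * xg r)), Submodule.add_mem _ (Submodule.add_mem _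
      (Submodule.smul_mem _ _ hD1) (Submodule.smul_mem _ _ hD2)) (Submodule.smul_mem _ _ hT), ?_⟩
  funext y
  rw [map_add, map_add, map_smul, map_smul, map_smul, Pi.add_apply, Pi.add_apply, Pi.smul_apply,
    Pi.smul_apply, Pi.smul_apply, ev_Dh, ev_Dh, ev_mul, ev_mul, ev_gen, ev_gen, ev_gen, hc,
    V.ip_comm (y r) (y q), V.ip_comm (y r) (y p), V.ip_comm (y q) (y p)]
  module

theorem Sur_phm4 {B : Finset ℕ} {p q r : ℕ} {h : Fn F} (hB : B.card = 4) (hp : p ∈ B)
    (hq : q ∈ B) (hr : r ∈ B) (hpq : p ≠ q) (hpr : p ≠ r) (hqr : q ≠ r)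
    (hh : h ∈ W F (B \ {p, q, r})) : phm p q r h ∈ Sur_I F B := by
  have hc : (B \ {p, q, r}).card = 1 := by
    rw [Sur_card3 hp hq hr hpq hpr hqr, hB]
  obtain ⟨s, hs⟩ := Finset.card_eq_one.1 hc
  rw [hs] at hh
  obtain ⟨c, rfl⟩ := W_one hh
  have hsB : s ∈ B \ {p, q, r} := by rw [hs]; exact mem_singleton_self s
  simp only [mem_sdiff, mem_insert, mem_singleton, not_or] at hsB
  obtain ⟨hsB, hsp, hsq, hsr⟩ := hsB
  have e : B = {p, q, r, s} := by
    symm
    apply Finset.eq_of_subset_of_card_le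
    · intro i hi
      simp only [mem_insert, mem_singleton] at hi
      rcases hi with rfl | rfl | rfl | rfl <;> assumption
    · rw [hB, genW2_card4 hpq hpr (Ne.symm hsp) hqr (Ne.symm hsq) (Ne.symm hsr)]
  rw [e]
  refine Sur_mem.2 ⟨c • e4 F (xg p) (xg q) (xg r) (xg s), Submodule.smul_mem _ _
    (Sur_e4_mem hpq hpr (Ne.symm hsp) hqr (Ne.symm hsq) (Ne.symm hsr)), ?_⟩
  funext y
  rw [map_smul, Pi.smul_apply, ev_e4, ev_gen, ev_gen, ev_gen, ev_gen, phm_apply, smul_comm]

/-- every equivariant function with `rho = 0` is the evaluation of an element of `ML` -/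
theorem ev_surj {B : Finset ℕ} (h2 : 2 ≤ B.card) {f : Fn F} (hf : f ∈ W F B)
    (h0 : rho f = 0) : ∃ u ∈ ML F xg B, ev u = f := by
  suffices H : ∀ n : ℕ, ∀ B : Finset ℕ, B.card = n → 2 ≤ n → ∀ f ∈ W F B, rho f = 0 →
      f ∈ Sur_I F B from Sur_mem.1 (H B.card B rfl h2 f hf h0)
  intro n
  induction n using Nat.strong_induction_on with
  | _ n ih =>
    intro B hB h2 f hf h0
    rcases Nat.lt_or_ge n 5 with h5 | h5
    · have h3 : n = 2 ∨ n = 3 ∨ n = 4 := by omega
      rcases h3 with rfl | rfl | rfl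
      · obtain ⟨p, q, hpq, rfl⟩ := Finset.card_eq_two.1 hB
        exact Sur_two hpq hf
      · obtain ⟨p, q, r, hpq, hpr, hqr, rfl⟩ := Finset.card_eq_three.1 hB
        exact Sur_three hpq hpr hqr hf h0
      · have hle : GW F B ≤ Sur_I F B := by
          refine Submodule.span_le.2 ?_
          rintro g (⟨p, q, h, hp, hq, hpq, hh, rfl⟩ |
            ⟨p, q, r, h, hp, hq, hr, hpq, hpr, hqr, hh, rfl⟩)
          · have hc := oneRow_card_sdiff hp hq hpq
            refine Sur_gm (by omega) hp hq hpq (ih 2 (by omega) _ (by omega) le_rfl h hh ?_)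
            exact rho_even (by rw [show (B \ {p, q}).card = 2 by omega]; exact even_two) hh
          · exact Sur_phm4 hB hp hq hr hpq hpr hqr hh
        exact hle (W_four hB hf)
    · have hle : GS F B ≤ Sur_I F B := by
        refine Submodule.span_le.2 ?_
        rintro g (⟨p, q, h, hp, hq, hpq, hh, hr0, rfl⟩ |
          ⟨p, q, r, h, hp, hq, hr, hpq, hpr, hqr, hh, hr0, rfl⟩)
        · have hc := oneRow_card_sdiff hp hq hpq
          exact Sur_gm (by omega) hp hq hpq
            (ih (B \ {p, q}).card (by omega) _ rfl (by omega) h hh hr0)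
        · have hc := Sur_card3 hp hq hr hpq hpr hqr
          exact Sur_phm (by omega) hp hq hr hpq hpr hqr
            (ih (B \ {p, q, r}).card (by omega) _ rfl (by omega) h hh hr0)
      exact hle (genS (by omega) hf h0)

end

end OctId
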